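import Pool.Agent.Lib.MP_1ad228_nt.FF.FMon

/-! JOB FQuad.  The number of solutions of `n1 n2 = n3 n4` in monic polynomials of degree `b` is at most `(b+1) q^(2b)`.

Proof.  For a solution let `g` be the monic gcd of `n1` and `n3`, `n1 = g x`, `n3 = g y` with `x, y` monic and coprime, `x n2 = y n4`, so `y ∣ n2`: `n2 = y z`, and `n4 = x z`, `z` monic.  With `j = deg x = deg y`:
`deg g = b - j = deg z`.  The map `(n1,n2,n3,n4) ↦ (g, x, y, z)` is injective, with image in the union over `j ≤ b` of `mon (b-j) × mon j × mon j × mon (b-j)`, which have `q^(2b)` elements each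
(`card_mon`).  (`gcd` of `F[X]` as `NormalizedGCDMonoid`, or `EuclideanDomain.gcd` divided by its leading coefficient; `Finset.card_le_card_of_injOn`, or `Finset.card_le_card` for the image of the reverse map
`(g,x,y,z) ↦ (g x, y z, g y, x z)` with `Finset.card_image_le`: only surjectivity of the reverse map is needed.)

`sum_c`: `c f = ∑_{n1 n2 = f} B n1 B n2` satisfies `∑_f (c f)² ≤` the number of solutions, by `|B| ≤ 1`. -/

namespace FZ

open Finset Polynomial

variable {F : Type} [Field F] [Fintype F]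

omit [Fintype F] in
/-- monic gcd of two monic polynomials -/
private theorem FQuad_gcd {n m : F[X]} (hn : n.Monic) (hm : m.Monic) :
    ∃ g x y : F[X], g.Monic ∧ x.Monic ∧ y.Monic ∧ n = g * x ∧ m = g * y ∧ IsCoprime x y := by
  classical
  have hn0 : n ≠ 0 := hn.ne_zero
  set g0 : F[X] := EuclideanDomain.gcd n m with hg0
  obtain ⟨x0, hx0⟩ : g0 ∣ n := EuclideanDomain.gcd_dvd_left n m
  obtain ⟨y0, hy0⟩ : g0 ∣ m := EuclideanDomain.gcd_dvd_right n m
  have hg : g0 ≠ 0 := by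
    intro h
    rw [h, zero_mul] at hx0
    exact hn0 hx0
  set c : F := g0.leadingCoeff with hc
  have hc0 : c ≠ 0 := leadingCoeff_ne_zero.2 hg
  have hcx : c * x0.leadingCoeff = 1 := by
    have := hn.leadingCoeff
    rw [hx0, leadingCoeff_mul] at this
    exact this
  have hcy : c * y0.leadingCoeff = 1 := by
    have := hm.leadingCoeff
    rw [hy0, leadingCoeff_mul] at this
    exact this
  have hCC : (C c⁻¹ : F[X]) * C c = 1 := by
    rw [← C_mul, inv_mul_cancel₀ hc0, C_1]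
  have hcop : IsCoprime x0 y0 := by
    obtain ⟨u, v, huv⟩ : ∃ u v : F[X], g0 = n * u + m * v :=
      ⟨_, _, EuclideanDomain.gcd_eq_gcd_ab n m⟩
    refine ⟨u, v, ?_⟩
    have h1 : g0 * (u * x0 + v * y0) = g0 * 1 := by
      rw [mul_one]
      calc g0 * (u * x0 + v * y0) = (g0 * x0) * u + (g0 * y0) * v := by ring
        _ = g0 := by rw [← hx0, ← hy0, ← huv]
    exact mul_left_cancel₀ hg h1
  refine ⟨g0 * C c⁻¹, x0 * C c, y0 * C c, ?_, ?_, ?_, ?_, ?_, ?_⟩
  · show (g0 * C c⁻¹).leadingCoeff = 1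
    rw [leadingCoeff_mul, leadingCoeff_C, ← hc, mul_inv_cancel₀ hc0]
  · show (x0 * C c).leadingCoeff = 1
    rw [leadingCoeff_mul, leadingCoeff_C, mul_comm, hcx]
  · show (y0 * C c).leadingCoeff = 1
    rw [leadingCoeff_mul, leadingCoeff_C, mul_comm, hcy]
  · calc n = g0 * x0 := hx0
      _ = g0 * x0 * (C c⁻¹ * C c) := by rw [hCC, mul_one]
      _ = g0 * C c⁻¹ * (x0 * C c) := by ring
  · calc m = g0 * y0 := hy0
      _ = g0 * y0 * (C c⁻¹ * C c) := by rw [hCC, mul_one]
      _ = g0 * C c⁻¹ * (y0 * C c) := by ring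
  · have hu : IsUnit (C c : F[X]) := isUnit_C.2 (isUnit_iff_ne_zero.2 hc0)
    exact (isCoprime_mul_unit_right hu x0 y0).2 hcop

open Classical in
theorem card_quad (b : ℕ) :
    ((((mon F b ×ˢ mon F b) ×ˢ (mon F b ×ˢ mon F b)).filter fun q => q.1.1 * q.1.2 = q.2.1 * q.2.2).card : ℝ) ≤
      (b + 1) * (Fintype.card F : ℝ) ^ (2 * b) := by
  -- the reverse map
  let ψ : (F[X] × F[X]) × (F[X] × F[X]) → (F[X] × F[X]) × (F[X] × F[X]) :=
    fun p => ((p.1.1 * p.1.2, p.2.1 * p.2.2), (p.1.1 * p.2.1, p.1.2 * p.2.2))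
  let T : ℕ → Finset ((F[X] × F[X]) × (F[X] × F[X])) :=
    fun j => (mon F (b - j) ×ˢ mon F j) ×ˢ (mon F j ×ˢ mon F (b - j))
  have hsub : (((mon F b ×ˢ mon F b) ×ˢ (mon F b ×ˢ mon F b)).filter
      fun q => q.1.1 * q.1.2 = q.2.1 * q.2.2) ⊆ (range (b + 1)).biUnion fun j => (T j).image ψ := by
    rintro ⟨⟨n1, n2⟩, ⟨n3, n4⟩⟩ hq
    simp only [Finset.mem_filter, Finset.mem_product, mem_mon] at hq
    obtain ⟨⟨⟨⟨m1, d1⟩, ⟨m2, d2⟩⟩, ⟨⟨m3, d3⟩, ⟨m4, d4⟩⟩⟩, heq⟩ := hq
    obtain ⟨g, x, y, hg, hx, hy, e1, e3, hcop⟩ := FQuad_gcd m1 m3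
    have h1 : x * n2 = y * n4 := by
      have : g * (x * n2) = g * (y * n4) := by
        calc g * (x * n2) = (g * x) * n2 := by ring
          _ = (g * y) * n4 := by rw [← e1, ← e3]; exact heq
          _ = g * (y * n4) := by ring
      exact mul_left_cancel₀ hg.ne_zero this
    have h2 : y ∣ n2 := hcop.symm.dvd_of_dvd_mul_left (Dvd.intro _ h1.symm)
    obtain ⟨z, hz⟩ := h2
    have h4 : n4 = x * z := by
      have : y * n4 = y * (x * z) := by
        rw [← h1, hz]
        ring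
      exact mul_left_cancel₀ hy.ne_zero this
    have hzm : z.Monic := by
      rw [hz] at m2
      exact hy.of_mul_monic_left m2
    have dg : g.natDegree + x.natDegree = b := by
      rw [← hg.natDegree_mul hx, ← e1, d1]
    have dg' : g.natDegree + y.natDegree = b := by
      rw [← hg.natDegree_mul hy, ← e3, d3]
    have dz : y.natDegree + z.natDegree = b := by
      rw [← hy.natDegree_mul hzm, ← hz, d2]
    rw [Finset.mem_biUnion]
    refine ⟨x.natDegree, Finset.mem_range.2 (by omega), ?_⟩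
    rw [Finset.mem_image]
    refine ⟨((g, x), (y, z)), ?_, ?_⟩
    · show _ ∈ (mon F (b - x.natDegree) ×ˢ mon F x.natDegree) ×ˢ
        (mon F x.natDegree ×ˢ mon F (b - x.natDegree))
      rw [Finset.mem_product, Finset.mem_product, Finset.mem_product, mem_mon, mem_mon, mem_mon,
        mem_mon]
      exact ⟨⟨⟨hg, by show g.natDegree = _; omega⟩, ⟨hx, rfl⟩⟩,
        ⟨⟨hy, by show y.natDegree = _; omega⟩, ⟨hzm, by show z.natDegree = _; omega⟩⟩⟩
    · simp only [ψ]
      rw [← e1, ← hz, ← e3, ← h4]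
  have hcard : ∀ j ∈ range (b + 1), (T j).card = Fintype.card F ^ (2 * b) := by
    intro j hj
    have hj' : j ≤ b := Nat.lt_succ_iff.1 (Finset.mem_range.1 hj)
    simp only [T, Finset.card_product, card_mon]
    rw [← pow_add, ← pow_add, ← pow_add]
    congr 1
    omega
  have h1 : (((mon F b ×ˢ mon F b) ×ˢ (mon F b ×ˢ mon F b)).filter
      fun q => q.1.1 * q.1.2 = q.2.1 * q.2.2).card ≤ (b + 1) * Fintype.card F ^ (2 * b) := by
    refine (Finset.card_le_card hsub).trans ?_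
    refine Finset.card_biUnion_le.trans ?_
    have : ∑ j ∈ range (b + 1), ((T j).image ψ).card ≤
        ∑ j ∈ range (b + 1), Fintype.card F ^ (2 * b) := by
      refine Finset.sum_le_sum fun j hj => ?_
      exact Finset.card_image_le.trans (hcard j hj).le
    refine this.trans ?_
    rw [Finset.sum_const, Finset.card_range, smul_eq_mul]
  exact_mod_cast h1

open Classical in
/-- the square of the sum over `n`, grouped by the product -/
noncomputable def cf (B : F[X] → ℝ) (b : ℕ) (f : F[X]) : ℝ :=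
  ∑ q ∈ (mon F b ×ˢ mon F b).filter (fun q => q.1 * q.2 = f), B q.1 * B q.2

theorem sum_cf (B : F[X] → ℝ) (hB : ∀ f, |B f| ≤ 1) (b : ℕ) :
    ∑ f ∈ mon F (2 * b), (cf B b f) ^ 2 ≤ (b + 1) * (Fintype.card F : ℝ) ^ (2 * b) := by
  classical
  refine le_trans ?_ (card_quad b)
  set S := (((mon F b ×ˢ mon F b) ×ˢ (mon F b ×ˢ mon F b)).filter
    fun q => q.1.1 * q.1.2 = q.2.1 * q.2.2) with hS
  have hmap : ∀ q ∈ S, q.1.1 * q.1.2 ∈ mon F (2 * b) := by
    intro q hq
    simp only [hS, Finset.mem_filter, Finset.mem_product, mem_mon] at hq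
    obtain ⟨⟨⟨⟨m1, d1⟩, ⟨m2, d2⟩⟩, _⟩, _⟩ := hq
    rw [mem_mon]
    refine ⟨m1.mul m2, ?_⟩
    rw [m1.natDegree_mul m2, d1, d2]
    ring
  have hfw : S.card = ∑ f ∈ mon F (2 * b), (S.filter fun q => q.1.1 * q.1.2 = f).card :=
    Finset.card_eq_sum_card_fiberwise (fun q hq => hmap q hq)
  rw [hfw]
  push_cast
  refine Finset.sum_le_sum fun f _ => ?_
  set P := (mon F b ×ˢ mon F b).filter (fun q => q.1 * q.2 = f) with hP
  have hfib : (S.filter fun q => q.1.1 * q.1.2 = f) = P ×ˢ P := by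
    ext q
    simp only [hS, hP, Finset.mem_filter, Finset.mem_product]
    constructor
    · rintro ⟨⟨⟨ha, hb⟩, hc⟩, hd⟩
      exact ⟨⟨ha, hd⟩, ⟨hb, by rw [← hc, hd]⟩⟩
    · rintro ⟨⟨ha, hd⟩, ⟨hb, hc⟩⟩
      exact ⟨⟨⟨ha, hb⟩, by rw [hd, hc]⟩, hd⟩
  have h1 : |cf B b f| ≤ P.card := by
    unfold cf
    rw [← hP]
    refine (Finset.abs_sum_le_sum_abs _ _).trans ?_
    have : ∑ q ∈ P, |B q.1 * B q.2| ≤ ∑ _q ∈ P, (1 : ℝ) := by
      refine Finset.sum_le_sum fun q _ => ?_
      rw [abs_mul]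
      exact mul_le_one₀ (hB _) (abs_nonneg _) (hB _)
    refine this.trans ?_
    rw [Finset.sum_const, nsmul_eq_mul, mul_one]
  rw [hfib, Finset.card_product]
  push_cast
  rw [← sq_abs, sq]
  exact mul_le_mul h1 h1 (abs_nonneg _) (Nat.cast_nonneg _)

end FZ
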