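import Pool.Agent.Lib.MP_1ad228_nt.FF.FSum
import Pool.Agent.Lib.MP_1ad228_nt.FF.FQuad

/-! JOB FBL.  The bilinear bound.  Compare `Pool/Agent/Lib/MP_10e784_ag/QBLcore.lean` and `QBL.lean` (here it is simpler).

`bl_core` (`a ≤ b`), proof.  Let `𝓜` be the set of the squarefree elements of `mon a`, `S m = ∑_{n ∈ mon b} B n jac m n`.  `|Σ| ≤ ∑_{m ∈ 𝓜} |S m|`, and by Hoelder (Cauchy-Schwarz twice, or `inner_le_nnorm_mul_nnorm`/`Finset.inner_mul_le_norm_mul_norm`,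
`Finset.sum_mul_sq_le_sq_mul_sq`, `inner_mul_le`, `sq_sum_le_card_mul_sum_sq`) `|Σ|^4 ≤ (q^a)^3 A`, `A = ∑_{m ∈ 𝓜} (S m)^4`.
`(S m)² = ∑_{f ∈ mon (2b)} cf B b f * jac m f` (`jac_mul_right`, grouping by `f = n1 n2`).  So
`A = ∑_f cf f · T f`, `T f = ∑_{m∈𝓜} (S m)² jac m f`, and by Cauchy-Schwarz `A² ≤ (∑_f (cf f)²)(∑_f (T f)²)`, `∑_f (cf f)² ≤ (b+1) q^(2b)` (`sum_cf`), and
`∑_f (T f)² = ∑_{m1,m2∈𝓜} (S m1)² (S m2)² ∑_{f ∈ mon (2b)} jac m1 f jac m2 f`.  By `jac_recip` `jac m1 f jac m2 f = jac f m1 jac f m2` (the sign is `χ(-1)^(a·2b) χ(-1)^(a·2b) = 1`), so for `m1 ≠ m2` the inner sum is `0` (`sum_jac_two`, `2a ≤ 2b`);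
for `m1 = m2` it is at most `q^(2b)` (`jac_abs_le`, `card_mon`).  Hence `∑_f (T f)² ≤ q^(2b) A`, `A² ≤ (b+1) q^(4b) A`, `A ≤ (b+1) q^(4b)`, `|Σ|^4 ≤ (b+1) q^(3a+4b)`.
`bl`: for `a ≤ b` take fourth roots of `bl_core` (`(b+1)^(1/4) ≤ b+1`, `q^(3a/4+b) = q^(a+b) q^(-a/4)`); for `b ≤ a` use `jac m n = χ(-1)^(ab) jac n m` and exchange the roles. -/

namespace FZ

open Finset Polynomial

variable {F : Type} [Field F] [Fintype F] [DecidableEq F]

omit [Fintype F] [DecidableEq F] in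
private theorem FBL_cs {κ : Type} (M : Finset κ) (s : κ → ℝ) (N : ℝ) (hN : (M.card : ℝ) ≤ N) :
    (∑ m ∈ M, |s m|) ^ 4 ≤ N ^ 3 * ∑ m ∈ M, (s m) ^ 4 := by
  have hN0 : 0 ≤ N := le_trans (Nat.cast_nonneg _) hN
  have h1 : (∑ m ∈ M, |s m|) ^ 2 ≤ M.card * ∑ m ∈ M, (s m) ^ 2 := by
    have := sq_sum_le_card_mul_sum_sq (s := M) (f := fun m => |s m|)
    simpa [sq_abs] using this
  have h2 : (∑ m ∈ M, (s m) ^ 2) ^ 2 ≤ M.card * ∑ m ∈ M, (s m) ^ 4 := by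
    have := sq_sum_le_card_mul_sum_sq (s := M) (f := fun m => (s m) ^ 2)
    refine this.trans (le_of_eq ?_)
    congr 1
    exact Finset.sum_congr rfl fun m _ => by ring
  have hs2 : 0 ≤ ∑ m ∈ M, (s m) ^ 2 := Finset.sum_nonneg fun m _ => sq_nonneg _
  have hs4 : 0 ≤ ∑ m ∈ M, (s m) ^ 4 := Finset.sum_nonneg fun m _ => by positivity
  have h1' : (∑ m ∈ M, |s m|) ^ 2 ≤ N * ∑ m ∈ M, (s m) ^ 2 :=
    h1.trans (mul_le_mul_of_nonneg_right hN hs2)
  have h2' : (∑ m ∈ M, (s m) ^ 2) ^ 2 ≤ N * ∑ m ∈ M, (s m) ^ 4 :=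
    h2.trans (mul_le_mul_of_nonneg_right hN hs4)
  calc (∑ m ∈ M, |s m|) ^ 4 = ((∑ m ∈ M, |s m|) ^ 2) ^ 2 := by ring
    _ ≤ (N * ∑ m ∈ M, (s m) ^ 2) ^ 2 := pow_le_pow_left₀ (sq_nonneg _) h1' 2
    _ = N ^ 2 * (∑ m ∈ M, (s m) ^ 2) ^ 2 := by ring
    _ ≤ N ^ 2 * (N * ∑ m ∈ M, (s m) ^ 4) := mul_le_mul_of_nonneg_left h2' (sq_nonneg _)
    _ = N ^ 3 * ∑ m ∈ M, (s m) ^ 4 := by ring

/-- the square of the inner sum -/
private theorem FBL_sq (B : F[X] → ℝ) (b : ℕ) (m : F[X]) :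
    (∑ n ∈ mon F b, B n * (jac m n : ℝ)) ^ 2 = ∑ f ∈ mon F (2 * b), cf B b f * (jac m f : ℝ) := by
  classical
  have hmap : ∀ q ∈ mon F b ×ˢ mon F b, q.1 * q.2 ∈ mon F (2 * b) := by
    intro q hq
    simp only [Finset.mem_product, mem_mon] at hq
    obtain ⟨⟨m1, d1⟩, ⟨m2, d2⟩⟩ := hq
    rw [mem_mon]
    refine ⟨m1.mul m2, ?_⟩
    rw [m1.natDegree_mul m2, d1, d2]
    ring
  rw [sq, Finset.sum_mul_sum, ← Finset.sum_product',
    ← Finset.sum_fiberwise_of_maps_to (g := fun q : F[X] × F[X] => q.1 * q.2) hmap]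
  refine Finset.sum_congr rfl fun f _ => ?_
  unfold cf
  rw [Finset.sum_mul]
  refine Finset.sum_congr (by congr!) fun q hq => ?_
  simp only [Finset.mem_filter, Finset.mem_product, mem_mon] at hq
  obtain ⟨⟨⟨m1, d1⟩, ⟨m2, d2⟩⟩, hf⟩ := hq
  rw [← hf, jac_mul_right m1 m2]
  push_cast
  ring

private theorem FBL_orth (h2 : ringChar F ≠ 2) (a b : ℕ) (hab : a ≤ b) (m1 m2 : F[X])
    (h1 : m1 ∈ mon F a) (h1' : m2 ∈ mon F a) (s1 : Squarefree m1) (s2 : Squarefree m2)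
    (hne : m1 ≠ m2) : ∑ f ∈ mon F (2 * b), (jac m1 f : ℝ) * (jac m2 f : ℝ) = 0 := by
  rw [mem_mon] at h1 h1'
  rw [← sum_jac_two h2 h1.1 h1'.1 s1 s2 hne (2 * b) (by omega)]
  refine Finset.sum_congr rfl fun f hf => ?_
  rw [mem_mon] at hf
  rw [jac_recip h1.1 hf.1, jac_recip h1'.1 hf.1, h1.2, h1'.2]
  have hχ : (quadraticChar F (-1)) ^ (a * f.natDegree) * (quadraticChar F (-1)) ^ (a * f.natDegree) = 1 := by
    rw [← mul_pow, ← sq, quadraticChar_sq_one (neg_ne_zero.2 one_ne_zero), one_pow]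
  have hχ' : (((quadraticChar F (-1)) ^ (a * f.natDegree) : ℤ) : ℝ) *
      (((quadraticChar F (-1)) ^ (a * f.natDegree) : ℤ) : ℝ) = 1 := by
    exact_mod_cast hχ
  push_cast
  push_cast at hχ'
  linear_combination (jac f m1 : ℝ) * (jac f m2 : ℝ) * hχ'

theorem bl_core (h2 : ringChar F ≠ 2) (A B : F[X] → ℝ) (a b : ℕ) (hA : ∀ f, |A f| ≤ 1) (hB : ∀ f, |B f| ≤ 1)
    (hAs : ∀ f, A f ≠ 0 → Squarefree f) (hab : a ≤ b) :
    |∑ m ∈ mon F a, ∑ n ∈ mon F b, A m * B n * (jac m n : ℝ)| ^ 4 ≤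
      (b + 1) * (Fintype.card F : ℝ) ^ (3 * a + 4 * b) := by
  classical
  set q : ℝ := (Fintype.card F : ℝ) with hq
  have hq0 : 0 ≤ q := Nat.cast_nonneg _
  set M := (mon F a).filter (fun m => Squarefree m) with hM
  set S : F[X] → ℝ := fun m => ∑ n ∈ mon F b, B n * (jac m n : ℝ) with hS
  have hMcard : (M.card : ℝ) ≤ q ^ a := by
    have : M.card ≤ (mon F a).card := Finset.card_filter_le _ _
    rw [card_mon] at this
    rw [hq]
    exact_mod_cast this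
  have h1 : |∑ m ∈ mon F a, ∑ n ∈ mon F b, A m * B n * (jac m n : ℝ)| ≤ ∑ m ∈ M, |S m| := by
    have e1 : ∑ m ∈ mon F a, ∑ n ∈ mon F b, A m * B n * (jac m n : ℝ) = ∑ m ∈ M, A m * S m := by
      rw [hM, Finset.sum_filter]
      refine Finset.sum_congr rfl fun m _ => ?_
      by_cases hm : Squarefree m
      · rw [if_pos hm, hS]
        simp only
        rw [Finset.mul_sum]
        exact Finset.sum_congr rfl fun n _ => by ring
      · rw [if_neg hm]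
        have hA0 : A m = 0 := by
          by_contra h
          exact hm (hAs m h)
        refine Finset.sum_eq_zero fun n _ => ?_
        rw [hA0]
        ring
    rw [e1]
    refine (Finset.abs_sum_le_sum_abs _ _).trans (Finset.sum_le_sum fun m _ => ?_)
    rw [abs_mul]
    exact mul_le_of_le_one_left (abs_nonneg _) (hA m)
  have h3 := FBL_cs M S (q ^ a) hMcard
  set A4 : ℝ := ∑ m ∈ M, (S m) ^ 4 with hA4
  have hA4nn : 0 ≤ A4 := Finset.sum_nonneg fun m _ => by positivity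
  set T : F[X] → ℝ := fun f => ∑ m ∈ M, (S m) ^ 2 * (jac m f : ℝ) with hT
  have e2 : A4 = ∑ f ∈ mon F (2 * b), cf B b f * T f := by
    have : ∀ m ∈ M, (S m) ^ 4 = ∑ f ∈ mon F (2 * b), cf B b f * ((S m) ^ 2 * (jac m f : ℝ)) := by
      intro m _
      calc (S m) ^ 4 = (S m) ^ 2 * (S m) ^ 2 := by ring
        _ = (S m) ^ 2 * ∑ f ∈ mon F (2 * b), cf B b f * (jac m f : ℝ) := by
          rw [← FBL_sq B b m]
        _ = ∑ f ∈ mon F (2 * b), cf B b f * ((S m) ^ 2 * (jac m f : ℝ)) := by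
          rw [Finset.mul_sum]
          exact Finset.sum_congr rfl fun f _ => by ring
    rw [hA4, Finset.sum_congr rfl this, Finset.sum_comm]
    refine Finset.sum_congr rfl fun f _ => ?_
    rw [hT]
    simp only
    rw [Finset.mul_sum]
  have e3 : ∑ f ∈ mon F (2 * b), (T f) ^ 2 ≤ q ^ (2 * b) * A4 := by
    have e4 : ∑ f ∈ mon F (2 * b), (T f) ^ 2 = ∑ m1 ∈ M, ∑ m2 ∈ M, (S m1) ^ 2 * (S m2) ^ 2 *
        ∑ f ∈ mon F (2 * b), (jac m1 f : ℝ) * (jac m2 f : ℝ) := by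
      have : ∀ f, (T f) ^ 2 = ∑ m1 ∈ M, ∑ m2 ∈ M, (S m1) ^ 2 * (S m2) ^ 2 *
          ((jac m1 f : ℝ) * (jac m2 f : ℝ)) := by
        intro f
        rw [sq, hT]
        simp only
        rw [Finset.sum_mul_sum]
        refine Finset.sum_congr rfl fun m1 _ => Finset.sum_congr rfl fun m2 _ => ?_
        ring
      rw [Finset.sum_congr rfl fun f _ => this f, Finset.sum_comm]
      refine Finset.sum_congr rfl fun m1 _ => ?_
      rw [Finset.sum_comm]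
      refine Finset.sum_congr rfl fun m2 _ => ?_
      rw [Finset.mul_sum]
    rw [e4, hA4, Finset.mul_sum]
    refine Finset.sum_le_sum fun m1 hm1 => ?_
    rw [Finset.sum_eq_single m1]
    · have h5 : ∑ f ∈ mon F (2 * b), (jac m1 f : ℝ) * (jac m1 f : ℝ) ≤ q ^ (2 * b) := by
        have : ∑ f ∈ mon F (2 * b), (jac m1 f : ℝ) * (jac m1 f : ℝ) ≤
            ∑ _f ∈ mon F (2 * b), (1 : ℝ) := by
          refine Finset.sum_le_sum fun f _ => ?_
          have := jac_abs_le m1 f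
          rw [← sq, ← sq_abs]
          exact pow_le_one₀ (abs_nonneg _) this
        refine this.trans ?_
        rw [Finset.sum_const, nsmul_eq_mul, mul_one, card_mon]
        push_cast
        rfl
      calc (S m1) ^ 2 * (S m1) ^ 2 * ∑ f ∈ mon F (2 * b), (jac m1 f : ℝ) * (jac m1 f : ℝ)
          ≤ (S m1) ^ 2 * (S m1) ^ 2 * q ^ (2 * b) :=
            mul_le_mul_of_nonneg_left h5 (mul_nonneg (sq_nonneg _) (sq_nonneg _))
        _ = q ^ (2 * b) * (S m1) ^ 4 := by ring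
    · intro m2 hm2 hne
      rw [hM, Finset.mem_filter] at hm1 hm2
      rw [FBL_orth h2 a b hab m1 m2 hm1.1 hm2.1 hm1.2 hm2.2 (Ne.symm hne), mul_zero]
    · intro h
      exact absurd hm1 h
  have h6 : A4 ^ 2 ≤ ((b + 1) * q ^ (2 * b)) * (q ^ (2 * b) * A4) := by
    rw [e2]
    rw [← e2]
    calc A4 ^ 2 = (∑ f ∈ mon F (2 * b), cf B b f * T f) ^ 2 := by rw [← e2]
      _ ≤ (∑ f ∈ mon F (2 * b), (cf B b f) ^ 2) * ∑ f ∈ mon F (2 * b), (T f) ^ 2 :=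
        Finset.sum_mul_sq_le_sq_mul_sq _ _ _
      _ ≤ ((b + 1) * q ^ (2 * b)) * (q ^ (2 * b) * A4) := by
        refine mul_le_mul (sum_cf B hB b) e3 (Finset.sum_nonneg fun f _ => sq_nonneg _) ?_
        positivity
  have h7 : A4 ≤ (b + 1) * q ^ (4 * b) := by
    rcases hA4nn.eq_or_lt with h0 | h0
    · rw [← h0]
      positivity
    · have : A4 * A4 ≤ ((b + 1) * q ^ (4 * b)) * A4 := by
        calc A4 * A4 = A4 ^ 2 := by ring
          _ ≤ _ := h6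
          _ = ((b + 1) * q ^ (4 * b)) * A4 := by
            have : q ^ (4 * b) = q ^ (2 * b) * q ^ (2 * b) := by
              rw [← pow_add]
              congr 1
              ring
            rw [this]
            ring
      exact le_of_mul_le_mul_right this h0
  calc |∑ m ∈ mon F a, ∑ n ∈ mon F b, A m * B n * (jac m n : ℝ)| ^ 4
      ≤ (∑ m ∈ M, |S m|) ^ 4 := pow_le_pow_left₀ (abs_nonneg _) h1 4
    _ ≤ (q ^ a) ^ 3 * A4 := h3
    _ ≤ (q ^ a) ^ 3 * ((b + 1) * q ^ (4 * b)) := mul_le_mul_of_nonneg_left h7 (by positivity)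
    _ = (b + 1) * q ^ (3 * a + 4 * b) := by
      rw [← pow_mul, pow_add, mul_comm a 3]
      ring

private theorem FBL_root (q x : ℝ) (a b : ℕ) (hq : 0 < q) (_hx : 0 ≤ x)
    (h : x ^ 4 ≤ (b + 1) * q ^ (3 * a + 4 * b)) :
    x ≤ q ^ (a + b) * q ^ (-(a : ℝ) / 4) * ((b : ℝ) + 1) := by
  have h1 : 0 ≤ q ^ (a + b) * q ^ (-(a : ℝ) / 4) * ((b : ℝ) + 1) := by positivity
  refine le_of_pow_le_pow_left₀ (n := 4) (by norm_num) h1 (h.trans ?_)
  have h2 : (q ^ (-(a : ℝ) / 4)) ^ 4 = (q ^ a)⁻¹ := by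
    rw [← Real.rpow_natCast, ← Real.rpow_mul hq.le, ← Real.rpow_natCast, ← Real.rpow_neg hq.le]
    congr 1
    push_cast
    ring
  have h3 : ((b : ℝ) + 1) ≤ ((b : ℝ) + 1) ^ 4 := by
    have hb : (1 : ℝ) ≤ (b : ℝ) + 1 := by
      have : (0 : ℝ) ≤ b := Nat.cast_nonneg b
      linarith
    exact le_self_pow₀ hb (by norm_num)
  have h4 : (q ^ (a + b) * q ^ (-(a : ℝ) / 4) * ((b : ℝ) + 1)) ^ 4 =
      q ^ (3 * a + 4 * b) * ((b : ℝ) + 1) ^ 4 := by
    rw [mul_pow, mul_pow, h2]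
    have h5 : (q ^ (a + b)) ^ 4 = q ^ (3 * a + 4 * b) * q ^ a := by
      rw [← pow_mul, ← pow_add]
      congr 1
      ring
    rw [h5]
    have h6 : q ^ a ≠ 0 := by positivity
    field_simp
  rw [h4, mul_comm]
  exact mul_le_mul_of_nonneg_left h3 (by positivity)

theorem bl (h2 : ringChar F ≠ 2) (A B : F[X] → ℝ) (a b : ℕ) (hA : ∀ f, |A f| ≤ 1) (hB : ∀ f, |B f| ≤ 1)
    (hAs : ∀ f, A f ≠ 0 → Squarefree f) (hBs : ∀ f, B f ≠ 0 → Squarefree f) :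
    |∑ m ∈ mon F a, ∑ n ∈ mon F b, A m * B n * (jac m n : ℝ)| ≤
      (Fintype.card F : ℝ) ^ (a + b) * (Fintype.card F : ℝ) ^ (-((min a b : ℕ) : ℝ) / 4) * ((max a b : ℕ) + 1) := by
  have hq : (0 : ℝ) < (Fintype.card F : ℝ) := by
    exact_mod_cast Fintype.card_pos
  rcases le_total a b with hab | hab
  · rw [min_eq_left hab, max_eq_right hab]
    exact FBL_root _ _ a b hq (abs_nonneg _) (bl_core h2 A B a b hA hB hAs hab)
  · rw [min_eq_right hab, max_eq_left hab, add_comm a b]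
    have h1 := FBL_root _ _ b a hq (abs_nonneg _) (bl_core h2 B A b a hB hA hBs hab)
    refine le_trans (le_of_eq ?_) h1
    have h3 : ∑ m ∈ mon F a, ∑ n ∈ mon F b, A m * B n * (jac m n : ℝ) =
        ((((quadraticChar F (-1)) ^ (a * b) : ℤ) : ℝ)) *
          ∑ m ∈ mon F b, ∑ n ∈ mon F a, B m * A n * (jac m n : ℝ) := by
      rw [Finset.sum_comm, Finset.mul_sum]
      refine Finset.sum_congr rfl fun n hn => ?_
      rw [Finset.mul_sum]
      refine Finset.sum_congr rfl fun m hm => ?_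
      rw [mem_mon] at hn hm
      rw [jac_recip hm.1 hn.1, hm.2, hn.2]
      push_cast
      ring
    have h4 : |((((quadraticChar F (-1)) ^ (a * b) : ℤ) : ℝ))| = 1 := by
      have h5 : (quadraticChar F (-1)) = 1 ∨ (quadraticChar F (-1)) = -1 :=
        quadraticChar_dichotomy (neg_ne_zero.2 one_ne_zero)
      rcases h5 with h5 | h5
      · rw [h5]; simp
      · rw [h5]; simp
    rw [h3, abs_mul, h4, one_mul]

end FZ
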