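import Pool.Agent.Lib.MP_1ad228_nt.FF.FDefs

/-! JOB FBase.  Base change of a finite extension `K/F` to a bigger field `F'`, in any characteristic (`K ⊗_F F'` may be non-reduced).
(The separable case: `Pool/Agent/Lib/MP_1ad228_nt/ZBase.lean`; the lemma `ZBase_norm_tensor` there is useful.)

`exists_residues`: let `R` be a commutative `k`-algebra (`k` a field) and `M` an `R`-module which is finite-dimensional over `k` (compatible scalar tower).  There is a list `l` of pairs (a field `L` finite over `k`, a `k`-algebra homomorphism
  `φ : R → L`) with `∑ [L : k] = dim_k M` and, for all `x ∈ R`, `det (x | M) = ∏ N_{L/k}(φ x)`.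
  Proof: induction on `dim_k M`.  `M = 0`: empty list.  Otherwise `M` has a maximal (or minimal) `R`-submodule `N` (`IsArtinian`/`IsNoetherian` as finite-dimensional over `k`, e.g. a submodule `N ≠ M` of maximal dimension); `M/N` is simple,
  so `M/N ≅ R/𝔪` as an `R`-module for a maximal ideal `𝔪` (`isSimpleModule_iff_quot_maximal`); `L = R/𝔪` is a field, finite over `k` (same dimension as `M/N`).  `det (x | M) = det (x | N) det (x | M/N)`
  (`LinearMap.det_eq_det_mul_det`, block triangular; search Mathlib for `det_mapQ`/`LinearMap.det_restrict...`), and `det (x | R/𝔪)` is the norm of `x` (`Algebra.norm_apply`).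
  Apply the induction hypothesis to `N`.  (Universe: all types in `Type`; `L = R ⧸ 𝔪`.)
`base_change`: `R = M = F' ⊗[F] K`, `dim_{F'} R = [K:F]` (`Module.finrank_baseChange`), `φ` composed with `K → R`; `N_{R/F'}(1 ⊗ x) = algebraMap (N_{K/F} x)` (`LinearMap.det_baseChange`, see `ZBase_norm_tensor`). -/

namespace FZ

/-- a bundled finite extension of `F'`, with a ring homomorphism from `K` -/
structure FExt (K F' : Type) [Field K] [Field F'] where
  L : Type
  [field : Field L]
  [alg : Algebra F' L]
  [fin : FiniteDimensional F' L]
  φ : K →+* L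

attribute [instance] FExt.field FExt.alg FExt.fin

open scoped TensorProduct

/-- residue field data of a `k`-algebra `R` -/
private structure FBase_Res (k R : Type) [Field k] [CommRing R] [Algebra k R] where
  L : Type
  [field : Field L]
  [alg : Algebra k L]
  [fin : FiniteDimensional k L]
  φ : R →ₐ[k] L

attribute [instance] FBase_Res.field FBase_Res.alg FBase_Res.fin

private def FBase_sub {k R M : Type} [Field k] [CommRing R] [Algebra k R] [AddCommGroup M]
    [Module k M] [Module R M] [IsScalarTower k R M] (N : Submodule R M) :
    ↥(N.restrictScalars k) ≃ₗ[k] ↥N where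
  toFun y := ⟨y.1, y.2⟩
  invFun y := ⟨y.1, y.2⟩
  map_add' _ _ := rfl
  map_smul' _ _ := rfl
  left_inv _ := rfl
  right_inv _ := rfl

private theorem FBase_res (k R : Type) [Field k] [CommRing R] [Algebra k R] :
    ∀ (n : ℕ) (M : Type) [AddCommGroup M] [Module k M] [Module R M] [IsScalarTower k R M]
      [FiniteDimensional k M], Module.finrank k M = n →
      ∃ l : List (FBase_Res k R), (l.map fun E => Module.finrank k E.L).sum = n ∧
        ∀ x : R, (l.map fun E => Algebra.norm k (E.φ x)).prod =
          LinearMap.det (Algebra.lsmul k k M x) := by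
  intro n
  induction n using Nat.strong_induction_on with
  | _ n ih =>
    intro M _ _ _ _ _ hn
    rcases Nat.eq_zero_or_pos n with h0 | hpos
    · refine ⟨[], by simp [h0], ?_⟩
      intro x
      rw [LinearMap.det_eq_one_of_finrank_eq_zero (by rw [hn, h0])]
      simp
    · have hnt : Nontrivial M := Module.nontrivial_of_finrank_pos (R := k) (by omega)
      have hno : IsNoetherian R M := isNoetherian_of_tower k inferInstance
      obtain ⟨N, hN⟩ : ∃ N : Submodule R M, IsCoatom N := by
        rcases eq_top_or_exists_le_coatom (⊥ : Submodule R M) with h | ⟨N, hN, -⟩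
        · exact absurd h bot_ne_top
        · exact ⟨N, hN⟩
      have hsim : IsSimpleModule R (M ⧸ N) := isSimpleModule_iff_isCoatom.2 hN
      obtain ⟨I, hI, ⟨e⟩⟩ := isSimpleModule_iff_quot_maximal.1 hsim
      let W : Submodule k M := N.restrictScalars k
      let e' : (M ⧸ W) ≃ₗ[k] (R ⧸ I) :=
        (Submodule.Quotient.restrictScalarsEquiv k N).trans (e.restrictScalars k)
      have hfin : FiniteDimensional k (R ⧸ I) := LinearEquiv.finiteDimensional e'
      let fld : Field (R ⧸ I) := Ideal.Quotient.field I
      have hrank : Module.finrank k (M ⧸ W) + Module.finrank k W = n := by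
        rw [← hn]
        exact Submodule.finrank_quotient_add_finrank W
      have hrank2 : Module.finrank k (M ⧸ W) = Module.finrank k (R ⧸ I) :=
        LinearEquiv.finrank_eq e'
      have hpos2 : 0 < Module.finrank k (R ⧸ I) := by
        have : Nontrivial (R ⧸ I) := inferInstance
        exact Module.finrank_pos
      have hW : Module.finrank k W = Module.finrank k N := LinearEquiv.finrank_eq (FBase_sub N)
      have hfN : FiniteDimensional k N := LinearEquiv.finiteDimensional (FBase_sub (k := k) N)
      obtain ⟨l, hl1, hl2⟩ := ih (Module.finrank k N) (by omega) N rfl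
      let E : FBase_Res k R :=
        { L := R ⧸ I
          field := fld
          alg := inferInstance
          fin := hfin
          φ := Ideal.Quotient.mkₐ k I }
      refine ⟨E :: l, ?_, ?_⟩
      · rw [List.map_cons, List.sum_cons, hl1]
        change Module.finrank k (R ⧸ I) + _ = n
        omega
      · intro x
        rw [List.map_cons, List.prod_cons, hl2]
        have he : W ≤ W.comap (Algebra.lsmul k k M x) := by
          intro y hy
          exact N.smul_mem x hy
        rw [LinearMap.det_eq_det_mul_det W (Algebra.lsmul k k M x) he, mul_comm]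
        congr 1
        · have h1 := LinearMap.det_conj (W.mapQ W (Algebra.lsmul k k M x) he) e'
          rw [← h1]
          change Algebra.norm k (Ideal.Quotient.mkₐ k I x) = _
          rw [Algebra.norm_apply]
          congr 1
          apply LinearMap.ext
          intro y
          obtain ⟨z, rfl⟩ := e'.surjective y
          obtain ⟨w, rfl⟩ := Submodule.Quotient.mk_surjective W z
          have h2 : (Ideal.Quotient.mkₐ k I x) * e' (Submodule.Quotient.mk w) =
              e' (Submodule.Quotient.mk (x • w)) := by
            have h3 : e' (Submodule.Quotient.mk (x • w)) =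
                e (Submodule.Quotient.mk (x • w)) := rfl
            have h4 : e' (Submodule.Quotient.mk w) = e (Submodule.Quotient.mk w) := rfl
            rw [h3, h4, Submodule.Quotient.mk_smul, map_smul]
            rfl
          change (Ideal.Quotient.mkₐ k I x) * e' (Submodule.Quotient.mk w) =
            e' (W.mapQ W (Algebra.lsmul k k M x) he (e'.symm (e' (Submodule.Quotient.mk w))))
          rw [LinearEquiv.symm_apply_apply, h2]
          rfl

private theorem FBase_norm_tensor {F F' K : Type} [Field F] [Field F'] [Field K] [Algebra F F']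
    [Algebra F K] [FiniteDimensional F K] (x : K) :
    Algebra.norm F' ((1 : F') ⊗ₜ[F] x) = algebraMap F F' (Algebra.norm F x) := by
  rw [Algebra.norm_apply, Algebra.norm_apply, ← LinearMap.det_baseChange]
  congr 1
  ext y
  simp

theorem base_change (F F' K : Type) [Field F] [Field F'] [Field K] [Algebra F F'] [Algebra F K]
    [FiniteDimensional F K] :
    ∃ l : List (FExt K F'), (∀ E ∈ l, ∀ c : F, E.φ (algebraMap F K c) = algebraMap F' E.L (algebraMap F F' c)) ∧
      (l.map fun E => Module.finrank F' E.L).sum = Module.finrank F K ∧
      ∀ x : K, (l.map fun E => Algebra.norm F' (E.φ x)).prod = algebraMap F F' (Algebra.norm F x) := by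
  obtain ⟨l, hl1, hl2⟩ := FBase_res F' (F' ⊗[F] K) (Module.finrank F' (F' ⊗[F] K)) (F' ⊗[F] K) rfl
  let G : FBase_Res F' (F' ⊗[F] K) → FExt K F' := fun E =>
    { L := E.L
      field := E.field
      alg := E.alg
      fin := E.fin
      φ := E.φ.toRingHom.comp
        (Algebra.TensorProduct.includeRight : K →ₐ[F] F' ⊗[F] K).toRingHom }
  have hφ : ∀ (E : FBase_Res F' (F' ⊗[F] K)) (x : K), (G E).φ x = E.φ ((1 : F') ⊗ₜ[F] x) :=
    fun _ _ => rfl
  refine ⟨l.map G, ?_, ?_, ?_⟩
  · intro E' hE' c
    obtain ⟨E, _, rfl⟩ := List.mem_map.1 hE'
    rw [hφ]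
    have h1 : ((1 : F') ⊗ₜ[F] (algebraMap F K c)) =
        algebraMap F' (F' ⊗[F] K) (algebraMap F F' c) := by
      rw [Algebra.TensorProduct.algebraMap_apply, Algebra.algebraMap_eq_smul_one,
        TensorProduct.tmul_smul, TensorProduct.smul_tmul', Algebra.smul_def, mul_one]
      rfl
    rw [h1, E.φ.commutes]
  · rw [List.map_map]
    change (l.map (fun E => Module.finrank F' E.L)).sum = _
    rw [hl1, Module.finrank_baseChange]
  · intro x
    rw [List.map_map]
    change (l.map (fun E => Algebra.norm F' (E.φ ((1 : F') ⊗ₜ[F] x)))).prod = _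
    rw [hl2, ← FBase_norm_tensor, Algebra.norm_apply]
    rfl

end FZ
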