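import Pool.Agent.Lib.MP_1ad228_nt.FF.FRel

/-! JOB FC1.  Sums over monic divisors, the von Mangoldt function, the convolution `∑_{d ∣ f} χ d`. -/

namespace FZ

open Finset Polynomial

variable {F : Type} [Field F] [Fintype F]

private theorem fc1_mdiv_one : mdiv (1 : F[X]) = {1} := by
  ext d
  rw [mem_mdiv one_ne_zero, mem_singleton]
  constructor
  · rintro ⟨h1, h2⟩
    exact h1.eq_one_of_isUnit (isUnit_of_dvd_one h2)
  · rintro rfl
    exact ⟨monic_one, dvd_rfl⟩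

private theorem fc1_exists_factor {f : F[X]} (hf : f.Monic) (h1 : f ≠ 1) :
    ∃ (P g : F[X]) (e : ℕ), P.Monic ∧ Irreducible P ∧ g.Monic ∧ ¬ P ∣ g ∧ 1 ≤ e ∧ f = P ^ e * g := by
  have hnu : ¬ IsUnit f := fun h => h1 (hf.eq_one_of_isUnit h)
  obtain ⟨P, hPm, hPi, hPd⟩ := exists_monic_irreducible_factor f hnu
  have hfin : FiniteMultiplicity P f := FiniteMultiplicity.of_not_isUnit hPi.not_isUnit hf.ne_zero
  obtain ⟨g, hg1, hg2⟩ := hfin.exists_eq_pow_mul_and_not_dvd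
  refine ⟨P, g, multiplicity P f, hPm, hPi, ?_, hg2, ?_, hg1⟩
  · refine (hPm.pow (multiplicity P f)).of_mul_monic_left ?_
    rw [← hg1]
    exact hf
  · by_contra hcon
    have h0 : multiplicity P f = 0 := by omega
    rw [h0, pow_zero, one_mul] at hg1
    rw [hg1] at hPd
    exact hg2 hPd

private theorem fc1_mem {P g d : F[X]} {e : ℕ} (hPm : P.Monic) (hPi : Irreducible P) (hg : g.Monic)
    (hPg : ¬ P ∣ g) :
    d ∈ mdiv (P ^ e * g) ↔ ∃ k ∈ range (e + 1), ∃ d' ∈ mdiv g, P ^ k * d' = d := by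
  have hne : P ^ e * g ≠ 0 := mul_ne_zero (pow_ne_zero _ hPm.ne_zero) hg.ne_zero
  rw [mem_mdiv hne]
  constructor
  · rintro ⟨h1, h2⟩
    have hfin : FiniteMultiplicity P d := FiniteMultiplicity.of_not_isUnit hPi.not_isUnit h1.ne_zero
    obtain ⟨d', hd1, hd2⟩ := hfin.exists_eq_pow_mul_and_not_dvd
    set k := multiplicity P d with hk
    have hm : d'.Monic := by
      refine (hPm.pow k).of_mul_monic_left ?_
      rw [← hd1]
      exact h1
    refine ⟨k, ?_, d', ?_, hd1.symm⟩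
    · have h3 : P ^ k ∣ P ^ e := by
        refine hPi.prime.pow_dvd_of_dvd_mul_right k hPg ?_
        exact (Dvd.intro _ hd1.symm).trans h2
      have h4 := (pow_dvd_pow_iff hPm.ne_zero hPi.not_isUnit).1 h3
      rw [mem_range]
      omega
    · rw [mem_mdiv hg.ne_zero]
      refine ⟨hm, ?_⟩
      have hcop : IsCoprime d' (P ^ e) := by
        apply IsCoprime.pow_right
        exact ((hPi.coprime_iff_not_dvd).2 hd2).symm
      refine hcop.dvd_of_dvd_mul_left ?_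
      exact (Dvd.intro_left _ hd1.symm).trans h2
  · rintro ⟨k, hk, d', hd', rfl⟩
    rw [mem_mdiv hg.ne_zero] at hd'
    rw [mem_range] at hk
    exact ⟨(hPm.pow k).mul hd'.1, mul_dvd_mul (pow_dvd_pow P (by omega)) hd'.2⟩

private theorem fc1_inj {P d d' : F[X]} {k l : ℕ} (hPm : P.Monic) (hPi : Irreducible P)
    (hd : ¬ P ∣ d) (hd' : ¬ P ∣ d') (h : P ^ k * d = P ^ l * d') : k = l ∧ d = d' := by
  have h1 : P ^ k ∣ P ^ l := by
    refine hPi.prime.pow_dvd_of_dvd_mul_right k hd' ?_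
    rw [← h]
    exact Dvd.intro _ rfl
  have h2 : P ^ l ∣ P ^ k := by
    refine hPi.prime.pow_dvd_of_dvd_mul_right l hd ?_
    rw [h]
    exact Dvd.intro _ rfl
  have h3 := (pow_dvd_pow_iff hPm.ne_zero hPi.not_isUnit).1 h1
  have h4 := (pow_dvd_pow_iff hPm.ne_zero hPi.not_isUnit).1 h2
  have h5 : k = l := by omega
  subst h5
  exact ⟨rfl, mul_left_cancel₀ (pow_ne_zero k hPm.ne_zero) h⟩

private theorem fc1_sum {R : Type} [AddCommMonoid R] (φ : F[X] → R) {P g : F[X]} {e : ℕ}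
    (hPm : P.Monic) (hPi : Irreducible P) (hg : g.Monic) (hPg : ¬ P ∣ g) :
    ∑ d ∈ mdiv (P ^ e * g), φ d = ∑ k ∈ range (e + 1), ∑ d ∈ mdiv g, φ (P ^ k * d) := by
  classical
  have hnd : ∀ d ∈ mdiv g, ¬ P ∣ d := by
    intro d hd hPd
    rw [mem_mdiv hg.ne_zero] at hd
    exact hPg (hPd.trans hd.2)
  have himg : mdiv (P ^ e * g) = (range (e + 1) ×ˢ mdiv g).image (fun x => P ^ x.1 * x.2) := by
    ext d
    rw [fc1_mem hPm hPi hg hPg, mem_image]
    constructor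
    · rintro ⟨k, hk, d', hd', rfl⟩
      exact ⟨(k, d'), mem_product.2 ⟨hk, hd'⟩, rfl⟩
    · rintro ⟨⟨k, d'⟩, hx, rfl⟩
      exact ⟨k, (mem_product.1 hx).1, d', (mem_product.1 hx).2, rfl⟩
  rw [himg, sum_image, sum_product]
  rintro ⟨k, d⟩ hx ⟨l, d'⟩ hy h
  have h1 := hnd d (mem_product.1 hx).2
  have h2 := hnd d' (mem_product.1 hy).2
  obtain ⟨h3, h4⟩ := fc1_inj hPm hPi h1 h2 h
  exact Prod.ext h3 h4

theorem sum_mdiv (H : F[X] → F[X] → ℝ) (m : ℕ) :
    ∑ f ∈ mon F m, ∑ d ∈ mdiv f, H d (f /ₘ d) =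
      ∑ ij ∈ antidiagonal m, ∑ d ∈ mon F ij.1, ∑ e ∈ mon F ij.2, H d e := by
  classical
  have e1 : ∀ ij : ℕ × ℕ, ∑ d ∈ mon F ij.1, ∑ e ∈ mon F ij.2, H d e =
      ∑ x ∈ mon F ij.1 ×ˢ mon F ij.2, H x.1 x.2 := by
    intro ij
    rw [sum_product]
  rw [sum_congr rfl (fun ij _ => e1 ij), sum_sigma', sum_sigma']
  refine sum_bij'
    (fun x _ => (⟨(x.2.natDegree, (x.1 /ₘ x.2).natDegree), (x.2, x.1 /ₘ x.2)⟩ :
      Σ _ : ℕ × ℕ, F[X] × F[X]))
    (fun y _ => (⟨y.2.1 * y.2.2, y.2.1⟩ : Σ _ : F[X], F[X])) ?_ ?_ ?_ ?_ ?_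
  · rintro ⟨f, d⟩ hx
    rw [mem_sigma] at hx
    obtain ⟨h1, h2⟩ := hx
    simp only at h1 h2
    rw [mem_mon] at h1
    rw [mem_mdiv h1.1.ne_zero] at h2
    obtain ⟨h2, e, rfl⟩ := h2
    have h3 : d * e /ₘ d = e := mul_divByMonic_cancel_left e h2
    have h4 : e.Monic := h2.of_mul_monic_left h1.1
    rw [mem_sigma]
    simp only [h3]
    refine ⟨?_, ?_⟩
    · rw [HasAntidiagonal.mem_antidiagonal]
      show d.natDegree + e.natDegree = m
      rw [← h1.2, h2.natDegree_mul h4]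
    · rw [mem_product]
      exact ⟨(mem_mon F).2 ⟨h2, rfl⟩, (mem_mon F).2 ⟨h4, rfl⟩⟩
  · rintro ⟨⟨i, j⟩, ⟨d, e⟩⟩ hx
    rw [mem_sigma, mem_product] at hx
    obtain ⟨h1, h2, h3⟩ := hx
    simp only at h1 h2 h3
    rw [mem_mon] at h2 h3
    rw [HasAntidiagonal.mem_antidiagonal] at h1
    replace h1 : i + j = m := h1
    rw [mem_sigma]
    refine ⟨(mem_mon F).2 ⟨h2.1.mul h3.1, ?_⟩, ?_⟩
    · rw [h2.1.natDegree_mul h3.1, h2.2, h3.2, h1]
    · show d ∈ mdiv (d * e)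
      rw [mem_mdiv (h2.1.mul h3.1).ne_zero]
      exact ⟨h2.1, Dvd.intro _ rfl⟩
  · rintro ⟨f, d⟩ hx
    rw [mem_sigma] at hx
    obtain ⟨h1, h2⟩ := hx
    simp only at h1 h2
    rw [mem_mon] at h1
    rw [mem_mdiv h1.1.ne_zero] at h2
    obtain ⟨h2, e, rfl⟩ := h2
    have h3 : d * e /ₘ d = e := mul_divByMonic_cancel_left e h2
    simp only [h3]
  · rintro ⟨⟨i, j⟩, ⟨d, e⟩⟩ hx
    rw [mem_sigma, mem_product] at hx
    obtain ⟨h1, h2, h3⟩ := hx
    simp only at h1 h2 h3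
    rw [mem_mon] at h2 h3
    have h4 : d * e /ₘ d = e := mul_divByMonic_cancel_left e h2.1
    obtain ⟨h2, rfl⟩ := h2
    obtain ⟨h3, rfl⟩ := h3
    simp only [h4]
  · rintro ⟨f, d⟩ hx
    rfl

private theorem fc1_lam_one : lam (1 : F[X]) = 0 := by
  unfold lam
  rw [pfac_one]
  simp

open Classical in
private theorem fc1_lam {P d : F[X]} {k : ℕ} (hPm : P.Monic) (hPi : Irreducible P) (hk : 1 ≤ k)
    (hd : d.Monic) (hPd : ¬ P ∣ d) : lam (P ^ k * d) = if d = 1 then (P.natDegree : ℝ) else 0 := by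
  classical
  have h1 : pfac (P ^ k * d) = insert P (pfac d) := by
    ext Q
    rw [mem_pfac (mul_ne_zero (pow_ne_zero _ hPm.ne_zero) hd.ne_zero), mem_insert,
      mem_pfac hd.ne_zero]
    constructor
    · rintro ⟨hQ1, hQ2, hQ3⟩
      rcases hQ2.prime.dvd_or_dvd hQ3 with h | h
      · left
        have h4 := hQ2.prime.dvd_of_dvd_pow h
        exact eq_of_monic_of_associated hQ1 hPm (hQ2.associated_of_dvd hPi h4)
      · exact Or.inr ⟨hQ1, hQ2, h⟩
    · rintro (rfl | ⟨hQ1, hQ2, hQ3⟩)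
      · exact ⟨hPm, hPi, (dvd_pow_self Q (by omega)).mul_right d⟩
      · exact ⟨hQ1, hQ2, hQ3.mul_left _⟩
  have h2 : P ∉ pfac d := by
    intro h
    exact hPd (dvd_of_mem_pfac h)
  unfold lam
  rw [h1, card_insert_of_notMem h2]
  by_cases hd1 : d = 1
  · subst hd1
    rw [pfac_one]
    simp
  · rw [if_neg hd1, if_neg]
    intro hc
    have h3 : pfac d = ∅ := by
      rw [← card_eq_zero]
      omega
    have hnu : ¬ IsUnit d := fun h => hd1 (hd.eq_one_of_isUnit h)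
    obtain ⟨Q, hQm, hQi, hQd⟩ := exists_monic_irreducible_factor d hnu
    have : Q ∈ pfac d := (mem_pfac hd.ne_zero).2 ⟨hQm, hQi, hQd⟩
    rw [h3] at this
    exact absurd this (notMem_empty _)

theorem sum_lam {f : F[X]} (hf : f.Monic) : ∑ d ∈ mdiv f, lam d = (f.natDegree : ℝ) := by
  classical
  induction hn : f.natDegree using Nat.strong_induction_on generalizing f with
  | _ n ih =>
    by_cases h1 : f = 1
    · subst h1
      rw [fc1_mdiv_one, sum_singleton, fc1_lam_one, ← hn, natDegree_one]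
      simp
    · obtain ⟨P, g, e, hPm, hPi, hg, hPg, he, rfl⟩ := fc1_exists_factor hf h1
      have hdeg : (P ^ e * g).natDegree = e * P.natDegree + g.natDegree := by
        rw [(hPm.pow e).natDegree_mul hg, hPm.natDegree_pow]
      have hPpos : 0 < P.natDegree := hPi.natDegree_pos
      have hlt : g.natDegree < n := by
        rw [← hn, hdeg]
        have : 0 < e * P.natDegree := Nat.mul_pos he hPpos
        omega
      rw [fc1_sum lam hPm hPi hg hPg, sum_range_succ']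
      have h0 : ∑ d ∈ mdiv g, lam (P ^ 0 * d) = (g.natDegree : ℝ) := by
        rw [← ih _ hlt hg rfl]
        apply sum_congr rfl
        intro d _
        rw [pow_zero, one_mul]
      rw [h0]
      have h2 : ∀ k ∈ range e, ∑ d ∈ mdiv g, lam (P ^ (k + 1) * d) = (P.natDegree : ℝ) := by
        intro k _
        have h3 : ∀ d ∈ mdiv g, lam (P ^ (k + 1) * d) = if d = 1 then (P.natDegree : ℝ) else 0 := by
          intro d hd
          rw [mem_mdiv hg.ne_zero] at hd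
          exact fc1_lam hPm hPi (by omega) hd.1 (fun h => hPg (h.trans hd.2))
        rw [sum_congr rfl h3, sum_ite_eq' (mdiv g) 1 (fun _ => (P.natDegree : ℝ)), if_pos]
        rw [mem_mdiv hg.ne_zero]
        exact ⟨monic_one, one_dvd _⟩
      rw [sum_congr rfl h2, sum_const, card_range, ← hn, hdeg]
      push_cast
      rw [nsmul_eq_mul]

private theorem fc1_pow (χ : F[X] → ℤ) (h1 : χ 1 = 1)
    (hmul : ∀ f g, f.Monic → g.Monic → χ (f * g) = χ f * χ g) {P : F[X]} (hPm : P.Monic) (k : ℕ) :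
    χ (P ^ k) = χ P ^ k := by
  induction k with
  | zero => simp [h1]
  | succ k ih => rw [pow_succ, hmul _ _ (hPm.pow k) hPm, ih, pow_succ]

private theorem fc1_conv (χ : F[X] → ℤ) (h1 : χ 1 = 1)
    (hmul : ∀ f g, f.Monic → g.Monic → χ (f * g) = χ f * χ g) {P g : F[X]} {e : ℕ} (hPm : P.Monic)
    (hPi : Irreducible P) (hg : g.Monic) (hPg : ¬ P ∣ g) :
    ∑ d ∈ mdiv (P ^ e * g), χ d = (∑ k ∈ range (e + 1), χ P ^ k) * ∑ d ∈ mdiv g, χ d := by
  rw [fc1_sum χ hPm hPi hg hPg, sum_mul]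
  apply sum_congr rfl
  intro k _
  rw [mul_sum]
  apply sum_congr rfl
  intro d hd
  rw [mem_mdiv hg.ne_zero] at hd
  rw [hmul _ _ (hPm.pow k) hd.1, fc1_pow χ h1 hmul hPm]

private theorem fc1_geom (c : ℤ) (hc : c = 0 ∨ c = 1 ∨ c = -1) (e : ℕ) :
    0 ≤ ∑ k ∈ range (e + 1), c ^ k := by
  rcases hc with rfl | rfl | rfl
  · rw [sum_range_succ']
    simp
  · simp
    positivity
  · rw [neg_one_geom_sum]
    split_ifs <;> simp

private theorem fc1_geom2 (c : ℤ) (hc : c = 0 ∨ c = 1 ∨ c = -1) (e : ℕ) :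
    1 ≤ ∑ k ∈ range (2 * e + 1), c ^ k := by
  rcases hc with rfl | rfl | rfl
  · rw [sum_range_succ']
    simp
  · simp
  · rw [neg_one_geom_sum, if_neg]
    rw [Nat.not_even_iff_odd]
    exact odd_two_mul_add_one e

theorem conv_nonneg (χ : F[X] → ℤ) (h1 : χ 1 = 1) (hmul : ∀ f g, f.Monic → g.Monic → χ (f * g) = χ f * χ g)
    (hc : ∀ f, χ f = 0 ∨ χ f = 1 ∨ χ f = -1) {f : F[X]} (hf : f.Monic) : 0 ≤ ∑ d ∈ mdiv f, χ d := by
  induction hn : f.natDegree using Nat.strong_induction_on generalizing f with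
  | _ n ih =>
    by_cases h : f = 1
    · subst h
      rw [fc1_mdiv_one, sum_singleton, h1]
      norm_num
    · obtain ⟨P, g, e, hPm, hPi, hg, hPg, he, rfl⟩ := fc1_exists_factor hf h
      have hdeg : (P ^ e * g).natDegree = e * P.natDegree + g.natDegree := by
        rw [(hPm.pow e).natDegree_mul hg, hPm.natDegree_pow]
      have hPpos : 0 < P.natDegree := hPi.natDegree_pos
      have hlt : g.natDegree < n := by
        rw [← hn, hdeg]
        have : 0 < e * P.natDegree := Nat.mul_pos he hPpos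
        omega
      rw [fc1_conv χ h1 hmul hPm hPi hg hPg]
      exact mul_nonneg (fc1_geom _ (hc P) e) (ih _ hlt hg rfl)

theorem conv_sq (χ : F[X] → ℤ) (h1 : χ 1 = 1) (hmul : ∀ f g, f.Monic → g.Monic → χ (f * g) = χ f * χ g)
    (hc : ∀ f, χ f = 0 ∨ χ f = 1 ∨ χ f = -1) (k : ℕ) : 1 ≤ ∑ d ∈ mdiv (X ^ (2 * k) : F[X]), χ d := by
  have hX : ¬ (X : F[X]) ∣ 1 := fun h => irreducible_X.not_isUnit (isUnit_of_dvd_one h)
  have h := fc1_conv χ h1 hmul (e := 2 * k) monic_X irreducible_X monic_one hX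
  rw [mul_one, fc1_mdiv_one, sum_singleton, h1, mul_one] at h
  rw [h]
  exact fc1_geom2 _ (hc X) k

end FZ
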