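import Pool.Agent.Lib.MP_1ad228_nt.FF.FC9

/-! JOB FC10a.  The construction of elements of `InD a ε i j`.
MODEL (over `ℤ`, complete proofs): `Pool/Agent/Lib/MP_1ad228_ntR/RC10a.lean`.

Notation: `R = Rb a ≠ 0`; `Q` a monic prime with `deg Q > deg R`, `jac (a i) Q = 1`, `jac (a j) Q = -1` (so `Q ∤ R`); `m` monic squarefree, all its prime factors `P` have `jac (a i) P = 1 ∨ jac (a j) P = 1`, `P ∤ R`, `P ≠ Q`
(so `m` is coprime to `R * Q`); `mp m = m` if `jac (a i) m = 1` or `jac (a j) m = 1`, and `m * Q` otherwise.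
* `mp_deg`: `deg m ≤ deg (mp m) ≤ deg m + deg Q`, `mp m` monic.
* `mp_props`: `mp m` is squarefree, coprime to `R`, all its prime factors `P` have `jac (a i) P = 1` or `jac (a j) P = 1`, and `jac (a i) (mp m) = 1 ∨ jac (a j) (mp m) = 1`: in the second case `jac (a j) m = -1` (`jac_pm` with
`dvd_Rb`) and `jac (a j) (m Q) = (-1)(-1) = 1` (`jac_mul_right`).
* `InD_mul`: `q` a monic prime, `deg q > deg R`, `deg q > deg (mp m)`, `jac e q = jac e (mp m)` for all `e ∈ EE a ε`.  Then `q ∤ R`, `q` and `mp m` are coprime, `D = mp m * q` is squarefree and coprime to `R`,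
`jac e D = jac e (mp m) ^ 2 = 1` (`EE_pm`), and by `jac_eq_of_EE` (with `dvd_Rb`) `jac (a k) q = jac (a k) (mp m)` for `k = i, j`, so `jac (a i) q = 1 ∨ jac (a j) q = 1`.
* `mp_inj`: if `mp m * q = mp m' * q'` with `q, q'` monic primes of degree larger than the degrees of `mp m` and `mp m'`: `q ∣ mp m' * q'`, `q ∤ mp m'`, so `q = q'` (`Irreducible.dvd_irreducible_iff_associated`,
`Polynomial.eq_of_monic_of_associated`), `mp m = mp m'`; `Q ∤ m, m'`, so `Q ∣ mp m` iff we are in the second case, hence the same case for `m` and `m'`, and `m = m'`. -/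

namespace FZ

open Finset Polynomial

variable {F : Type} [Field F] [Fintype F] [DecidableEq F] {ι : Type} [Fintype ι] [DecidableEq ι]

open Classical in
noncomputable def mp (a : ι → F[X]) (i j : ι) (Q m : F[X]) : F[X] :=
  if jac (a i) m = 1 ∨ jac (a j) m = 1 then m else m * Q

/-- the conditions on the prime factors of `m` -/
def AdmP (a : ι → F[X]) (i j : ι) (Q P : F[X]) : Prop :=
  (jac (a i) P = 1 ∨ jac (a j) P = 1) ∧ P ∉ insert Q (pfac (Rb a))

/-- the conditions on `m` -/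
def Adm (a : ι → F[X]) (i j : ι) (Q m : F[X]) : Prop :=
  m.Monic ∧ Squarefree m ∧ ∀ P : F[X], P.Monic → Irreducible P → P ∣ m → AdmP a i j Q P

/-- the conditions on `Q` -/
def AdmQ (a : ι → F[X]) (i j : ι) (Q : F[X]) : Prop :=
  Q.Monic ∧ Irreducible Q ∧ (Rb a).natDegree < Q.natDegree ∧ jac (a i) Q = 1 ∧ jac (a j) Q = -1

omit [Fintype F] [DecidableEq F] in
private theorem FC10a_eq {P Q : F[X]} (hP : P.Monic) (hPi : Irreducible P) (hQ : Q.Monic)
    (hQi : Irreducible Q) (h : P ∣ Q) : P = Q :=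
  eq_of_monic_of_associated hP hQ ((hPi.dvd_irreducible_iff_associated hQi).1 h)

omit [Fintype F] [DecidableEq F] in
private theorem FC10a_notdvd {P f : F[X]} (hf : f ≠ 0) (h : f.natDegree < P.natDegree) : ¬ P ∣ f := by
  intro h1
  exact absurd (natDegree_le_of_dvd h1 hf) (not_le.2 h)

private theorem FC10a_adm_notdvd {a : ι → F[X]} {i j : ι} {Q m : F[X]} (hQ : AdmQ a i j Q)
    (hm : Adm a i j Q m) : ¬ Q ∣ m := by
  intro h
  exact (hm.2.2 Q hQ.1 hQ.2.1 h).2 (Finset.mem_insert_self _ _)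

omit [Fintype F] [DecidableEq F] in
private theorem FC10a_coprime_iff {P f : F[X]} (hP : Irreducible P) : IsCoprime P f ↔ ¬ P ∣ f :=
  hP.coprime_iff_not_dvd

omit [Fintype F] [DecidableEq F] in
/-- a monic common prime factor of two polynomials that are not coprime -/
private theorem FC10a_common {f g : F[X]} (hf : f ≠ 0) (h : ¬ IsCoprime f g) :
    ∃ P : F[X], P.Monic ∧ Irreducible P ∧ P ∣ f ∧ P ∣ g := by
  by_contra hcon
  push Not at hcon
  apply h
  apply isCoprime_of_prime_dvd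
  · rintro ⟨h1, _⟩
    exact hf h1
  · intro z hz hzf hzg
    have hz0 : z ≠ 0 := hz.ne_zero
    classical
    have h1 : (normalize z).Monic := monic_normalize hz0
    have h2 : Associated (normalize z) z := normalize_associated z
    exact hcon (normalize z) h1 (h2.symm.irreducible hz.irreducible) (h2.dvd.trans hzf)
      (h2.dvd.trans hzg)

private theorem FC10a_adm_coprime {a : ι → F[X]} (hR : Rb a ≠ 0) {i j : ι} {Q m : F[X]}
    (hm : Adm a i j Q m) : IsCoprime m (Rb a) := by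
  by_contra h
  obtain ⟨P, hP, hPi, h1, h2⟩ := FC10a_common hm.1.ne_zero h
  exact (hm.2.2 P hP hPi h1).2 (Finset.mem_insert_of_mem ((mem_pfac hR).2 ⟨hP, hPi, h2⟩))

theorem mp_deg (a : ι → F[X]) (i j : ι) (Q m : F[X]) (hQ : AdmQ a i j Q) (hm : m.Monic) :
    (mp a i j Q m).Monic ∧ m.natDegree ≤ (mp a i j Q m).natDegree ∧
    (mp a i j Q m).natDegree ≤ m.natDegree + Q.natDegree := by
  unfold mp
  split_ifs
  · exact ⟨hm, le_rfl, Nat.le_add_right _ _⟩
  · refine ⟨hm.mul hQ.1, ?_, ?_⟩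
    · rw [hm.natDegree_mul hQ.1]
      exact Nat.le_add_right _ _
    · rw [hm.natDegree_mul hQ.1]

theorem mp_props (a : ι → F[X]) (hR : Rb a ≠ 0) (i j : ι) (Q m : F[X]) (hQ : AdmQ a i j Q) (hm : Adm a i j Q m) :
    Squarefree (mp a i j Q m) ∧ IsCoprime (mp a i j Q m) (Rb a) ∧
    (∀ P : F[X], P.Monic → Irreducible P → P ∣ mp a i j Q m → jac (a i) P = 1 ∨ jac (a j) P = 1) ∧
    (jac (a i) (mp a i j Q m) = 1 ∨ jac (a j) (mp a i j Q m) = 1) := by
  have hc : IsCoprime m (Rb a) := FC10a_adm_coprime hR hm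
  by_cases h : jac (a i) m = 1 ∨ jac (a j) m = 1
  · have hmp : mp a i j Q m = m := by
      unfold mp
      rw [if_pos h]
    rw [hmp]
    exact ⟨hm.2.1, hc, fun P hP hPi hPm => (hm.2.2 P hP hPi hPm).1, h⟩
  · have hmp : mp a i j Q m = m * Q := by
      unfold mp
      rw [if_neg h]
    rw [hmp]
    have hnd := FC10a_adm_notdvd hQ hm
    have hQm : IsCoprime m Q := ((FC10a_coprime_iff hQ.2.1).2 hnd).symm
    refine ⟨squarefree_mul hm.2.1 hQ.2.1.squarefree hQm, ?_, ?_, ?_⟩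
    · exact IsCoprime.mul_left hc ((FC10a_coprime_iff hQ.2.1).2 (FC10a_notdvd hR hQ.2.2.1))
    · intro P hP hPi hPm
      rcases hPi.prime.dvd_or_dvd hPm with h1 | h1
      · exact (hm.2.2 P hP hPi h1).1
      · rw [FC10a_eq hP hPi hQ.1 hQ.2.1 h1]
        exact Or.inl hQ.2.2.2.1
    · right
      rw [jac_mul_right hm.1 hQ.1, hQ.2.2.2.2]
      rcases jac_pm a (a j) (dvd_Rb a j) m hm.1 hc with h1 | h1
      · exact absurd (Or.inr h1) h
      · rw [h1]
        norm_num

theorem InD_mul (a : ι → F[X]) (hR : Rb a ≠ 0) (ε : F) (hε : ¬ IsSquare ε) (i j : ι) (Q m q : F[X])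
    (hQ : AdmQ a i j Q) (hm : Adm a i j Q m) (hq : q.Monic) (hq' : Irreducible q)
    (hqR : (Rb a).natDegree < q.natDegree) (hqm : (mp a i j Q m).natDegree < q.natDegree)
    (h : ∀ e ∈ EE a ε, jac e q = jac e (mp a i j Q m)) : InD a ε i j (mp a i j Q m * q) := by
  obtain ⟨h1, h2, h3, h4⟩ := mp_props a hR i j Q m hQ hm
  obtain ⟨hmon, _, _⟩ := mp_deg a i j Q m hQ hm.1
  have hcop : IsCoprime (mp a i j Q m) q :=
    ((FC10a_coprime_iff hq').2 (FC10a_notdvd hmon.ne_zero hqm)).symm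
  refine ⟨hmon.mul hq, squarefree_mul h1 hq'.squarefree hcop, ?_, ?_, ?_⟩
  · exact IsCoprime.mul_left h2 ((FC10a_coprime_iff hq').2 (FC10a_notdvd hR hqR))
  · intro e he
    rw [jac_mul_right hmon hq, h e he]
    rcases EE_pm a hR ε hε _ hmon h2 e he with h5 | h5 <;> rw [h5] <;> norm_num
  · intro P hP hPi hPm
    rcases hPi.prime.dvd_or_dvd hPm with h5 | h5
    · exact h3 P hP hPi h5
    · rw [FC10a_eq hP hPi hq hq' h5]
      rw [jac_eq_of_EE a hR ε hε _ q hmon hq h (a i) (dvd_Rb a i),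
        jac_eq_of_EE a hR ε hε _ q hmon hq h (a j) (dvd_Rb a j)]
      exact h4

theorem mp_inj (a : ι → F[X]) (hR : Rb a ≠ 0) (i j : ι) (Q m q m' q' : F[X]) (hQ : AdmQ a i j Q)
    (hm : Adm a i j Q m) (hm' : Adm a i j Q m') (hq : q.Monic) (hqi : Irreducible q) (hq' : q'.Monic)
    (hqi' : Irreducible q') (h1 : (mp a i j Q m).natDegree < q.natDegree)
    (h2 : (mp a i j Q m').natDegree < q.natDegree) (h3 : (mp a i j Q m).natDegree < q'.natDegree)
    (h4 : (mp a i j Q m').natDegree < q'.natDegree) (h : mp a i j Q m * q = mp a i j Q m' * q') :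
    m = m' ∧ q = q' := by
  have hmon' := (mp_deg a i j Q m' hQ hm'.1).1
  have hqq : q = q' := by
    have h5 : q ∣ mp a i j Q m' * q' := h ▸ Dvd.intro_left _ rfl
    rcases hqi.prime.dvd_or_dvd h5 with h6 | h6
    · exact absurd h6 (FC10a_notdvd hmon'.ne_zero h2)
    · exact FC10a_eq hq hqi hq' hqi' h6
  refine ⟨?_, hqq⟩
  subst hqq
  have h5 : mp a i j Q m = mp a i j Q m' := mul_right_cancel₀ hq.ne_zero h
  have hnd := FC10a_adm_notdvd hQ hm
  have hnd' := FC10a_adm_notdvd hQ hm'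
  unfold mp at h5
  split_ifs at h5
  · exact h5
  · exact absurd (h5 ▸ Dvd.intro_left _ rfl) hnd
  · exact absurd (h5 ▸ Dvd.intro_left _ rfl) hnd'
  · exact mul_right_cancel₀ hQ.1.ne_zero h5

end FZ
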