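import Pool.Agent.Lib.MP_1ad228_nt.FF.FC3

/-! JOB FC4.  From the von Mangoldt function to primes.  `q = qq F`, `PP F x` is the set of the monic irreducible polynomials of degree `≤ x`, the weight of a prime `P` is `deg P/q^(deg P)`.

* `nonprime_bound`: `∑_{i ≤ M} (∑_{f ∈ mon i, not irreducible} lam f)/q^i ≤ 4`, say: a non-irreducible `f ∈ mon i` with `lam f ≠ 0` is `P^k`, `k ≥ 2`, `k deg P = i`, `lam f = deg P`, so for fixed `i` the sum is at most
  `∑_{j ≤ i/2} ∑_{P ∈ mon j irreducible} j ≤ ∑_{1 ≤ j ≤ i/2} q^j ≤ 2 q^(i/2)` (`f ↦ P` is injective for fixed `i`; `prime_count`), so after division at most `2 q^(-(i - i/2)) ≤ 2 * 2^(-(i - i/2))` (natural number division),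
  and `∑_i 2^(-⌈i/2⌉) ≤ 1 + 2 (1/2 + 1/4 + ...) = 3` (the term `i = 0` is `0`, anyway).  Any constant `C` is fine.
* `mert_chi_prime`: `lam P = deg P` for irreducible `P` (`pfac_irreducible`); `PP F M` is the disjoint union of the irreducible elements of `mon i`, `i ≤ M` (irreducible polynomials have degree `≥ 1`); the difference of the two sums is at most the sum
  over the non-irreducible ones in absolute value (`|χ| ≤ 1`); use `mert_chi` and `nonprime_bound`.
* `mert_prime`: `lam_total` gives `∑_{1≤i≤M} (∑_{mon i} lam)/q^i = M`, minus the non-irreducible ones. -/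

namespace FZ

open Finset Polynomial

variable {F : Type} [Field F] [Fintype F]

open Classical in
private theorem FC4_pow {f P : F[X]} (hf : f.Monic) (h : pfac f = {P}) :
    ∃ k : ℕ, 1 ≤ k ∧ f = P ^ k := by
  have h1 : (UniqueFactorizationMonoid.normalizedFactors f).prod = f := by
    rw [UniqueFactorizationMonoid.prod_normalizedFactors_eq hf.ne_zero]
    exact hf.normalize_eq_self
  have h2 : UniqueFactorizationMonoid.normalizedFactors f =
      Multiset.replicate (Multiset.card (UniqueFactorizationMonoid.normalizedFactors f)) P := by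
    rw [Multiset.eq_replicate]
    refine ⟨rfl, fun b hb => ?_⟩
    have h3 : b ∈ pfac f := by
      unfold pfac
      rw [Multiset.mem_toFinset]
      exact hb
    rw [h, mem_singleton] at h3
    exact h3
  refine ⟨Multiset.card (UniqueFactorizationMonoid.normalizedFactors f), ?_, ?_⟩
  · have h3 : P ∈ UniqueFactorizationMonoid.normalizedFactors f := by
      have h4 : P ∈ pfac f := by
        rw [h]
        exact mem_singleton_self P
      unfold pfac at h4
      rwa [Multiset.mem_toFinset] at h4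
    exact Multiset.card_pos_iff_exists_mem.mpr ⟨P, h3⟩
  · conv_lhs => rw [← h1, h2]
    rw [Multiset.prod_replicate]

private theorem FC4_lam_nonneg (f : F[X]) : 0 ≤ lam f := by
  unfold lam
  split_ifs
  · exact Finset.sum_nonneg fun P _ => Nat.cast_nonneg _
  · exact le_refl _

private theorem FC4_lam_irr {P : F[X]} (hm : P.Monic) (hi : Irreducible P) :
    lam P = P.natDegree := by
  unfold lam
  rw [pfac_irreducible hm hi, if_pos (card_singleton P), sum_singleton]

open Classical in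
private theorem FC4_PP_succ (m : ℕ) :
    PP F (m + 1) = PP F m ∪ (mon F (m + 1)).filter (fun P => Irreducible P) := by
  ext P
  rw [mem_union, mem_PP, mem_PP, mem_filter, mem_mon]
  constructor
  · rintro ⟨h1, h2, h3⟩
    rcases Nat.lt_or_ge m P.natDegree with h4 | h4
    · right
      exact ⟨⟨h1, by omega⟩, h2⟩
    · left
      exact ⟨h1, h2, h4⟩
  · rintro (⟨h1, h2, h3⟩ | ⟨⟨h1, h2⟩, h3⟩)
    · exact ⟨h1, h2, by omega⟩
    · exact ⟨h1, h3, by omega⟩

open Classical in
private theorem FC4_sum_PP (G : F[X] → ℝ) (M : ℕ) :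
    ∑ P ∈ PP F M, G P =
      ∑ i ∈ range (M + 1), ∑ P ∈ (mon F i).filter (fun P => Irreducible P), G P := by
  induction M with
  | zero =>
    rw [zero_add, sum_range_one]
    apply Finset.sum_congr _ (fun _ _ => rfl)
    ext P
    rw [mem_PP, mem_filter, mem_mon]
    constructor
    · rintro ⟨h1, h2, h3⟩
      exact ⟨⟨h1, by omega⟩, h2⟩
    · rintro ⟨⟨h1, h2⟩, h3⟩
      exact ⟨h1, h3, by omega⟩
  | succ m ih =>
    rw [sum_range_succ, ← ih, FC4_PP_succ, sum_union]
    rw [disjoint_left]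
    intro P hP hP2
    rw [mem_PP] at hP
    rw [mem_filter, mem_mon] at hP2
    omega

open Classical in
private theorem FC4_deg_sum (m : ℕ) : ∑ P ∈ PP F m, (P.natDegree : ℝ) ≤ 2 * qq F ^ m := by
  have hq := two_le_qq F
  have hq0 : 0 < qq F := by linarith
  have hcount : ∀ k : ℕ, ∑ P ∈ (mon F k).filter (fun P => Irreducible P), (P.natDegree : ℝ) ≤
      qq F ^ k := by
    intro k
    have h1 : ∑ P ∈ (mon F k).filter (fun P => Irreducible P), (P.natDegree : ℝ) =
        ∑ P ∈ (mon F k).filter (fun P => Irreducible P), (k : ℝ) := by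
      apply Finset.sum_congr rfl
      intro P hP
      rw [mem_filter, mem_mon] at hP
      rw [hP.1.2]
    rw [h1, sum_const, nsmul_eq_mul, mul_comm]
    exact prime_count k
  induction m with
  | zero =>
    have h1 : ∑ P ∈ PP F 0, (P.natDegree : ℝ) = 0 := by
      apply Finset.sum_eq_zero
      intro P hP
      rw [mem_PP] at hP
      have : P.natDegree = 0 := by omega
      rw [this, Nat.cast_zero]
    rw [h1, pow_zero]
    norm_num
  | succ m ih =>
    rw [FC4_sum_PP] at ih
    rw [FC4_sum_PP, sum_range_succ]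
    have h1 := hcount (m + 1)
    have h2 : 2 * qq F ^ m ≤ qq F ^ (m + 1) := by
      rw [pow_succ, mul_comm]
      exact mul_le_mul_of_nonneg_left hq (pow_nonneg hq0.le m)
    linarith

open Classical in
private theorem FC4_one (i : ℕ) :
    ∑ f ∈ (mon F i).filter (fun f => ¬ Irreducible f), lam f ≤ 2 * qq F ^ (i / 2) := by
  refine le_trans ?_ (FC4_deg_sum (i / 2))
  have hex : ∀ f : F[X], (pfac f).card = 1 → ∃ P, pfac f = {P} := fun f hf => card_eq_one.mp hf
  choose! Φ hΦ using hex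
  set S := ((mon F i).filter (fun f => ¬ Irreducible f)).filter (fun f => (pfac f).card = 1) with hS
  have h1 : ∑ f ∈ (mon F i).filter (fun f => ¬ Irreducible f), lam f =
      ∑ f ∈ S, ((Φ f).natDegree : ℝ) := by
    rw [hS, sum_filter (fun f => (pfac f).card = 1)]
    apply Finset.sum_congr rfl
    intro f _
    unfold lam
    by_cases hf : (pfac f).card = 1
    · rw [if_pos hf, if_pos hf, hΦ f hf, sum_singleton]
    · rw [if_neg hf, if_neg hf]
  have hdata : ∀ f ∈ S, f.Monic ∧ f.natDegree = i ∧ ∃ k : ℕ, 2 ≤ k ∧ f = Φ f ^ k ∧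
      (Φ f).Monic ∧ Irreducible (Φ f) ∧ 1 ≤ (Φ f).natDegree := by
    intro f hf
    rw [hS, mem_filter, mem_filter, mem_mon] at hf
    obtain ⟨⟨⟨hm, hd⟩, hni⟩, hc⟩ := hf
    have hmem : Φ f ∈ pfac f := by
      rw [hΦ f hc]
      exact mem_singleton_self _
    have hPm := monic_of_mem_pfac hmem
    have hPi := irreducible_of_mem_pfac hmem
    obtain ⟨k, hk1, hk⟩ := FC4_pow hm (hΦ f hc)
    refine ⟨hm, hd, k, ?_, hk, hPm, hPi, hPi.natDegree_pos⟩
    by_contra hcon
    have hk2 : k = 1 := by omega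
    apply hni
    rw [hk, hk2, pow_one]
    exact hPi
  rw [h1]
  have hinj : Set.InjOn Φ S := by
    intro f hf g hg hfg
    obtain ⟨hm, hd, k, hk, hkf, hPm, hPi, hPd⟩ := hdata f hf
    obtain ⟨hm', hd', k', hk', hkf', hPm', hPi', hPd'⟩ := hdata g hg
    have e1 : k * (Φ f).natDegree = i := by
      rw [← hd]
      conv_rhs => rw [hkf]
      rw [hPm.natDegree_pow]
    have e2 : k' * (Φ f).natDegree = i := by
      rw [← hd', hfg]
      conv_rhs => rw [hkf']
      rw [hPm'.natDegree_pow]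
    have e3 : k = k' := by
      have := e1.trans e2.symm
      exact Nat.eq_of_mul_eq_mul_right hPd this
    rw [hkf, hkf', hfg, e3]
  rw [← Finset.sum_image (f := fun P : F[X] => (P.natDegree : ℝ)) hinj]
  apply Finset.sum_le_sum_of_subset_of_nonneg
  · intro P hP
    rw [mem_image] at hP
    obtain ⟨f, hf, rfl⟩ := hP
    obtain ⟨hm, hd, k, hk, hkf, hPm, hPi, hPd⟩ := hdata f hf
    rw [mem_PP]
    refine ⟨hPm, hPi, ?_⟩
    have e1 : k * (Φ f).natDegree = i := by
      rw [← hd]
      conv_rhs => rw [hkf]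
      rw [hPm.natDegree_pow]
    rw [Nat.le_div_iff_mul_le (by norm_num)]
    have := Nat.mul_le_mul_right (Φ f).natDegree hk
    rw [e1] at this
    omega
  · intro P _ _
    exact Nat.cast_nonneg _

private theorem FC4_geom (n : ℕ) : ∑ i ∈ range n, (3 / 4 : ℝ) ^ i = 4 * (1 - (3 / 4) ^ n) := by
  induction n with
  | zero => simp
  | succ n ih =>
    rw [sum_range_succ, ih, pow_succ]
    ring

open Classical in
theorem nonprime_bound : ∃ C : ℝ, ∀ M : ℕ,
    ∑ i ∈ range (M + 1), (∑ f ∈ (mon F i).filter (fun f => ¬ Irreducible f), lam f) / qq F ^ i ≤ C := by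
  have hq := two_le_qq F
  have hq0 : 0 < qq F := by linarith
  refine ⟨8, fun M => ?_⟩
  have h1 : ∀ i ∈ range (M + 1),
      (∑ f ∈ (mon F i).filter (fun f => ¬ Irreducible f), lam f) / qq F ^ i ≤
        2 * (3 / 4 : ℝ) ^ i := by
    intro i _
    have hqi : 0 < qq F ^ i := pow_pos hq0 i
    rw [div_le_iff₀ hqi]
    refine (FC4_one i).trans ?_
    have e1 : qq F ^ i = qq F ^ (i / 2) * qq F ^ (i - i / 2) := by
      rw [← pow_add]
      congr 1
      omega
    have e2 : (1 : ℝ) ≤ (3 / 4 : ℝ) ^ i * qq F ^ (i - i / 2) := by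
      have e3 : (3 / 4 : ℝ) ^ (2 * (i - i / 2)) ≤ (3 / 4 : ℝ) ^ i :=
        pow_le_pow_of_le_one (by norm_num) (by norm_num) (by omega)
      have e4 : (2 : ℝ) ^ (i - i / 2) ≤ qq F ^ (i - i / 2) :=
        pow_le_pow_left₀ (by norm_num) hq _
      calc (1 : ℝ) ≤ (9 / 8 : ℝ) ^ (i - i / 2) := one_le_pow₀ (by norm_num)
        _ = (3 / 4 : ℝ) ^ (2 * (i - i / 2)) * 2 ^ (i - i / 2) := by
            rw [pow_mul, ← mul_pow]
            norm_num
        _ ≤ (3 / 4 : ℝ) ^ i * qq F ^ (i - i / 2) :=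
            mul_le_mul e3 e4 (by positivity) (by positivity)
    rw [e1]
    have h5 : 0 ≤ qq F ^ (i / 2) := pow_nonneg hq0.le _
    calc 2 * qq F ^ (i / 2) = 2 * qq F ^ (i / 2) * 1 := by ring
      _ ≤ 2 * qq F ^ (i / 2) * ((3 / 4 : ℝ) ^ i * qq F ^ (i - i / 2)) :=
          mul_le_mul_of_nonneg_left e2 (by positivity)
      _ = 2 * (3 / 4 : ℝ) ^ i * (qq F ^ (i / 2) * qq F ^ (i - i / 2)) := by ring
  refine (Finset.sum_le_sum h1).trans ?_
  rw [← Finset.mul_sum, FC4_geom]
  have : (0 : ℝ) ≤ (3 / 4) ^ (M + 1) := by positivity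
  linarith

open Classical in
private theorem FC4_split (G : F[X] → ℝ) (i : ℕ) :
    ∑ f ∈ mon F i, G f * lam f =
      ∑ P ∈ (mon F i).filter (fun P => Irreducible P), G P * P.natDegree +
        ∑ f ∈ (mon F i).filter (fun f => ¬ Irreducible f), G f * lam f := by
  rw [← Finset.sum_filter_add_sum_filter_not (mon F i) (fun P => Irreducible P)]
  congr 1
  apply Finset.sum_congr rfl
  intro P hP
  rw [mem_filter, mem_mon] at hP
  rw [FC4_lam_irr hP.1.1 hP.2]

open Classical in
private theorem FC4_PP_div (G : F[X] → ℝ) (M : ℕ) :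
    ∑ P ∈ PP F M, G P * (P.natDegree / qq F ^ P.natDegree) =
      ∑ i ∈ range (M + 1),
        (∑ P ∈ (mon F i).filter (fun P => Irreducible P), G P * P.natDegree) / qq F ^ i := by
  rw [FC4_sum_PP]
  apply Finset.sum_congr rfl
  intro i _
  rw [Finset.sum_div]
  apply Finset.sum_congr rfl
  intro P hP
  rw [mem_filter, mem_mon] at hP
  rw [hP.1.2]
  ring

theorem mert_chi_prime [DecidableEq F] (h2 : ringChar F ≠ 2) (b : F[X]) (hb : ¬ IsSquare b) :
    ∃ C : ℝ, ∀ x : ℕ, |∑ P ∈ PP F x, (jac b P : ℝ) * (P.natDegree / qq F ^ P.natDegree)| ≤ C := by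
  classical
  have hq := two_le_qq F
  have hq0 : 0 < qq F := by linarith
  obtain ⟨C₁, hC₁⟩ := mert_chi h2 b hb
  obtain ⟨C₂, hC₂⟩ := nonprime_bound (F := F)
  refine ⟨C₁ + C₂, fun x => ?_⟩
  rw [FC4_PP_div (fun P => (jac b P : ℝ)) x]
  have h1 := hC₁ x
  have h3 : ∑ i ∈ range (x + 1), (∑ f ∈ mon F i, (jac b f : ℝ) * lam f) / qq F ^ i =
      ∑ i ∈ range (x + 1), (∑ P ∈ (mon F i).filter (fun P => Irreducible P),
        (jac b P : ℝ) * P.natDegree) / qq F ^ i +
      ∑ i ∈ range (x + 1), (∑ f ∈ (mon F i).filter (fun f => ¬ Irreducible f),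
        (jac b f : ℝ) * lam f) / qq F ^ i := by
    rw [← Finset.sum_add_distrib]
    apply Finset.sum_congr rfl
    intro i _
    rw [FC4_split (fun f => (jac b f : ℝ)) i, add_div]
  have h4 : |∑ i ∈ range (x + 1), (∑ f ∈ (mon F i).filter (fun f => ¬ Irreducible f),
        (jac b f : ℝ) * lam f) / qq F ^ i| ≤ C₂ := by
    refine (Finset.abs_sum_le_sum_abs _ _).trans ((Finset.sum_le_sum ?_).trans (hC₂ x))
    intro i _
    rw [abs_div, abs_of_pos (pow_pos hq0 i)]
    apply div_le_div_of_nonneg_right _ (pow_pos hq0 i).le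
    refine (Finset.abs_sum_le_sum_abs _ _).trans (Finset.sum_le_sum ?_)
    intro f _
    rw [abs_mul, abs_of_nonneg (FC4_lam_nonneg f)]
    have := mul_le_mul_of_nonneg_right (jac_abs_le b f) (FC4_lam_nonneg f)
    linarith
  rw [h3] at h1
  rw [abs_le] at h1 h4 ⊢
  constructor
  · linarith [h1.1, h4.2]
  · linarith [h1.2, h4.1]

variable (F) in
theorem mert_prime : ∃ C : ℝ, ∀ x : ℕ, |∑ P ∈ PP F x, (P.natDegree : ℝ) / qq F ^ P.natDegree - x| ≤ C := by
  classical
  have hq := two_le_qq F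
  have hq0 : 0 < qq F := by linarith
  obtain ⟨C₂, hC₂⟩ := nonprime_bound (F := F)
  refine ⟨C₂, fun x => ?_⟩
  have h0 : ∑ P ∈ PP F x, (P.natDegree : ℝ) / qq F ^ P.natDegree =
      ∑ P ∈ PP F x, (1 : ℝ) * (P.natDegree / qq F ^ P.natDegree) := by
    apply Finset.sum_congr rfl
    intro P _
    rw [one_mul]
  rw [h0, FC4_PP_div (fun _ => (1 : ℝ)) x]
  have h3 : ∑ i ∈ range (x + 1), (∑ f ∈ mon F i, (1 : ℝ) * lam f) / qq F ^ i =
      ∑ i ∈ range (x + 1), (∑ P ∈ (mon F i).filter (fun P => Irreducible P),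
        (1 : ℝ) * P.natDegree) / qq F ^ i +
      ∑ i ∈ range (x + 1), (∑ f ∈ (mon F i).filter (fun f => ¬ Irreducible f),
        (1 : ℝ) * lam f) / qq F ^ i := by
    rw [← Finset.sum_add_distrib]
    apply Finset.sum_congr rfl
    intro i _
    rw [FC4_split (fun _ => (1 : ℝ)) i, add_div]
  have h4 : ∑ i ∈ range (x + 1), (∑ f ∈ mon F i, (1 : ℝ) * lam f) / qq F ^ i = x := by
    rw [Finset.sum_range_succ']
    have e0 : (∑ f ∈ mon F 0, (1 : ℝ) * lam f) / qq F ^ 0 = 0 := by
      rw [mon_zero, sum_singleton]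
      unfold lam
      rw [pfac_one, card_empty, if_neg (by norm_num)]
      simp
    rw [e0, add_zero]
    have e1 : ∀ i ∈ range x, (∑ f ∈ mon F (i + 1), (1 : ℝ) * lam f) / qq F ^ (i + 1) = 1 := by
      intro i _
      have : ∑ f ∈ mon F (i + 1), (1 : ℝ) * lam f = qq F ^ (i + 1) := by
        rw [← lam_total (i + 1) (by omega)]
        apply Finset.sum_congr rfl
        intro f _
        rw [one_mul]
      rw [this, div_self (pow_pos hq0 _).ne']
    rw [Finset.sum_congr rfl e1]
    simp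
  have h5 : ∑ i ∈ range (x + 1), (∑ f ∈ (mon F i).filter (fun f => ¬ Irreducible f),
        (1 : ℝ) * lam f) / qq F ^ i ≤ C₂ := by
    refine le_trans (le_of_eq ?_) (hC₂ x)
    apply Finset.sum_congr rfl
    intro i _
    congr 1
    apply Finset.sum_congr rfl
    intro f _
    rw [one_mul]
  have h6 : 0 ≤ ∑ i ∈ range (x + 1), (∑ f ∈ (mon F i).filter (fun f => ¬ Irreducible f),
        (1 : ℝ) * lam f) / qq F ^ i := by
    apply Finset.sum_nonneg
    intro i _
    apply div_nonneg _ (pow_pos hq0 i).le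
    apply Finset.sum_nonneg
    intro f _
    rw [one_mul]
    exact FC4_lam_nonneg f
  rw [abs_le]
  constructor <;> linarith

end FZ
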