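import Pool.Agent.Lib.MP_1ad228_nt.FF.FC7
import Pool.Agent.Lib.MP_1ad228_nt.FF.FC4

/-! JOB FC8.  `∑_{m squarefree, deg m ≤ x, all prime factors satisfy Ad} 1/q^(deg m) ≥ c x^κ`.
MODEL (over `ℤ`, complete proof; there `log m` plays the role of `deg m`): `sum_sqfree_lower` in `Pool/Agent/Lib/MP_1ad228_ntR/RC8.lean`.

Proof.  Let `C₀ ≥ 0` with `∑_{P ∈ PP y} deg P/q^(deg P) ≤ y + C₀` for all `y` (`mert_prime`), `C'` from `sum_inv_lower`.  Let `u = exp 1 * (1 + C₀) + 1`.  Let `x` be a natural number `≥ u` and `J = ⌊x/u⌋₊ ≥ 1` (so `x/J ≥ u` and `J ≥ x/(2u)`),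
`T = {P ∈ PP J, Ad P}`, `Π = ∏_{P ∈ T} (1 + 1/|P|) = ∑_{S ⊆ T} 1/|∏ S|`, `|f| = q^(deg f)` (`Finset.prod_one_add`).
(1) `∑_{S ⊆ T, deg ∏ S ≤ x} 1/|∏ S| ≤` the sum in the statement (`S ↦ ∏ S` is injective and the values are squarefree with the prime factors `S`: `prod_set`).
(2) Tail: for `deg ∏ S > x` and `δ = 1/J`: `1/|∏ S| ≤ exp(-δ x) ∏_{P∈S} exp(δ deg P)/|P|`; so the tail is at most `exp(-δ x) ∏_{P ∈ T} (1 + exp(δ deg P)/|P|) ≤ exp(-δ x) Π ∏_{P∈T} (1 + (exp(δ deg P) - 1)/|P|)`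
`≤ exp(-δ x) Π exp(∑_{P∈T} (exp(δ deg P) - 1)/|P|)`.  For `deg P ≤ J`: `0 ≤ δ deg P ≤ 1`, so `exp(δ deg P) - 1 ≤ (exp 1) δ deg P` (`exp t - 1 ≤ t exp t`).  So
`∑_{P∈T} (exp(δ deg P) - 1)/|P| ≤ (exp 1) δ (J + C₀) ≤ (exp 1)(1 + C₀) = u - 1`.  And `exp(-δ x) ≤ exp(-u)`.  So the tail is `≤ Π exp(-1) ≤ Π/2`.
(3) Hence the sum is `≥ Π/2`, and `Π ≥ exp(∑_{P∈T} (1/|P| - 1/|P|²))` (`1 + t ≥ exp(t - t²)` for `0 ≤ t ≤ 1/2`) `≥ exp(κ log J - C' - 1)` (`∑_P 1/|P|² ≤ ∑_{j ≥ 1} (q^j/j) q^(-2j) ≤ ∑_j 2^(-j) ≤ 1`, `prime_count`),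
`= exp(-C'-1) J^κ ≥ exp(-C'-1) (x/(2u))^κ`.
(4) For `1 ≤ x < u`: the term `m = 1` gives the sum `≥ 1 ≥ u^(-κ) x^κ`. -/

namespace FZ

open Finset Polynomial

variable {F : Type} [Field F] [Fintype F]

open Classical in
/-- the squarefree monic polynomials of degree `≤ x` all of whose prime factors satisfy `Ad` -/
noncomputable def SqP (Ad : F[X] → Prop) (x : ℕ) : Finset F[X] :=
  ((range (x + 1)).biUnion fun k => mon F k).filter
    (fun m => Squarefree m ∧ ∀ P : F[X], P.Monic → Irreducible P → P ∣ m → Ad P)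

theorem mem_SqP {Ad : F[X] → Prop} {x : ℕ} {m : F[X]} : m ∈ SqP Ad x ↔ m.Monic ∧ m.natDegree ≤ x ∧ Squarefree m ∧
    ∀ P : F[X], P.Monic → Irreducible P → P ∣ m → Ad P := by
  classical
  unfold SqP
  simp only [mem_filter, mem_biUnion, mem_range, mem_mon]
  constructor
  · rintro ⟨⟨k, hk, h1, h2⟩, h3, h4⟩
    exact ⟨h1, by omega, h3, h4⟩
  · rintro ⟨h1, h2, h3, h4⟩
    exact ⟨⟨m.natDegree, by omega, h1, rfl⟩, h3, h4⟩

private theorem FC8_qpos : (0 : ℝ) < qq F := by
  have := two_le_qq F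
  linarith

open Classical in
/-- products of subsets with small degree -/
private theorem FC8_head (Ad : F[X] → Prop) (T : Finset F[X])
    (hT : ∀ P ∈ T, P.Monic ∧ Irreducible P ∧ Ad P) (x : ℕ) :
    ∑ S ∈ T.powerset.filter (fun S => ∑ P ∈ S, P.natDegree ≤ x), ∏ P ∈ S, (1 : ℝ) / qq F ^ P.natDegree ≤
      ∑ m ∈ SqP Ad x, 1 / qq F ^ m.natDegree := by
  classical
  have hq : (0 : ℝ) < qq F := FC8_qpos
  have hprime : ∀ S ∈ T.powerset.filter (fun S => ∑ P ∈ S, P.natDegree ≤ x), ∀ P ∈ S,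
      P.Monic ∧ Irreducible P := by
    intro S hS P hP
    rw [Finset.mem_filter, Finset.mem_powerset] at hS
    exact ⟨(hT P (hS.1 hP)).1, (hT P (hS.1 hP)).2.1⟩
  have hinj : Set.InjOn (fun S : Finset F[X] => ∏ P ∈ S, P)
      ((T.powerset.filter (fun S => ∑ P ∈ S, P.natDegree ≤ x) : Finset (Finset F[X])) :
        Set (Finset F[X])) := by
    intro S hS S' hS' h
    have h1 := (prod_set (hprime S hS)).2.2
    have h2 := (prod_set (hprime S' hS')).2.2
    simp only at h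
    rw [← h1, ← h2, h]
  have hdeg : ∀ S ∈ T.powerset.filter (fun S => ∑ P ∈ S, P.natDegree ≤ x),
      (∏ P ∈ S, P).natDegree = ∑ P ∈ S, P.natDegree := by
    intro S hS
    exact Polynomial.natDegree_prod_of_monic S (fun P => P) (fun P hP => (hprime S hS P hP).1)
  have h1 : ∑ S ∈ T.powerset.filter (fun S => ∑ P ∈ S, P.natDegree ≤ x),
      ∏ P ∈ S, (1 : ℝ) / qq F ^ P.natDegree =
      ∑ m ∈ (T.powerset.filter (fun S => ∑ P ∈ S, P.natDegree ≤ x)).image (fun S => ∏ P ∈ S, P),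
        1 / qq F ^ m.natDegree := by
    rw [Finset.sum_image hinj]
    apply Finset.sum_congr rfl
    intro S hS
    rw [Finset.prod_div_distrib, Finset.prod_const_one, hdeg S hS, Finset.prod_pow_eq_pow_sum]
  rw [h1]
  apply Finset.sum_le_sum_of_subset_of_nonneg
  · intro m hm
    rw [Finset.mem_image] at hm
    obtain ⟨S, hS, rfl⟩ := hm
    obtain ⟨h2, h3, h4⟩ := prod_set (hprime S hS)
    have hd := hdeg S hS
    rw [Finset.mem_filter, Finset.mem_powerset] at hS
    rw [mem_SqP]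
    refine ⟨h2, by rw [hd]; exact hS.2, h3, ?_⟩
    intro P hPm hPi hPd
    have h5 : P ∈ pfac (∏ P ∈ S, P) := (mem_pfac h2.ne_zero).2 ⟨hPm, hPi, hPd⟩
    rw [h4] at h5
    exact (hT P (hS.1 h5)).2.2
  · intro m _ _
    positivity

/-- Rankin bound for the tail -/
private theorem FC8_tail (T : Finset F[X]) (x : ℕ) (δ : ℝ) (hδ : 0 < δ) :
    ∑ S ∈ T.powerset.filter (fun S => ¬ ∑ P ∈ S, P.natDegree ≤ x),
      ∏ P ∈ S, (1 : ℝ) / qq F ^ P.natDegree ≤
      Real.exp (-(δ * x)) * ∏ P ∈ T, (1 + Real.exp (δ * P.natDegree) / qq F ^ P.natDegree) := by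
  classical
  have hq : (0 : ℝ) < qq F := FC8_qpos
  rw [Finset.prod_one_add, Finset.mul_sum]
  refine le_trans ?_ (Finset.sum_le_sum_of_subset_of_nonneg
    (Finset.filter_subset (fun S => ¬ ∑ P ∈ S, P.natDegree ≤ x) T.powerset) ?_)
  · apply Finset.sum_le_sum
    intro S hS
    rw [Finset.mem_filter, Finset.mem_powerset] at hS
    have h1 : (x : ℝ) ≤ ∑ P ∈ S, (P.natDegree : ℝ) := by
      have h2 : x ≤ ∑ P ∈ S, P.natDegree := by omega
      have h3 : (x : ℝ) ≤ ((∑ P ∈ S, P.natDegree : ℕ) : ℝ) := Nat.cast_le.mpr h2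
      rwa [Nat.cast_sum] at h3
    rw [Finset.prod_div_distrib, Finset.prod_div_distrib, Finset.prod_const_one, ← Real.exp_sum,
      ← Finset.mul_sum, mul_div_assoc', ← Real.exp_add]
    have hpp : (0 : ℝ) < ∏ P ∈ S, qq F ^ P.natDegree := Finset.prod_pos fun P _ => pow_pos hq _
    apply div_le_div_of_nonneg_right _ hpp.le
    rw [← Real.exp_zero]
    apply Real.exp_le_exp.mpr
    have h4 : δ * x ≤ δ * ∑ P ∈ S, (P.natDegree : ℝ) := mul_le_mul_of_nonneg_left h1 hδ.le
    linarith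
  · intro S hS _
    apply mul_nonneg (Real.exp_pos _).le
    apply Finset.prod_nonneg
    intro P _
    positivity

/-- comparison of the two Euler products -/
private theorem FC8_euler (T : Finset F[X]) (J B : ℝ) (hJ : 1 ≤ J)
    (hle : ∀ P ∈ T, (P.natDegree : ℝ) ≤ J)
    (hB : ∑ P ∈ T, (P.natDegree : ℝ) / qq F ^ P.natDegree ≤ J * B) :
    ∏ P ∈ T, (1 + Real.exp (1 / J * P.natDegree) / qq F ^ P.natDegree) ≤
      (∏ P ∈ T, (1 + (1 : ℝ) / qq F ^ P.natDegree)) * Real.exp (Real.exp 1 * B) := by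
  have hq : (0 : ℝ) < qq F := FC8_qpos
  have hJ0 : 0 < J := by linarith
  have h1 : ∏ P ∈ T, (1 + Real.exp (1 / J * P.natDegree) / qq F ^ P.natDegree) ≤
      ∏ P ∈ T, ((1 + (1 : ℝ) / qq F ^ P.natDegree) *
        Real.exp (Real.exp 1 * ((P.natDegree : ℝ) / qq F ^ P.natDegree) / J)) := by
    apply Finset.prod_le_prod
    · intro P _
      positivity
    · intro P hP
      have hp0 : (0 : ℝ) < qq F ^ P.natDegree := pow_pos hq _
      obtain ⟨t, ht⟩ : ∃ t : ℝ, t = 1 / J * P.natDegree := ⟨_, rfl⟩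
      have ht0 : 0 ≤ t := by
        rw [ht]
        positivity
      have ht1 : t ≤ 1 := by
        rw [ht, one_div_mul_eq_div, div_le_one hJ0]
        exact hle P hP
      rw [← ht]
      have h3 : Real.exp t - 1 ≤ Real.exp 1 * t := by
        have h4 : 1 - t ≤ Real.exp (-t) := by
          have := Real.add_one_le_exp (-t)
          linarith
        have h5 : Real.exp t * (1 - t) ≤ 1 := by
          calc Real.exp t * (1 - t) ≤ Real.exp t * Real.exp (-t) :=
                mul_le_mul_of_nonneg_left h4 (Real.exp_pos _).le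
            _ = 1 := by rw [← Real.exp_add]; simp
        have h6 : Real.exp t ≤ Real.exp 1 := Real.exp_le_exp.mpr ht1
        nlinarith
      have h7 : 1 + (Real.exp t - 1) / qq F ^ P.natDegree ≤
          Real.exp (Real.exp 1 * ((P.natDegree : ℝ) / qq F ^ P.natDegree) / J) := by
        have h8 : (Real.exp t - 1) / qq F ^ P.natDegree ≤
            Real.exp 1 * ((P.natDegree : ℝ) / qq F ^ P.natDegree) / J := by
          have h9 : Real.exp 1 * ((P.natDegree : ℝ) / qq F ^ P.natDegree) / J =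
              (Real.exp 1 * t) / qq F ^ P.natDegree := by
            rw [ht]
            ring
          rw [h9]
          exact div_le_div_of_nonneg_right h3 hp0.le
        have := Real.add_one_le_exp (Real.exp 1 * ((P.natDegree : ℝ) / qq F ^ P.natDegree) / J)
        linarith
      have h10 : 0 ≤ (Real.exp t - 1) / qq F ^ P.natDegree := by
        apply div_nonneg _ hp0.le
        have := Real.add_one_le_exp t
        linarith
      have h11 : 1 + Real.exp t / qq F ^ P.natDegree ≤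
          (1 + 1 / qq F ^ P.natDegree) * (1 + (Real.exp t - 1) / qq F ^ P.natDegree) := by
        have h12 : (1 + 1 / qq F ^ P.natDegree) * (1 + (Real.exp t - 1) / qq F ^ P.natDegree) =
            1 + Real.exp t / qq F ^ P.natDegree +
              (1 / qq F ^ P.natDegree) * ((Real.exp t - 1) / qq F ^ P.natDegree) := by
          have hp0' : qq F ^ P.natDegree ≠ 0 := hp0.ne'
          generalize qq F ^ P.natDegree = y at hp0'
          field_simp
          ring
        rw [h12]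
        have : 0 ≤ (1 / qq F ^ P.natDegree) * ((Real.exp t - 1) / qq F ^ P.natDegree) :=
          mul_nonneg (by positivity) h10
        linarith
      refine le_trans h11 ?_
      exact mul_le_mul_of_nonneg_left h7 (by positivity)
  refine le_trans h1 ?_
  rw [Finset.prod_mul_distrib, ← Real.exp_sum]
  apply mul_le_mul_of_nonneg_left _ (Finset.prod_nonneg fun P _ => by positivity)
  apply Real.exp_le_exp.mpr
  rw [← Finset.sum_div, ← Finset.mul_sum, div_le_iff₀ hJ0]
  have := mul_le_mul_of_nonneg_left hB (Real.exp_pos 1).le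
  linarith

/-- the sum of the squares -/
private theorem FC8_sq (T : Finset F[X]) (hT : ∀ P ∈ T, P.Monic ∧ Irreducible P) :
    ∑ P ∈ T, (1 / qq F ^ P.natDegree) ^ 2 ≤ 1 := by
  classical
  have hq : (0 : ℝ) < qq F := FC8_qpos
  have hq2 : (2 : ℝ) ≤ qq F := two_le_qq F
  obtain ⟨J, hJ⟩ : ∃ J : ℕ, ∀ P ∈ T, P.natDegree ≤ J :=
    ⟨∑ P ∈ T, P.natDegree, fun P hP =>
      Finset.single_le_sum (f := fun P : F[X] => P.natDegree) (fun i _ => Nat.zero_le _) hP⟩
  have hmaps : ∀ P ∈ T, P.natDegree - 1 ∈ range J := by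
    intro P hP
    rw [Finset.mem_range]
    have h1 := (hT P hP).2.natDegree_pos
    have h2 := hJ P hP
    omega
  rw [← Finset.sum_fiberwise_of_maps_to hmaps]
  have h3 : ∀ k ∈ range J, ∑ P ∈ T with P.natDegree - 1 = k, (1 / qq F ^ P.natDegree) ^ 2 ≤
      (1 / 2 : ℝ) ^ (k + 1) := by
    intro k _
    have h4 : ∀ P ∈ T.filter (fun P => P.natDegree - 1 = k),
        (1 / qq F ^ P.natDegree) ^ 2 = (1 / qq F ^ (k + 1)) ^ 2 := by
      intro P hP
      rw [Finset.mem_filter] at hP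
      have h1 := (hT P hP.1).2.natDegree_pos
      have h5 : P.natDegree = k + 1 := by omega
      rw [h5]
    rw [Finset.sum_congr rfl h4, Finset.sum_const, nsmul_eq_mul]
    have h6 : ((T.filter (fun P => P.natDegree - 1 = k)).card : ℝ) ≤ qq F ^ (k + 1) := by
      have h7 : T.filter (fun P => P.natDegree - 1 = k) ⊆
          (mon F (k + 1)).filter fun P => Irreducible P := by
        intro P hP
        rw [Finset.mem_filter] at hP
        rw [Finset.mem_filter, mem_mon]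
        have h1 := (hT P hP.1).2.natDegree_pos
        exact ⟨⟨(hT P hP.1).1, by omega⟩, (hT P hP.1).2⟩
      have h8 : ((T.filter (fun P => P.natDegree - 1 = k)).card : ℝ) ≤
          (((mon F (k + 1)).filter fun P => Irreducible P).card : ℝ) := by
        exact_mod_cast Finset.card_le_card h7
      have h9 := prime_count (F := F) (k + 1)
      have h10 : (((mon F (k + 1)).filter fun P => Irreducible P).card : ℝ) ≤
          ((k + 1 : ℕ) : ℝ) * (((mon F (k + 1)).filter fun P => Irreducible P).card : ℝ) := by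
        have h11 : (1 : ℝ) ≤ ((k + 1 : ℕ) : ℝ) := by
          push_cast
          have : (0 : ℝ) ≤ (k : ℝ) := Nat.cast_nonneg k
          linarith
        have h12 : (0 : ℝ) ≤ (((mon F (k + 1)).filter fun P => Irreducible P).card : ℝ) :=
          Nat.cast_nonneg _
        nlinarith
      have h13 : (Fintype.card F : ℝ) ^ (k + 1) = qq F ^ (k + 1) := rfl
      rw [h13] at h9
      linarith
    have hpk : (0 : ℝ) < qq F ^ (k + 1) := pow_pos hq _
    calc ((T.filter (fun P => P.natDegree - 1 = k)).card : ℝ) * (1 / qq F ^ (k + 1)) ^ 2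
        ≤ qq F ^ (k + 1) * (1 / qq F ^ (k + 1)) ^ 2 :=
          mul_le_mul_of_nonneg_right h6 (by positivity)
      _ = (1 / qq F) ^ (k + 1) := by
          have h15 : (1 / qq F) ^ (k + 1) = 1 / qq F ^ (k + 1) := one_div_pow _ _
          rw [h15]
          field_simp
      _ ≤ (1 / 2 : ℝ) ^ (k + 1) := by
          apply pow_le_pow_left₀ (by positivity)
          exact one_div_le_one_div_of_le (by norm_num) hq2
  refine le_trans (Finset.sum_le_sum h3) ?_
  have h14 : ∀ n : ℕ, ∑ k ∈ range n, (1 / 2 : ℝ) ^ (k + 1) = 1 - (1 / 2) ^ n := by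
    intro n
    induction n with
    | zero => simp
    | succ n ih =>
      rw [Finset.sum_range_succ, ih]
      ring
  rw [h14]
  have : (0 : ℝ) ≤ (1 / 2) ^ J := by positivity
  linarith

/-- lower bound for the Euler product -/
private theorem FC8_lower (T : Finset F[X]) (hT : ∀ P ∈ T, P.Monic ∧ Irreducible P) :
    Real.exp (∑ P ∈ T, (1 : ℝ) / qq F ^ P.natDegree - 1) ≤
      ∏ P ∈ T, (1 + (1 : ℝ) / qq F ^ P.natDegree) := by
  have hq : (0 : ℝ) < qq F := FC8_qpos
  have h1 : Real.exp (∑ P ∈ T, ((1 : ℝ) / qq F ^ P.natDegree - (1 / qq F ^ P.natDegree) ^ 2)) ≤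
      ∏ P ∈ T, (1 + (1 : ℝ) / qq F ^ P.natDegree) := by
    rw [Real.exp_sum]
    apply Finset.prod_le_prod
    · intro P _
      exact (Real.exp_pos _).le
    · intro P hP
      have hp0 : (0 : ℝ) < qq F ^ P.natDegree := pow_pos hq _
      obtain ⟨t, ht⟩ : ∃ t : ℝ, t = 1 / qq F ^ P.natDegree := ⟨_, rfl⟩
      have ht0 : 0 < t := by
        rw [ht]
        positivity
      rw [← ht]
      have h2 := Real.le_log_one_add_of_nonneg ht0.le
      have h3 : t - t ^ 2 ≤ Real.log (1 + t) := by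
        refine le_trans ?_ h2
        rw [le_div_iff₀ (by positivity)]
        nlinarith [pow_pos ht0 2, pow_pos ht0 3]
      rw [← Real.le_log_iff_exp_le (by positivity)]
      exact h3
  refine le_trans (Real.exp_le_exp.mpr ?_) h1
  rw [Finset.sum_sub_distrib]
  have h2 := FC8_sq T hT
  linarith

open Classical in
theorem sum_sqfree_lower (Ad : F[X] → Prop) (κ C : ℝ) (hκ : 0 < κ)
    (hP : ∀ x : ℕ, κ * x - C ≤ ∑ P ∈ (PP F x).filter Ad, (P.natDegree : ℝ) / qq F ^ P.natDegree) :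
    ∃ c : ℝ, 0 < c ∧ ∀ x : ℕ, 1 ≤ x → c * (x : ℝ) ^ κ ≤ ∑ m ∈ SqP Ad x, 1 / qq F ^ m.natDegree := by
  have hq : (0 : ℝ) < qq F := FC8_qpos
  obtain ⟨C', hC'⟩ := sum_inv_lower Ad κ C hκ hP
  obtain ⟨C1, hC1⟩ := mert_prime F
  obtain ⟨C₀, hC₀⟩ : ∃ C₀ : ℝ, C₀ = |C1| := ⟨_, rfl⟩
  have hC₀0 : 0 ≤ C₀ := by
    rw [hC₀]
    exact abs_nonneg _
  have hC10 : C1 ≤ C₀ := by
    rw [hC₀]
    exact le_abs_self _
  have he : (2 : ℝ) ≤ Real.exp 1 := by
    have := Real.add_one_le_exp (1 : ℝ)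
    linarith
  obtain ⟨u, hu⟩ : ∃ u : ℝ, u = Real.exp 1 * (1 + C₀) + 1 := ⟨_, rfl⟩
  have hu1 : 1 ≤ u := by
    have : 0 ≤ Real.exp 1 * (1 + C₀) := by positivity
    linarith
  have hu0 : 0 < u := by linarith
  obtain ⟨μ, hμ⟩ : ∃ μ : ℝ, μ = min (Real.exp (-C' - 1) / 2) 1 := ⟨_, rfl⟩
  have hm : 0 < μ := by
    rw [hμ]
    exact lt_min (by positivity) one_pos
  have hm1 : μ ≤ 1 := by
    rw [hμ]
    exact min_le_right _ _
  have hm2 : μ ≤ Real.exp (-C' - 1) / 2 := by
    rw [hμ]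
    exact min_le_left _ _
  refine ⟨μ * (2 * u) ^ (-κ), mul_pos hm (Real.rpow_pos_of_pos (by linarith) _), ?_⟩
  intro x hx
  have hx1 : (1 : ℝ) ≤ (x : ℝ) := by exact_mod_cast hx
  have hx0 : (0 : ℝ) < (x : ℝ) := by linarith
  have hpow : μ * (2 * u) ^ (-κ) * (x : ℝ) ^ κ = μ * ((x : ℝ) / (2 * u)) ^ κ := by
    rw [Real.div_rpow hx0.le (by linarith), Real.rpow_neg (by linarith)]
    ring
  rw [hpow]
  have hxu0 : 0 ≤ (x : ℝ) / (2 * u) := div_nonneg hx0.le (by linarith)
  rcases lt_or_ge (x : ℝ) u with hlt | hge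
  · -- small `x`
    have h1 : ((x : ℝ) / (2 * u)) ^ κ ≤ 1 := by
      apply Real.rpow_le_one hxu0 _ hκ.le
      rw [div_le_one (by linarith)]
      linarith
    have h2 : μ * ((x : ℝ) / (2 * u)) ^ κ ≤ 1 :=
      calc μ * ((x : ℝ) / (2 * u)) ^ κ ≤ 1 * 1 :=
            mul_le_mul hm1 h1 (Real.rpow_nonneg hxu0 _) zero_le_one
        _ = 1 := one_mul 1
    refine le_trans h2 ?_
    have h3 : (1 : F[X]) ∈ SqP Ad x := by
      rw [mem_SqP]
      refine ⟨Polynomial.monic_one, by simp, squarefree_one, ?_⟩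
      intro P _ hPi hP1
      exact absurd (isUnit_of_dvd_one hP1) hPi.not_isUnit
    have h4 := Finset.single_le_sum (f := fun m : F[X] => (1 : ℝ) / qq F ^ m.natDegree)
      (fun m _ => by positivity) h3
    simpa using h4
  · -- large `x`
    obtain ⟨J, hJ⟩ : ∃ J : ℕ, J = ⌊(x : ℝ) / u⌋₊ := ⟨_, rfl⟩
    have hxu : 1 ≤ (x : ℝ) / u := by
      rw [le_div_iff₀ hu0, one_mul]
      exact hge
    have hJ1 : 1 ≤ J := by
      rw [hJ, Nat.one_le_floor_iff]
      exact hxu
    have hJle : (J : ℝ) ≤ (x : ℝ) / u := by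
      rw [hJ]
      exact Nat.floor_le (by linarith)
    have hJge : (x : ℝ) / (2 * u) ≤ (J : ℝ) := by
      have h1 : (x : ℝ) / u < (J : ℝ) + 1 := by
        rw [hJ]
        exact Nat.lt_floor_add_one _
      have h2 : (1 : ℝ) ≤ (J : ℝ) := by exact_mod_cast hJ1
      have h3 : (x : ℝ) / (2 * u) = (x : ℝ) / u / 2 := by
        field_simp
      rw [h3]
      linarith
    have hJR : (1 : ℝ) ≤ (J : ℝ) := by exact_mod_cast hJ1
    have hJ0 : (0 : ℝ) < (J : ℝ) := by linarith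
    obtain ⟨T, hT⟩ : ∃ T : Finset F[X], T = (PP F J).filter Ad := ⟨_, rfl⟩
    have hTp : ∀ P ∈ T, P.Monic ∧ Irreducible P ∧ Ad P := by
      intro P hPT
      rw [hT, Finset.mem_filter, mem_PP] at hPT
      exact ⟨hPT.1.1, hPT.1.2.1, hPT.2⟩
    have hTle : ∀ P ∈ T, (P.natDegree : ℝ) ≤ (J : ℝ) := by
      intro P hPT
      rw [hT, Finset.mem_filter, mem_PP] at hPT
      exact_mod_cast hPT.1.2.2
    have hB : ∑ P ∈ T, (P.natDegree : ℝ) / qq F ^ P.natDegree ≤ (J : ℝ) * (1 + C₀) := by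
      have h1 := hC1 J
      have h2 : ∑ P ∈ T, (P.natDegree : ℝ) / qq F ^ P.natDegree ≤
          ∑ P ∈ PP F J, (P.natDegree : ℝ) / qq F ^ P.natDegree := by
        apply Finset.sum_le_sum_of_subset_of_nonneg
        · rw [hT]
          exact Finset.filter_subset _ _
        · intro P _ _
          positivity
      rw [abs_le] at h1
      nlinarith [h1.2]
    have hTpr : ∀ P ∈ T, P.Monic ∧ Irreducible P := fun P hPT => ⟨(hTp P hPT).1, (hTp P hPT).2.1⟩
    have hhead := FC8_head Ad T hTp x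
    have htail := FC8_tail T x (1 / (J : ℝ)) (by positivity)
    have heul := FC8_euler T (J : ℝ) (1 + C₀) hJR hTle hB
    have hlow := FC8_lower T hTpr
    have hsum := hC' J hJ1
    rw [← hT] at hsum
    obtain ⟨EP, hEP⟩ : ∃ EP : ℝ, EP = ∏ P ∈ T, (1 + (1 : ℝ) / qq F ^ P.natDegree) := ⟨_, rfl⟩
    rw [← hEP] at heul hlow
    have hEP0 : 0 ≤ EP := by
      rw [hEP]
      exact Finset.prod_nonneg fun P _ => by positivity
    have hxd : Real.exp (-(1 / (J : ℝ) * x)) ≤ Real.exp (-u) := by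
      apply Real.exp_le_exp.mpr
      apply neg_le_neg
      rw [one_div_mul_eq_div, le_div_iff₀ hJ0]
      rw [le_div_iff₀ hu0] at hJle
      linarith
    have htail2 : ∑ S ∈ T.powerset.filter (fun S => ¬ ∑ P ∈ S, P.natDegree ≤ x),
        ∏ P ∈ S, (1 : ℝ) / qq F ^ P.natDegree ≤ EP / 2 := by
      refine le_trans htail ?_
      calc Real.exp (-(1 / (J : ℝ) * x)) *
            ∏ P ∈ T, (1 + Real.exp (1 / (J : ℝ) * P.natDegree) / qq F ^ P.natDegree) ≤
            Real.exp (-u) * (EP * Real.exp (Real.exp 1 * (1 + C₀))) :=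
            mul_le_mul hxd heul (Finset.prod_nonneg fun P _ => by positivity) (Real.exp_pos _).le
        _ = EP * (Real.exp (-u) * Real.exp (Real.exp 1 * (1 + C₀))) := by ring
        _ = EP * Real.exp (-1) := by
            rw [← Real.exp_add, hu]
            congr 2
            ring
        _ ≤ EP * (1 / 2) := by
            apply mul_le_mul_of_nonneg_left _ hEP0
            rw [Real.exp_neg, ← one_div]
            exact one_div_le_one_div_of_le (by norm_num) he
        _ = EP / 2 := by ring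
    have hsplit : EP = ∑ S ∈ T.powerset.filter (fun S => ∑ P ∈ S, P.natDegree ≤ x),
          ∏ P ∈ S, (1 : ℝ) / qq F ^ P.natDegree +
        ∑ S ∈ T.powerset.filter (fun S => ¬ ∑ P ∈ S, P.natDegree ≤ x),
          ∏ P ∈ S, (1 : ℝ) / qq F ^ P.natDegree := by
      rw [Finset.sum_filter_add_sum_filter_not, hEP, Finset.prod_one_add]
    have hEP2 : Real.exp (-C' - 1) * (J : ℝ) ^ κ ≤ EP := by
      refine le_trans ?_ hlow
      rw [Real.rpow_def_of_pos hJ0, ← Real.exp_add]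
      apply Real.exp_le_exp.mpr
      linarith
    refine le_trans ?_ hhead
    have h5 : μ * ((x : ℝ) / (2 * u)) ^ κ ≤ Real.exp (-C' - 1) / 2 * (J : ℝ) ^ κ :=
      mul_le_mul hm2 (Real.rpow_le_rpow hxu0 hJge hκ.le) (Real.rpow_nonneg hxu0 _) (by positivity)
    linarith

end FZ
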