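import Pool.Agent.Lib.MP_1ad228_nt.FF.FC6
import Pool.Agent.Lib.MP_1ad228_nt.FF.FC8
import Pool.Agent.Lib.MP_1ad228_nt.FF.FC10a

/-! JOB FC10.  The number of `D` of degree `≤ n` in `InD a ε i j` is at least `c q^n/n^(1/4)`.
MODEL (over `ℤ`, complete proof): `Pool/Agent/Lib/MP_1ad228_ntR/RC10.lean`.

Proof.  `R = Rb a ≠ 0`; `E = EE a ε`; `q = qq F`.
(1) By `exists_class` for `{a i, a j}` (the nonempty subsets have non-square products; `a i ≠ a j` because `a i * a j` is not a square), `v (a i) = 1`, `v (a j) = -1`, `y = deg R`: there is `Q` with `AdmQ a i j Q`.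
(2) By `mert_two` (`Fex = insert Q (pfac R)`) and `sum_sqfree_lower` (`κ = 3/4`, `Ad = AdmP a i j Q`): for `x ≥ 1`, `∑_{m ∈ M x} 1/q^(deg m) ≥ c₁ x^(3/4)`, where `M x = SqP (AdmP a i j Q) x` (its elements satisfy `Adm a i j Q m`: `mem_SqP`).
(3) `c₂, x₂` from `count_class_unif` (`EE_indep`).
(4) Let `n` be large, `x = n/4`, `s = n/2` (natural number division).  For `m ∈ M x`: `deg (mp m) ≤ deg Q + x < s` for large `n` and `deg R < s`.  For `m ∈ M x` let `T m` be the set of the primes `P` of degree `≤ n - deg (mp m)` with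
`jac e P = jac e (mp m)` for all `e ∈ E`, and `deg P > s`.  The pairs `(m, P)` with `m ∈ M x`, `P ∈ T m` give elements `mp m * P` of degree `≤ n` of `InD a ε i j` (`InD_mul`), and the map is injective (`mp_inj`, since `deg P > s > deg (mp m')`
for all `m'`).  So the number of elements is `≥ ∑_{m ∈ M x} #T m` (`Finset.card_sigma`, `Finset.card_le_card_of_injOn`; the target set is finite, written as a `Nat.card` of a subtype of the polynomials with `natDegree ≤ n`, or a finset).
(5) `#T m ≥ c₂ q^(n - deg mp m)/(n - deg mp m) - #(PP s) ≥ c₂ q^(n - deg mp m)/n - 2 q^s ≥ (c₂/2) q^(n - deg mp m)/n`: `#(PP s) ≤ ∑_{k ≤ s} q^k ≤ 2 q^s` (`card_mon`), and `4 n q^s ≤ c₂ q^(n - deg mp m)` for large `n`, since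
`n - deg mp m - s ≥ n - n/4 - deg Q - n/2 ≥ n/4 - deg Q` and `4 n q^(deg Q) ≤ c₂ 2^(n/4)` for large `n`.  `count_class_unif` is applied with `v e = jac e (mp m)` (`EE_pm`, `mp_props`).
(6) `deg (mp m) ≤ deg m + deg Q`, so the number is `≥ (c₂/(2 q^(deg Q))) (q^n/n) ∑_{m ∈ M x} 1/q^(deg m) ≥ c₃ (q^n/n) (n/4)^(3/4)`-like, and `x = n/4 ≥ n/8` for large `n`: `≥ c₄ q^n n^(-1/4)`.
(7) For `1 ≤ n < n₀`: `D = 1` is in `InD a ε i j` (`jac_one_right`), the count is `≥ 1 ≥ c q^n/n^(1/4)` for `c ≤ q^(-n₀)`. -/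

namespace FZ

open Finset Polynomial

variable {F : Type} [Field F] [Fintype F] [DecidableEq F]

omit [Fintype F] in
private theorem fc10_subsets (b b' : F[X]) (hb : ¬ IsSquare b) (hb' : ¬ IsSquare b')
    (hbb : ¬ IsSquare (b * b')) (E : Finset F[X]) (hE : ∀ e, e ∈ E ↔ e = b ∨ e = b') :
    ∀ S ⊆ E, S.Nonempty → ¬ IsSquare (∏ e ∈ S, e) := by
  classical
  have hne : b ≠ b' := by
    rintro rfl
    exact hbb ⟨b, rfl⟩
  intro S hS hSn
  by_cases h1 : b ∈ S
  · by_cases h2 : b' ∈ S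
    · have hSe : S = {b, b'} := by
        apply Finset.Subset.antisymm
        · intro e he
          simp only [Finset.mem_insert, Finset.mem_singleton]
          exact (hE e).mp (hS he)
        · intro e he
          simp only [Finset.mem_insert, Finset.mem_singleton] at he
          rcases he with rfl | rfl
          · exact h1
          · exact h2
      rw [hSe, Finset.prod_pair hne]
      exact hbb
    · have hSe : S = {b} := by
        apply Finset.Subset.antisymm
        · intro e he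
          rcases (hE e).mp (hS he) with rfl | rfl
          · exact Finset.mem_singleton_self _
          · exact absurd he h2
        · intro e he
          rw [Finset.mem_singleton] at he
          rw [he]
          exact h1
      rw [hSe, Finset.prod_singleton]
      exact hb
  · have hSe : S = {b'} := by
      apply Finset.Subset.antisymm
      · intro e he
        rcases (hE e).mp (hS he) with rfl | rfl
        · exact absurd he h1
        · exact Finset.mem_singleton_self _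
      · intro e he
        rw [Finset.mem_singleton] at he
        obtain ⟨e', he'⟩ := hSn
        rcases (hE e').mp (hS he') with h | h
        · exact absurd (h ▸ he') h1
        · rw [he, ← h]
          exact he'
    rw [hSe, Finset.prod_singleton]
    exact hb'

private theorem fc10_one {ι : Type} [Fintype ι] [DecidableEq ι] (a : ι → F[X]) (ε : F) (i j : ι) :
    InD a ε i j 1 := by
  refine ⟨monic_one, squarefree_one, isCoprime_one_left, ?_, ?_⟩
  · intro e _
    exact jac_one_right e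
  · intro P _ hP h
    exact absurd (isUnit_of_dvd_one h) hP.not_isUnit

private theorem fc10_card_PP (s : ℕ) : ((PP F s).card : ℝ) ≤ 2 * qq F ^ s := by
  classical
  have h1 : PP F s ⊆ (range (s + 1)).biUnion (mon F) := by
    intro P hP
    rw [mem_PP] at hP
    rw [mem_biUnion]
    exact ⟨P.natDegree, mem_range.mpr (by omega), (mem_mon F).mpr ⟨hP.1, rfl⟩⟩
  have h2 : (PP F s).card ≤ ∑ k ∈ range (s + 1), Fintype.card F ^ k := by
    refine le_trans (Finset.card_le_card h1) (le_trans Finset.card_biUnion_le ?_)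
    apply le_of_eq
    exact Finset.sum_congr rfl (fun k _ => card_mon F k)
  have h3 : ∀ s : ℕ, ∑ k ∈ range (s + 1), Fintype.card F ^ k ≤ 2 * Fintype.card F ^ s := by
    intro s
    induction s with
    | zero => simp
    | succ s ih =>
      rw [Finset.sum_range_succ]
      have h4 : 2 * Fintype.card F ^ s ≤ Fintype.card F ^ (s + 1) := by
        rw [pow_succ, Nat.mul_comm 2]
        exact Nat.mul_le_mul_left _ (two_le_card F)
      omega
  have h5 := le_trans h2 (h3 s)
  unfold qq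
  exact_mod_cast h5

open Classical in
private theorem fc10_large {ι : Type} [Fintype ι] [DecidableEq ι] (a : ι → F[X])
    (hR : Rb a ≠ 0) (ε : F) (hε : ¬ IsSquare ε) (i j : ι) (Q : F[X]) (hQ : AdmQ a i j Q)
    (c2 : ℝ) (x2 : ℕ) (hc2 : 0 < c2)
    (h2 : ∀ x : ℕ, x2 ≤ x → ∀ v : F[X] → ℤ, (∀ e ∈ EE a ε, v e = 1 ∨ v e = -1) →
      c2 * qq F ^ x / x ≤ (((PP F x).filter (fun P => ∀ e ∈ EE a ε, jac e P = v e)).card : ℝ))
    (n x s : ℕ) (hx2 : 1 ≤ x2) (hxs : x + Q.natDegree ≤ s) (hxn : x + Q.natDegree + x2 ≤ n)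
    (hbig : 4 * (n : ℝ) * qq F ^ s * qq F ^ (x + Q.natDegree) ≤ c2 * qq F ^ n) :
    (c2 / (2 * qq F ^ Q.natDegree)) * (qq F ^ n / n) *
      ∑ m ∈ SqP (AdmP a i j Q) x, 1 / qq F ^ m.natDegree ≤
      (((range (n + 1)).biUnion fun k => (mon F k).filter (InD a ε i j)).card : ℝ) := by
  have hq2 := two_le_qq F
  have hq0 : 0 < qq F := by linarith
  have hq1 : 1 ≤ qq F := by linarith
  have hnr : (0 : ℝ) < n := by exact_mod_cast (by omega : 0 < n)
  set T : F[X] → Finset F[X] := fun m =>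
    ((PP F (n - (mp a i j Q m).natDegree)).filter
      (fun P => ∀ e ∈ EE a ε, jac e P = jac e (mp a i j Q m))).filter
      (fun P => s < P.natDegree) with hT
  have hAdm : ∀ m ∈ SqP (AdmP a i j Q) x, Adm a i j Q m ∧ m.natDegree ≤ x := by
    intro m hm
    rw [mem_SqP] at hm
    exact ⟨⟨hm.1, hm.2.2.1, hm.2.2.2⟩, hm.2.1⟩
  -- the cardinality of T m
  have hTm : ∀ m ∈ SqP (AdmP a i j Q) x,
      (c2 / (2 * qq F ^ Q.natDegree)) * (qq F ^ n / n) * (1 / qq F ^ m.natDegree) ≤
        ((T m).card : ℝ) := by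
    intro m hm
    obtain ⟨hmA, hmx⟩ := hAdm m hm
    obtain ⟨hMmon, hMm, hMQ⟩ := mp_deg a i j Q m hQ hmA.1
    obtain ⟨-, hMco, -, -⟩ := mp_props a hR i j Q m hQ hmA
    set M := mp a i j Q m with hM
    set d := M.natDegree with hd
    have hdx : d ≤ x + Q.natDegree := by omega
    have hk : x2 ≤ n - d := by omega
    have hcnt := h2 (n - d) hk (fun e => jac e M)
      (fun e he => EE_pm a hR ε hε M hMmon hMco e he)
    set A := (PP F (n - d)).filter (fun P => ∀ e ∈ EE a ε, jac e P = jac e M) with hA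
    have hTA : T m = A.filter (fun P => s < P.natDegree) := by
      simp only [hT, hA, hM, hd]
    have hcard : (A.card : ℝ) ≤ ((T m).card : ℝ) + 2 * qq F ^ s := by
      have h3 := Finset.card_filter_add_card_filter_not (s := A) (fun P => s < P.natDegree)
      have h4 : (A.filter (fun P => ¬ s < P.natDegree)).card ≤ (PP F s).card := by
        apply Finset.card_le_card
        intro P hP
        simp only [hA, Finset.mem_filter, mem_PP] at hP
        rw [mem_PP]
        exact ⟨hP.1.1.1, hP.1.1.2.1, by omega⟩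
      rw [hTA]
      have h5 : A.card ≤ (A.filter (fun P => s < P.natDegree)).card + (PP F s).card := by omega
      have h6 : (A.card : ℝ) ≤ ((A.filter (fun P => s < P.natDegree)).card : ℝ) +
          ((PP F s).card : ℝ) := by exact_mod_cast h5
      linarith [fc10_card_PP (F := F) s]
    have hkr : (0 : ℝ) < ((n - d : ℕ) : ℝ) := by exact_mod_cast (by omega : 0 < n - d)
    have hkn : ((n - d : ℕ) : ℝ) ≤ n := by exact_mod_cast Nat.sub_le n d
    have hqd : qq F ^ (n - d) * qq F ^ d = qq F ^ n := by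
      rw [← pow_add]
      congr 1
      omega
    have h9 : c2 * qq F ^ (n - d) / n ≤ c2 * qq F ^ (n - d) / ((n - d : ℕ) : ℝ) :=
      div_le_div_of_nonneg_left (by positivity) hkr hkn
    have h10 : 4 * qq F ^ s ≤ c2 * qq F ^ (n - d) / n := by
      rw [le_div_iff₀ hnr]
      have e1 : qq F ^ d ≤ qq F ^ (x + Q.natDegree) := pow_le_pow_right₀ hq1 hdx
      have e2 : (4 * qq F ^ s * n) * qq F ^ (x + Q.natDegree) ≤
          (c2 * qq F ^ (n - d)) * qq F ^ (x + Q.natDegree) := by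
        calc (4 * qq F ^ s * n) * qq F ^ (x + Q.natDegree)
            = 4 * (n : ℝ) * qq F ^ s * qq F ^ (x + Q.natDegree) := by ring
          _ ≤ c2 * qq F ^ n := hbig
          _ = (c2 * qq F ^ (n - d)) * qq F ^ d := by rw [← hqd]; ring
          _ ≤ (c2 * qq F ^ (n - d)) * qq F ^ (x + Q.natDegree) :=
              mul_le_mul_of_nonneg_left e1 (by positivity)
      exact le_of_mul_le_mul_right e2 (by positivity)
    have h12 : c2 * qq F ^ (n - d) / n / 2 ≤ ((T m).card : ℝ) := by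
      linarith
    refine le_trans ?_ h12
    have h13 : qq F ^ n ≤ qq F ^ (n - d) * (qq F ^ m.natDegree * qq F ^ Q.natDegree) := by
      calc qq F ^ n = qq F ^ (n - d) * qq F ^ d := hqd.symm
        _ ≤ qq F ^ (n - d) * qq F ^ (m.natDegree + Q.natDegree) :=
            mul_le_mul_of_nonneg_left (pow_le_pow_right₀ hq1 hMQ) (by positivity)
        _ = qq F ^ (n - d) * (qq F ^ m.natDegree * qq F ^ Q.natDegree) := by rw [pow_add]
    have h14 : (c2 / (2 * qq F ^ Q.natDegree)) * (qq F ^ n / n) * (1 / qq F ^ m.natDegree) =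
        c2 * (qq F ^ n / (qq F ^ m.natDegree * qq F ^ Q.natDegree)) / n / 2 := by
      field_simp
    rw [h14]
    have h15 : qq F ^ n / (qq F ^ m.natDegree * qq F ^ Q.natDegree) ≤ qq F ^ (n - d) := by
      rw [div_le_iff₀ (by positivity)]
      exact h13
    apply div_le_div_of_nonneg_right _ (by norm_num)
    apply div_le_div_of_nonneg_right _ hnr.le
    exact mul_le_mul_of_nonneg_left h15 hc2.le
  -- the injection
  have hinj : ((SqP (AdmP a i j Q) x).sigma T).card ≤
      ((range (n + 1)).biUnion fun k => (mon F k).filter (InD a ε i j)).card := by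
    apply Finset.card_le_card_of_injOn (fun z => mp a i j Q z.1 * z.2)
    · intro z hz
      rw [Finset.mem_coe, Finset.mem_sigma] at hz
      obtain ⟨hz1, hz2⟩ := hz
      obtain ⟨hmA, hmx⟩ := hAdm z.1 hz1
      simp only [hT, Finset.mem_filter, mem_PP] at hz2
      obtain ⟨⟨⟨hP1, hP2, hP3⟩, hPe⟩, hPs⟩ := hz2
      obtain ⟨hMmon, hMm, hMQ⟩ := mp_deg a i j Q z.1 hQ hmA.1
      have hRQ := hQ.2.2.1
      have hIn : InD a ε i j (mp a i j Q z.1 * z.2) := by
        refine InD_mul a hR ε hε i j Q z.1 z.2 hQ hmA hP1 hP2 ?_ ?_ hPe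
        · omega
        · omega
      rw [Finset.mem_coe, Finset.mem_biUnion]
      refine ⟨(mp a i j Q z.1 * z.2).natDegree, ?_, ?_⟩
      · rw [Finset.mem_range, hMmon.natDegree_mul hP1]
        omega
      · rw [Finset.mem_filter, mem_mon]
        exact ⟨⟨hMmon.mul hP1, rfl⟩, hIn⟩
    · intro z hz z' hz' he
      rw [Finset.mem_coe, Finset.mem_sigma] at hz hz'
      obtain ⟨hz1, hz2⟩ := hz
      obtain ⟨hz1', hz2'⟩ := hz'
      obtain ⟨hmA, hmx⟩ := hAdm z.1 hz1
      obtain ⟨hmA', hmx'⟩ := hAdm z'.1 hz1'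
      simp only [hT, Finset.mem_filter, mem_PP] at hz2 hz2'
      obtain ⟨⟨⟨hP1, hP2, hP3⟩, hPe⟩, hPs⟩ := hz2
      obtain ⟨⟨⟨hP1', hP2', hP3'⟩, hPe'⟩, hPs'⟩ := hz2'
      obtain ⟨hMmon, hMm, hMQ⟩ := mp_deg a i j Q z.1 hQ hmA.1
      obtain ⟨hMmon', hMm', hMQ'⟩ := mp_deg a i j Q z'.1 hQ hmA'.1
      have h := mp_inj a hR i j Q z.1 z.2 z'.1 z'.2 hQ hmA hmA' hP1 hP2 hP1' hP2'
        (by omega) (by omega) (by omega) (by omega) he
      obtain ⟨z1, z2⟩ := z
      obtain ⟨z1', z2'⟩ := z'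
      obtain ⟨ha, hb⟩ := h
      dsimp only at ha hb
      subst ha
      subst hb
      rfl
  rw [Finset.card_sigma] at hinj
  rw [Finset.mul_sum]
  calc ∑ m ∈ SqP (AdmP a i j Q) x,
        (c2 / (2 * qq F ^ Q.natDegree)) * (qq F ^ n / n) * (1 / qq F ^ m.natDegree)
      ≤ ∑ m ∈ SqP (AdmP a i j Q) x, ((T m).card : ℝ) := Finset.sum_le_sum hTm
    _ = ((∑ m ∈ SqP (AdmP a i j Q) x, (T m).card : ℕ) : ℝ) := by push_cast; rfl
    _ ≤ _ := by exact_mod_cast hinj

private theorem fc10_sq_le (y : ℕ) (hy : 4 ≤ y) : y * y ≤ 2 ^ y := by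
  induction y, hy using Nat.le_induction with
  | base => norm_num
  | succ y hy ih =>
    rw [pow_succ]
    nlinarith

open Classical in
theorem count_InD (h2 : ringChar F ≠ 2) {ι : Type} [Fintype ι] [DecidableEq ι] (a : ι → F[X]) (hR : Rb a ≠ 0)
    (ε : F) (hε : ¬ IsSquare ε) (i j : ι) (hi : ¬ IsSquare (a i)) (hj : ¬ IsSquare (a j))
    (hij : ¬ IsSquare (a i * a j)) :
    ∃ c : ℝ, 0 < c ∧ ∀ n : ℕ, 1 ≤ n → c * qq F ^ n / (n : ℝ) ^ (1 / 4 : ℝ) ≤
      (((range (n + 1)).biUnion fun k => (mon F k).filter (InD a ε i j)).card : ℝ) := by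
  have hq2 := two_le_qq F
  have hq0 : 0 < qq F := by linarith
  have hq1 : 1 ≤ qq F := by linarith
  have hne : a i ≠ a j := by
    intro h
    exact hij (h ▸ ⟨a i, rfl⟩)
  -- (1)
  obtain ⟨Q, hQm, hQi, hQR, hQv⟩ := exists_class h2 {a i, a j}
    (fc10_subsets _ _ hi hj hij _ (fun e => by simp))
    (fun e => if e = a i then 1 else -1)
    (fun e _ => by
      by_cases h : e = a i
      · left; simp [h]
      · right; simp [h]) (Rb a).natDegree
  have hQ : AdmQ a i j Q := by
    refine ⟨hQm, hQi, hQR, ?_, ?_⟩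
    · have := hQv (a i) (by simp)
      simpa using this
    · have := hQv (a j) (by simp)
      rw [if_neg (fun h => hne h.symm)] at this
      exact this
  -- (2)
  obtain ⟨C, hC⟩ := mert_two h2 (a i) (a j) hi hj hij (insert Q (pfac (Rb a)))
  obtain ⟨c1, hc1, h1⟩ := sum_sqfree_lower (AdmP a i j Q) (3 / 4) C (by norm_num)
    (fun x => by
      refine le_trans (hC x) (le_of_eq ?_)
      refine Finset.sum_congr ?_ (fun _ _ => rfl)
      ext P
      simp only [Finset.mem_filter, AdmP, Finset.mem_insert])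
  -- (3)
  obtain ⟨c2, x2, hc2, hx2, h3⟩ := count_class_unif h2 (EE a ε) (EE_indep a hR ε hε)
  -- thresholds
  obtain ⟨K, hK⟩ := exists_nat_ge (28 * qq F ^ Q.natDegree / c2)
  set dQ := Q.natDegree with hdQ
  set n0 : ℕ := 4 * (dQ + x2 + K + 4) + 4 with hn0
  set c3 : ℝ := c2 / (2 * qq F ^ dQ) * c1 * (1 / 8 : ℝ) ^ (3 / 4 : ℝ) with hc3
  have hc3pos : 0 < c3 := by
    rw [hc3]
    positivity
  refine ⟨min c3 (1 / qq F ^ n0), lt_min hc3pos (by positivity), ?_⟩
  intro n hn
  have hnr : (0 : ℝ) < n := by exact_mod_cast (by omega : 0 < n)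
  have hn1 : (1 : ℝ) ≤ n := by exact_mod_cast hn
  have hn4 : 0 < (n : ℝ) ^ (1 / 4 : ℝ) := Real.rpow_pos_of_pos hnr _
  rcases Nat.lt_or_ge n n0 with hlt | hge
  · -- (7)
    have hcard : (1 : ℝ) ≤
        (((range (n + 1)).biUnion fun k => (mon F k).filter (InD a ε i j)).card : ℝ) := by
      have : 0 < ((range (n + 1)).biUnion fun k => (mon F k).filter (InD a ε i j)).card := by
        apply Finset.card_pos.mpr
        refine ⟨1, ?_⟩
        rw [Finset.mem_biUnion]
        refine ⟨0, Finset.mem_range.mpr (by omega), ?_⟩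
        rw [Finset.mem_filter, mem_mon]
        exact ⟨⟨monic_one, natDegree_one⟩, fc10_one a ε i j⟩
      exact_mod_cast this
    refine le_trans ?_ hcard
    rw [div_le_one hn4]
    calc min c3 (1 / qq F ^ n0) * qq F ^ n
        ≤ (1 / qq F ^ n0) * qq F ^ n :=
          mul_le_mul_of_nonneg_right (min_le_right _ _) (by positivity)
      _ ≤ (1 / qq F ^ n0) * qq F ^ n0 :=
          mul_le_mul_of_nonneg_left (pow_le_pow_right₀ hq1 hlt.le) (by positivity)
      _ = 1 := by field_simp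
      _ ≤ (n : ℝ) ^ (1 / 4 : ℝ) := Real.one_le_rpow hn1 (by norm_num)
  · -- (4)-(6)
    set x : ℕ := n / 4 with hx
    set s : ℕ := n / 2 with hs
    have hxs : x + dQ ≤ s := by omega
    have hxn : x + dQ + x2 ≤ n := by omega
    have hx4 : 4 ≤ x := by omega
    have hxK : K ≤ x := by omega
    have hnx : n ≤ 7 * x := by omega
    have hsum4 : s + (x + x) ≤ n := by omega
    have hbig : 4 * (n : ℝ) * qq F ^ s * qq F ^ (x + dQ) ≤ c2 * qq F ^ n := by
      have e1 : 28 * qq F ^ dQ ≤ c2 * x := by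
        have e2 : 28 * qq F ^ dQ / c2 ≤ x := le_trans hK (by exact_mod_cast hxK)
        rw [div_le_iff₀ hc2] at e2
        linarith
      have e3 : (x : ℝ) * x ≤ qq F ^ x := by
        have e4 : (x : ℝ) * x ≤ 2 ^ x := by exact_mod_cast fc10_sq_le x hx4
        exact le_trans e4 (pow_le_pow_left₀ (by norm_num) hq2 x)
      have e5 : (n : ℝ) ≤ 7 * x := by exact_mod_cast hnx
      have hxr : (0 : ℝ) < x := by exact_mod_cast (by omega : 0 < x)
      have e6 : 4 * (n : ℝ) * qq F ^ dQ ≤ c2 * qq F ^ x := by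
        calc 4 * (n : ℝ) * qq F ^ dQ ≤ 4 * (7 * x) * qq F ^ dQ := by
              apply mul_le_mul_of_nonneg_right _ (by positivity)
              linarith
          _ = x * (28 * qq F ^ dQ) := by ring
          _ ≤ x * (c2 * x) := mul_le_mul_of_nonneg_left e1 hxr.le
          _ = c2 * (x * x) := by ring
          _ ≤ c2 * qq F ^ x := mul_le_mul_of_nonneg_left e3 hc2.le
      calc 4 * (n : ℝ) * qq F ^ s * qq F ^ (x + dQ)
          = (4 * (n : ℝ) * qq F ^ dQ) * (qq F ^ s * qq F ^ x) := by rw [pow_add]; ring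
        _ ≤ (c2 * qq F ^ x) * (qq F ^ s * qq F ^ x) :=
            mul_le_mul_of_nonneg_right e6 (by positivity)
        _ = c2 * qq F ^ (s + (x + x)) := by rw [pow_add, pow_add]; ring
        _ ≤ c2 * qq F ^ n :=
            mul_le_mul_of_nonneg_left (pow_le_pow_right₀ hq1 hsum4) hc2.le
    have hmain := fc10_large a hR ε hε i j Q hQ c2 x2 hc2 h3 n x s hx2 hxs hxn hbig
    refine le_trans ?_ hmain
    have hxr : (0 : ℝ) < x := by exact_mod_cast (by omega : 0 < x)
    have hx8 : 1 / 8 * (n : ℝ) ≤ x := by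
      have e5 : (n : ℝ) ≤ 7 * x := by exact_mod_cast hnx
      linarith
    have hpow : (1 / 8 : ℝ) ^ (3 / 4 : ℝ) * (n : ℝ) ^ (3 / 4 : ℝ) ≤ (x : ℝ) ^ (3 / 4 : ℝ) := by
      rw [← Real.mul_rpow (by norm_num) hnr.le]
      exact Real.rpow_le_rpow (by positivity) hx8 (by norm_num)
    have hsplit : (n : ℝ) = (n : ℝ) ^ (3 / 4 : ℝ) * (n : ℝ) ^ (1 / 4 : ℝ) := by
      rw [← Real.rpow_add hnr]
      norm_num
    have hsum := h1 x (by omega)
    have hl34 : 0 < (n : ℝ) ^ (3 / 4 : ℝ) := Real.rpow_pos_of_pos hnr _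
    calc min c3 (1 / qq F ^ n0) * qq F ^ n / (n : ℝ) ^ (1 / 4 : ℝ)
        ≤ c3 * qq F ^ n / (n : ℝ) ^ (1 / 4 : ℝ) := by
          apply div_le_div_of_nonneg_right _ hn4.le
          exact mul_le_mul_of_nonneg_right (min_le_left _ _) (by positivity)
      _ = (c2 / (2 * qq F ^ dQ)) * (qq F ^ n / n) *
            (c1 * ((1 / 8 : ℝ) ^ (3 / 4 : ℝ) * (n : ℝ) ^ (3 / 4 : ℝ))) := by
          have e1 : qq F ^ n / (n : ℝ) * (n : ℝ) ^ (3 / 4 : ℝ) =
              qq F ^ n / (n : ℝ) ^ (1 / 4 : ℝ) := by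
            rw [div_mul_eq_mul_div, div_eq_div_iff hnr.ne' hn4.ne', mul_assoc, ← hsplit]
          rw [hc3]
          calc c2 / (2 * qq F ^ dQ) * c1 * (1 / 8 : ℝ) ^ (3 / 4 : ℝ) * qq F ^ n /
                (n : ℝ) ^ (1 / 4 : ℝ)
              = c2 / (2 * qq F ^ dQ) * c1 * (1 / 8 : ℝ) ^ (3 / 4 : ℝ) *
                  (qq F ^ n / (n : ℝ) ^ (1 / 4 : ℝ)) := by ring
            _ = c2 / (2 * qq F ^ dQ) * c1 * (1 / 8 : ℝ) ^ (3 / 4 : ℝ) *
                  (qq F ^ n / (n : ℝ) * (n : ℝ) ^ (3 / 4 : ℝ)) := by rw [e1]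
            _ = _ := by ring
      _ ≤ (c2 / (2 * qq F ^ dQ)) * (qq F ^ n / n) * (c1 * (x : ℝ) ^ (3 / 4 : ℝ)) := by
          apply mul_le_mul_of_nonneg_left _ (by positivity)
          exact mul_le_mul_of_nonneg_left hpow hc1.le
      _ ≤ (c2 / (2 * qq F ^ dQ)) * (qq F ^ n / n) *
            ∑ m ∈ SqP (AdmP a i j Q) x, 1 / qq F ^ m.natDegree := by
          apply mul_le_mul_of_nonneg_left hsum (by positivity)

end FZ
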