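import Pool.Agent.Lib.MP_1ad228_nt.FF.FC1

/-! JOB FC2.  Consequences: `∑_{f ∈ mon m} lam f = q^m`, and `L > 0` for the character `χ = jac b` when the monic part of `b` is not a square.

Notation `q = qq F` (`Fintype.card F` as a real number, `q ≥ 2`), for `χ : F[X] → ℝ` write `A m = ∑_{f ∈ mon m} χ f`.
* `lam_conv`: for `χ` multiplicative on monic polynomials: `m A m = ∑_{f ∈ mon m} χ f deg f = ∑_f ∑_{d ∈ mdiv f} χ d lam d χ (f /ₘ d) = ∑_{i+j=m} (∑_{mon i} χ lam) A j`: `sum_lam`, `f = d * (f /ₘ d)` for `d ∣ f`, `sum_mdiv` with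
  `H d e = χ d * lam d * χ e`.
* `lam_total`: in `lam_conv` with `χ = 1`, divide by `q^m` (`A j = q^j`, `card_mon`): `m = ∑_{i ≤ m} l i`, `l i = (∑_{mon i} lam)/q^i`, `l 0 = lam 1 = 0` (`pfac_one`).  So `l m = 1` for `m ≥ 1` (the difference for `m` and `m-1`; induction).
* `L_pos`: let `b ≠ 0`, `b = C c * b'`, `b'` monic of degree `d` and not a square, `χ = jac b`.  `jac b f = χ(c)^m χ(-1)^(m d) jac f b'` for `f ∈ mon m` (`jac_mul_left`, `jac_C`, `jac_recip`), so by `sum_jac`: `A m = 0` for `m ≥ d`.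
  Let `R m = ∑_{f ∈ mon m} ∑_{t ∈ mdiv f} χ t = ∑_{i+j=m} A i q^j = q^m ∑_{i ≤ m} A i/q^i` (`sum_mdiv` with `H d e = χ d`), which is `q^m L` for `m ≥ d`, `L = ∑_{i<d} A i/q^i`.  For `m = 2d` (`≥ d`): all terms are `≥ 0` (`conv_nonneg`),
  the term `f = X^(2d)` is `≥ 1` (`conv_sq`), so `q^(2d) L ≥ 1 > 0`.  (`jac b 1 = 1`: `jac_one_right`; `jac_mul_right`, `jac_cases`.) -/

namespace FZ

open Finset Polynomial

variable {F : Type} [Field F] [Fintype F]

theorem lam_conv (χ : F[X] → ℝ) (hmul : ∀ f g, f.Monic → g.Monic → χ (f * g) = χ f * χ g) (m : ℕ) :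
    (m : ℝ) * ∑ f ∈ mon F m, χ f =
      ∑ ij ∈ antidiagonal m, (∑ d ∈ mon F ij.1, χ d * lam d) * ∑ e ∈ mon F ij.2, χ e := by
  have h := sum_mdiv (fun d e => χ d * lam d * χ e) m
  have h1 : ∑ ij ∈ antidiagonal m, (∑ d ∈ mon F ij.1, χ d * lam d) * ∑ e ∈ mon F ij.2, χ e =
      ∑ ij ∈ antidiagonal m, ∑ d ∈ mon F ij.1, ∑ e ∈ mon F ij.2, χ d * lam d * χ e := by
    refine sum_congr rfl fun ij _ => ?_
    rw [sum_mul_sum]
  rw [h1, ← h, mul_sum]
  refine sum_congr rfl fun f hf => ?_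
  obtain ⟨hm, hdeg⟩ := (mem_mon F).1 hf
  have h2 : ∀ d ∈ mdiv f, χ d * lam d * χ (f /ₘ d) = χ f * lam d := by
    intro d hd
    obtain ⟨hd1, hd2⟩ := (mem_mdiv hm.ne_zero).1 hd
    obtain ⟨e, rfl⟩ := hd2
    have he : e.Monic := hd1.of_mul_monic_left hm
    rw [mul_divByMonic_cancel_left e hd1, hmul d e hd1 he]
    ring
  rw [sum_congr rfl h2, ← mul_sum, sum_lam hm, hdeg]
  ring

private theorem FC2_lam_zero : ∑ f ∈ mon F 0, lam f = 0 := by
  rw [mon_zero, sum_singleton]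
  unfold lam
  rw [pfac_one]
  simp

private theorem FC2_sum_one (m : ℕ) : ∑ _e ∈ mon F m, (1 : ℝ) = qq F ^ m := by
  rw [sum_const, card_mon, nsmul_eq_mul, mul_one]
  unfold qq
  push_cast
  rfl

theorem lam_total (m : ℕ) (hm : 1 ≤ m) : ∑ f ∈ mon F m, lam f = qq F ^ m := by
  induction m using Nat.strong_induction_on with
  | _ m ih =>
    obtain ⟨n, rfl⟩ : ∃ n, m = n + 1 := ⟨m - 1, by omega⟩
    have h := lam_conv (F := F) (fun _ => (1 : ℝ)) (fun _ _ _ _ => by norm_num) (n + 1)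
    simp only [one_mul] at h
    rw [FC2_sum_one, Finset.Nat.sum_antidiagonal_eq_sum_range_succ_mk, sum_range_succ,
      sum_range_succ'] at h
    simp only [FC2_sum_one] at h
    rw [FC2_lam_zero, zero_mul, add_zero, Nat.sub_self, pow_zero, mul_one] at h
    have h1 : ∑ k ∈ range n, (∑ d ∈ mon F (k + 1), lam d) * qq F ^ (n + 1 - (k + 1)) =
        ∑ k ∈ range n, qq F ^ (n + 1) := by
      refine sum_congr rfl fun k hk => ?_
      rw [mem_range] at hk
      rw [ih (k + 1) (by omega) (by omega), ← pow_add]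
      congr 1
      omega
    rw [h1, sum_const, card_range, nsmul_eq_mul] at h
    push_cast at h
    linarith

theorem L_pos [DecidableEq F] (h2 : ringChar F ≠ 2) (c : F) (hc : c ≠ 0) (b : F[X]) (hb : b.Monic)
    (hsq : ¬ IsSquare b) :
    (∀ m, b.natDegree ≤ m → ∑ f ∈ mon F m, (jac (C c * b) f : ℝ) = 0) ∧
    0 < ∑ i ∈ range b.natDegree, (∑ f ∈ mon F i, (jac (C c * b) f : ℝ)) / qq F ^ i := by
  have h0 : ∀ m, b.natDegree ≤ m → ∑ f ∈ mon F m, (jac (C c * b) f : ℝ) = 0 := by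
    intro m hm
    have h3 : ∀ f ∈ mon F m, (jac (C c * b) f : ℝ) =
        (((quadraticChar F c) ^ m * (quadraticChar F (-1)) ^ (b.natDegree * m) : ℤ) : ℝ) *
          (jac f b : ℝ) := by
      intro f hf
      obtain ⟨hfm, hdeg⟩ := (mem_mon F).1 hf
      rw [jac_mul_left hfm, jac_C hfm, jac_recip hb hfm, hdeg]
      push_cast
      ring
    rw [sum_congr rfl h3, ← mul_sum, sum_jac h2 hb hsq m hm, mul_zero]
  refine ⟨h0, ?_⟩
  set d := b.natDegree with hd
  have hq : 0 < qq F := lt_of_lt_of_le two_pos (two_le_qq F)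
  have h4 := sum_mdiv (F := F) (fun t _ => (jac (C c * b) t : ℝ)) (2 * d)
  have h5 : ∑ ij ∈ antidiagonal (2 * d), ∑ t ∈ mon F ij.1, ∑ e ∈ mon F ij.2,
      (jac (C c * b) t : ℝ) = qq F ^ (2 * d) *
        ∑ i ∈ range d, (∑ f ∈ mon F i, (jac (C c * b) f : ℝ)) / qq F ^ i := by
    rw [Finset.Nat.sum_antidiagonal_eq_sum_range_succ_mk]
    have h6 : ∀ k ∈ range (2 * d).succ, ∑ t ∈ mon F k, ∑ _e ∈ mon F (2 * d - k),
        (jac (C c * b) t : ℝ) =
        qq F ^ (2 * d) * ((∑ f ∈ mon F k, (jac (C c * b) f : ℝ)) / qq F ^ k) := by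
      intro k hk
      rw [mem_range] at hk
      have h7 : ∀ t ∈ mon F k, ∑ _e ∈ mon F (2 * d - k), (jac (C c * b) t : ℝ) =
          (jac (C c * b) t : ℝ) * qq F ^ (2 * d - k) := by
        intro t _
        rw [← FC2_sum_one, mul_sum]
        simp
      rw [sum_congr rfl h7, ← sum_mul]
      have h8 : qq F ^ (2 * d) = qq F ^ (2 * d - k) * qq F ^ k := by
        rw [← pow_add]
        congr 1
        omega
      rw [h8]
      field_simp
    show ∑ k ∈ range (2 * d).succ, ∑ t ∈ mon F k, ∑ _e ∈ mon F (2 * d - k),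
        (jac (C c * b) t : ℝ) = _
    rw [sum_congr rfl h6, ← mul_sum]
    congr 1
    symm
    apply sum_subset
    · intro k hk
      rw [mem_range] at hk ⊢
      omega
    · intro k _ hk
      rw [mem_range, not_lt] at hk
      rw [h0 k hk, zero_div]
  have h9 : (1 : ℝ) ≤ ∑ f ∈ mon F (2 * d), ∑ t ∈ mdiv f, (jac (C c * b) t : ℝ) := by
    have hX : (X ^ (2 * d) : F[X]) ∈ mon F (2 * d) :=
      (mem_mon F).2 ⟨monic_X_pow _, natDegree_X_pow _⟩
    have h10 : (1 : ℝ) ≤ ∑ t ∈ mdiv (X ^ (2 * d) : F[X]), (jac (C c * b) t : ℝ) := by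
      have := conv_sq (F := F) (jac (C c * b)) (jac_one_right _)
        (fun f g hf hg => jac_mul_right hf hg _) (jac_cases _) d
      exact_mod_cast this
    refine h10.trans (single_le_sum (f := fun f => ∑ t ∈ mdiv f, (jac (C c * b) t : ℝ))
      (fun f hf => ?_) hX)
    have := conv_nonneg (F := F) (jac (C c * b)) (jac_one_right _)
      (fun f g hf hg => jac_mul_right hf hg _) (jac_cases _) ((mem_mon F).1 hf).1
    show (0 : ℝ) ≤ ∑ t ∈ mdiv f, (jac (C c * b) t : ℝ)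
    exact_mod_cast this
  rw [h4, h5] at h9
  by_contra hneg
  rw [not_lt] at hneg
  have h11 := mul_nonpos_of_nonneg_of_nonpos (pow_pos hq (2 * d)).le hneg
  linarith

end FZ
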