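import Pool.Agent.Lib.MP_1ad228_nt.FF.FC2

/-! JOB FC3.  Mertens' theorem for the character `χ = jac b`, `b` not a square: the sums `S M = ∑_{i ≤ M} l i`, `l i = (∑_{f ∈ mon i} χ f lam f)/q^i`, are bounded (`q = qq F`).

`b ≠ 0` (`0` is a square), `b = C c * b'`, `c = leadingCoeff b ≠ 0`, `b'` monic, `d = deg b'`.
(1) `b'` not a square.  `a j = (∑_{mon j} χ)/q^j`, `|a j| ≤ 1` (`card_mon`, `jac_abs_le`), `a j = 0` for `j ≥ d`, `L = ∑_{j<d} a j > 0` (`L_pos`).  `|l i| ≤ (∑_{mon i} lam)/q^i ≤ 1` (`lam_total`; `l 0 = 0`; `lam ≥ 0`).  `lam_conv` divided by `q^m`: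
`m a m = ∑_{i+j=m} l i a j`.  Sum over `m ≤ M`: `∑_{m ≤ M} m a m = ∑_{j ≤ M} a j S (M - j)` (and `a j = 0` for `j ≥ d`), so (for `M ≥ d`) `S M * L = ∑_{m<d} m a m + ∑_{j<d} a j (S M - S (M-j))`, and `|S M - S (M - j)| ≤ j`.  So
`|S M| ≤ 2 d²/L`.  For `M < d`: `|S M| ≤ d`.
(2) `b' = g²` (`g` can be taken monic): `c` is not a square (else `b` is one), `χ f = (-1)^i` for `f ∈ mon i` coprime to `g`, and `0` otherwise (`jac_mul_left`, `jac_C`, `quadraticChar_neg_one_iff_not_isSquare`, `jac (g*g) f = (jac g f)^2`,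
`jac_ne_zero_iff`, `jac_cases`).  So `l i = (-1)^i (1 - t i)` for `i ≥ 1`, `t i = (∑_{f ∈ mon i, not coprime to g} lam f)/q^i`; an `f` with `lam f ≠ 0` is a power of a prime `P`, `f = P^k`, `i = k deg P`, and if it is not coprime to `g` then `P ∣ g`:
so `0 ≤ t i ≤ (∑_{P ∈ pfac g} deg P)/q^i ≤ deg g/2^i` (for every `P` there is at most one `k`).  Therefore `|S M| ≤ 1 + deg g`. -/

namespace FZ

open Finset Polynomial

variable {F : Type} [Field F] [Fintype F] [DecidableEq F]

omit [Fintype F] [DecidableEq F] in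
private theorem FC3_lam_nonneg (f : F[X]) : 0 ≤ lam f := by
  unfold lam
  split_ifs
  · exact Finset.sum_nonneg fun _ _ => Nat.cast_nonneg _
  · exact le_refl _

omit [Fintype F] [DecidableEq F] in
private theorem FC3_lam_one : lam (1 : F[X]) = 0 := by
  unfold lam
  rw [pfac_one]
  simp

private theorem FC3_l_le (b : F[X]) (i : ℕ) :
    |(∑ f ∈ mon F i, (jac b f : ℝ) * lam f) / qq F ^ i| ≤ 1 := by
  have hq : (0 : ℝ) < qq F := by linarith [two_le_qq F]
  rw [abs_div, abs_of_pos (pow_pos hq i), div_le_one (pow_pos hq i)]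
  refine (Finset.abs_sum_le_sum_abs _ _).trans ?_
  have h1 : ∑ f ∈ mon F i, |(jac b f : ℝ) * lam f| ≤ ∑ f ∈ mon F i, lam f := by
    refine Finset.sum_le_sum fun f _ => ?_
    rw [abs_mul, abs_of_nonneg (FC3_lam_nonneg f)]
    exact mul_le_of_le_one_left (FC3_lam_nonneg f) (jac_abs_le b f)
  refine h1.trans ?_
  rcases Nat.eq_zero_or_pos i with rfl | hi
  · rw [mon_zero, Finset.sum_singleton, FC3_lam_one]
    positivity
  · rw [lam_total i hi]

private theorem FC3_a_le (b : F[X]) (i : ℕ) :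
    |(∑ f ∈ mon F i, (jac b f : ℝ)) / qq F ^ i| ≤ 1 := by
  have hq : (0 : ℝ) < qq F := by linarith [two_le_qq F]
  rw [abs_div, abs_of_pos (pow_pos hq i), div_le_one (pow_pos hq i)]
  refine (Finset.abs_sum_le_sum_abs _ _).trans ?_
  refine (Finset.sum_le_sum fun f _ => jac_abs_le b f).trans ?_
  rw [Finset.sum_const, card_mon, nsmul_eq_mul, mul_one]
  unfold qq
  push_cast
  exact le_refl _

/-- differences of partial sums of terms bounded by one -/
private theorem FC3_diff (l : ℕ → ℝ) (hl : ∀ i, |l i| ≤ 1) (N j : ℕ) :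
    |∑ i ∈ range N, l i - ∑ i ∈ range (N - j), l i| ≤ j := by
  have h1 : ∑ i ∈ range N, l i - ∑ i ∈ range (N - j), l i = ∑ i ∈ Ico (N - j) N, l i := by
    rw [Finset.sum_Ico_eq_sub _ (Nat.sub_le N j)]
  rw [h1]
  refine (Finset.abs_sum_le_sum_abs _ _).trans ?_
  refine (Finset.sum_le_sum fun i _ => hl i).trans ?_
  rw [Finset.sum_const, Nat.card_Ico, nsmul_eq_mul, mul_one]
  exact_mod_cast (by omega : N - (N - j) ≤ j)

/-- the case of a monic part which is not a square -/
private theorem FC3_case1 (h2 : ringChar F ≠ 2) (c : F) (hc : c ≠ 0) (b : F[X]) (hb : b.Monic)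
    (hsq : ¬ IsSquare b) :
    ∃ C' : ℝ, ∀ N : ℕ,
      |∑ i ∈ range N, (∑ f ∈ mon F i, (jac (C c * b) f : ℝ) * lam f) / qq F ^ i| ≤ C' := by
  have hq : (0 : ℝ) < qq F := by linarith [two_le_qq F]
  obtain ⟨h0, hL⟩ := L_pos h2 c hc b hb hsq
  set d := b.natDegree with hd
  set a : ℕ → ℝ := fun j => (∑ f ∈ mon F j, (jac (C c * b) f : ℝ)) / qq F ^ j with ha
  set l : ℕ → ℝ := fun i => (∑ f ∈ mon F i, (jac (C c * b) f : ℝ) * lam f) / qq F ^ i with hl
  set L : ℝ := ∑ i ∈ range d, a i with hLd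
  have hL' : 0 < L := hL
  have ha1 : ∀ j, |a j| ≤ 1 := fun j => FC3_a_le _ j
  have hl1 : ∀ j, |l j| ≤ 1 := fun j => FC3_l_le _ j
  have ha0 : ∀ j, d ≤ j → a j = 0 := by
    intro j hj
    show (∑ f ∈ mon F j, (jac (C c * b) f : ℝ)) / qq F ^ j = 0
    rw [h0 j hj, zero_div]
  have hconv : ∀ m : ℕ, (m : ℝ) * a m = ∑ k ∈ range (m + 1), a k * l (m - k) := by
    intro m
    have h1 := lam_conv (F := F) (fun f => (jac (C c * b) f : ℝ)) (by
      intro f g hf hg
      show ((jac (C c * b) (f * g) : ℤ) : ℝ) = (jac (C c * b) f : ℝ) * (jac (C c * b) g : ℝ)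
      rw [jac_mul_right hf hg]
      push_cast
      rfl) m
    have h3 : ∑ ij ∈ antidiagonal m, l ij.1 * a ij.2 = ∑ k ∈ range (m + 1), a k * l (m - k) := by
      rw [← Finset.Nat.sum_antidiagonal_eq_sum_range_succ (fun i j => a i * l j),
        ← Finset.Nat.sum_antidiagonal_swap]
      refine Finset.sum_congr rfl fun ij _ => ?_
      simp only [Prod.fst_swap, Prod.snd_swap]
      ring
    rw [← h3]
    show (m : ℝ) * ((∑ f ∈ mon F m, (jac (C c * b) f : ℝ)) / qq F ^ m) = _
    rw [← mul_div_assoc, h1, Finset.sum_div]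
    refine Finset.sum_congr rfl fun ij hij => ?_
    have h4 : ij.1 + ij.2 = m := Finset.HasAntidiagonal.mem_antidiagonal.1 hij
    show _ = ((∑ f ∈ mon F ij.1, (jac (C c * b) f : ℝ) * lam f) / qq F ^ ij.1) *
      ((∑ f ∈ mon F ij.2, (jac (C c * b) f : ℝ)) / qq F ^ ij.2)
    rw [div_mul_div_comm, ← pow_add, h4]
  have hsum : ∀ N : ℕ, ∑ m ∈ range N, (m : ℝ) * a m =
      ∑ j ∈ range N, a j * ∑ i ∈ range (N - j), l i := by
    intro N
    rw [Finset.sum_congr rfl fun m _ => hconv m, Finset.sum_range_diag_flip N (fun k j => a k * l j)]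
    refine Finset.sum_congr rfl fun j _ => ?_
    rw [Finset.mul_sum]
  refine ⟨2 * (d : ℝ) * d / L + d, fun N => ?_⟩
  show |∑ i ∈ range N, l i| ≤ _
  rcases Nat.lt_or_ge N d with hN | hN
  · have h3 := FC3_diff l hl1 N N
    rw [Nat.sub_self, Finset.range_zero, Finset.sum_empty, sub_zero] at h3
    have h4 : (N : ℝ) ≤ d := by exact_mod_cast hN.le
    have h5 : (0 : ℝ) ≤ 2 * (d : ℝ) * d / L := by positivity
    linarith
  · have hsub : range d ⊆ range N := Finset.range_subset_range.2 hN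
    have h3 : ∑ m ∈ range N, (m : ℝ) * a m = ∑ m ∈ range d, (m : ℝ) * a m := by
      symm
      refine Finset.sum_subset hsub fun m _ hm => ?_
      rw [ha0 m (by simpa using hm), mul_zero]
    have h4 : ∑ j ∈ range N, a j * ∑ i ∈ range (N - j), l i =
        ∑ j ∈ range d, a j * ∑ i ∈ range (N - j), l i := by
      symm
      refine Finset.sum_subset hsub fun m _ hm => ?_
      rw [ha0 m (by simpa using hm), zero_mul]
    have h5 : L * ∑ i ∈ range N, l i = ∑ m ∈ range d, (m : ℝ) * a m +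
        ∑ j ∈ range d, a j * (∑ i ∈ range N, l i - ∑ i ∈ range (N - j), l i) := by
      have h6 : ∑ j ∈ range d, a j * (∑ i ∈ range N, l i - ∑ i ∈ range (N - j), l i) =
          (∑ j ∈ range d, a j * ∑ i ∈ range N, l i) -
            ∑ j ∈ range d, a j * ∑ i ∈ range (N - j), l i := by
        rw [← Finset.sum_sub_distrib]
        refine Finset.sum_congr rfl fun j _ => ?_
        ring
      rw [h6, ← h4, ← hsum N, h3, hLd, Finset.sum_mul]
      ring
    have h6 : |∑ m ∈ range d, (m : ℝ) * a m| ≤ (d : ℝ) * d := by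
      refine (Finset.abs_sum_le_sum_abs _ _).trans ?_
      have : ∀ m ∈ range d, |(m : ℝ) * a m| ≤ (d : ℝ) := by
        intro m hm
        rw [abs_mul, abs_of_nonneg (Nat.cast_nonneg m)]
        have h7 : (m : ℝ) ≤ d := by exact_mod_cast (Finset.mem_range.1 hm).le
        calc (m : ℝ) * |a m| ≤ m * 1 := mul_le_mul_of_nonneg_left (ha1 m) (Nat.cast_nonneg m)
          _ ≤ d := by linarith
      refine (Finset.sum_le_sum this).trans ?_
      rw [Finset.sum_const, Finset.card_range, nsmul_eq_mul]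
    have h7 : |∑ j ∈ range d, a j * (∑ i ∈ range N, l i - ∑ i ∈ range (N - j), l i)| ≤
        (d : ℝ) * d := by
      refine (Finset.abs_sum_le_sum_abs _ _).trans ?_
      have : ∀ j ∈ range d, |a j * (∑ i ∈ range N, l i - ∑ i ∈ range (N - j), l i)| ≤ (d : ℝ) := by
        intro j hj
        rw [abs_mul]
        have h8 : (j : ℝ) ≤ d := by exact_mod_cast (Finset.mem_range.1 hj).le
        calc |a j| * |∑ i ∈ range N, l i - ∑ i ∈ range (N - j), l i| ≤ 1 * j :=
              mul_le_mul (ha1 j) (FC3_diff l hl1 N j) (abs_nonneg _) zero_le_one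
          _ ≤ d := by linarith
      refine (Finset.sum_le_sum this).trans ?_
      rw [Finset.sum_const, Finset.card_range, nsmul_eq_mul]
    have h8 : |L * ∑ i ∈ range N, l i| ≤ 2 * (d : ℝ) * d := by
      rw [h5]
      refine (abs_add_le _ _).trans ?_
      linarith
    rw [abs_mul, abs_of_pos hL'] at h8
    have h9 : |∑ i ∈ range N, l i| ≤ 2 * (d : ℝ) * d / L := by
      rw [le_div_iff₀ hL']
      linarith
    have h10 : (0 : ℝ) ≤ d := Nat.cast_nonneg d
    linarith

omit [Fintype F] [DecidableEq F] in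
/-- a monic polynomial with exactly one prime factor is a power of it -/
private theorem FC3_pow {f P : F[X]} (hf : f.Monic) (h : pfac f = {P}) : ∃ k : ℕ, f = P ^ k := by
  classical
  have h1 : ∀ Q ∈ UniqueFactorizationMonoid.normalizedFactors f, Q = P := by
    intro Q hQ
    have : Q ∈ pfac f := by
      unfold pfac
      rw [Multiset.mem_toFinset]
      exact hQ
    rw [h] at this
    exact Finset.mem_singleton.1 this
  have h2 : UniqueFactorizationMonoid.normalizedFactors f =
      Multiset.replicate (Multiset.card (UniqueFactorizationMonoid.normalizedFactors f)) P :=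
    Multiset.eq_replicate_of_mem h1
  refine ⟨Multiset.card (UniqueFactorizationMonoid.normalizedFactors f), ?_⟩
  have h3 := UniqueFactorizationMonoid.prod_normalizedFactors hf.ne_zero
  rw [h2, Multiset.prod_replicate] at h3
  have hP : P.Monic := monic_of_mem_pfac (f := f) (by rw [h]; exact Finset.mem_singleton_self P)
  exact (Polynomial.eq_of_monic_of_associated (hP.pow _) hf h3).symm

omit [Fintype F] [DecidableEq F] in
/-- the terms not coprime to `g` -/
private theorem FC3_t (g : F[X]) (hg : g ≠ 0) (i : ℕ) (T : Finset F[X])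
    (hT : ∀ f ∈ T, f.Monic ∧ f.natDegree = i ∧ ¬ IsCoprime g f) :
    ∑ f ∈ T, lam f ≤ ∑ P ∈ pfac g, (P.natDegree : ℝ) := by
  classical
  -- choose the prime of `f`
  have h1 : ∀ f ∈ T.filter (fun f => (pfac f).card = 1), ∃ P, pfac f = {P} := by
    intro f hf
    exact Finset.card_eq_one.1 (Finset.mem_filter.1 hf).2
  have h2 : ∑ f ∈ T, lam f = ∑ f ∈ T.filter (fun f => (pfac f).card = 1), lam f := by
    symm
    refine Finset.sum_subset (Finset.filter_subset _ _) fun f hf hf2 => ?_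
    unfold lam
    rw [if_neg]
    intro h
    exact hf2 (Finset.mem_filter.2 ⟨hf, h⟩)
  rw [h2]
  choose! p hp using h1
  have h3 : ∀ f ∈ T.filter (fun f => (pfac f).card = 1), lam f = ((p f).natDegree : ℝ) := by
    intro f hf
    unfold lam
    rw [if_pos (Finset.mem_filter.1 hf).2, hp f hf, Finset.sum_singleton]
  rw [Finset.sum_congr rfl h3]
  have hinj : Set.InjOn p (T.filter (fun f => (pfac f).card = 1) : Finset F[X]) := by
    intro f hf f' hf' he
    have hf1 : f ∈ T.filter (fun f => (pfac f).card = 1) := hf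
    have hf1' : f' ∈ T.filter (fun f => (pfac f).card = 1) := hf'
    obtain ⟨k, hk⟩ := FC3_pow (hT f (Finset.mem_filter.1 hf1).1).1 (hp f hf1)
    obtain ⟨k', hk'⟩ := FC3_pow (hT f' (Finset.mem_filter.1 hf1').1).1 (hp f' hf1')
    have hirr : Irreducible (p f) := irreducible_of_mem_pfac (f := f) (by
      rw [hp f hf1]
      exact Finset.mem_singleton_self _)
    have hdeg : 0 < (p f).natDegree := hirr.natDegree_pos
    have e1 : k * (p f).natDegree = i := by
      rw [← Polynomial.natDegree_pow, ← hk]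
      exact (hT f (Finset.mem_filter.1 hf1).1).2.1
    have e2 : k' * (p f).natDegree = i := by
      rw [he, ← Polynomial.natDegree_pow, ← hk']
      exact (hT f' (Finset.mem_filter.1 hf1').1).2.1
    have e3 : k = k' := Nat.eq_of_mul_eq_mul_right hdeg (e1.trans e2.symm)
    rw [hk, hk', e3, he]
  rw [← Finset.sum_image (f := fun P : F[X] => (P.natDegree : ℝ)) (g := p) hinj]
  refine Finset.sum_le_sum_of_subset_of_nonneg ?_ fun _ _ _ => Nat.cast_nonneg _
  intro P hP
  obtain ⟨f, hf, rfl⟩ := Finset.mem_image.1 hP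
  have hmem : p f ∈ pfac f := by
    rw [hp f hf]
    exact Finset.mem_singleton_self _
  have hirr : Irreducible (p f) := irreducible_of_mem_pfac hmem
  rw [mem_pfac hg]
  refine ⟨monic_of_mem_pfac hmem, hirr, ?_⟩
  by_contra hnd
  apply (hT f (Finset.mem_filter.1 hf).1).2.2
  obtain ⟨k, hk⟩ := FC3_pow (hT f (Finset.mem_filter.1 hf).1).1 (hp f hf)
  rw [hk]
  apply IsCoprime.pow_right
  exact ((EuclideanDomain.dvd_or_coprime _ _ hirr).resolve_left hnd).symm

/-- the case of a monic part which is a square -/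
private theorem FC3_case2 (c : F) (hc : ¬ IsSquare c) (g : F[X]) (hg : g ≠ 0) :
    ∃ C' : ℝ, ∀ N : ℕ,
      |∑ i ∈ range N, (∑ f ∈ mon F i, (jac (C c * (g * g)) f : ℝ) * lam f) / qq F ^ i| ≤ C' := by
  classical
  have hq : (0 : ℝ) < qq F := by linarith [two_le_qq F]
  set K : ℝ := ∑ P ∈ pfac g, (P.natDegree : ℝ) with hK
  have hK0 : 0 ≤ K := Finset.sum_nonneg fun _ _ => Nat.cast_nonneg _
  have hcc : quadraticChar F c = -1 := quadraticChar_neg_one_iff_not_isSquare.2 hc
  have hval : ∀ i, ∀ f ∈ mon F i, (jac (C c * (g * g)) f : ℝ) =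
      (-1) ^ i * (if IsCoprime g f then 1 else 0) := by
    intro i f hf
    obtain ⟨hm, hdeg⟩ := (mem_mon F).1 hf
    rw [jac_mul_left hm, jac_mul_left hm, jac_C hm, hcc, hdeg]
    push_cast
    congr 1
    by_cases h : IsCoprime g f
    · rw [if_pos h]
      have h1 := (jac_ne_zero_iff hm g).2 h
      rcases jac_cases g f with h3 | h3 | h3
      · exact absurd h3 h1
      · rw [h3]; norm_num
      · rw [h3]; norm_num
    · rw [if_neg h]
      have h1 : jac g f = 0 := by
        by_contra h3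
        exact h ((jac_ne_zero_iff hm g).1 h3)
      rw [h1]; norm_num
  have hl : ∀ i, |(∑ f ∈ mon F i, (jac (C c * (g * g)) f : ℝ) * lam f) / qq F ^ i - (-1) ^ i| ≤
      (K + 1) * (1 / 2) ^ i := by
    intro i
    rcases Nat.eq_zero_or_pos i with rfl | hi
    · rw [mon_zero, Finset.sum_singleton, FC3_lam_one]
      simp only [mul_zero, pow_zero, zero_div, zero_sub, abs_neg, abs_one, mul_one]
      linarith
    · have h1 : ∑ f ∈ mon F i, (jac (C c * (g * g)) f : ℝ) * lam f =
          (-1) ^ i * (qq F ^ i - ∑ f ∈ (mon F i).filter (fun f => ¬ IsCoprime g f), lam f) := by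
        have h3 : ∑ f ∈ mon F i, (jac (C c * (g * g)) f : ℝ) * lam f =
            (-1) ^ i * ∑ f ∈ (mon F i).filter (fun f => IsCoprime g f), lam f := by
          rw [Finset.sum_filter, Finset.mul_sum]
          refine Finset.sum_congr rfl fun f hf => ?_
          rw [hval i f hf]
          by_cases h : IsCoprime g f
          · rw [if_pos h, if_pos h]; ring
          · rw [if_neg h, if_neg h]; ring
        rw [h3, ← lam_total i hi,
          ← Finset.sum_filter_add_sum_filter_not (mon F i) (fun f => IsCoprime g f)]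
        ring
      set t : ℝ := ∑ f ∈ (mon F i).filter (fun f => ¬ IsCoprime g f), lam f with ht
      have ht0 : 0 ≤ t := Finset.sum_nonneg fun f _ => FC3_lam_nonneg f
      have htK : t ≤ K := by
        apply FC3_t g hg i
        intro f hf
        obtain ⟨h3, h4⟩ := Finset.mem_filter.1 hf
        obtain ⟨hm, hdeg⟩ := (mem_mon F).1 h3
        exact ⟨hm, hdeg, h4⟩
      have hqi : (0 : ℝ) < qq F ^ i := pow_pos hq i
      have h3 : (-1 : ℝ) ^ i * (qq F ^ i - t) / qq F ^ i - (-1) ^ i = (-1) ^ i * (-(t / qq F ^ i)) := by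
        field_simp
        ring
      rw [h1, h3, abs_mul, abs_pow, abs_neg, abs_one, one_pow, one_mul, abs_neg,
        abs_of_nonneg (div_nonneg ht0 hqi.le), div_eq_mul_inv, one_div, inv_pow]
      have h4 : (qq F ^ i)⁻¹ ≤ ((2 : ℝ) ^ i)⁻¹ := by
        apply inv_anti₀ (by positivity)
        exact pow_le_pow_left₀ (by norm_num) (two_le_qq F) i
      have h5 : (0 : ℝ) ≤ ((2 : ℝ) ^ i)⁻¹ := by positivity
      calc t * (qq F ^ i)⁻¹ ≤ K * ((2 : ℝ) ^ i)⁻¹ :=
            mul_le_mul htK h4 (by positivity) hK0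
        _ ≤ (K + 1) * ((2 : ℝ) ^ i)⁻¹ := by
            apply mul_le_mul_of_nonneg_right _ h5
            linarith
  refine ⟨1 + (K + 1) * 2, fun N => ?_⟩
  set l : ℕ → ℝ := fun i => (∑ f ∈ mon F i, (jac (C c * (g * g)) f : ℝ) * lam f) / qq F ^ i with hldef
  have h1 : ∑ i ∈ range N, l i = ∑ i ∈ range N, (-1 : ℝ) ^ i + ∑ i ∈ range N, (l i - (-1) ^ i) := by
    rw [← Finset.sum_add_distrib]
    refine Finset.sum_congr rfl fun i _ => ?_
    ring
  show |∑ i ∈ range N, l i| ≤ _
  rw [h1]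
  refine (abs_add_le _ _).trans (add_le_add ?_ ?_)
  · rw [neg_one_geom_sum]
    split_ifs
    · simp
    · simp
  · refine (Finset.abs_sum_le_sum_abs _ _).trans ((Finset.sum_le_sum fun i _ => hl i).trans ?_)
    rw [← Finset.mul_sum]
    exact mul_le_mul_of_nonneg_left (sum_geometric_two_le N) (by linarith)

theorem mert_chi (h2 : ringChar F ≠ 2) (b : F[X]) (hb : ¬ IsSquare b) :
    ∃ C : ℝ, ∀ M : ℕ, |∑ i ∈ range (M + 1), (∑ f ∈ mon F i, (jac b f : ℝ) * lam f) / qq F ^ i| ≤ C := by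
  have hb0 : b ≠ 0 := by
    rintro rfl
    exact hb ⟨0, by simp⟩
  have hc0 : b.leadingCoeff ≠ 0 := leadingCoeff_ne_zero.2 hb0
  set c := b.leadingCoeff with hc
  set b' : F[X] := C c⁻¹ * b with hb'
  have hbm : b'.Monic := by
    rw [hb', mul_comm]
    exact Polynomial.monic_mul_leadingCoeff_inv hb0
  have hbb : b = C c * b' := by
    rw [hb', ← mul_assoc, ← C_mul, mul_inv_cancel₀ hc0, C_1, one_mul]
  by_cases hsq : IsSquare b'
  · obtain ⟨g, hg⟩ := hsq
    have hg0 : g ≠ 0 := by
      rintro rfl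
      rw [mul_zero] at hg
      exact hbm.ne_zero hg
    have hcs : ¬ IsSquare c := by
      rintro ⟨s, hs⟩
      apply hb
      refine ⟨C s * g, ?_⟩
      rw [hbb, hg, hs, C_mul]
      ring
    obtain ⟨C', hC'⟩ := FC3_case2 c hcs g hg0
    refine ⟨C', fun M => ?_⟩
    have := hC' (M + 1)
    rwa [← hg, ← hbb] at this
  · obtain ⟨C', hC'⟩ := FC3_case1 h2 c hc0 b' hbm hsq
    refine ⟨C', fun M => ?_⟩
    have := hC' (M + 1)
    rwa [← hbb] at this

end FZ
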