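import Pool.Agent.Lib.MP_1ad228_nt.FF.FC4

/-! JOB FC5.  Mertens' theorem for the primes with prescribed values of finitely many independent quadratic characters.
MODEL (over `ℤ`, complete proof): `mert_class` in `Pool/Agent/Lib/MP_1ad228_ntR/RC5.lean`.

Proof.  Let `T P = ∏_{e ∈ E} (1 + v e * jac e P)`.  By `Finset.prod_one_add` (or `prod_add`), `T P = ∑_{S ⊆ E} (∏_{e ∈ S} v e) (∏_{e ∈ S} jac e P)`, and `∏_{e ∈ S} jac e P = jac (∏_{e∈S} e) P` (`jac_prod_left`).
So with `w P = deg P/q^(deg P)`: `|∑_{P ∈ PP x} T P * w P - x| ≤ C'`: the term `S = ∅` is `∑ w P`, within a constant of `x` (`mert_prime`), the other `S` contribute bounded sums (`mert_chi_prime`, the products `∏_{e ∈ S} v e` are `±1`; take the sum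
of the constants over the finitely many `S`).
On the other side, if all `jac e P ≠ 0`, `T P = 2^|E|` if `jac e P = v e` for all `e ∈ E` and `T P = 0` otherwise (each factor is `2` or `0`).  The primes with some `jac e P = 0` divide `∏_{e∈E} e` (`jac_ne_zero_iff`; `e ≠ 0`, because
`{e}` is not a square), so they are in `pfac (∏ e)`, and for them `|T P - 2^|E| * [..]| ≤ 2^|E|` and `w P ≤ 1` (`n ≤ 2^n ≤ q^n`): they contribute at most `2^|E| * (pfac (∏ e)).card`.  Divide by `2^|E|`. -/

namespace FZ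

open Finset Polynomial

variable {F : Type} [Field F] [Fintype F] [DecidableEq F]

omit [DecidableEq F] in
private theorem FC5_w {P : F[X]} :
    0 ≤ (P.natDegree : ℝ) / qq F ^ P.natDegree ∧ (P.natDegree : ℝ) / qq F ^ P.natDegree ≤ 1 := by
  have hq := two_le_qq F
  have h0 : (0 : ℝ) < qq F ^ P.natDegree := by positivity
  constructor
  · positivity
  · rw [div_le_one h0]
    have h1 : (P.natDegree : ℝ) ≤ 2 ^ P.natDegree := by
      exact_mod_cast (Nat.lt_two_pow_self).le
    exact h1.trans (pow_le_pow_left₀ (by norm_num) hq _)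

open Classical in
theorem mert_class (h2 : ringChar F ≠ 2) (E : Finset F[X]) (hE : ∀ S ⊆ E, S.Nonempty → ¬ IsSquare (∏ e ∈ S, e))
    (v : F[X] → ℤ) (hv : ∀ e ∈ E, v e = 1 ∨ v e = -1) : ∃ C : ℝ, ∀ x : ℕ,
    |∑ P ∈ (PP F x).filter (fun P => ∀ e ∈ E, jac e P = v e), (P.natDegree : ℝ) / qq F ^ P.natDegree -
      x / 2 ^ E.card| ≤ C := by
  -- constants
  have hS : ∀ S : Finset F[X], ∃ C : ℝ, S ⊆ E → S.Nonempty → ∀ x : ℕ,
      |∑ P ∈ PP F x, (∏ e ∈ S, (jac e P : ℝ)) * ((P.natDegree : ℝ) / qq F ^ P.natDegree)| ≤ C := by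
    intro S
    by_cases h : S ⊆ E ∧ S.Nonempty
    · obtain ⟨C, hC⟩ := mert_chi_prime h2 (∏ e ∈ S, e) (hE S h.1 h.2)
      refine ⟨C, fun _ _ x => ?_⟩
      have hx := hC x
      have hsum : ∑ P ∈ PP F x, (∏ e ∈ S, (jac e P : ℝ)) *
          ((P.natDegree : ℝ) / qq F ^ P.natDegree) =
          ∑ P ∈ PP F x, (jac (∏ e ∈ S, e) P : ℝ) *
            ((P.natDegree : ℝ) / qq F ^ P.natDegree) := by
        refine Finset.sum_congr rfl fun P hP => ?_
        rw [jac_prod_left S (fun e => e) (mem_PP.1 hP).1, Int.cast_prod]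
      rw [hsum]
      exact hx
    · exact ⟨0, fun h1 h2 => absurd ⟨h1, h2⟩ h⟩
  choose Cf hCf using hS
  obtain ⟨C0, hC0⟩ := mert_prime F
  have hE0 : ∀ e ∈ E, e ≠ 0 := by
    intro e he h0
    have := hE {e} (Finset.singleton_subset_iff.2 he) (Finset.singleton_nonempty e)
    rw [Finset.prod_singleton, h0] at this
    exact this ⟨0, by ring⟩
  set N : F[X] := ∏ e ∈ E, e with hN
  have hN0 : N ≠ 0 := by
    rw [hN]
    exact Finset.prod_ne_zero_iff.2 fun e he => hE0 e he
  set T : F[X] → ℝ := fun P => ∏ e ∈ E, (1 + (v e : ℝ) * (jac e P : ℝ)) with hT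
  have hfac : ∀ e ∈ E, ∀ P : F[X], 0 ≤ 1 + (v e : ℝ) * (jac e P : ℝ) ∧
      1 + (v e : ℝ) * (jac e P : ℝ) ≤ 2 := by
    intro e he P
    rcases hv e he with h | h <;> rcases jac_cases e P with h' | h' | h' <;> rw [h, h'] <;>
      norm_num
  have hT0 : ∀ P, 0 ≤ T P := fun P => Finset.prod_nonneg fun e he => (hfac e he P).1
  have hT2 : ∀ P, T P ≤ 2 ^ E.card := by
    intro P
    rw [← Finset.prod_const]
    exact Finset.prod_le_prod (fun e he => (hfac e he P).1) (fun e he => (hfac e he P).2)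
  set I : F[X] → ℝ := fun P => if ∀ e ∈ E, jac e P = v e then 2 ^ E.card else 0 with hI
  have hI0 : ∀ P, 0 ≤ I P := by
    intro P
    simp only [hI]
    split_ifs
    · positivity
    · exact le_rfl
  have hI2 : ∀ P, I P ≤ 2 ^ E.card := by
    intro P
    simp only [hI]
    split_ifs
    · exact le_rfl
    · positivity
  have hgood : ∀ P, (∀ e ∈ E, jac e P ≠ 0) → T P = I P := by
    intro P hp
    simp only [hI, hT]
    split_ifs with hc
    · rw [← Finset.prod_const]
      refine Finset.prod_congr rfl fun e he => ?_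
      rw [hc e he]
      rcases hv e he with h | h <;> rw [h] <;> norm_num
    · push Not at hc
      obtain ⟨e, he, hne⟩ := hc
      refine Finset.prod_eq_zero he ?_
      have h0 := hp e he
      rcases jac_cases e P with h' | h' | h'
      · exact absurd h' h0
      · rcases hv e he with h | h
        · exact absurd (h'.trans h.symm) hne
        · rw [h, h']
          norm_num
      · rcases hv e he with h | h
        · rw [h, h']
          norm_num
        · exact absurd (h'.trans h.symm) hne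
  have hbad : ∀ x : ℕ, |∑ P ∈ PP F x, (T P - I P) * ((P.natDegree : ℝ) / qq F ^ P.natDegree)| ≤
      2 ^ E.card * (pfac N).card := by
    intro x
    have h1 : ∀ P ∈ PP F x, |(T P - I P) * ((P.natDegree : ℝ) / qq F ^ P.natDegree)| ≤
        if P ∈ pfac N then (2 : ℝ) ^ E.card else 0 := by
      intro P hP
      obtain ⟨hPm, hPi, -⟩ := mem_PP.1 hP
      obtain ⟨w0, w1⟩ := FC5_w (P := P)
      by_cases hg : ∀ e ∈ E, jac e P ≠ 0
      · rw [hgood P hg, sub_self, zero_mul, abs_zero]
        split_ifs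
        · positivity
        · exact le_rfl
      · push Not at hg
        obtain ⟨e, he, h0⟩ := hg
        have hd : P ∣ e := by
          by_contra hnd
          have hcop : IsCoprime e P := ((hPi.coprime_iff_not_dvd).2 hnd).symm
          exact (jac_ne_zero_iff hPm e).2 hcop h0
        have hd' : P ∣ N := by
          rw [hN]
          exact hd.trans (Finset.dvd_prod_of_mem _ he)
        rw [if_pos ((mem_pfac hN0).2 ⟨hPm, hPi, hd'⟩), abs_mul, abs_of_nonneg w0]
        have h2 : |T P - I P| ≤ 2 ^ E.card := by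
          rw [abs_le]
          constructor
          · linarith [hT0 P, hI2 P]
          · linarith [hT2 P, hI0 P]
        calc |T P - I P| * ((P.natDegree : ℝ) / qq F ^ P.natDegree) ≤ 2 ^ E.card * 1 :=
              mul_le_mul h2 w1 w0 (by positivity)
          _ = 2 ^ E.card := mul_one _
    calc |∑ P ∈ PP F x, (T P - I P) * ((P.natDegree : ℝ) / qq F ^ P.natDegree)|
        ≤ ∑ P ∈ PP F x, |(T P - I P) * ((P.natDegree : ℝ) / qq F ^ P.natDegree)| :=
          Finset.abs_sum_le_sum_abs _ _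
      _ ≤ ∑ P ∈ PP F x, (if P ∈ pfac N then (2 : ℝ) ^ E.card else 0) := Finset.sum_le_sum h1
      _ = ∑ P ∈ (PP F x).filter (· ∈ pfac N), (2 : ℝ) ^ E.card :=
          (Finset.sum_filter _ _).symm
      _ ≤ ∑ P ∈ pfac N, (2 : ℝ) ^ E.card := by
          refine Finset.sum_le_sum_of_subset_of_nonneg ?_ fun _ _ _ => by positivity
          intro P hP
          exact (Finset.mem_filter.1 hP).2
      _ = 2 ^ E.card * (pfac N).card := by
          rw [Finset.sum_const, nsmul_eq_mul, mul_comm]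
  -- the expansion
  have hexp : ∀ x : ℕ, ∑ P ∈ PP F x, T P * ((P.natDegree : ℝ) / qq F ^ P.natDegree) =
      ∑ S ∈ E.powerset, (∏ e ∈ S, (v e : ℝ)) *
        ∑ P ∈ PP F x, (∏ e ∈ S, (jac e P : ℝ)) * ((P.natDegree : ℝ) / qq F ^ P.natDegree) := by
    intro x
    simp only [Finset.mul_sum]
    rw [Finset.sum_comm]
    refine Finset.sum_congr rfl fun P _ => ?_
    simp only [hT]
    rw [Finset.prod_one_add, Finset.sum_mul]
    refine Finset.sum_congr rfl fun S _ => ?_
    rw [Finset.prod_mul_distrib]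
    ring
  have hmain : ∀ x : ℕ,
      |∑ P ∈ PP F x, T P * ((P.natDegree : ℝ) / qq F ^ P.natDegree) - x| ≤
        C0 + ∑ S ∈ E.powerset.erase ∅, |Cf S| := by
    intro x
    rw [hexp x, ← Finset.add_sum_erase _ _ (Finset.empty_mem_powerset E)]
    simp only [Finset.prod_empty, one_mul]
    have h1 := hC0 x
    have h2 : |∑ S ∈ E.powerset.erase ∅, (∏ e ∈ S, (v e : ℝ)) *
        ∑ P ∈ PP F x, (∏ e ∈ S, (jac e P : ℝ)) * ((P.natDegree : ℝ) / qq F ^ P.natDegree)| ≤
        ∑ S ∈ E.powerset.erase ∅, |Cf S| := by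
      refine (Finset.abs_sum_le_sum_abs _ _).trans (Finset.sum_le_sum fun S hS => ?_)
      rw [Finset.mem_erase, Finset.mem_powerset] at hS
      have h3 := hCf S hS.2 (Finset.nonempty_iff_ne_empty.2 hS.1) x
      have h4 : |∏ e ∈ S, (v e : ℝ)| = 1 := by
        rw [Finset.abs_prod]
        refine Finset.prod_eq_one fun e he => ?_
        rcases hv e (hS.2 he) with h | h <;> rw [h] <;> norm_num
      rw [abs_mul, h4, one_mul]
      exact h3.trans (le_abs_self _)
    rw [abs_le] at h1 h2 ⊢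
    constructor
    · linarith [h1.1, h2.1]
    · linarith [h1.2, h2.2]
  refine ⟨C0 + ∑ S ∈ E.powerset.erase ∅, |Cf S| + 2 ^ E.card * (pfac N).card,
    fun x => ?_⟩
  have h2E : (1 : ℝ) ≤ 2 ^ E.card := one_le_pow₀ (by norm_num)
  have h2E0 : (0 : ℝ) < 2 ^ E.card := by linarith
  have hsum : ∑ P ∈ (PP F x).filter (fun P => ∀ e ∈ E, jac e P = v e),
      (P.natDegree : ℝ) / qq F ^ P.natDegree =
      (∑ P ∈ PP F x, I P * ((P.natDegree : ℝ) / qq F ^ P.natDegree)) / 2 ^ E.card := by
    rw [eq_div_iff h2E0.ne', Finset.sum_mul, Finset.sum_filter]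
    refine Finset.sum_congr rfl fun P _ => ?_
    simp only [hI]
    split_ifs
    · ring
    · ring
  have h1 := hmain x
  have h2' := hbad x
  have h3 : ∑ P ∈ PP F x, (T P - I P) * ((P.natDegree : ℝ) / qq F ^ P.natDegree) =
      ∑ P ∈ PP F x, T P * ((P.natDegree : ℝ) / qq F ^ P.natDegree) -
        ∑ P ∈ PP F x, I P * ((P.natDegree : ℝ) / qq F ^ P.natDegree) := by
    rw [← Finset.sum_sub_distrib]
    refine Finset.sum_congr rfl fun P _ => ?_
    ring
  rw [h3] at h2'
  rw [hsum, ← sub_div, abs_div, abs_of_pos h2E0]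
  have h4 : |∑ P ∈ PP F x, I P * ((P.natDegree : ℝ) / qq F ^ P.natDegree) - x| ≤
      C0 + ∑ S ∈ E.powerset.erase ∅, |Cf S| + 2 ^ E.card * (pfac N).card := by
    rw [abs_le] at h1 h2' ⊢
    constructor
    · linarith [h1.1, h2'.2]
    · linarith [h1.2, h2'.1]
  exact (div_le_self (abs_nonneg _) h2E).trans h4

end FZ
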