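import Pool.Agent.Lib.MP_1ad228_nt.FF.FC5

/-! JOB FC6.  Consequences of `mert_class`.
MODEL (over `ℤ`, complete proofs): `Pool/Agent/Lib/MP_1ad228_ntR/RC6.lean`.

* `count_class`: let `A x = ∑_{P ∈ PP x, class} deg P/q^(deg P)`, `|A x - x / 2^k| ≤ C` (`k = |E|`, `C ≥ 0` without loss).  Choose a natural number `K ≥ 1` with `K / 2^k ≥ 2 C + 1`.  For `x ≥ K + 1` let `y = x - K`.
`∑_{y < deg P ≤ x, class} deg P/q^(deg P) = A x - A y ≥ K/2^k - 2C ≥ 1`.  Every term is `≤ x / q^(x-K)`.  So the number of primes of degree `≤ x` in the class is at least `q^(x-K)/x`.  `c = q^(-K)`, `x0 = K + 1`.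
* `count_class_unif`: the set only depends on `S = {e ∈ E | v e = 1} ⊆ E`; apply `count_class` to `v_S e = if e ∈ S then 1 else -1` for the finitely many `S ∈ E.powerset` and take the minimum of the `c` and the maximum of the `x0`; `x0 ≥ 1`.
* `exists_class`: there are primes of arbitrarily large degree in the class (`A x → ∞`: if all the primes of the class had degree `≤ y` then `A x = A y` for `x ≥ y`).
* `mert_two`: `E = {b, b'}` for `b, b', b b'` non-squares (`b ≠ b'` because `b * b` is a square; the nonempty subsets of `E` are `{b}`, `{b'}`, `E`).  The primes with `jac b P = 1` or `jac b' P = 1` contain the three disjoint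
classes `(1,1), (1,-1), (-1,1)`; each contributes `≥ x/4 - C`.  Removing the primes of the finite set `Fex` changes the sum by at most `∑_{P ∈ Fex} deg P/q^(deg P)`. -/

namespace FZ

open Finset Polynomial

variable {F : Type} [Field F] [Fintype F] [DecidableEq F]

private theorem FC6_split (Pr : F[X] → Prop) [DecidablePred Pr] (f : F[X] → ℝ) (x y : ℕ) (hyx : y ≤ x)
    (B : ℝ) (hB : 0 ≤ B) (hf : ∀ P : F[X], Pr P → y < P.natDegree → P.natDegree ≤ x → f P ≤ B) :
    ∑ P ∈ (PP F x).filter Pr, f P ≤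
      ∑ P ∈ (PP F y).filter Pr, f P + (((PP F x).filter Pr).card : ℝ) * B := by
  classical
  rw [← Finset.sum_filter_add_sum_filter_not ((PP F x).filter Pr) (fun P => P.natDegree ≤ y)]
  have h1 : ((PP F x).filter Pr).filter (fun P => P.natDegree ≤ y) = (PP F y).filter Pr := by
    ext P
    simp only [Finset.mem_filter, mem_PP]
    constructor
    · rintro ⟨⟨⟨a, b, c⟩, d⟩, e⟩
      exact ⟨⟨a, b, e⟩, d⟩
    · rintro ⟨⟨a, b, c⟩, d⟩
      exact ⟨⟨⟨a, b, c.trans hyx⟩, d⟩, c⟩
  rw [h1]
  have h2 : ∑ P ∈ ((PP F x).filter Pr).filter (fun P => ¬ P.natDegree ≤ y), f P ≤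
      ∑ _P ∈ ((PP F x).filter Pr).filter (fun P => ¬ P.natDegree ≤ y), B := by
    apply Finset.sum_le_sum
    intro P hP
    simp only [Finset.mem_filter, mem_PP] at hP
    exact hf P hP.1.2 (by omega) hP.1.1.2.2
  rw [Finset.sum_const, nsmul_eq_mul] at h2
  have h3 : ((((PP F x).filter Pr).filter (fun P => ¬ P.natDegree ≤ y)).card : ℝ) ≤
      (((PP F x).filter Pr).card : ℝ) := by
    exact_mod_cast Finset.card_filter_le _ _
  have h4 := mul_le_mul_of_nonneg_right h3 hB
  linarith

open Classical in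
theorem count_class (h2 : ringChar F ≠ 2) (E : Finset F[X]) (hE : ∀ S ⊆ E, S.Nonempty → ¬ IsSquare (∏ e ∈ S, e))
    (v : F[X] → ℤ) (hv : ∀ e ∈ E, v e = 1 ∨ v e = -1) : ∃ (c : ℝ) (x0 : ℕ), 0 < c ∧ 1 ≤ x0 ∧ ∀ x : ℕ, x0 ≤ x →
    c * qq F ^ x / x ≤ (((PP F x).filter (fun P => ∀ e ∈ E, jac e P = v e)).card : ℝ) := by
  obtain ⟨C, hC⟩ := mert_class h2 E hE v hv
  have hk : (0 : ℝ) < 2 ^ E.card := by positivity
  have hq2 := two_le_qq F
  have hq0 : 0 < qq F := by linarith
  obtain ⟨K, hK⟩ := exists_nat_ge ((2 * C + 1) * 2 ^ E.card)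
  refine ⟨(qq F ^ K)⁻¹, K + 1, by positivity, by omega, fun x hx => ?_⟩
  have hx0 : (0 : ℝ) < x := by exact_mod_cast (by omega : 0 < x)
  set y := x - K with hy
  have hyx : y ≤ x := Nat.sub_le _ _
  have hyr : (y : ℝ) = x - K := by
    rw [hy, Nat.cast_sub (by omega)]
  have h1 := hC x
  have h2' := hC y
  have h3 := FC6_split (fun P : F[X] => ∀ e ∈ E, jac e P = v e)
    (fun P => (P.natDegree : ℝ) / qq F ^ P.natDegree) x y hyx (x / qq F ^ y) (by positivity) (by
      intro P _ hyp hpx
      apply div_le_div₀ hx0.le (by exact_mod_cast hpx) (by positivity)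
      exact pow_le_pow_right₀ (by linarith) hyp.le)
  rw [abs_le] at h1 h2'
  set Ax := ∑ P ∈ (PP F x).filter (fun P => ∀ e ∈ E, jac e P = v e), (P.natDegree : ℝ) / qq F ^ P.natDegree
    with hAx
  set Ay := ∑ P ∈ (PP F y).filter (fun P => ∀ e ∈ E, jac e P = v e), (P.natDegree : ℝ) / qq F ^ P.natDegree
    with hAy
  have h4 : 1 ≤ Ax - Ay := by
    have e1 : (2 * C + 1) ≤ K / 2 ^ E.card := by
      rw [le_div_iff₀ hk]; exact hK
    have e2 : (K : ℝ) / 2 ^ E.card = x / 2 ^ E.card - y / 2 ^ E.card := by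
      rw [← sub_div, hyr]
      congr 1
      ring
    linarith [h1.1, h2'.2]
  have h5 : 1 ≤ ((((PP F x).filter (fun P => ∀ e ∈ E, jac e P = v e)).card : ℕ) : ℝ) *
      (x / qq F ^ y) := by linarith
  rw [div_le_iff₀ hx0]
  rw [mul_div_assoc', le_div_iff₀ (by positivity), one_mul] at h5
  refine le_trans (le_of_eq ?_) h5
  have hxy : x = K + y := by omega
  conv_lhs => rw [hxy, pow_add]
  field_simp

open Classical in
theorem count_class_unif (h2 : ringChar F ≠ 2) (E : Finset F[X])
    (hE : ∀ S ⊆ E, S.Nonempty → ¬ IsSquare (∏ e ∈ S, e)) :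
    ∃ (c : ℝ) (x0 : ℕ), 0 < c ∧ 1 ≤ x0 ∧ ∀ x : ℕ, x0 ≤ x → ∀ v : F[X] → ℤ, (∀ e ∈ E, v e = 1 ∨ v e = -1) →
    c * qq F ^ x / x ≤ (((PP F x).filter (fun P => ∀ e ∈ E, jac e P = v e)).card : ℝ) := by
  have hex : ∀ S : Finset F[X], ∃ (c : ℝ) (x0 : ℕ), 0 < c ∧ 1 ≤ x0 ∧ ∀ x : ℕ, x0 ≤ x →
      c * qq F ^ x / x ≤ (((PP F x).filter (fun P =>
        ∀ e ∈ E, jac e P = (if e ∈ S then (1 : ℤ) else -1))).card : ℝ) := by
    intro S
    apply count_class h2 E hE
    intro e _
    by_cases h : e ∈ S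
    · left; simp [h]
    · right; simp [h]
  choose c x0 hc hx1 hx using hex
  have hne : (E.powerset).Nonempty := ⟨∅, by simp⟩
  have hq2 := two_le_qq F
  obtain ⟨S0, _, hS0⟩ := Finset.exists_min_image E.powerset c hne
  refine ⟨c S0, max 1 (E.powerset.sup x0), hc S0, le_max_left _ _, fun x hxx v hv => ?_⟩
  set S := E.filter (fun e => v e = 1) with hS
  have hSm : S ∈ E.powerset := by
    rw [Finset.mem_powerset]; exact Finset.filter_subset _ _
  have h2x : 1 ≤ x := (le_max_left _ _).trans hxx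
  have h3x : x0 S ≤ x := (Finset.le_sup hSm).trans ((le_max_right _ _).trans hxx)
  have hx0' : (0 : ℝ) ≤ x := Nat.cast_nonneg _
  have h1 := hx S x h3x
  have h2' : c S0 * qq F ^ x / x ≤ c S * qq F ^ x / x := by
    apply div_le_div_of_nonneg_right _ hx0'
    exact mul_le_mul_of_nonneg_right (hS0 S hSm) (by positivity)
  refine h2'.trans (h1.trans (le_of_eq ?_))
  congr 2
  apply Finset.filter_congr
  intro P _
  constructor
  · intro h e he
    rw [h e he]
    by_cases hve : v e = 1
    · rw [if_pos (by rw [hS, Finset.mem_filter]; exact ⟨he, hve⟩), hve]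
    · rw [if_neg (by rw [hS, Finset.mem_filter]; exact fun h => hve h.2)]
      rcases hv e he with h' | h'
      · exact absurd h' hve
      · exact h'.symm
  · intro h e he
    rw [h e he]
    by_cases hve : v e = 1
    · rw [if_pos (by rw [hS, Finset.mem_filter]; exact ⟨he, hve⟩), hve]
    · rw [if_neg (by rw [hS, Finset.mem_filter]; exact fun h => hve h.2)]
      rcases hv e he with h' | h'
      · exact absurd h' hve
      · exact h'

theorem exists_class (h2 : ringChar F ≠ 2) (E : Finset F[X]) (hE : ∀ S ⊆ E, S.Nonempty → ¬ IsSquare (∏ e ∈ S, e))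
    (v : F[X] → ℤ) (hv : ∀ e ∈ E, v e = 1 ∨ v e = -1) (y : ℕ) :
    ∃ P : F[X], P.Monic ∧ Irreducible P ∧ y < P.natDegree ∧ ∀ e ∈ E, jac e P = v e := by
  classical
  by_contra hcon
  push Not at hcon
  obtain ⟨C, hC⟩ := mert_class h2 E hE v hv
  have hk : (0 : ℝ) < 2 ^ E.card := by positivity
  have hq2 := two_le_qq F
  set Ay := ∑ P ∈ (PP F y).filter (fun P => ∀ e ∈ E, jac e P = v e), (P.natDegree : ℝ) / qq F ^ P.natDegree
    with hAy
  obtain ⟨x, hx⟩ := exists_nat_gt ((C + Ay) * 2 ^ E.card)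
  have h1 := hC x
  have h2' : ∑ P ∈ (PP F x).filter (fun P => ∀ e ∈ E, jac e P = v e), (P.natDegree : ℝ) / qq F ^ P.natDegree
      ≤ Ay := by
    apply Finset.sum_le_sum_of_subset_of_nonneg
    · intro P hP
      simp only [Finset.mem_filter, mem_PP] at hP ⊢
      refine ⟨⟨hP.1.1, hP.1.2.1, ?_⟩, hP.2⟩
      by_contra hyp
      obtain ⟨e, he, hne⟩ := hcon P hP.1.1 hP.1.2.1 (by omega)
      exact hne (hP.2 e he)
    · intro P _ _
      positivity
  rw [abs_le] at h1
  have h4 : C + Ay < x / 2 ^ E.card := by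
    rw [lt_div_iff₀ hk]; exact hx
  linarith [h1.1]

open Classical in
theorem mert_two (h2 : ringChar F ≠ 2) (b b' : F[X]) (hb : ¬ IsSquare b) (hb' : ¬ IsSquare b')
    (hbb : ¬ IsSquare (b * b')) (Fex : Finset F[X]) : ∃ C : ℝ, ∀ x : ℕ, 3 / 4 * (x : ℝ) - C ≤
    ∑ P ∈ (PP F x).filter (fun P => (jac b P = 1 ∨ jac b' P = 1) ∧ P ∉ Fex), (P.natDegree : ℝ) / qq F ^ P.natDegree := by
  have hq2 := two_le_qq F
  have hne : b ≠ b' := by
    rintro rfl
    exact hbb ⟨b, rfl⟩
  have hcard : ({b, b'} : Finset F[X]).card = 2 := Finset.card_pair hne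
  have hE : ∀ S ⊆ ({b, b'} : Finset F[X]), S.Nonempty → ¬ IsSquare (∏ e ∈ S, e) := by
    intro S hS hSne
    by_cases h1 : b ∈ S
    · by_cases h2 : b' ∈ S
      · have : S = {b, b'} := by
          apply Finset.Subset.antisymm hS
          intro z hz
          rw [Finset.mem_insert, Finset.mem_singleton] at hz
          rcases hz with rfl | rfl
          · exact h1
          · exact h2
        rw [this, Finset.prod_pair hne]
        exact hbb
      · have : S = {b} := by
          apply Finset.Subset.antisymm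
          · intro z hz
            have := hS hz
            rw [Finset.mem_insert, Finset.mem_singleton] at this
            rcases this with rfl | rfl
            · exact Finset.mem_singleton_self _
            · exact absurd hz h2
          · intro z hz
            rw [Finset.mem_singleton] at hz
            rw [hz]; exact h1
        rw [this, Finset.prod_singleton]
        exact hb
    · have : S = {b'} := by
        have hsub : S ⊆ {b'} := by
          intro z hz
          have := hS hz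
          rw [Finset.mem_insert, Finset.mem_singleton] at this
          rcases this with rfl | rfl
          · exact absurd hz h1
          · exact Finset.mem_singleton_self _
        exact (Finset.Nonempty.subset_singleton_iff hSne).1 hsub
      rw [this, Finset.prod_singleton]
      exact hb'
  have hcl : ∀ s t : ℤ, (s = 1 ∨ s = -1) → (t = 1 ∨ t = -1) → ∃ C : ℝ, ∀ x : ℕ,
      (x : ℝ) / 4 - C ≤ ∑ P ∈ (PP F x).filter (fun P => jac b P = s ∧ jac b' P = t),
        (P.natDegree : ℝ) / qq F ^ P.natDegree := by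
    intro s t hs ht
    obtain ⟨C, hC⟩ := mert_class h2 {b, b'} hE (fun e => if e = b then s else t) (by
      intro e he
      rw [Finset.mem_insert, Finset.mem_singleton] at he
      rcases he with rfl | rfl
      · simpa using hs
      · simpa [hne.symm] using ht)
    refine ⟨C, fun x => ?_⟩
    have h1 := hC x
    rw [hcard, abs_le] at h1
    have h2 : (PP F x).filter (fun P => ∀ e ∈ ({b, b'} : Finset F[X]), jac e P =
        (fun e => if e = b then s else t) e) =
        (PP F x).filter (fun P => jac b P = s ∧ jac b' P = t) := by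
      apply Finset.filter_congr
      intro P _
      simp only [Finset.mem_insert, Finset.mem_singleton, forall_eq_or_imp, forall_eq, if_true,
        if_neg hne.symm]
    rw [h2] at h1
    have h3 : (2 : ℝ) ^ 2 = 4 := by norm_num
    rw [h3] at h1
    linarith [h1.1]
  obtain ⟨C1, h1⟩ := hcl 1 1 (Or.inl rfl) (Or.inl rfl)
  obtain ⟨C2, h2'⟩ := hcl 1 (-1) (Or.inl rfl) (Or.inr rfl)
  obtain ⟨C3, h3⟩ := hcl (-1) 1 (Or.inr rfl) (Or.inl rfl)
  refine ⟨C1 + C2 + C3 + ∑ P ∈ Fex, (P.natDegree : ℝ) / qq F ^ P.natDegree, fun x => ?_⟩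
  have g1 := h1 x
  have g2 := h2' x
  have g3 := h3 x
  have hnn : ∀ P : F[X], 0 ≤ (P.natDegree : ℝ) / qq F ^ P.natDegree := fun P => by positivity
  have hd1 : Disjoint ((PP F x).filter (fun P => jac b P = 1 ∧ jac b' P = 1))
      ((PP F x).filter (fun P => jac b P = 1 ∧ jac b' P = -1)) := by
    rw [Finset.disjoint_left]
    intro P hP hP'
    rw [Finset.mem_filter] at hP hP'
    have := hP.2.2.symm.trans hP'.2.2
    norm_num at this
  have hd2 : Disjoint (((PP F x).filter (fun P => jac b P = 1 ∧ jac b' P = 1)) ∪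
      ((PP F x).filter (fun P => jac b P = 1 ∧ jac b' P = -1)))
      ((PP F x).filter (fun P => jac b P = -1 ∧ jac b' P = 1)) := by
    rw [Finset.disjoint_left]
    intro P hP hP'
    rw [Finset.mem_union, Finset.mem_filter, Finset.mem_filter] at hP
    rw [Finset.mem_filter] at hP'
    have h4 : jac b P = 1 := by
      rcases hP with hP | hP
      · exact hP.2.1
      · exact hP.2.1
    have := h4.symm.trans hP'.2.1
    norm_num at this
  have hsub : (((PP F x).filter (fun P => jac b P = 1 ∧ jac b' P = 1)) ∪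
      ((PP F x).filter (fun P => jac b P = 1 ∧ jac b' P = -1))) ∪
      ((PP F x).filter (fun P => jac b P = -1 ∧ jac b' P = 1)) ⊆
      ((PP F x).filter (fun P => (jac b P = 1 ∨ jac b' P = 1) ∧ P ∉ Fex)) ∪ Fex := by
    intro P hP
    by_cases hpF : P ∈ Fex
    · exact Finset.mem_union_right _ hpF
    · apply Finset.mem_union_left
      rw [Finset.mem_union, Finset.mem_union, Finset.mem_filter, Finset.mem_filter,
        Finset.mem_filter] at hP
      rw [Finset.mem_filter]
      rcases hP with (hP | hP) | hP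
      · exact ⟨hP.1, Or.inl hP.2.1, hpF⟩
      · exact ⟨hP.1, Or.inl hP.2.1, hpF⟩
      · exact ⟨hP.1, Or.inr hP.2.2, hpF⟩
  have h5 := Finset.sum_le_sum_of_subset_of_nonneg
    (f := fun P : F[X] => (P.natDegree : ℝ) / qq F ^ P.natDegree) hsub (fun P _ _ => hnn P)
  rw [Finset.sum_union hd2, Finset.sum_union hd1] at h5
  have h6 : ∑ P ∈ ((PP F x).filter (fun P => (jac b P = 1 ∨ jac b' P = 1) ∧
      P ∉ Fex)) ∪ Fex, (P.natDegree : ℝ) / qq F ^ P.natDegree ≤
      ∑ P ∈ ((PP F x).filter (fun P => (jac b P = 1 ∨ jac b' P = 1) ∧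
      P ∉ Fex)), (P.natDegree : ℝ) / qq F ^ P.natDegree + ∑ P ∈ Fex, (P.natDegree : ℝ) / qq F ^ P.natDegree := by
    rw [← Finset.sum_union_inter]
    have : 0 ≤ ∑ P ∈ ((PP F x).filter (fun P => (jac b P = 1 ∨ jac b' P = 1) ∧
      P ∉ Fex)) ∩ Fex, (P.natDegree : ℝ) / qq F ^ P.natDegree := Finset.sum_nonneg fun P _ => hnn P
    linarith
  linarith

end FZ
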