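import Pool.Agent.Lib.MP_1ad228_nt.FF.FRel

/-! JOB FC7.  From `∑ deg P/q^(deg P) ≥ κ x - C` to `∑ 1/q^(deg P) ≥ κ log x - C'`.
(Model over `ℤ`, for the Abel summation: `sum_inv_lower` in `Pool/Agent/Lib/MP_1ad228_ntR/RC7.lean`.)

Let `A t = ∑_{P ∈ PP t, Ad P} deg P/q^(deg P)` and `B J = ∑_{P ∈ PP J, Ad P} 1/q^(deg P)`.  For natural `j ≥ 0`: `B (j+1) - B j ≥ (A (j+1) - A j)/(j+1)` (equality: the primes of degree exactly `j+1`).  So for natural `J ≥ 1`, by induction,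
`B J ≥ A J/J + ∑_{j=1}^{J-1} A j/(j (j+1))` (for `J = 1`: `B 1 = A 1`; step: `(A (J+1) - A J)/(J+1) + A J/J = A (J+1)/(J+1) + A J/(J (J+1))`).  With `A j ≥ κ j - C₁` (`C₁ = max C 0`), `A J ≥ 0`:
`B J ≥ ∑_{j=1}^{J-1} (κ/(j+1) - C₁/(j(j+1))) ≥ κ (log J - 1) - C₁` (`∑_{j=1}^{J} 1/j ≥ log J`: `Real.log_add_one_le_harmonic`/`log_add_one_le_harmonic`; `∑ 1/(j(j+1)) ≤ 1`).
The irreducible polynomials have degree `≥ 1` (`PP F 0 = ∅`). -/

namespace FZ

open Finset Polynomial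

variable {F : Type} [Field F] [Fintype F]

open Classical in
private theorem FC7_step (Ad : F[X] → Prop) (j : ℕ) :
    ∑ P ∈ (PP F j).filter Ad, 1 / qq F ^ P.natDegree +
      (∑ P ∈ (PP F (j + 1)).filter Ad, (P.natDegree : ℝ) / qq F ^ P.natDegree -
        ∑ P ∈ (PP F j).filter Ad, (P.natDegree : ℝ) / qq F ^ P.natDegree) / ((j : ℝ) + 1) ≤
    ∑ P ∈ (PP F (j + 1)).filter Ad, 1 / qq F ^ P.natDegree := by
  have hj : (0 : ℝ) < (j : ℝ) + 1 := by positivity
  have hq : 0 < qq F := by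
    have := two_le_qq F
    linarith
  have hsub : PP F j ⊆ PP F (j + 1) := by
    intro P hP
    rw [mem_PP] at hP ⊢
    exact ⟨hP.1, hP.2.1, by omega⟩
  have h1 : ∑ P ∈ (PP F j).filter Ad,
      (1 / qq F ^ P.natDegree - (P.natDegree : ℝ) / qq F ^ P.natDegree / ((j : ℝ) + 1)) ≤
      ∑ P ∈ (PP F (j + 1)).filter Ad,
      (1 / qq F ^ P.natDegree - (P.natDegree : ℝ) / qq F ^ P.natDegree / ((j : ℝ) + 1)) := by
    refine Finset.sum_le_sum_of_subset_of_nonneg (Finset.filter_subset_filter _ hsub)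
      fun P hP _ => ?_
    rw [Finset.mem_filter, mem_PP] at hP
    have hd : (P.natDegree : ℝ) ≤ (j : ℝ) + 1 := by exact_mod_cast hP.1.2.2
    have hqp : 0 < qq F ^ P.natDegree := pow_pos hq _
    rw [sub_nonneg, div_div, div_le_div_iff₀ (by positivity) hqp]
    have := mul_le_mul_of_nonneg_right hd hqp.le
    linarith
  rw [Finset.sum_sub_distrib, Finset.sum_sub_distrib, ← Finset.sum_div, ← Finset.sum_div] at h1
  rw [sub_div]
  linarith

open Classical in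
theorem sum_inv_lower (Ad : F[X] → Prop) (κ C : ℝ) (hκ : 0 < κ)
    (hP : ∀ x : ℕ, κ * x - C ≤ ∑ P ∈ (PP F x).filter Ad, (P.natDegree : ℝ) / qq F ^ P.natDegree) :
    ∃ C' : ℝ, ∀ J : ℕ, 1 ≤ J → κ * Real.log J - C' ≤ ∑ P ∈ (PP F J).filter Ad, 1 / qq F ^ P.natDegree := by
  have hq : 0 < qq F := by
    have := two_le_qq F
    linarith
  obtain ⟨A, hA⟩ : ∃ A : ℕ → ℝ, A = fun t : ℕ =>
      ∑ P ∈ (PP F t).filter Ad, (P.natDegree : ℝ) / qq F ^ P.natDegree := ⟨_, rfl⟩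
  obtain ⟨B, hB⟩ : ∃ B : ℕ → ℝ, B = fun t : ℕ =>
      ∑ P ∈ (PP F t).filter Ad, 1 / qq F ^ P.natDegree := ⟨_, rfl⟩
  have hstep : ∀ j : ℕ, B j + (A (j + 1) - A j) / ((j : ℝ) + 1) ≤ B (j + 1) := by
    intro j
    rw [hA, hB]
    exact FC7_step Ad j
  have hB0 : ∀ j, 0 ≤ B j := by
    intro j
    rw [hB]
    exact Finset.sum_nonneg fun P _ => by positivity
  have hA0 : ∀ j, 0 ≤ A j := by
    intro j
    rw [hA]
    exact Finset.sum_nonneg fun P _ => by positivity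
  have hA1 : ∀ j : ℕ, κ * j - |C| ≤ A j := by
    intro j
    have h1 := hP j
    have h3 := le_abs_self C
    have h4 : A j = ∑ P ∈ (PP F j).filter Ad, (P.natDegree : ℝ) / qq F ^ P.natDegree := by
      rw [hA]
    rw [h4]
    linarith
  have hmain : ∀ J : ℕ, 1 ≤ J → A J / J - A 1 + κ * (Real.log ((J : ℝ) + 1) - Real.log 2) -
      |C| * (1 - 1 / J) ≤ B J := by
    intro J hJ
    induction J, hJ using Nat.le_induction with
    | base =>
      have h1 := hB0 1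
      have h2 : ((1 : ℕ) : ℝ) + 1 = 2 := by norm_num
      rw [h2]
      simp only [Nat.cast_one, div_one, sub_self, mul_zero]
      linarith
    | succ J hJ ih =>
      have hJ1 : (1 : ℝ) ≤ J := by exact_mod_cast hJ
      have hJ0 : (0 : ℝ) < J := by linarith
      have h1 := hstep J
      have h2 := hA1 J
      have h3 : Real.log ((J : ℝ) + 1 + 1) - Real.log ((J : ℝ) + 1) ≤ 1 / ((J : ℝ) + 1) := by
        rw [← Real.log_div (by positivity) (by positivity)]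
        have h4 : ((J : ℝ) + 1 + 1) / ((J : ℝ) + 1) = 1 + 1 / ((J : ℝ) + 1) := by
          field_simp
        rw [h4]
        have h5 := Real.log_le_sub_one_of_pos (show (0 : ℝ) < 1 + 1 / ((J : ℝ) + 1) by positivity)
        linarith
      have h6 : κ * (1 / ((J : ℝ) + 1)) ≤ (A J + |C|) * (1 / (J * ((J : ℝ) + 1))) := by
        have h7 : κ * (1 / ((J : ℝ) + 1)) = (κ * J) * (1 / (J * ((J : ℝ) + 1))) := by
          field_simp
        rw [h7]
        exact mul_le_mul_of_nonneg_right (by linarith) (by positivity)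
      have h8 := mul_le_mul_of_nonneg_left h3 hκ.le
      have h9 : (1 : ℝ) / (J * ((J : ℝ) + 1)) = 1 / J - 1 / ((J : ℝ) + 1) := by
        field_simp
        ring
      rw [h9] at h6
      push_cast
      have e1 : (A (J + 1) - A J) / ((J : ℝ) + 1) = A (J + 1) / ((J : ℝ) + 1) -
          A J * (1 / ((J : ℝ) + 1)) := by ring
      have e2 : A J / J = A J * (1 / J) := by ring
      rw [e1] at h1
      rw [e2] at ih
      nlinarith [h1, ih, h6, h8]
  refine ⟨A 1 + κ * Real.log 2 + |C|, fun J hJ1 => ?_⟩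
  have h1 := hmain _ hJ1
  have hJ0 : (0 : ℝ) < (J : ℝ) := by exact_mod_cast hJ1
  have h2 : Real.log J ≤ Real.log ((J : ℝ) + 1) := Real.log_le_log hJ0 (by linarith)
  have h3 := mul_le_mul_of_nonneg_left h2 hκ.le
  have h4 : 0 ≤ A J / (J : ℝ) := div_nonneg (hA0 _) hJ0.le
  have h5 : |C| * (1 - 1 / (J : ℝ)) ≤ |C| := by
    refine mul_le_of_le_one_right (abs_nonneg _) ?_
    have : 0 ≤ 1 / (J : ℝ) := by positivity
    linarith
  have h6 : B J = ∑ P ∈ (PP F J).filter Ad, 1 / qq F ^ P.natDegree := by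
    rw [hB]
  rw [← h6]
  linarith

end FZ
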