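import Pool.Agent.Lib.MP_1ad228_nt.FF.FRel

/-! JOB FC9.  The generators `EE a ε = {C ε} ∪ {monic primes dividing Rb a}`, `ε` a non-square constant.
MODEL (over `ℤ`, complete proofs): `Pool/Agent/Lib/MP_1ad228_ntR/RC9.lean`.

* `EE_indep`: let `S ⊆ EE a ε` be nonempty and `N = ∏_{e ∈ S} e`.  If `S` contains a prime `P` then `N = P * N'` with `P ∤ N'` (the other elements are `C ε`, a unit, or monic primes different from `P`), so `N` is not a square
(`P ∣ N = c²` implies `P ∣ c`, `P² ∣ N`).  Otherwise `S = {C ε}`, and `C ε = g * g` gives `g = C d` (`natDegree`), `ε = d * d`.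
* `EE_pm`: if `m` is monic and coprime to `Rb a` and `e ∈ EE a ε` then `jac e m = 1` or `-1` (`jac_cases`, `jac_ne_zero_iff`; `e` is a unit or divides `Rb a`).
  `jac_pm`: the same for a polynomial `b ≠ 0` all of whose prime factors divide `Rb a` (`IsCoprime b m`: otherwise a common monic irreducible factor; `isCoprime_of_prime_dvd`-type lemma or `pfac`, induction).
* `jac_eq_of_EE`: if `m`, `n` are monic, coprime to `Rb a` and `jac e n = jac e m` for all `e ∈ EE a ε`, then `jac b n = jac b m` for every `b ≠ 0` all of whose prime factors divide `Rb a`: `b` is a constant times a product of monic primes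
(induction: `UniqueFactorizationMonoid.induction_on_prime`, or `WfDvdMonoid.induction_on_irreducible`), `jac_mul_left`; for a constant `c ≠ 0`: `jac (C c) n = χ(c)^(deg n)` (`jac_C`) is `1` for a square `c`, and for a non-square it is
`(-1)^(deg n) = jac (C ε) n`.  A prime factor of `b` is a constant times a monic prime, which divides `Rb a`, so is in `pfac (Rb a)` (`mem_pfac`).
* `dvd_Rb`: `a i` divides `Rb a` (by definition of `Rb`). -/

namespace FZ

open Finset Polynomial

variable {F : Type} [Field F] [Fintype F] [DecidableEq F] {ι : Type} [Fintype ι] [DecidableEq ι]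

omit [Fintype F] [DecidableEq F] in
private theorem FC9_ne (ε : F) (hε : ¬ IsSquare ε) : ε ≠ 0 := by
  rintro rfl
  exact hε ⟨0, by ring⟩

omit [Fintype F] [DecidableEq F] in
private theorem FC9_unit (ε : F) (hε : ε ≠ 0) : IsUnit (C ε : F[X]) :=
  isUnit_C.2 (isUnit_iff_ne_zero.2 hε)

omit [Fintype F] [DecidableEq F] in
private theorem FC9_mem (a : ι → F[X]) (ε : F) (e : F[X]) :
    e ∈ EE a ε ↔ e = C ε ∨ e ∈ pfac (Rb a) := by
  classical
  unfold EE
  rw [Finset.mem_insert]

omit [Fintype F] [DecidableEq F] in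
theorem EE_indep (a : ι → F[X]) (hR : Rb a ≠ 0) (ε : F) (hε : ¬ IsSquare ε) :
    ∀ S ⊆ EE a ε, S.Nonempty → ¬ IsSquare (∏ e ∈ S, e) := by
  classical
  intro S hS hne hsq
  have hu := FC9_unit ε (FC9_ne ε hε)
  by_cases hex : ∃ P ∈ S, Irreducible P
  · obtain ⟨P, hP, hPi⟩ := hex
    have hPp : Prime P := hPi.prime
    have hPm : P.Monic := by
      rcases (FC9_mem a ε P).1 (hS hP) with h | h
      · rw [h] at hPi
        exact absurd hu hPi.not_isUnit
      · exact monic_of_mem_pfac h
    rw [← mul_prod_erase S (fun e => e) hP] at hsq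
    obtain ⟨c, hc⟩ := hsq
    have h1 : P ∣ c := by
      have : P ∣ c * c := Dvd.intro _ hc
      rcases hPp.dvd_or_dvd this with h | h <;> exact h
    obtain ⟨d, hd⟩ := h1
    have h2 : P ∣ ∏ e ∈ S.erase P, e := by
      refine ⟨d * d, ?_⟩
      have h3 : P * ∏ e ∈ S.erase P, e = P * (P * (d * d)) := by
        rw [hc, hd]; ring
      exact mul_left_cancel₀ hPp.ne_zero h3
    obtain ⟨e, heS, he⟩ := hPp.exists_mem_finset_dvd h2
    rw [mem_erase] at heS
    rcases (FC9_mem a ε e).1 (hS heS.2) with h | h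
    · rw [h] at he
      exact hPp.not_unit (isUnit_of_dvd_unit he hu)
    · have hass : Associated P e := hPi.associated_of_dvd (irreducible_of_mem_pfac h) he
      exact heS.1 (eq_of_monic_of_associated hPm (monic_of_mem_pfac h) hass).symm
  · have hS1 : S = {C ε} := by
      have hsub : S ⊆ {C ε} := by
        intro e he
        rcases (FC9_mem a ε e).1 (hS he) with h | h
        · exact mem_singleton.2 h
        · exact absurd ⟨e, he, irreducible_of_mem_pfac h⟩ hex
      exact (Finset.Nonempty.subset_singleton_iff hne).1 hsub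
    rw [hS1, prod_singleton] at hsq
    obtain ⟨g, hg⟩ := hsq
    have hgu : IsUnit g := by
      rw [hg] at hu
      exact isUnit_of_mul_isUnit_left hu
    obtain ⟨d, _, hd⟩ := Polynomial.isUnit_iff.1 hgu
    apply hε
    refine ⟨d, ?_⟩
    rw [← hd, ← C_mul] at hg
    exact C_injective hg

theorem jac_pm (a : ι → F[X]) (b : F[X]) (hb : b ∣ Rb a) (m : F[X]) (hm' : m.Monic) (hm : IsCoprime m (Rb a)) :
    jac b m = 1 ∨ jac b m = -1 := by
  have h1 : IsCoprime b m := hm.symm.of_isCoprime_of_dvd_left hb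
  rcases jac_cases b m with h | h | h
  · exact absurd h ((jac_ne_zero_iff hm' b).2 h1)
  · exact Or.inl h
  · exact Or.inr h

omit [Fintype F] [DecidableEq F] in
private theorem FC9_dvd (a : ι → F[X]) (ε : F) (hε : ¬ IsSquare ε) (e : F[X]) (he : e ∈ EE a ε) : e ∣ Rb a := by
  rcases (FC9_mem a ε e).1 he with h | h
  · rw [h]
    exact (FC9_unit ε (FC9_ne ε hε)).dvd
  · exact dvd_of_mem_pfac h

theorem EE_pm (a : ι → F[X]) (hR : Rb a ≠ 0) (ε : F) (hε : ¬ IsSquare ε) (m : F[X]) (hm' : m.Monic)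
    (hm : IsCoprime m (Rb a)) (e : F[X]) (he : e ∈ EE a ε) : jac e m = 1 ∨ jac e m = -1 :=
  jac_pm a e (FC9_dvd a ε hε e he) m hm' hm

private theorem FC9_const (a : ι → F[X]) (ε : F) (hε : ¬ IsSquare ε) (m n : F[X]) (hm' : m.Monic)
    (hn' : n.Monic) (h : ∀ e ∈ EE a ε, jac e n = jac e m) (c : F) (hc : c ≠ 0) :
    jac (C c) n = jac (C c) m := by
  rw [jac_C hn', jac_C hm']
  by_cases hs : IsSquare c
  · rw [(quadraticChar_one_iff_isSquare hc).2 hs, one_pow, one_pow]
  · have h1 := h (C ε) ((FC9_mem a ε (C ε)).2 (Or.inl rfl))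
    rw [jac_C hn', jac_C hm', quadraticChar_neg_one_iff_not_isSquare.2 hε] at h1
    rw [quadraticChar_neg_one_iff_not_isSquare.2 hs]
    exact h1

theorem jac_eq_of_EE (a : ι → F[X]) (hR : Rb a ≠ 0) (ε : F) (hε : ¬ IsSquare ε) (m n : F[X]) (hm' : m.Monic)
    (hn' : n.Monic) (h : ∀ e ∈ EE a ε, jac e n = jac e m) (b : F[X]) (hb : b ∣ Rb a) :
    jac b n = jac b m := by
  revert hb
  refine UniqueFactorizationMonoid.induction_on_prime b ?_ ?_ ?_
  · intro h0
    exact absurd (zero_dvd_iff.1 h0) hR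
  · intro x hx _
    obtain ⟨c, hc, hcx⟩ := Polynomial.isUnit_iff.1 hx
    rw [← hcx]
    exact FC9_const a ε hε m n hm' hn' h c hc.ne_zero
  · intro x p hx hp ih hd
    have hpd : p ∣ Rb a := (dvd_mul_right p x).trans hd
    have hxd : x ∣ Rb a := (dvd_mul_left x p).trans hd
    have hlc : p.leadingCoeff ≠ 0 := leadingCoeff_ne_zero.2 hp.ne_zero
    have hlu : IsUnit (C (p.leadingCoeff)⁻¹ : F[X]) := FC9_unit _ (inv_ne_zero hlc)
    have hmon : (p * C (p.leadingCoeff)⁻¹).Monic := monic_mul_leadingCoeff_inv hp.ne_zero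
    have hirr : Irreducible (p * C (p.leadingCoeff)⁻¹) := (irreducible_mul_isUnit hlu).2 hp.irreducible
    have hdv : p * C (p.leadingCoeff)⁻¹ ∣ Rb a := hlu.mul_right_dvd.2 hpd
    have hmem : p * C (p.leadingCoeff)⁻¹ ∈ EE a ε :=
      (FC9_mem a ε _).2 (Or.inr ((mem_pfac hR).2 ⟨hmon, hirr, hdv⟩))
    have hp1 : jac p n = jac p m := by
      have e1 : p = (p * C (p.leadingCoeff)⁻¹) * C p.leadingCoeff := by
        rw [mul_assoc, ← C_mul, inv_mul_cancel₀ hlc, C_1, mul_one]
      rw [e1, jac_mul_left hn', jac_mul_left hm', h _ hmem,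
        FC9_const a ε hε m n hm' hn' h _ hlc]
    rw [jac_mul_left hn', jac_mul_left hm', hp1, ih hxd]

omit [Fintype F] [DecidableEq F] in
theorem dvd_Rb (a : ι → F[X]) (i : ι) : a i ∣ Rb a := by
  unfold Rb
  exact (dvd_prod_of_mem a (mem_univ i)).mul_right _

end FZ
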