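import Pool.Agent.Lib.MP_1ad228_nt.FF.FInner

/-! JOB FCase.  Vectors whose set of coordinates of degree `> t` is exactly `I`.  MODEL (over `ℕ`): `Pool/Agent/Lib/MP_1ad228_nt/ZCase.lean` (and `Pool/Agent/Lib/MP_1ad228_ntR/RCase.lean`).

`case_F`: let `f` be `e` with the entries in `I` replaced by `1`, `e'` be `e` with the entries off `I` replaced by `1` (`e = f * e'` pointwise); the entries of `f` have degree `≤ t`, total degree `s ≤ N t`, `N = card (OddSet ι)`;
`e' ∈ Box F _ (n - s)`.  Let `θ' U i = θ U i * ∏_{U' ∉ I, i ∈ U'} f U'`.  For `U ∈ I`, `P ∣ e U`: `P ∤ f U'` (`e ∈ Box`: pairwise coprime), so `P ∤ θ' U i`; for `|S ∩ U|` even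
`∏_{i∈S} θ' U i = ∏_{i∈S} θ U i · ∏_{U'∉I} f U' ^ |S ∩ U'| = ∏_{i∈S} θ U i · ∏_{U' ∉ I, |S∩U'| odd} f U' · (square prime to P)`, so `LocZ θ a e` gives the condition of `innerF` for `θ'` and `e'`.
Therefore the count is at most `∑_f (count of innerF with θ', n - s)`.  For each degree vector of `f` (at most `(t+1)^N`, with total `s`) there are `q^s` vectors `f` and the bound of `innerF` has the factor `q^(n-s)`; `n - s ≥ n/2` if `2 N t ≤ n` (`K ≥ 2N`, `K * t ≤ n`), so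
`(n-s)^(-1/2) ≤ 2 n^(-1/2)`, and `K₀ v ≤ t ≤ n/2 ≤ n - s` (`K ≥ K₀`, `K ≥ 2`), `n - s ≥ 1`.  `(v+1)^K₀ ≤ (t+1)^K₀` (if `K₀ ≥ 1`, `v ≤ t`; WLOG `K ≥ 1`).
Take `K = K₀ + 2N + 2`.

`case_empty` (all degrees `≤ t`, `n ≥ 1`): total degree `n ≤ N t`, but `K t ≤ n` with `K ≥ N + 1` and `n ≥ 1` is impossible unless `t = 0`, and then `n = 0`: so there is no such vector (`K * t ≤ n ≤ N * t` forces `t = 0`, `n = 0`), the count is `0`. -/

namespace FZ

open Finset Polynomial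

open ZC (OddSet)

section aux

variable {F : Type} [Field F] [Fintype F]

private lemma FCase_jac_pow [DecidableEq F] {n : F[X]} (hn : n.Monic) (a : F[X]) (k : ℕ) :
    jac (a ^ k) n = (jac a n) ^ k := by
  induction k with
  | zero => rw [pow_zero, pow_zero, jac_one_left hn]
  | succ k ih => rw [pow_succ, pow_succ, jac_mul_left hn, ih]

private lemma FCase_jac_sq [DecidableEq F] {P : F[X]} (hm : P.Monic) (hP : Irreducible P) {n : F[X]}
    (h : ¬ P ∣ n) : (jac n P) ^ 2 = 1 := by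
  rcases jac_cases n P with h1 | h1 | h1
  · exact absurd h1 ((jac_ne_zero_iff hm n).2 ((hP.coprime_iff_not_dvd).2 h).symm)
  · rw [h1]; norm_num
  · rw [h1]; norm_num

/-- freezing the small variables -/
private lemma FCase_freeze [DecidableEq F] {ι : Type} [Fintype ι] [DecidableEq ι]
    (I : Finset (OddSet ι)) [DecidablePred fun U => U ∈ I]
    (t : ι → F[X]) (e f e' : OddSet ι → F[X]) (S : Finset ι) {P : F[X]} (hm : P.Monic)
    (hP : Irreducible P) (hf : ∀ U ∉ I, f U = e U) (he' : ∀ U ∈ I, e' U = e U)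
    (hcop : ∀ U ∉ I, ¬ P ∣ e U) :
    jac ((∏ i ∈ S, (t i * ∏ U' : OddSet ι with U' ∉ I ∧ i ∈ U'.1, f U')) *
      ∏ U' ∈ I with Odd (S ∩ U'.1).card, e' U') P =
    jac ((∏ i ∈ S, t i) * ∏ U' : OddSet ι with Odd (S ∩ U'.1).card, e U') P := by
  rw [Finset.prod_mul_distrib]
  have h1 : ∏ i ∈ S, ∏ U' : OddSet ι with U' ∉ I ∧ i ∈ U'.1, f U' =
      ∏ U' : OddSet ι with U' ∉ I, e U' ^ (S ∩ U'.1).card := by
    have h2 : ∀ i ∈ S, ∏ U' : OddSet ι with U' ∉ I ∧ i ∈ U'.1, f U' =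
        ∏ U' : OddSet ι with U' ∉ I, if i ∈ U'.1 then e U' else 1 := by
      intro i _
      rw [← Finset.filter_filter, Finset.prod_filter]
      refine Finset.prod_congr rfl fun U hU => ?_
      rw [hf U (Finset.mem_filter.1 hU).2]
    rw [Finset.prod_congr rfl h2, Finset.prod_comm]
    refine Finset.prod_congr rfl fun U _ => ?_
    rw [← Finset.prod_filter, Finset.prod_const]
    congr 2
  have h3 : ∏ U' ∈ I with Odd (S ∩ U'.1).card, e' U' =
      ∏ U' ∈ I with Odd (S ∩ U'.1).card, e U' := by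
    refine Finset.prod_congr rfl fun U hU => ?_
    rw [he' U (Finset.mem_filter.1 hU).1]
  have h4 : ∏ U' : OddSet ι with Odd (S ∩ U'.1).card, e U' =
      (∏ U' ∈ I with Odd (S ∩ U'.1).card, e U') *
        ∏ U' : OddSet ι with U' ∉ I ∧ Odd (S ∩ U'.1).card, e U' := by
    rw [← Finset.prod_union]
    · refine Finset.prod_congr ?_ fun _ _ => rfl
      ext U
      simp only [Finset.mem_filter, Finset.mem_union, Finset.mem_univ, true_and]
      tauto
    · rw [Finset.disjoint_left]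
      intro U hU hU'
      simp only [Finset.mem_filter, Finset.mem_univ, true_and] at hU hU'
      exact hU'.1 hU.1
  rw [h1, h3, h4]
  have h5 : jac (∏ U' : OddSet ι with U' ∉ I, e U' ^ (S ∩ U'.1).card) P =
      jac (∏ U' : OddSet ι with U' ∉ I ∧ Odd (S ∩ U'.1).card, e U') P := by
    rw [jac_prod_left _ _ hm, jac_prod_left _ _ hm, ← Finset.filter_filter,
      Finset.prod_filter (s := Finset.filter _ _)]
    refine Finset.prod_congr rfl fun U hU => ?_
    have hU' : U ∉ I := (Finset.mem_filter.1 hU).2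
    have hsq1 : jac (e U) P ^ 2 = 1 := FCase_jac_sq hm hP (hcop U hU')
    rw [FCase_jac_pow hm]
    split_ifs with hodd
    · obtain ⟨k, hk⟩ := hodd
      rw [hk, pow_succ, pow_mul, hsq1, one_pow, one_mul]
    · obtain ⟨k, hk⟩ := Nat.not_odd_iff_even.1 hodd
      rw [hk, ← two_mul, pow_mul, hsq1, one_pow]
  rw [jac_mul_left hm, jac_mul_left hm, jac_mul_left hm, jac_mul_left hm, h5]
  ring

open Classical in
/-- the possible frozen vectors -/
private noncomputable def FCase_FS (F : Type) [Field F] [Fintype F] (κ : Type) [Fintype κ]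
    [DecidableEq κ] (t : ℕ) : Finset (κ → F[X]) :=
  Fintype.piFinset fun _ : κ => (range (t + 1)).biUnion (mon F)

private lemma FCase_mem_FS {κ : Type} [Fintype κ] [DecidableEq κ] {t : ℕ} {f : κ → F[X]} :
    f ∈ FCase_FS F κ t ↔ ∀ i, (f i).Monic ∧ (f i).natDegree ≤ t := by
  classical
  unfold FCase_FS
  rw [Fintype.mem_piFinset]
  refine forall_congr' fun i => ?_
  rw [Finset.mem_biUnion]
  constructor
  · rintro ⟨m, hm, h⟩
    rw [mem_mon] at h
    rw [Finset.mem_range] at hm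
    exact ⟨h.1, by omega⟩
  · rintro ⟨h1, h2⟩
    exact ⟨(f i).natDegree, Finset.mem_range.2 (by omega), (mem_mon F).2 ⟨h1, rfl⟩⟩

/-- the weighted number of frozen vectors -/
private lemma FCase_sum_FS {κ : Type} [Fintype κ] [DecidableEq κ] (t : ℕ) :
    ∑ f ∈ FCase_FS F κ t, ∏ i, ((Fintype.card F : ℝ) ^ (f i).natDegree)⁻¹ =
      ((t : ℝ) + 1) ^ Fintype.card κ := by
  classical
  have hq : (0 : ℝ) < Fintype.card F := by exact_mod_cast Fintype.card_pos
  unfold FCase_FS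
  rw [Finset.sum_prod_piFinset ((range (t + 1)).biUnion (mon F))
    (fun (_ : κ) (g : F[X]) => ((Fintype.card F : ℝ) ^ g.natDegree)⁻¹)]
  rw [Finset.prod_const, Finset.card_univ]
  congr 1
  rw [Finset.sum_biUnion]
  · have h1 : ∀ m ∈ range (t + 1), ∑ g ∈ mon F m, ((Fintype.card F : ℝ) ^ g.natDegree)⁻¹ = 1 := by
      intro m _
      have h2 : ∀ g ∈ mon F m, ((Fintype.card F : ℝ) ^ g.natDegree)⁻¹ =
          ((Fintype.card F : ℝ) ^ m)⁻¹ := by
        intro g hg
        rw [((mem_mon F).1 hg).2]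
      rw [Finset.sum_congr rfl h2, Finset.sum_const, card_mon, nsmul_eq_mul]
      push_cast
      exact mul_inv_cancel₀ (pow_pos hq m).ne'
    rw [Finset.sum_congr rfl h1, Finset.sum_const, Finset.card_range, nsmul_eq_mul, mul_one]
    push_cast
    rfl
  · intro m _ m' _ hne
    rw [Function.onFun, Finset.disjoint_left]
    intro g hg hg'
    exact hne (((mem_mon F).1 hg).2.symm.trans ((mem_mon F).1 hg').2)

private lemma FCase_rpow_le (a b : ℝ) (ha : 0 < a) (hab : a / 2 ≤ b) :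
    b ^ (-(1 / 2) : ℝ) ≤ 2 * a ^ (-(1 / 2) : ℝ) := by
  have hb : 0 < b := by linarith
  have h1 : b ^ (-(1 / 2) : ℝ) ≤ (a / 4) ^ (-(1 / 2) : ℝ) :=
    Real.rpow_le_rpow_of_nonpos (by linarith) (by linarith) (by norm_num)
  refine h1.trans ?_
  rw [Real.div_rpow ha.le (by norm_num), div_eq_mul_inv, mul_comm]
  refine mul_le_mul_of_nonneg_right ?_ (Real.rpow_nonneg ha.le _)
  rw [← Real.rpow_neg (by norm_num)]
  calc (4 : ℝ) ^ (-(-(1 / 2)) : ℝ) ≤ (4 : ℝ) ^ (1 / 2 : ℝ) :=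
        Real.rpow_le_rpow_of_exponent_le (by norm_num) (by norm_num)
    _ = 2 := by
        rw [← Real.sqrt_eq_rpow, show (4 : ℝ) = 2 ^ 2 by norm_num]
        exact Real.sqrt_sq (by norm_num)

end aux

open Classical in
theorem case_F (F : Type) [Field F] [Fintype F] [DecidableEq F] (h2 : ringChar F ≠ 2)
    {ι : Type} [Fintype ι] [DecidableEq ι] (θ : OddSet ι → ι → F[X]) (a : ι → F[X])
    (hsq : ∀ i, ¬ IsSquare (a i)) (I : Finset (OddSet ι)) (hI : I.Nonempty) :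
    ∃ (C : ℝ) (K : ℕ), 0 < C ∧ ∀ v t n : ℕ, 1 ≤ n → K * v ≤ t → K * t ≤ n →
    (((Box F (OddSet ι) n).filter fun e => (∀ U, t < (e U).natDegree ↔ U ∈ I) ∧ LocZ θ a e).card : ℝ) ≤
      C * (Fintype.card F : ℝ) ^ n * (((n : ℝ) + 1) ^ K * (Fintype.card F : ℝ) ^ (-(v : ℝ) / 4) +
        (n : ℝ) ^ (-(1 / 2) : ℝ)) * ((t : ℝ) + 1) ^ K := by
  obtain ⟨C₀, K₀, hC₀, hin⟩ := innerF F h2 I hI a hsq
  obtain ⟨N, hN⟩ : ∃ N, N = Fintype.card (OddSet ι) := ⟨_, rfl⟩
  refine ⟨2 * C₀, K₀ + 2 * N + 2, by positivity, ?_⟩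
  intro v t n hn hvt htn
  have hq : (0 : ℝ) < Fintype.card F := by exact_mod_cast Fintype.card_pos
  have hn0 : (0 : ℝ) < n := by exact_mod_cast hn
  obtain ⟨S, hS⟩ : ∃ S, S = (Box F (OddSet ι) n).filter fun e =>
    (∀ U, t < (e U).natDegree ↔ U ∈ I) ∧ LocZ θ a e := ⟨_, rfl⟩
  rw [← hS]
  obtain ⟨fo, hfo⟩ : ∃ fo : (OddSet ι → F[X]) → (OddSet ι → F[X]),
    fo = fun e i => if i ∈ I then 1 else e i := ⟨_, rfl⟩
  obtain ⟨eo, heo⟩ : ∃ eo : (OddSet ι → F[X]) → (OddSet ι → F[X]),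
    eo = fun e i => if i ∈ I then e i else 1 := ⟨_, rfl⟩
  have hmul : ∀ (e : OddSet ι → F[X]), ∏ i, e i = (∏ i, fo e i) * ∏ i, eo e i := by
    intro e
    rw [← Finset.prod_mul_distrib]
    refine Finset.prod_congr rfl fun i _ => ?_
    simp only [hfo, heo]
    split_ifs <;> simp
  have hdeg : ∀ (e : OddSet ι → F[X]), ∑ i, (e i).natDegree =
      (∑ i, (fo e i).natDegree) + ∑ i, (eo e i).natDegree := by
    intro e
    rw [← Finset.sum_add_distrib]
    refine Finset.sum_congr rfl fun i _ => ?_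
    simp only [hfo, heo]
    split_ifs <;> simp
  obtain ⟨R, hR⟩ : ∃ R : (OddSet ι → F[X]) → Finset (OddSet ι → F[X]),
    R = fun f => S.filter fun e => fo e = f := ⟨_, rfl⟩
  have hSmem : ∀ e ∈ S, (∀ i, (e i).Monic) ∧ ∑ i, (e i).natDegree = n ∧ Squarefree (∏ i, e i) ∧
      (∀ i, t < (e i).natDegree ↔ i ∈ I) ∧ LocZ θ a e := by
    intro e he
    rw [hS] at he
    obtain ⟨h1, h2, h3⟩ := Finset.mem_filter.1 he
    obtain ⟨h4, h5, h6⟩ := (mem_Box F).1 h1
    exact ⟨h4, h5, h6, h2, h3⟩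
  have hfoF : ∀ e ∈ S, fo e ∈ FCase_FS F (OddSet ι) t := by
    intro e he
    obtain ⟨h1, -, -, h6, -⟩ := hSmem e he
    rw [FCase_mem_FS]
    intro i
    simp only [hfo]
    split_ifs with hi
    · exact ⟨monic_one, by simp⟩
    · refine ⟨h1 i, ?_⟩
      by_contra h
      push Not at h
      exact hi ((h6 i).1 h)
  -- covering
  have hcover : S ⊆ (FCase_FS F (OddSet ι) t).biUnion R := by
    intro e he
    rw [Finset.mem_biUnion]
    refine ⟨fo e, hfoF e he, ?_⟩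
    rw [hR]
    exact Finset.mem_filter.2 ⟨he, rfl⟩
  -- the bound for one class
  obtain ⟨E, hE⟩ : ∃ E : ℝ, E = ((n : ℝ) + 1) ^ K₀ * (Fintype.card F : ℝ) ^ (-(v : ℝ) / 4) +
    2 * (n : ℝ) ^ (-(1 / 2) : ℝ) * ((t : ℝ) + 1) ^ K₀ := ⟨_, rfl⟩
  have hE0 : 0 ≤ E := by rw [hE]; positivity
  have hvt' : v ≤ t := by
    refine le_trans ?_ hvt
    exact Nat.le_mul_of_pos_left v (by omega)
  have hclass : ∀ f ∈ FCase_FS F (OddSet ι) t, ((R f).card : ℝ) ≤
      C₀ * (Fintype.card F : ℝ) ^ n * E * ∏ i, ((Fintype.card F : ℝ) ^ (f i).natDegree)⁻¹ := by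
    intro f hf
    rw [FCase_mem_FS] at hf
    obtain ⟨s, hs⟩ : ∃ s, s = ∑ i, (f i).natDegree := ⟨_, rfl⟩
    have hsN : s ≤ N * t := by
      rw [hs, hN]
      refine (Finset.sum_le_card_nsmul univ (fun i => (f i).natDegree) t
        fun i _ => (hf i).2).trans ?_
      rw [Finset.card_univ, smul_eq_mul]
    have hexp : (K₀ + 2 * N + 2) * t = K₀ * t + 2 * (N * t) + 2 * t := by ring
    have hKt : K₀ * t + 2 * (N * t) + 2 * t ≤ n := by rw [← hexp]; exact htn
    have hexp' : (K₀ + 2 * N + 2) * v = K₀ * v + 2 * (N * v) + 2 * v := by ring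
    have hKv : K₀ * v ≤ t := by
      have := hvt
      rw [hexp'] at this
      omega
    have hsn : 2 * s + 2 * t ≤ n := by
      have h3 : 0 ≤ K₀ * t := Nat.zero_le _
      omega
    have hb := hin (fun U i => θ U i * ∏ U' : OddSet ι with U' ∉ I ∧ i ∈ U'.1, f U') v t (n - s)
      hKv (by omega) (by omega)
    have hcard : (R f).card ≤ ((Box F (OddSet ι) (n - s)).filter fun e =>
        (∀ U ∉ I, e U = 1) ∧ (∀ U ∈ I, t < (e U).natDegree) ∧
        (∀ U ∈ I, ∀ P : F[X], P.Monic → Irreducible P → P ∣ e U →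
          (∀ i, ¬ P ∣ (fun U i => θ U i * ∏ U' : OddSet ι with U' ∉ I ∧ i ∈ U'.1,
            f U') U i) ∧ (∀ k ∈ U.1, jac (a k) P = 1) ∧
          ∀ S : Finset ι, Even (S ∩ U.1).card →
            jac ((∏ i ∈ S, (fun U i => θ U i * ∏ U' : OddSet ι with U' ∉ I ∧ i ∈ U'.1,
            f U') U i) * ∏ U' ∈ I with Odd (S ∩ U'.1).card, e U') P = 1)).card := by
      refine Finset.card_le_card_of_injOn eo ?_ ?_
      · intro e he
        simp only [hR] at he
        obtain ⟨heS, hfe⟩ := Finset.mem_filter.1 (Finset.mem_coe.1 he)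
        obtain ⟨h1, h2, h3, h6, h7⟩ := hSmem e heS
        have hdvd : ∏ i, eo e i ∣ ∏ i, e i := by
          rw [hmul e]
          exact Dvd.intro_left _ rfl
        have heo1 : ∀ i, (eo e i).Monic := by
          intro i
          simp only [heo]
          split_ifs
          · exact h1 i
          · exact monic_one
        have hle : ∑ i, (eo e i).natDegree = n - s := by
          have h8 := hdeg e
          rw [h2, hfe, ← hs] at h8
          omega
        have hfe' : ∀ U ∉ I, f U = e U := by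
          intro U hU
          rw [← hfe]
          simp [hfo, hU]
        have hee' : ∀ U ∈ I, eo e U = e U := by
          intro U hU
          simp [heo, hU]
        refine Finset.mem_coe.2 (Finset.mem_filter.2 ⟨(mem_Box F).2 ⟨heo1, hle, ?_⟩, ?_, ?_, ?_⟩)
        · exact h3.squarefree_of_dvd hdvd
        · intro i hi
          simp [heo, hi]
        · intro i hi
          simp only [heo, if_pos hi]
          exact (h6 i).2 hi
        · intro U hU P hPm hPi hpe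
          rw [hee' U hU] at hpe
          obtain ⟨h8, h9, h10⟩ := h7 U P hPm hPi hpe
          -- `P` does not divide the other entries
          have hnd : ∀ U', U' ≠ U → ¬ P ∣ e U' := by
            intro U' hne hd
            have h11 : P * P ∣ ∏ i, e i := by
              rw [← Finset.mul_prod_erase _ _ (Finset.mem_univ U),
                ← Finset.mul_prod_erase _ _ (Finset.mem_erase.2 ⟨hne, Finset.mem_univ U'⟩)]
              exact mul_dvd_mul hpe (Dvd.dvd.mul_right hd _)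
            exact hPi.not_isUnit (h3 P h11)
          have hcop : ∀ U' ∉ I, ¬ P ∣ e U' := fun U' hU' =>
            hnd U' (fun h => hU' (h ▸ hU))
          refine ⟨?_, h9, ?_⟩
          · intro i hd
            rcases hPi.prime.dvd_or_dvd hd with hd | hd
            · exact h8 i hd
            · obtain ⟨U', hU', hd'⟩ := (hPi.prime.dvd_finsetProd_iff _).1 hd
              have hU'I : U' ∉ I := (Finset.mem_filter.1 hU').2.1
              rw [hfe' U' hU'I] at hd'
              exact hcop U' hU'I hd'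
          · intro T hT
            have h12 := FCase_freeze I (θ U) e f (eo e) T hPm hPi hfe' hee' hcop
            refine Eq.trans ?_ (h12.trans (h10 T hT))
            rfl
      · intro e he e' he' hee
        simp only [hR] at he he'
        obtain ⟨-, hfe⟩ := Finset.mem_filter.1 (Finset.mem_coe.1 he)
        obtain ⟨-, hfe'⟩ := Finset.mem_filter.1 (Finset.mem_coe.1 he')
        funext i
        by_cases hi : i ∈ I
        · have := congrFun hee i
          simpa [heo, hi] using this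
        · have := congrFun (hfe.trans hfe'.symm) i
          simpa [hfo, hi] using this
    have hcard' := (Nat.cast_le (α := ℝ).2 hcard).trans hb
    refine hcard'.trans ?_
    have hpow : (Fintype.card F : ℝ) ^ (n - s) =
        (Fintype.card F : ℝ) ^ n * ∏ i, ((Fintype.card F : ℝ) ^ (f i).natDegree)⁻¹ := by
      rw [Finset.prod_inv_distrib, Finset.prod_pow_eq_pow_sum, ← hs]
      have : (Fintype.card F : ℝ) ^ n = (Fintype.card F : ℝ) ^ (n - s) * (Fintype.card F : ℝ) ^ s := by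
        rw [← pow_add]
        congr 1
        omega
      rw [this, mul_assoc, mul_inv_cancel₀ (pow_pos hq s).ne', mul_one]
    have hns : ((n - s : ℕ) : ℝ) ≤ n := by
      have : n - s ≤ n := Nat.sub_le _ _
      exact_mod_cast this
    have hns2 : (n : ℝ) / 2 ≤ ((n - s : ℕ) : ℝ) := by
      have h3 : n ≤ 2 * (n - s) := by omega
      have h4 : (n : ℝ) ≤ 2 * ((n - s : ℕ) : ℝ) := by exact_mod_cast h3
      linarith
    have hvt'' : (v : ℝ) ≤ t := by exact_mod_cast hvt'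
    have hterm : (((n - s : ℕ) : ℝ) + 1) ^ K₀ * (Fintype.card F : ℝ) ^ (-(v : ℝ) / 4) +
        ((n - s : ℕ) : ℝ) ^ (-(1 / 2) : ℝ) * ((v : ℝ) + 1) ^ K₀ ≤ E := by
      rw [hE]
      have h5 := FCase_rpow_le n ((n - s : ℕ) : ℝ) hn0 hns2
      have h6 : ((v : ℝ) + 1) ^ K₀ ≤ ((t : ℝ) + 1) ^ K₀ :=
        pow_le_pow_left₀ (by positivity) (by linarith) _
      have h7 : (((n - s : ℕ) : ℝ) + 1) ^ K₀ ≤ ((n : ℝ) + 1) ^ K₀ :=
        pow_le_pow_left₀ (by positivity) (by linarith) _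
      refine add_le_add ?_ ?_
      · exact mul_le_mul_of_nonneg_right h7 (by positivity)
      · exact mul_le_mul h5 h6 (by positivity) (by positivity)
    calc C₀ * (Fintype.card F : ℝ) ^ (n - s) * ((((n - s : ℕ) : ℝ) + 1) ^ K₀ *
          (Fintype.card F : ℝ) ^ (-(v : ℝ) / 4) +
        ((n - s : ℕ) : ℝ) ^ (-(1 / 2) : ℝ) * ((v : ℝ) + 1) ^ K₀) ≤
          C₀ * (Fintype.card F : ℝ) ^ (n - s) * E :=
          mul_le_mul_of_nonneg_left hterm (by positivity)
      _ = _ := by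
          rw [hpow]
          ring
  -- summation
  have hfin : (S.card : ℝ) ≤ C₀ * (Fintype.card F : ℝ) ^ n * E * ((t : ℝ) + 1) ^ N := by
    have h1 : S.card ≤ ∑ f ∈ FCase_FS F (OddSet ι) t, (R f).card :=
      (Finset.card_le_card hcover).trans Finset.card_biUnion_le
    calc (S.card : ℝ) ≤ ((∑ f ∈ FCase_FS F (OddSet ι) t, (R f).card : ℕ) : ℝ) := by
          exact_mod_cast h1
      _ = ∑ f ∈ FCase_FS F (OddSet ι) t, ((R f).card : ℝ) := by push_cast; rfl
      _ ≤ ∑ f ∈ FCase_FS F (OddSet ι) t, C₀ * (Fintype.card F : ℝ) ^ n * E *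
          ∏ i, ((Fintype.card F : ℝ) ^ (f i).natDegree)⁻¹ :=
          Finset.sum_le_sum fun f hf => hclass f hf
      _ = C₀ * (Fintype.card F : ℝ) ^ n * E * ((t : ℝ) + 1) ^ N := by
          rw [← Finset.mul_sum, FCase_sum_FS, ← hN]
  refine hfin.trans ?_
  have hG : E * ((t : ℝ) + 1) ^ N ≤ 2 * (((n : ℝ) + 1) ^ (K₀ + 2 * N + 2) *
      (Fintype.card F : ℝ) ^ (-(v : ℝ) / 4) + (n : ℝ) ^ (-(1 / 2) : ℝ)) *
      ((t : ℝ) + 1) ^ (K₀ + 2 * N + 2) := by
    have h0t : (1 : ℝ) ≤ (t : ℝ) + 1 := by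
      have : (0 : ℝ) ≤ t := Nat.cast_nonneg t
      linarith
    have h0n : (1 : ℝ) ≤ (n : ℝ) + 1 := by linarith
    have h1 : ((n : ℝ) + 1) ^ K₀ ≤ ((n : ℝ) + 1) ^ (K₀ + 2 * N + 2) :=
      pow_le_pow_right₀ h0n (by omega)
    have h2 : ((t : ℝ) + 1) ^ N ≤ ((t : ℝ) + 1) ^ (K₀ + 2 * N + 2) :=
      pow_le_pow_right₀ h0t (by omega)
    have h3 : ((t : ℝ) + 1) ^ K₀ * ((t : ℝ) + 1) ^ N ≤ ((t : ℝ) + 1) ^ (K₀ + 2 * N + 2) := by
      rw [← pow_add]
      exact pow_le_pow_right₀ h0t (by omega)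
    have hqv : 0 ≤ (Fintype.card F : ℝ) ^ (-(v : ℝ) / 4) := Real.rpow_nonneg hq.le _
    have hnr : 0 ≤ (n : ℝ) ^ (-(1 / 2) : ℝ) := Real.rpow_nonneg hn0.le _
    have h4 : ((n : ℝ) + 1) ^ K₀ * (Fintype.card F : ℝ) ^ (-(v : ℝ) / 4) * ((t : ℝ) + 1) ^ N ≤
        ((n : ℝ) + 1) ^ (K₀ + 2 * N + 2) * (Fintype.card F : ℝ) ^ (-(v : ℝ) / 4) *
          ((t : ℝ) + 1) ^ (K₀ + 2 * N + 2) := by
      refine mul_le_mul (mul_le_mul_of_nonneg_right h1 hqv) h2 (by positivity) (by positivity)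
    have h5 : 2 * (n : ℝ) ^ (-(1 / 2) : ℝ) * (((t : ℝ) + 1) ^ K₀ * ((t : ℝ) + 1) ^ N) ≤
        2 * (n : ℝ) ^ (-(1 / 2) : ℝ) * ((t : ℝ) + 1) ^ (K₀ + 2 * N + 2) :=
      mul_le_mul_of_nonneg_left h3 (by positivity)
    have h6 : 0 ≤ ((n : ℝ) + 1) ^ (K₀ + 2 * N + 2) * (Fintype.card F : ℝ) ^ (-(v : ℝ) / 4) *
        ((t : ℝ) + 1) ^ (K₀ + 2 * N + 2) := by positivity
    rw [hE]
    calc _ = ((n : ℝ) + 1) ^ K₀ * (Fintype.card F : ℝ) ^ (-(v : ℝ) / 4) * ((t : ℝ) + 1) ^ N +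
          2 * (n : ℝ) ^ (-(1 / 2) : ℝ) * (((t : ℝ) + 1) ^ K₀ * ((t : ℝ) + 1) ^ N) := by ring
      _ ≤ ((n : ℝ) + 1) ^ (K₀ + 2 * N + 2) * (Fintype.card F : ℝ) ^ (-(v : ℝ) / 4) *
          ((t : ℝ) + 1) ^ (K₀ + 2 * N + 2) +
          2 * (n : ℝ) ^ (-(1 / 2) : ℝ) * ((t : ℝ) + 1) ^ (K₀ + 2 * N + 2) := add_le_add h4 h5
      _ ≤ _ := by linarith
  calc C₀ * (Fintype.card F : ℝ) ^ n * E * ((t : ℝ) + 1) ^ N =
        C₀ * (Fintype.card F : ℝ) ^ n * (E * ((t : ℝ) + 1) ^ N) := by ring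
    _ ≤ C₀ * (Fintype.card F : ℝ) ^ n * (2 * (((n : ℝ) + 1) ^ (K₀ + 2 * N + 2) *
      (Fintype.card F : ℝ) ^ (-(v : ℝ) / 4) + (n : ℝ) ^ (-(1 / 2) : ℝ)) *
      ((t : ℝ) + 1) ^ (K₀ + 2 * N + 2)) := mul_le_mul_of_nonneg_left hG (by positivity)
    _ = _ := by ring

open Classical in
theorem case_empty (F : Type) [Field F] [Fintype F] {ι : Type} [Fintype ι] [DecidableEq ι] :
    ∃ K : ℕ, ∀ t n : ℕ, 1 ≤ n → K * t ≤ n →
      ((Box F (OddSet ι) n).filter fun e => ∀ U, ¬ t < (e U).natDegree) = ∅ := by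
  refine ⟨Fintype.card (OddSet ι) + 1, fun t n hn hK => ?_⟩
  rw [Finset.filter_eq_empty_iff]
  intro e he hall
  obtain ⟨-, h5, -⟩ := (mem_Box F).1 he
  have h1 : ∑ i, (e i).natDegree ≤ Fintype.card (OddSet ι) * t := by
    refine (Finset.sum_le_card_nsmul univ (fun i => (e i).natDegree) t
      fun i _ => not_lt.1 (hall i)).trans ?_
    rw [Finset.card_univ, smul_eq_mul]
  rw [h5] at h1
  have h2 : (Fintype.card (OddSet ι) + 1) * t = Fintype.card (OddSet ι) * t + t := by ring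
  rw [h2] at hK
  have h3 : t = 0 := by omega
  subst h3
  simp only [Nat.mul_zero] at h1
  omega

end FZ
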