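import Pool.Agent.Lib.MP_1ad228_nt.FF.FSum

/-! JOB FCharB.  The character `f ↦ (b/f)` on monic polynomials, for a non-square `b ∈ F[t]`.

`charB_jac`, proof.  `b ≠ 0`; `b = c b'` with `c` constant, `b'` monic of degree `d = deg b`.  `A m = ∑_{f ∈ mon m} jac b f`.  For `f` monic of degree `m`:
`jac b f = χ(c)^m jac b' f = χ(c)^m χ(-1)^(m d) jac f b'` (`jac_mul_left`, `jac_C`, `jac_recip`).
(1) `b'` not a square: `A m = 0` for `m ≥ d` (`sum_jac`), and `|A m| ≤ q^m` always (`card_mon`), so the sum is `≤ ∑_{m<d} x^m ≤ d`.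
(2) `b'` a square: then `d` is even, `χ(c) = -1` (`c ≠ 0` is not a square, since `b` is not one), `jac f b' = 1` if `f` is coprime to `b'` and `0` otherwise (`jac f (g²) = (jac f g)²`), so `A m = (-1)^m N m`, `0 ≤ N m ≤ q^m`, and for `m ≥ d`
`N m = φ q^m` with `φ = N d / q^d ∈ [0,1]` (`sum_mod`).  So the sum is `≤ ∑_{m<d} x^m + φ ∑_{d ≤ m < M} (-1)^m x^m ≤ d + 1`: partial sums of the alternating series with decreasing terms `x^m` starting at `m = d`, `d` even, are in `[0, x^d]`. -/

namespace FZ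

open Finset Polynomial

variable {F : Type} [Field F] [Fintype F]

/-- a completely multiplicative real function on the monic polynomials with values in `[-1,1]` whose generating series
is at most `B` (for `0 ≤ x < 1`; `x = q^(1-σ)`) -/
structure CharB (χ : F[X] → ℝ) (B : ℝ) : Prop where
  one : χ 1 = 1
  mul : ∀ f g, f.Monic → g.Monic → χ (f * g) = χ f * χ g
  le : ∀ f, |χ f| ≤ 1
  hB : 1 ≤ B
  bound : ∀ x : ℝ, 0 ≤ x → x < 1 → ∀ M : ℕ,
    ∑ m ∈ range M, (∑ f ∈ mon F m, χ f) * (x / (Fintype.card F : ℝ)) ^ m ≤ B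

private theorem charB_alt (x : ℝ) (h0 : 0 ≤ x) (h1 : x < 1) (k : ℕ) :
    0 ≤ ∑ j ∈ range k, (-x) ^ j ∧ ∑ j ∈ range k, (-x) ^ j ≤ 1 := by
  induction k with
  | zero => simp
  | succ k ih =>
    rw [Finset.sum_range_succ']
    have h : ∑ j ∈ range k, (-x) ^ (j + 1) = -(x * ∑ j ∈ range k, (-x) ^ j) := by
      rw [Finset.mul_sum, ← Finset.sum_neg_distrib]
      apply Finset.sum_congr rfl
      intro j _
      ring
    rw [h, pow_zero]
    obtain ⟨ha, hb⟩ := ih
    have h2 : x * ∑ j ∈ range k, (-x) ^ j ≤ x * 1 := mul_le_mul_of_nonneg_left hb h0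
    have h3 : 0 ≤ x * ∑ j ∈ range k, (-x) ^ j := mul_nonneg h0 ha
    constructor <;> linarith

private theorem charB_term (a q x : ℝ) (hq : 0 < q) (m : ℕ) (ha : |a| ≤ q ^ m) (h0 : 0 ≤ x)
    (h1 : x < 1) : a * (x / q) ^ m ≤ 1 := by
  have h2 : 0 ≤ (x / q) ^ m := pow_nonneg (div_nonneg h0 hq.le) m
  calc a * (x / q) ^ m ≤ q ^ m * (x / q) ^ m :=
        mul_le_mul_of_nonneg_right (le_trans (le_abs_self a) ha) h2
    _ = x ^ m := by
        rw [← mul_pow, mul_div_cancel₀ _ hq.ne']
    _ ≤ 1 := pow_le_one₀ h0 h1.le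

private theorem charB_bound (A : ℕ → ℝ) (q : ℝ) (hq : 0 < q) (d : ℕ) (hA : ∀ m, |A m| ≤ q ^ m)
    (x : ℝ) (h0 : 0 ≤ x) (h1 : x < 1)
    (hB : ∀ k, ∑ j ∈ range k, A (d + j) * (x / q) ^ (d + j) ≤ 1) (M : ℕ) :
    ∑ m ∈ range M, A m * (x / q) ^ m ≤ (d : ℝ) + 1 := by
  have hle : ∀ M : ℕ, ∑ m ∈ range M, A m * (x / q) ^ m ≤ (M : ℝ) := by
    intro M
    calc ∑ m ∈ range M, A m * (x / q) ^ m ≤ ∑ m ∈ range M, (1 : ℝ) :=
          Finset.sum_le_sum fun m _ => charB_term _ _ _ hq m (hA m) h0 h1
      _ = (M : ℝ) := by simp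
  rcases Nat.le_total M d with hM | hM
  · have h2 := hle M
    have h3 : (M : ℝ) ≤ d := by exact_mod_cast hM
    linarith
  · obtain ⟨k, rfl⟩ := Nat.exists_eq_add_of_le hM
    rw [Finset.sum_range_add]
    have h2 := hle d
    have h3 := hB k
    linarith

theorem charB_jac [DecidableEq F] (h2 : ringChar F ≠ 2) (b : F[X]) (hb : ¬ IsSquare b) :
    CharB (fun f => (jac b f : ℝ)) (b.natDegree + 1) := by
  have hb0 : b ≠ 0 := by
    rintro rfl
    exact hb ⟨0, by simp⟩
  set c : F := b.leadingCoeff with hc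
  have hc0 : c ≠ 0 := by
    rw [hc]
    exact leadingCoeff_ne_zero.2 hb0
  set b' : F[X] := C c⁻¹ * b with hb'
  have hbb : b = C c * b' := by
    rw [hb', ← mul_assoc, ← C_mul, mul_inv_cancel₀ hc0, C_1, one_mul]
  have hmon : b'.Monic := by
    rw [hb', Monic, leadingCoeff_mul, leadingCoeff_C, ← hc, inv_mul_cancel₀ hc0]
  have hdeg : b'.natDegree = b.natDegree := by
    rw [hb', natDegree_C_mul (inv_ne_zero hc0)]
  set d := b.natDegree with hd
  have hq : (0 : ℝ) < (Fintype.card F : ℝ) := by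
    exact_mod_cast Fintype.card_pos
  -- the value in terms of the reciprocal symbol
  have hval : ∀ m, ∀ f ∈ mon F m, (jac b f : ℝ) =
      ((quadraticChar F c : ℤ) : ℝ) ^ m * ((quadraticChar F (-1) : ℤ) : ℝ) ^ (d * m) * (jac f b' : ℝ) := by
    intro m f hf
    obtain ⟨h3, h4⟩ := (mem_mon F).1 hf
    have h5 : jac b f = (quadraticChar F c) ^ m * ((quadraticChar F (-1)) ^ (d * m) * jac f b') := by
      conv_lhs => rw [hbb]
      rw [jac_mul_left h3, jac_C h3, h4, jac_recip hmon h3, hdeg, h4]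
    rw [h5]
    push_cast
    ring
  have hA : ∀ m, |∑ f ∈ mon F m, (jac b f : ℝ)| ≤ (Fintype.card F : ℝ) ^ m := by
    intro m
    calc |∑ f ∈ mon F m, (jac b f : ℝ)| ≤ ∑ f ∈ mon F m, |(jac b f : ℝ)| :=
          Finset.abs_sum_le_sum_abs _ _
      _ ≤ ∑ f ∈ mon F m, (1 : ℝ) := Finset.sum_le_sum fun f _ => jac_abs_le b f
      _ = (Fintype.card F : ℝ) ^ m := by
          rw [Finset.sum_const, card_mon, nsmul_eq_mul, mul_one]
          push_cast
          rfl
  refine ⟨?_, ?_, ?_, ?_, ?_⟩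
  · simp only [jac_one_right, Int.cast_one]
  · intro f g hf hg
    simp only [jac_mul_right hf hg, Int.cast_mul]
  · intro f
    exact jac_abs_le b f
  · have : (0 : ℝ) ≤ (d : ℝ) := Nat.cast_nonneg _
    linarith
  · intro x hx0 hx1 M
    apply charB_bound (fun m => ∑ f ∈ mon F m, (jac b f : ℝ)) _ hq d hA x hx0 hx1
    by_cases hsq : IsSquare b'
    · -- `b'` is a square
      obtain ⟨g, hg⟩ := hsq
      have hg0 : g ≠ 0 := by
        rintro rfl
        rw [mul_zero] at hg
        exact hmon.ne_zero hg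
      have hlc : g.leadingCoeff * g.leadingCoeff = 1 := by
        rw [← leadingCoeff_mul, ← hg]
        exact hmon
      set g' : F[X] := C g.leadingCoeff * g with hg'
      have hgm : g'.Monic := by
        rw [hg', Monic, leadingCoeff_mul, leadingCoeff_C, hlc]
      have hgg : b' = g' * g' := by
        rw [hg', hg]
        calc g * g = C (g.leadingCoeff * g.leadingCoeff) * (g * g) := by rw [hlc, C_1, one_mul]
          _ = C g.leadingCoeff * g * (C g.leadingCoeff * g) := by rw [C_mul]; ring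
      have hdeven : Even d := by
        rw [← hdeg, hgg, natDegree_mul hgm.ne_zero hgm.ne_zero]
        exact ⟨g'.natDegree, rfl⟩
      have hchi : quadraticChar F c = -1 := by
        rcases quadraticChar_dichotomy hc0 with h | h
        · exfalso
          rw [quadraticChar_one_iff_isSquare hc0] at h
          obtain ⟨e, he⟩ := h
          apply hb
          refine ⟨C e * g', ?_⟩
          rw [hbb, he, C_mul, hgg]
          ring
        · exact h
      have hneg : ((quadraticChar F (-1) : ℤ) : ℝ) ^ 2 = 1 := by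
        have h3 : (quadraticChar F (-1)) ^ 2 = 1 :=
          quadraticChar_sq_one (neg_ne_zero.2 one_ne_zero)
        exact_mod_cast h3
      have hN0 : ∀ f : F[X], 0 ≤ (jac f b' : ℝ) := by
        intro f
        rw [hgg, jac_mul_right hgm hgm]
        push_cast
        exact mul_self_nonneg _
      have hSm : ∀ j, ∑ f ∈ mon F (d + j), (jac f b' : ℝ) =
          (Fintype.card F : ℝ) ^ j * ∑ f ∈ mon F d, (jac f b' : ℝ) := by
        intro j
        have h3 := sum_mod hmon (fun f => (jac f b' : ℝ))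
          (fun f g h => by rw [jac_mod hmon h]) (d + j) (by rw [hdeg]; omega)
        have h4 := sum_mod hmon (fun f => (jac f b' : ℝ))
          (fun f g h => by rw [jac_mod hmon h]) d (by rw [hdeg])
        rw [hdeg] at h3 h4
        have h5 : d + j - d = j := by omega
        rw [h5] at h3
        rw [Nat.sub_self, pow_zero, one_mul] at h4
        rw [h3, h4]
      set N : ℝ := ∑ f ∈ mon F d, (jac f b' : ℝ) with hN
      have hN1 : 0 ≤ N := Finset.sum_nonneg fun f _ => hN0 f
      have hN2 : N ≤ (Fintype.card F : ℝ) ^ d := by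
        calc N ≤ ∑ f ∈ mon F d, (1 : ℝ) := Finset.sum_le_sum fun f _ =>
              le_trans (le_abs_self _) (jac_abs_le f b')
          _ = (Fintype.card F : ℝ) ^ d := by
              rw [Finset.sum_const, card_mon, nsmul_eq_mul, mul_one]
              push_cast
              rfl
      intro k
      have hterm : ∀ j ∈ range k, (∑ f ∈ mon F (d + j), (jac b f : ℝ)) *
          (x / (Fintype.card F : ℝ)) ^ (d + j) =
          (N * (x / (Fintype.card F : ℝ)) ^ d) * (-x) ^ j := by
        intro j _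
        obtain ⟨e, he⟩ := hdeven
        have h3 : ∑ f ∈ mon F (d + j), (jac b f : ℝ) =
            (-1 : ℝ) ^ (d + j) * ((Fintype.card F : ℝ) ^ j * N) := by
          rw [← hSm j, Finset.mul_sum]
          apply Finset.sum_congr rfl
          intro f hf
          rw [hval _ f hf, hchi]
          have h4 : ((quadraticChar F (-1) : ℤ) : ℝ) ^ (d * (d + j)) = 1 := by
            have h5 : d * (d + j) = 2 * (e * (d + j)) := by
              rw [← mul_assoc, two_mul, ← he]
            rw [h5, pow_mul, hneg, one_pow]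
          rw [h4]
          push_cast
          ring
        have h6 : (-1 : ℝ) ^ (d + j) = (-1) ^ j := by
          rw [he, pow_add, pow_add, ← mul_pow]
          norm_num
        have h7 : (Fintype.card F : ℝ) ^ j * (x / (Fintype.card F : ℝ)) ^ j = x ^ j := by
          rw [← mul_pow, mul_div_cancel₀ _ hq.ne']
        rw [h3, h6, pow_add, neg_pow x j, ← h7]
        ring
      have hsum : ∑ j ∈ range k, (∑ f ∈ mon F (d + j), (jac b f : ℝ)) *
          (x / (Fintype.card F : ℝ)) ^ (d + j) =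
          (N * (x / (Fintype.card F : ℝ)) ^ d) * ∑ j ∈ range k, (-x) ^ j := by
        rw [Finset.sum_congr rfl hterm, Finset.mul_sum]
      show ∑ j ∈ range k, (∑ f ∈ mon F (d + j), (jac b f : ℝ)) *
          (x / (Fintype.card F : ℝ)) ^ (d + j) ≤ 1
      rw [hsum]
      obtain ⟨h8, h9⟩ := charB_alt x hx0 hx1 k
      have h10 : N * (x / (Fintype.card F : ℝ)) ^ d ≤ 1 :=
        charB_term _ _ _ hq d (by rw [abs_of_nonneg hN1]; exact hN2) hx0 hx1
      have h11 : 0 ≤ N * (x / (Fintype.card F : ℝ)) ^ d :=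
        mul_nonneg hN1 (pow_nonneg (div_nonneg hx0 hq.le) d)
      calc (N * (x / (Fintype.card F : ℝ)) ^ d) * ∑ j ∈ range k, (-x) ^ j ≤ 1 * 1 :=
            mul_le_mul h10 h9 h8 zero_le_one
        _ = 1 := one_mul 1
    · -- `b'` is not a square
      intro k
      have hz : ∀ j ∈ range k, (∑ f ∈ mon F (d + j), (jac b f : ℝ)) *
          (x / (Fintype.card F : ℝ)) ^ (d + j) = 0 := by
        intro j _
        have h3 : ∑ f ∈ mon F (d + j), (jac b f : ℝ) = 0 := by
          rw [Finset.sum_congr rfl (fun f hf => hval (d + j) f hf), ← Finset.mul_sum,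
            sum_jac h2 hmon hsq (d + j) (by rw [hdeg]; omega), mul_zero]
        rw [h3, zero_mul]
      show ∑ j ∈ range k, (∑ f ∈ mon F (d + j), (jac b f : ℝ)) *
          (x / (Fintype.card F : ℝ)) ^ (d + j) ≤ 1
      rw [Finset.sum_eq_zero hz]
      exact zero_le_one

end FZ
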