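import Mathlib

/-! JOB FChoose.  Elementary analysis: the choice of `v ≈ n^δ`.  (Compare `Pool/Agent/Lib/MP_10e784_ag/QChooseV.lean`.)

Proof.  Let `ε = 1/2 - η > 0`, `δ = min (ε/(K+1)) (1/2)`... take `v = ⌊n^δ⌋` with `0 < δ`, `K δ ≤ ε` and `δ ≤ 1/2`.
* `K * (K * v) ≤ K² n^(1/2) ≤ n` for `n ≥ K^4`.
* `(K v + 1)^K ≤ ((K+1) n^δ)^K = (K+1)^K n^(Kδ) ≤ (K+1)^K n^ε` for `n ≥ 1`, so `n^(-1/2) (K v + 1)^K ≤ (K+1)^K n^(-η)`.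
* `(n+1)^K q^(-v/4) (K v + 1)^K ≤ (2n)^K ((K+1) n)^K 2^(-(n^δ - 1)/4)` (`q ≥ 2`), and `n^A 2^(-n^δ/4)` tends to `0` for every `A` (exponential beats powers: `isLittleO_pow_exp_pos_mul_atTop`,
  `Real.add_one_le_exp`..., or `exp(y) ≥ y^j / j!` with `y = n^δ log 2 /4` and `j δ ≥ A`), so it is `≤ C n^(-η)` (apply it with `A = 2K + 1`, `η < 1`). -/

namespace FZ

private theorem FChoose_exp (b s d : ℝ) (hb : 0 < b) (hd : 0 < d) :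
    ∃ N : ℕ, ∀ n : ℕ, N ≤ n → (n : ℝ) ^ (s * d) * Real.exp (-b * (n : ℝ) ^ d) ≤ 1 := by
  have h1 := tendsto_rpow_mul_exp_neg_mul_atTop_nhds_zero s b hb
  have h2 : Filter.Tendsto (fun n : ℕ => (n : ℝ) ^ d) Filter.atTop Filter.atTop :=
    (tendsto_rpow_atTop hd).comp tendsto_natCast_atTop_atTop
  have h3 := (h1.comp h2).eventually (gt_mem_nhds (show (0 : ℝ) < 1 by norm_num))
  obtain ⟨N, hN⟩ := Filter.eventually_atTop.1 h3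
  refine ⟨N, fun n hn => ?_⟩
  have h4 := (hN n hn).le
  simp only [Function.comp] at h4
  rwa [← Real.rpow_mul (Nat.cast_nonneg n), mul_comm d s] at h4

theorem choose_v (η : ℝ) (hη0 : 0 ≤ η) (hη : η < 1 / 2) (K : ℕ) :
    ∃ (C : ℝ) (N0 : ℕ), 0 < C ∧ ∀ (q : ℝ), 2 ≤ q → ∀ n : ℕ, N0 ≤ n → ∃ v : ℕ, K * (K * v) ≤ n ∧
    ((n : ℝ) + 1) ^ K * q ^ (-(v : ℝ) / 4) * (((K * v : ℕ) : ℝ) + 1) ^ K ≤ C * (n : ℝ) ^ (-η) ∧
    (n : ℝ) ^ (-(1 / 2) : ℝ) * (((K * v : ℕ) : ℝ) + 1) ^ K ≤ C * (n : ℝ) ^ (-η) := by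
  obtain ⟨e, he⟩ : ∃ e : ℝ, e = 1 / 2 - η := ⟨_, rfl⟩
  have he0 : 0 < e := by linarith
  have he1 : e ≤ 1 / 2 := by linarith
  obtain ⟨d, hd⟩ : ∃ d : ℝ, d = e / (K + 1) := ⟨_, rfl⟩
  have hK0 : (0 : ℝ) ≤ K := Nat.cast_nonneg K
  have hd0 : 0 < d := by rw [hd]; positivity
  have hde : d ≤ e := by
    rw [hd]; exact div_le_self he0.le (by linarith)
  have hd2 : d ≤ 1 / 2 := by linarith
  have hdK : d * K ≤ e := by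
    rw [hd, div_mul_eq_mul_div, div_le_iff₀ (by positivity)]
    nlinarith
  obtain ⟨N1, hN1⟩ := FChoose_exp (Real.log 2 / 4) ((K + 2) / d) d
    (by have := Real.log_pos (by norm_num : (1 : ℝ) < 2); positivity) hd0
  refine ⟨2 ^ (K + 1) * (K + 1) ^ K, N1 + K ^ 4 + 1, by positivity, ?_⟩
  intro q hq n hn
  have hn1 : (1 : ℝ) ≤ n := by
    have : 1 ≤ n := by omega
    exact_mod_cast this
  have hn0 : (0 : ℝ) < n := by linarith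
  have hnK : ((K : ℝ) ^ 2) ^ 2 ≤ n := by
    have : K ^ 4 ≤ n := by omega
    have h2 : ((K : ℝ)) ^ 4 ≤ n := by exact_mod_cast this
    have h3 : ((K : ℝ) ^ 2) ^ 2 = (K : ℝ) ^ 4 := by ring
    rw [h3]; exact h2
  have hx1 : (1 : ℝ) ≤ (n : ℝ) ^ d := Real.one_le_rpow hn1 hd0.le
  refine ⟨⌊(n : ℝ) ^ d⌋₊, ?_, ?_, ?_⟩
  · have h1 : (⌊(n : ℝ) ^ d⌋₊ : ℝ) ≤ (n : ℝ) ^ d := Nat.floor_le (by linarith)
    have h2 : (n : ℝ) ^ d ≤ (n : ℝ) ^ (1 / 2 : ℝ) := Real.rpow_le_rpow_of_exponent_le hn1 hd2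
    have h3 : (K : ℝ) ^ 2 ≤ (n : ℝ) ^ (1 / 2 : ℝ) := by
      rw [← Real.sqrt_eq_rpow]
      exact Real.le_sqrt_of_sq_le hnK
    have h4 : (n : ℝ) ^ (1 / 2 : ℝ) * (n : ℝ) ^ (1 / 2 : ℝ) = n := by
      rw [← Real.rpow_add hn0]; norm_num
    have h5 : ((K * (K * ⌊(n : ℝ) ^ d⌋₊) : ℕ) : ℝ) ≤ n := by
      push_cast
      calc (K : ℝ) * (K * (⌊(n : ℝ) ^ d⌋₊ : ℝ)) = (K : ℝ) ^ 2 * (⌊(n : ℝ) ^ d⌋₊ : ℝ) := by ring
        _ ≤ (n : ℝ) ^ (1 / 2 : ℝ) * (n : ℝ) ^ (1 / 2 : ℝ) := by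
          gcongr
          exact h1.trans h2
        _ = n := h4
    exact_mod_cast h5
  · have hv : (n : ℝ) ^ d - 1 ≤ (⌊(n : ℝ) ^ d⌋₊ : ℝ) := (Nat.sub_one_lt_floor _).le
    have hv' : (⌊(n : ℝ) ^ d⌋₊ : ℝ) ≤ (n : ℝ) ^ d := Nat.floor_le (by linarith)
    have h1 : (((K * ⌊(n : ℝ) ^ d⌋₊ : ℕ) : ℝ) + 1) ^ K ≤ ((K + 1) * (n : ℝ) ^ d) ^ K := by
      apply pow_le_pow_left₀ (by positivity)
      push_cast
      nlinarith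
    have h2 : ((K + 1) * (n : ℝ) ^ d) ^ K ≤ (K + 1) ^ K * n := by
      rw [mul_pow]
      have : ((n : ℝ) ^ d) ^ K ≤ n := by
        rw [← Real.rpow_natCast, ← Real.rpow_mul hn0.le]
        calc (n : ℝ) ^ (d * K) ≤ (n : ℝ) ^ (1 : ℝ) :=
              Real.rpow_le_rpow_of_exponent_le hn1 (by linarith)
          _ = n := Real.rpow_one _
      gcongr
    have h3 : ((n : ℝ) + 1) ^ K ≤ 2 ^ K * (n : ℝ) ^ K := by
      rw [← mul_pow]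
      apply pow_le_pow_left₀ (by positivity)
      linarith
    have h4 : q ^ (-(⌊(n : ℝ) ^ d⌋₊ : ℝ) / 4) ≤
        2 * Real.exp (-(Real.log 2 / 4) * (n : ℝ) ^ d) := by
      have hv0 : (0 : ℝ) ≤ (⌊(n : ℝ) ^ d⌋₊ : ℝ) := Nat.cast_nonneg _
      calc q ^ (-(⌊(n : ℝ) ^ d⌋₊ : ℝ) / 4) ≤ (2 : ℝ) ^ (-(⌊(n : ℝ) ^ d⌋₊ : ℝ) / 4) :=
            Real.rpow_le_rpow_of_nonpos (by norm_num) hq (by linarith)
        _ = Real.exp (Real.log 2 * (-(⌊(n : ℝ) ^ d⌋₊ : ℝ) / 4)) := by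
            rw [Real.rpow_def_of_pos (by norm_num)]
        _ ≤ Real.exp (Real.log 2 + -(Real.log 2 / 4) * (n : ℝ) ^ d) := by
            apply Real.exp_le_exp.2
            have hl := Real.log_pos (by norm_num : (1 : ℝ) < 2)
            nlinarith
        _ = 2 * Real.exp (-(Real.log 2 / 4) * (n : ℝ) ^ d) := by
            rw [Real.exp_add, Real.exp_log (by norm_num)]
    have h5 := hN1 n (by omega)
    have h6 : (n : ℝ) ^ ((K + 2) / d * d) = (n : ℝ) ^ K * n ^ 2 := by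
      rw [div_mul_cancel₀ _ hd0.ne', Real.rpow_add hn0, Real.rpow_natCast]
      norm_num
    rw [h6] at h5
    have h7 : (n : ℝ) ^ (-(1 : ℝ)) ≤ (n : ℝ) ^ (-η) :=
      Real.rpow_le_rpow_of_exponent_le hn1 (by linarith)
    rw [Real.rpow_neg_one] at h7
    have h8 : (n : ℝ) ^ K * n * Real.exp (-(Real.log 2 / 4) * (n : ℝ) ^ d) ≤ (n : ℝ)⁻¹ := by
      rw [le_inv_comm₀ (by positivity) hn0, ← one_div, le_div_iff₀ (by positivity)]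
      calc (n : ℝ) * ((n : ℝ) ^ K * n * Real.exp (-(Real.log 2 / 4) * (n : ℝ) ^ d)) =
          (n : ℝ) ^ K * n ^ 2 * Real.exp (-(Real.log 2 / 4) * (n : ℝ) ^ d) := by ring
        _ ≤ 1 := h5
    calc ((n : ℝ) + 1) ^ K * q ^ (-(⌊(n : ℝ) ^ d⌋₊ : ℝ) / 4) *
          (((K * ⌊(n : ℝ) ^ d⌋₊ : ℕ) : ℝ) + 1) ^ K
        ≤ (2 ^ K * (n : ℝ) ^ K) * (2 * Real.exp (-(Real.log 2 / 4) * (n : ℝ) ^ d)) *
          ((K + 1) ^ K * n) := by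
          gcongr
          exact h1.trans h2
      _ = 2 ^ (K + 1) * (K + 1) ^ K *
          ((n : ℝ) ^ K * n * Real.exp (-(Real.log 2 / 4) * (n : ℝ) ^ d)) := by ring
      _ ≤ 2 ^ (K + 1) * (K + 1) ^ K * (n : ℝ) ^ (-η) := by
          gcongr
          exact h8.trans h7
  · have hv' : (⌊(n : ℝ) ^ d⌋₊ : ℝ) ≤ (n : ℝ) ^ d := Nat.floor_le (by linarith)
    have h1 : (((K * ⌊(n : ℝ) ^ d⌋₊ : ℕ) : ℝ) + 1) ^ K ≤ ((K + 1) * (n : ℝ) ^ d) ^ K := by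
      apply pow_le_pow_left₀ (by positivity)
      push_cast
      nlinarith
    have h2 : ((K + 1) * (n : ℝ) ^ d) ^ K ≤ (K + 1) ^ K * (n : ℝ) ^ e := by
      rw [mul_pow]
      have : ((n : ℝ) ^ d) ^ K ≤ (n : ℝ) ^ e := by
        rw [← Real.rpow_natCast, ← Real.rpow_mul hn0.le]
        exact Real.rpow_le_rpow_of_exponent_le hn1 hdK
      gcongr
    calc (n : ℝ) ^ (-(1 / 2) : ℝ) * (((K * ⌊(n : ℝ) ^ d⌋₊ : ℕ) : ℝ) + 1) ^ K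
        ≤ (n : ℝ) ^ (-(1 / 2) : ℝ) * ((K + 1) ^ K * (n : ℝ) ^ e) := by
          gcongr
          exact h1.trans h2
      _ = (K + 1) ^ K * ((n : ℝ) ^ (-(1 / 2) : ℝ) * (n : ℝ) ^ e) := by ring
      _ = (K + 1) ^ K * (n : ℝ) ^ (-η) := by
          rw [← Real.rpow_add hn0, he]; ring_nf
      _ ≤ 2 ^ (K + 1) * (K + 1) ^ K * (n : ℝ) ^ (-η) := by
          have : (1 : ℝ) ≤ 2 ^ (K + 1) := one_le_pow₀ (by norm_num)
          have h3 : (0 : ℝ) ≤ (K + 1) ^ K * (n : ℝ) ^ (-η) := by positivity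
          nlinarith

end FZ
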