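import Pool.Agent.Lib.MP_1ad228_nt.FF.FCase
import Pool.Agent.Lib.MP_1ad228_nt.FF.FChoose

/-! JOB FCount.  The counting theorem with every exponent `η < 1/2`.  MODEL (over `ℕ`): `Pool/Agent/Lib/MP_1ad228_nt/ZCount.lean` (and `Pool/Agent/Lib/MP_1ad228_ntR/RCount.lean`).

Let `K`, `C` be larger than all the constants of `case_F` for the nonempty `I` and of `case_empty` (the bounds remain true with a larger `K`, since `K v ≤ t`, `K t ≤ n` get stronger and `(n+1)^K`, `(t+1)^K` larger).  For `n ≥ N0` (also `≥ 1`) take `v` from `choose_v η hη0 hη K`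
(`q = card F ≥ 2`) and `t = K v`: then `K v ≤ t`, `K t = K (K v) ≤ n`.
Split the set by `I = {U | t < deg (e U)}`.  For `1 ≤ n < N0` the count is at most `card (Box) ≤ (n+1)^card * q^n` (`card_Box`), and `n^(-η) ≥ N0^(-η) > 0`. -/

namespace FZ

open Finset Polynomial

open ZC (OddSet)

open Classical in
private theorem fcount_part (F : Type) [Field F] [Fintype F] [DecidableEq F] (h2 : ringChar F ≠ 2)
    {ι : Type} [Fintype ι] [DecidableEq ι] (θ : OddSet ι → ι → F[X]) (a : ι → F[X])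
    (hsq : ∀ i, ¬ IsSquare (a i)) (I : Finset (OddSet ι)) :
    ∃ (C : ℝ) (K : ℕ), 0 < C ∧ ∀ v t n : ℕ, 1 ≤ n → K * v ≤ t → K * t ≤ n →
    (((Box F (OddSet ι) n).filter fun e => (∀ U, t < (e U).natDegree ↔ U ∈ I) ∧ LocZ θ a e).card : ℝ) ≤
      C * (Fintype.card F : ℝ) ^ n * (((n : ℝ) + 1) ^ K * (Fintype.card F : ℝ) ^ (-(v : ℝ) / 4) +
        (n : ℝ) ^ (-(1 / 2) : ℝ)) * ((t : ℝ) + 1) ^ K := by
  rcases I.eq_empty_or_nonempty with hI | hI
  · obtain ⟨K, hb⟩ := case_empty F (ι := ι)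
    refine ⟨1, K, one_pos, ?_⟩
    intro v t n hn hvt htn
    have h0 : ((Box F (OddSet ι) n).filter fun e => (∀ U, t < (e U).natDegree ↔ U ∈ I) ∧
        LocZ θ a e).card ≤ 0 := by
      rw [← Finset.card_empty (α := OddSet ι → F[X]), ← hb t n hn htn]
      apply Finset.card_le_card
      intro e he
      rw [Finset.mem_filter] at he ⊢
      refine ⟨he.1, ?_⟩
      intro U hU
      have := (he.2.1 U).mp hU
      rw [hI] at this
      exact absurd this (Finset.notMem_empty U)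
    have h1 : (((Box F (OddSet ι) n).filter fun e => (∀ U, t < (e U).natDegree ↔ U ∈ I) ∧
        LocZ θ a e).card : ℝ) ≤ 0 := by exact_mod_cast h0
    refine h1.trans ?_
    positivity
  · exact case_F F h2 θ a hsq I hI

open Classical in
theorem countF (F : Type) [Field F] [Fintype F] [DecidableEq F] (h2 : ringChar F ≠ 2)
    {ι : Type} [Fintype ι] [DecidableEq ι] (η : ℝ) (hη0 : 0 ≤ η) (hη : η < 1 / 2)
    (θ : OddSet ι → ι → F[X]) (a : ι → F[X]) (hsq : ∀ i, ¬ IsSquare (a i)) :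
    ∃ C : ℝ, 0 < C ∧ ∀ n : ℕ, 1 ≤ n →
    (((Box F (OddSet ι) n).filter fun e => LocZ θ a e).card : ℝ) ≤ C * (Fintype.card F : ℝ) ^ n * (n : ℝ) ^ (-η) := by
  choose Cf Kf hCf hbf using fcount_part F h2 θ a hsq
  set K : ℕ := ∑ I : Finset (OddSet ι), Kf I with hK
  have hKf : ∀ I, Kf I ≤ K := fun I =>
    Finset.single_le_sum (f := Kf) (fun _ _ => Nat.zero_le _) (Finset.mem_univ I)
  set C0 : ℝ := ∑ I : Finset (OddSet ι), Cf I with hC0
  have hC0pos : 0 < C0 := Finset.sum_pos (fun I _ => hCf I) ⟨∅, Finset.mem_univ _⟩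
  obtain ⟨C1, N0, hC1, hch⟩ := choose_v η hη0 hη K
  set q : ℝ := (Fintype.card F : ℝ) with hq
  have hq2 : (2 : ℝ) ≤ q := by
    rw [hq]
    exact_mod_cast two_le_card F
  have hq0 : 0 < q := by linarith
  set N1 : ℕ := N0 + 1 with hN1
  set M : ℝ := ((N1 + 1 : ℕ) : ℝ) ^ Fintype.card (OddSet ι) with hM
  set c : ℝ := (N1 : ℝ) ^ (-η) with hc
  have hN1pos : (0 : ℝ) < N1 := by
    rw [hN1]
    positivity
  have hcpos : 0 < c := Real.rpow_pos_of_pos hN1pos _
  have hMnn : 0 ≤ M := by positivity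
  refine ⟨C0 * (2 * C1) + M / c, by positivity, ?_⟩
  intro n hn1
  have hnr : (1 : ℝ) ≤ n := by exact_mod_cast hn1
  have hn0 : (0 : ℝ) < n := by linarith
  have hq8 : 0 < (n : ℝ) ^ (-η) := Real.rpow_pos_of_pos hn0 _
  have hqn : 0 < q ^ n := pow_pos hq0 n
  by_cases hNN : n < N1
  · -- small `n`
    have hcard : (((Box F (OddSet ι) n).filter fun e => LocZ θ a e).card : ℝ) ≤ M * q ^ n := by
      have h3 : ((Box F (OddSet ι) n).filter fun e => LocZ θ a e).card ≤
          (n + 1) ^ Fintype.card (OddSet ι) * Fintype.card F ^ n :=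
        (Finset.card_le_card (Finset.filter_subset _ _)).trans (card_Box F n)
      have h4 : (n + 1) ^ Fintype.card (OddSet ι) * Fintype.card F ^ n ≤
          (N1 + 1) ^ Fintype.card (OddSet ι) * Fintype.card F ^ n :=
        Nat.mul_le_mul_right _ (Nat.pow_le_pow_left (by omega) _)
      have h5 := h3.trans h4
      rw [hM, hq]
      exact_mod_cast h5
    have hmono : c ≤ (n : ℝ) ^ (-η) := by
      rw [hc]
      apply Real.rpow_le_rpow_of_nonpos hn0 _ (by linarith)
      exact_mod_cast hNN.le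
    have h1 : M * q ^ n ≤ M / c * q ^ n * (n : ℝ) ^ (-η) := by
      have e1 : M * q ^ n = M / c * q ^ n * c := by
        field_simp
      calc M * q ^ n = M / c * q ^ n * c := e1
        _ ≤ M / c * q ^ n * (n : ℝ) ^ (-η) :=
          mul_le_mul_of_nonneg_left hmono (by positivity)
    have h2' : 0 ≤ C0 * (2 * C1) * q ^ n * (n : ℝ) ^ (-η) := by positivity
    have e3 : (C0 * (2 * C1) + M / c) * q ^ n * (n : ℝ) ^ (-η) =
        C0 * (2 * C1) * q ^ n * (n : ℝ) ^ (-η) + M / c * q ^ n * (n : ℝ) ^ (-η) := by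
      ring
    rw [e3]
    linarith
  · push Not at hNN
    obtain ⟨v, hvn, hb1, hb2⟩ := hch q hq2 n (by omega)
    set t : ℕ := K * v with ht
    have ht0 : (1 : ℝ) ≤ (t : ℝ) + 1 := by
      have : (0 : ℝ) ≤ t := Nat.cast_nonneg t
      linarith
    have hpart : ∀ I : Finset (OddSet ι), (((Box F (OddSet ι) n).filter fun e =>
        (∀ U, t < (e U).natDegree ↔ U ∈ I) ∧ LocZ θ a e).card : ℝ) ≤
        Cf I * (q ^ n * (2 * C1 * (n : ℝ) ^ (-η))) := by
      intro I
      refine (hbf I v t n hn1 (Nat.mul_le_mul_right v (hKf I))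
        ((Nat.mul_le_mul_right t (hKf I)).trans hvn)).trans ?_
      rw [mul_assoc (Cf I), mul_assoc (Cf I), mul_assoc (q ^ n)]
      apply mul_le_mul_of_nonneg_left _ (hCf I).le
      apply mul_le_mul_of_nonneg_left _ hqn.le
      have g1 : ((n : ℝ) + 1) ^ Kf I * q ^ (-(v : ℝ) / 4) * ((t : ℝ) + 1) ^ Kf I ≤
          ((n : ℝ) + 1) ^ K * q ^ (-(v : ℝ) / 4) * ((t : ℝ) + 1) ^ K := by
        have a1 : ((n : ℝ) + 1) ^ Kf I ≤ ((n : ℝ) + 1) ^ K :=
          pow_le_pow_right₀ (by linarith) (hKf I)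
        have a2 : ((t : ℝ) + 1) ^ Kf I ≤ ((t : ℝ) + 1) ^ K :=
          pow_le_pow_right₀ ht0 (hKf I)
        have a3 : 0 ≤ q ^ (-(v : ℝ) / 4) := Real.rpow_nonneg hq0.le _
        exact mul_le_mul (mul_le_mul_of_nonneg_right a1 a3) a2 (by positivity) (by positivity)
      have g2 : (n : ℝ) ^ (-(1 / 2) : ℝ) * ((t : ℝ) + 1) ^ Kf I ≤
          (n : ℝ) ^ (-(1 / 2) : ℝ) * ((t : ℝ) + 1) ^ K := by
        apply mul_le_mul_of_nonneg_left _ (Real.rpow_nonneg hn0.le _)
        exact pow_le_pow_right₀ ht0 (hKf I)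
      rw [add_mul]
      linarith
    have hsplit : (((Box F (OddSet ι) n).filter fun e => LocZ θ a e).card : ℝ) ≤
        ∑ I : Finset (OddSet ι), (((Box F (OddSet ι) n).filter fun e =>
        (∀ U, t < (e U).natDegree ↔ U ∈ I) ∧ LocZ θ a e).card : ℝ) := by
      rw [← Nat.cast_sum]
      apply Nat.cast_le.mpr
      refine le_trans (Finset.card_le_card ?_) Finset.card_biUnion_le
      intro e he
      rw [Finset.mem_filter] at he
      rw [Finset.mem_biUnion]
      refine ⟨Finset.univ.filter (fun U => t < (e U).natDegree), Finset.mem_univ _, ?_⟩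
      rw [Finset.mem_filter]
      refine ⟨he.1, ?_, he.2⟩
      intro i
      rw [Finset.mem_filter]
      exact ⟨fun h => ⟨Finset.mem_univ i, h⟩, fun h => h.2⟩
    calc (((Box F (OddSet ι) n).filter fun e => LocZ θ a e).card : ℝ) ≤ _ := hsplit
      _ ≤ ∑ I : Finset (OddSet ι), Cf I * (q ^ n * (2 * C1 * (n : ℝ) ^ (-η))) :=
          Finset.sum_le_sum fun I _ => hpart I
      _ = C0 * (2 * C1) * q ^ n * (n : ℝ) ^ (-η) := by
          rw [← Finset.sum_mul, ← hC0]
          ring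
      _ ≤ (C0 * (2 * C1) + M / c) * q ^ n * (n : ℝ) ^ (-η) := by
          apply mul_le_mul_of_nonneg_right _ hq8.le
          apply mul_le_mul_of_nonneg_right _ hqn.le
          have : 0 ≤ M / c := by positivity
          linarith

end FZ
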