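import Mathlib

/-! MP_1ad228_nt, function field case.  Definitions.

`k = F(t)` is `RatFunc F` for a finite field `F` of odd order; `C_D : D w² = ∏_i (x² - a_i z²)`, `a_i, D ∈ F[t]`. -/

namespace FZ

open Finset Polynomial

/-- The conic `u x² + β y² = z²` has a point over `L`, i.e. the quaternion algebra `(u, β)` over `L` is split
(for `u, β ≠ 0`, in characteristic different from `2`). -/
def Split (L : Type) [Field L] (u β : L) : Prop :=
  ∃ x y z : L, ¬ (x = 0 ∧ y = 0 ∧ z = 0) ∧ u * x ^ 2 + β * y ^ 2 = z ^ 2

/-- A point of the curve `D w² = ∏ (x² - a_i z²)` over a field `L` (`a_i, D ∈ L`) with coordinates in a finite extension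
`K` of `L`. -/
structure Pt (L : Type) [Field L] {ι : Type} [Fintype ι] (a : ι → L) (D : L) where
  K : Type
  [field : Field K]
  [alg : Algebra L K]
  [fin : FiniteDimensional L K]
  x : K
  z : K
  w : K
  ne : ¬ (x = 0 ∧ z = 0)
  eq : algebraMap L K D * w ^ 2 = ∏ i, (x ^ 2 - algebraMap L K (a i) * z ^ 2)

attribute [instance] Pt.field Pt.alg Pt.fin

open Classical in
/-- The value at `P` of the function `g_i = x² - a_i z²`, up to squares.  (If `g_i` vanishes at `P` we use
`D ∏_{j ≠ i} g_j`, which is the same function up to squares, since `g_i * (D ∏_{j ≠ i} g_j) = (D w)²` on the curve.) -/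
noncomputable def Pt.val {L : Type} [Field L] {ι : Type} [Fintype ι] {a : ι → L} {D : L}
    (P : Pt L a D) (i : ι) : P.K :=
  if P.x ^ 2 - algebraMap L P.K (a i) * P.z ^ 2 = 0 then
    algebraMap L P.K D * ∏ j ∈ univ.erase i, (P.x ^ 2 - algebraMap L P.K (a j) * P.z ^ 2)
  else P.x ^ 2 - algebraMap L P.K (a i) * P.z ^ 2

/-- A zero-cycle on `C_D` over `L`: a formal integral combination of points over finite extensions. -/
abbrev Cyc (L : Type) [Field L] {ι : Type} [Fintype ι] (a : ι → L) (D : L) := List (ℤ × Pt L a D)

/-- The degree of a zero-cycle. -/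
noncomputable def Cyc.deg {L : Type} [Field L] {ι : Type} [Fintype ι] {a : ι → L} {D : L}
    (z : Cyc L a D) : ℤ :=
  (z.map fun q => q.1 * (Module.finrank L q.2.K : ℤ)).sum

/-- The value of the function `x² - a_i z²` at a zero-cycle, an element of `L*` modulo squares: for every `β ∈ L*` the value
of the Brauer class `(x² - a_i, β)` at the zero-cycle is the class of the quaternion algebra `(z.cls i, β)`. -/
noncomputable def Cyc.cls {L : Type} [Field L] {ι : Type} [Fintype ι] {a : ι → L} {D : L}
    (z : Cyc L a D) (i : ι) : L :=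
  (z.map fun q => (Algebra.norm L (q.2.val i)) ^ q.1).prod

/-- The places of the field `F(t)`, `F` a finite field: the normalised discrete valuations `F(t) → ℤ ∪ {∞}`
(written multiplicatively). -/
abbrev Pl (F : Type) [Field F] :=
  {v : Valuation (RatFunc F) (WithZero (Multiplicative ℤ)) // Function.Surjective v}

/-- The completion of `F(t)` at a place. -/
abbrev Kv {F : Type} [Field F] (v : Pl F) : Type := v.1.Completion

/-- The embedding of `F(t)` in its completion at a place. -/
noncomputable def emb {F : Type} [Field F] (v : Pl F) : RatFunc F →+* Kv v :=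
  (UniformSpace.Completion.coeRingHom (α := WithVal v.1)).comp (WithVal.equiv v.1).symm.toRingHom

/-- The embedding of `F[t]` in the completion of `F(t)` at a place. -/
noncomputable def ev {F : Type} [Field F] (v : Pl F) : F[X] →+* Kv v :=
  (emb v).comp (algebraMap F[X] (RatFunc F))

/-- The places at which the quaternion algebra `(c_v, β)` is not split. -/
def badPlaces {F : Type} [Field F] (c : ∀ v : Pl F, Kv v) (β : RatFunc F) : Set (Pl F) :=
  {v | ¬ Split (Kv v) (c v) (emb v β)}

/-- The sum of the local invariants of `(c_v, β)` over all places is zero: only finitely many are nonzero, and the number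
of the nonzero ones is even. -/
def SumZero {F : Type} [Field F] (c : ∀ v : Pl F, Kv v) (β : RatFunc F) : Prop :=
  (badPlaces c β).Finite ∧ Even (badPlaces c β).ncard

/-- There is a family of zero-cycles of degree one on `C_D`, one for each place of `F(t)`, which is orthogonal to all the
Brauer classes `(x² - a_i, β)`, `β ∈ F(t)*`. -/
def Adelic {F : Type} [Field F] {ι : Type} [Fintype ι] (a : ι → F[X]) (D : F[X]) : Prop :=
  ∃ z : ∀ v : Pl F, Cyc (Kv v) (fun i => ev v (a i)) (ev v D),
    (∀ v, (z v).deg = 1) ∧ ∀ (i : ι) (β : RatFunc F), β ≠ 0 → SumZero (fun v => (z v).cls i) β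

/-- There is a zero-cycle of degree one on `C_D` over `F(t)`. -/
def Global {F : Type} [Field F] {ι : Type} [Fintype ι] (a : ι → F[X]) (D : F[X]) : Prop :=
  ∃ z : Cyc (RatFunc F) (fun i => algebraMap F[X] (RatFunc F) (a i)) (algebraMap F[X] (RatFunc F) D), z.deg = 1

end FZ
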