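import Pool.Agent.Lib.MP_1ad228_nt.FF.FRecip

/-! JOB FDual.  A family of local classes orthogonal to all `β ∈ F(t)*` comes from one polynomial.  MODEL (over `ℚ`): `Pool/Agent/Lib/MP_1ad228_nt/ZDual.lean`.

Proof.  `δ₀ = ∏ P` over the finitely many monic irreducible `P` with `ordv (plP P) (c (plP P))` odd (they are among the `P` with `plP P ∈ T`; injectivity `plP_inj`); monic and squarefree.
Let `c' v = c v * ev v δ₀`: `ordv (c')` is even at all finite places (`ordv_mul`, `ordv_self`, `ordv_of_not_dvd`), and by `SumZero.mul` and `recip` (for `algebraMap δ₀`): `SumZero c' β` for all `β ≠ 0`.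
* `β = C ε`, `ε ∈ F` a nonsquare: split at all finite places (`split_even`, both valuations even).  At `plInf`, if `ordv (c')` is odd: split iff `ε` is a square at `plInf` (`split_comm`, `split_odd_iff`) iff `ε` is a square in `F`
  (`isSquare_plInf_iff`): no.  Then there is exactly one bad place, contradiction.  So `ordv (c' plInf)` is even.
* Then `c' plInf` or `c' plInf * ε` is a square (write `c' = u s²`, `w u = 1` (`exists_unit_mul_sq`), `OLF.two_classes` with `c = ε`, not a square at `plInf`).  Let `δ = δ₀` or `δ = C ε * δ₀`, so `c plInf * ev δ` is a square; squarefree; `c'' v = c v * ev v δ` still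
  has even valuation at the finite places and `SumZero c'' β`.
* `β = P` monic irreducible: at the other finite places split (`split_even`), at `plInf` split (`split_of_isSquare`), so at most one bad place, hence none: split at `plP P`, and `ordv β = 1`, so `c'' (plP P)` is a square (`split_odd_iff`). -/

namespace FZ

open Polynomial

variable {F : Type} [Field F] [Fintype F]

private lemma FDual_ncard {α : Type*} {S : Set α} {q : α} (hS : S ⊆ {q}) (he : Even S.ncard) : q ∉ S := by
  intro hq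
  have h1 : S = {q} := Set.Subset.antisymm hS (by simpa using hq)
  rw [h1, Set.ncard_singleton] at he
  exact absurd he (by decide)

omit [Fintype F] in
/-- from the sum formula to splitting at the only possible bad place -/
private lemma FDual_split (c : ∀ v : Pl F, Kv v) (β : RatFunc F) (hs : SumZero c β) (q : Pl F)
    (hsp : ∀ v : Pl F, v ≠ q → Split (Kv v) (c v) (emb v β)) : Split (Kv q) (c q) (emb q β) := by
  have hsub : badPlaces c β ⊆ {q} := by
    intro v hbad
    rw [Set.mem_singleton_iff]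
    by_contra hne
    exact hbad (hsp v hne)
  have h1 := FDual_ncard hsub hs.2
  by_contra hcon
  exact h1 hcon

omit [Fintype F] in
private lemma FDual_eq {P Q : F[X]} (mP : P.Monic) (mQ : Q.Monic) (hP : Irreducible P) (hQ : Irreducible Q)
    (h : P ∣ Q) : P = Q :=
  Polynomial.eq_of_monic_of_associated mP mQ (hP.associated_of_dvd hQ h)

omit [Fintype F] in
private lemma FDual_not_dvd {P : F[X]} (mP : P.Monic) (hP : Irreducible P) (S : Finset F[X])
    (hS : ∀ Q ∈ S, Q.Monic ∧ Irreducible Q) (hn : P ∉ S) : ¬ P ∣ ∏ Q ∈ S, Q := by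
  intro h
  rw [Prime.dvd_finsetProd_iff hP.prime] at h
  obtain ⟨Q, hQ, hPQ⟩ := h
  exact hn (FDual_eq mP (hS Q hQ).1 hP (hS Q hQ).2 hPQ ▸ hQ)

theorem dual (h2 : ringChar F ≠ 2) (c : ∀ v : Pl F, Kv v) (hc : ∀ v, c v ≠ 0) (T : Set (Pl F)) (hT : T.Finite)
    (hTe : ∀ v, v ∉ T → Even (ordv v (c v))) (h : ∀ β : RatFunc F, β ≠ 0 → SumZero c β) :
    ∃ δ : F[X], Squarefree δ ∧ ∀ v, IsSquare (c v * ev v δ) := by
  classical
  set B : Set F[X] := {P | P.Monic ∧ ∃ hP : Irreducible P, Odd (ordv (plP P hP) (c (plP P hP)))} with hB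
  have hBfin : B.Finite := by
    refine Set.Finite.of_finite_image (f := fun P => if hP : Irreducible P then plP P hP else plInf F)
      (hT.subset ?_) ?_
    · rintro _ ⟨P, ⟨_, hP, ho⟩, rfl⟩
      simp only [hP, dif_pos]
      by_contra hcon
      exact (Int.not_even_iff_odd.2 ho) (hTe _ hcon)
    · rintro P ⟨mP, hP, _⟩ Q ⟨mQ, hQ, _⟩ e
      simp only [hP, hQ, dif_pos] at e
      exact plP_inj hP hQ mP mQ e
  set S : Finset F[X] := hBfin.toFinset with hS
  have hSmem : ∀ P, P ∈ S ↔ P ∈ B := fun P => by rw [hS]; exact hBfin.mem_toFinset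
  have hSm : ∀ P ∈ S, P.Monic ∧ Irreducible P := by
    intro P hP
    obtain ⟨mP, hi, _⟩ := (hSmem P).1 hP
    exact ⟨mP, hi⟩
  set δ₀ : F[X] := ∏ P ∈ S, P with hδ₀
  obtain ⟨hmon, hsq, _⟩ := prod_set hSm
  rw [← hδ₀] at hmon hsq
  have hδ₀0 : δ₀ ≠ 0 := hmon.ne_zero
  -- valuations of `δ₀`
  have hval₀ : ∀ (P : F[X]) (mP : P.Monic) (hP : Irreducible P),
      Even (ordv (plP P hP) (c (plP P hP)) + ordv (plP P hP) (ev (plP P hP) δ₀)) := by
    intro P mP hP
    by_cases hPS : P ∈ S
    · have hodd : Odd (ordv (plP P hP) (c (plP P hP))) := by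
        obtain ⟨_, _, h3⟩ := (hSmem P).1 hPS
        exact h3
      have hnd : ¬ P ∣ ∏ Q ∈ S.erase P, Q :=
        FDual_not_dvd mP hP _ (fun Q hQ => hSm Q (Finset.mem_of_mem_erase hQ)) (Finset.notMem_erase P S)
      have hne : (∏ Q ∈ S.erase P, Q) ≠ 0 := fun h0 => hnd (h0 ▸ dvd_zero _)
      have hfac : δ₀ = P * ∏ Q ∈ S.erase P, Q := by
        rw [hδ₀]
        exact (Finset.mul_prod_erase S (fun Q => Q) hPS).symm
      have h3 : ordv (plP P hP) (ev (plP P hP) δ₀) = 1 := by
        rw [hfac, map_mul, ordv_mul _ _ _ (ev_ne_zero _ hP.ne_zero) (ev_ne_zero _ hne), ordv_self,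
          ordv_of_not_dvd hP hnd, add_zero]
      rw [h3]
      exact hodd.add_one
    · have h3 : ordv (plP P hP) (ev (plP P hP) δ₀) = 0 :=
        ordv_of_not_dvd hP (FDual_not_dvd mP hP S hSm hPS)
      rw [h3, add_zero]
      by_contra hcon
      exact hPS ((hSmem P).2 ⟨mP, hP, Int.not_even_iff_odd.1 hcon⟩)
  have hconst : ∀ (P : F[X]) (hP : Irreducible P) (η : F), η ≠ 0 → ordv (plP P hP) (ev (plP P hP) (C η)) = 0 := by
    intro P hP η hη
    apply ordv_of_not_dvd hP
    intro hd
    exact hP.not_isUnit (isUnit_of_dvd_unit hd (isUnit_C.2 hη.isUnit))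
  -- the classes `c v * ev v (C η * δ₀)`
  have hsum : ∀ η : F, η ≠ 0 → ∀ β : RatFunc F, β ≠ 0 → SumZero (fun v => c v * ev v (C η * δ₀)) β := by
    intro η hη β hβ
    have hne : C η * δ₀ ≠ 0 := mul_ne_zero (C_ne_zero.2 hη) hδ₀0
    have hne' : algebraMap F[X] (RatFunc F) (C η * δ₀) ≠ 0 := RatFunc.algebraMap_ne_zero hne
    have h1 := recip h2 (algebraMap F[X] (RatFunc F) (C η * δ₀)) β hne' hβ
    exact SumZero.mul h2 hc (fun v => ev_ne_zero v hne) hβ (h β hβ) h1
  have hval : ∀ η : F, η ≠ 0 → ∀ (P : F[X]) (mP : P.Monic) (hP : Irreducible P),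
      Even (ordv (plP P hP) (c (plP P hP) * ev (plP P hP) (C η * δ₀))) := by
    intro η hη P mP hP
    rw [map_mul, ordv_mul _ _ _ (hc _) (mul_ne_zero (ev_ne_zero _ (C_ne_zero.2 hη)) (ev_ne_zero _ hδ₀0)),
      ordv_mul _ _ _ (ev_ne_zero _ (C_ne_zero.2 hη)) (ev_ne_zero _ hδ₀0), hconst P hP η hη, zero_add]
    exact hval₀ P mP hP
  have hne : ∀ η : F, η ≠ 0 → ∀ v, c v * ev v (C η * δ₀) ≠ 0 := fun η hη v =>
    mul_ne_zero (hc v) (ev_ne_zero v (mul_ne_zero (C_ne_zero.2 hη) hδ₀0))
  obtain ⟨ε, hε⟩ := FiniteField.exists_nonsquare h2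
  have hε0 : ε ≠ 0 := by
    rintro rfl
    exact hε ⟨0, by ring⟩
  have hεinf : ¬ IsSquare (ev (plInf F) (C ε)) := by
    rw [isSquare_plInf_iff h2 (C_ne_zero.2 hε0) (by rw [natDegree_C]; exact Even.zero), leadingCoeff_C]
    exact hε
  have hordε : ordv (plInf F) (ev (plInf F) (C ε)) = 0 := by
    rw [ordv_inf (C_ne_zero.2 hε0), natDegree_C]
    simp
  -- even valuation at infinity
  have hinf : Even (ordv (plInf F) (c (plInf F) * ev (plInf F) (C 1 * δ₀))) := by
    by_contra hcon
    have hodd := Int.not_even_iff_odd.1 hcon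
    have hβ0 : algebraMap F[X] (RatFunc F) (C ε) ≠ 0 := RatFunc.algebraMap_ne_zero (C_ne_zero.2 hε0)
    have k1 := FDual_split _ _ (hsum 1 one_ne_zero _ hβ0) (plInf F) (by
      intro v hv
      rcases pl_cases v with h0 | ⟨P, hP, mP, rfl⟩
      · exact absurd h0 hv
      · refine split_even (olf h2 _) _ _ (hne 1 one_ne_zero _) (ev_ne_zero _ (C_ne_zero.2 hε0)) ?_ ?_
        · rw [olf_ord]
          exact hval 1 one_ne_zero P mP hP
        · rw [olf_ord]
          have e := hconst P hP ε hε0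
          rw [show emb (plP P hP) (algebraMap F[X] (RatFunc F) (C ε)) = ev (plP P hP) (C ε) from rfl, e]
          exact Even.zero)
    rw [split_comm] at k1
    have k2 := (split_odd_iff (olf h2 (plInf F)) _ _ (ev_ne_zero (plInf F) (C_ne_zero.2 hε0))
      (hne 1 one_ne_zero (plInf F)) (by
        rw [olf_ord, hordε]
        exact Even.zero) (by
        rw [olf_ord]
        exact hodd)).1 k1
    exact hεinf k2
  -- the constant
  obtain ⟨η, hη0, hηsq⟩ : ∃ η : F, η ≠ 0 ∧ IsSquare (c (plInf F) * ev (plInf F) (C η * δ₀)) := by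
    obtain ⟨u, s, hu, hs, hus⟩ := exists_unit_mul_sq (olf h2 (plInf F)) _ (hne 1 one_ne_zero (plInf F)) (by
      rw [olf_ord]
      exact hinf)
    have hwε : (olf h2 (plInf F)).w (ev (plInf F) (C ε)) = 1 := by
      rw [OLF.w_eq_one_iff _ _ (ev_ne_zero _ (C_ne_zero.2 hε0)), olf_ord, hordε]
    rcases (olf h2 (plInf F)).two_classes u _ hu hwε hεinf with h1 | h1
    · refine ⟨1, one_ne_zero, ?_⟩
      rw [hus]
      exact h1.mul ⟨s, by ring⟩
    · refine ⟨ε, hε0, ?_⟩
      have e : c (plInf F) * ev (plInf F) (C ε * δ₀) = (u * ev (plInf F) (C ε)) * s ^ 2 := by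
        have e1 : c (plInf F) * ev (plInf F) δ₀ = u * s ^ 2 := by
          rw [← hus, C_1, one_mul]
        rw [map_mul]
        linear_combination (ev (plInf F) (C ε)) * e1
      rw [e]
      exact h1.mul ⟨s, by ring⟩
  refine ⟨C η * δ₀, ?_, ?_⟩
  · have h1 : Associated δ₀ (C η * δ₀) := by
      refine ⟨(isUnit_C.2 hη0.isUnit).unit, ?_⟩
      rw [IsUnit.unit_spec, mul_comm]
    exact h1.squarefree_iff.1 hsq
  · intro v
    rcases pl_cases v with rfl | ⟨P, hP, mP, rfl⟩
    · exact hηsq
    · have hβ0 : algebraMap F[X] (RatFunc F) P ≠ 0 := RatFunc.algebraMap_ne_zero hP.ne_zero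
      have k1 := FDual_split _ _ (hsum η hη0 _ hβ0) (plP P hP) (by
        intro v hv
        rcases pl_cases v with rfl | ⟨Q, hQ, mQ, rfl⟩
        · exact split_of_isSquare _ _ hηsq
        · refine split_even (olf h2 _) _ _ (hne η hη0 _) (ev_ne_zero _ hP.ne_zero) ?_ ?_
          · rw [olf_ord]
            exact hval η hη0 Q mQ hQ
          · rw [olf_ord]
            have e : ordv (plP Q hQ) (ev (plP Q hQ) P) = 0 := by
              apply ordv_of_not_dvd hQ
              intro hd
              have := FDual_eq mQ mP hQ hP hd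
              subst this
              exact hv rfl
            rw [show emb (plP Q hQ) (algebraMap F[X] (RatFunc F) P) = ev (plP Q hQ) P from rfl, e]
            exact Even.zero)
      refine (split_odd_iff (olf h2 (plP P hP)) _ _ (hne η hη0 _) (ev_ne_zero (plP P hP) hP.ne_zero) (by
        rw [olf_ord]
        exact hval η hη0 P mP hP) (by
        rw [olf_ord, ordv_self]
        exact odd_one)).1 k1

end FZ
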