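import Pool.Agent.Lib.MP_1ad228_nt.FF.FQDefs
import Pool.Agent.Lib.MP_1ad228_nt.FF.FBL

/-! JOB FLinked.  A pattern `Z` containing a linked pair contributes little.  MODELS: `Pool/Agent/Lib/MP_10e784_ag/QPL.lean` and `QLinked.lean` (the same over `ℕ`).

`pl`, proof.  By `sum_Vec` it is enough to bound, for each degree vector `δ ∈ Degs L n` (at most `(n+1)^(card L)`, `card_Degs`), the sum over `d` with `deg d ℓ = δ ℓ`; it is empty unless `v < δ ℓ0` and `v < δ ℓ1`.  Group the vectors by `b = base d`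
(`b ℓ0 = b ℓ1 = 1`): there are at most `q^(n - δ ℓ0 - δ ℓ1)` of them, and the inner sum over `m = d ℓ0 ∈ mon (δ ℓ0)`, `m' = d ℓ1 ∈ mon (δ ℓ1)` is bounded by `bl`:
`≤ q^(δ ℓ0 + δ ℓ1) q^(-min/4) (max + 1) ≤ q^(δ ℓ0 + δ ℓ1) q^(-v/4) (n+1)`.  Total `≤ (n+1)^(card L) q^n q^(-v/4) (n+1)`.

`linked_bound`, proof.  Let `i0 = idx ℓ0`, `i1 = idx ℓ1`; `i0 ≠ i1`, `i0 ∈ St ℓ1`, `i1 ∉ St ℓ0` (`Linked`), both labels in `Z`.
Let `G d = if Squarefree (∏ d) ∧ (∀ ℓ, ℓ ≠ ℓ0, ℓ1 → (ℓ ∈ Z ↔ v < deg (d ℓ))) then FF s u k d else 0`; those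
for `ℓ0, ℓ1` are the conditions `v < deg d ℓ0`, `v < deg d ℓ1` of `pl`.  With `b = base ℓ0 ℓ1 d`, `m = d ℓ0`, `m' = d ℓ1`, `e_j = eOf s`:
* `e_j(d) = e_j(b)` for `j ≠ i0, i1`, `e_{i0}(d) = m e_{i0}(b)`, `e_{i1}(d) = m' e_{i1}(b)`;
* the factor of `ℓ0`: all `j ∈ St ℓ0` are `≠ i0` (`not_mem`) and `≠ i1`, so it is `pf (u ℓ0) m ∏ (e_j(b)/m)`, a function of `b, m`;
* the factor of `ℓ1`: `j = i0` gives `(m e_{i0}(b)/m') = (m/m')(e_{i0}(b)/m')`, the other `j` give `(e_j(b)/m')`: this is `(m/m')` times a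
  function of `b, m'`;
* the factor of another `ℓ`: `(e_j(b)/b_ℓ)`, times `(m/b_ℓ)` if `j = i0`, times `(m'/b_ℓ)` if `j = i1`;
* `Squarefree (∏ d)` together with `(m/m') ≠ 0` is equivalent to: `Squarefree (m ∏ b)`, `Squarefree (m' ∏ b)` and `(m/m') ≠ 0`
  (coprimality of `m, m'` is forced by `(m/m') ≠ 0`: `jac_ne_zero_iff`).
So `G d = α(b,m) β(b,m') (m/m')`, `|α|,|β| ≤ 1`, supports squarefree (all for vectors of monic polynomials).  Apply `pl`. -/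

namespace FZ

open Finset Polynomial

variable {F : Type} [Field F] [Fintype F] [DecidableEq F]

/-- the vector with the two variables `ℓ0`, `ℓ1` replaced by `1` -/
noncomputable def base {L : Type} [DecidableEq L] (ℓ0 ℓ1 : L) (d : L → F[X]) : L → F[X] :=
  Function.update (Function.update d ℓ0 1) ℓ1 1

section FLaux

variable {L : Type} [DecidableEq L]

/-- insertion of two values -/
private noncomputable def flIns (ℓ0 ℓ1 : L) (b : L → F[X]) (p : F[X] × F[X]) : L → F[X] :=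
  Function.update (Function.update b ℓ0 p.1) ℓ1 p.2

omit [Fintype F] [DecidableEq F] in
private theorem fl_ins_at0 {ℓ0 ℓ1 : L} (h : ℓ0 ≠ ℓ1) (b : L → F[X]) (p : F[X] × F[X]) :
    flIns ℓ0 ℓ1 b p ℓ0 = p.1 := by
  unfold flIns
  rw [Function.update_of_ne h, Function.update_self]

omit [Fintype F] [DecidableEq F] in
private theorem fl_ins_at1 {ℓ0 ℓ1 : L} (b : L → F[X]) (p : F[X] × F[X]) :
    flIns ℓ0 ℓ1 b p ℓ1 = p.2 := by
  unfold flIns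
  rw [Function.update_self]

omit [Fintype F] [DecidableEq F] in
private theorem fl_ins_ne {ℓ0 ℓ1 ℓ : L} (h0 : ℓ ≠ ℓ0) (h1 : ℓ ≠ ℓ1) (b : L → F[X])
    (p : F[X] × F[X]) : flIns ℓ0 ℓ1 b p ℓ = b ℓ := by
  unfold flIns
  rw [Function.update_of_ne h1, Function.update_of_ne h0]

omit [Fintype F] [DecidableEq F] in
private theorem fl_base_ins {ℓ0 ℓ1 : L} {b : L → F[X]} (hb0 : b ℓ0 = 1)
    (hb1 : b ℓ1 = 1) (p : F[X] × F[X]) : base ℓ0 ℓ1 (flIns ℓ0 ℓ1 b p) = b := by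
  funext ℓ
  unfold base
  by_cases e1 : ℓ = ℓ1
  · subst e1
    rw [Function.update_self, hb1]
  · rw [Function.update_of_ne e1]
    by_cases e0 : ℓ = ℓ0
    · subst e0
      rw [Function.update_self, hb0]
    · rw [Function.update_of_ne e0, fl_ins_ne e0 e1]

omit [Fintype F] [DecidableEq F] in
private theorem fl_ins_base {ℓ0 ℓ1 : L} (h : ℓ0 ≠ ℓ1) (d : L → F[X]) :
    flIns ℓ0 ℓ1 (base ℓ0 ℓ1 d) (d ℓ0, d ℓ1) = d := by
  funext ℓ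
  by_cases e1 : ℓ = ℓ1
  · subst e1
    rw [fl_ins_at1]
  · by_cases e0 : ℓ = ℓ0
    · subst e0
      rw [fl_ins_at0 h]
    · rw [fl_ins_ne e0 e1]
      unfold base
      rw [Function.update_of_ne e1, Function.update_of_ne e0]

omit [DecidableEq F] in
/-- a sum over vectors with given degrees as a sum over the base and two variables -/
private theorem fl_sum [Fintype L] {ℓ0 ℓ1 : L} (h : ℓ0 ≠ ℓ1) (δ : L → ℕ)
    (φ : (L → F[X]) → ℝ) :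
    ∑ d ∈ Fintype.piFinset (fun ℓ => mon F (δ ℓ)), φ d =
      ∑ b ∈ Fintype.piFinset (fun ℓ => mon F (if ℓ = ℓ0 ∨ ℓ = ℓ1 then 0 else δ ℓ)),
        ∑ m ∈ mon F (δ ℓ0), ∑ m' ∈ mon F (δ ℓ1), φ (flIns ℓ0 ℓ1 b (m, m')) := by
  have e0 : ∀ b ∈ Fintype.piFinset (fun ℓ => mon F (if ℓ = ℓ0 ∨ ℓ = ℓ1 then 0 else δ ℓ)),
      b ℓ0 = 1 ∧ b ℓ1 = 1 := by
    intro b hb
    rw [Fintype.mem_piFinset] at hb
    have h0 := hb ℓ0
    have h1 := hb ℓ1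
    rw [if_pos (Or.inl rfl), mon_zero, mem_singleton] at h0
    rw [if_pos (Or.inr rfl), mon_zero, mem_singleton] at h1
    exact ⟨h0, h1⟩
  have e1 : ∀ b : L → F[X], ∑ m ∈ mon F (δ ℓ0), ∑ m' ∈ mon F (δ ℓ1), φ (flIns ℓ0 ℓ1 b (m, m')) =
      ∑ p ∈ mon F (δ ℓ0) ×ˢ mon F (δ ℓ1), φ (flIns ℓ0 ℓ1 b p) := by
    intro b
    rw [Finset.sum_product]
  simp_rw [e1]
  rw [← Finset.sum_product' (f := fun b p => φ (flIns ℓ0 ℓ1 b p))]
  refine Finset.sum_nbij' (fun d => (base ℓ0 ℓ1 d, (d ℓ0, d ℓ1)))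
    (fun x => flIns ℓ0 ℓ1 x.1 x.2) ?_ ?_ ?_ ?_ ?_
  · intro d hd
    rw [Fintype.mem_piFinset] at hd
    rw [Finset.mem_product, Finset.mem_product, Fintype.mem_piFinset]
    refine ⟨fun ℓ => ?_, hd ℓ0, hd ℓ1⟩
    unfold base
    dsimp only
    by_cases q1 : ℓ = ℓ1
    · subst q1
      rw [if_pos (Or.inr rfl), Function.update_self, mon_zero, mem_singleton]
    · rw [Function.update_of_ne q1]
      by_cases q0 : ℓ = ℓ0
      · subst q0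
        rw [if_pos (Or.inl rfl), Function.update_self, mon_zero, mem_singleton]
      · rw [Function.update_of_ne q0, if_neg (not_or.2 ⟨q0, q1⟩)]
        exact hd ℓ
  · rintro ⟨b, p⟩ hbp
    rw [Finset.mem_product, Finset.mem_product, Fintype.mem_piFinset] at hbp
    obtain ⟨hb, hp0, hp1⟩ := hbp
    rw [Fintype.mem_piFinset]
    intro ℓ
    by_cases q1 : ℓ = ℓ1
    · subst q1
      show flIns ℓ0 ℓ b p ℓ ∈ _
      rw [fl_ins_at1]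
      exact hp1
    · by_cases q0 : ℓ = ℓ0
      · subst q0
        show flIns ℓ ℓ1 b p ℓ ∈ _
        rw [fl_ins_at0 h]
        exact hp0
      · show flIns ℓ0 ℓ1 b p ℓ ∈ _
        rw [fl_ins_ne q0 q1]
        have := hb ℓ
        rwa [if_neg (not_or.2 ⟨q0, q1⟩)] at this
  · intro d _
    exact fl_ins_base h d
  · rintro ⟨b, p⟩ hbp
    rw [Finset.mem_product] at hbp
    obtain ⟨h0, h1⟩ := e0 b hbp.1
    show (base ℓ0 ℓ1 (flIns ℓ0 ℓ1 b p), (flIns ℓ0 ℓ1 b p ℓ0, flIns ℓ0 ℓ1 b p ℓ1)) = (b, p)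
    rw [fl_base_ins h0 h1, fl_ins_at0 h, fl_ins_at1]
  · intro d _
    show φ d = φ (flIns ℓ0 ℓ1 (base ℓ0 ℓ1 d) (d ℓ0, d ℓ1))
    rw [fl_ins_base h]

end FLaux

theorem pl (h2 : ringChar F ≠ 2) {L : Type} [Fintype L] [DecidableEq L] (ℓ0 ℓ1 : L) (G : (L → F[X]) → ℝ)
    (α β : (L → F[X]) → F[X] → ℝ) (v n : ℕ) (hne : ℓ0 ≠ ℓ1)
    (hα : ∀ b m, |α b m| ≤ 1) (hβ : ∀ b m, |β b m| ≤ 1)
    (hαs : ∀ b m, α b m ≠ 0 → Squarefree m) (hβs : ∀ b m, β b m ≠ 0 → Squarefree m)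
    (hG : ∀ d, (∀ ℓ, (d ℓ).Monic) →
      G d = α (base ℓ0 ℓ1 d) (d ℓ0) * β (base ℓ0 ℓ1 d) (d ℓ1) * (jac (d ℓ0) (d ℓ1) : ℝ)) :
    |∑ d ∈ (Vec F L n) with (v < (d ℓ0).natDegree ∧ v < (d ℓ1).natDegree), G d| ≤
      (Fintype.card F : ℝ) ^ n * (n + 1) ^ (Fintype.card L + 1) * (Fintype.card F : ℝ) ^ (-(v : ℝ) / 4) := by
  classical
  obtain ⟨q, hq⟩ : ∃ q : ℝ, q = (Fintype.card F : ℝ) := ⟨_, rfl⟩
  have hq2 : 2 ≤ q := by
    rw [hq]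
    exact_mod_cast two_le_card F
  have hq0 : 0 < q := by linarith
  rw [← hq]
  have hqv : 0 < q ^ (-(v : ℝ) / 4) := Real.rpow_pos_of_pos hq0 _
  -- a single degree vector
  have key : ∀ δ ∈ Degs L n, |∑ d ∈ Fintype.piFinset (fun ℓ => mon F (δ ℓ)),
      (if v < (d ℓ0).natDegree ∧ v < (d ℓ1).natDegree then G d else 0)| ≤
      q ^ n * (n + 1) * q ^ (-(v : ℝ) / 4) := by
    intro δ hδ
    rw [mem_Degs] at hδ
    by_cases hv : v < δ ℓ0 ∧ v < δ ℓ1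
    swap
    · have hz : ∑ d ∈ Fintype.piFinset (fun ℓ => mon F (δ ℓ)),
          (if v < (d ℓ0).natDegree ∧ v < (d ℓ1).natDegree then G d else 0) = 0 := by
        refine Finset.sum_eq_zero fun d hd => ?_
        rw [Fintype.mem_piFinset] at hd
        have h0 := ((mem_mon F).1 (hd ℓ0)).2
        have h1 := ((mem_mon F).1 (hd ℓ1)).2
        rw [h0, h1, if_neg hv]
      rw [hz, abs_zero]
      positivity
    have e1 : ∑ d ∈ Fintype.piFinset (fun ℓ => mon F (δ ℓ)),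
        (if v < (d ℓ0).natDegree ∧ v < (d ℓ1).natDegree then G d else 0) =
        ∑ d ∈ Fintype.piFinset (fun ℓ => mon F (δ ℓ)), G d := by
      refine Finset.sum_congr rfl fun d hd => ?_
      rw [Fintype.mem_piFinset] at hd
      have h0 := ((mem_mon F).1 (hd ℓ0)).2
      have h1 := ((mem_mon F).1 (hd ℓ1)).2
      rw [h0, h1, if_pos hv]
    rw [e1, fl_sum hne]
    set T := Fintype.piFinset (fun ℓ => mon F (if ℓ = ℓ0 ∨ ℓ = ℓ1 then 0 else δ ℓ)) with hT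
    -- the number of base vectors
    have hcard : (T.card : ℝ) * (q ^ δ ℓ0 * q ^ δ ℓ1) = q ^ n := by
      have h1 := fl_sum (F := F) hne δ (fun _ => (1 : ℝ))
      simp only [Finset.sum_const, nsmul_eq_mul, mul_one] at h1
      rw [Fintype.card_piFinset] at h1
      simp only [card_mon] at h1
      rw [Finset.prod_pow_eq_pow_sum, hδ] at h1
      rw [← hT] at h1
      push_cast at h1
      rw [← hq] at h1
      rw [← h1]
    have hinner : ∀ b ∈ T, |∑ m ∈ mon F (δ ℓ0), ∑ m' ∈ mon F (δ ℓ1), G (flIns ℓ0 ℓ1 b (m, m'))| ≤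
        (q ^ δ ℓ0 * q ^ δ ℓ1) * ((n + 1) * q ^ (-(v : ℝ) / 4)) := by
      intro b hb
      rw [hT, Fintype.mem_piFinset] at hb
      have hb0 := hb ℓ0
      have hb1 := hb ℓ1
      rw [if_pos (Or.inl rfl), mon_zero, mem_singleton] at hb0
      rw [if_pos (Or.inr rfl), mon_zero, mem_singleton] at hb1
      have e2 : ∑ m ∈ mon F (δ ℓ0), ∑ m' ∈ mon F (δ ℓ1), G (flIns ℓ0 ℓ1 b (m, m')) =
          ∑ m ∈ mon F (δ ℓ0), ∑ m' ∈ mon F (δ ℓ1), α b m * β b m' * (jac m m' : ℝ) := by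
        refine Finset.sum_congr rfl fun m hm => Finset.sum_congr rfl fun m' hm' => ?_
        rw [hG, fl_base_ins hb0 hb1, fl_ins_at0 hne, fl_ins_at1]
        intro ℓ
        by_cases q1 : ℓ = ℓ1
        · subst q1
          rw [fl_ins_at1]
          exact ((mem_mon F).1 hm').1
        · by_cases q0 : ℓ = ℓ0
          · subst q0
            rw [fl_ins_at0 hne]
            exact ((mem_mon F).1 hm).1
          · rw [fl_ins_ne q0 q1]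
            exact ((mem_mon F).1 (hb ℓ)).1
      rw [e2]
      have h3 := bl h2 (α b) (β b) (δ ℓ0) (δ ℓ1) (hα b) (hβ b) (hαs b) (hβs b)
      rw [← hq] at h3
      refine h3.trans ?_
      have h4 : q ^ (-((min (δ ℓ0) (δ ℓ1) : ℕ) : ℝ) / 4) ≤ q ^ (-(v : ℝ) / 4) := by
        apply Real.rpow_le_rpow_of_exponent_le (by linarith)
        have h5 : (v : ℝ) ≤ ((min (δ ℓ0) (δ ℓ1) : ℕ) : ℝ) := by
          exact_mod_cast le_min hv.1.le hv.2.le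
        linarith
      have h5 : (((max (δ ℓ0) (δ ℓ1) : ℕ) : ℝ) + 1) ≤ n + 1 := by
        have h6 : max (δ ℓ0) (δ ℓ1) ≤ n := by
          rw [← hδ]
          exact max_le (Finset.single_le_sum (f := δ) (fun _ _ => Nat.zero_le _) (Finset.mem_univ ℓ0))
            (Finset.single_le_sum (f := δ) (fun _ _ => Nat.zero_le _) (Finset.mem_univ ℓ1))
        have h7 : ((max (δ ℓ0) (δ ℓ1) : ℕ) : ℝ) ≤ n := by exact_mod_cast h6
        linarith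
      have h6 : 0 < q ^ (δ ℓ0 + δ ℓ1) := pow_pos hq0 _
      calc q ^ (δ ℓ0 + δ ℓ1) * q ^ (-((min (δ ℓ0) (δ ℓ1) : ℕ) : ℝ) / 4) *
            (((max (δ ℓ0) (δ ℓ1) : ℕ) : ℝ) + 1)
          ≤ q ^ (δ ℓ0 + δ ℓ1) * q ^ (-(v : ℝ) / 4) * (n + 1) := by
            apply mul_le_mul _ h5 (by positivity) (by positivity)
            exact mul_le_mul_of_nonneg_left h4 h6.le
        _ = (q ^ δ ℓ0 * q ^ δ ℓ1) * ((n + 1) * q ^ (-(v : ℝ) / 4)) := by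
            rw [pow_add]
            ring
    calc |∑ b ∈ T, ∑ m ∈ mon F (δ ℓ0), ∑ m' ∈ mon F (δ ℓ1), G (flIns ℓ0 ℓ1 b (m, m'))|
        ≤ ∑ b ∈ T, |∑ m ∈ mon F (δ ℓ0), ∑ m' ∈ mon F (δ ℓ1), G (flIns ℓ0 ℓ1 b (m, m'))| :=
          Finset.abs_sum_le_sum_abs _ _
      _ ≤ ∑ _b ∈ T, (q ^ δ ℓ0 * q ^ δ ℓ1) * ((n + 1) * q ^ (-(v : ℝ) / 4)) :=
          Finset.sum_le_sum hinner
      _ = (T.card : ℝ) * (q ^ δ ℓ0 * q ^ δ ℓ1) * ((n + 1) * q ^ (-(v : ℝ) / 4)) := by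
          rw [Finset.sum_const, nsmul_eq_mul]
          ring
      _ = q ^ n * (n + 1) * q ^ (-(v : ℝ) / 4) := by
          rw [hcard]
          ring
  rw [Finset.sum_filter, sum_Vec]
  calc |∑ δ ∈ Degs L n, ∑ d ∈ Fintype.piFinset (fun ℓ => mon F (δ ℓ)),
        (if v < (d ℓ0).natDegree ∧ v < (d ℓ1).natDegree then G d else 0)|
      ≤ ∑ δ ∈ Degs L n, |∑ d ∈ Fintype.piFinset (fun ℓ => mon F (δ ℓ)),
        (if v < (d ℓ0).natDegree ∧ v < (d ℓ1).natDegree then G d else 0)| :=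
        Finset.abs_sum_le_sum_abs _ _
    _ ≤ ∑ _δ ∈ Degs L n, q ^ n * (n + 1) * q ^ (-(v : ℝ) / 4) := Finset.sum_le_sum key
    _ = ((Degs L n).card : ℝ) * (q ^ n * (n + 1) * q ^ (-(v : ℝ) / 4)) := by
        rw [Finset.sum_const, nsmul_eq_mul]
    _ ≤ ((n : ℝ) + 1) ^ Fintype.card L * (q ^ n * (n + 1) * q ^ (-(v : ℝ) / 4)) := by
        apply mul_le_mul_of_nonneg_right _ (by positivity)
        exact_mod_cast card_Degs (L := L) n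
    _ = q ^ n * (n + 1) ^ (Fintype.card L + 1) * q ^ (-(v : ℝ) / 4) := by
        rw [pow_succ]
        ring

section FLaux2

set_option linter.unusedSectionVars false

variable {κ L : Type} [Fintype κ] [DecidableEq κ] [Fintype L] [DecidableEq L]

private lemma fl_base_apply (ℓ0 ℓ1 : L) (d : L → F[X]) (ℓ : L) :
    base ℓ0 ℓ1 d ℓ = if ℓ = ℓ1 then 1 else if ℓ = ℓ0 then 1 else d ℓ := by
  unfold base
  rw [Function.update_apply, Function.update_apply]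

private lemma fl_pt_base {ℓ0 ℓ1 : L} (h : ℓ0 ≠ ℓ1) (d : L → F[X]) (ℓ : L) :
    d ℓ = (if ℓ = ℓ0 then d ℓ0 else 1) * (if ℓ = ℓ1 then d ℓ1 else 1) * base ℓ0 ℓ1 d ℓ := by
  rw [fl_base_apply]
  by_cases h0 : ℓ = ℓ0
  · subst h0
    simp [h]
  · by_cases h1 : ℓ = ℓ1
    · subst h1
      simp [h0]
    · simp [h0, h1]

private lemma fl_prod_base {ℓ0 ℓ1 : L} (h : ℓ0 ≠ ℓ1) (d : L → F[X]) (S : Finset L) :
    ∏ ℓ ∈ S, d ℓ = (if ℓ0 ∈ S then d ℓ0 else 1) * (if ℓ1 ∈ S then d ℓ1 else 1) *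
      ∏ ℓ ∈ S, base ℓ0 ℓ1 d ℓ := by
  conv_lhs =>
    rw [Finset.prod_congr rfl (fun ℓ _ => fl_pt_base h d ℓ)]
  rw [Finset.prod_mul_distrib, Finset.prod_mul_distrib]
  simp [Finset.prod_ite_eq']

private lemma fl_prod_base_univ {ℓ0 ℓ1 : L} (h : ℓ0 ≠ ℓ1) (d : L → F[X]) :
    ∏ ℓ, d ℓ = d ℓ0 * d ℓ1 * ∏ ℓ, base ℓ0 ℓ1 d ℓ := by
  have := fl_prod_base h d univ
  simpa using this

private lemma fl_eOf_base (s : Sys κ L) {ℓ0 ℓ1 : L} (h : ℓ0 ≠ ℓ1) (d : L → F[X]) (j : κ) :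
    eOf s d j = (if s.idx ℓ0 = j then d ℓ0 else 1) * (if s.idx ℓ1 = j then d ℓ1 else 1) *
      eOf s (base ℓ0 ℓ1 d) j := by
  unfold eOf
  rw [fl_prod_base h d]
  simp

private lemma fl_pf_abs_le (w : F[X] → ℝ) (hw : ∀ p, |w p| ≤ 1) (n : F[X]) : |pf w n| ≤ 1 := by
  unfold pf
  rw [Finset.abs_prod]
  exact Finset.prod_le_one (fun _ _ => abs_nonneg _) (fun p _ => hw p)

private lemma fl_prod_jac_abs_le {ι : Type} (S : Finset ι) (a : ι → F[X]) (n : F[X]) :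
    |∏ j ∈ S, (jac (a j) n : ℝ)| ≤ 1 := by
  rw [Finset.abs_prod]
  exact Finset.prod_le_one (fun _ _ => abs_nonneg _) (fun p _ => jac_abs_le _ _)

open Classical in
private noncomputable def flAl (s : Sys κ L) (u : L → F[X] → ℝ) (k : κ → F[X] → ℝ) (v : ℕ)
    (Z : Finset L) (ℓ0 ℓ1 : L) (b : L → F[X]) (m : F[X]) : ℝ :=
  if Squarefree (m * ∏ ℓ, b ℓ) ∧ (∀ ℓ, ℓ ≠ ℓ0 → ℓ ≠ ℓ1 → (ℓ ∈ Z ↔ v < (b ℓ).natDegree)) then
    (∏ i ∈ univ.erase (s.idx ℓ1), k i ((if s.idx ℓ0 = i then m else 1) * eOf s b i)) *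
    ((pf (u ℓ0) m * ∏ j ∈ s.St ℓ0, (jac (eOf s b j) m : ℝ)) *
    ∏ ℓ ∈ (univ.erase ℓ0).erase ℓ1, (pf (u ℓ) (b ℓ) *
      ∏ j ∈ s.St ℓ, (jac ((if s.idx ℓ0 = j then m else 1) * eOf s b j) (b ℓ) : ℝ)))
  else 0

open Classical in
private noncomputable def flBe (s : Sys κ L) (u : L → F[X] → ℝ) (k : κ → F[X] → ℝ)
    (ℓ0 ℓ1 : L) (b : L → F[X]) (n : F[X]) : ℝ :=
  if Squarefree (n * ∏ ℓ, b ℓ) then
    k (s.idx ℓ1) (n * eOf s b (s.idx ℓ1)) *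
    ((pf (u ℓ1) n * ∏ j ∈ s.St ℓ1, (jac (eOf s b j) n : ℝ)) *
    ∏ ℓ ∈ (univ.erase ℓ0).erase ℓ1,
      ∏ j ∈ s.St ℓ, (jac (if s.idx ℓ1 = j then n else 1) (b ℓ) : ℝ))
  else 0

private lemma flAl_abs (s : Sys κ L) (u : L → F[X] → ℝ) (k : κ → F[X] → ℝ) (v : ℕ) (Z : Finset L)
    (ℓ0 ℓ1 : L) (b : L → F[X]) (m : F[X]) (hu : ∀ ℓ p, |u ℓ p| ≤ 1) (hk : ∀ i n, |k i n| ≤ 1) :
    |flAl s u k v Z ℓ0 ℓ1 b m| ≤ 1 := by
  unfold flAl
  split_ifs with h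
  · rw [abs_mul, abs_mul, abs_mul]
    refine mul_le_one₀ ?_ (by positivity) (mul_le_one₀ (mul_le_one₀ (fl_pf_abs_le _ (hu _) _)
      (abs_nonneg _) (fl_prod_jac_abs_le _ _ _)) (abs_nonneg _) ?_)
    · rw [Finset.abs_prod]
      exact Finset.prod_le_one (fun _ _ => abs_nonneg _) (fun i _ => hk _ _)
    · rw [Finset.abs_prod]
      refine Finset.prod_le_one (fun _ _ => abs_nonneg _) (fun i _ => ?_)
      rw [abs_mul]
      exact mul_le_one₀ (fl_pf_abs_le _ (hu _) _) (abs_nonneg _) (fl_prod_jac_abs_le _ _ _)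
  · simp

private lemma flBe_abs (s : Sys κ L) (u : L → F[X] → ℝ) (k : κ → F[X] → ℝ)
    (ℓ0 ℓ1 : L) (b : L → F[X]) (n : F[X]) (hu : ∀ ℓ p, |u ℓ p| ≤ 1) (hk : ∀ i n, |k i n| ≤ 1) :
    |flBe s u k ℓ0 ℓ1 b n| ≤ 1 := by
  unfold flBe
  split_ifs with h
  · rw [abs_mul, abs_mul, abs_mul]
    refine mul_le_one₀ (hk _ _) (by positivity) (mul_le_one₀ (mul_le_one₀ (fl_pf_abs_le _ (hu _) _)
      (abs_nonneg _) (fl_prod_jac_abs_le _ _ _)) (abs_nonneg _) ?_)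
    rw [Finset.abs_prod]
    exact Finset.prod_le_one (fun _ _ => abs_nonneg _) (fun i _ => fl_prod_jac_abs_le _ _ _)
  · simp

private lemma fl_sf_of_parts {m n P : F[X]} (hm : Squarefree (m * P)) (hn : Squarefree (n * P))
    (h : IsCoprime m n) : Squarefree (m * n * P) := by
  have h1 : IsCoprime m P := isCoprime_of_squarefree hm
  have h3 : Squarefree m := hm.squarefree_of_dvd (Dvd.intro _ rfl)
  rw [mul_assoc]
  exact squarefree_mul h3 hn (IsCoprime.mul_right h h1)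

private lemma fl_main_id (s : Sys κ L) (u : L → F[X] → ℝ) (k : κ → F[X] → ℝ) (v : ℕ)
    (Z : Finset L) (ℓ0 ℓ1 : L) (hlin : Linked s ℓ0 ℓ1) (hne : ℓ0 ≠ ℓ1)
    (d : L → F[X]) (hd : ∀ ℓ, (d ℓ).Monic) (hcond : Squarefree (∏ ℓ, d ℓ))
    (hpat : ∀ ℓ, ℓ ≠ ℓ0 → ℓ ≠ ℓ1 → (ℓ ∈ Z ↔ v < (d ℓ).natDegree)) :
    flAl s u k v Z ℓ0 ℓ1 (base ℓ0 ℓ1 d) (d ℓ0) * flBe s u k ℓ0 ℓ1 (base ℓ0 ℓ1 d) (d ℓ1) *
      (jac (d ℓ0) (d ℓ1) : ℝ) = FF s u k d := by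
  obtain ⟨hl1, hl2, hl3⟩ := hlin
  set b := base ℓ0 ℓ1 d with hb
  set m := d ℓ0 with hm
  set n := d ℓ1 with hn
  have hP : ∏ ℓ, d ℓ = m * n * ∏ ℓ, b ℓ := fl_prod_base_univ hne d
  have hbd : ∀ ℓ, ℓ ≠ ℓ0 → ℓ ≠ ℓ1 → b ℓ = d ℓ := by
    intro ℓ h2 h3
    rw [hb, fl_base_apply, if_neg h3, if_neg h2]
  have hnm : n.Monic := hd ℓ1
  have he : ∀ j, eOf s d j = (if s.idx ℓ0 = j then m else 1) * (if s.idx ℓ1 = j then n else 1) *
      eOf s b j := fun j => fl_eOf_base s hne d j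
  -- the FF factorisation
  have hFF : FF s u k d = (k (s.idx ℓ1) (eOf s d (s.idx ℓ1)) *
      ∏ i ∈ univ.erase (s.idx ℓ1), k i (eOf s d i)) *
      ((pf (u ℓ0) m * ∏ j ∈ s.St ℓ0, (jac (eOf s d j) m : ℝ)) *
      ((pf (u ℓ1) n * ∏ j ∈ s.St ℓ1, (jac (eOf s d j) n : ℝ)) *
      ∏ ℓ ∈ (univ.erase ℓ0).erase ℓ1, (pf (u ℓ) (d ℓ) *
        ∏ j ∈ s.St ℓ, (jac (eOf s d j) (d ℓ) : ℝ)))) := by
    unfold FF
    rw [← Finset.mul_prod_erase univ (fun i => k i (eOf s d i)) (mem_univ (s.idx ℓ1)),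
      ← Finset.mul_prod_erase univ (fun ℓ => (pf (u ℓ) (d ℓ) *
        ∏ j ∈ s.St ℓ, (jac (eOf s d j) (d ℓ) : ℝ))) (mem_univ ℓ0),
      ← Finset.mul_prod_erase (univ.erase ℓ0) (fun ℓ => (pf (u ℓ) (d ℓ) *
        ∏ j ∈ s.St ℓ, (jac (eOf s d j) (d ℓ) : ℝ))) (a := ℓ1) (by simp [hne.symm])]
  have hsm : Squarefree (m * ∏ ℓ, b ℓ) := by
    rw [hP] at hcond
    refine hcond.squarefree_of_dvd ⟨n, by ring⟩
  have hsn : Squarefree (n * ∏ ℓ, b ℓ) := by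
    rw [hP] at hcond
    refine hcond.squarefree_of_dvd ⟨m, by ring⟩
  have hpat' : ∀ ℓ, ℓ ≠ ℓ0 → ℓ ≠ ℓ1 → (ℓ ∈ Z ↔ v < (b ℓ).natDegree) := by
    intro ℓ h2 h3
    rw [hbd ℓ h2 h3]
    exact hpat ℓ h2 h3
  unfold flAl flBe
  rw [if_pos ⟨hsm, hpat'⟩, if_pos hsn, hFF]
  -- rewrite the factors
  have e1 : eOf s d (s.idx ℓ1) = n * eOf s b (s.idx ℓ1) := by
    rw [he, if_neg hl1, if_pos rfl, one_mul]
  have e2 : ∏ i ∈ univ.erase (s.idx ℓ1), k i (eOf s d i) =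
      ∏ i ∈ univ.erase (s.idx ℓ1), k i ((if s.idx ℓ0 = i then m else 1) * eOf s b i) := by
    refine Finset.prod_congr rfl fun i hi => ?_
    have q2 : s.idx ℓ1 ≠ i := fun h => (Finset.ne_of_mem_erase hi) h.symm
    rw [he, if_neg q2, mul_one]
  have e3 : ∏ j ∈ s.St ℓ0, (jac (eOf s d j) m : ℝ) =
      ∏ j ∈ s.St ℓ0, (jac (eOf s b j) m : ℝ) := by
    refine Finset.prod_congr rfl fun j hj => ?_
    have q1 : s.idx ℓ0 ≠ j := fun h => s.not_mem ℓ0 (h ▸ hj)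
    have q2 : s.idx ℓ1 ≠ j := fun h => hl3 (h ▸ hj)
    rw [he, if_neg q1, if_neg q2, one_mul, one_mul]
  have e4 : ∏ j ∈ s.St ℓ1, (jac (eOf s d j) n : ℝ) =
      (jac m n : ℝ) * ∏ j ∈ s.St ℓ1, (jac (eOf s b j) n : ℝ) := by
    have q0 : ∏ j ∈ s.St ℓ1, (jac (eOf s d j) n : ℝ) =
        ∏ j ∈ s.St ℓ1, ((if s.idx ℓ0 = j then (jac m n : ℝ) else 1) *
          (jac (eOf s b j) n : ℝ)) := by
      refine Finset.prod_congr rfl fun j hj => ?_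
      have q2 : s.idx ℓ1 ≠ j := fun h => s.not_mem ℓ1 (h ▸ hj)
      rw [he, if_neg q2, mul_one]
      split_ifs with q3
      · rw [jac_mul_left hnm, Int.cast_mul]
      · rw [one_mul, one_mul]
    rw [q0, Finset.prod_mul_distrib, Finset.prod_ite_eq, if_pos hl2]
  have e5 : ∏ ℓ ∈ (univ.erase ℓ0).erase ℓ1, (pf (u ℓ) (d ℓ) *
        ∏ j ∈ s.St ℓ, (jac (eOf s d j) (d ℓ) : ℝ)) =
      (∏ ℓ ∈ (univ.erase ℓ0).erase ℓ1, (pf (u ℓ) (b ℓ) *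
      ∏ j ∈ s.St ℓ, (jac ((if s.idx ℓ0 = j then m else 1) * eOf s b j) (b ℓ) : ℝ))) *
      ∏ ℓ ∈ (univ.erase ℓ0).erase ℓ1,
      ∏ j ∈ s.St ℓ, (jac (if s.idx ℓ1 = j then n else 1) (b ℓ) : ℝ) := by
    rw [← Finset.prod_mul_distrib]
    refine Finset.prod_congr rfl fun ℓ hl => ?_
    have r1 : ℓ ≠ ℓ1 := Finset.ne_of_mem_erase hl
    have r0 : ℓ ≠ ℓ0 := Finset.ne_of_mem_erase (Finset.mem_of_mem_erase hl)
    rw [← hbd ℓ r0 r1, mul_assoc, ← Finset.prod_mul_distrib]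
    congr 1
    refine Finset.prod_congr rfl fun j hj => ?_
    have hbm : (b ℓ).Monic := by
      rw [hbd ℓ r0 r1]
      exact hd ℓ
    rw [he, ← Int.cast_mul, ← jac_mul_left hbm]
    congr 2
    ring
  rw [e1, e2, e3, e4, e5]
  ring

end FLaux2

theorem linked_bound (h2 : ringChar F ≠ 2) {κ L : Type} [Fintype κ] [DecidableEq κ] [Fintype L] [DecidableEq L]
    (s : Sys κ L) (u : L → F[X] → ℝ) (k : κ → F[X] → ℝ) (v n : ℕ) (Z : Finset L) (ℓ0 ℓ1 : L)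
    (hu : ∀ ℓ P, |u ℓ P| ≤ 1) (hk : ∀ i f, |k i f| ≤ 1) (h0 : ℓ0 ∈ Z) (h1 : ℓ1 ∈ Z) (hl : Linked s ℓ0 ℓ1) :
    |∑ d ∈ (Box F L n) with (∀ ℓ, ℓ ∈ Z ↔ v < (d ℓ).natDegree), FF s u k d| ≤
      (Fintype.card F : ℝ) ^ n * (n + 1) ^ (Fintype.card L + 1) * (Fintype.card F : ℝ) ^ (-(v : ℝ) / 4) := by
  have hne : ℓ0 ≠ ℓ1 := fun h => hl.1 (by rw [h])
  have key := pl h2 ℓ0 ℓ1 (fun d => flAl s u k v Z ℓ0 ℓ1 (base ℓ0 ℓ1 d) (d ℓ0) *
    flBe s u k ℓ0 ℓ1 (base ℓ0 ℓ1 d) (d ℓ1) * (jac (d ℓ0) (d ℓ1) : ℝ))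
    (flAl s u k v Z ℓ0 ℓ1) (flBe s u k ℓ0 ℓ1) v n hne
    (fun b m => flAl_abs s u k v Z ℓ0 ℓ1 b m hu hk) (fun b n => flBe_abs s u k ℓ0 ℓ1 b n hu hk)
    ?_ ?_ (fun d _ => rfl)
  · refine (le_of_eq (congrArg abs ?_)).trans key
    classical
    rw [Box, Finset.filter_filter]
    -- compare the sums
    rw [Finset.sum_filter, Finset.sum_filter]
    refine Finset.sum_congr rfl fun d hd => ?_
    have hd := ((mem_Vec F).1 hd).1
    by_cases hc : (v < (d ℓ0).natDegree ∧ v < (d ℓ1).natDegree)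
    · rw [if_pos hc]
      by_cases hs : Squarefree (∏ ℓ, d ℓ) ∧
          ∀ ℓ, ℓ ≠ ℓ0 → ℓ ≠ ℓ1 → (ℓ ∈ Z ↔ v < (d ℓ).natDegree)
      · rw [if_pos, fl_main_id s u k v Z ℓ0 ℓ1 hl hne d hd hs.1 hs.2]
        refine ⟨hs.1, fun ℓ => ?_⟩
        by_cases q0 : ℓ = ℓ0
        · subst q0
          exact ⟨fun _ => hc.1, fun _ => h0⟩
        · by_cases q1 : ℓ = ℓ1
          · subst q1
            exact ⟨fun _ => hc.2, fun _ => h1⟩
          · exact hs.2 ℓ q0 q1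
      · rw [if_neg]
        · -- the right side vanishes
          symm
          by_contra hnz
          apply hs
          have n1 : flAl s u k v Z ℓ0 ℓ1 (base ℓ0 ℓ1 d) (d ℓ0) ≠ 0 := fun h => hnz (by rw [h]; ring)
          have n2 : flBe s u k ℓ0 ℓ1 (base ℓ0 ℓ1 d) (d ℓ1) ≠ 0 := fun h => hnz (by rw [h]; ring)
          have n3 : (jac (d ℓ0) (d ℓ1) : ℝ) ≠ 0 := fun h => hnz (by rw [h]; ring)
          unfold flAl at n1
          unfold flBe at n2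
          have c1 := by_contra fun h => n1 (if_neg h)
          have c2 := by_contra fun h => n2 (if_neg h)
          have c3 : IsCoprime (d ℓ0) (d ℓ1) := by
            rw [← jac_ne_zero_iff (hd ℓ1)]
            exact_mod_cast n3
          refine ⟨?_, ?_⟩
          · rw [fl_prod_base_univ hne d]
            exact fl_sf_of_parts c1.1 c2 c3
          · intro ℓ q0 q1
            have := c1.2 ℓ q0 q1
            rwa [fl_base_apply, if_neg q1, if_neg q0] at this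
        · rintro ⟨r1, r2⟩
          exact hs ⟨r1, fun ℓ _ _ => r2 ℓ⟩
    · rw [if_neg hc, if_neg]
      rintro ⟨r1, r2⟩
      exact hc ⟨(r2 ℓ0).1 h0, (r2 ℓ1).1 h1⟩
  · intro b m h
    unfold flAl at h
    have c1 := by_contra fun h' => h (if_neg h')
    exact c1.1.squarefree_of_dvd (Dvd.intro _ rfl)
  · intro b m h
    unfold flBe at h
    have c1 := by_contra fun h' => h (if_neg h')
    exact Squarefree.squarefree_of_dvd (Dvd.intro _ rfl) c1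

end FZ
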