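import Pool.Agent.Lib.MP_1ad228_nt.FF.FEuler

/-! JOB FUB (short).  (Models over `ℕ`: `Pool/Agent/Lib/MP_10e784_ag/QUB.lean`, `Pool/Agent/Lib/MP_1ad228_ntR/RUB.lean`.)

Proof.  `pf w f ≤ pf W f`... more precisely `0 ≤ SS w j ≤ SS W j` (termwise, `0 ≤ w P ≤ W P` on the prime factors).  `m ≥ 1`, `x = m/(m+1)`.  By `hall` (`w ≤ W ≤ 1`), `m SS w m ≤ q^m ∑_{j<m} SS w j / q^j`, and `x^(-j) ≤ x^(-m) = (1 + 1/m)^m ≤ e ≤ 3` for
`j ≤ m`, so `∑_{j<m} SS w j / q^j ≤ 3 ∑_{j<m} SS W j (x/q)^j ≤ 3 A (m+1)^κ` by `EB.bound` (`1 - x = 1/(m+1)`).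
Since `(m+1)^κ ≤ (2m)^κ ≤ 2 m^κ`: `SS w m ≤ q^m / m * 6 A m^κ = 6 q^m m^(κ-1) A`. -/

namespace FZ

open Finset Polynomial

variable {F : Type} [Field F] [Fintype F]

private theorem FUB_SS_le (w W : F[X] → ℝ)
    (hw : ∀ P : F[X], P.Monic → Irreducible P → 0 ≤ w P ∧ w P ≤ W P) (m : ℕ) : SS w m ≤ SS W m := by
  classical
  unfold SS
  refine Finset.sum_le_sum fun f _ => ?_
  unfold pf
  exact Finset.prod_le_prod
    (fun P hP => (hw P (monic_of_mem_pfac hP) (irreducible_of_mem_pfac hP)).1)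
    (fun P hP => (hw P (monic_of_mem_pfac hP) (irreducible_of_mem_pfac hP)).2)

private theorem FUB_exp (m j : ℕ) (hj : j ≤ m) (hm : 1 ≤ m) :
    1 ≤ 3 * ((m : ℝ) / (m + 1)) ^ j := by
  have hm0 : (0 : ℝ) < m := by exact_mod_cast hm
  have hx1 : (m : ℝ) / (m + 1) ≤ 1 := by
    rw [div_le_one (by positivity)]
    linarith
  have h1 : ((m : ℝ) / (m + 1)) ^ m ≤ ((m : ℝ) / (m + 1)) ^ j :=
    pow_le_pow_of_le_one (by positivity) hx1 hj
  have h2 : ((m : ℝ) + 1) / m ≤ Real.exp (1 / m) := by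
    have := Real.add_one_le_exp (1 / (m : ℝ))
    refine le_trans (le_of_eq ?_) this
    field_simp
    ring
  have h3 : (((m : ℝ) + 1) / m) ^ m ≤ Real.exp 1 := by
    refine (pow_le_pow_left₀ (by positivity) h2 m).trans (le_of_eq ?_)
    rw [← Real.exp_nat_mul]
    congr 1
    field_simp
  have h4 : (((m : ℝ) + 1) / m) ^ m * ((m : ℝ) / (m + 1)) ^ m = 1 := by
    rw [← mul_pow]
    have : ((m : ℝ) + 1) / m * ((m : ℝ) / (m + 1)) = 1 := by
      field_simp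
    rw [this, one_pow]
  have he : Real.exp 1 < 2.7182818286 := Real.exp_one_lt_d9
  have h5 : (0 : ℝ) < ((m : ℝ) / (m + 1)) ^ m := by positivity
  nlinarith

theorem ub {W : F[X] → ℝ} {κ A : ℝ} (hE : EB W κ A) (hκ0 : 0 ≤ κ) (hκ1 : κ ≤ 1) (w : F[X] → ℝ)
    (hw : ∀ P : F[X], P.Monic → Irreducible P → 0 ≤ w P ∧ w P ≤ W P) (m : ℕ) (hm : 1 ≤ m) :
    SS w m ≤ 6 * (Fintype.card F : ℝ) ^ m * (m : ℝ) ^ (κ - 1) * A := by
  have hm0 : (0 : ℝ) < m := by exact_mod_cast hm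
  have hm1 : (1 : ℝ) ≤ m := by exact_mod_cast hm
  have hq : (0 : ℝ) < (Fintype.card F : ℝ) := by
    have := two_le_card F
    exact_mod_cast (by omega : 0 < Fintype.card F)
  have hw1 : ∀ P : F[X], P.Monic → Irreducible P → 0 ≤ w P ∧ w P ≤ 1 := fun P h1 h2 =>
    ⟨(hw P h1 h2).1, (hw P h1 h2).2.trans (hE.le_one P h1 h2)⟩
  have h1 := hall w hw1 m
  set x : ℝ := (m : ℝ) / (m + 1) with hx
  have hx0 : 0 ≤ x := by positivity
  have hx1 : x < 1 := by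
    rw [hx, div_lt_one (by positivity)]
    linarith
  have h2 := hE.bound x hx0 hx1 m
  have e1 : (1 - x)⁻¹ = (m : ℝ) + 1 := by
    rw [hx]
    field_simp
    ring
  rw [e1] at h2
  have hA := hE.hA
  have h3 : ∑ j ∈ range m, SS w j / (Fintype.card F : ℝ) ^ j ≤
      3 * ∑ j ∈ range m, SS W j * (x / (Fintype.card F : ℝ)) ^ j := by
    rw [Finset.mul_sum]
    refine Finset.sum_le_sum fun j hj => ?_
    have hj' := Finset.mem_range.1 hj
    have h4 := FUB_exp m j hj'.le hm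
    rw [← hx] at h4
    have h5 := FUB_SS_le w W hw j
    have h6 : 0 ≤ SS W j := SS_nonneg W hE.nonneg j
    rw [div_pow]
    have e2 : 3 * (SS W j * (x ^ j / (Fintype.card F : ℝ) ^ j)) =
        (SS W j * (3 * x ^ j)) / (Fintype.card F : ℝ) ^ j := by ring
    rw [e2]
    refine div_le_div_of_nonneg_right ?_ (by positivity)
    nlinarith
  have h7 : ((m : ℝ) + 1) ^ κ ≤ 2 * ((m : ℝ) ^ (κ - 1) * m) := by
    have e3 : (m : ℝ) ^ (κ - 1) * m = (m : ℝ) ^ κ := by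
      rw [← Real.rpow_add_one hm0.ne']
      congr 1
      ring
    rw [e3]
    have h8 : ((m : ℝ) + 1) ^ κ ≤ (2 * (m : ℝ)) ^ κ :=
      Real.rpow_le_rpow (by positivity) (by linarith) hκ0
    refine h8.trans ?_
    rw [Real.mul_rpow (by norm_num) hm0.le]
    refine mul_le_mul_of_nonneg_right ?_ (Real.rpow_nonneg hm0.le _)
    calc (2 : ℝ) ^ κ ≤ (2 : ℝ) ^ (1 : ℝ) := Real.rpow_le_rpow_of_exponent_le (by norm_num) hκ1
      _ = 2 := Real.rpow_one 2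
  have h9 : (m : ℝ) * SS w m ≤ (Fintype.card F : ℝ) ^ m * (3 * (A * (2 * ((m : ℝ) ^ (κ - 1) * m)))) := by
    refine h1.trans ?_
    refine mul_le_mul_of_nonneg_left ?_ (by positivity)
    refine h3.trans ?_
    refine mul_le_mul_of_nonneg_left ?_ (by norm_num)
    exact h2.trans (mul_le_mul_of_nonneg_left h7 (by linarith))
  refine le_of_mul_le_mul_left ?_ hm0
  refine h9.trans (le_of_eq ?_)
  ring

end FZ
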