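import Pool.Agent.Lib.MP_1ad228_nt.FF.FExpand
import Pool.Agent.Lib.MP_1ad228_nt.FF.FUB

/-! JOB FUnlinked.  A pattern `Z` without linked pairs in which every index of `I` occurs.  MODEL over `ℕ`: `Pool/Agent/Lib/MP_10e784_ag/QUnlinked.lean` (and `Pool/Agent/Lib/MP_1ad228_ntR/RUnl.lean`).

Proof.  (1) Combinatorics: if `ℓ, ℓ' ∈ Z` have the same index `i` then `ℓ = ℓ'`.  Indeed for `j ∈ I`, `j ≠ i`, choose `ℓ'' ∈ Z` with
`idx ℓ'' = j`; no linked pair means `j ∈ St ℓ ↔ i ∈ St ℓ'' ↔ j ∈ St ℓ'`; and `St ℓ, St ℓ' ⊆ I \ {i}`; so `St ℓ = St ℓ'`, use `inj`.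
Hence for a prime `P`: `∑_{ℓ∈Z} |u ℓ P| ≤ ∑_{i∈I} h i P ≤ W P`.
(2) `|FF s u k d| ≤ ∏_{ℓ∈Z} pf (|u ℓ|) (d ℓ)`.  Write `d = b * d'` pointwise, `b ℓ = d ℓ` (of degree `≤ v`) off `Z` and `1` on `Z`, `d' ℓ = d ℓ` on `Z`
and `1` off `Z`.  For fixed `b` (total degree `s ≤ card L * v`) the vectors `d'` have squarefree product `n'` of degree `n - s`, and by `prod_sum_eq` (with `g ℓ = |u ℓ|` for
`ℓ ∈ Z`, `0` for `ℓ ∉ Z`) the sum over `d'` with product `n'` is `∏_{P∣n'} ∑_{ℓ∈Z} |u ℓ P| =: pf w n'`.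
(3) By `ub` with `m = n - s ≥ n/2 ≥ 1/2` the sum over `n'` is `SS w m ≤ 6 q^m m^(c-1) A ≤ 12 q^m n^(c-1) A` (`m ≥ n/2`, `-1 ≤ c - 1 ≤ 0`, `2^(1-c) ≤ 2`); and the sum over `b` of `q^(-s)` is at most the number of degree vectors: for each degree vector (in `[0,v]^L`) there are `q^s` vectors `b`:
total `≤ (v+1)^(card L)`. -/

namespace FZ

open Finset Polynomial

variable {F : Type} [Field F] [Fintype F] [DecidableEq F]

private theorem funl_inj {κ L : Type} [DecidableEq κ] (s : Sys κ L) (Z : Finset L)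
    (hall : ∀ i ∈ s.I, ∃ ℓ ∈ Z, s.idx ℓ = i)
    (hun : ∀ ℓ ∈ Z, ∀ ℓ' ∈ Z, ¬ Linked s ℓ ℓ') :
    ∀ ℓ ∈ Z, ∀ ℓ' ∈ Z, s.idx ℓ = s.idx ℓ' → ℓ = ℓ' := by
  have key : ∀ ℓ ∈ Z, ∀ ℓ' ∈ Z, s.idx ℓ = s.idx ℓ' → s.St ℓ ⊆ s.St ℓ' := by
    intro ℓ hℓ ℓ' hℓ' he j hj
    have hjI := s.St_sub ℓ hj
    have hji : j ≠ s.idx ℓ := by
      intro h
      exact s.not_mem ℓ (h ▸ hj)
    obtain ⟨m, hm, hmj⟩ := hall j hjI
    have h1 := hun m hm ℓ hℓ
    have h2 := hun ℓ' hℓ' m hm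
    unfold Linked at h1 h2
    rw [hmj] at h1 h2
    have h3 : s.idx ℓ ∈ s.St m := by
      by_contra hc
      exact h1 ⟨hji, hj, hc⟩
    by_contra hc
    rw [← he] at h2
    exact h2 ⟨fun h => hji h.symm, h3, hc⟩
  intro ℓ hℓ ℓ' hℓ' he
  exact s.inj ℓ ℓ' he (Subset.antisymm (key ℓ hℓ ℓ' hℓ' he) (key ℓ' hℓ' ℓ hℓ he.symm))

omit [Fintype F] [DecidableEq F] in
private theorem funl_pf_abs (w : F[X] → ℝ) (n : F[X]) : |pf w n| = pf (fun p => |w p|) n := by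
  unfold pf
  rw [abs_prod]

omit [Fintype F] [DecidableEq F] in
private theorem funl_pf_le_one (w : F[X] → ℝ) (hw : ∀ p, |w p| ≤ 1) (n : F[X]) : |pf w n| ≤ 1 := by
  rw [funl_pf_abs]
  unfold pf
  exact prod_le_one (fun i _ => abs_nonneg _) (fun i _ => hw i)

private theorem funl_FF {κ L : Type} [Fintype κ] [DecidableEq κ] [Fintype L] (s : Sys κ L)
    (u : L → F[X] → ℝ) (k : κ → F[X] → ℝ) (hk : ∀ i n, |k i n| ≤ 1) (d : L → F[X]) :
    |FF s u k d| ≤ ∏ ℓ, |pf (u ℓ) (d ℓ)| := by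
  unfold FF
  rw [abs_mul, abs_prod, abs_prod]
  have h1 : ∏ i, |k i (eOf s d i)| ≤ 1 := prod_le_one (fun i _ => abs_nonneg _) (fun i _ => hk _ _)
  have h2 : ∏ ℓ, |pf (u ℓ) (d ℓ) * ∏ j ∈ s.St ℓ, (jac (eOf s d j) (d ℓ) : ℝ)| ≤
      ∏ ℓ, |pf (u ℓ) (d ℓ)| := by
    apply prod_le_prod (fun i _ => abs_nonneg _)
    intro ℓ _
    rw [abs_mul, abs_prod]
    have : ∏ j ∈ s.St ℓ, |(jac (eOf s d j) (d ℓ) : ℝ)| ≤ 1 :=
      prod_le_one (fun i _ => abs_nonneg _) (fun i _ => jac_abs_le _ _)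
    exact mul_le_of_le_one_right (abs_nonneg _) this
  have h0 : 0 ≤ ∏ ℓ, |pf (u ℓ) (d ℓ) * ∏ j ∈ s.St ℓ, (jac (eOf s d j) (d ℓ) : ℝ)| :=
    prod_nonneg (fun i _ => abs_nonneg _)
  calc _ ≤ 1 * ∏ ℓ, |pf (u ℓ) (d ℓ) * ∏ j ∈ s.St ℓ, (jac (eOf s d j) (d ℓ) : ℝ)| :=
        mul_le_mul_of_nonneg_right h1 h0
    _ ≤ _ := by rw [one_mul]; exact h2

open Classical in
private theorem funl_harm (L : Type) [Fintype L] [DecidableEq L] (v : ℕ) :
    ∑ b ∈ (Fintype.piFinset fun _ : L => (range (v + 1)).biUnion (mon F)),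
      ((Fintype.card F : ℝ) ^ (∑ ℓ, (b ℓ).natDegree))⁻¹ = ((v : ℝ) + 1) ^ (Fintype.card L) := by
  have hq : (0 : ℝ) < (Fintype.card F : ℝ) := by
    have := two_le_card F
    exact_mod_cast (by omega : 0 < Fintype.card F)
  have h1 : ∑ b ∈ (Fintype.piFinset fun _ : L => (range (v + 1)).biUnion (mon F)),
      ((Fintype.card F : ℝ) ^ (∑ ℓ, (b ℓ).natDegree))⁻¹ =
      ∏ _ℓ : L, ∑ f ∈ (range (v + 1)).biUnion (mon F), ((Fintype.card F : ℝ) ^ f.natDegree)⁻¹ := by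
    rw [prod_univ_sum]
    apply sum_congr rfl
    intro b _
    rw [← prod_pow_eq_pow_sum, prod_inv_distrib]
  have h2 : ∑ f ∈ (range (v + 1)).biUnion (mon F), ((Fintype.card F : ℝ) ^ f.natDegree)⁻¹ = (v : ℝ) + 1 := by
    rw [sum_biUnion]
    · have h3 : ∀ j ∈ range (v + 1), ∑ f ∈ mon F j, ((Fintype.card F : ℝ) ^ f.natDegree)⁻¹ = 1 := by
        intro j _
        have h4 : ∀ f ∈ mon F j, ((Fintype.card F : ℝ) ^ f.natDegree)⁻¹ = ((Fintype.card F : ℝ) ^ j)⁻¹ := by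
          intro f hf
          rw [((mem_mon F).1 hf).2]
        rw [sum_congr rfl h4, sum_const, card_mon, nsmul_eq_mul]
        push_cast
        exact mul_inv_cancel₀ (by positivity)
      rw [sum_congr rfl h3, sum_const, card_range, nsmul_eq_mul, mul_one]
      push_cast
      ring
    · intro i _ j _ hij
      rw [Function.onFun, Finset.disjoint_left]
      intro f h3 h4
      exact hij (((mem_mon F).1 h3).2.symm.trans ((mem_mon F).1 h4).2)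
  rw [h1, h2, prod_const, card_univ]

open Classical in
private theorem funl_box {F : Type} [Field F] [Fintype F] {L : Type} [Fintype L] [DecidableEq L] (g : L → F[X] → ℝ) (m : ℕ) :
    ∑ d ∈ Box F L m, ∏ ℓ, pf (g ℓ) (d ℓ) = SS (fun P => ∑ ℓ, g ℓ P) m := by
  unfold SS
  have hmaps : ∀ d ∈ Box F L m, ∏ ℓ, d ℓ ∈ (mon F m).filter Squarefree := by
    intro d hd
    rw [mem_Box] at hd
    rw [mem_filter, mem_mon]
    refine ⟨⟨monic_prod_of_monic _ _ fun ℓ _ => hd.1 ℓ, ?_⟩, hd.2.2⟩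
    rw [natDegree_prod_of_monic _ _ fun ℓ _ => hd.1 ℓ]
    exact hd.2.1
  rw [← sum_fiberwise_of_maps_to hmaps]
  apply sum_congr rfl
  intro n hn
  rw [mem_filter, mem_mon] at hn
  have h := prod_sum_eq g n hn.1.1 hn.2
  have e : pf (fun P => ∑ ℓ, g ℓ P) n = ∏ P ∈ pfac n, ∑ ℓ, g ℓ P := rfl
  rw [e, h]
  apply sum_congr _ (fun _ _ => rfl)
  ext d
  refine (Finset.mem_filter.trans ?_).trans Finset.mem_filter.symm
  rw [mem_Box, mem_Vec, hn.1.2]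
  constructor
  · rintro ⟨⟨h1, h2, _⟩, h3⟩
    exact ⟨⟨h1, h2⟩, h3⟩
  · rintro ⟨⟨h1, h2⟩, h3⟩
    refine ⟨⟨h1, h2, ?_⟩, h3⟩
    rw [h3]
    exact hn.2

theorem unlinked_bound {κ L : Type} [Fintype κ] [DecidableEq κ] [Fintype L] [DecidableEq L] (s : Sys κ L)
    (u : L → F[X] → ℝ) (k : κ → F[X] → ℝ) (h : κ → F[X] → ℝ) (W : F[X] → ℝ) (c A : ℝ) (v n : ℕ) (Z : Finset L)
    (hE : EB W c A) (hc0 : 0 ≤ c) (hc1 : c ≤ 1) (hu : ∀ ℓ P, |u ℓ P| ≤ 1) (hk : ∀ i f, |k i f| ≤ 1)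
    (huh : ∀ ℓ P, P.Monic → Irreducible P → |u ℓ P| ≤ h (s.idx ℓ) P) (hh : ∀ i P, 0 ≤ h i P)
    (hw : ∀ P, P.Monic → Irreducible P → ∑ i ∈ s.I, h i P ≤ W P)
    (hn : 1 ≤ n) (hvn : 2 * (Fintype.card L * v) ≤ n)
    (hall : ∀ i ∈ s.I, ∃ ℓ ∈ Z, s.idx ℓ = i)
    (hun : ∀ ℓ ∈ Z, ∀ ℓ' ∈ Z, ¬ Linked s ℓ ℓ') :
    |∑ d ∈ (Box F L n) with (∀ ℓ, ℓ ∈ Z ↔ v < (d ℓ).natDegree), FF s u k d| ≤
      12 * (Fintype.card F : ℝ) ^ n * (n : ℝ) ^ (c - 1) * A * ((v : ℝ) + 1) ^ (Fintype.card L) := by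
  classical
  have hinjZ := funl_inj s Z hall hun
  have hA1 := hE.hA
  have hn0 : (0 : ℝ) < n := by exact_mod_cast hn
  have hq : (0 : ℝ) < (Fintype.card F : ℝ) := by
    have := two_le_card F
    exact_mod_cast (by omega : 0 < Fintype.card F)
  -- the local functions
  set g : L → F[X] → ℝ := fun ℓ p => if ℓ ∈ Z then |u ℓ p| else 0 with hg
  have hg0 : ∀ ℓ p, 0 ≤ g ℓ p := by
    intro ℓ p
    simp only [hg]
    split_ifs
    · exact abs_nonneg _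
    · exact le_rfl
  have hgw : ∀ p : F[X], p.Monic → Irreducible p → 0 ≤ ∑ ℓ, g ℓ p ∧ ∑ ℓ, g ℓ p ≤ W p := by
    intro p hp hp'
    refine ⟨sum_nonneg fun ℓ _ => hg0 ℓ p, ?_⟩
    have e1 : ∑ ℓ, g ℓ p = ∑ ℓ ∈ Z, |u ℓ p| := by
      simp only [hg]
      rw [sum_ite_mem, univ_inter]
    have e2 : ∑ ℓ ∈ Z, h (s.idx ℓ) p = ∑ i ∈ Z.image s.idx, h i p := by
      rw [sum_image]
      intro a ha b hb hab
      exact hinjZ a ha b hb hab
    have e3 : ∑ i ∈ Z.image s.idx, h i p ≤ ∑ i ∈ s.I, h i p := by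
      apply sum_le_sum_of_subset_of_nonneg
      · intro i hi
        rw [mem_image] at hi
        obtain ⟨ℓ, _, rfl⟩ := hi
        exact s.idx_mem ℓ
      · intro i _ _
        exact hh i p
    rw [e1]
    calc ∑ ℓ ∈ Z, |u ℓ p| ≤ ∑ ℓ ∈ Z, h (s.idx ℓ) p := sum_le_sum fun ℓ _ => huh ℓ p hp hp'
      _ = ∑ i ∈ Z.image s.idx, h i p := e2
      _ ≤ ∑ i ∈ s.I, h i p := e3
      _ ≤ _ := hw p hp hp'
  set D : (L → F[X]) → Finset (L → F[X]) := fun b => Box F L (n - ∑ ℓ, (b ℓ).natDegree) with hD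
  set BB : Finset (L → F[X]) := Fintype.piFinset fun _ : L => (range (v + 1)).biUnion (mon F) with hBB
  set G : (L → F[X]) → ℝ := fun d => ∏ ℓ, pf (g ℓ) (d ℓ) with hG
  have hG0 : ∀ d, 0 ≤ G d := fun d => prod_nonneg fun ℓ _ => prod_nonneg fun p _ => hg0 ℓ p
  -- splitting
  set fb : (L → F[X]) → (L → F[X]) := fun d ℓ => if ℓ ∈ Z then 1 else d ℓ with hfb
  set fd : (L → F[X]) → (L → F[X]) := fun d ℓ => if ℓ ∈ Z then d ℓ else 1 with hfd
  set T : Finset (L → F[X]) := (Box F L n).filter (fun d => ∀ ℓ, ℓ ∈ Z ↔ v < (d ℓ).natDegree) with hT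
  have hstep1 : |∑ d ∈ T, FF s u k d| ≤ ∑ d ∈ T, G (fd d) := by
    refine (abs_sum_le_sum_abs _ _).trans (sum_le_sum fun d _ => ?_)
    refine (funl_FF s u k hk d).trans ?_
    simp only [hG]
    apply prod_le_prod (fun ℓ _ => abs_nonneg _)
    intro ℓ _
    by_cases hℓ : ℓ ∈ Z
    · rw [funl_pf_abs]
      simp only [hfd, hg, if_pos hℓ]
      exact le_rfl
    · have e : pf (g ℓ) (fd d ℓ) = 1 := by
        simp only [hfd, if_neg hℓ]
        exact pf_one _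
      rw [e]
      exact funl_pf_le_one (u ℓ) (hu ℓ) (d ℓ)
  have hbd : ∀ d : L → F[X], ∀ ℓ, fb d ℓ * fd d ℓ = d ℓ := by
    intro d ℓ
    simp only [hfb, hfd]
    split_ifs <;> simp
  have hprod : ∀ d : L → F[X], (∏ ℓ, fd d ℓ) * (∏ ℓ, fb d ℓ) = ∏ ℓ, d ℓ := by
    intro d
    rw [← prod_mul_distrib]
    apply prod_congr rfl
    intro ℓ _
    rw [mul_comm]
    exact hbd d ℓ
  have hdeg : ∀ d : L → F[X], (∑ ℓ, (fd d ℓ).natDegree) + (∑ ℓ, (fb d ℓ).natDegree) =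
      ∑ ℓ, (d ℓ).natDegree := by
    intro d
    rw [← sum_add_distrib]
    apply sum_congr rfl
    intro ℓ _
    simp only [hfb, hfd]
    split_ifs <;> simp
  have hstep2 : ∑ d ∈ T, G (fd d) ≤ ∑ x ∈ BB.sigma D, G x.2 := by
    have hinj : Set.InjOn (fun d : L → F[X] => (⟨fb d, fd d⟩ : (_ : L → F[X]) × (L → F[X])))
        (T : Set (L → F[X])) := by
      intro a _ b _ hab
      have h1 : fb a = fb b := congrArg (fun z : (_ : L → F[X]) × (L → F[X]) => z.1) hab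
      have h2 : fd a = fd b := congrArg (fun z : (_ : L → F[X]) × (L → F[X]) => z.2) hab
      funext ℓ
      rw [← hbd a ℓ, ← hbd b ℓ, h1, h2]
    have e : ∑ d ∈ T, G (fd d) = ∑ x ∈ T.image
        (fun d : L → F[X] => (⟨fb d, fd d⟩ : (_ : L → F[X]) × (L → F[X]))), G x.2 := by
      rw [sum_image hinj]
    rw [e]
    apply sum_le_sum_of_subset_of_nonneg
    · intro x hx
      rw [mem_image] at hx
      obtain ⟨d, hd, rfl⟩ := hx
      rw [hT, mem_filter] at hd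
      obtain ⟨hd1, hd2⟩ := hd
      rw [mem_Box] at hd1
      obtain ⟨hd3, hd4, hd5⟩ := hd1
      rw [mem_sigma]
      constructor
      · rw [hBB, Fintype.mem_piFinset]
        intro ℓ
        rw [mem_biUnion]
        simp only [hfb]
        by_cases hℓ : ℓ ∈ Z
        · rw [if_pos hℓ]
          exact ⟨0, mem_range.2 (Nat.succ_pos v), (mem_mon F).2 ⟨monic_one, natDegree_one⟩⟩
        · rw [if_neg hℓ]
          refine ⟨(d ℓ).natDegree, mem_range.2 ?_, (mem_mon F).2 ⟨hd3 ℓ, rfl⟩⟩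
          by_contra hc
          exact hℓ ((hd2 ℓ).2 (by omega))
      · simp only [hD]
        rw [mem_Box]
        refine ⟨?_, ?_, ?_⟩
        · intro ℓ
          simp only [hfd]
          by_cases hℓ : ℓ ∈ Z
          · rw [if_pos hℓ]
            exact hd3 ℓ
          · rw [if_neg hℓ]
            exact monic_one
        · have := hdeg d
          omega
        · rw [← hprod d] at hd5
          exact hd5.of_mul_left
    · intro x _ _
      exact hG0 _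
  have hstep3 : ∑ x ∈ BB.sigma D, G x.2 = ∑ b ∈ BB, ∑ d ∈ D b, G d := by
    rw [sum_sigma]
  have hstep4 : ∀ b ∈ BB, ∑ d ∈ D b, G d ≤
      12 * (Fintype.card F : ℝ) ^ n * (n : ℝ) ^ (c - 1) * A *
        ((Fintype.card F : ℝ) ^ (∑ ℓ, (b ℓ).natDegree))⁻¹ := by
    intro b hb
    rw [hBB, Fintype.mem_piFinset] at hb
    have hbv : ∑ ℓ, (b ℓ).natDegree ≤ Fintype.card L * v := by
      rw [← card_univ, ← smul_eq_mul, ← sum_const]
      apply sum_le_sum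
      intro ℓ _
      obtain ⟨j, hj, hj'⟩ := mem_biUnion.1 (hb ℓ)
      rw [((mem_mon F).1 hj').2]
      have := mem_range.1 hj
      omega
    set sb : ℕ := ∑ ℓ, (b ℓ).natDegree with hsb
    have hm1 : 1 ≤ n - sb := by omega
    have hmn : (n : ℝ) / 2 ≤ ((n - sb : ℕ) : ℝ) := by
      rw [div_le_iff₀ (by norm_num)]
      have : n ≤ (n - sb) * 2 := by omega
      exact_mod_cast this
    have hin : ∑ d ∈ D b, G d ≤ 6 * (Fintype.card F : ℝ) ^ (n - sb) * ((n - sb : ℕ) : ℝ) ^ (c - 1) * A := by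
      simp only [hD, hG]
      rw [funl_box g]
      exact ub hE hc0 hc1 _ hgw _ hm1
    have hpow : ((n - sb : ℕ) : ℝ) ^ (c - 1) ≤ 2 * (n : ℝ) ^ (c - 1) := by
      calc ((n - sb : ℕ) : ℝ) ^ (c - 1) ≤ ((n : ℝ) / 2) ^ (c - 1) :=
            Real.rpow_le_rpow_of_nonpos (by positivity) hmn (by linarith)
        _ = (n : ℝ) ^ (c - 1) * (2 : ℝ) ^ (1 - c) := by
            rw [Real.div_rpow hn0.le (by norm_num), show (1 - c) = -(c - 1) by ring,
              Real.rpow_neg (by norm_num : (0 : ℝ) ≤ 2), div_eq_mul_inv]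
        _ ≤ (n : ℝ) ^ (c - 1) * 2 := by
            apply mul_le_mul_of_nonneg_left _ (by positivity)
            calc (2 : ℝ) ^ (1 - c) ≤ (2 : ℝ) ^ (1 : ℝ) :=
                  Real.rpow_le_rpow_of_exponent_le (by norm_num) (by linarith)
              _ = 2 := Real.rpow_one 2
        _ = _ := by ring
    have hA0 : 0 ≤ A := by linarith
    have hqq : (Fintype.card F : ℝ) ^ (n - sb) = (Fintype.card F : ℝ) ^ n * ((Fintype.card F : ℝ) ^ sb)⁻¹ := by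
      rw [pow_sub₀ _ hq.ne' (by omega)]
    calc ∑ d ∈ D b, G d ≤ _ := hin
      _ ≤ 6 * (Fintype.card F : ℝ) ^ (n - sb) * (2 * (n : ℝ) ^ (c - 1)) * A := by
          apply mul_le_mul_of_nonneg_right _ hA0
          apply mul_le_mul_of_nonneg_left hpow (by positivity)
      _ = _ := by
          rw [hqq]
          ring
  rw [hstep3] at hstep2
  refine hstep1.trans (hstep2.trans ((sum_le_sum hstep4).trans ?_))
  rw [← mul_sum, hBB, funl_harm L v]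

end FZ
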