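import Pool.Agent.Lib.MP_1ad228_nt.FF.FExpand
import Pool.Agent.Lib.MP_1ad228_nt.FF.FLinked
import Pool.Agent.Lib.MP_1ad228_nt.FF.FUnlinked

/-! JOB FEngine.  The main estimate.  MODEL over `ℕ`: `Pool/Agent/Lib/MP_10e784_ag/QEngine.lean` (or `Pool/Agent/Lib/MP_1ad228_ntR/REng.lean`), same proof.

Proof.  `K = 2 card L + 1`, `C = 12 * 2^(card L)`.  Apply `expand` with `k i f = if i ∈ I then (if t < deg f then 1 else 0) else 1`; the filter on `e` in the
statement is the same as multiplying by `∏ k i (e i)`.  Split `Box L n` by the pattern `Z = {ℓ | v < deg (d ℓ)}` (`2^(card L)` patterns).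
* If `Z` contains `ℓ0, ℓ1` with `Linked s ℓ0 ℓ1`: `linked_bound`.
* If some `i ∈ I` has no label in `Z`: then `deg (eOf s d i) ≤ card L * v ≤ K v ≤ t`, so `k i (eOf s d i) = 0` and the pattern contributes `0`.
* Otherwise `unlinked_bound`. -/

namespace FZ

open Finset Polynomial

/-- the cut-off functions used in `engine` -/
private noncomputable def fengK {F : Type} [Field F] {κ : Type} [DecidableEq κ] (I : Finset κ) (t : ℕ)
    (i : κ) (f : F[X]) : ℝ :=
  if i ∈ I then (if t < f.natDegree then 1 else 0) else 1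

private theorem fengK_abs {F : Type} [Field F] {κ : Type} [DecidableEq κ] (I : Finset κ) (t : ℕ) (i : κ)
    (f : F[X]) : |fengK I t i f| ≤ 1 := by
  unfold fengK
  split_ifs <;> simp

private theorem fengK_prod {F : Type} [Field F] {κ : Type} [Fintype κ] [DecidableEq κ] (I : Finset κ)
    (t : ℕ) (e : κ → F[X]) :
    ∏ i, fengK I t i (e i) = if (∀ i ∈ I, t < (e i).natDegree) then (1 : ℝ) else 0 := by
  split_ifs with h
  · apply Finset.prod_eq_one
    intro i _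
    unfold fengK
    split_ifs with h1 h2
    · rfl
    · exact absurd (h i h1) h2
    · rfl
  · push Not at h
    obtain ⟨i, hi, hle⟩ := h
    apply Finset.prod_eq_zero (Finset.mem_univ i)
    unfold fengK
    rw [if_pos hi, if_neg (not_lt.2 hle)]

private theorem feng_pattern {F : Type} [Field F] [Fintype F] [DecidableEq F] {κ L : Type} [Fintype κ]
    [DecidableEq κ] [Fintype L] [DecidableEq L]
    (s : Sys κ L) (u : L → F[X] → ℝ) (v t n K : ℕ) (Z : Finset L) (i : κ) (hi : i ∈ s.I)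
    (hno : ∀ ℓ ∈ Z, s.idx ℓ ≠ i) (hK : Fintype.card L ≤ K) (hvt : K * v ≤ t) :
    ∑ d ∈ (Box F L n) with (∀ ℓ, ℓ ∈ Z ↔ v < (d ℓ).natDegree), FF s u (fengK s.I t) d = 0 := by
  apply Finset.sum_eq_zero
  intro d hd
  rw [Finset.mem_filter] at hd
  obtain ⟨hdB, hZ⟩ := hd
  have hmon := ((mem_Box F).1 hdB).1
  have hle : (eOf s d i).natDegree ≤ t := by
    unfold eOf
    rw [Polynomial.natDegree_prod_of_monic _ _ (fun ℓ _ => hmon ℓ)]
    calc ∑ ℓ with s.idx ℓ = i, (d ℓ).natDegree ≤ ∑ ℓ with s.idx ℓ = i, v := by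
          apply Finset.sum_le_sum
          intro ℓ hℓ
          rw [Finset.mem_filter] at hℓ
          have hnot : ℓ ∉ Z := fun hmem => hno ℓ hmem hℓ.2
          rw [hZ ℓ] at hnot
          exact not_lt.1 hnot
      _ = (Finset.univ.filter fun ℓ => s.idx ℓ = i).card * v := by
          rw [Finset.sum_const, smul_eq_mul]
      _ ≤ K * v := Nat.mul_le_mul_right _ ((Finset.card_le_univ _).trans hK)
      _ ≤ t := hvt
  unfold FF
  have : ∏ i, fengK s.I t i (eOf s d i) = 0 := by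
    apply Finset.prod_eq_zero (Finset.mem_univ i)
    unfold fengK
    rw [if_pos hi, if_neg (not_lt.2 hle)]
  rw [this, zero_mul]

theorem engine {κ L : Type} [Fintype κ] [DecidableEq κ] [Fintype L] [DecidableEq L] (s : Sys κ L)
    (c : ℝ) (hc0 : 0 ≤ c) (hc1 : c ≤ 1) :
    ∃ (C : ℝ) (K : ℕ), 0 < C ∧
    ∀ (F : Type) [Field F] [Fintype F] [DecidableEq F], ringChar F ≠ 2 →
    ∀ (u : L → F[X] → ℝ) (h : κ → F[X] → ℝ) (W : F[X] → ℝ) (A : ℝ) (v t n : ℕ),
    EB W c A → (∀ ℓ P, |u ℓ P| ≤ 1) →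
    (∀ ℓ P, P.Monic → Irreducible P → |u ℓ P| ≤ h (s.idx ℓ) P) → (∀ i P, 0 ≤ h i P) →
    (∀ P, P.Monic → Irreducible P → ∑ i ∈ s.I, h i P ≤ W P) → K * v ≤ t → K * v ≤ n → 1 ≤ n →
    |∑ e ∈ (Box F κ n) with (∀ i ∈ s.I, t < (e i).natDegree), ∏ i, ∏ P ∈ pfac (e i),
        ∑ ℓ with s.idx ℓ = i, u ℓ P * ∏ j ∈ s.St ℓ, (jac (e j) P : ℝ)| ≤
      C * (Fintype.card F : ℝ) ^ n * (((n : ℝ) + 1) ^ K * (Fintype.card F : ℝ) ^ (-(v : ℝ) / 4) +
        (n : ℝ) ^ (c - 1) * A * ((v : ℝ) + 1) ^ K) := by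
  refine ⟨12 * 2 ^ (Fintype.card L), 2 * Fintype.card L + 1, by positivity, ?_⟩
  intro F _ _ _ h2 u h W A v t n hE hu huh hh hw hvt hvn hn
  set K : ℕ := 2 * Fintype.card L + 1 with hK
  have hA1 : (0 : ℝ) ≤ A := by linarith [hE.hA]
  have hqp : (0 : ℝ) ≤ (Fintype.card F : ℝ) ^ n := by positivity
  have hVp : (0 : ℝ) ≤ (Fintype.card F : ℝ) ^ (-(v : ℝ) / 4) := Real.rpow_nonneg (by positivity) _
  have hLp : (0 : ℝ) ≤ (n : ℝ) ^ (c - 1) := Real.rpow_nonneg (by positivity) _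
  -- rewrite the left side
  have hLHS : ∑ e ∈ (Box F κ n) with (∀ i ∈ s.I, t < (e i).natDegree), ∏ i, ∏ P ∈ pfac (e i),
        ∑ ℓ with s.idx ℓ = i, u ℓ P * ∏ j ∈ s.St ℓ, (jac (e j) P : ℝ) =
      ∑ d ∈ Box F L n, FF s u (fengK s.I t) d := by
    rw [← expand s u (fengK s.I t) n, Finset.sum_filter]
    apply Finset.sum_congr rfl
    intro e _
    rw [Finset.prod_mul_distrib, fengK_prod]
    split_ifs <;> simp
  rw [hLHS]
  -- split by patterns
  have hsplit : ∑ d ∈ Box F L n, FF s u (fengK s.I t) d =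
      ∑ Z : Finset L, ∑ d ∈ (Box F L n) with (∀ ℓ, ℓ ∈ Z ↔ v < (d ℓ).natDegree),
        FF s u (fengK s.I t) d := by
    classical
    rw [← Finset.sum_fiberwise (Box F L n) (fun d => Finset.univ.filter fun ℓ => v < (d ℓ).natDegree)
      (fun d => FF s u (fengK s.I t) d)]
    apply Finset.sum_congr rfl
    intro Z _
    apply Finset.sum_congr _ (fun _ _ => rfl)
    apply Finset.filter_congr
    intro d _
    constructor
    · intro hE ℓ
      rw [← hE]
      simp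
    · intro hE
      ext ℓ
      rw [Finset.mem_filter, hE ℓ]
      simp
  rw [hsplit]
  set M : ℝ := 12 * (Fintype.card F : ℝ) ^ n * (((n : ℝ) + 1) ^ K * (Fintype.card F : ℝ) ^ (-(v : ℝ) / 4) +
        (n : ℝ) ^ (c - 1) * A * ((v : ℝ) + 1) ^ K) with hM
  have hA : 0 ≤ ((n : ℝ) + 1) ^ K * (Fintype.card F : ℝ) ^ (-(v : ℝ) / 4) :=
    mul_nonneg (by positivity) hVp
  have hBB : 0 ≤ (n : ℝ) ^ (c - 1) * A * ((v : ℝ) + 1) ^ K :=
    mul_nonneg (mul_nonneg hLp hA1) (by positivity)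
  have hM0 : 0 ≤ M := by
    rw [hM]
    exact mul_nonneg (by positivity) (add_nonneg hA hBB)
  have hbound : ∀ Z : Finset L,
      |∑ d ∈ (Box F L n) with (∀ ℓ, ℓ ∈ Z ↔ v < (d ℓ).natDegree), FF s u (fengK s.I t) d| ≤ M := by
    intro Z
    by_cases hl : ∃ ℓ0 ∈ Z, ∃ ℓ1 ∈ Z, Linked s ℓ0 ℓ1
    · obtain ⟨ℓ0, h0, ℓ1, h1, hL⟩ := hl
      refine (linked_bound h2 s u (fengK s.I t) v n Z ℓ0 ℓ1 hu (fun i n => fengK_abs _ _ _ _) h0 h1
        hL).trans ?_
      have e1 : ((n : ℝ) + 1) ^ (Fintype.card L + 1) ≤ ((n : ℝ) + 1) ^ K :=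
        pow_le_pow_right₀ (by linarith [(Nat.cast_nonneg n : (0 : ℝ) ≤ n)]) (by omega)
      calc (Fintype.card F : ℝ) ^ n * (n + 1) ^ (Fintype.card L + 1) *
            (Fintype.card F : ℝ) ^ (-(v : ℝ) / 4)
          ≤ (Fintype.card F : ℝ) ^ n * ((n : ℝ) + 1) ^ K * (Fintype.card F : ℝ) ^ (-(v : ℝ) / 4) := by
            apply mul_le_mul_of_nonneg_right _ hVp
            apply mul_le_mul_of_nonneg_left e1 hqp
        _ = (Fintype.card F : ℝ) ^ n * (((n : ℝ) + 1) ^ K *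
            (Fintype.card F : ℝ) ^ (-(v : ℝ) / 4)) := by ring
        _ ≤ 12 * (Fintype.card F : ℝ) ^ n * (((n : ℝ) + 1) ^ K *
            (Fintype.card F : ℝ) ^ (-(v : ℝ) / 4)) := by
            apply mul_le_mul_of_nonneg_right _ hA
            linarith
        _ ≤ M := by
            rw [hM]
            apply mul_le_mul_of_nonneg_left _ (by positivity)
            linarith
    · by_cases hall : ∀ i ∈ s.I, ∃ ℓ ∈ Z, s.idx ℓ = i
      · have hun : ∀ ℓ ∈ Z, ∀ ℓ' ∈ Z, ¬ Linked s ℓ ℓ' := by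
          intro ℓ hℓ ℓ' hℓ' hL
          exact hl ⟨ℓ, hℓ, ℓ', hℓ', hL⟩
        have hvn2 : 2 * (Fintype.card L * v) ≤ n := by
          have e3 : K * v = 2 * (Fintype.card L * v) + v := by rw [hK]; ring
          omega
        refine (unlinked_bound s u (fengK s.I t) h W c A v n Z hE hc0 hc1 hu
          (fun i n => fengK_abs _ _ _ _) huh hh hw hn hvn2 hall hun).trans ?_
        have e1 : ((v : ℝ) + 1) ^ (Fintype.card L) ≤ ((v : ℝ) + 1) ^ K :=
          pow_le_pow_right₀ (by linarith [(Nat.cast_nonneg v : (0 : ℝ) ≤ v)]) (by omega)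
        calc 12 * (Fintype.card F : ℝ) ^ n * (n : ℝ) ^ (c - 1) * A * ((v : ℝ) + 1) ^ (Fintype.card L)
            ≤ 12 * (Fintype.card F : ℝ) ^ n * (n : ℝ) ^ (c - 1) * A * ((v : ℝ) + 1) ^ K := by
              apply mul_le_mul_of_nonneg_left e1
              exact mul_nonneg (mul_nonneg (by positivity) hLp) hA1
          _ = 12 * (Fintype.card F : ℝ) ^ n * ((n : ℝ) ^ (c - 1) * A * ((v : ℝ) + 1) ^ K) := by ring
          _ ≤ M := by
              rw [hM]
              apply mul_le_mul_of_nonneg_left _ (by positivity)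
              linarith
      · push Not at hall
        obtain ⟨i, hi, hno⟩ := hall
        rw [feng_pattern s u v t n K Z i hi hno (by omega) hvt, abs_zero]
        exact hM0
  calc |∑ Z : Finset L, ∑ d ∈ (Box F L n) with (∀ ℓ, ℓ ∈ Z ↔ v < (d ℓ).natDegree),
        FF s u (fengK s.I t) d|
      ≤ ∑ Z : Finset L, |∑ d ∈ (Box F L n) with (∀ ℓ, ℓ ∈ Z ↔ v < (d ℓ).natDegree),
        FF s u (fengK s.I t) d| :=
        Finset.abs_sum_le_sum_abs _ _
    _ ≤ ∑ _Z : Finset L, M := Finset.sum_le_sum fun Z _ => hbound Z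
    _ = 2 ^ (Fintype.card L) * M := by
        rw [Finset.sum_const, Finset.card_univ, Fintype.card_finset, nsmul_eq_mul]
        push_cast
        ring
    _ = 12 * 2 ^ (Fintype.card L) * (Fintype.card F : ℝ) ^ n *
        (((n : ℝ) + 1) ^ K * (Fintype.card F : ℝ) ^ (-(v : ℝ) / 4) +
        (n : ℝ) ^ (c - 1) * A * ((v : ℝ) + 1) ^ K) := by
        rw [hM]; ring

end FZ
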