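import Pool.Agent.Lib.MP_1ad228_nt.FF.FHall
import Pool.Agent.Lib.MP_1ad228_nt.FF.FCharB

/-! JOB FEuler.  Euler products over `F[t]`.  (Models over `ℕ`: `Pool/Agent/Lib/MP_10e784_ag/QEuler.lean` and, for the second half, `Pool/Agent/Lib/MP_1ad228_ntR/REuler.lean` (in the skeleton tgz).)

Let `u = x/q ∈ [0, 1/q)`, `x = q u < 1`, `t P = u^(deg P) ∈ [0, 1/2]` for monic irreducible `P` (`q ≥ 2`), `PP K` the finite set of the monic irreducible polynomials of degree at most `K`.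

`euler_finite`: for a completely multiplicative `χ` (on monic polynomials) with `|χ| ≤ 1` and any `K`:
`|∏_{P ∈ PP K} (1 - χ P t P)⁻¹ - ∑_{m ≤ K} (∑_{f ∈ mon m} χ f) u^m| ≤ ∑_{m > K} (q u)^m = x^(K+1)/(1-x)`.
  Proof.  For finite `S` of monic irreducible polynomials `∏_{P∈S} (1 - χ P t P)⁻¹ = ∑'_{f} χ f u^(deg f)` over the set `M(S)` of the monic polynomials all of whose prime factors are in `S` (induction on `S`: `f = P^k g`, geometric series,
  absolutely summable since `∑_f u^(deg f) ≤ ∑_m (q u)^m`; alternatively with exponent vectors: `M(S) ≃ (S → ℕ)` by unique factorisation and `∏_{P∈S} ∑'_k (χ P t P)^k = ∑'_{k : S → ℕ} ∏_P (χ P t P)^(k P)`).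
  `M(PP K)` contains all monic polynomials of degree `≤ K`, and the remaining ones contribute at most `∑_{m>K} (q u)^m`.
`sum_le_prod`: `∑_{j<M} SS w j u^j ≤ ∏_{P∈PP K} (1 + w P t P)` for `K ≥ M` (`Finset.prod_one_add`: expand the product over the subsets of `PP K`, all terms are `≥ 0`, a squarefree monic `f` of degree `< M` is the product over the subset `pfac f`).
`exp_sum_le`: for `P ∈ PP K`, `exp ((1 + χ P) t) = exp t exp (χ P t) ≤ (1 - t)⁻¹ (1 - χ P t)⁻¹` (`exp y ≤ (1 - y)⁻¹` for `y < 1`).  For `K' ≥ K`, `exp (∑_{PP K} (1 + χ P) t P) ≤ exp (∑_{PP K'} ...) ≤ ∏_{PP K'} (1-t)⁻¹ ∏_{PP K'} (1 - χ t)⁻¹`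
(`(1 + χ P) t P ≥ 0`), and by `euler_finite` (for `1` and for `χ`) the products are at most `∑_{m ≤ K'} x^m + x^(K'+1)/(1-x) = (1-x)⁻¹` (for `χ = 1`: `card_mon`) and `B + x^(K'+1)/(1-x)`.  Let `K' → ∞` (the left side does not depend on `K'`).
`eb_of_chars`: exactly as in `REuler.lean`: `1 + W t ≤ exp (W t)`, `∑_P W(P) t P = ∑_j (c_j/2) ∑_P (1 + χ_j P) t P ≤ ∑_j (c_j/2) log ((1-x)⁻¹ B) ≤ (1/2) log ((1-x)⁻¹ B)`. -/

namespace FZ

open Finset Polynomial

variable {F : Type} [Field F] [Fintype F]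

/-- A weight `W` on the monic irreducible polynomials with values in `[0,1]` whose squarefree generating series is at most
`A (1-x)^(-κ)` for all `x = q^(1-σ) ∈ [0,1)`. -/
structure EB (W : F[X] → ℝ) (κ A : ℝ) : Prop where
  nonneg : ∀ P : F[X], P.Monic → Irreducible P → 0 ≤ W P
  le_one : ∀ P : F[X], P.Monic → Irreducible P → W P ≤ 1
  hA : 1 ≤ A
  bound : ∀ x : ℝ, 0 ≤ x → x < 1 → ∀ M : ℕ,
    ∑ j ∈ range M, SS W j * (x / (Fintype.card F : ℝ)) ^ j ≤ A * ((1 - x)⁻¹) ^ κ

open Classical in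
/-- the monic irreducible polynomials of degree at most `K` -/
noncomputable def PP (F : Type) [Field F] [Fintype F] (K : ℕ) : Finset F[X] :=
  ((range (K + 1)).biUnion (mon F)).filter fun P => Irreducible P

theorem mem_PP {K : ℕ} {P : F[X]} : P ∈ PP F K ↔ P.Monic ∧ Irreducible P ∧ P.natDegree ≤ K := by
  classical
  unfold PP
  rw [Finset.mem_filter, Finset.mem_biUnion]
  constructor
  · rintro ⟨⟨m, hm, hP⟩, hi⟩
    rw [mem_mon] at hP
    rw [Finset.mem_range] at hm
    exact ⟨hP.1, hi, by omega⟩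
  · rintro ⟨h1, h2, h3⟩
    exact ⟨⟨P.natDegree, Finset.mem_range.2 (by omega), (mem_mon F).2 ⟨h1, rfl⟩⟩, h2⟩

/-- all the prime factors of `f` are in `S` -/
private def FEuler_sm (S : Finset F[X]) (f : F[X]) : Prop :=
  ∀ Q : F[X], Q.Monic → Irreducible Q → Q ∣ f → Q ∈ S

open Classical in
/-- sum of `χ` over the smooth monic polynomials of degree `m` -/
private noncomputable def FEuler_A (χ : F[X] → ℝ) (S : Finset F[X]) (m : ℕ) : ℝ :=
  ∑ f ∈ (mon F m).filter (FEuler_sm S), χ f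

private theorem FEuler_q : (2 : ℝ) ≤ (Fintype.card F : ℝ) := by
  exact_mod_cast two_le_card F

private theorem FEuler_abs (χ : F[X] → ℝ) (hle : ∀ f, |χ f| ≤ 1) (S : Finset F[X]) (m : ℕ) :
    |FEuler_A χ S m| ≤ (Fintype.card F : ℝ) ^ m := by
  classical
  unfold FEuler_A
  calc |∑ f ∈ (mon F m).filter (FEuler_sm S), χ f| ≤ ∑ f ∈ (mon F m).filter (FEuler_sm S), |χ f| :=
        Finset.abs_sum_le_sum_abs _ _
    _ ≤ ∑ f ∈ (mon F m).filter (FEuler_sm S), (1 : ℝ) := Finset.sum_le_sum fun f _ => hle f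
    _ = (((mon F m).filter (FEuler_sm S)).card : ℝ) := by simp
    _ ≤ ((mon F m).card : ℝ) := by exact_mod_cast Finset.card_filter_le _ _
    _ = (Fintype.card F : ℝ) ^ m := by
        rw [card_mon]
        push_cast
        rfl

private theorem FEuler_term (χ : F[X] → ℝ) (hle : ∀ f, |χ f| ≤ 1) (S : Finset F[X]) (x : ℝ) (hx0 : 0 ≤ x) (m : ℕ) :
    ‖FEuler_A χ S m * (x / (Fintype.card F : ℝ)) ^ m‖ ≤ x ^ m := by
  have hq : (0 : ℝ) < (Fintype.card F : ℝ) := by linarith [FEuler_q (F := F)]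
  rw [Real.norm_eq_abs, abs_mul, abs_of_nonneg (by positivity : (0 : ℝ) ≤ (x / (Fintype.card F : ℝ)) ^ m)]
  calc |FEuler_A χ S m| * (x / (Fintype.card F : ℝ)) ^ m
      ≤ (Fintype.card F : ℝ) ^ m * (x / (Fintype.card F : ℝ)) ^ m :=
        mul_le_mul_of_nonneg_right (FEuler_abs χ hle S m) (by positivity)
    _ = x ^ m := by
        rw [← mul_pow]
        congr 1
        field_simp

private theorem FEuler_summable (χ : F[X] → ℝ) (hle : ∀ f, |χ f| ≤ 1) (S : Finset F[X]) (x : ℝ) (hx0 : 0 ≤ x)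
    (hx : x < 1) : Summable fun m : ℕ => FEuler_A χ S m * (x / (Fintype.card F : ℝ)) ^ m :=
  Summable.of_norm_bounded (summable_geometric_of_lt_one hx0 hx) fun m => FEuler_term χ hle S x hx0 m

private theorem FEuler_rec (χ : F[X] → ℝ) (hmul : ∀ f g, f.Monic → g.Monic → χ (f * g) = χ f * χ g)
    (S : Finset F[X]) (P : F[X]) [DecidableEq F[X]] (hP : P.Monic) (hi : Irreducible P) (hPS : P ∉ S) (m : ℕ) :
    FEuler_A χ (insert P S) m = FEuler_A χ S m +
      if P.natDegree ≤ m then χ P * FEuler_A χ (insert P S) (m - P.natDegree) else 0 := by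
  classical
  have h1 : FEuler_A χ (insert P S) m =
      ∑ f ∈ ((mon F m).filter (FEuler_sm (insert P S))).filter (fun f => ¬ P ∣ f), χ f +
      ∑ f ∈ ((mon F m).filter (FEuler_sm (insert P S))).filter (fun f => P ∣ f), χ f := by
    unfold FEuler_A
    rw [add_comm]
    exact (Finset.sum_filter_add_sum_filter_not _ _ _).symm
  have h2 : ((mon F m).filter (FEuler_sm (insert P S))).filter (fun f => ¬ P ∣ f) = (mon F m).filter (FEuler_sm S) := by
    ext f
    simp only [Finset.mem_filter]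
    constructor
    · rintro ⟨⟨h3, h4⟩, h5⟩
      refine ⟨h3, fun Q hQ hQi hQf => ?_⟩
      rcases Finset.mem_insert.1 (h4 Q hQ hQi hQf) with h6 | h6
      · exact absurd (h6 ▸ hQf) h5
      · exact h6
    · rintro ⟨h3, h4⟩
      exact ⟨⟨h3, fun Q hQ hQi hQf => Finset.mem_insert_of_mem (h4 Q hQ hQi hQf)⟩, fun h5 => hPS (h4 P hP hi h5)⟩
  have hsm : ∀ g : F[X], FEuler_sm (insert P S) (P * g) ↔ FEuler_sm (insert P S) g := by
    intro g
    constructor
    · intro h Q hQ hQi hQg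
      exact h Q hQ hQi (hQg.mul_left P)
    · intro h Q hQ hQi hQg
      rcases hQi.prime.dvd_or_dvd hQg with h3 | h3
      · have h4 : Q = P := Polynomial.eq_of_monic_of_associated hQ hP (hQi.associated_of_dvd hi h3)
        rw [h4]
        exact Finset.mem_insert_self _ _
      · exact h Q hQ hQi h3
  rw [h1, h2]
  congr 1
  split_ifs with hd
  · have h3 : ((mon F m).filter (FEuler_sm (insert P S))).filter (fun f => P ∣ f) =
        ((mon F (m - P.natDegree)).filter (FEuler_sm (insert P S))).image (fun g => P * g) := by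
      ext f
      simp only [Finset.mem_filter, Finset.mem_image]
      constructor
      · rintro ⟨⟨h4, h5⟩, g, rfl⟩
        rw [mem_mon] at h4
        have hg : g.Monic := hP.of_mul_monic_left h4.1
        refine ⟨g, ⟨(mem_mon F).2 ⟨hg, ?_⟩, (hsm g).1 h5⟩, rfl⟩
        have h6 := h4.2
        rw [hP.natDegree_mul hg] at h6
        omega
      · rintro ⟨g, ⟨h4, h5⟩, rfl⟩
        rw [mem_mon] at h4
        refine ⟨⟨(mem_mon F).2 ⟨hP.mul h4.1, ?_⟩, (hsm g).2 h5⟩, Dvd.intro _ rfl⟩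
        rw [hP.natDegree_mul h4.1]
        omega
    rw [h3, Finset.sum_image (fun a _ b _ hab => mul_left_cancel₀ hP.ne_zero hab)]
    unfold FEuler_A
    rw [Finset.mul_sum]
    refine Finset.sum_congr rfl fun g hg => ?_
    exact hmul P g hP ((mem_mon F).1 (Finset.mem_filter.1 hg).1).1
  · have h3 : ((mon F m).filter (FEuler_sm (insert P S))).filter (fun f => P ∣ f) = ∅ := by
      rw [Finset.filter_eq_empty_iff]
      intro f hf hPf
      have h4 := (mem_mon F).1 (Finset.mem_filter.1 hf).1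
      have h5 := Polynomial.natDegree_le_of_dvd hPf h4.1.ne_zero
      omega
    rw [h3, Finset.sum_empty]

private theorem FEuler_empty (χ : F[X] → ℝ) (h1 : χ 1 = 1) (m : ℕ) :
    FEuler_A χ (∅ : Finset F[X]) m = if m = 0 then 1 else 0 := by
  classical
  unfold FEuler_A
  split_ifs with hm
  · subst hm
    have h2 : (mon F 0).filter (FEuler_sm (∅ : Finset F[X])) = {1} := by
      rw [mon_zero, Finset.filter_singleton, if_pos]
      intro Q _ hQi hQ
      exact absurd (isUnit_of_dvd_one hQ) hQi.not_isUnit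
    rw [h2, Finset.sum_singleton, h1]
  · have h2 : (mon F m).filter (FEuler_sm (∅ : Finset F[X])) = ∅ := by
      rw [Finset.filter_eq_empty_iff]
      intro f hf hs
      rw [mem_mon] at hf
      obtain ⟨g, hg1, hg2, hg3⟩ := Polynomial.exists_monic_irreducible_factor f (fun hu => hm (by
        rw [← hf.2]
        exact Polynomial.natDegree_eq_zero_of_isUnit hu))
      exact absurd (hs g hg1 hg2 hg3) (Finset.notMem_empty g)
    rw [h2, Finset.sum_empty]

private theorem FEuler_t {P : F[X]} (hi : Irreducible P) (x : ℝ) (hx0 : 0 ≤ x) (hx : x < 1) :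
    0 ≤ (x / (Fintype.card F : ℝ)) ^ P.natDegree ∧ (x / (Fintype.card F : ℝ)) ^ P.natDegree ≤ 1 / 2 := by
  have hq := FEuler_q (F := F)
  have h0 : 0 ≤ x / (Fintype.card F : ℝ) := by positivity
  have h1 : x / (Fintype.card F : ℝ) ≤ 1 / 2 := by
    rw [div_le_div_iff₀ (by linarith) (by norm_num)]
    linarith
  refine ⟨by positivity, ?_⟩
  calc (x / (Fintype.card F : ℝ)) ^ P.natDegree ≤ (x / (Fintype.card F : ℝ)) ^ 1 :=
        pow_le_pow_of_le_one h0 (by linarith) hi.natDegree_pos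
    _ ≤ 1 / 2 := by rw [pow_one]; exact h1

private theorem FEuler_prod (χ : F[X] → ℝ) (h1 : χ 1 = 1)
    (hmul : ∀ f g, f.Monic → g.Monic → χ (f * g) = χ f * χ g)
    (hle : ∀ f, |χ f| ≤ 1) (x : ℝ) (hx0 : 0 ≤ x) (hx : x < 1) (S : Finset F[X])
    (hS : ∀ P ∈ S, P.Monic ∧ Irreducible P) :
    ∏ P ∈ S, (1 - χ P * (x / (Fintype.card F : ℝ)) ^ P.natDegree)⁻¹ =
      ∑' m : ℕ, FEuler_A χ S m * (x / (Fintype.card F : ℝ)) ^ m := by
  classical
  induction S using Finset.induction_on with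
  | empty =>
    rw [Finset.prod_empty, tsum_eq_single 0]
    · rw [FEuler_empty χ h1, if_pos rfl, pow_zero, one_mul]
    · intro m hm
      rw [FEuler_empty χ h1, if_neg hm, zero_mul]
  | insert P S hPS ih =>
    obtain ⟨hP, hi⟩ := hS P (Finset.mem_insert_self _ _)
    rw [Finset.prod_insert hPS, ih fun Q hQ => hS Q (Finset.mem_insert_of_mem hQ)]
    obtain ⟨ht0, ht⟩ := FEuler_t hi x hx0 hx
    have hc := abs_le.1 (hle P)
    have hne : 1 - χ P * (x / (Fintype.card F : ℝ)) ^ P.natDegree ≠ 0 := by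
      have : χ P * (x / (Fintype.card F : ℝ)) ^ P.natDegree ≤ 1 / 2 := by nlinarith [hc.2]
      linarith
    have hsI := FEuler_summable χ hle (insert P S) x hx0 hx
    have hsS := FEuler_summable χ hle S x hx0 hx
    -- the second part of the recursion
    have hsB : Summable fun m : ℕ => (if P.natDegree ≤ m then χ P * FEuler_A χ (insert P S) (m - P.natDegree) else 0) *
        (x / (Fintype.card F : ℝ)) ^ m := by
      have := hsI.sub hsS
      refine this.congr fun m => ?_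
      rw [FEuler_rec χ hmul S P hP hi hPS m]
      ring
    have hB : ∑' m : ℕ, (if P.natDegree ≤ m then χ P * FEuler_A χ (insert P S) (m - P.natDegree) else 0) *
        (x / (Fintype.card F : ℝ)) ^ m = χ P * (x / (Fintype.card F : ℝ)) ^ P.natDegree *
          ∑' m : ℕ, FEuler_A χ (insert P S) m * (x / (Fintype.card F : ℝ)) ^ m := by
      rw [← hsB.sum_add_tsum_nat_add P.natDegree, Finset.sum_eq_zero, zero_add, ← tsum_mul_left]
      · refine tsum_congr fun m => ?_
        rw [if_pos (by omega), Nat.add_sub_cancel, pow_add]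
        ring
      · intro m hm
        rw [Finset.mem_range] at hm
        rw [if_neg (by omega), zero_mul]
    have hG : ∑' m : ℕ, FEuler_A χ (insert P S) m * (x / (Fintype.card F : ℝ)) ^ m =
        ∑' m : ℕ, FEuler_A χ S m * (x / (Fintype.card F : ℝ)) ^ m +
          χ P * (x / (Fintype.card F : ℝ)) ^ P.natDegree *
          ∑' m : ℕ, FEuler_A χ (insert P S) m * (x / (Fintype.card F : ℝ)) ^ m := by
      rw [← hB, ← hsS.tsum_add hsB]
      refine tsum_congr fun m => ?_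
      rw [FEuler_rec χ hmul S P hP hi hPS m]
      ring
    rw [inv_mul_eq_iff_eq_mul₀ hne]
    linarith

theorem euler_finite (χ : F[X] → ℝ) (h1 : χ 1 = 1) (hmul : ∀ f g, f.Monic → g.Monic → χ (f * g) = χ f * χ g)
    (hle : ∀ f, |χ f| ≤ 1) (x : ℝ) (hx0 : 0 ≤ x) (hx : x < 1) (K : ℕ) :
    |∏ P ∈ PP F K, (1 - χ P * (x / (Fintype.card F : ℝ)) ^ P.natDegree)⁻¹ -
      ∑ m ∈ range (K + 1), (∑ f ∈ mon F m, χ f) * (x / (Fintype.card F : ℝ)) ^ m| ≤ x ^ (K + 1) / (1 - x) := by
  classical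
  have hs := FEuler_summable χ hle (PP F K) x hx0 hx
  rw [FEuler_prod χ h1 hmul hle x hx0 hx (PP F K) fun P hP => ⟨(mem_PP.1 hP).1, (mem_PP.1 hP).2.1⟩,
    ← hs.sum_add_tsum_nat_add (K + 1)]
  have h2 : ∑ m ∈ range (K + 1), FEuler_A χ (PP F K) m * (x / (Fintype.card F : ℝ)) ^ m =
      ∑ m ∈ range (K + 1), (∑ f ∈ mon F m, χ f) * (x / (Fintype.card F : ℝ)) ^ m := by
    refine Finset.sum_congr rfl fun m hm => ?_
    rw [Finset.mem_range] at hm
    unfold FEuler_A
    rw [Finset.filter_true_of_mem]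
    intro f hf Q hQ hQi hQf
    rw [mem_mon] at hf
    have := Polynomial.natDegree_le_of_dvd hQf hf.1.ne_zero
    exact mem_PP.2 ⟨hQ, hQi, by omega⟩
  rw [h2, add_sub_cancel_left]
  have hgeo : HasSum (fun m : ℕ => x ^ (m + (K + 1))) (x ^ (K + 1) / (1 - x)) := by
    have h3 := (hasSum_geometric_of_lt_one hx0 hx).mul_left (x ^ (K + 1))
    rw [← div_eq_mul_inv] at h3
    have e : (fun m : ℕ => x ^ (m + (K + 1))) = fun m : ℕ => x ^ (K + 1) * x ^ m := by
      funext m
      rw [pow_add, mul_comm]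
    rw [e]
    exact h3
  rw [← Real.norm_eq_abs]
  exact tsum_of_norm_bounded hgeo fun m => FEuler_term χ hle (PP F K) x hx0 (m + (K + 1))

theorem sum_le_prod (w : F[X] → ℝ) (hw : ∀ P : F[X], P.Monic → Irreducible P → 0 ≤ w P) (x : ℝ) (hx0 : 0 ≤ x)
    (M K : ℕ) (hMK : M ≤ K) :
    ∑ j ∈ range M, SS w j * (x / (Fintype.card F : ℝ)) ^ j ≤
      ∏ P ∈ PP F K, (1 + w P * (x / (Fintype.card F : ℝ)) ^ P.natDegree) := by
  classical
  have hq := FEuler_q (F := F)
  set t : ℝ := x / (Fintype.card F : ℝ) with ht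
  have ht0 : 0 ≤ t := by positivity
  rw [Finset.prod_one_add]
  set U : Finset F[X] := (range M).biUnion fun j => (mon F j).filter Squarefree with hU
  have hmemU : ∀ f, f ∈ U ↔ f.Monic ∧ f.natDegree < M ∧ Squarefree f := by
    intro f
    rw [hU, Finset.mem_biUnion]
    constructor
    · rintro ⟨j, hj, hf⟩
      rw [Finset.mem_filter, mem_mon] at hf
      rw [Finset.mem_range] at hj
      exact ⟨hf.1.1, by omega, hf.2⟩
    · rintro ⟨h1, h2, h3⟩
      exact ⟨f.natDegree, Finset.mem_range.2 h2, Finset.mem_filter.2 ⟨(mem_mon F).2 ⟨h1, rfl⟩, h3⟩⟩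
  have h1 : ∑ j ∈ range M, SS w j * t ^ j = ∑ f ∈ U, pf w f * t ^ f.natDegree := by
    rw [hU, Finset.sum_biUnion]
    · refine Finset.sum_congr rfl fun j _ => ?_
      unfold SS
      rw [Finset.sum_mul]
      refine Finset.sum_congr rfl fun f hf => ?_
      rw [((mem_mon F).1 (Finset.mem_filter.1 hf).1).2]
    · intro i _ j _ hij
      rw [Function.onFun, Finset.disjoint_left]
      intro f hf hf'
      have h2 := ((mem_mon F).1 (Finset.mem_filter.1 hf).1).2
      have h3 := ((mem_mon F).1 (Finset.mem_filter.1 hf').1).2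
      exact hij (h2.symm.trans h3)
  have hterm : ∀ f ∈ U, pf w f * t ^ f.natDegree = ∏ P ∈ pfac f, (w P * t ^ P.natDegree) := by
    intro f hf
    obtain ⟨hf1, -, hf3⟩ := (hmemU f).1 hf
    rw [Finset.prod_mul_distrib, Finset.prod_pow_eq_pow_sum]
    unfold pf
    congr 2
    rw [← Polynomial.natDegree_prod_of_monic _ _ (fun P hP => monic_of_mem_pfac hP), prod_pfac hf1 hf3]
  have hinj : Set.InjOn pfac (U : Set F[X]) := by
    intro a ha b hb hab
    obtain ⟨ha1, -, ha3⟩ := (hmemU a).1 ha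
    obtain ⟨hb1, -, hb3⟩ := (hmemU b).1 hb
    rw [← prod_pfac ha1 ha3, ← prod_pfac hb1 hb3, hab]
  rw [h1, Finset.sum_congr rfl hterm,
    ← Finset.sum_image (f := fun s : Finset F[X] => ∏ P ∈ s, (w P * t ^ P.natDegree)) hinj]
  apply Finset.sum_le_sum_of_subset_of_nonneg
  · intro s hs
    obtain ⟨f, hf, rfl⟩ := Finset.mem_image.mp hs
    obtain ⟨hf1, hf2, hf3⟩ := (hmemU f).1 hf
    rw [Finset.mem_powerset]
    intro P hP
    have := Polynomial.natDegree_le_of_dvd (dvd_of_mem_pfac hP) hf1.ne_zero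
    exact mem_PP.2 ⟨monic_of_mem_pfac hP, irreducible_of_mem_pfac hP, by omega⟩
  · intro s hs _
    apply Finset.prod_nonneg
    intro P hP
    have hPP := mem_PP.1 ((Finset.mem_powerset.mp hs) hP)
    exact mul_nonneg (hw P hPP.1 hPP.2.1) (by positivity)

theorem exp_sum_le {χ : F[X] → ℝ} {B : ℝ} (hχ : CharB χ B) (x : ℝ) (hx0 : 0 ≤ x) (hx : x < 1) (K : ℕ) :
    Real.exp (∑ P ∈ PP F K, (1 + χ P) * (x / (Fintype.card F : ℝ)) ^ P.natDegree) ≤ (1 - x)⁻¹ * B := by
  classical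
  have hq := FEuler_q (F := F)
  have hx1 : 0 < 1 - x := by linarith
  have hB := hχ.hB
  have hloc : ∀ P : F[X], Irreducible P → Real.exp ((1 + χ P) * (x / (Fintype.card F : ℝ)) ^ P.natDegree) ≤
      (1 - 1 * (x / (Fintype.card F : ℝ)) ^ P.natDegree)⁻¹ * (1 - χ P * (x / (Fintype.card F : ℝ)) ^ P.natDegree)⁻¹ := by
    intro P hi
    obtain ⟨ht0, ht⟩ := FEuler_t hi x hx0 hx
    have hc := abs_le.mp (hχ.le P)
    set t : ℝ := (x / (Fintype.card F : ℝ)) ^ P.natDegree with htd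
    have h1 : 0 < 1 - t := by linarith
    have h2 : 0 < 1 - χ P * t := by nlinarith [hc.2]
    have e1 : Real.exp t ≤ (1 - 1 * t)⁻¹ := by
      rw [one_mul, ← neg_neg t, Real.exp_neg, neg_neg]
      exact inv_anti₀ h1 (by have := Real.add_one_le_exp (-t); linarith)
    have e2 : Real.exp (χ P * t) ≤ (1 - χ P * t)⁻¹ := by
      rw [← neg_neg (χ P * t), Real.exp_neg, neg_neg]
      exact inv_anti₀ h2 (by have := Real.add_one_le_exp (-(χ P * t)); linarith)
    calc Real.exp ((1 + χ P) * t) = Real.exp t * Real.exp (χ P * t) := by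
          rw [← Real.exp_add]; congr 1; ring
      _ ≤ _ := mul_le_mul e1 e2 (Real.exp_pos _).le (by rw [one_mul]; positivity)
  have hprodle : ∀ K' : ℕ, K ≤ K' →
      Real.exp (∑ P ∈ PP F K, (1 + χ P) * (x / (Fintype.card F : ℝ)) ^ P.natDegree) ≤
      (∏ P ∈ PP F K', (1 - 1 * (x / (Fintype.card F : ℝ)) ^ P.natDegree)⁻¹) *
        ∏ P ∈ PP F K', (1 - χ P * (x / (Fintype.card F : ℝ)) ^ P.natDegree)⁻¹ := by
    intro K' hKK
    have hsub : PP F K ⊆ PP F K' := by
      intro P hP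
      rw [mem_PP] at hP ⊢
      exact ⟨hP.1, hP.2.1, by omega⟩
    calc Real.exp (∑ P ∈ PP F K, (1 + χ P) * (x / (Fintype.card F : ℝ)) ^ P.natDegree)
        ≤ Real.exp (∑ P ∈ PP F K', (1 + χ P) * (x / (Fintype.card F : ℝ)) ^ P.natDegree) := by
          apply Real.exp_le_exp.2
          apply Finset.sum_le_sum_of_subset_of_nonneg hsub
          intro P _ _
          have hc := abs_le.mp (hχ.le P)
          exact mul_nonneg (by linarith) (by positivity)
      _ = ∏ P ∈ PP F K', Real.exp ((1 + χ P) * (x / (Fintype.card F : ℝ)) ^ P.natDegree) := Real.exp_sum _ _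
      _ ≤ ∏ P ∈ PP F K', ((1 - 1 * (x / (Fintype.card F : ℝ)) ^ P.natDegree)⁻¹ *
            (1 - χ P * (x / (Fintype.card F : ℝ)) ^ P.natDegree)⁻¹) := by
          apply Finset.prod_le_prod
          · intro P _
            exact (Real.exp_pos _).le
          · intro P hP
            exact hloc P (mem_PP.1 hP).2.1
      _ = _ := Finset.prod_mul_distrib
  have h1 : ∀ K' : ℕ, ∏ P ∈ PP F K', (1 - 1 * (x / (Fintype.card F : ℝ)) ^ P.natDegree)⁻¹ ≤ (1 - x)⁻¹ := by
    intro K'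
    have h2 := euler_finite (F := F) (fun _ => 1) rfl (fun _ _ _ _ => by norm_num) (fun _ => by norm_num) x hx0 hx K'
    have h3 : ∑ m ∈ range (K' + 1), (∑ f ∈ mon F m, (1 : ℝ)) * (x / (Fintype.card F : ℝ)) ^ m =
        ∑ m ∈ range (K' + 1), x ^ m := by
      refine Finset.sum_congr rfl fun m _ => ?_
      rw [Finset.sum_const, card_mon, nsmul_eq_mul, mul_one]
      push_cast
      rw [← mul_pow]
      congr 1
      field_simp
    rw [h3] at h2
    have h4 := (abs_le.1 h2).2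
    have h5 : ∑ m ∈ range (K' + 1), x ^ m = (1 - x ^ (K' + 1)) / (1 - x) := by
      rw [geom_sum_eq hx.ne, ← neg_sub (1 : ℝ) x, ← neg_sub (1 : ℝ) (x ^ (K' + 1)), neg_div_neg_eq]
    rw [h5] at h4
    have h6 : (1 - x ^ (K' + 1)) / (1 - x) + x ^ (K' + 1) / (1 - x) = (1 - x)⁻¹ := by
      rw [← add_div, sub_add_cancel, one_div]
    linarith
  have h2 : ∀ K' : ℕ, ∏ P ∈ PP F K', (1 - χ P * (x / (Fintype.card F : ℝ)) ^ P.natDegree)⁻¹ ≤
      B + x ^ (K' + 1) / (1 - x) := by
    intro K'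
    have h3 := (abs_le.1 (euler_finite χ hχ.one hχ.mul hχ.le x hx0 hx K')).2
    have h4 := hχ.bound x hx0 hx (K' + 1)
    linarith
  have h3 : ∀ K' : ℕ, 0 ≤ ∏ P ∈ PP F K', (1 - χ P * (x / (Fintype.card F : ℝ)) ^ P.natDegree)⁻¹ := by
    intro K'
    refine Finset.prod_nonneg fun P hP => ?_
    obtain ⟨ht0, ht⟩ := FEuler_t (mem_PP.1 hP).2.1 x hx0 hx
    have hc := abs_le.mp (hχ.le P)
    have h4 : 0 < 1 - χ P * (x / (Fintype.card F : ℝ)) ^ P.natDegree := by nlinarith [hc.2]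
    positivity
  have hlim : Filter.Tendsto (fun K' : ℕ => (1 - x)⁻¹ * (B + x ^ (K' + 1) / (1 - x))) Filter.atTop
      (nhds ((1 - x)⁻¹ * (B + 0 / (1 - x)))) := by
    have h4 : Filter.Tendsto (fun K' : ℕ => x ^ (K' + 1)) Filter.atTop (nhds 0) :=
      (tendsto_pow_atTop_nhds_zero_of_lt_one hx0 hx).comp (Filter.tendsto_add_atTop_nat 1)
    exact ((h4.div_const _).const_add B).const_mul _
  rw [zero_div, add_zero] at hlim
  apply ge_of_tendsto hlim
  filter_upwards [Filter.eventually_ge_atTop K] with K' hK'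
  exact (hprodle K' hK').trans (mul_le_mul (h1 K') (h2 K') (h3 K') (by positivity))

/-- the weight `∑_j c_j (1 + χ_j)/2` -/
theorem eb_of_chars {J : Type} (s : Finset J) (c : J → ℝ) (hc : ∀ j ∈ s, 0 ≤ c j) (hs : ∑ j ∈ s, c j ≤ 1)
    (χ : J → F[X] → ℝ) (B : ℝ) (hB : 1 ≤ B) (hχ : ∀ j ∈ s, CharB (χ j) B) :
    EB (fun P => ∑ j ∈ s, c j * ((1 + χ j P) / 2)) (1 / 2) B where
  nonneg := by
    intro P _ _
    refine Finset.sum_nonneg fun j hj => mul_nonneg (hc j hj) ?_
    have := abs_le.1 ((hχ j hj).le P)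
    linarith
  le_one := by
    intro P _ _
    refine le_trans (Finset.sum_le_sum fun j hj => ?_) hs
    have := abs_le.1 ((hχ j hj).le P)
    exact mul_le_of_le_one_right (hc j hj) (by linarith)
  hA := hB
  bound := by
    intro x hx0 hx M
    have hq := FEuler_q (F := F)
    have hx1 : 0 < 1 - x := by linarith
    have hz : 1 ≤ (1 - x)⁻¹ := (one_le_inv₀ hx1).2 (by linarith)
    have hw : ∀ P : F[X], 0 ≤ ∑ j ∈ s, c j * ((1 + χ j P) / 2) := by
      intro P
      refine Finset.sum_nonneg fun j hj => mul_nonneg (hc j hj) ?_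
      have := abs_le.1 ((hχ j hj).le P)
      linarith
    refine (sum_le_prod (fun P => ∑ j ∈ s, c j * ((1 + χ j P) / 2)) (fun P _ _ => hw P) x hx0 M M le_rfl).trans ?_
    have h2 : ∏ P ∈ PP F M, (1 + (∑ j ∈ s, c j * ((1 + χ j P) / 2)) * (x / (Fintype.card F : ℝ)) ^ P.natDegree) ≤
        Real.exp (∑ P ∈ PP F M, (∑ j ∈ s, c j * ((1 + χ j P) / 2)) * (x / (Fintype.card F : ℝ)) ^ P.natDegree) := by
      rw [Real.exp_sum]
      apply Finset.prod_le_prod
      · intro P _
        have : 0 ≤ (∑ j ∈ s, c j * ((1 + χ j P) / 2)) * (x / (Fintype.card F : ℝ)) ^ P.natDegree :=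
          mul_nonneg (hw P) (by positivity)
        linarith
      · intro P _
        have := Real.add_one_le_exp ((∑ j ∈ s, c j * ((1 + χ j P) / 2)) * (x / (Fintype.card F : ℝ)) ^ P.natDegree)
        linarith
    refine h2.trans ?_
    have h3 : ∑ P ∈ PP F M, (∑ j ∈ s, c j * ((1 + χ j P) / 2)) * (x / (Fintype.card F : ℝ)) ^ P.natDegree =
        ∑ j ∈ s, (c j / 2) * ∑ P ∈ PP F M, (1 + χ j P) * (x / (Fintype.card F : ℝ)) ^ P.natDegree := by
      simp_rw [Finset.sum_mul, Finset.mul_sum]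
      rw [Finset.sum_comm]
      refine Finset.sum_congr rfl fun j _ => Finset.sum_congr rfl fun P _ => ?_
      ring
    have h4 : ∀ j ∈ s, ∑ P ∈ PP F M, (1 + χ j P) * (x / (Fintype.card F : ℝ)) ^ P.natDegree ≤
        Real.log ((1 - x)⁻¹ * B) := by
      intro j hj
      rw [Real.le_log_iff_exp_le (by positivity)]
      exact exp_sum_le (hχ j hj) x hx0 hx M
    have hlog : 0 ≤ Real.log ((1 - x)⁻¹ * B) := by
      apply Real.log_nonneg
      nlinarith
    have h5 : ∑ P ∈ PP F M, (∑ j ∈ s, c j * ((1 + χ j P) / 2)) * (x / (Fintype.card F : ℝ)) ^ P.natDegree ≤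
        (1 / 2) * Real.log ((1 - x)⁻¹ * B) := by
      rw [h3]
      calc ∑ j ∈ s, (c j / 2) * ∑ P ∈ PP F M, (1 + χ j P) * (x / (Fintype.card F : ℝ)) ^ P.natDegree
          ≤ ∑ j ∈ s, (c j / 2) * Real.log ((1 - x)⁻¹ * B) :=
            Finset.sum_le_sum fun j hj => mul_le_mul_of_nonneg_left (h4 j hj) (by have := hc j hj; linarith)
        _ = ((∑ j ∈ s, c j) / 2) * Real.log ((1 - x)⁻¹ * B) := by
            rw [← Finset.sum_mul, Finset.sum_div]
        _ ≤ (1 / 2) * Real.log ((1 - x)⁻¹ * B) := by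
            apply mul_le_mul_of_nonneg_right _ hlog
            linarith
    refine (Real.exp_le_exp.2 h5).trans ?_
    have hpos : 0 < (1 - x)⁻¹ * B := by positivity
    have h6 : Real.exp ((1 / 2) * Real.log ((1 - x)⁻¹ * B)) = ((1 - x)⁻¹ * B) ^ (1 / 2 : ℝ) := by
      rw [Real.rpow_def_of_pos hpos, mul_comm]
    rw [h6, Real.mul_rpow (by positivity) (by positivity), mul_comm]
    apply mul_le_mul_of_nonneg_right _ (by positivity)
    calc B ^ (1 / 2 : ℝ) ≤ B ^ (1 : ℝ) := Real.rpow_le_rpow_of_exponent_le hB (by norm_num)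
      _ = B := Real.rpow_one B

end FZ
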