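import Pool.Agent.Lib.MP_1ad228_nt.FF.FQDefs

/-! JOB FExpand.  `∏_{P ∣ n} ∑_ℓ g ℓ P = ∑_{n = ∏ d_ℓ} ∏_ℓ pf (g ℓ) (d ℓ)` for squarefree monic `n`, and the expansion of the sum over `e` into a sum over the label variables `d`.
MODELS: `Pool/Agent/Lib/MP_10e784_ag/QExpand1.lean` and `QExpand.lean` (the same over `ℕ`).

`prod_sum_eq`: `Finset.prod_univ_sum` turns the left side into a sum over maps `φ : pfac n → L`; the bijection with the vectors `d` of monic polynomials with product `n` is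
`d ℓ = ∏_{P : φ P = ℓ} P` (`prod_set`, `prod_pfac`).
`expand`: apply `prod_sum_eq` once to `n = ∏ e_i` with `g ℓ P = u ℓ P * ∏_{j ∈ St ℓ} (e j / P)` if `P ∣ e (idx ℓ)` and `0`
otherwise.  Only vectors `d` with `eOf s d = e` contribute.  (`jac a (d ℓ) = ∏_{P ∣ d ℓ} jac a P` for squarefree monic `d ℓ`: `jac_prod_right`, `prod_pfac`.) -/

namespace FZ

open Finset Polynomial

variable {F : Type} [Field F] [Fintype F]

theorem jac_eq_prod [DecidableEq F] (a : F[X]) {n : F[X]} (hn : n.Monic) (hs : Squarefree n) :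
    jac a n = ∏ P ∈ pfac n, jac a P := by
  conv_lhs => rw [← prod_pfac hn hs]
  exact jac_prod_right _ _ (fun P hP => monic_of_mem_pfac hP) a

/-- the set of primes sent to `ℓ` -/
private noncomputable def FExpandA {L : Type} [DecidableEq L] {s : Finset F[X]} (φ : s → L) (ℓ : L) : Finset F[X] :=
  ((univ : Finset s).filter fun p => φ p = ℓ).map (Function.Embedding.subtype _)

omit [Fintype F] in
private theorem FExpand_mem {L : Type} [DecidableEq L] {s : Finset F[X]} (φ : s → L) (ℓ : L) (p : F[X]) :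
    p ∈ FExpandA φ ℓ ↔ ∃ h : p ∈ s, φ ⟨p, h⟩ = ℓ := by
  unfold FExpandA
  simp only [mem_map, mem_filter, mem_univ, true_and, Function.Embedding.subtype_apply,
    Subtype.exists]
  constructor
  · rintro ⟨a, ha, h1, rfl⟩
    exact ⟨ha, h1⟩
  · rintro ⟨h, h1⟩
    exact ⟨p, h, h1, rfl⟩

omit [Fintype F] in
private theorem FExpand_prod {L : Type} [DecidableEq L] {s : Finset F[X]} (φ : s → L) (ℓ : L)
    {M : Type} [CommMonoid M] (G : F[X] → M) :
    ∏ p ∈ FExpandA φ ℓ, G p = ∏ p ∈ (univ : Finset s).filter (fun p => φ p = ℓ), G p := by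
  unfold FExpandA
  rw [prod_map]
  rfl

omit [Fintype F] in
private theorem FExpand_set {L : Type} [DecidableEq L] {n : F[X]} (φ : pfac n → L) (ℓ : L) :
    (∏ p ∈ FExpandA φ ℓ, p).Monic ∧ Squarefree (∏ p ∈ FExpandA φ ℓ, p) ∧
      pfac (∏ p ∈ FExpandA φ ℓ, p) = FExpandA φ ℓ := by
  apply prod_set
  intro p hp
  obtain ⟨h, -⟩ := (FExpand_mem φ ℓ p).1 hp
  exact ⟨monic_of_mem_pfac h, irreducible_of_mem_pfac h⟩

open Classical in
theorem prod_sum_eq {L : Type} [Fintype L] [DecidableEq L] (g : L → F[X] → ℝ) (n : F[X]) (hm : n.Monic)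
    (hn : Squarefree n) :
    ∏ P ∈ pfac n, ∑ ℓ, g ℓ P = ∑ d ∈ (Vec F L n.natDegree) with (∏ ℓ, d ℓ = n), ∏ ℓ, pf (g ℓ) (d ℓ) := by
  have hn0 : n ≠ 0 := hn.ne_zero
  have hprodAll : ∀ φ : pfac n → L, ∏ ℓ, ∏ p ∈ FExpandA φ ℓ, p = n := by
    intro φ
    simp_rw [FExpand_prod]
    rw [Finset.prod_fiberwise (univ : Finset (pfac n)) φ (fun p => (p : F[X]))]
    rw [Finset.prod_coe_sort (pfac n) (fun p => p)]
    exact prod_pfac hm hn
  rw [← Finset.prod_coe_sort (pfac n) (fun p => ∑ ℓ, g ℓ p)]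
  rw [Finset.prod_univ_sum]
  refine Finset.sum_bij (fun φ _ => fun ℓ => ∏ p ∈ FExpandA φ ℓ, p) ?_ ?_ ?_ ?_
  · intro φ _
    rw [mem_filter, mem_Vec]
    refine ⟨⟨fun ℓ => (FExpand_set φ ℓ).1, ?_⟩, hprodAll φ⟩
    rw [← natDegree_prod_of_monic _ _ fun ℓ _ => (FExpand_set φ ℓ).1, hprodAll φ]
  · intro φ _ ψ _ h
    funext p
    have h1 : FExpandA φ (φ p) = FExpandA ψ (φ p) := by
      rw [← (FExpand_set φ (φ p)).2.2, ← (FExpand_set ψ (φ p)).2.2]
      congr 1
      exact congrFun h (φ p)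
    have h2 : (p : F[X]) ∈ FExpandA φ (φ p) := (FExpand_mem φ (φ p) p).2 ⟨p.2, rfl⟩
    rw [h1] at h2
    obtain ⟨h3, h4⟩ := (FExpand_mem ψ (φ p) p).1 h2
    exact h4.symm
  · intro d hd
    rw [mem_filter, mem_Vec] at hd
    obtain ⟨⟨hdm, -⟩, hd⟩ := hd
    have hex : ∀ p : pfac n, ∃ ℓ, (p : F[X]) ∣ d ℓ := by
      intro p
      have hp := irreducible_of_mem_pfac p.2
      have h1 : (p : F[X]) ∣ ∏ ℓ, d ℓ := by
        rw [hd]; exact dvd_of_mem_pfac p.2
      obtain ⟨ℓ, -, hℓ⟩ := (hp.prime.dvd_finsetProd_iff _).1 h1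
      exact ⟨ℓ, hℓ⟩
    choose φ hφ using hex
    refine ⟨φ, by simp, ?_⟩
    funext ℓ
    have hdl : d ℓ ∣ n := by
      rw [← hd]; exact Finset.dvd_prod_of_mem d (mem_univ ℓ)
    have huniq : ∀ p : pfac n, ∀ ℓ', (p : F[X]) ∣ d ℓ' → φ p = ℓ' := by
      intro p ℓ' h
      by_contra hne
      have hp := irreducible_of_mem_pfac p.2
      have h1 : (p : F[X]) * p ∣ n := by
        refine (mul_dvd_mul (hφ p) h).trans ?_
        refine dvd_trans ?_ (dvd_of_eq hd)
        rw [← Finset.prod_pair hne]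
        exact Finset.prod_dvd_prod_of_subset _ _ d (subset_univ _)
      exact hp.not_isUnit (hn p h1)
    have hset : FExpandA φ ℓ = pfac (d ℓ) := by
      ext p
      rw [FExpand_mem]
      constructor
      · rintro ⟨h1, h2⟩
        rw [mem_pfac (hdm ℓ).ne_zero]
        refine ⟨monic_of_mem_pfac h1, irreducible_of_mem_pfac h1, ?_⟩
        rw [← h2]
        exact hφ ⟨p, h1⟩
      · intro h
        have h1 : p ∈ pfac n :=
          (mem_pfac hn0).2 ⟨monic_of_mem_pfac h, irreducible_of_mem_pfac h, (dvd_of_mem_pfac h).trans hdl⟩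
        exact ⟨h1, huniq ⟨p, h1⟩ ℓ (dvd_of_mem_pfac h)⟩
    show ∏ p ∈ FExpandA φ ℓ, p = d ℓ
    rw [hset]
    exact prod_pfac (hdm ℓ) (hn.squarefree_of_dvd hdl)
  · intro φ _
    have : ∀ ℓ, pf (g ℓ) (∏ p ∈ FExpandA φ ℓ, p) =
        ∏ p ∈ (univ : Finset (pfac n)).filter (fun p => φ p = ℓ), g (φ p) p := by
      intro ℓ
      unfold pf
      rw [(FExpand_set φ ℓ).2.2, FExpand_prod]
      apply Finset.prod_congr rfl
      intro p hp
      rw [(mem_filter.1 hp).2]
    simp_rw [this]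
    rw [Finset.prod_fiberwise (univ : Finset (pfac n)) φ (fun p => g (φ p) p)]

private theorem FExpand_inst {L : Type} [Fintype L] [DecidableEq L] (g : L → F[X] → ℝ) (n : F[X]) (hm : n.Monic)
    (hn : Squarefree n) [DecidablePred fun d : L → F[X] => ∏ ℓ, d ℓ = n] :
    ∏ P ∈ pfac n, ∑ ℓ, g ℓ P =
      ∑ d ∈ (Vec F L n.natDegree).filter (fun d => ∏ ℓ, d ℓ = n), ∏ ℓ, pf (g ℓ) (d ℓ) := by
  rw [prod_sum_eq g n hm hn]
  congr

omit [Fintype F] in
private theorem eOf_prod {κ L : Type} [Fintype κ] [DecidableEq κ] [Fintype L]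
    (s : Sys κ L) (d : L → F[X]) : ∏ i, eOf s d i = ∏ ℓ, d ℓ := by
  unfold eOf
  exact Finset.prod_fiberwise _ _ _

omit [Fintype F] in
private theorem sqf_coprime {κ : Type} [Fintype κ] [DecidableEq κ] (e : κ → F[X])
    (h : Squarefree (∏ i, e i)) {i j : κ} (hij : i ≠ j) : IsCoprime (e i) (e j) := by
  have h1 : e i * e j ∣ ∏ i, e i := by
    rw [← Finset.mul_prod_erase univ e (mem_univ i)]
    exact mul_dvd_mul_left _ (Finset.dvd_prod_of_mem e (mem_erase.2 ⟨hij.symm, mem_univ _⟩))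
  exact isCoprime_of_squarefree (h.squarefree_of_dvd h1)

omit [Fintype F] in
private theorem sqf_one {κ : Type} [Fintype κ] (e : κ → F[X])
    (h : Squarefree (∏ i, e i)) (i : κ) : Squarefree (e i) :=
  h.squarefree_of_dvd (Finset.dvd_prod_of_mem e (mem_univ i))

omit [Fintype F] in
private theorem prod_dvd_pol {ι : Type} (t : Finset ι) (f : ι → F[X]) (z : F[X])
    (h1 : ∀ i ∈ t, f i ∣ z) (h2 : ∀ i ∈ t, ∀ j ∈ t, i ≠ j → IsCoprime (f i) (f j)) :
    ∏ i ∈ t, f i ∣ z := by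
  apply Finset.prod_dvd_of_isRelPrime
  · intro i hi j hj hij
    exact (h2 i hi j hj hij).isRelPrime
  · exact h1

omit [Fintype F] in
private theorem pfac_prod [DecidableEq F[X]] {ι : Type} [Fintype ι] (f : ι → F[X]) (h : ∀ i, f i ≠ 0) :
    pfac (∏ i, f i) = univ.biUnion (fun i => pfac (f i)) := by
  ext p
  rw [mem_pfac (Finset.prod_ne_zero_iff.2 (fun i _ => h i)), mem_biUnion]
  constructor
  · rintro ⟨hm, hp, hd⟩
    obtain ⟨i, _, hi⟩ := (hp.prime.dvd_finsetProd_iff _).1 hd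
    exact ⟨i, mem_univ _, (mem_pfac (h i)).2 ⟨hm, hp, hi⟩⟩
  · rintro ⟨i, _, hi⟩
    rw [mem_pfac (h i)] at hi
    exact ⟨hi.1, hi.2.1, dvd_trans hi.2.2 (Finset.dvd_prod_of_mem f (mem_univ i))⟩

open Classical in
private noncomputable def gg [DecidableEq F] {κ L : Type} [DecidableEq κ] (s : Sys κ L) (u : L → F[X] → ℝ)
    (e : κ → F[X]) (ℓ : L) (p : F[X]) : ℝ :=
  if p ∣ e (s.idx ℓ) then u ℓ p * ∏ j ∈ s.St ℓ, (jac (e j) p : ℝ) else 0

private theorem step1 [DecidableEq F] {κ L : Type} [Fintype κ] [DecidableEq κ] [Fintype L]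
    (s : Sys κ L) (u : L → F[X] → ℝ) (e : κ → F[X]) (h : Squarefree (∏ i, e i)) :
    ∏ i, ∏ p ∈ pfac (e i),
        ∑ ℓ with s.idx ℓ = i, u ℓ p * ∏ j ∈ s.St ℓ, (jac (e j) p : ℝ) =
      ∏ p ∈ pfac (∏ i, e i), ∑ ℓ, gg s u e ℓ p := by
  classical
  rw [pfac_prod e (fun i => (sqf_one e h i).ne_zero), Finset.prod_biUnion]
  · apply Finset.prod_congr rfl
    intro i _
    apply Finset.prod_congr rfl
    intro p hp
    rw [Finset.sum_filter]
    apply Finset.sum_congr rfl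
    intro ℓ _
    unfold gg
    have hp' := dvd_of_mem_pfac hp
    have hpp := irreducible_of_mem_pfac hp
    by_cases hi : s.idx ℓ = i
    · rw [if_pos hi, if_pos (by rw [hi]; exact hp')]
    · rw [if_neg hi, if_neg]
      intro h2
      exact hpp.not_isUnit ((sqf_coprime e h hi).isUnit_of_dvd' h2 hp')
  · intro i _ j _ hij
    exact pfac_disjoint (sqf_coprime e h hij)

open Classical in
private theorem step2 [DecidableEq F] {κ L : Type} [Fintype κ] [DecidableEq κ] [Fintype L] [DecidableEq L]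
    (s : Sys κ L) (u : L → F[X] → ℝ) (k : κ → F[X] → ℝ) (e : κ → F[X]) (d : L → F[X])
    (hem : ∀ i, (e i).Monic) (hdm : ∀ ℓ, (d ℓ).Monic)
    (h : Squarefree (∏ i, e i)) (hd : ∏ ℓ, d ℓ = ∏ i, e i) :
    (∏ i, k i (e i)) * ∏ ℓ, pf (gg s u e ℓ) (d ℓ) = if eOf s d = e then FF s u k d else 0 := by
  have hsd : Squarefree (∏ ℓ, d ℓ) := by rw [hd]; exact h
  split_ifs with he
  · subst he
    unfold FF
    congr 1
    apply Finset.prod_congr rfl
    intro ℓ _
    unfold pf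
    have h1 : ∀ p ∈ pfac (d ℓ), gg s u (eOf s d) ℓ p =
        u ℓ p * ∏ j ∈ s.St ℓ, (jac (eOf s d j) p : ℝ) := by
      intro p hp
      unfold gg
      rw [if_pos]
      refine dvd_trans (dvd_of_mem_pfac hp) ?_
      unfold eOf
      exact Finset.dvd_prod_of_mem d (mem_filter.2 ⟨mem_univ _, rfl⟩)
    rw [Finset.prod_congr rfl h1, Finset.prod_mul_distrib, Finset.prod_comm]
    congr 1
    apply Finset.prod_congr rfl
    intro j _
    rw [jac_eq_prod (eOf s d j) (hdm ℓ) (sqf_one d hsd ℓ), Int.cast_prod]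
  · -- some factor vanishes
    have hex : ∃ ℓ, ¬ (d ℓ ∣ e (s.idx ℓ)) := by
      by_contra hcon
      push Not at hcon
      apply he
      have h1 : ∀ i, eOf s d i ∣ e i := by
        intro i
        unfold eOf
        apply prod_dvd_pol
        · intro ℓ hℓ
          rw [mem_filter] at hℓ
          rw [← hℓ.2]
          exact hcon ℓ
        · intro a _ b _ hab
          exact sqf_coprime d hsd hab
      have hom : ∀ i, (eOf s d i).Monic := fun i => monic_prod_of_monic _ _ fun ℓ _ => hdm ℓ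
      have h2 : ∏ i, eOf s d i = ∏ i, e i := by rw [eOf_prod, hd]
      have h3 : ∀ i ∈ (univ : Finset κ), (eOf s d i).natDegree ≤ (e i).natDegree := fun i _ =>
        natDegree_le_of_dvd (h1 i) (hem i).ne_zero
      have h4 : ∑ i, (eOf s d i).natDegree = ∑ i, (e i).natDegree := by
        rw [← natDegree_prod_of_monic _ _ fun i _ => hom i,
          ← natDegree_prod_of_monic _ _ fun i _ => hem i, h2]
      funext i
      have h5 := (Finset.sum_eq_sum_iff_of_le h3).1 h4 i (mem_univ i)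
      exact (eq_of_monic_of_dvd_of_natDegree_le (hom i) (hem i) (h1 i) h5.ge).symm
    obtain ⟨ℓ, hℓ⟩ := hex
    have h5 : pf (gg s u e ℓ) (d ℓ) = 0 := by
      unfold pf
      have h6 : ∃ p ∈ pfac (d ℓ), ¬ (p ∣ e (s.idx ℓ)) := by
        by_contra hcon
        push Not at hcon
        apply hℓ
        rw [← prod_pfac (hdm ℓ) (sqf_one d hsd ℓ)]
        apply prod_dvd_pol
        · exact hcon
        · intro a ha b hb hab
          rw [(irreducible_of_mem_pfac ha).coprime_iff_not_dvd]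
          intro hdvd
          apply hab
          exact eq_of_monic_of_associated (monic_of_mem_pfac ha) (monic_of_mem_pfac hb)
            (((irreducible_of_mem_pfac ha).dvd_irreducible_iff_associated (irreducible_of_mem_pfac hb)).1 hdvd)
      obtain ⟨p, hp, hp2⟩ := h6
      apply Finset.prod_eq_zero hp
      unfold gg
      rw [if_neg hp2]
    rw [Finset.prod_eq_zero (mem_univ ℓ) h5, mul_zero]

theorem expand [DecidableEq F] {κ L : Type} [Fintype κ] [DecidableEq κ] [Fintype L] [DecidableEq L] (s : Sys κ L)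
    (u : L → F[X] → ℝ) (k : κ → F[X] → ℝ) (n : ℕ) :
    ∑ e ∈ Box F κ n, ∏ i, (k i (e i) * ∏ P ∈ pfac (e i),
        ∑ ℓ with s.idx ℓ = i, u ℓ P * ∏ j ∈ s.St ℓ, (jac (e j) P : ℝ)) =
      ∑ d ∈ Box F L n, FF s u k d := by
  classical
  have h1 : ∀ e ∈ Box F κ n, ∏ i, (k i (e i) * ∏ P ∈ pfac (e i),
        ∑ ℓ with s.idx ℓ = i, u ℓ P * ∏ j ∈ s.St ℓ, (jac (e j) P : ℝ)) =
      ∑ d ∈ Box F L n, if eOf s d = e then FF s u k d else 0 := by
    intro e he
    rw [mem_Box] at he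
    obtain ⟨he1, he2, he3⟩ := he
    have hem : (∏ i, e i).Monic := monic_prod_of_monic _ _ fun i _ => he1 i
    have hdeg : (∏ i, e i).natDegree = n := by
      rw [natDegree_prod_of_monic _ _ fun i _ => he1 i, he2]
    rw [Finset.prod_mul_distrib, step1 s u e he3, FExpand_inst (gg s u e) _ hem he3, hdeg,
      Finset.mul_sum]
    refine Eq.trans (Finset.sum_congr rfl fun d hd => step2 s u k e d he1 ?_ he3 ?_) ?_
    · exact ((mem_Vec F).1 (Finset.mem_filter.1 hd).1).1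
    · exact (Finset.mem_filter.1 hd).2
    apply Finset.sum_subset_zero_on_sdiff
    · intro d hd
      have hd1 := Finset.mem_filter.1 hd
      have hd2 := (mem_Vec F).1 hd1.1
      rw [mem_Box]
      refine ⟨hd2.1, hd2.2, ?_⟩
      rw [hd1.2]; exact he3
    · intro d hd
      rw [mem_sdiff] at hd
      rw [if_neg]
      intro h3
      apply hd.2
      have h4 := (mem_Box F).1 hd.1
      refine Finset.mem_filter.2 ⟨(mem_Vec F).2 ⟨h4.1, h4.2.1⟩, ?_⟩
      rw [← eOf_prod s d, h3]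
    · intro d _
      rfl
  rw [Finset.sum_congr rfl h1, Finset.sum_comm]
  apply Finset.sum_congr rfl
  intro d hd
  rw [Finset.sum_ite_eq, if_pos]
  rw [mem_Box] at hd ⊢
  obtain ⟨hd1, hd2, hd3⟩ := hd
  refine ⟨fun i => monic_prod_of_monic _ _ fun ℓ _ => hd1 ℓ, ?_, ?_⟩
  · unfold eOf
    simp_rw [natDegree_prod_of_monic _ _ fun ℓ _ => hd1 ℓ]
    rw [Finset.sum_fiberwise]
    exact hd2
  · rw [eOf_prod]; exact hd3

end FZ
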