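import Pool.Agent.Lib.MP_1ad228_nt.FF.FJac

/-! JOB FGlue.  Definitions for the description of the twists, and polynomials assembled from prime data.  MODEL (over `ℤ`): `Pool/Agent/Lib/MP_1ad228_nt/ZGlue.lean`.

`glue`, proof.  `e U = ∏ P` over the `P ∈ pfac D`, `P ∤ R`, `Up P = U`, `g = C (leadingCoeff D) · ∏ P` over the `P ∈ pfac D` with `P ∣ R`; `D = g ∏_U e U` since `D` is squarefree
(`C_mul_prod_pfac`, `Finset.prod_fiberwise`).  `g ∣ R`: a unit times a product of distinct (hence pairwise coprime) primes dividing `R` (`Finset.prod_dvd_of_coprime`).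
`s i = C (leadingCoeff (δ i)) · ∏ P` over the `P ∈ pfac (δ i)`, `P ∣ R`; a prime `P ∣ δ i` with `P ∤ R` divides `D` (second hypothesis) and then `i ∈ Up P`; conversely.  So `δ i = s i * ∏_{U ∋ i} e U`. -/

namespace FZ

open Finset Polynomial

open ZC (OddSet)

section defs

variable {F : Type} [Field F] {ι : Type} [Fintype ι] [DecidableEq ι]

/-- The product of the bad polynomials (with multiplicities). -/
noncomputable def Rb (a : ι → F[X]) : F[X] := (∏ i, a i) * ∏ i, ∏ j ∈ univ.erase i, (a i - a j)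

/-- The coefficients `θ` which occur for `δ_i = s_i ∏_{U ∋ i} e_U`. -/
noncomputable def theta (a : ι → F[X]) (s : ι → F[X]) (U : OddSet ι) (i : ι) : F[X] :=
  s i * (∏ k ∈ U.1.erase i, (a k - a i)) * (if i ∈ U.1 then ∏ l ∈ univ.erase i, (a i - a l) else 1)

/-- The local conditions satisfied by the factorisation `D = g ∏ e_U`. -/
def LocZ [Fintype F] [DecidableEq F] (θ : OddSet ι → ι → F[X]) (a : ι → F[X]) (e : OddSet ι → F[X]) : Prop :=
  ∀ U : OddSet ι, ∀ P : F[X], P.Monic → Irreducible P → P ∣ e U →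
    (∀ i, ¬ P ∣ θ U i) ∧ (∀ k ∈ U.1, jac (a k) P = 1) ∧
    ∀ S : Finset ι, Even (S ∩ U.1).card →
      jac ((∏ i ∈ S, θ U i) * ∏ U' : OddSet ι with Odd (S ∩ U'.1).card, e U') P = 1

theorem Rb_ne_zero (a : ι → F[X]) (ha : Function.Injective a) (ha0 : ∀ i, a i ≠ 0) : Rb a ≠ 0 := by
  unfold Rb
  refine mul_ne_zero (Finset.prod_ne_zero_iff.2 fun i _ => ha0 i) (Finset.prod_ne_zero_iff.2 fun i _ =>
    Finset.prod_ne_zero_iff.2 fun j hj => ?_)
  rw [sub_ne_zero]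
  intro h
  exact (Finset.mem_erase.1 hj).1 (ha h).symm

theorem not_dvd_a (a : ι → F[X]) {P : F[X]} (h : ¬ P ∣ Rb a) (i : ι) : ¬ P ∣ a i := by
  intro hi
  refine h ?_
  unfold Rb
  exact Dvd.dvd.mul_right (hi.trans (Finset.dvd_prod_of_mem a (Finset.mem_univ i))) _

theorem not_dvd_sub (a : ι → F[X]) {P : F[X]} (h : ¬ P ∣ Rb a) (i j : ι) (hij : i ≠ j) : ¬ P ∣ a i - a j := by
  intro hi
  refine h ?_
  unfold Rb
  refine Dvd.dvd.mul_left ?_ _
  refine hi.trans (Dvd.dvd.trans ?_ (Finset.dvd_prod_of_mem (fun i => ∏ j ∈ univ.erase i, (a i - a j)) (Finset.mem_univ i)))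
  exact Finset.dvd_prod_of_mem (fun j => a i - a j) (Finset.mem_erase.2 ⟨hij.symm, Finset.mem_univ j⟩)

end defs

private theorem fglue_eq {F : Type} [Field F] {P Q : F[X]} (hP : P.Monic) (hP' : Irreducible P) (hQ : Q.Monic) (hQ' : Irreducible Q)
    (h : P ∣ Q) : P = Q :=
  Polynomial.eq_of_monic_of_associated hP hQ ((hP'.dvd_irreducible_iff_associated hQ').1 h)

open Classical in
private theorem fglue_split {F : Type} [Field F] (f : F[X]) (hf : Squarefree f) (R : F[X]) :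
    f = (C f.leadingCoeff * ∏ P ∈ pfac f with P ∣ R, P) * ∏ P ∈ pfac f with ¬ P ∣ R, P := by
  rw [mul_assoc, Finset.prod_filter_mul_prod_filter_not, C_mul_prod_pfac hf]

open Classical in
private theorem fglue_dvd {F : Type} [Field F] (f : F[X]) (hf : f ≠ 0) (R : F[X]) :
    C f.leadingCoeff * ∏ P ∈ pfac f with P ∣ R, P ∣ R := by
  have hu : IsUnit (C f.leadingCoeff) := isUnit_C.2 (isUnit_iff_ne_zero.2 (leadingCoeff_ne_zero.2 hf))
  rw [hu.mul_left_dvd]
  refine Finset.prod_dvd_of_coprime ?_ ?_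
  · intro P hP Q hQ hne
    have hP1 := (mem_filter.1 (Finset.mem_coe.1 hP)).1
    have hQ1 := (mem_filter.1 (Finset.mem_coe.1 hQ)).1
    refine (Irreducible.coprime_iff_not_dvd (irreducible_of_mem_pfac hP1)).2 fun h => hne ?_
    exact fglue_eq (monic_of_mem_pfac hP1) (irreducible_of_mem_pfac hP1) (monic_of_mem_pfac hQ1) (irreducible_of_mem_pfac hQ1) h
  · intro P hP
    exact (mem_filter.1 hP).2

theorem glue {F : Type} [Field F] {ι : Type} [Fintype ι] [DecidableEq ι] (R : F[X]) (hR : R ≠ 0) (D : F[X])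
    (hD : Squarefree D) (δ : ι → F[X]) (hδ : ∀ i, Squarefree (δ i)) (Up : F[X] → OddSet ι)
    (h1 : ∀ P : F[X], P.Monic → Irreducible P → ¬ P ∣ R → P ∣ D → ∀ i, (P ∣ δ i ↔ i ∈ (Up P).1))
    (h2 : ∀ P : F[X], P.Monic → Irreducible P → ¬ P ∣ R → ¬ P ∣ D → ∀ i, ¬ P ∣ δ i) :
    ∃ (g : F[X]) (s : ι → F[X]) (e : OddSet ι → F[X]), g ∣ R ∧ (∀ i, s i ∣ R) ∧
      D = g * ∏ U, e U ∧ (∀ i, δ i = s i * ∏ U : OddSet ι with i ∈ U.1, e U) ∧
      (∀ U, (e U).Monic) ∧ Squarefree (∏ U, e U) ∧ IsCoprime (∏ U, e U) R ∧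
      ∀ (U : OddSet ι) (P : F[X]), P.Monic → Irreducible P → (P ∣ e U ↔ P ∣ D ∧ ¬ P ∣ R ∧ Up P = U) := by
  classical
  have hD0 : D ≠ 0 := hD.ne_zero
  set e : OddSet ι → F[X] := fun U => ∏ P ∈ pfac D with ¬ P ∣ R ∧ Up P = U, P with he
  have hprod : ∏ U, e U = ∏ P ∈ pfac D with ¬ P ∣ R, P := by
    rw [← Finset.prod_fiberwise ((pfac D).filter fun P => ¬ P ∣ R) Up (fun P => P)]
    refine Finset.prod_congr rfl fun U _ => ?_
    rw [he, Finset.filter_filter]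
  have hset := prod_set (S := (pfac D).filter fun P => ¬ P ∣ R) (fun P hP =>
    ⟨monic_of_mem_pfac (mem_filter.1 hP).1, irreducible_of_mem_pfac (mem_filter.1 hP).1⟩)
  refine ⟨C D.leadingCoeff * ∏ P ∈ pfac D with P ∣ R, P,
    fun i => C (δ i).leadingCoeff * ∏ P ∈ pfac (δ i) with P ∣ R, P, e,
    fglue_dvd D hD0 R, fun i => fglue_dvd (δ i) (hδ i).ne_zero R, ?_, ?_, ?_, ?_, ?_, ?_⟩
  · rw [hprod]
    exact fglue_split D hD R
  · intro i
    have key : ∏ U : OddSet ι with i ∈ U.1, e U = ∏ P ∈ pfac (δ i) with ¬ P ∣ R, P := by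
      have hF : ∀ P, P ∈ (pfac (δ i)).filter (fun P => ¬ P ∣ R) ↔
          (P ∈ pfac D ∧ ¬ P ∣ R) ∧ i ∈ (Up P).1 := by
        intro P
        rw [mem_filter, mem_pfac (hδ i).ne_zero, mem_pfac hD0]
        constructor
        · rintro ⟨⟨hm, hp, hpd⟩, hpR⟩
          have hpD : P ∣ D := by
            by_contra hcon
            exact h2 P hm hp hpR hcon i hpd
          exact ⟨⟨⟨hm, hp, hpD⟩, hpR⟩, (h1 P hm hp hpR hpD i).1 hpd⟩
        · rintro ⟨⟨⟨hm, hp, hpD⟩, hpR⟩, hi⟩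
          exact ⟨⟨hm, hp, (h1 P hm hp hpR hpD i).2 hi⟩, hpR⟩
      rw [← Finset.prod_fiberwise_of_maps_to (t := univ.filter fun U : OddSet ι => i ∈ U.1) (g := Up)
        (fun P hP => mem_filter.2 ⟨mem_univ _, ((hF P).1 hP).2⟩) (fun P => P)]
      refine Finset.prod_congr rfl fun U hU => ?_
      rw [he]
      refine Finset.prod_congr ?_ fun _ _ => rfl
      ext P
      rw [mem_filter (p := fun P => Up P = U), hF, mem_filter]
      constructor
      · rintro ⟨ha, hb, hc⟩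
        refine ⟨⟨⟨ha, hb⟩, ?_⟩, hc⟩
        rw [hc]
        exact (mem_filter.1 hU).2
      · rintro ⟨⟨⟨ha, hb⟩, _⟩, hc⟩
        exact ⟨ha, hb, hc⟩
    rw [key]
    exact fglue_split (δ i) (hδ i) R
  · intro U
    exact monic_prod_of_monic _ _ fun P hP => monic_of_mem_pfac (mem_filter.1 hP).1
  · rw [hprod]
    exact hset.2.1
  · rw [hprod]
    refine IsCoprime.prod_left fun P hP => ?_
    obtain ⟨hp1, hp2⟩ := mem_filter.1 hP
    exact (Irreducible.coprime_iff_not_dvd (irreducible_of_mem_pfac hp1)).2 hp2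
  · intro U P hm hp
    rw [he]
    simp only
    rw [Prime.dvd_finsetProd_iff hp.prime]
    constructor
    · rintro ⟨Q, hQ, hpq⟩
      obtain ⟨hq1, hq2, hq3⟩ := mem_filter.1 hQ
      have : P = Q := fglue_eq hm hp (monic_of_mem_pfac hq1) (irreducible_of_mem_pfac hq1) hpq
      subst this
      exact ⟨dvd_of_mem_pfac hq1, hq2, hq3⟩
    · rintro ⟨ha, hb, hc⟩
      exact ⟨P, mem_filter.2 ⟨(mem_pfac hD0).2 ⟨hm, hp, ha⟩, hb, hc⟩, dvd_rfl⟩

end FZ
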