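import Pool.Agent.Lib.MP_1ad228_nt.FF.FDual
import Pool.Agent.Lib.MP_1ad228_nt.FF.FCycle
import Pool.Agent.Lib.MP_1ad228_nt.FF.FGlue

/-! JOB FFam.  From an orthogonal family to the factorisation data.  MODEL (over `ℚ`): `Pool/Agent/Lib/MP_1ad228_nt/ZFam.lean`.

Let `z` be the family, `R = Rb a` (nonzero).  For a monic irreducible `P ∤ R`, `v = plP P`, `O = olf h2 v`: `O.w (ev v (a i)) = 1`, `O.w (ev v (a i) - ev v (a j)) = 1` (`ordv_of_not_dvd`, `OLF.w_eq_one_iff`, `olf_ord`, `map_sub`).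
* If `P ∣ D`: `P² ∤ D` (`D` squarefree), `ordv v (ev v D) = 1`, `O.w (ev v D) = 1/2` (`OLF.w_eq`); `cycle_ram` gives `Up P : OddSet ι` with `ev v (a k)` a square for `k ∈ Up P` and `IsSquare (cls_i * ∏_{k∈Up P} cc (ev a) (ev D) k i)`; and
  `cc (ev a) (ev D) k i = ev v (cc a D k i)` (`map_sub`, `map_mul`, `map_prod`).
* If `P ∤ D`: `cls_i` has even valuation (`cycle_unr`).
* `dual` (for each `i`, `T = {plInf} ∪ {plP P : P ∣ R D}`, finite; `pl_cases`): `δ_i` squarefree with `IsSquare (cls_i(v) * ev v δ_i)` at every place (`Cyc.cls_ne` for the nonvanishing: `fun i => ev v (a i)` is injective, `ev v D ≠ 0`).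
* so for `P ∤ R`: `δ_i ≡ cls_i` mod squares.  If `P ∤ D`: `ordv δ_i` is even, `δ_i` squarefree, so `P ∤ δ_i`.  If `P ∣ D`: `ordv δ_i ≡ ordv (∏_{k∈U} cc a D k i)` mod `2`, and `ordv (cc a D k i) = 0` for `i ≠ k`, `= ordv D = 1` for `i = k`; so
  `P ∣ δ_i` iff `i ∈ Up P`.  Apply `glue` (`Up` extended arbitrarily, e.g. by a fixed singleton; `ι` is nonempty).
* `LocZ (theta a s) a e`: let `P ∣ e U`, so `P ∣ D`, `P ∤ R`, `Up P = U`.  `P ∤ theta a s U i`: `s i ∣ R` and the other factors are differences `a_k - a_i`, prime to `P`.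
  `jac (a k) P = 1` for `k ∈ U` by `isSquare_plP_iff`.  For `|S ∩ U|` even: every `δ_i ∏_{k∈U} cc a D k i` is a square at `plP P` (product of the two facts), hence so is the product over `i ∈ S`:
  `∏_{i∈S} s_i · ∏_{i∈S} ∏_{U'∋i} e_{U'} · ∏_{i∈S} ∏_{k∈U\i} (a_k - a_i) · ∏_{i∈S∩U} D ∏_{l≠i} (a_i - a_l) = ∏_{i∈S} theta a s U i · ∏_{U'} e_{U'}^{|S∩U'|} · D^{|S∩U|}`
  and, as `|S ∩ U|` is even, `∏_{U'} e_{U'}^{|S∩U'|} = ∏_{|S∩U'| odd} e_{U'} · square`.  So `M = ∏_{i∈S} theta · ∏_{|S∩U'| odd} e_{U'}` is a square at `plP P`, and it is prime to `P` (`U` itself is not among the `U'`, and the `e_{U'}` are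
  pairwise coprime).  `isSquare_plP_iff`. -/

namespace FZ

open Finset Polynomial

open ZC (OddSet)

private theorem FFam_w_one {F : Type} [Field F] [Fintype F] (h2 : ringChar F ≠ 2) {P : F[X]} (hP : Irreducible P)
    {f : F[X]} (hf : ¬ P ∣ f) : (olf h2 (plP P hP)).w (ev (plP P hP) f) = 1 := by
  have hf0 : f ≠ 0 := by
    rintro rfl
    exact hf (dvd_zero P)
  rw [OLF.w_eq_one_iff _ _ (ev_ne_zero _ hf0), olf_ord]
  exact ordv_of_not_dvd hP hf

private theorem FFam_ord_mul {F : Type} [Field F] {P : F[X]} (hP : Irreducible P) {m : F[X]} (hm : ¬ P ∣ m) :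
    ordv (plP P hP) (ev (plP P hP) (P * m)) = 1 := by
  have hm0 : m ≠ 0 := by
    rintro rfl
    exact hm (dvd_zero P)
  rw [map_mul, ordv_mul _ _ _ (ev_ne_zero _ hP.ne_zero) (ev_ne_zero _ hm0), ordv_self hP,
    ordv_of_not_dvd hP hm, add_zero]

private theorem FFam_not_sq {F : Type} [Field F] [Fintype F] {P : F[X]} (hP : Irreducible P) {m : F[X]}
    (hm : ¬ P ∣ m) : ¬ IsSquare (ev (plP P hP) (P * m)) := by
  intro h
  have hm0 : m ≠ 0 := by
    rintro rfl
    exact hm (dvd_zero P)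
  have h1 := even_of_isSquare (plP P hP) (ev_ne_zero _ (mul_ne_zero hP.ne_zero hm0)) h
  rw [FFam_ord_mul hP hm] at h1
  exact absurd h1 (by decide)

private theorem FFam_split {F : Type} [Field F] {P : F[X]} (hP : Irreducible P) {n : F[X]}
    (hn : Squarefree n) (h : P ∣ n) : ∃ m, n = P * m ∧ ¬ P ∣ m := by
  obtain ⟨m, hm⟩ := h
  refine ⟨m, hm, ?_⟩
  rintro ⟨k, hk⟩
  have h1 : P * P ∣ n := ⟨k, by rw [hm, hk]; ring⟩
  exact hP.not_isUnit (hn _ h1)

private theorem FFam_not_dvd_prod {F : Type} [Field F] {κ : Type} {P : F[X]} (hP : Irreducible P) (S : Finset κ)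
    (f : κ → F[X]) (h : ∀ x ∈ S, ¬ P ∣ f x) : ¬ P ∣ ∏ x ∈ S, f x := by
  intro h1
  obtain ⟨x, hx, h2⟩ := hP.prime.exists_mem_finset_dvd h1
  exact h x hx h2

/-- the product of the constants at `i` -/
private theorem FFam_prod_cc {R : Type} [CommRing R] {ι : Type} [Fintype ι] [DecidableEq ι] (a : ι → R) (D : R)
    (U : Finset ι) (i : ι) :
    ∏ k ∈ U, cc a D k i = (if i ∈ U then D else 1) *
      ((∏ k ∈ U.erase i, (a k - a i)) * (if i ∈ U then ∏ l ∈ univ.erase i, (a i - a l) else 1)) := by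
  have h1 : ∏ k ∈ U.erase i, cc a D k i = ∏ k ∈ U.erase i, (a k - a i) := by
    refine Finset.prod_congr rfl fun k hk => ?_
    unfold cc
    rw [if_neg (Finset.mem_erase.1 hk).1.symm]
  by_cases hi : i ∈ U
  · rw [← Finset.mul_prod_erase U _ hi, h1, if_pos hi, if_pos hi]
    unfold cc
    rw [if_pos rfl]
    ring
  · rw [if_neg hi, if_neg hi, one_mul, mul_one, ← h1, Finset.erase_eq_of_notMem hi]

private theorem FFam_cc_map {R S : Type} [CommRing R] [CommRing S] (φ : R →+* S) {ι : Type} [Fintype ι]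
    [DecidableEq ι] (a : ι → R) (D : R) (k i : ι) :
    cc (fun j => φ (a j)) (φ D) k i = φ (cc a D k i) := by
  unfold cc
  split_ifs with h
  · simp only [map_mul, map_prod, map_sub]
  · rw [map_sub]

private theorem FFam_isSquare_prod {κ F : Type} [Field F] (S : Finset κ) (f : κ → F)
    (h : ∀ x ∈ S, IsSquare (f x)) : IsSquare (∏ x ∈ S, f x) := by
  classical
  induction S using Finset.induction_on with
  | empty => simp
  | insert x s hx ih =>
    rw [Finset.prod_insert hx]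
    exact (h x (Finset.mem_insert_self x s)).mul (ih fun y hy => h y (Finset.mem_insert_of_mem hy))

private theorem FFam_isSquare_of_mul_sq {F : Type} [Field F] {x q : F} (hq : q ≠ 0)
    (h : IsSquare (x * q ^ 2)) : IsSquare x := by
  obtain ⟨y, hy⟩ := h
  refine ⟨y / q, ?_⟩
  field_simp
  linear_combination hy

/-- regrouping of the product over `i ∈ S` of the factorisations -/
private theorem FFam_regroup {F : Type} [Field F] {ι : Type} [Fintype ι] [DecidableEq ι] (e : OddSet ι → F[X])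
    (S : Finset ι) :
    ∏ i ∈ S, ∏ U : OddSet ι with i ∈ U.1, e U =
      (∏ U : OddSet ι with Odd (S ∩ U.1).card, e U) * (∏ U : OddSet ι, e U ^ ((S ∩ U.1).card / 2)) ^ 2 := by
  have h1 : ∏ i ∈ S, ∏ U : OddSet ι with i ∈ U.1, e U = ∏ U : OddSet ι, e U ^ (S ∩ U.1).card := by
    simp only [Finset.prod_filter]
    rw [Finset.prod_comm]
    refine Finset.prod_congr rfl fun U _ => ?_
    rw [← Finset.prod_filter, Finset.prod_const]
    congr 2
  rw [h1, Finset.prod_filter, ← Finset.prod_pow, ← Finset.prod_mul_distrib]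
  refine Finset.prod_congr rfl fun U _ => ?_
  rw [← pow_mul]
  split_ifs with h
  · rw [← pow_succ']
    congr 1
    rw [Nat.odd_iff] at h
    omega
  · rw [one_mul]
    congr 1
    rw [Nat.not_odd_iff] at h
    omega

theorem family_desc {F : Type} [Field F] [Fintype F] [DecidableEq F] (h2 : ringChar F ≠ 2)
    {ι : Type} [Fintype ι] [DecidableEq ι] [Nonempty ι] (a : ι → F[X]) (ha : Function.Injective a)
    (ha0 : ∀ i, a i ≠ 0) (D : F[X]) (hD : Squarefree D) (h : Adelic a D) :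
    ∃ (g : F[X]) (s : ι → F[X]) (e : OddSet ι → F[X]), g ∣ Rb a ∧ (∀ i, s i ∣ Rb a) ∧
      D = g * ∏ U, e U ∧ (∀ U, (e U).Monic) ∧ Squarefree (∏ U, e U) ∧ IsCoprime (∏ U, e U) (Rb a) ∧
      LocZ (theta a s) a e := by
  have hD0 : D ≠ 0 := hD.ne_zero
  have hR := Rb_ne_zero a ha ha0
  obtain ⟨z, hz, horth⟩ := h
  have hinj : ∀ v : Pl F, Function.Injective (fun i => ev v (a i)) := by
    intro v i j hij
    apply ha
    by_contra hne
    have h1 : ev v (a i - a j) ≠ 0 := ev_ne_zero v (sub_ne_zero.2 hne)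
    apply h1
    rw [map_sub, sub_eq_zero]
    exact hij
  have hwa : ∀ (P : F[X]) (hP : Irreducible P), ¬ P ∣ Rb a → ∀ i,
      (olf h2 (plP P hP)).w (ev (plP P hP) (a i)) = 1 :=
    fun P hP hPR i => FFam_w_one h2 hP (not_dvd_a a hPR i)
  have hwd : ∀ (P : F[X]) (hP : Irreducible P), ¬ P ∣ Rb a → ∀ i j, i ≠ j →
      (olf h2 (plP P hP)).w (ev (plP P hP) (a i) - ev (plP P hP) (a j)) = 1 := by
    intro P hP hPR i j hij
    rw [← map_sub]
    exact FFam_w_one h2 hP (not_dvd_sub a hPR i j hij)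
  -- the classes at the primes dividing `D`
  have hex : ∀ P : F[X], ∃ U : OddSet ι, ∀ (hP : Irreducible P), ¬ P ∣ Rb a → P ∣ D →
      (∀ k ∈ U.1, IsSquare (ev (plP P hP) (a k))) ∧
      ∀ i, IsSquare ((z (plP P hP)).cls i * ev (plP P hP) (∏ k ∈ U.1, cc a D k i)) := by
    intro P
    by_cases h : ∃ _ : Irreducible P, ¬ P ∣ Rb a ∧ P ∣ D
    · obtain ⟨hP, hPR, hPD⟩ := h
      obtain ⟨m, hm, hPm⟩ := FFam_split hP hD hPD
      have hw : (olf h2 (plP P hP)).w (ev (plP P hP) D) = 1 / 2 := by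
        rw [OLF.w_eq _ _ (ev_ne_zero _ hD0), olf_ord, hm, FFam_ord_mul hP hPm]
        norm_num
      obtain ⟨U, hU1, hU2⟩ := cycle_ram (olf h2 (plP P hP)) (fun i => ev (plP P hP) (a i))
        (ev (plP P hP) D) (hwa P hP hPR) (hwd P hP hPR) hw (z (plP P hP)) (hz (plP P hP))
      refine ⟨U, fun _ _ _ => ⟨hU1, fun i => ?_⟩⟩
      have h1 := hU2 i
      simp only [FFam_cc_map] at h1
      rw [map_prod]
      exact h1
    · exact ⟨⟨{Classical.arbitrary ι}, by simp⟩, fun hP hPR hPD => absurd ⟨hP, hPR, hPD⟩ h⟩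
  choose Up hUp using hex
  -- the global polynomials
  have hdual : ∀ i, ∃ δ : F[X], Squarefree δ ∧ ∀ v : Pl F, IsSquare ((z v).cls i * ev v δ) := by
    classical
    intro i
    refine dual h2 (fun v => (z v).cls i) (fun v => (z v).cls_ne (hinj v) (ev_ne_zero v hD0) i)
      (insert (plInf F) ((fun P : F[X] => if hP : Irreducible P then plP P hP else plInf F) ''
        (pfac (Rb a * D) : Set F[X]))) ((Finset.finite_toSet _).image _ |>.insert _) ?_
      (fun β hβ => horth i β hβ)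
    intro v hv
    rw [Set.mem_insert_iff, not_or] at hv
    rcases pl_cases v with h1 | ⟨P, hP, mP, h1⟩
    · exact absurd h1 hv.1
    · subst h1
      have hnd : ¬ P ∣ Rb a * D := by
        intro hd
        apply hv.2
        refine ⟨P, ?_, ?_⟩
        · rw [Finset.mem_coe, mem_pfac (mul_ne_zero hR hD0)]
          exact ⟨mP, hP, hd⟩
        · simp only [hP, dite_true]
      have hPR : ¬ P ∣ Rb a := fun hd => hnd (hd.mul_right _)
      have hPD : ¬ P ∣ D := fun hd => hnd (hd.mul_left _)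
      have h3 := cycle_unr (olf h2 (plP P hP)) (fun i => ev (plP P hP) (a i))
        (ev (plP P hP) D) (hwa P hP hPR) (hwd P hP hPR) (FFam_w_one h2 hP hPD) (z (plP P hP)) i
      rw [olf_ord] at h3
      exact h3
  choose δ hδ hδsq using hdual
  -- the polynomials `δ_i ∏ cc` are squares
  have hsq : ∀ (P : F[X]) (hP : Irreducible P), ¬ P ∣ Rb a → P ∣ D → ∀ i,
      IsSquare (ev (plP P hP) (δ i * ∏ k ∈ (Up P).1, cc a D k i)) := by
    intro P hP hPR hPD i
    have h1 := ((hUp P hP hPR hPD).2 i).mul (hδsq i (plP P hP))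
    have hc : (z (plP P hP)).cls i ≠ 0 := (z (plP P hP)).cls_ne (hinj _) (ev_ne_zero _ hD0) i
    refine FFam_isSquare_of_mul_sq hc ?_
    have e : ev (plP P hP) (δ i * ∏ k ∈ (Up P).1, cc a D k i) * (z (plP P hP)).cls i ^ 2 =
        ((z (plP P hP)).cls i * ev (plP P hP) (∏ k ∈ (Up P).1, cc a D k i)) *
          ((z (plP P hP)).cls i * ev (plP P hP) (δ i)) := by
      rw [map_mul]
      ring
    rw [e]
    exact h1
  have hW : ∀ (P : F[X]), Irreducible P → ¬ P ∣ Rb a → ∀ (U : Finset ι) (i : ι),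
      ¬ P ∣ (∏ k ∈ U.erase i, (a k - a i)) * (if i ∈ U then ∏ l ∈ univ.erase i, (a i - a l) else 1) := by
    intro P hP hPR U i h
    rcases hP.prime.dvd_or_dvd h with h | h
    · exact FFam_not_dvd_prod hP _ _ (fun k hk => not_dvd_sub a hPR k i (Finset.mem_erase.1 hk).1) h
    · split_ifs at h with hi
      · exact FFam_not_dvd_prod hP _ _
          (fun l hl => not_dvd_sub a hPR i l (Finset.mem_erase.1 hl).1.symm) h
      · exact hP.not_isUnit (isUnit_of_dvd_one h)
  have h1 : ∀ P : F[X], P.Monic → Irreducible P → ¬ P ∣ Rb a → P ∣ D → ∀ i,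
      (P ∣ δ i ↔ i ∈ (Up P).1) := by
    intro P _ hP hPR hPD i
    have h2 := hsq P hP hPR hPD i
    rw [FFam_prod_cc] at h2
    have h3 := hW P hP hPR (Up P).1 i
    by_cases hi : i ∈ (Up P).1
    · refine ⟨fun _ => hi, fun _ => ?_⟩
      by_contra hnd
      obtain ⟨m, hm, hPm⟩ := FFam_split hP hD hPD
      rw [if_pos hi] at h2
      set W := (∏ k ∈ (Up P).1.erase i, (a k - a i)) *
        (if i ∈ (Up P).1 then ∏ l ∈ univ.erase i, (a i - a l) else 1) with hWdef
      have e : δ i * (D * W) = P * (m * (δ i * W)) := by rw [hm]; ring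
      rw [e] at h2
      refine FFam_not_sq hP ?_ h2
      intro h4
      rcases hP.prime.dvd_or_dvd h4 with h4 | h4
      · exact hPm h4
      · rcases hP.prime.dvd_or_dvd h4 with h4 | h4
        · exact hnd h4
        · exact h3 h4
    · refine ⟨fun hd => ?_, fun hi' => absurd hi' hi⟩
      exfalso
      obtain ⟨m, hm, hPm⟩ := FFam_split hP (hδ i) hd
      rw [if_neg hi, one_mul] at h2
      set W := (∏ k ∈ (Up P).1.erase i, (a k - a i)) *
        (if i ∈ (Up P).1 then ∏ l ∈ univ.erase i, (a i - a l) else 1) with hWdef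
      have e : δ i * W = P * (m * W) := by rw [hm]; ring
      rw [e] at h2
      refine FFam_not_sq hP ?_ h2
      intro h4
      rcases hP.prime.dvd_or_dvd h4 with h4 | h4
      · exact hPm h4
      · exact h3 h4
  have h2' : ∀ P : F[X], P.Monic → Irreducible P → ¬ P ∣ Rb a → ¬ P ∣ D → ∀ i, ¬ P ∣ δ i := by
    intro P _ hP hPR hPD i hd
    obtain ⟨m, hm, hPm⟩ := FFam_split hP (hδ i) hd
    have h3 := cycle_unr (olf h2 (plP P hP)) (fun i => ev (plP P hP) (a i))
      (ev (plP P hP) D) (hwa P hP hPR) (hwd P hP hPR) (FFam_w_one h2 hP hPD) (z (plP P hP)) i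
    rw [olf_ord] at h3
    have hc : (z (plP P hP)).cls i ≠ 0 := (z (plP P hP)).cls_ne (hinj _) (ev_ne_zero _ hD0) i
    have hδ0 : ev (plP P hP) (δ i) ≠ 0 := ev_ne_zero _ (hδ i).ne_zero
    have h4 := even_of_isSquare (plP P hP) (mul_ne_zero hc hδ0) (hδsq i (plP P hP))
    rw [ordv_mul _ _ _ hc hδ0, hm, FFam_ord_mul hP hPm] at h4
    obtain ⟨t, ht⟩ := h3
    obtain ⟨t', ht'⟩ := h4
    omega
  obtain ⟨g, s, e, hg, hs, hDe, hδe, hmon, hsqf, hcop, hPe⟩ := glue (Rb a) hR D hD δ hδ Up h1 h2'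
  refine ⟨g, s, e, hg, hs, hDe, hmon, hsqf, hcop, ?_⟩
  intro U P mP hP hPU
  obtain ⟨hPD, hPR, hPU'⟩ := (hPe U P mP hP).1 hPU
  have hth : ∀ i, ¬ P ∣ theta a s U i := by
    intro i hd
    unfold theta at hd
    rw [mul_assoc] at hd
    rcases hP.prime.dvd_or_dvd hd with hd | hd
    · exact hPR (hd.trans (hs i))
    · exact hW P hP hPR U.1 i hd
  refine ⟨hth, ?_, ?_⟩
  · intro k hk
    rw [← hPU'] at hk
    exact (isSquare_plP_iff h2 mP hP (not_dvd_a a hPR k)).1 ((hUp P hP hPR hPD).1 k hk)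
  · intro S hS
    rw [← isSquare_plP_iff h2 mP hP]
    · have h3 := FFam_isSquare_prod S (fun i => ev (plP P hP) (δ i * ∏ k ∈ (Up P).1, cc a D k i))
        (fun i _ => hsq P hP hPR hPD i)
      rw [← map_prod, hPU'] at h3
      obtain ⟨t, ht⟩ := hS
      have hDS : ∏ i ∈ S, (if i ∈ U.1 then D else 1) = (D ^ t) ^ 2 := by
        rw [← Finset.prod_filter, Finset.prod_const]
        have e1 : (S.filter fun x => x ∈ U.1) = S ∩ U.1 := by
          ext x
          simp
        rw [e1, ht, ← pow_mul]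
        congr 1
        omega
      have key : ∏ i ∈ S, (δ i * ∏ k ∈ U.1, cc a D k i) =
          ((∏ i ∈ S, theta a s U i) * ∏ U' : OddSet ι with Odd (S ∩ U'.1).card, e U') *
            ((∏ U' : OddSet ι, e U' ^ ((S ∩ U'.1).card / 2)) * D ^ t) ^ 2 := by
        have e2 : ∀ i ∈ S, δ i * ∏ k ∈ U.1, cc a D k i = theta a s U i *
            (∏ U' : OddSet ι with i ∈ U'.1, e U') * (if i ∈ U.1 then D else 1) := by
          intro i _
          rw [FFam_prod_cc, hδe i]
          unfold theta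
          ring
        rw [Finset.prod_congr rfl e2, Finset.prod_mul_distrib, Finset.prod_mul_distrib, FFam_regroup, hDS]
        ring
      rw [key, map_mul, map_pow] at h3
      refine FFam_isSquare_of_mul_sq ?_ h3
      apply ev_ne_zero
      exact mul_ne_zero (Finset.prod_ne_zero_iff.2 fun U' _ => pow_ne_zero _ (hmon U').ne_zero)
        (pow_ne_zero _ hD0)
    · intro hd
      rcases hP.prime.dvd_or_dvd hd with hd | hd
      · exact FFam_not_dvd_prod hP _ _ (fun i _ => hth i) hd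
      · refine FFam_not_dvd_prod hP _ _ (fun U' hU' h4 => ?_) hd
        have h5 := ((hPe U' P mP hP).1 h4).2.2
        rw [hPU'] at h5
        rw [← h5] at hU'
        exact (Nat.not_odd_iff_even.2 hS) (Finset.mem_filter.1 hU').2

end FZ
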