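import Pool.Agent.Lib.MP_1ad228_nt.FF.FDefs

/-! JOB FP2.  Zero-cycles of degree one from simple points.
MODEL (complete proofs; only the type of the coefficients `a_i`, `D` changed, now they are in the field `L` itself): `Pool/Agent/Lib/MP_1ad228_ntR/RP2.lean`.

* `cyc_sqD`: `D = c * c`, `D ≠ 0`: the point `x = 1, z = 0, w = 1/c` over `K = L` (`D * w^2 = 1 = ∏ (1 - a_i * 0)`), coefficient `1`, degree `Module.finrank_self`.
* `cyc_sqa`: `a i = c * c`: the point `x = c, z = 1, w = 0` over `K = L`.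
* `cyc_of_odd`: let `n = finrank L P.K`, odd.  If `D` is a square in `L` use `cyc_sqD`.  Otherwise `X^2 - C D` is irreducible, `K = AdjoinRoot (X^2 - C D)` is a field of degree `2` over `L` with root `s`, `s² = D`; the point `Q`:
`x = 1, z = 0, w = 1/s`.  The cycle `[(1, P), (-(n-1)/2, Q)]` has degree `n - 2 * ((n-1)/2) = 1`. -/

namespace FZ

open Finset

variable {L : Type} [Field L] {ι : Type} [Fintype ι]

private theorem FP2_one {a : ι → L} {D : L} (P : Pt L a D) (h : Module.finrank L P.K = 1) :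
    ∃ z : Cyc L a D, z.deg = 1 := by
  refine ⟨[(1, P)], ?_⟩
  simp [Cyc.deg, h]

theorem cyc_sqD (a : ι → L) (D : L) (hD : D ≠ 0) (h : IsSquare D) : ∃ z : Cyc L a D, z.deg = 1 := by
  obtain ⟨c, hc⟩ := h
  have hc0 : c ≠ 0 := by
    rintro rfl
    exact hD (by rw [hc, mul_zero])
  refine FP2_one { K := L, x := 1, z := 0, w := 1 / c, ne := ?_, eq := ?_ } (Module.finrank_self L)
  · rintro ⟨h1, -⟩
    exact one_ne_zero h1
  · rw [Algebra.algebraMap_self, RingHom.id_apply, hc]
    have e : c * c * (1 / c) ^ 2 = 1 := by field_simp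
    rw [e]
    symm
    apply Finset.prod_eq_one
    intro i _
    simp

theorem cyc_sqa (a : ι → L) (D : L) (i : ι) (h : IsSquare (a i)) : ∃ z : Cyc L a D, z.deg = 1 := by
  obtain ⟨c, hc⟩ := h
  refine FP2_one { K := L, x := c, z := 1, w := 0, ne := ?_, eq := ?_ } (Module.finrank_self L)
  · rintro ⟨-, h1⟩
    exact one_ne_zero h1
  · symm
    rw [Finset.prod_eq_zero (Finset.mem_univ i)]
    · ring
    · rw [Algebra.algebraMap_self, RingHom.id_apply, hc]
      ring

theorem cyc_of_odd (a : ι → L) (D : L) (hD : D ≠ 0) (P : Pt L a D) (hodd : Odd (Module.finrank L P.K)) :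
    ∃ z : Cyc L a D, z.deg = 1 := by
  by_cases hs : IsSquare D
  · exact cyc_sqD a D hD hs
  obtain ⟨k, hk⟩ := hodd
  have hirr : Irreducible (Polynomial.X ^ 2 - Polynomial.C D) := by
    rw [X_pow_sub_C_irreducible_iff_of_prime Nat.prime_two]
    intro b hb
    exact hs ⟨b, by rw [← hb]; ring⟩
  haveI : Fact (Irreducible (Polynomial.X ^ 2 - Polynomial.C D)) := ⟨hirr⟩
  have hne : (Polynomial.X ^ 2 - Polynomial.C D) ≠ 0 := hirr.ne_zero
  haveI : FiniteDimensional L (AdjoinRoot (Polynomial.X ^ 2 - Polynomial.C D)) :=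
    (AdjoinRoot.powerBasis hne).finite
  have hfin : Module.finrank L (AdjoinRoot (Polynomial.X ^ 2 - Polynomial.C D)) = 2 := by
    rw [(AdjoinRoot.powerBasis hne).finrank, AdjoinRoot.powerBasis_dim,
      Polynomial.natDegree_X_pow_sub_C]
  obtain ⟨s, hs2⟩ : ∃ s : AdjoinRoot (Polynomial.X ^ 2 - Polynomial.C D),
      s ^ 2 = algebraMap L (AdjoinRoot (Polynomial.X ^ 2 - Polynomial.C D)) D := by
    refine ⟨AdjoinRoot.root _, ?_⟩
    have h := AdjoinRoot.eval₂_root (Polynomial.X ^ 2 - Polynomial.C D)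
    rw [Polynomial.eval₂_sub, Polynomial.eval₂_pow, Polynomial.eval₂_X, Polynomial.eval₂_C,
      sub_eq_zero] at h
    rw [h]
    rfl
  have hD' : algebraMap L (AdjoinRoot (Polynomial.X ^ 2 - Polynomial.C D)) D ≠ 0 := by
    intro h0
    apply hD
    refine (algebraMap L (AdjoinRoot (Polynomial.X ^ 2 - Polynomial.C D))).injective ?_
    rw [h0, map_zero]
  have hs0 : s ≠ 0 := by
    rintro rfl
    apply hD'
    rw [← hs2]
    ring
  obtain ⟨Q, hQ⟩ : ∃ Q : Pt L a D, Module.finrank L Q.K = 2 := by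
    refine ⟨{ K := AdjoinRoot (Polynomial.X ^ 2 - Polynomial.C D), x := 1, z := 0, w := 1 / s, ne := ?_, eq := ?_ }, hfin⟩
    · rintro ⟨h1, -⟩
      exact one_ne_zero h1
    · rw [← hs2]
      have e : s ^ 2 * (1 / s) ^ 2 = 1 := by field_simp
      rw [e]
      symm
      apply Finset.prod_eq_one
      intro i _
      simp
  refine ⟨[(1, P), (-(k : ℤ), Q)], ?_⟩
  unfold Cyc.deg
  simp only [List.map_cons, List.map_nil, List.sum_cons, List.sum_nil]
  rw [hk, hQ]
  push_cast
  ring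

end FZ
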