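import Pool.Agent.Lib.MP_1ad228_nt.FF.FP1
import Pool.Agent.Lib.MP_1ad228_nt.FF.FP2

/-! JOB FRLoc.  The twists in `InD a ε i j` have zero-cycles of degree one over all the completions; the twists by `D` of the curves with some `a_i ∈ {ε, b, ε b}`; a zero-cycle over `F(t)` if some `a_i` is a square.
MODEL for the first theorem (over `ℤ`, complete proof): `Pool/Agent/Lib/MP_1ad228_ntR/RLoc.lean`; for the others `ZFinal_all` (the family `13, 17, 221`) and `global_of_square` in `Pool/Agent/Lib/MP_1ad228_nt/ZFinal.lean`.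

Proof of `localCyc_of_InD`.  `D ≠ 0` (monic), `Rb a ≠ 0` (`Rb_ne_zero`; the `a_i` are nonzero because `0` is a square).  `ev v D ≠ 0` (`ev_ne_zero`).  `D` has even degree: `C ε ∈ EE a ε`, `jac (C ε) D = χ(ε)^(deg D)` (`jac_C`),
`χ(ε) = -1` (`quadraticChar_neg_one_iff_not_isSquare`).  Let `v` be a place, use `pl_cases`.
Infinite place: `D` is monic of even degree, so a square (`isSquare_plInf_iff`, leading coefficient `1`): `cyc_sqD`.
`v = plP P hP`, `P` monic:
(a) `P ∣ Rb a`: `P ∈ pfac (Rb a) ⊆ EE a ε` (`mem_pfac`), `jac P D = 1`, `jac_recip` (`D` has even degree) gives `jac D P = 1`, `P ∤ D` (`D` is coprime to `Rb a`), `D` is a square in `Kv v` (`isSquare_plP_iff`): `cyc_sqD`.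
(b) `P ∣ D` (then `P ∤ Rb a`): `jac (a k) P = 1` for `k = i` or `k = j`, `P ∤ a k` (`not_dvd_a`), so `a k` is a square in `Kv v`: `cyc_sqa`.
(c) `P ∤ D`, `P ∤ Rb a`.  If `jac D P = 1`: `D` is a square, `cyc_sqD`.  If `jac (a k) P = 1` for some `k`: `cyc_sqa`.  Otherwise `D` and all the `a k` are not squares mod `P` (`jac_prime`), `P ∤ a k - a l` (`not_dvd_sub`); `lift_poly`,
`odd_point_olf` with `O = olf h2 v`, `R = F[X]`, `φ = ev v`, `ϖ = P` (`O.w (ev v f) ≤ 1`: `OLF.w_eq`, `olf_ord`, `ordv_nonneg`; `< 1` for `P`: `ordv_self`), and `cyc_of_odd`.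

Proof of `localCyc_family`.  `ε` is a non-square constant, `b` monic irreducible of even degree, `D ≠ 0`, and `C ε`, `b`, `C ε * b` are among the `a i`.  At the infinite place `b` is a square.  At `P ≠ b` (monic irreducible, so `P ∤ b`; `P ∤ C ε`):
one of `jac b P`, `jac (C ε) P`, `jac (C ε * b) P = jac (C ε) P * jac b P` is `1` (none is `0`: `jac_ne_zero_iff`), so one of `b, C ε, C ε * b` is a square in `Kv v`.  At `P = b`: `jac (C ε) P = χ(ε)^(deg b) = 1`.  Always `cyc_sqa`. -/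

namespace FZ

open Finset Polynomial

variable {F : Type} [Field F] [Fintype F] [DecidableEq F]

omit [DecidableEq F] in
private theorem FRLoc_w (h2 : ringChar F ≠ 2) {P : F[X]} (hP : Irreducible P) (f : F[X]) :
    (olf h2 (plP P hP)).w (ev (plP P hP) f) ≤ 1 := by
  by_cases hf : f = 0
  · rw [hf, map_zero, OLF.w_zero]; exact zero_le_one
  · rw [OLF.w_eq _ _ (ev_ne_zero _ hf), olf_ord]
    have := ordv_nonneg hP hf
    exact zpow_le_one_of_nonpos₀ (by norm_num) (by omega)

omit [DecidableEq F] in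
private theorem FRLoc_w_lt (h2 : ringChar F ≠ 2) {P : F[X]} (hP : Irreducible P) :
    (olf h2 (plP P hP)).w (ev (plP P hP) P) < 1 := by
  rw [OLF.w_eq _ _ (ev_ne_zero _ hP.ne_zero), olf_ord, ordv_self]
  norm_num

omit [Fintype F] [DecidableEq F] in
private theorem FRLoc_EE {ι : Type} [Fintype ι] [DecidableEq ι] (a : ι → F[X]) (ε : F) (e : F[X]) :
    e ∈ EE a ε ↔ e = C ε ∨ e ∈ pfac (Rb a) := by
  unfold EE
  exact @mem_insert _ (_) _ _ _

theorem localCyc_of_InD (h2 : ringChar F ≠ 2) {ι : Type} [Fintype ι] [DecidableEq ι] (a : ι → F[X])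
    (ha : Function.Injective a) (hsq : ∀ i, ¬ IsSquare (a i)) (ε : F) (hε : ¬ IsSquare ε) (i j : ι) (D : F[X])
    (hD : InD a ε i j D) : LocalCyc a D := by
  obtain ⟨hDm, hDsf, hDc, hDE, hDp⟩ := hD
  have ha0 : ∀ k, a k ≠ 0 := fun k h => hsq k (by rw [h]; exact ⟨0, by simp⟩)
  have hR : Rb a ≠ 0 := Rb_ne_zero a ha ha0
  have hD0 : D ≠ 0 := hDm.ne_zero
  have hev : Even D.natDegree := by
    have h1 : jac (C ε) D = 1 := hDE (C ε) ((FRLoc_EE a ε _).2 (Or.inl rfl))
    rw [jac_C hDm, quadraticChar_neg_one_iff_not_isSquare.2 hε] at h1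
    exact (neg_one_pow_eq_one_iff_even (by norm_num)).1 h1
  have hrec : ∀ P : F[X], P.Monic → jac P D = jac D P := by
    intro P hm
    rw [jac_recip hm hDm]
    obtain ⟨k, hk⟩ := hev.mul_left P.natDegree
    have h1 : (quadraticChar F (-1)) ^ 2 = 1 := quadraticChar_sq_one (neg_ne_zero.2 one_ne_zero)
    rw [hk, ← two_mul, pow_mul, h1, one_pow, one_mul]
  have : Nonempty ι := ⟨i⟩
  intro v
  have hDv : ev v D ≠ 0 := ev_ne_zero v hD0
  rcases pl_cases v with rfl | ⟨P, hP, mP, rfl⟩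
  · exact cyc_sqD _ _ hDv ((isSquare_plInf_iff h2 hD0 hev).2 (by rw [hDm.leadingCoeff]; exact ⟨1, by simp⟩))
  · by_cases hPR : P ∣ Rb a
    · have hPE : P ∈ EE a ε := (FRLoc_EE a ε _).2 (Or.inr ((mem_pfac hR).2 ⟨mP, hP, hPR⟩))
      have h1 : jac D P = 1 := by rw [← hrec P mP]; exact hDE P hPE
      have h3 : ¬ P ∣ D := by
        intro h
        exact hP.not_isUnit (hDc.isUnit_of_dvd' h hPR)
      exact cyc_sqD _ _ hDv ((isSquare_plP_iff h2 mP hP h3).2 h1)
    · have hak : ∀ k, ¬ P ∣ a k := not_dvd_a a hPR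
      by_cases hPD : P ∣ D
      · rcases hDp P mP hP hPD with h | h
        · exact cyc_sqa _ _ i ((isSquare_plP_iff h2 mP hP (hak i)).2 h)
        · exact cyc_sqa _ _ j ((isSquare_plP_iff h2 mP hP (hak j)).2 h)
      · by_cases h1 : jac D P = 1
        · exact cyc_sqD _ _ hDv ((isSquare_plP_iff h2 mP hP hPD).2 h1)
        · by_cases h3 : ∃ k, jac (a k) P = 1
          · obtain ⟨k, hk⟩ := h3
            exact cyc_sqa _ _ k ((isSquare_plP_iff h2 mP hP (hak k)).2 hk)
          · push Not at h3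
            obtain ⟨Q, W, V, A, A', B, B', hQ, ho, e1, e2⟩ := lift_poly h2 hP a D
              (fun k l hkl => not_dvd_sub a hPR k l hkl)
              (fun k hk => h3 k ((jac_prime h2 mP hP (hak k)).2 hk))
              (fun hk => h1 ((jac_prime h2 mP hP hPD).2 hk))
            obtain ⟨P', hP'⟩ := odd_point_olf (olf h2 (plP P hP)) (ev (plP P hP)) (FRLoc_w h2 hP) P
              (FRLoc_w_lt h2 hP) a D Q W V A A' B B' hQ ho e1 e2
            exact cyc_of_odd _ _ hDv P' hP'

theorem localCyc_family (h2 : ringChar F ≠ 2) {ι : Type} [Fintype ι] (a : ι → F[X]) (ε : F) (hε : ¬ IsSquare ε)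
    (b : F[X]) (hb : b.Monic) (hb' : Irreducible b) (hb2 : Even b.natDegree) (i j k : ι) (hi : a i = C ε) (hj : a j = b)
    (hk : a k = C ε * b) (D : F[X]) : LocalCyc a D := by
  have hε0 : ε ≠ 0 := fun h => hε (by rw [h]; exact ⟨0, by simp⟩)
  intro v
  rcases pl_cases v with rfl | ⟨P, hP, mP, rfl⟩
  · refine cyc_sqa _ _ j ?_
    show IsSquare (ev (plInf F) (a j))
    rw [hj]
    exact (isSquare_plInf_iff h2 hb.ne_zero hb2).2 (by rw [hb.leadingCoeff]; exact ⟨1, by simp⟩)
  · have hPε : ¬ P ∣ C ε := fun h =>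
      hP.not_isUnit (isUnit_of_dvd_unit h (isUnit_C.2 (isUnit_iff_ne_zero.2 hε0)))
    by_cases hPb : P ∣ b
    · have hPb' : P = b := eq_of_monic_of_associated mP hb (hP.associated_of_dvd hb' hPb)
      refine cyc_sqa _ _ i ?_
      show IsSquare (ev (plP P hP) (a i))
      rw [hi]
      refine (isSquare_plP_iff h2 mP hP hPε).2 ?_
      rw [jac_C mP, quadraticChar_neg_one_iff_not_isSquare.2 hε, hPb']
      exact hb2.neg_one_pow
    · have n1 : jac (C ε) P ≠ 0 := (jac_ne_zero_iff mP _).2 ((hP.coprime_iff_not_dvd).2 hPε).symm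
      have n2 : jac b P ≠ 0 := (jac_ne_zero_iff mP _).2 ((hP.coprime_iff_not_dvd).2 hPb).symm
      have hPm : ¬ P ∣ C ε * b := fun h => (hP.prime.dvd_or_dvd h).elim hPε hPb
      have n3 := jac_mul_left mP (C ε) b
      rcases jac_cases (C ε) P with h1 | h1 | h1
      · exact absurd h1 n1
      · refine cyc_sqa _ _ i ?_
        show IsSquare (ev (plP P hP) (a i))
        rw [hi]
        exact (isSquare_plP_iff h2 mP hP hPε).2 h1
      · rcases jac_cases b P with h3 | h3 | h3
        · exact absurd h3 n2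
        · refine cyc_sqa _ _ j ?_
          show IsSquare (ev (plP P hP) (a j))
          rw [hj]
          exact (isSquare_plP_iff h2 mP hP hPb).2 h3
        · refine cyc_sqa _ _ k ?_
          show IsSquare (ev (plP P hP) (a k))
          rw [hk]
          refine (isSquare_plP_iff h2 mP hP hPm).2 ?_
          rw [n3, h1, h3]
          norm_num

omit [DecidableEq F] in
theorem global_of_square {ι : Type} [Fintype ι] (a : ι → F[X]) (i : ι) (h : IsSquare (a i)) (D : F[X]) :
    Global a D :=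
  cyc_sqa _ _ i (h.map (algebraMap F[X] (RatFunc F)))

omit [DecidableEq F] in
theorem localCyc_of_global {ι : Type} [Fintype ι] (a : ι → F[X]) (i : ι) (h : IsSquare (a i)) (D : F[X]) :
    LocalCyc a D := fun v => cyc_sqa _ _ i (h.map (ev v))

end FZ
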