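import Pool.Agent.Lib.MP_1ad228_nt.FF.FMain
import Pool.Agent.Lib.MP_1ad228_nt.FF.FRLoc
import Pool.Agent.Lib.MP_1ad228_nt.FF.FC10

/-! MP_1ad228_nt, function field case.  The final forms: the upper bound of `FMain`, the lower bound of `FC10`, local solubility
(`FRLoc`). -/

namespace FZ

open Finset Polynomial

variable {F : Type} [Field F] [Fintype F]

private theorem FFinal_fin (n : ℕ) (P : F[X] → Prop) : Finite {D : F[X] // Squarefree D ∧ D.natDegree ≤ n ∧ P D} := by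
  apply Set.Finite.to_subtype (s := {D : F[X] | Squarefree D ∧ D.natDegree ≤ n ∧ P D})
  apply (finite_deg F n).subset
  rintro D ⟨_, hD, _⟩
  exact hD

private theorem FFinal_mono (n : ℕ) (P Q : F[X] → Prop) (h : ∀ D, P D → Q D) :
    Nat.card {D : F[X] // Squarefree D ∧ D.natDegree ≤ n ∧ P D} ≤
      Nat.card {D : F[X] // Squarefree D ∧ D.natDegree ≤ n ∧ Q D} := by
  have hfin := FFinal_fin n Q
  exact Nat.card_le_card_of_injective
    (fun x : {D : F[X] // Squarefree D ∧ D.natDegree ≤ n ∧ P D} =>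
      (⟨x.1, x.2.1, x.2.2.1, h x.1 x.2.2.2⟩ : {D : F[X] // Squarefree D ∧ D.natDegree ≤ n ∧ Q D}))
    (fun x y hxy => by
      have := congrArg Subtype.val hxy
      exact Subtype.ext this)

theorem upper (h2 : ringChar F ≠ 2) (r : ℕ) (hr : 1 ≤ r) (a : Fin r → F[X]) (ha : Function.Injective a) (η : ℝ)
    (hη0 : 0 < η) (hη : η < 1 / 2) : ∃ C : ℝ, ∀ n : ℕ, 1 ≤ n →
      (Nat.card {D : F[X] // Squarefree D ∧ D.natDegree ≤ n ∧
        ¬ ((Adelic a D → Global a D) ∧ ((∀ i, ¬ IsSquare (a i)) → ¬ Adelic a D ∧ ¬ Global a D))} : ℝ)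
        ≤ C * (Fintype.card F : ℝ) ^ n / (n : ℝ) ^ η := by
  have hne : Nonempty (Fin r) := ⟨⟨0, by omega⟩⟩
  by_cases hsq : ∀ i, ¬ IsSquare (a i)
  · obtain ⟨C, hC, hCb⟩ := mainF F h2 η hη0.le hη a ha hsq
    refine ⟨C, fun n hn => ?_⟩
    have e : ∀ D : F[X], (¬ ((Adelic a D → Global a D) ∧ ((∀ i, ¬ IsSquare (a i)) →
        ¬ Adelic a D ∧ ¬ Global a D))) ↔ (Adelic a D ∨ Global a D) := by
      intro D
      tauto
    simp only [e]
    refine (hCb n hn).trans (le_of_eq ?_)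
    rw [Real.rpow_neg (Nat.cast_nonneg n), div_eq_mul_inv]
  · push Not at hsq
    obtain ⟨i₀, hi₀⟩ := hsq
    refine ⟨0, fun n _ => ?_⟩
    have hempty : IsEmpty {D : F[X] // Squarefree D ∧ D.natDegree ≤ n ∧
        ¬ ((Adelic a D → Global a D) ∧ ((∀ i, ¬ IsSquare (a i)) → ¬ Adelic a D ∧ ¬ Global a D))} := by
      refine ⟨fun x => x.2.2.2 ⟨fun _ => global_of_square a i₀ hi₀ x.1, fun h => absurd hi₀ (h i₀)⟩⟩
    rw [Nat.card_of_isEmpty]
    simp

theorem lower (h2 : ringChar F ≠ 2) {ι : Type} [Fintype ι] [DecidableEq ι] (a : ι → F[X]) (ha : Function.Injective a)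
    (hsq : ∀ i, ¬ IsSquare (a i)) (hij : ∃ i j, ¬ IsSquare (a i * a j)) :
    ∃ c : ℝ, 0 < c ∧ ∀ n : ℕ, 1 ≤ n → c * (Fintype.card F : ℝ) ^ n / (n : ℝ) ^ (1 / 4 : ℝ) ≤
      (Nat.card {D : F[X] // Squarefree D ∧ D.natDegree ≤ n ∧ LocalCyc a D} : ℝ) := by
  classical
  obtain ⟨i, j, hij⟩ := hij
  have ha0 : ∀ i, a i ≠ 0 := by
    intro i h0
    apply hsq i
    rw [h0]
    exact IsSquare.zero
  obtain ⟨ε, hε⟩ := FiniteField.exists_nonsquare (F := F) h2
  obtain ⟨c, hc, hN⟩ := count_InD h2 a (Rb_ne_zero a ha ha0) ε hε i j (hsq i) (hsq j) hij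
  refine ⟨c, hc, fun n hn => (hN n hn).trans ?_⟩
  have hfin := FFinal_fin n (LocalCyc a)
  have key : ∀ D ∈ (range (n + 1)).biUnion (fun k => (mon F k).filter (InD a ε i j)),
      Squarefree D ∧ D.natDegree ≤ n ∧ LocalCyc a D := by
    intro D hD
    simp only [mem_biUnion, mem_range, mem_filter, mem_mon] at hD
    obtain ⟨k, hk, ⟨h3, h4⟩, h5⟩ := hD
    exact ⟨h5.2.1, by omega, localCyc_of_InD h2 a ha hsq ε hε i j D h5⟩
  have h1 : ((range (n + 1)).biUnion (fun k => (mon F k).filter (InD a ε i j))).card ≤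
      Nat.card {D : F[X] // Squarefree D ∧ D.natDegree ≤ n ∧ LocalCyc a D} := by
    rw [← Fintype.card_coe, ← Nat.card_eq_fintype_card]
    exact Nat.card_le_card_of_injective
      (fun x : {D : F[X] // D ∈ (range (n + 1)).biUnion (fun k => (mon F k).filter (InD a ε i j))} =>
        (⟨x.1, key x.1 x.2⟩ : {D : F[X] // Squarefree D ∧ D.natDegree ≤ n ∧ LocalCyc a D}))
      (fun x y hxy => by
        have := congrArg Subtype.val hxy
        exact Subtype.ext this)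
  exact_mod_cast h1

theorem relative (h2 : ringChar F ≠ 2) {ι : Type} [Fintype ι] [DecidableEq ι] (a : ι → F[X])
    (ha : Function.Injective a) (hsq : ∀ i, ¬ IsSquare (a i)) (hij : ∃ i j, ¬ IsSquare (a i * a j)) (η : ℝ)
    (hη0 : 0 < η) (hη : η < 1 / 4) : ∃ C : ℝ, ∀ n : ℕ, 1 ≤ n →
      (Nat.card {D : F[X] // Squarefree D ∧ D.natDegree ≤ n ∧ LocalCyc a D ∧ (Adelic a D ∨ Global a D)} : ℝ) ≤
      C / (n : ℝ) ^ η * Nat.card {D : F[X] // Squarefree D ∧ D.natDegree ≤ n ∧ LocalCyc a D} := by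
  classical
  obtain ⟨c, hc, hlow⟩ := lower h2 a ha hsq hij
  have hne : Nonempty ι := ⟨hij.choose⟩
  obtain ⟨C, hC, hup⟩ := mainF F h2 (η + 1 / 4) (by linarith) (by linarith) a ha hsq
  refine ⟨C / c, fun n hn => ?_⟩
  have hn0 : (0 : ℝ) < n := by exact_mod_cast hn
  have h1 := hlow n hn
  have h2 := hup n hn
  have h3 : (Nat.card {D : F[X] // Squarefree D ∧ D.natDegree ≤ n ∧ LocalCyc a D ∧ (Adelic a D ∨ Global a D)} : ℝ) ≤
      (Nat.card {D : F[X] // Squarefree D ∧ D.natDegree ≤ n ∧ (Adelic a D ∨ Global a D)} : ℝ) := by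
    have h4 := FFinal_mono n (fun D => LocalCyc a D ∧ (Adelic a D ∨ Global a D))
      (fun D => Adelic a D ∨ Global a D) (fun D h => h.2)
    exact_mod_cast h4
  refine h3.trans (h2.trans ?_)
  have hp : 0 < (n : ℝ) ^ η := Real.rpow_pos_of_pos hn0 _
  have hq : 0 < (n : ℝ) ^ (1 / 4 : ℝ) := Real.rpow_pos_of_pos hn0 _
  rw [Real.rpow_neg hn0.le, Real.rpow_add hn0, mul_inv]
  calc C * (Fintype.card F : ℝ) ^ n * (((n : ℝ) ^ η)⁻¹ * ((n : ℝ) ^ (1 / 4 : ℝ))⁻¹)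
      = C / c / (n : ℝ) ^ η * (c * (Fintype.card F : ℝ) ^ n / (n : ℝ) ^ (1 / 4 : ℝ)) := by
        field_simp
    _ ≤ _ := by
        apply mul_le_mul_of_nonneg_left h1
        positivity

end FZ
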