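import Pool.Agent.Lib.MP_1ad228_nt.FF.FMon

/-! JOB FJac.  The Jacobi symbol over `F[t]`, defined through the resultant:
`jac a n = χ(Res(n, a))` for a monic `n`, `χ` the quadratic character of the finite field `F` (of odd order).  `Res(n, a) = ∏_{n(θ)=0} a(θ)`.

Mathlib: file `Mathlib/RingTheory/Polynomial/Resultant/Basic.lean`: `resultant_mul_left`, `resultant_mul_right`, `resultant_comm`, `resultant_map_map`, `resultant_eq_prod_roots_sub`/`resultant_eq_prod_eval`,
`resultant_C_right`, `resultant_one_left`, `resultant_add_mul_right`, `resultant_add_right_deg`, `resultant_eq_zero_iff`, `resultant_ne_zero`.  `quadraticChar` is multiplicative; `quadraticChar_zero`, `quadraticChar_sq_one`...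
Careful: the degrees in `resultant n a` are `n.natDegree`, `a.natDegree`; for monic `n`, `resultant n a m k` with `k ≥ a.natDegree` does not depend on `k` (`resultant_add_right_deg`, leading coefficient `1` to the power).
* `jac_mul_left`, `jac_mul_right`: multiplicativity of the resultant (the case of a zero factor separately: `jac 0 n = 0` if `n ≠ 1` and `jac 0 1 = 1`).
* `jac_mod`: `Res(n, a + n h) = Res(n, a)` (`resultant_add_mul_right`).
* `jac_ne_zero_iff`: `resultant_eq_zero_iff`.
* `jac_prime`: let `P` be monic irreducible of degree `d`, `κ = AdjoinRoot P`, a field with `q^d` elements, `θ` the root.  `Res(P, a) = ∏_{i<d} a(θ)^(q^i) = a(θ)^((q^d-1)/(q-1))` in `κ` (the roots of `P` are the `θ^(q^i)`, `a(θ^(q^i)) = a(θ)^(q^i)`;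
  or `Res(P,a) = N_{κ/F}(a(θ))` and the formula for the norm of finite fields: `FiniteField.algebraMap_norm_eq_pow` ), so `χ(Res(P,a)) = Res^((q-1)/2) = a(θ)^((q^d-1)/2)` which is `1` iff `a(θ)` is a square in `κ`
  (`quadraticChar_eq_pow_of_char_ne_two'`, `FiniteField.isSquare_iff`), i.e. iff `P ∣ a - g²` for some `g`.
* `jac_recip`: `resultant_comm`.
* `jac_C`: `Res(n, c) = c^(deg n)`. -/

namespace FZ

open Finset Polynomial

variable {F : Type} [Field F] [Fintype F] [DecidableEq F]

/-- the Jacobi symbol `(a/n)` for a monic polynomial `n` -/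
noncomputable def jac (a n : F[X]) : ℤ := quadraticChar F (resultant n a)

omit [Fintype F] [DecidableEq F] in
/-- the resultant as a product over the roots in the algebraic closure -/
private theorem FJac_res {n : F[X]} (hn : n.Monic) (a : F[X]) :
    algebraMap F (AlgebraicClosure F) (resultant n a) =
      ((n.map (algebraMap F (AlgebraicClosure F))).roots.map (fun θ => aeval θ a)).prod := by
  have h1 := resultant_map_map n a n.natDegree a.natDegree (algebraMap F (AlgebraicClosure F))
  rw [← h1]
  have h2 := resultant_eq_prod_eval (n.map (algebraMap F (AlgebraicClosure F)))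
    (a.map (algebraMap F (AlgebraicClosure F))) a.natDegree natDegree_map_le
    (IsAlgClosed.splits _)
  rw [natDegree_map] at h2
  rw [h2, (hn.map _).leadingCoeff, one_pow, one_mul]
  simp only [eval_map_algebraMap]

omit [Fintype F] [DecidableEq F] in
private theorem FJac_inj : Function.Injective (algebraMap F (AlgebraicClosure F)) :=
  (algebraMap F (AlgebraicClosure F)).injective

omit [Fintype F] [DecidableEq F] in
private theorem FJac_res_mul_right {n : F[X]} (hn : n.Monic) (a b : F[X]) :
    resultant n (a * b) = resultant n a * resultant n b := by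
  apply FJac_inj
  rw [map_mul, FJac_res hn, FJac_res hn, FJac_res hn, ← Multiset.prod_map_mul]
  simp only [map_mul]

omit [Fintype F] [DecidableEq F] in
private theorem FJac_res_mul_left {m n : F[X]} (hm : m.Monic) (hn : n.Monic) (a : F[X]) :
    resultant (m * n) a = resultant m a * resultant n a := by
  apply FJac_inj
  rw [map_mul, FJac_res hm, FJac_res hn, FJac_res (hm.mul hn), Polynomial.map_mul,
    roots_mul (((hm.map _).mul (hn.map _)).ne_zero), Multiset.map_add, Multiset.prod_add]

omit [Fintype F] [DecidableEq F] in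
private theorem FJac_res_mod {n a b : F[X]} (hn : n.Monic) (h : n ∣ a - b) :
    resultant n a = resultant n b := by
  apply FJac_inj
  rw [FJac_res hn, FJac_res hn]
  congr 1
  apply Multiset.map_congr rfl
  intro θ hθ
  obtain ⟨k, hk⟩ := h
  have h0 : aeval θ n = 0 := by
    have := (mem_roots'.1 hθ).2
    rwa [IsRoot.def, eval_map_algebraMap] at this
  have : aeval θ (a - b) = 0 := by rw [hk, map_mul, h0, zero_mul]
  rw [map_sub, sub_eq_zero] at this
  exact this

theorem jac_one_right (a : F[X]) : jac a 1 = 1 := by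
  unfold jac
  have : resultant (1 : F[X]) a = 1 := by
    apply FJac_inj
    rw [FJac_res monic_one]
    simp
  rw [this, map_one]

theorem jac_one_left {n : F[X]} (hn : n.Monic) : jac 1 n = 1 := by
  unfold jac
  have : resultant n (1 : F[X]) = 1 := by
    apply FJac_inj
    rw [FJac_res hn]
    simp
  rw [this, map_one]

theorem jac_mul_left {n : F[X]} (hn : n.Monic) (a b : F[X]) : jac (a * b) n = jac a n * jac b n := by
  unfold jac
  rw [FJac_res_mul_right hn, map_mul]

theorem jac_mul_right {m n : F[X]} (hm : m.Monic) (hn : n.Monic) (a : F[X]) : jac a (m * n) = jac a m * jac a n := by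
  unfold jac
  rw [FJac_res_mul_left hm hn, map_mul]

theorem jac_prod_left {κ : Type} (S : Finset κ) (f : κ → F[X]) {n : F[X]} (hn : n.Monic) :
    jac (∏ i ∈ S, f i) n = ∏ i ∈ S, jac (f i) n := by
  classical
  induction S using Finset.induction_on with
  | empty => simp [jac_one_left hn]
  | insert a s ha ih => rw [prod_insert ha, prod_insert ha, jac_mul_left hn, ih]

theorem jac_prod_right {κ : Type} (S : Finset κ) (f : κ → F[X]) (hf : ∀ i ∈ S, (f i).Monic) (a : F[X]) :
    jac a (∏ i ∈ S, f i) = ∏ i ∈ S, jac a (f i) := by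
  classical
  induction S using Finset.induction_on with
  | empty => simp [jac_one_right]
  | insert b s hb ih =>
    have h1 : ∀ i ∈ s, (f i).Monic := fun i hi => hf i (mem_insert_of_mem hi)
    rw [prod_insert hb, prod_insert hb, jac_mul_right (hf b (mem_insert_self _ _))
      (monic_prod_of_monic s f h1), ih h1]

theorem jac_mod {n a b : F[X]} (hn : n.Monic) (h : n ∣ a - b) : jac a n = jac b n := by
  unfold jac
  rw [FJac_res_mod hn h]

theorem jac_cases (a n : F[X]) : jac a n = 0 ∨ jac a n = 1 ∨ jac a n = -1 := by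
  unfold jac
  by_cases h : resultant n a = 0
  · left; rw [h]; exact quadraticChar_zero
  · right; exact quadraticChar_dichotomy h

theorem jac_abs_le (a n : F[X]) : |(jac a n : ℝ)| ≤ 1 := by
  rcases jac_cases a n with h | h | h <;> rw [h] <;> norm_num

theorem jac_ne_zero_iff {n : F[X]} (hn : n.Monic) (a : F[X]) : jac a n ≠ 0 ↔ IsCoprime a n := by
  unfold jac
  rw [Ne, quadraticChar_eq_zero_iff, ← Ne, ← isUnit_iff_ne_zero, isUnit_resultant_iff_isCoprime hn,
    isCoprime_comm]

/-- the resultant with an irreducible polynomial is a norm -/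
private theorem FJac_norm {P : F[X]} (hm : P.Monic) (hi : Irreducible P) (a : F[X]) :
    haveI : Fact (Irreducible P) := ⟨hi⟩
    Algebra.norm F (AdjoinRoot.mk P a) = resultant P a := by
  haveI : Fact (Irreducible P) := ⟨hi⟩
  have hfin : FiniteDimensional F (AdjoinRoot P) := (AdjoinRoot.powerBasis hi.ne_zero).finite
  haveI : Finite (AdjoinRoot P) := Module.finite_of_finite F
  apply FJac_inj
  rw [FJac_res hm, Algebra.norm_eq_prod_embeddings F (AlgebraicClosure F) (AdjoinRoot.mk P a)]
  have hmin : minpoly F (AdjoinRoot.root P) = P := by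
    rw [AdjoinRoot.minpoly_root hi.ne_zero, hm.leadingCoeff, inv_one, C_1, mul_one]
  have hgen : (AdjoinRoot.powerBasis hi.ne_zero).gen = AdjoinRoot.root P := by
    simp
  have hsep : P.Separable := PerfectField.separable_of_irreducible hi
  have hnd : (P.map (algebraMap F (AlgebraicClosure F))).roots.Nodup :=
    nodup_roots hsep.map
  classical
  have e : ∏ σ : AdjoinRoot P →ₐ[F] AlgebraicClosure F, σ (AdjoinRoot.mk P a) =
      ∏ σ : AdjoinRoot P →ₐ[F] AlgebraicClosure F, aeval (σ (AdjoinRoot.root P)) a := by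
    refine prod_congr rfl fun σ _ => ?_
    rw [← AdjoinRoot.aeval_eq, Polynomial.aeval_algHom_apply]
  rw [e]
  have e2 : ∏ σ : AdjoinRoot P →ₐ[F] AlgebraicClosure F, aeval (σ (AdjoinRoot.root P)) a =
      ∏ θ ∈ (P.map (algebraMap F (AlgebraicClosure F))).roots.toFinset, aeval θ a := by
    refine prod_bij (fun σ _ => σ (AdjoinRoot.root P)) ?_ ?_ ?_ ?_
    · intro σ _
      rw [Multiset.mem_toFinset, mem_roots (hm.map _).ne_zero, IsRoot.def, eval_map_algebraMap,
        Polynomial.aeval_algHom_apply, AdjoinRoot.aeval_eq, AdjoinRoot.mk_self, map_zero]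
    · intro σ _ τ _ h
      exact AdjoinRoot.algHom_ext h
    · intro θ hθ
      rw [Multiset.mem_toFinset, mem_roots (hm.map _).ne_zero, IsRoot.def, eval_map_algebraMap] at hθ
      refine ⟨AdjoinRoot.liftAlgHom P (Algebra.ofId F (AlgebraicClosure F)) θ ?_, mem_univ _, ?_⟩
      · exact hθ
      · simp
    · intro σ _; rfl
  rw [e2, Finset.prod_multiset_map_count]
  refine prod_congr rfl fun θ hθ => ?_
  rw [Multiset.count_eq_one_of_mem hnd (Multiset.mem_toFinset.1 hθ), pow_one]

theorem jac_prime (h2 : ringChar F ≠ 2) {P : F[X]} (hm : P.Monic) (hi : Irreducible P) {a : F[X]} (ha : ¬ P ∣ a) :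
    jac a P = 1 ↔ ∃ g : F[X], P ∣ a - g ^ 2 := by
  haveI : Fact (Irreducible P) := ⟨hi⟩
  have hfin : FiniteDimensional F (AdjoinRoot P) := (AdjoinRoot.powerBasis hi.ne_zero).finite
  haveI : Finite (AdjoinRoot P) := Module.finite_of_finite F
  haveI : Fintype (AdjoinRoot P) := Fintype.ofFinite _
  have hx0 : AdjoinRoot.mk P a ≠ 0 := by
    rw [Ne, AdjoinRoot.mk_eq_zero]; exact ha
  have hN : Algebra.norm F (AdjoinRoot.mk P a) = resultant P a := FJac_norm hm hi a
  have hN0 : resultant P a ≠ 0 := by
    rw [← hN]; exact Algebra.norm_ne_zero_iff.2 hx0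
  have hchar : ringChar (AdjoinRoot P) ≠ 2 := by
    have : ringChar F = ringChar (AdjoinRoot P) := Algebra.ringChar_eq F (AdjoinRoot P)
    rw [← this]; exact h2
  have h1 : (∃ g : F[X], P ∣ a - g ^ 2) ↔ IsSquare (AdjoinRoot.mk P a) := by
    constructor
    · rintro ⟨g, hg⟩
      refine ⟨AdjoinRoot.mk P g, ?_⟩
      rw [← map_mul, ← pow_two, ← sub_eq_zero, ← map_sub, AdjoinRoot.mk_eq_zero]
      exact hg
    · rintro ⟨r, hr⟩
      obtain ⟨g, rfl⟩ := AdjoinRoot.mk_surjective r
      refine ⟨g, ?_⟩
      rw [← AdjoinRoot.mk_eq_zero, map_sub, sub_eq_zero, hr, ← map_mul, pow_two]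
  have hq : Fintype.card F % 2 = 1 := FiniteField.odd_card_of_char_ne_two h2
  have hQ : Fintype.card (AdjoinRoot P) % 2 = 1 := FiniteField.odd_card_of_char_ne_two hchar
  have hpow : Fintype.card (AdjoinRoot P) = Fintype.card F ^ Module.finrank F (AdjoinRoot P) :=
    Module.card_eq_pow_finrank
  have hq1 : 1 < Fintype.card F := Fintype.one_lt_card
  have hdvd : (Fintype.card F - 1) ∣ (Fintype.card (AdjoinRoot P) - 1) := by
    rw [hpow]
    simpa using Nat.sub_dvd_pow_sub_pow (Fintype.card F) 1 (Module.finrank F (AdjoinRoot P))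
  have hexp : (Fintype.card (AdjoinRoot P) - 1) / (Fintype.card F - 1) * (Fintype.card F / 2) =
      Fintype.card (AdjoinRoot P) / 2 := by
    obtain ⟨k, hk⟩ := hdvd
    rw [hk, Nat.mul_div_cancel_left _ (by omega)]
    obtain ⟨s, hs⟩ : ∃ s, Fintype.card F = 2 * s + 1 := ⟨Fintype.card F / 2, by omega⟩
    have e1 : Fintype.card F / 2 = s := by omega
    have e2 : Fintype.card F - 1 = 2 * s := by omega
    rw [e1]
    rw [e2] at hk
    have e3 : 2 * s * k = 2 * (k * s) := by ring
    omega
  rw [h1, FiniteField.isSquare_iff hchar hx0]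
  unfold jac
  rw [quadraticChar_one_iff_isSquare hN0, FiniteField.isSquare_iff h2 hN0]
  have hinj : Function.Injective (algebraMap F (AdjoinRoot P)) := (algebraMap F (AdjoinRoot P)).injective
  rw [← hinj.eq_iff, map_pow, map_one, ← hN, FiniteField.algebraMap_norm_eq_pow, ← pow_mul,
    ← Fintype.card_eq_nat_card, ← Fintype.card_eq_nat_card, hexp]

theorem jac_recip {m n : F[X]} (hm : m.Monic) (hn : n.Monic) :
    jac m n = (quadraticChar F (-1)) ^ (m.natDegree * n.natDegree) * jac n m := by
  unfold jac
  rw [resultant_comm n m, map_mul, map_pow, mul_comm n.natDegree m.natDegree]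

theorem jac_C {n : F[X]} (hn : n.Monic) (c : F) : jac (C c) n = (quadraticChar F c) ^ n.natDegree := by
  unfold jac
  have : resultant n (C c) = c ^ n.natDegree := by
    rw [natDegree_C]
    exact resultant_C_zero_right _ _ _
  rw [this, map_pow]

end FZ
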