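import Pool.Agent.Lib.MP_1ad228_nt.FF.FOLF
import Pool.Agent.Lib.MP_1ad228_nt.FF.FJac

/-! JOB FSq.  Polynomials which are squares in the completions.

`isSquare_plP_iff`: `P` monic irreducible, `P ∤ f`.  If `ev f = s²` in `Kv v`, `v = plP P`, then `ordv s = 0`; choose `y ∈ F(t)` with `v (s - y) < 1` (`exists_close` with `n = 0`), `v y = 1`, `y = g/h` with `P ∤ h`, `h h' ≡ 1 mod P`: `y ≡ g h' mod P`, so with
`k = g h'`: `v (f - k²) < 1`, i.e. `P ∣ f - k²` (`ordv_pos_iff`, or `ordv_of_not_dvd`), and `jac f P = 1` by `jac_prime`.  Conversely `P ∣ f - g²` (`jac_prime`), `P ∤ g`, `f/g² ` is close to `1`: `(olf h2 v).isSquare_of_close`.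
`isSquare_plInf_iff`: `f ≠ 0` of even degree `2m`, leading coefficient `c`: `f = c t^(2m) (1 + ε)` with `v ε < 1`, `1 + ε` is a square, so `ev f` is a square iff `c` is one in `Kv plInf`; if `c = s²` in `Kv plInf`, `v s = 1`, `s` is close to some
`y ∈ F(t)`, `v y = 1`, so `y` is close to a constant `d ≠ 0` and `c = d²` (both constants, `v (c - d²) < 1`).
`isSquare_plInf_odd`: odd degree: `ordv` is odd, not a square.
`w` of `olf`: `(olf h2 v).w x = 1 ↔ ordv v x = 0` for `x ≠ 0` (`OLF.w_eq_one_iff`, `olf_ord`). -/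

namespace FZ

open Polynomial

section helpers

variable {F : Type} [Field F]

private theorem FSq_v_one {v : Pl F} {x : Kv v} (hx : x ≠ 0) (h : ordv v x = 0) :
    Valued.v x = 1 := by
  unfold ordv at h
  have h1 : WithZero.log (Valued.v x) = 0 := by omega
  have h2 : Valued.v x ≠ 0 := (Valuation.ne_zero_iff _).2 hx
  rw [← WithZero.exp_log h2, h1, WithZero.exp_zero]

private theorem FSq_v_lt {v : Pl F} {x : Kv v} (h : x ≠ 0 → 0 < ordv v x) :
    Valued.v x < 1 := by
  by_cases hx : x = 0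
  · rw [hx, map_zero]; exact zero_lt_one
  · have h1 := h hx
    unfold ordv at h1
    rw [← WithZero.exp_zero]
    exact WithZero.lt_exp_of_log_lt (by omega)

private theorem FSq_ord_pos {v : Pl F} {x : Kv v} (hx : x ≠ 0) (h : Valued.v x < 1) :
    0 < ordv v x := by
  unfold ordv
  have := (WithZero.log_lt_iff_lt_exp ((Valuation.ne_zero_iff _).2 hx)).2
    (h.trans_eq WithZero.exp_zero.symm)
  omega

private theorem FSq_w_lt [Finite F] (h2 : ringChar F ≠ 2) {v : Pl F} {x : Kv v}
    (h : Valued.v x < 1) : (olf h2 v).w x < 1 := by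
  by_cases hx : x = 0
  · rw [hx, (olf h2 v).w_zero]; exact one_pos
  · rw [(olf h2 v).w_eq x hx, olf_ord]
    have := FSq_ord_pos hx h
    exact zpow_lt_one_of_neg₀ (by norm_num) (by omega)

private theorem FSq_sq_close {v : Pl F} {s t : Kv v} (hs : Valued.v s ≤ 1)
    (ht : Valued.v t ≤ 1) (h : Valued.v (s - t) < 1) : Valued.v (s * s - t * t) < 1 := by
  have e : s * s - t * t = (s - t) * (s + t) := by ring
  rw [e, map_mul]
  exact (mul_le_of_le_one_right' (Valuation.map_add_le _ hs ht)).trans_lt h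

private theorem FSq_emb {v : Pl F} (y : RatFunc F) :
    emb v y = ev v y.num / ev v y.denom := by
  conv_lhs => rw [← RatFunc.num_div_denom y]
  rw [map_div₀]
  rfl

private theorem FSq_close {v : Pl F} {s : Kv v} (hs : Valued.v s = 1) :
    ∃ y : RatFunc F, Valued.v (s - emb v y) < 1 ∧ Valued.v (emb v y) = 1 := by
  obtain ⟨y, hy⟩ := exists_close v s 0
  rw [neg_zero, WithZero.exp_zero] at hy
  refine ⟨y, hy, ?_⟩
  rw [← hs]
  apply Valuation.map_eq_of_sub_lt
  rw [Valuation.map_sub_swap, hs]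
  exact hy

private theorem FSq_lt_of_dvd {P : F[X]} (hP : Irreducible P) {k : F[X]} (h : P ∣ k) :
    Valued.v (ev (plP P hP) k) < 1 := by
  apply FSq_v_lt
  intro h0
  have hk : k ≠ 0 := by
    rintro rfl
    exact h0 (map_zero _)
  exact (ordv_pos_iff hP hk).2 h

private theorem FSq_dvd_of_lt {P : F[X]} (hP : Irreducible P) {k : F[X]}
    (h : Valued.v (ev (plP P hP) k) < 1) : P ∣ k := by
  by_cases hk : k = 0
  · rw [hk]; exact dvd_zero P
  · exact (ordv_pos_iff hP hk).1 (FSq_ord_pos (ev_ne_zero _ hk) h)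

private theorem FSq_eq_one {P : F[X]} (hP : Irreducible P) {k : F[X]} (h : ¬ P ∣ k) :
    Valued.v (ev (plP P hP) k) = 1 := by
  have hk : k ≠ 0 := by
    rintro rfl
    exact h (dvd_zero P)
  exact FSq_v_one (ev_ne_zero _ hk) (ordv_of_not_dvd hP h)

private theorem FSq_le_one {P : F[X]} (hP : Irreducible P) (k : F[X]) :
    Valued.v (ev (plP P hP) k) ≤ 1 := by
  by_cases h : P ∣ k
  · exact (FSq_lt_of_dvd hP h).le
  · exact (FSq_eq_one hP h).le

private theorem FSq_inf {f : F[X]} (hf : f ≠ 0) :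
    Valued.v (ev (plInf F) f) = WithZero.exp (f.natDegree : ℤ) := by
  have h := ordv_inf hf
  unfold ordv at h
  have h1 : WithZero.log (Valued.v (ev (plInf F) f)) = (f.natDegree : ℤ) := by omega
  rw [← h1, WithZero.exp_log ((Valuation.ne_zero_iff _).2 (ev_ne_zero _ hf))]

private theorem FSq_inf_lt {f g : F[X]} (hg : g ≠ 0) (h : f.degree < g.degree) :
    Valued.v (ev (plInf F) f) < Valued.v (ev (plInf F) g) := by
  by_cases hf : f = 0
  · rw [hf, map_zero, map_zero, FSq_inf hg]
    exact WithZero.exp_pos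
  · rw [FSq_inf hf, FSq_inf hg, WithZero.exp_lt_exp]
    exact_mod_cast natDegree_lt_natDegree hf h

/-- `f / t^(2m)` is close to the leading coefficient -/
private theorem FSq_lead {f : F[X]} (hf : f ≠ 0) :
    Valued.v (ev (plInf F) f / ev (plInf F) (X ^ f.natDegree) - ev (plInf F) (C f.leadingCoeff)) < 1 := by
  have hX : (X ^ f.natDegree : F[X]) ≠ 0 := pow_ne_zero _ X_ne_zero
  have hX0 := ev_ne_zero (plInf F) hX
  have e : ev (plInf F) f / ev (plInf F) (X ^ f.natDegree) - ev (plInf F) (C f.leadingCoeff) =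
      ev (plInf F) f.eraseLead / ev (plInf F) (X ^ f.natDegree) := by
    rw [div_sub' hX0]
    congr 1
    rw [← map_mul, ← map_sub]
    congr 1
    have := eraseLead_add_C_mul_X_pow f
    linear_combination -this
  have hpos : 0 < Valued.v (ev (plInf F) (X ^ f.natDegree)) := by
    rw [FSq_inf hX]; exact WithZero.exp_pos
  rw [e, map_div₀, div_lt_one₀ hpos]
  apply FSq_inf_lt hX
  rw [degree_X_pow, ← degree_eq_natDegree hf]
  exact degree_eraseLead_lt hf

end helpers

variable {F : Type} [Field F] [Fintype F] [DecidableEq F]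

omit [Fintype F] [DecidableEq F] in
private theorem FSq_even (v : Pl F) {x : Kv v} (hx : x ≠ 0) (h : IsSquare x) : Even (ordv v x) := by
  obtain ⟨s, rfl⟩ := h
  have hs : s ≠ 0 := fun h => hx (by rw [h, mul_zero])
  exact ⟨ordv v s, ordv_mul v s s hs hs⟩

theorem isSquare_plP_iff (h2 : ringChar F ≠ 2) {P : F[X]} (mP : P.Monic) (hP : Irreducible P) {f : F[X]}
    (hf : ¬ P ∣ f) : IsSquare (ev (plP P hP) f) ↔ jac f P = 1 := by
  rw [jac_prime h2 mP hP hf]
  have hvf := FSq_eq_one hP hf
  have hf0 : f ≠ 0 := by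
    rintro rfl
    exact hf (dvd_zero P)
  have hev0 := ev_ne_zero (plP P hP) hf0
  constructor
  · rintro ⟨s, hs⟩
    have hs0 : s ≠ 0 := fun h => hev0 (by rw [hs, h, mul_zero])
    have hs1 : Valued.v s = 1 := by
      apply FSq_v_one hs0
      have h1 := ordv_mul (plP P hP) s s hs0 hs0
      rw [← hs, ordv_of_not_dvd hP hf] at h1
      omega
    obtain ⟨y, hy, hy1⟩ := FSq_close hs1
    rw [FSq_emb] at hy hy1
    have hh0 : ev (plP P hP) y.denom ≠ 0 := ev_ne_zero _ y.denom_ne_zero
    have hvh0 : Valued.v (ev (plP P hP) y.denom) ≠ 0 := (Valuation.ne_zero_iff _).2 hh0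
    rw [map_div₀, div_eq_one_iff_eq hvh0] at hy1
    have hden : ¬ P ∣ y.denom := by
      intro hd
      have hn : P ∣ y.num := by
        apply FSq_dvd_of_lt hP
        rw [hy1]
        exact FSq_lt_of_dvd hP hd
      exact hP.not_isUnit ((RatFunc.isCoprime_num_denom y).isUnit_of_dvd' hn hd)
    obtain ⟨b, h', hbh⟩ := (hP.coprime_iff_not_dvd).2 hden
    refine ⟨y.num * h', ?_⟩
    apply FSq_dvd_of_lt hP
    rw [map_sub, pow_two, map_mul (ev (plP P hP)) (y.num * h'), hs]
    apply FSq_sq_close hs1.le (FSq_le_one hP _)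
    have e : s - ev (plP P hP) (y.num * h') = (s - ev (plP P hP) y.num / ev (plP P hP) y.denom) +
        ev (plP P hP) y.num * ev (plP P hP) (b * P) / ev (plP P hP) y.denom := by
      have e1 : ev (plP P hP) (b * P) = 1 - ev (plP P hP) h' * ev (plP P hP) y.denom := by
        rw [← map_mul, ← map_one (ev (plP P hP)), ← map_sub, ← hbh]
        congr 1
        ring
      rw [e1, map_mul]
      field_simp
      ring
    rw [e]
    apply Valuation.map_add_lt _ hy
    rw [map_div₀, map_mul, FSq_eq_one hP hden, div_one]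
    exact (mul_le_of_le_one_left' (FSq_le_one hP _)).trans_lt
      (FSq_lt_of_dvd hP (dvd_mul_left P b))
  · rintro ⟨g, hg⟩
    have hgP : ¬ P ∣ g := by
      intro h
      apply hf
      have := dvd_add hg (dvd_pow h two_ne_zero)
      rwa [sub_add_cancel] at this
    have hg0 : ev (plP P hP) g ≠ 0 := by
      apply ev_ne_zero
      rintro rfl
      exact hgP (dvd_zero P)
    have h1 : IsSquare (ev (plP P hP) f / (ev (plP P hP) g * ev (plP P hP) g)) := by
      apply (olf h2 (plP P hP)).isSquare_of_close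
      apply FSq_w_lt
      have e : ev (plP P hP) f / (ev (plP P hP) g * ev (plP P hP) g) - 1 =
          ev (plP P hP) (f - g ^ 2) / (ev (plP P hP) g * ev (plP P hP) g) := by
        rw [map_sub, map_pow]
        field_simp
      rw [e, map_div₀, map_mul, FSq_eq_one hP hgP, one_mul, div_one]
      exact FSq_lt_of_dvd hP hg
    have h3 : ev (plP P hP) f = ev (plP P hP) f / (ev (plP P hP) g * ev (plP P hP) g) *
        (ev (plP P hP) g * ev (plP P hP) g) := by
      rw [div_mul_cancel₀ _ (mul_ne_zero hg0 hg0)]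
    rw [h3]
    exact h1.mul ⟨_, rfl⟩

theorem isSquare_plInf_iff (h2 : ringChar F ≠ 2) {f : F[X]} (hf : f ≠ 0) (he : Even f.natDegree) :
    IsSquare (ev (plInf F) f) ↔ IsSquare f.leadingCoeff := by
  obtain ⟨m, hm⟩ := he
  have hc0 : f.leadingCoeff ≠ 0 := leadingCoeff_ne_zero.2 hf
  have hev0 := ev_ne_zero (plInf F) hf
  have hX : (X ^ m : F[X]) ≠ 0 := pow_ne_zero _ X_ne_zero
  have hX0 := ev_ne_zero (plInf F) hX
  have hlead := FSq_lead hf
  have hXX : ev (plInf F) (X ^ f.natDegree) = ev (plInf F) (X ^ m) * ev (plInf F) (X ^ m) := by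
    rw [← map_mul, ← pow_add, hm]
  have hC : ∀ d : F, Valued.v (ev (plInf F) (C d)) ≤ 1 := by
    intro d
    by_cases hd : d = 0
    · rw [hd, C_0, map_zero, map_zero]; exact zero_le_one
    · rw [FSq_inf (C_ne_zero.2 hd), natDegree_C, Nat.cast_zero, WithZero.exp_zero]
  constructor
  · rintro ⟨s, hs⟩
    have hs0 : s ≠ 0 := fun h => hev0 (by rw [hs, h, mul_zero])
    obtain ⟨r, hr⟩ : ∃ r, r = s / ev (plInf F) (X ^ m) := ⟨_, rfl⟩
    have hr0 : r ≠ 0 := by rw [hr]; exact div_ne_zero hs0 hX0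
    have hsr : s = r * ev (plInf F) (X ^ m) := by rw [hr, div_mul_cancel₀ _ hX0]
    have hrr : ev (plInf F) f / ev (plInf F) (X ^ f.natDegree) = r * r := by
      rw [hXX, hs, hsr]
      field_simp
    have hr1 : Valued.v r = 1 := by
      apply FSq_v_one hr0
      have h1 := ordv_mul (plInf F) s s hs0 hs0
      rw [← hs, ordv_inf hf, hsr, ordv_mul _ _ _ hr0 hX0, ordv_inf hX, natDegree_X_pow] at h1
      omega
    obtain ⟨y, hy, hy1⟩ := FSq_close hr1
    rw [FSq_emb] at hy hy1
    have hh0 : ev (plInf F) y.denom ≠ 0 := ev_ne_zero _ y.denom_ne_zero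
    have hvh0 : Valued.v (ev (plInf F) y.denom) ≠ 0 := (Valuation.ne_zero_iff _).2 hh0
    rw [map_div₀, div_eq_one_iff_eq hvh0] at hy1
    have hnum : y.num ≠ 0 := by
      intro h
      rw [h, map_zero, map_zero] at hy1
      exact hvh0 hy1.symm
    have hdeg : y.num.natDegree = y.denom.natDegree := by
      rw [FSq_inf hnum, FSq_inf y.denom_ne_zero, WithZero.exp_inj] at hy1
      exact_mod_cast hy1
    obtain ⟨d, hd⟩ : ∃ d, d = y.num.leadingCoeff / y.denom.leadingCoeff := ⟨_, rfl⟩
    have hlh : y.denom.leadingCoeff ≠ 0 := leadingCoeff_ne_zero.2 y.denom_ne_zero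
    have hd0 : d ≠ 0 := by rw [hd]; exact div_ne_zero (leadingCoeff_ne_zero.2 hnum) hlh
    have hlt : Valued.v (ev (plInf F) y.num / ev (plInf F) y.denom - ev (plInf F) (C d)) < 1 := by
      have e : ev (plInf F) y.num / ev (plInf F) y.denom - ev (plInf F) (C d) =
          ev (plInf F) (y.num - C d * y.denom) / ev (plInf F) y.denom := by
        rw [map_sub, map_mul]
        field_simp
      rw [e, map_div₀, div_lt_one₀ (by rw [FSq_inf y.denom_ne_zero]; exact WithZero.exp_pos)]
      apply FSq_inf_lt y.denom_ne_zero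
      have hdd : y.num.degree = y.denom.degree := by
        rw [degree_eq_natDegree hnum, degree_eq_natDegree y.denom_ne_zero, hdeg]
      rw [← hdd]
      apply degree_sub_lt_left _ hnum
      · rw [leadingCoeff_mul, leadingCoeff_C, hd, div_mul_cancel₀ _ hlh]
      · rw [degree_C_mul hd0, hdd]
    have hrd : Valued.v (r - ev (plInf F) (C d)) < 1 := by
      have e : r - ev (plInf F) (C d) = (r - ev (plInf F) y.num / ev (plInf F) y.denom) +
          (ev (plInf F) y.num / ev (plInf F) y.denom - ev (plInf F) (C d)) := by ring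
      rw [e]
      exact Valuation.map_add_lt _ hy hlt
    have h3 := FSq_sq_close hr1.le (hC d) hrd
    rw [hrr] at hlead
    have h4 : Valued.v (ev (plInf F) (C (f.leadingCoeff - d * d))) < 1 := by
      have e : ev (plInf F) (C (f.leadingCoeff - d * d)) =
          (r * r - ev (plInf F) (C d) * ev (plInf F) (C d)) -
            (r * r - ev (plInf F) (C f.leadingCoeff)) := by
        rw [C_sub, C_mul, map_sub, map_mul]
        ring
      rw [e]
      exact Valuation.map_sub_lt _ h3 hlead
    refine ⟨d, ?_⟩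
    by_contra hne
    have h5 : f.leadingCoeff - d * d ≠ 0 := sub_ne_zero.2 hne
    rw [FSq_inf (C_ne_zero.2 h5), natDegree_C, Nat.cast_zero, WithZero.exp_zero] at h4
    exact lt_irrefl _ h4
  · rintro ⟨d, hd⟩
    have hd0 : d ≠ 0 := fun h => hc0 (by rw [hd, h, mul_zero])
    have hCd : ev (plInf F) (C d) ≠ 0 := ev_ne_zero _ (C_ne_zero.2 hd0)
    have hCc : ev (plInf F) (C f.leadingCoeff) = ev (plInf F) (C d) * ev (plInf F) (C d) := by
      rw [← map_mul, ← C_mul, ← hd]
    have hvC : Valued.v (ev (plInf F) (C d)) = 1 := by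
      rw [FSq_inf (C_ne_zero.2 hd0), natDegree_C, Nat.cast_zero, WithZero.exp_zero]
    obtain ⟨u, hu⟩ : ∃ u, u = ev (plInf F) (C d) * ev (plInf F) (X ^ m) := ⟨_, rfl⟩
    have hu0 : u ≠ 0 := by rw [hu]; exact mul_ne_zero hCd hX0
    have h1 : IsSquare (ev (plInf F) f / (u * u)) := by
      apply (olf h2 (plInf F)).isSquare_of_close
      apply FSq_w_lt
      have e : ev (plInf F) f / (u * u) - 1 =
          (ev (plInf F) f / ev (plInf F) (X ^ f.natDegree) - ev (plInf F) (C f.leadingCoeff)) /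
            (ev (plInf F) (C d) * ev (plInf F) (C d)) := by
        rw [hXX, hCc, hu]
        field_simp
      rw [e, map_div₀, map_mul, hvC, one_mul, div_one]
      exact hlead
    have h3 : ev (plInf F) f = ev (plInf F) f / (u * u) * (u * u) := by
      rw [div_mul_cancel₀ _ (mul_ne_zero hu0 hu0)]
    rw [h3]
    exact h1.mul ⟨_, rfl⟩

omit [Fintype F] [DecidableEq F] in
private theorem FSq_not {f : F[X]} (ho : Odd f.natDegree) : ¬ IsSquare (ev (plInf F) f) := by
  intro h
  have hf : f ≠ 0 := by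
    rintro rfl
    rw [natDegree_zero] at ho
    exact absurd ho (by decide)
  have h1 := FSq_even (plInf F) (ev_ne_zero _ hf) h
  rw [ordv_inf hf, even_neg, Int.even_coe_nat] at h1
  exact (Nat.not_even_iff_odd.2 ho) h1

theorem not_isSquare_plInf {f : F[X]} (ho : Odd f.natDegree) : ¬ IsSquare (ev (plInf F) f) :=
  FSq_not ho

omit [DecidableEq F] in
/-- a square has even valuation -/
theorem even_of_isSquare (v : Pl F) {x : Kv v} (hx : x ≠ 0) (h : IsSquare x) : Even (ordv v x) :=
  FSq_even v hx h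

end FZ
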