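import Pool.Agent.Lib.MP_1ad228_nt.FF.FHilb
import Pool.Agent.Lib.MP_1ad228_nt.FF.FSq

/-! JOB FRecip.  Hilbert's reciprocity law over `F(t)`.  MODEL (over `ℚ`): `Pool/Agent/Lib/MP_1ad228_nt/ZRecip.lean`.

`SumZero.mul`: at every place `Split (c c') β ↔ (Split c β ↔ Split c' β)` (`split_mul (olf h2 v)`), so the set of bad places of the product is
the symmetric difference of the two sets; finite, and `ncard` is additive mod 2 (`|A ∆ B| + 2 |A ∩ B| = |A| + |B|`).
`recip`: `SumZero (u,u) β` for `u, β ∈ F(t)*`.  Symmetric in `u, β` (`split_comm`), multiplicative in `u` (`SumZero.mul`), unchanged if `u` or `β` is multiplied by a nonzero square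
(`split_mul_sq`).  So (`f/g = f g / g²`; a nonzero polynomial is a constant times a product of monic irreducibles) it is enough to treat
`u, β ∈ {nonzero constants} ∪ {monic irreducible polynomials}`.  The places are `plInf` and the `plP P` (`pl_cases`), `ord` of `olf h2 v` is `ordv v` (`olf_ord`).
* `(c, c')`: `ordv v` of a nonzero constant is `0` at all places (`ordv_inf`, `ordv_of_not_dvd`): split everywhere (`split_even`).
* `(c, P)`: split at all `plP Q`, `Q ≠ P` (both valuations `0`).  At `plP P`: iff `c` is a square there (`split_odd_iff`, `ordv_self`) iff `jac (C c) P = χ(c)^(deg P) = 1` (`isSquare_plP_iff`, `jac_C`).  At `plInf`: if `deg P` is even both valuations are even, split;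
  if `deg P` is odd (`ordv_inf`): split iff `c` is a square in `F` (`isSquare_plInf_iff`).  So the number of bad places is `0` or `2`: `deg P` even: `χ(c)^(deg P) = 1`, none; `deg P` odd: both or none.
* `(P, P)`: `(P,P) = (-P², P) = (-1, P)` at every place (`split_twist`, `split_mul_sq`).
* `(P, Q)`, distinct: split at the other finite places.  At `plP P` (ord of `P` is `1`, of `Q` is `0`): iff `jac Q P = 1`; at `plP Q`: iff `jac P Q = 1`; at `plInf`: if `deg P`, `deg Q` are even: split; if exactly one is even, say `deg Q` even: iff `Q` is a square at `plInf`, true, its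
  leading coefficient is `1`; both odd: `(P, Q) = (-P Q, Q)` (`split_twist`), `-P Q` has even degree and leading coefficient `-1`: split iff `-1` is a square in `F`, i.e. `χ(-1) = 1`.  So split at `plInf` iff `χ(-1)^(deg P deg Q) = 1`,
  and `jac P Q = χ(-1)^(deg P deg Q) jac Q P` (`jac_recip`), all are `±1` (`jac_ne_zero_iff`): an even number of the three is `-1`.  (The three places are distinct: `plP_inj`, `plP_ne_inf`.) -/

namespace FZ

open Polynomial

variable {F : Type} [Field F] [Fintype F]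

private theorem fr_symm {κ : Type*} {A B : Set κ} (hA : A.Finite) (hB : B.Finite) :
    Even (symmDiff A B).ncard ↔ (Even A.ncard ↔ Even B.ncard) := by
  have h1 := Set.ncard_inter_add_ncard_sdiff_eq_ncard A B hA
  have h2 := Set.ncard_inter_add_ncard_sdiff_eq_ncard B A hB
  have h3 : (symmDiff A B).ncard = (A \ B).ncard + (B \ A).ncard := by
    have e : symmDiff A B = (A \ B) ∪ (B \ A) := rfl
    rw [e]
    apply Set.ncard_union_eq
    · rw [Set.disjoint_left]
      intro x hx hx'
      exact hx'.2 hx.1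
    · exact hA.subset Set.sdiff_subset
    · exact hB.subset Set.sdiff_subset
  rw [Set.inter_comm] at h2
  rw [h3, ← h1, ← h2, Nat.even_add, Nat.even_add, Nat.even_add]
  tauto

omit [Fintype F] in
private theorem fr_mem (c : ∀ v : Pl F, Kv v) (β : RatFunc F) (v : Pl F) :
    v ∈ badPlaces c β ↔ ¬ Split (Kv v) (c v) (emb v β) := Iff.rfl

theorem SumZero.mul (h2 : ringChar F ≠ 2) {c c' : ∀ v : Pl F, Kv v} {β : RatFunc F}
    (hc : ∀ v, c v ≠ 0) (hc' : ∀ v, c' v ≠ 0) (hβ : β ≠ 0) (h : SumZero c β) (h' : SumZero c' β) :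
    SumZero (fun v => c v * c' v) β := by
  have hset : badPlaces (fun v => c v * c' v) β = symmDiff (badPlaces c β) (badPlaces c' β) := by
    ext v
    have hβv : emb v β ≠ 0 := (map_ne_zero (emb v)).2 hβ
    rw [Set.mem_symmDiff, fr_mem, fr_mem, fr_mem, split_mul (olf h2 v) _ _ _ (hc v) (hc' v) hβv]
    tauto
  refine ⟨?_, ?_⟩
  · rw [hset]
    exact Set.Finite.subset (h.1.union h'.1) (fun x hx => by
      rw [Set.mem_symmDiff] at hx
      rcases hx with hx | hx
      · exact Or.inl hx.1
      · exact Or.inr hx.1)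
  · rw [hset, fr_symm h.1 h'.1]
    exact iff_of_true h.2 h'.2

omit [Fintype F] in
private theorem fr_congr {u β u' β' : RatFunc F}
    (h : ∀ v : Pl F, Split (Kv v) (emb v u) (emb v β) ↔ Split (Kv v) (emb v u') (emb v β'))
    (H : SumZero (fun v => emb v u) β) : SumZero (fun v => emb v u') β' := by
  have hset : badPlaces (fun v => emb v u') β' = badPlaces (fun v => emb v u) β := by
    ext v
    rw [fr_mem, fr_mem, h v]
  unfold SumZero at H ⊢
  rw [hset]
  exact H

omit [Fintype F] in
private theorem fr_comm {u β : RatFunc F} (H : SumZero (fun v => emb v u) β) : SumZero (fun v => emb v β) u :=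
  fr_congr (fun _ => split_comm _ _) H

omit [Fintype F] in
private theorem fr_sq {u β s : RatFunc F} (hs : s ≠ 0) (H : SumZero (fun v => emb v u) β) :
    SumZero (fun v => emb v (u * s ^ 2)) β := by
  refine fr_congr (fun v => ?_) H
  rw [map_mul, map_pow]
  exact (split_mul_sq _ _ _ ((map_ne_zero (emb v)).2 hs)).symm

private theorem fr_mulQ (h2 : ringChar F ≠ 2) {u w β : RatFunc F} (hu : u ≠ 0) (hw : w ≠ 0) (hβ : β ≠ 0)
    (H : SumZero (fun v => emb v u) β) (H' : SumZero (fun v => emb v w) β) :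
    SumZero (fun v => emb v (u * w)) β := by
  have h := SumZero.mul h2 (fun v => (map_ne_zero (emb v)).2 hu) (fun v => (map_ne_zero (emb v)).2 hw) hβ H H'
  have e : (fun v : Pl F => emb v (u * w)) = fun v => emb v u * emb v w := by
    funext v
    rw [map_mul]
  rw [e]
  exact h

omit [Fintype F] in
open Classical in
/-- all the bad places are in the finite set `T` -/
private theorem fr_of_finset {u β : RatFunc F} (T : Finset (Pl F))
    (h : ∀ v, v ∉ T → Split (Kv v) (emb v u) (emb v β))
    (he : Even (T.filter fun v => ¬ Split (Kv v) (emb v u) (emb v β)).card) :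
    SumZero (fun v => emb v u) β := by
  have hset : badPlaces (fun v => emb v u) β =
      ((T.filter fun v => ¬ Split (Kv v) (emb v u) (emb v β) : Finset (Pl F)) : Set (Pl F)) := by
    ext v
    rw [fr_mem, Finset.coe_filter, Set.mem_setOf_eq]
    constructor
    · intro hv
      refine ⟨?_, hv⟩
      by_contra hT
      exact hv (h v hT)
    · intro hv
      exact hv.2
  refine ⟨?_, ?_⟩
  · rw [hset]
    exact Finset.finite_toSet _
  · rw [hset, Set.ncard_coe_finset]
    exact he

omit [Fintype F] in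
private theorem fr_C_ndvd {P : F[X]} (hP : Irreducible P) {c : F} (hc : c ≠ 0) : ¬ P ∣ C c := fun h =>
  hP.not_isUnit (isUnit_of_dvd_unit h (Polynomial.isUnit_C.2 (isUnit_iff_ne_zero.2 hc)))

private theorem fr_ord_C (v : Pl F) {c : F} (hc : c ≠ 0) : ordv v (ev v (C c)) = 0 := by
  rcases pl_cases v with rfl | ⟨P, hP, -, rfl⟩
  · rw [ordv_inf (Polynomial.C_ne_zero.2 hc), Polynomial.natDegree_C]
    rfl
  · exact ordv_of_not_dvd hP (fr_C_ndvd hP hc)

omit [Fintype F] in
private theorem fr_prime_ndvd {P Q : F[X]} (hP : Irreducible P) (hQ : Irreducible Q) (mP : P.Monic) (mQ : Q.Monic)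
    (h : P ≠ Q) : ¬ P ∣ Q := fun hd =>
  h (Polynomial.eq_of_monic_of_associated mP mQ (hP.associated_of_dvd hQ hd))

private theorem fr_split_even (h2 : ringChar F ≠ 2) (v : Pl F) {f g : F[X]} (hf : f ≠ 0) (hg : g ≠ 0)
    (h : Even (ordv v (ev v f))) (h' : Even (ordv v (ev v g))) : Split (Kv v) (ev v f) (ev v g) :=
  split_even (olf h2 v) _ _ (ev_ne_zero v hf) (ev_ne_zero v hg) (by rw [olf_ord]; exact h) (by rw [olf_ord]; exact h')

private theorem fr_split_odd (h2 : ringChar F ≠ 2) (v : Pl F) {f g : F[X]} (hf : f ≠ 0) (hg : g ≠ 0)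
    (h : Even (ordv v (ev v f))) (h' : Odd (ordv v (ev v g))) :
    Split (Kv v) (ev v f) (ev v g) ↔ IsSquare (ev v f) :=
  split_odd_iff (olf h2 v) _ _ (ev_ne_zero v hf) (ev_ne_zero v hg) (by rw [olf_ord]; exact h)
    (by rw [olf_ord]; exact h')

/-- two constants -/
private theorem fr_C_C (h2 : ringChar F ≠ 2) {c c' : F} (hc : c ≠ 0) (hc' : c' ≠ 0) :
    SumZero (fun v => emb v (algebraMap F[X] (RatFunc F) (C c))) (algebraMap F[X] (RatFunc F) (C c')) := by
  refine fr_of_finset ∅ (fun v _ => ?_) (by simp)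
  exact fr_split_even h2 v (Polynomial.C_ne_zero.2 hc) (Polynomial.C_ne_zero.2 hc')
    (by rw [fr_ord_C v hc]; exact ⟨0, rfl⟩) (by rw [fr_ord_C v hc']; exact ⟨0, rfl⟩)

/-- a constant and a monic irreducible polynomial -/
private theorem fr_C_P (h2 : ringChar F ≠ 2) {c : F} (hc : c ≠ 0) {P : F[X]} (hP : Irreducible P) (mP : P.Monic) :
    SumZero (fun v => emb v (algebraMap F[X] (RatFunc F) (C c))) (algebraMap F[X] (RatFunc F) P) := by
  classical
  have hC0 : (C c : F[X]) ≠ 0 := Polynomial.C_ne_zero.2 hc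
  have hne := plP_ne_inf hP
  -- the finite place
  have LP : Split (Kv (plP P hP)) (ev (plP P hP) (C c)) (ev (plP P hP) P) ↔ quadraticChar F c ^ P.natDegree = 1 := by
    rw [fr_split_odd h2 _ hC0 hP.ne_zero (by rw [fr_ord_C _ hc]; exact ⟨0, rfl⟩) (by rw [ordv_self]; exact odd_one),
      isSquare_plP_iff h2 mP hP (fr_C_ndvd hP hc), jac_C mP]
  have LI : Split (Kv (plInf F)) (ev (plInf F) (C c)) (ev (plInf F) P) ↔ quadraticChar F c ^ P.natDegree = 1 := by
    rcases Nat.even_or_odd P.natDegree with hd | hd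
    · have h1 : quadraticChar F c ^ P.natDegree = 1 := by
        obtain ⟨k, hk⟩ := hd
        rw [hk, ← two_mul, pow_mul, quadraticChar_sq_one hc, one_pow]
      refine iff_of_true (fr_split_even h2 _ hC0 hP.ne_zero (by rw [fr_ord_C _ hc]; exact ⟨0, rfl⟩) ?_) h1
      rw [ordv_inf hP.ne_zero, even_neg]
      exact_mod_cast hd
    · have h1 : quadraticChar F c ^ P.natDegree = quadraticChar F c := by
        obtain ⟨k, hk⟩ := hd
        rw [hk, pow_succ, pow_mul, quadraticChar_sq_one hc, one_pow, one_mul]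
      rw [h1, quadraticChar_one_iff_isSquare hc,
        fr_split_odd h2 _ hC0 hP.ne_zero (by rw [fr_ord_C _ hc]; exact ⟨0, rfl⟩) (by
          rw [ordv_inf hP.ne_zero, odd_neg]
          exact_mod_cast hd),
        isSquare_plInf_iff h2 hC0 (by rw [Polynomial.natDegree_C]; exact ⟨0, rfl⟩), Polynomial.leadingCoeff_C]
  refine fr_of_finset {plInf F, plP P hP} (fun v hv => ?_) ?_
  · rw [Finset.mem_insert, Finset.mem_singleton, not_or] at hv
    rcases pl_cases v with rfl | ⟨Q, hQ, mQ, rfl⟩
    · exact absurd rfl hv.1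
    · have hQP : Q ≠ P := by
        rintro rfl
        exact hv.2 rfl
      refine fr_split_even h2 _ hC0 hP.ne_zero (by rw [fr_ord_C _ hc]; exact ⟨0, rfl⟩) ?_
      rw [ordv_of_not_dvd hQ (fr_prime_ndvd hQ hP mQ mP hQP)]
      exact ⟨0, rfl⟩
  · have LP' : Split (Kv (plP P hP)) (emb (plP P hP) (algebraMap F[X] (RatFunc F) (C c)))
        (emb (plP P hP) (algebraMap F[X] (RatFunc F) P)) ↔ quadraticChar F c ^ P.natDegree = 1 := LP
    have LI' : Split (Kv (plInf F)) (emb (plInf F) (algebraMap F[X] (RatFunc F) (C c)))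
        (emb (plInf F) (algebraMap F[X] (RatFunc F) P)) ↔ quadraticChar F c ^ P.natDegree = 1 := LI
    rw [Finset.filter_insert, Finset.filter_singleton]
    by_cases h : quadraticChar F c ^ P.natDegree = 1
    · rw [if_neg (not_not.2 (LI'.2 h)), if_neg (not_not.2 (LP'.2 h))]
      simp
    · rw [if_pos (fun h' => h (LI'.1 h')), if_pos (fun h' => h (LP'.1 h')), Finset.card_pair hne.symm]
      exact even_two

/-- `(P, P)` -/
private theorem fr_P_P (h2 : ringChar F ≠ 2) {P : F[X]} (hP : Irreducible P) (mP : P.Monic) :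
    SumZero (fun v => emb v (algebraMap F[X] (RatFunc F) P)) (algebraMap F[X] (RatFunc F) P) := by
  have hP0 : algebraMap F[X] (RatFunc F) P ≠ 0 := fun h =>
    hP.ne_zero ((map_eq_zero_iff _ (IsFractionRing.injective F[X] (RatFunc F))).1 h)
  have h1 := fr_sq hP0 (fr_C_P h2 (neg_ne_zero.2 (one_ne_zero (α := F))) hP mP)
  refine fr_congr (fun v => ?_) h1
  have e : emb v (algebraMap F[X] (RatFunc F) (C (-1)) * algebraMap F[X] (RatFunc F) P ^ 2) =
      -(emb v (algebraMap F[X] (RatFunc F) P) * emb v (algebraMap F[X] (RatFunc F) P)) := by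
    rw [map_neg, map_one, map_neg, map_one, map_mul, map_neg, map_one, map_pow]
    ring
  rw [e]
  exact (split_twist _ _ ((map_ne_zero (emb v)).2 hP0)).symm

/-- two distinct monic irreducible polynomials -/
private theorem fr_P_Q (h2 : ringChar F ≠ 2) {P Q : F[X]} (hP : Irreducible P) (mP : P.Monic)
    (hQ : Irreducible Q) (mQ : Q.Monic) (hne : P ≠ Q) :
    SumZero (fun v => emb v (algebraMap F[X] (RatFunc F) P)) (algebraMap F[X] (RatFunc F) Q) := by
  classical
  have hP0 := hP.ne_zero
  have hQ0 := hQ.ne_zero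
  have hPQ := fr_prime_ndvd hP hQ mP mQ hne
  have hQP := fr_prime_ndvd hQ hP mQ mP hne.symm
  have hm1 : (-1 : F) ≠ 0 := neg_ne_zero.2 one_ne_zero
  -- the place `P`
  have LP : Split (Kv (plP P hP)) (ev (plP P hP) P) (ev (plP P hP) Q) ↔ jac Q P = 1 := by
    rw [split_comm, fr_split_odd h2 _ hQ0 hP0 (by rw [ordv_of_not_dvd hP hPQ]; exact ⟨0, rfl⟩)
      (by rw [ordv_self]; exact odd_one), isSquare_plP_iff h2 mP hP hPQ]
  have LQ : Split (Kv (plP Q hQ)) (ev (plP Q hQ) P) (ev (plP Q hQ) Q) ↔ jac P Q = 1 := by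
    rw [fr_split_odd h2 _ hP0 hQ0 (by rw [ordv_of_not_dvd hQ hQP]; exact ⟨0, rfl⟩)
      (by rw [ordv_self]; exact odd_one), isSquare_plP_iff h2 mQ hQ hQP]
  have LI : Split (Kv (plInf F)) (ev (plInf F) P) (ev (plInf F) Q) ↔
      quadraticChar F (-1) ^ (P.natDegree * Q.natDegree) = 1 := by
    have hev : ∀ {f : F[X]}, f ≠ 0 → Even f.natDegree → Even (ordv (plInf F) (ev (plInf F) f)) := by
      intro f hf he
      rw [ordv_inf hf, even_neg]
      exact_mod_cast he
    have hod : ∀ {f : F[X]}, f ≠ 0 → Odd f.natDegree → Odd (ordv (plInf F) (ev (plInf F) f)) := by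
      intro f hf he
      rw [ordv_inf hf, odd_neg]
      exact_mod_cast he
    have hpow : ∀ k : ℕ, Even k → quadraticChar F (-1) ^ k = 1 := by
      rintro k ⟨m, rfl⟩
      rw [← two_mul, pow_mul, quadraticChar_sq_one hm1, one_pow]
    have hsq1 : ∀ {f : F[X]}, f.Monic → Even f.natDegree → IsSquare (ev (plInf F) f) := by
      intro f hf he
      rw [isSquare_plInf_iff h2 hf.ne_zero he, hf.leadingCoeff]
      exact ⟨1, (mul_one 1).symm⟩
    rcases Nat.even_or_odd P.natDegree with hp | hp
    · refine iff_of_true ?_ (hpow _ (hp.mul_right _))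
      rcases Nat.even_or_odd Q.natDegree with hq | hq
      · exact fr_split_even h2 _ hP0 hQ0 (hev hP0 hp) (hev hQ0 hq)
      · rw [fr_split_odd h2 _ hP0 hQ0 (hev hP0 hp) (hod hQ0 hq)]
        exact hsq1 mP hp
    · rcases Nat.even_or_odd Q.natDegree with hq | hq
      · refine iff_of_true ?_ (hpow _ (hq.mul_left _))
        rw [split_comm, fr_split_odd h2 _ hQ0 hP0 (hev hQ0 hq) (hod hP0 hp)]
        exact hsq1 mQ hq
      · have h1 : quadraticChar F (-1) ^ (P.natDegree * Q.natDegree) = quadraticChar F (-1) := by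
          obtain ⟨k, hk⟩ := hp.mul hq
          rw [hk, pow_succ, pow_mul, quadraticChar_sq_one hm1, one_pow, one_mul]
        have hn0 : -(P * Q) ≠ 0 := neg_ne_zero.2 (mul_ne_zero hP0 hQ0)
        have hnd : Even (-(P * Q)).natDegree := by
          rw [Polynomial.natDegree_neg, mP.natDegree_mul mQ]
          exact hp.add_odd hq
        have e : -(ev (plInf F) P * ev (plInf F) Q) = ev (plInf F) (-(P * Q)) := by
          rw [map_neg, map_mul]
        rw [h1, quadraticChar_one_iff_isSquare hm1, split_twist _ _ (ev_ne_zero _ hQ0), e,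
          fr_split_odd h2 _ hn0 hQ0 (hev hn0 hnd) (hod hQ0 hq), isSquare_plInf_iff h2 hn0 hnd,
          Polynomial.leadingCoeff_neg, (mP.mul mQ).leadingCoeff]
  -- the symbols are `± 1`
  have j1 : jac Q P = 1 ∨ jac Q P = -1 := by
    have h := (jac_ne_zero_iff mP Q).2 ((hP.coprime_iff_not_dvd.2 hPQ).symm)
    rcases jac_cases Q P with h' | h'
    · exact absurd h' h
    · exact h'
  have e1 : quadraticChar F (-1) ^ (P.natDegree * Q.natDegree) = 1 ∨
      quadraticChar F (-1) ^ (P.natDegree * Q.natDegree) = -1 := by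
    rcases quadraticChar_dichotomy hm1 with h | h
    · rw [h, one_pow]
      exact Or.inl rfl
    · rw [h]
      exact neg_one_pow_eq_or ℤ _
  have hrec := jac_recip mP mQ
  have n1 := plP_ne_inf hP
  have n2 := plP_ne_inf hQ
  have n3 : plP P hP ≠ plP Q hQ := fun h => hne (plP_inj hP hQ mP mQ h)
  refine fr_of_finset {plInf F, plP P hP, plP Q hQ} (fun v hv => ?_) ?_
  · rw [Finset.mem_insert, Finset.mem_insert, Finset.mem_singleton, not_or, not_or] at hv
    rcases pl_cases v with rfl | ⟨R, hR, mR, rfl⟩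
    · exact absurd rfl hv.1
    · have hRP : R ≠ P := by
        rintro rfl
        exact hv.2.1 rfl
      have hRQ : R ≠ Q := by
        rintro rfl
        exact hv.2.2 rfl
      refine fr_split_even h2 _ hP0 hQ0 ?_ ?_
      · rw [ordv_of_not_dvd hR (fr_prime_ndvd hR hP mR mP hRP)]
        exact ⟨0, rfl⟩
      · rw [ordv_of_not_dvd hR (fr_prime_ndvd hR hQ mR mQ hRQ)]
        exact ⟨0, rfl⟩
  · have LP' : Split (Kv (plP P hP)) (emb (plP P hP) (algebraMap F[X] (RatFunc F) P))
        (emb (plP P hP) (algebraMap F[X] (RatFunc F) Q)) ↔ jac Q P = 1 := LP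
    have LQ' : Split (Kv (plP Q hQ)) (emb (plP Q hQ) (algebraMap F[X] (RatFunc F) P))
        (emb (plP Q hQ) (algebraMap F[X] (RatFunc F) Q)) ↔ jac P Q = 1 := LQ
    have LI' : Split (Kv (plInf F)) (emb (plInf F) (algebraMap F[X] (RatFunc F) P))
        (emb (plInf F) (algebraMap F[X] (RatFunc F) Q)) ↔
          quadraticChar F (-1) ^ (P.natDegree * Q.natDegree) = 1 := LI
    rw [Finset.filter_insert, Finset.filter_insert, Finset.filter_singleton]
    have hm : ¬ (-1 : ℤ) = 1 := by decide
    rcases e1 with h | h <;> rcases j1 with h' | h'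
    · rw [h, h', one_mul] at hrec
      rw [if_neg (not_not.2 (LI'.2 h)), if_neg (not_not.2 (LP'.2 h')), if_neg (not_not.2 (LQ'.2 hrec))]
      simp
    · rw [h, h', one_mul] at hrec
      rw [if_neg (not_not.2 (LI'.2 h)), if_pos (fun h3 => hm (h'.symm.trans (LP'.1 h3))),
        if_pos (fun h3 => hm (hrec.symm.trans (LQ'.1 h3))), Finset.card_pair n3]
      exact even_two
    · rw [h, h', mul_one] at hrec
      rw [if_pos (fun h3 => hm (h.symm.trans (LI'.1 h3))), if_neg (not_not.2 (LP'.2 h')),
        if_pos (fun h3 => hm (hrec.symm.trans (LQ'.1 h3))), Finset.card_pair n2.symm]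
      exact even_two
    · rw [h, h', neg_mul_neg, one_mul] at hrec
      rw [if_pos (fun h3 => hm (h.symm.trans (LI'.1 h3))), if_pos (fun h3 => hm (h'.symm.trans (LP'.1 h3))),
        if_neg (not_not.2 (LQ'.2 hrec)), insert_empty_eq, Finset.card_pair n1.symm]
      exact even_two

omit [Fintype F] in
/-- a property of nonzero rational functions which holds for constants and monic irreducible polynomials and is
multiplicative and invariant under squares -/
private theorem fr_gen (R : RatFunc F → Prop) (hC : ∀ c : F, c ≠ 0 → R (algebraMap F[X] (RatFunc F) (C c)))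
    (hprime : ∀ P : F[X], Irreducible P → P.Monic → R (algebraMap F[X] (RatFunc F) P))
    (hmul : ∀ u v : RatFunc F, u ≠ 0 → v ≠ 0 → R u → R v → R (u * v))
    (hsq : ∀ u s : RatFunc F, s ≠ 0 → R u → R (u * s ^ 2)) : ∀ u : RatFunc F, u ≠ 0 → R u := by
  classical
  have hinj := IsFractionRing.injective F[X] (RatFunc F)
  have hne : ∀ f : F[X], f ≠ 0 → algebraMap F[X] (RatFunc F) f ≠ 0 := fun f hf h =>
    hf ((map_eq_zero_iff _ hinj).1 h)
  have hpr : ∀ p : F[X], Irreducible p → R (algebraMap F[X] (RatFunc F) p) := by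
    intro p hp
    have hp0 := hp.ne_zero
    have hlc : p.leadingCoeff ≠ 0 := Polynomial.leadingCoeff_ne_zero.2 hp0
    have e : p = C p.leadingCoeff * (p * C p.leadingCoeff⁻¹) := by
      rw [mul_left_comm, ← C_mul, mul_inv_cancel₀ hlc, C_1, mul_one]
    have hm : (p * C p.leadingCoeff⁻¹).Monic := Polynomial.monic_mul_leadingCoeff_inv hp0
    have hi : Irreducible (p * C p.leadingCoeff⁻¹) := by
      have hu : IsUnit (C p.leadingCoeff⁻¹ : F[X]) :=
        Polynomial.isUnit_C.2 (isUnit_iff_ne_zero.2 (inv_ne_zero hlc))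
      exact (irreducible_mul_isUnit hu).2 hp
    rw [e, map_mul]
    exact hmul _ _ (hne _ (Polynomial.C_ne_zero.2 hlc)) (hne _ hi.ne_zero) (hC _ hlc) (hprime _ hi hm)
  have hpoly : ∀ f : F[X], f ≠ 0 → R (algebraMap F[X] (RatFunc F) f) := by
    intro f
    induction f using UniqueFactorizationMonoid.induction_on_prime with
    | h₁ => intro h; exact absurd rfl h
    | h₂ f hf =>
      intro _
      obtain ⟨c, hc, rfl⟩ := Polynomial.isUnit_iff.1 hf
      exact hC c hc.ne_zero
    | h₃ a p ha hp ih =>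
      intro _
      rw [map_mul]
      exact hmul _ _ (hne _ hp.ne_zero) (hne _ ha) (hpr p hp.irreducible) (ih ha)
  intro u hu
  have hd : algebraMap F[X] (RatFunc F) u.denom ≠ 0 := hne _ (RatFunc.denom_ne_zero u)
  have hn : u.num ≠ 0 := RatFunc.num_ne_zero hu
  have e : u = algebraMap F[X] (RatFunc F) (u.num * u.denom) * ((algebraMap F[X] (RatFunc F) u.denom)⁻¹) ^ 2 := by
    conv_lhs => rw [← RatFunc.num_div_denom u]
    rw [map_mul]
    field_simp
  rw [e]
  exact hsq _ _ (inv_ne_zero hd) (hpoly _ (mul_ne_zero hn (RatFunc.denom_ne_zero u)))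

theorem recip (h2 : ringChar F ≠ 2) (u β : RatFunc F) (hu : u ≠ 0) (hβ : β ≠ 0) :
    SumZero (fun v => emb v u) β := by
  have hinj := IsFractionRing.injective F[X] (RatFunc F)
  have hne : ∀ f : F[X], f ≠ 0 → algebraMap F[X] (RatFunc F) f ≠ 0 := fun f hf h =>
    hf ((map_eq_zero_iff _ hinj).1 h)
  have step : ∀ β : RatFunc F, β ≠ 0 →
      (∀ c : F, c ≠ 0 → SumZero (fun v => emb v (algebraMap F[X] (RatFunc F) (C c))) β) →
      (∀ P : F[X], Irreducible P → P.Monic → SumZero (fun v => emb v (algebraMap F[X] (RatFunc F) P)) β) →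
      ∀ u : RatFunc F, u ≠ 0 → SumZero (fun v => emb v u) β := by
    intro β hβ hc hp
    exact fr_gen (fun u => SumZero (fun v => emb v u) β) hc hp
      (fun u v hu hv h h' => fr_mulQ h2 hu hv hβ h h') (fun u s hs h => fr_sq hs h)
  have hCall : ∀ c : F, c ≠ 0 → ∀ β : RatFunc F, β ≠ 0 →
      SumZero (fun v => emb v (algebraMap F[X] (RatFunc F) (C c))) β := by
    intro c hc β hβ
    exact fr_comm (step _ (hne _ (Polynomial.C_ne_zero.2 hc)) (fun c' hc' => fr_C_C h2 hc' hc)
      (fun P hP mP => fr_comm (fr_C_P h2 hc hP mP)) β hβ)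
  have hPall : ∀ P : F[X], Irreducible P → P.Monic → ∀ β : RatFunc F, β ≠ 0 →
      SumZero (fun v => emb v (algebraMap F[X] (RatFunc F) P)) β := by
    intro P hP mP β hβ
    refine fr_comm (step _ (hne _ hP.ne_zero) (fun c' hc' => fr_C_P h2 hc' hP mP) (fun Q hQ mQ => ?_) β hβ)
    by_cases hPQ : Q = P
    · subst hPQ
      exact fr_P_P h2 hQ mQ
    · exact fr_P_Q h2 hQ mQ hP mP hPQ
  exact step β hβ (fun c hc => hCall c hc β hβ) (fun P hP mP => hPall P hP mP β hβ) u hu

end FZ
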