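import Pool.Agent.Lib.MP_1ad228_nt.FF.FBase
import Pool.Agent.Lib.MP_1ad228_nt.FF.FRecip

/-! JOB FGlob.  A global zero-cycle of degree one gives an orthogonal family of local ones.  MODEL (over `ℚ`): `Pool/Agent/Lib/MP_1ad228_nt/ZGlob.lean`.

`cyc_base`: a zero-cycle over `L` gives one over `L'` of the same degree whose classes are the images.  Induction on the list: `(m, P) :: z`: for `l` from `base_change L L' P.K`, every `E ∈ l` gives the point
`⟨E.L, φ x, φ z, φ w⟩` (injectivity of `φ` for `ne`, `map_prod` for `eq`; here the equation needs `E.φ (algebraMap L K c) = algebraMap L' E.L (algebraMap L L' c)`, the first property, so use `List.pmap`/`List.attach` with the membership `E ∈ l`),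
its `val i` is `φ (P.val i)` (the same branch of the `if` since `φ` is injective).  Attach the coefficient `m` to all of them;
degree `m ∑ [E.L:L'] = m [P.K:L]`, class `∏ N(φ (val i))^m = (algebraMap (N (val i)))^m`.
`glob`: apply it to `L = F(t)`, `L' = Kv v` with `(emb v).toAlgebra`.  The classes are the images of `u_i = z.cls i ∈ F(t)`, nonzero (`Cyc.cls_ne`); `SumZero` is `recip u_i β`. -/

namespace FZ

open Finset Polynomial

/-- the image of a point under a homomorphism of its field of definition -/
private def fglobPt {L L' : Type} [Field L] [Field L'] [Algebra L L'] {ι : Type} [Fintype ι] {a : ι → L} {D : L}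
    (P : Pt L a D) (E : FExt P.K L')
    (hE : ∀ c : L, E.φ (algebraMap L P.K c) = algebraMap L' E.L (algebraMap L L' c)) :
    Pt L' (fun i => algebraMap L L' (a i)) (algebraMap L L' D) where
  K := E.L
  x := E.φ P.x
  z := E.φ P.z
  w := E.φ P.w
  ne := by
    rintro ⟨hx, hz⟩
    exact P.ne ⟨(map_eq_zero E.φ).1 hx, (map_eq_zero E.φ).1 hz⟩
  eq := by
    have h := congrArg E.φ P.eq
    simpa only [map_mul, map_pow, map_prod, map_sub, hE] using h

open Classical in
/-- the value up to squares, in terms of the coordinates -/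
private noncomputable def fglobVal {K ι : Type} [Field K] [Fintype ι] (a : ι → K) (D : K) (x z : K) (i : ι) : K :=
  if x ^ 2 - a i * z ^ 2 = 0 then D * ∏ j ∈ univ.erase i, (x ^ 2 - a j * z ^ 2)
  else x ^ 2 - a i * z ^ 2

private theorem fglobVal_map {K L ι : Type} [Field K] [Field L] [Fintype ι] (φ : K →+* L) (a : ι → K) (D : K)
    (x z : K) (i : ι) : fglobVal (fun i => φ (a i)) (φ D) (φ x) (φ z) i = φ (fglobVal a D x z i) := by
  classical
  have e : ∀ j : ι, φ x ^ 2 - φ (a j) * φ z ^ 2 = φ (x ^ 2 - a j * z ^ 2) := by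
    intro j
    simp only [map_mul, map_pow, map_sub]
  unfold fglobVal
  simp only [e]
  by_cases h : x ^ 2 - a i * z ^ 2 = 0
  · rw [if_pos ((map_eq_zero φ).2 h), if_pos h, map_mul, map_prod]
  · rw [if_neg (fun h' => h ((map_eq_zero φ).1 h')), if_neg h]

private theorem fglobPt_val {L L' : Type} [Field L] [Field L'] [Algebra L L'] {ι : Type} [Fintype ι] {a : ι → L}
    {D : L} (P : Pt L a D) (E : FExt P.K L')
    (hE : ∀ c : L, E.φ (algebraMap L P.K c) = algebraMap L' E.L (algebraMap L L' c)) (i : ι) :
    (fglobPt P E hE).val i = E.φ (P.val i) := by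
  have h1 : (fglobPt P E hE).val i = fglobVal (fun i => algebraMap L' E.L (algebraMap L L' (a i)))
      (algebraMap L' E.L (algebraMap L L' D)) (E.φ P.x) (E.φ P.z) i := rfl
  have h2 : P.val i = fglobVal (fun i => algebraMap L P.K (a i)) (algebraMap L P.K D) P.x P.z i := rfl
  rw [h1, h2, ← fglobVal_map E.φ]
  simp only [hE] <;> rfl

/-- the list of the points above `P` -/
private theorem fglob_list {L L' : Type} [Field L] [Field L'] [Algebra L L'] {ι : Type} [Fintype ι] {a : ι → L}
    {D : L} (P : Pt L a D) (m : ℤ) (l : List (FExt P.K L'))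
    (hl : ∀ E ∈ l, ∀ c : L, E.φ (algebraMap L P.K c) = algebraMap L' E.L (algebraMap L L' c)) :
    ∃ z : Cyc L' (fun i => algebraMap L L' (a i)) (algebraMap L L' D),
      z.deg = m * ((l.map fun E => Module.finrank L' E.L).sum : ℕ) ∧
      ∀ i, z.cls i = (l.map fun E => Algebra.norm L' (E.φ (P.val i))).prod ^ m := by
  induction l with
  | nil =>
    refine ⟨[], ?_, fun i => ?_⟩
    · simp [Cyc.deg]
    · simp [Cyc.cls]
  | cons E l ih =>
    obtain ⟨z, hd, hc⟩ := ih fun E' hE' => hl E' (List.mem_cons_of_mem _ hE')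
    have hE := hl E List.mem_cons_self
    refine ⟨(m, fglobPt P E hE) :: z, ?_, fun i => ?_⟩
    · unfold Cyc.deg at hd ⊢
      rw [List.map_cons, List.sum_cons, hd]
      simp only [List.map_cons, List.sum_cons, Nat.cast_add, mul_add]
      rfl
    · have hc' := hc i
      unfold Cyc.cls at hc' ⊢
      rw [List.map_cons, List.prod_cons, hc', fglobPt_val]
      simp only [List.map_cons, List.prod_cons, mul_zpow]
      rfl

theorem cyc_base (L L' : Type) [Field L] [Field L'] [Algebra L L'] {ι : Type} [Fintype ι] {a : ι → L}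
    {D : L} (z : Cyc L a D) :
    ∃ z' : Cyc L' (fun i => algebraMap L L' (a i)) (algebraMap L L' D),
      z'.deg = z.deg ∧ ∀ i, z'.cls i = algebraMap L L' (z.cls i) := by
  induction z with
  | nil =>
    refine ⟨[], ?_, fun i => ?_⟩
    · simp [Cyc.deg]
    · simp [Cyc.cls]
  | cons q z ih =>
    obtain ⟨z', hd, hc⟩ := ih
    obtain ⟨m, P⟩ := q
    obtain ⟨l, h1, h2, h3⟩ := base_change L L' P.K
    obtain ⟨y, yd, yc⟩ := fglob_list P m l h1
    refine ⟨y ++ z', ?_, fun i => ?_⟩
    · unfold Cyc.deg at hd yd ⊢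
      rw [List.map_append, List.sum_append, yd, h2, hd, List.map_cons, List.sum_cons]
    · have hc' := hc i
      have yc' := yc i
      unfold Cyc.cls at hc' yc' ⊢
      rw [List.map_append, List.prod_append, yc', h3, hc', List.map_cons, List.prod_cons, map_mul, map_zpow₀]

theorem glob {F : Type} [Field F] [Fintype F] (h2 : ringChar F ≠ 2) {ι : Type} [Fintype ι] {a : ι → F[X]}
    (ha : Function.Injective a) {D : F[X]} (hD : D ≠ 0) (h : Global a D) : Adelic a D := by
  obtain ⟨z, hz⟩ := h
  have key : ∀ v : Pl F, ∃ z' : Cyc (Kv v) (fun i => ev v (a i)) (ev v D),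
      z'.deg = z.deg ∧ ∀ i, z'.cls i = emb v (z.cls i) := by
    intro v
    let _ : Algebra (RatFunc F) (Kv v) := (emb v).toAlgebra
    exact cyc_base (RatFunc F) (Kv v) z
  choose y yd yc using key
  refine ⟨y, fun v => (yd v).trans hz, fun i β hβ => ?_⟩
  have h0 : z.cls i ≠ 0 := by
    refine z.cls_ne ?_ ?_ i
    · intro i j hij
      exact ha (IsFractionRing.injective F[X] (RatFunc F) hij)
    · intro h0
      exact hD (IsFractionRing.injective F[X] (RatFunc F) (h0.trans (map_zero _).symm))
  have h3 := recip h2 (z.cls i) β h0 hβ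
  simp only [yc]
  exact h3

end FZ
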