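import Pool.Agent.Lib.MP_1ad228_nt.FF.FMon

/-! JOB FHall.  Prime polynomials and the Hall-Tenenbaum inequality over `F[t]`.  (Model of `hall` over `ℕ`: `Pool/Agent/Lib/MP_10e784_ag/QHall.lean`.)

`prime_count`: the monic irreducible `P` of degree `k ≥ 1` divide `X^(q^k) - X` (Mathlib: e.g. `FiniteField.X_pow_card_pow_sub_X...`, `Irreducible.dvd_X_pow_card_pow_sub_X`-like lemmas; or: in the field `AdjoinRoot P` with `q^k` elements
`θ^(q^k) = θ`, so `P ∣ X^(q^k) - X` by `AdjoinRoot.mk_eq_zero`), they are pairwise coprime, so their product divides it; compare degrees: `k · #{P} ≤ q^k`.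

`hall`, proof.  Let `W f = pf w f` for squarefree monic `f`, `S_m = ∑_{f ∈ mon m} W f`.  For squarefree monic `f` of degree `m`: `m = ∑_{P ∣ f} deg P` (`prod_pfac`, `natDegree_prod`), and for `P ∣ f`, `f = P g`: `W f = w P * W g`, `g` squarefree monic of degree
`m - deg P < m`.  So `m S_m = ∑_f ∑_{P ∣ f} deg P w(P) W(f/P) ≤ ∑_{j<m} ∑_{g ∈ mon j} W g ∑_{P ∈ mon (m-j) irreducible} (m - j) ≤ ∑_{j<m} q^(m-j) S_j`  (`prime_count`). -/

namespace FZ

open Finset Polynomial

variable {F : Type} [Field F] [Fintype F]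

omit [Fintype F] in
private theorem FHall_coprime {P Q : F[X]} (hP : P.Monic) (hPi : Irreducible P) (hQ : Q.Monic) (hQi : Irreducible Q)
    (h : P ≠ Q) : IsCoprime P Q := by
  rw [hPi.coprime_iff_not_dvd]
  intro hd
  exact h (eq_of_monic_of_associated hP hQ (hPi.associated_of_dvd hQi hd))

open Classical in
theorem prime_count (k : ℕ) :
    (k : ℝ) * (((mon F k).filter fun P => Irreducible P).card : ℝ) ≤ (Fintype.card F : ℝ) ^ k := by
  rcases Nat.eq_zero_or_pos k with rfl | hk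
  · simp
  have hmem : ∀ P ∈ (mon F k).filter fun P => Irreducible P, P.Monic ∧ P.natDegree = k ∧ Irreducible P := by
    intro P hP
    obtain ⟨h1, h2⟩ := mem_filter.1 hP
    obtain ⟨h3, h4⟩ := (mem_mon F).1 h1
    exact ⟨h3, h4, h2⟩
  have hd : ∏ P ∈ (mon F k).filter (fun P => Irreducible P), P ∣ (X ^ Fintype.card F ^ k - X : F[X]) := by
    apply Finset.prod_dvd_of_coprime
    · intro P hP Q hQ hne
      obtain ⟨h1, -, h3⟩ := hmem P hP
      obtain ⟨h4, -, h6⟩ := hmem Q hQ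
      exact FHall_coprime h1 h3 h4 h6 hne
    · intro P hP
      obtain ⟨h1, h2, h3⟩ := hmem P hP
      have := (h3.natDegree_dvd_iff_dvd_X_pow_card_pow_sub_X (n := k)).1 (by rw [h2])
      rwa [Nat.card_eq_fintype_card] at this
  have hdeg := natDegree_le_of_dvd hd (FiniteField.X_pow_card_pow_sub_X_ne_zero F hk.ne' Fintype.one_lt_card)
  rw [FiniteField.X_pow_card_pow_sub_X_natDegree_eq F hk.ne' Fintype.one_lt_card,
    natDegree_prod_of_monic _ _ (fun P hP => (hmem P hP).1),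
    sum_congr rfl (fun P hP => (hmem P hP).2.1), sum_const, smul_eq_mul, mul_comm] at hdeg
  exact_mod_cast hdeg

open Classical in
/-- the sum of a multiplicative function over the squarefree monic polynomials of degree `m` -/
noncomputable def SS (w : F[X] → ℝ) (m : ℕ) : ℝ := ∑ f ∈ (mon F m).filter Squarefree, pf w f

omit [Fintype F] in
theorem pf_nonneg (w : F[X] → ℝ) (hw : ∀ P : F[X], P.Monic → Irreducible P → 0 ≤ w P) (f : F[X]) : 0 ≤ pf w f := by
  unfold pf
  exact prod_nonneg fun P hP => hw P (monic_of_mem_pfac hP) (irreducible_of_mem_pfac hP)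

theorem SS_nonneg (w : F[X] → ℝ) (hw : ∀ P : F[X], P.Monic → Irreducible P → 0 ≤ w P) (m : ℕ) : 0 ≤ SS w m := by
  unfold SS
  exact sum_nonneg fun f _ => pf_nonneg w hw f

theorem hall (w : F[X] → ℝ) (hw : ∀ P : F[X], P.Monic → Irreducible P → 0 ≤ w P ∧ w P ≤ 1) (m : ℕ) :
    (m : ℝ) * SS w m ≤ (Fintype.card F : ℝ) ^ m * ∑ j ∈ range m, SS w j / (Fintype.card F : ℝ) ^ j := by
  classical
  have hw0 : ∀ P : F[X], P.Monic → Irreducible P → 0 ≤ w P := fun P h1 h2 => (hw P h1 h2).1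
  have hq : (0 : ℝ) < Fintype.card F := by exact_mod_cast Fintype.card_pos
  -- the facts for a pair
  have hpair : ∀ f ∈ (mon F m).filter Squarefree, ∀ P ∈ pfac f,
      P.Monic ∧ Irreducible P ∧ (f /ₘ P).Monic ∧ f = P * (f /ₘ P) ∧ Squarefree (f /ₘ P) ∧
        (f /ₘ P).natDegree = m - P.natDegree ∧ 1 ≤ P.natDegree ∧ P.natDegree ≤ m ∧
        pf w f ≤ pf w (f /ₘ P) := by
    intro f hf P hP
    obtain ⟨h1, h2⟩ := mem_filter.1 hf
    obtain ⟨h3, h4⟩ := (mem_mon F).1 h1
    have hPm := monic_of_mem_pfac hP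
    have hPi := irreducible_of_mem_pfac hP
    have hPd := dvd_of_mem_pfac hP
    have he : f = P * (f /ₘ P) := by
      have h5 := modByMonic_add_div f P
      rw [(modByMonic_eq_zero_iff_dvd hPm).2 hPd, zero_add] at h5
      exact h5.symm
    have hgm : (f /ₘ P).Monic := hPm.of_mul_monic_left (he ▸ h3)
    have hgd : (f /ₘ P) ∣ f := ⟨P, by rw [mul_comm]; exact he⟩
    have hgs : Squarefree (f /ₘ P) := h2.squarefree_of_dvd hgd
    · have hdeg : f.natDegree = P.natDegree + (f /ₘ P).natDegree := by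
        conv_lhs => rw [he]
        exact hPm.natDegree_mul hgm
      have hPpos : 0 < P.natDegree := hPi.natDegree_pos
      have hcop : IsCoprime P (f /ₘ P) := isCoprime_of_squarefree (he ▸ h2)
      have hpf : pf w f = w P * pf w (f /ₘ P) := by
        conv_lhs => rw [he]
        rw [pf_mul w hPm.ne_zero hgm.ne_zero hcop]
        congr 1
        unfold pf
        rw [pfac_irreducible hPm hPi, prod_singleton]
      refine ⟨hPm, hPi, hgm, he, hgs, by omega, by omega, by omega, ?_⟩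
      rw [hpf]
      exact mul_le_of_le_one_left (pf_nonneg w hw0 _) (hw P hPm hPi).2
  have hdegsum : ∀ f ∈ (mon F m).filter Squarefree, (m : ℝ) = ∑ P ∈ pfac f, (P.natDegree : ℝ) := by
    intro f hf
    obtain ⟨h1, h2⟩ := mem_filter.1 hf
    obtain ⟨h3, h4⟩ := (mem_mon F).1 h1
    have h5 : f.natDegree = ∑ P ∈ pfac f, P.natDegree := by
      conv_lhs => rw [← prod_pfac h3 h2]
      exact natDegree_prod_of_monic _ _ fun P hP => monic_of_mem_pfac hP
    rw [← h4, h5]
    push_cast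
    rfl
  set T : Finset (Σ _ : ℕ, F[X] × F[X]) := (range m).sigma
    (fun j => ((mon F j).filter Squarefree) ×ˢ ((mon F (m - j)).filter fun P => Irreducible P)) with hT
  let h : (Σ _ : ℕ, F[X] × F[X]) → ℝ := fun x => ((m - x.1 : ℕ) : ℝ) * pf w x.2.1
  let e : (Σ _ : F[X], F[X]) → (Σ _ : ℕ, F[X] × F[X]) := fun x => ⟨m - x.2.natDegree, (x.1 /ₘ x.2, x.2)⟩
  set A : Finset (Σ _ : F[X], F[X]) := ((mon F m).filter Squarefree).sigma (fun f => pfac f) with hA
  have hA' : ∀ x ∈ A, x.1 ∈ (mon F m).filter Squarefree ∧ x.2 ∈ pfac x.1 := fun x hx => mem_sigma.1 hx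
  have step1 : (m : ℝ) * SS w m ≤ ∑ x ∈ A, h (e x) := by
    have : (m : ℝ) * SS w m = ∑ f ∈ (mon F m).filter Squarefree, ∑ P ∈ pfac f, (P.natDegree : ℝ) * pf w f := by
      unfold SS
      rw [mul_sum]
      refine sum_congr rfl fun f hf => ?_
      rw [← sum_mul, ← hdegsum f hf]
    rw [this, hA, sum_sigma]
    refine sum_le_sum fun f hf => sum_le_sum fun P hP => ?_
    obtain ⟨-, -, -, -, -, -, h7, h8, h9⟩ := hpair f hf P hP
    show (P.natDegree : ℝ) * pf w f ≤ ((m - (m - P.natDegree) : ℕ) : ℝ) * pf w (f /ₘ P)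
    have e1 : m - (m - P.natDegree) = P.natDegree := by omega
    rw [e1]
    exact mul_le_mul_of_nonneg_left h9 (Nat.cast_nonneg _)
  have step2 : ∑ x ∈ A, h (e x) ≤ ∑ y ∈ T, h y := by
    have hinj : Set.InjOn e A := by
      rintro ⟨f, P⟩ hx ⟨f', P'⟩ hx' hxx
      have hx1 := hA' _ hx
      have hx2 := hA' _ hx'
      have e1 : f /ₘ P = f' /ₘ P' ∧ P = P' := by
        simp only [e, Sigma.mk.injEq] at hxx
        exact Prod.mk.injEq _ _ _ _ ▸ eq_of_heq hxx.2
      have e3 := (hpair f hx1.1 P hx1.2).2.2.2.1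
      have e4 := (hpair f' hx2.1 P' hx2.2).2.2.2.1
      have e5 : f = f' := by rw [e3, e4, e1.1, e1.2]
      rw [e5, e1.2]
    rw [← sum_image hinj]
    apply sum_le_sum_of_subset_of_nonneg
    · intro y hy
      obtain ⟨x, hx, rfl⟩ := mem_image.1 hy
      obtain ⟨hx1, hx2⟩ := hA' x hx
      obtain ⟨h1, h2, h3, -, h5, h6, h7, h8, -⟩ := hpair x.1 hx1 x.2 hx2
      rw [hT, mem_sigma]
      refine ⟨mem_range.2 (by show m - x.2.natDegree < m; omega), mem_product.2 ⟨?_, ?_⟩⟩
      · exact mem_filter.2 ⟨(mem_mon F).2 ⟨h3, h6⟩, h5⟩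
      · refine mem_filter.2 ⟨(mem_mon F).2 ⟨h1, ?_⟩, h2⟩
        show x.2.natDegree = m - (m - x.2.natDegree)
        omega
    · intro y _ _
      exact mul_nonneg (Nat.cast_nonneg _) (pf_nonneg w hw0 _)
  have step3 : ∑ y ∈ T, h y ≤ (Fintype.card F : ℝ) ^ m * ∑ j ∈ range m, SS w j / (Fintype.card F : ℝ) ^ j := by
    rw [hT, sum_sigma, mul_sum]
    refine sum_le_sum fun j hj => ?_
    have hjm := mem_range.1 hj
    rw [sum_product]
    have e1 : ∀ g ∈ (mon F j).filter Squarefree,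
        ∑ P ∈ (mon F (m - j)).filter (fun P => Irreducible P), h ⟨j, (g, P)⟩ =
        (((m - j : ℕ) : ℝ) * (((mon F (m - j)).filter fun P => Irreducible P).card : ℝ)) * pf w g := by
      intro g _
      show ∑ P ∈ (mon F (m - j)).filter (fun P => Irreducible P), ((m - j : ℕ) : ℝ) * pf w g = _
      rw [sum_const, nsmul_eq_mul]
      ring
    rw [sum_congr rfl e1, ← mul_sum]
    have e2 : (Fintype.card F : ℝ) ^ m * (SS w j / (Fintype.card F : ℝ) ^ j) =
        (Fintype.card F : ℝ) ^ (m - j) * SS w j := by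
      have : (Fintype.card F : ℝ) ^ m = (Fintype.card F : ℝ) ^ (m - j) * (Fintype.card F : ℝ) ^ j := by
        rw [← pow_add]; congr 1; omega
      rw [this]
      field_simp
    rw [e2]
    exact mul_le_mul_of_nonneg_right (prime_count (m - j)) (SS_nonneg w hw0 j)
  exact step1.trans (step2.trans step3)

end FZ
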