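import Pool.Agent.Lib.MP_1ad228_nt.FF.FLoc

/-! JOB FHilb.  Conics `u x² + β y² = z²` over a field `L` with the structure `OLF`.  Model (the case `L = ℚ_p`): `Pool/Agent/Lib/MP_1ad228_nt/ZHodd.lean`.

Every `u ≠ 0` with `ord u` even is `ε s²` with `ord ε = 0`, i.e. `w ε = 1` (`s` a power of `π`; `O.ord_zpow`, `O.w_eq_one_iff`).
`isSquare_mul_iff`: reduce to `w u = w u' = 1`; `two_classes`.
`split_even`: reduce to `w ε = w η = 1` (`split_mul_sq`, `split_comm`).  `O.sum_two` gives `x, y` with `ε x² + η y²` close to `1`, a square `z²` (`isSquare_of_close`), `z ≠ 0` (otherwise `w (0 - 1) < 1`).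
`split_odd_iff`: `u = ε`, `w ε = 1`, `β = π η`, `w η = 1` up to squares.  `←`: `split_of_isSquare`.  `→`: let `ε x² + π η y² = z²`, `(x,y,z) ≠ 0`.  `w (π η y²)` is `0` or an odd power of `2^(-1)`, `w (ε x²)`, `w (z²)` are `0` or even powers, so
`w (ε x²) = w (z²) > w (π η y²)` (ultrametric; if `x = 0` then `z² = π η y²` forces `y = z = 0` by parity).  So `x ≠ 0`, `z ≠ 0` and `t = z²/(ε x²)` satisfies `w (t - 1) = w (π η y²) / w (ε x²) < 1`, `t` is a square, so `ε = z²/(x² t)` is one.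
`split_mul`: four cases by the parity of `ord u`, `ord u'`, and two by the parity of `ord β`.  `β` even: `Split u β` is true for `u` even, and equivalent to `IsSquare β` for `u` odd (`split_comm`, `split_odd_iff`).
`β` odd: `Split u β ↔ IsSquare u` for `u` even, `↔ IsSquare (-(u β))` for `u` odd (`split_twist`), and `isSquare_mul_iff`. -/

namespace FZ

section general

variable {F : Type} [Field F]

theorem split_comm (u β : F) : Split F u β ↔ Split F β u := by
  constructor <;>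
  · rintro ⟨x, y, z, h, e⟩
    exact ⟨y, x, z, fun h' => h ⟨h'.2.1, h'.1, h'.2.2⟩, by linear_combination e⟩

theorem split_mul_sq (u β s : F) (hs : s ≠ 0) : Split F (u * s ^ 2) β ↔ Split F u β := by
  constructor
  · rintro ⟨x, y, z, h, e⟩
    refine ⟨s * x, y, z, fun h' => h ⟨?_, h'.2.1, h'.2.2⟩, by linear_combination e⟩
    exact (mul_eq_zero.1 h'.1).resolve_left hs
  · rintro ⟨x, y, z, h, e⟩
    refine ⟨x / s, y, z, fun h' => h ⟨?_, h'.2.1, h'.2.2⟩, ?_⟩
    · exact (div_eq_zero_iff.1 h'.1).resolve_right hs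
    · rw [← e]
      field_simp

theorem split_of_isSquare (u β : F) (h : IsSquare u) : Split F u β := by
  obtain ⟨s, hs⟩ := h
  exact ⟨1, 0, s, fun h' => one_ne_zero h'.1, by rw [hs]; ring⟩

/-- `(u, β) = (-uβ, β)` -/
theorem split_twist (u β : F) (hβ : β ≠ 0) : Split F u β ↔ Split F (-(u * β)) β := by
  have key : ∀ v : F, Split F v β → Split F (-(v * β)) β := by
    rintro v ⟨x, y, z, h, e⟩
    refine ⟨x, z, β * y, fun h' => h ⟨h'.1, ?_, h'.2.1⟩, by linear_combination (-β) * e⟩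
    exact (mul_eq_zero.1 h'.2.2).resolve_left hβ
  constructor
  · exact key u
  · intro h
    have h1 := key _ h
    have e : -(-(u * β) * β) = u * β ^ 2 := by ring
    rw [e, split_mul_sq _ _ _ hβ] at h1
    exact h1

end general

variable {L : Type} [Field L] (O : OLF L)

private theorem fhilb_w_one : O.w 1 = 1 := (O.w_eq_one_iff 1 one_ne_zero).2 O.ord_one

private theorem fhilb_w_neg_one : O.w (-1) = 1 := by
  have h1 : O.w (-1) * O.w (-1) = 1 := by
    rw [← O.w_mul]
    have e : (-1 : L) * -1 = 1 := by ring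
    rw [e, fhilb_w_one O]
  nlinarith [O.w_nonneg (-1)]

private theorem fhilb_w_neg (x : L) : O.w (-x) = O.w x := by
  have e : -x = (-1) * x := by ring
  rw [e, O.w_mul, fhilb_w_neg_one O, one_mul]

private theorem fhilb_w_pow (x : L) : O.w (x ^ 2) = O.w x ^ 2 := by
  rw [sq, O.w_mul, sq]

private theorem fhilb_w_div (x y : L) (hy : y ≠ 0) : O.w (x / y) = O.w x / O.w y := by
  have hy' : O.w y ≠ 0 := fun h => hy ((O.w_eq_zero y).1 h)
  rw [eq_div_iff hy', ← O.w_mul, div_mul_cancel₀ x hy]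

private theorem fhilb_w_pos (x : L) (hx : x ≠ 0) : 0 < O.w x :=
  lt_of_le_of_ne (O.w_nonneg x) fun h => hx ((O.w_eq_zero x).1 h.symm)

private theorem fhilb_w_pi : O.w O.π = (2 : ℝ)⁻¹ := by
  rw [O.w_eq _ O.π_ne, O.ord_π, zpow_neg, zpow_one]

private theorem fhilb_ord_neg (x : L) (hx : x ≠ 0) : O.ord (-x) = O.ord x := by
  have h1 := fhilb_w_neg O x
  rw [O.w_eq _ (neg_ne_zero.2 hx), O.w_eq x hx] at h1
  have h2 := zpow_right_injective₀ (by norm_num : (0 : ℝ) < 2) (by norm_num) h1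
  simp only [neg_inj] at h2
  exact h2

private theorem fhilb_add_eq (x y : L) (h : O.w y < O.w x) : O.w (x + y) = O.w x := by
  apply le_antisymm
  · exact (O.w_add x y).trans (max_le le_rfl h.le)
  · have h1 := O.w_add (x + y) (-y)
    rw [fhilb_w_neg O] at h1
    have e : x + y + -y = x := by ring
    rw [e] at h1
    rcases le_max_iff.1 h1 with h2 | h2
    · exact h2
    · exact absurd h2 (not_le.2 h)

theorem exists_unit_mul_sq (u : L) (hu : u ≠ 0) (h : Even (O.ord u)) :
    ∃ ε s : L, O.w ε = 1 ∧ s ≠ 0 ∧ u = ε * s ^ 2 := by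
  obtain ⟨k, hk⟩ := h
  have hs : O.π ^ k ≠ 0 := zpow_ne_zero k O.π_ne
  have hs2 : (O.π ^ k) ^ 2 ≠ 0 := pow_ne_zero 2 hs
  have hε : u / (O.π ^ k) ^ 2 ≠ 0 := div_ne_zero hu hs2
  have e : u / (O.π ^ k) ^ 2 * (O.π ^ k) ^ 2 = u := div_mul_cancel₀ u hs2
  refine ⟨u / (O.π ^ k) ^ 2, O.π ^ k, ?_, hs, e.symm⟩
  rw [O.w_eq_one_iff _ hε]
  have h1 := O.ord_mul _ _ hε hs2
  rw [e, O.ord_pow _ hs, O.ord_zpow _ O.π_ne, O.ord_π, hk] at h1
  push_cast at h1
  omega

private theorem fhilb_isSquare_mul_sq (u s : L) (hs : s ≠ 0) : IsSquare (u * s ^ 2) ↔ IsSquare u := by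
  constructor
  · rintro ⟨r, hr⟩
    refine ⟨r / s, ?_⟩
    field_simp
    linear_combination hr
  · rintro ⟨r, hr⟩
    exact ⟨r * s, by rw [hr]; ring⟩

private theorem fhilb_ne (ε : L) (hε : O.w ε = 1) : ε ≠ 0 := by
  rintro rfl
  rw [O.w_zero] at hε
  exact zero_ne_one hε

private theorem fhilb_units (ε η : L) (hε : O.w ε = 1) (hη : O.w η = 1) :
    IsSquare (ε * η) ↔ (IsSquare ε ↔ IsSquare η) := by
  have hε0 := fhilb_ne O ε hε
  have hη0 := fhilb_ne O η hη
  by_cases h1 : IsSquare ε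
  · obtain ⟨r, rfl⟩ := h1
    have hr : r ≠ 0 := by
      rintro rfl
      exact hε0 (by ring)
    have e : r * r * η = η * r ^ 2 := by ring
    rw [e, fhilb_isSquare_mul_sq _ _ hr]
    have h2 : IsSquare (r * r) := ⟨r, rfl⟩
    tauto
  · by_cases h2 : IsSquare η
    · obtain ⟨r, rfl⟩ := h2
      have hr : r ≠ 0 := by
        rintro rfl
        exact hη0 (by ring)
      have e : ε * (r * r) = ε * r ^ 2 := by ring
      rw [e, fhilb_isSquare_mul_sq _ _ hr]
      have h2 : IsSquare (r * r) := ⟨r, rfl⟩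
      tauto
    · have h3 := (O.two_classes ε η hε hη h2).resolve_left h1
      tauto

theorem isSquare_mul_iff (u u' : L) (hu : u ≠ 0) (hu' : u' ≠ 0)
    (h : Even (O.ord u)) (h' : Even (O.ord u')) :
    IsSquare (u * u') ↔ (IsSquare u ↔ IsSquare u') := by
  obtain ⟨ε, s, hε, hs, rfl⟩ := exists_unit_mul_sq O u hu h
  obtain ⟨ε', s', hε', hs', rfl⟩ := exists_unit_mul_sq O u' hu' h'
  have e : ε * s ^ 2 * (ε' * s' ^ 2) = (ε * ε') * (s * s') ^ 2 := by ring
  rw [e, fhilb_isSquare_mul_sq _ _ (mul_ne_zero hs hs'), fhilb_isSquare_mul_sq _ _ hs,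
    fhilb_isSquare_mul_sq _ _ hs']
  exact fhilb_units O ε ε' hε hε'

theorem split_even (u β : L) (hu : u ≠ 0) (hβ : β ≠ 0)
    (h : Even (O.ord u)) (h' : Even (O.ord β)) : Split L u β := by
  obtain ⟨ε, s, hε, hs, rfl⟩ := exists_unit_mul_sq O u hu h
  obtain ⟨η, s', hη, hs', rfl⟩ := exists_unit_mul_sq O β hβ h'
  rw [split_mul_sq _ _ _ hs, split_comm, split_mul_sq _ _ _ hs', split_comm]
  obtain ⟨x, y, hd⟩ := O.sum_two ε η hε hη
  obtain ⟨z, hz⟩ := O.isSquare_of_close _ hd
  refine ⟨x, y, z, ?_, by rw [hz]; ring⟩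
  rintro ⟨h1, h2, -⟩
  rw [h1, h2] at hd
  have e : ε * 0 ^ 2 + η * 0 ^ 2 - 1 = (-1 : L) := by ring
  rw [e, fhilb_w_neg_one O] at hd
  exact lt_irrefl _ hd

private theorem fhilb_parity (x y : L) (hx : x ≠ 0) (hy : y ≠ 0)
    (h : O.w x ^ 2 = (2 : ℝ)⁻¹ * O.w y ^ 2) : False := by
  have h2 : (2 : ℝ) ≠ 0 := by norm_num
  rw [O.w_eq x hx, O.w_eq y hy, ← zpow_neg_one, ← zpow_natCast, ← zpow_mul, ← zpow_natCast,
    ← zpow_mul, ← zpow_add₀ h2] at h
  have h3 := zpow_right_injective₀ (by norm_num : (0 : ℝ) < 2) (by norm_num) h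
  push_cast at h3
  omega

private theorem fhilb_core (ε η : L) (hε : O.w ε = 1) (hη : O.w η = 1)
    (h : Split L ε (O.π * η)) : IsSquare ε := by
  obtain ⟨x, y, z, hne, e⟩ := h
  have hε0 := fhilb_ne O ε hε
  have hη0 := fhilb_ne O η hη
  have n1 : O.w (ε * x ^ 2) = O.w x ^ 2 := by
    rw [O.w_mul, fhilb_w_pow O, hε, one_mul]
  have n2 : O.w (O.π * η * y ^ 2) = (2 : ℝ)⁻¹ * O.w y ^ 2 := by
    rw [O.w_mul, O.w_mul, fhilb_w_pow O, hη, mul_one, fhilb_w_pi O]
  have e' : O.π * η * y ^ 2 = z ^ 2 + -(ε * x ^ 2) := by linear_combination e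
  by_cases hx : x = 0
  · exfalso
    by_cases hy : y = 0
    · apply hne
      refine ⟨hx, hy, ?_⟩
      rw [hx, hy] at e
      have : z ^ 2 = 0 := by rw [← e]; ring
      exact pow_eq_zero_iff two_ne_zero |>.1 this
    · have hz : z ≠ 0 := by
        rintro rfl
        have h0 : O.π * η * y ^ 2 = 0 := by rw [e', hx]; ring
        exact mul_ne_zero (mul_ne_zero O.π_ne hη0) (pow_ne_zero 2 hy) h0
      refine fhilb_parity O z y hz hy ?_
      rw [← n2, e', hx, ← fhilb_w_pow O]
      congr 1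
      ring
  · have hxn : 0 < O.w x := fhilb_w_pos O x hx
    have key : O.w ((z / x) ^ 2 / ε - 1) < 1 := by
      have e1 : (z / x) ^ 2 / ε - 1 = (z ^ 2 + -(ε * x ^ 2)) / (ε * x ^ 2) := by
        field_simp
        ring
      rw [e1, ← e', fhilb_w_div O _ _ (mul_ne_zero hε0 (pow_ne_zero 2 hx)), n1, n2,
        div_lt_one (by positivity)]
      by_contra hcon
      push Not at hcon
      by_cases hy : y = 0
      · rw [hy, O.w_zero] at hcon
        have : (2 : ℝ)⁻¹ * 0 ^ 2 = 0 := by ring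
        rw [this] at hcon
        nlinarith [pow_pos hxn 2]
      · have hyn : 0 < O.w y := fhilb_w_pos O y hy
        have hlt : O.w x ^ 2 < (2 : ℝ)⁻¹ * O.w y ^ 2 :=
          lt_of_le_of_ne hcon fun h => fhilb_parity O x y hx hy h
        have hz2 : O.w (z ^ 2) = (2 : ℝ)⁻¹ * O.w y ^ 2 := by
          have e2 : z ^ 2 = O.π * η * y ^ 2 + ε * x ^ 2 := by linear_combination -e
          rw [e2, fhilb_add_eq O _ _ (by rw [n1, n2]; exact hlt), n2]
        have hz : z ≠ 0 := by
          rintro rfl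
          rw [show (0 : L) ^ 2 = 0 by ring, O.w_zero] at hz2
          have : 0 < (2 : ℝ)⁻¹ * O.w y ^ 2 := by positivity
          exact absurd hz2 this.ne
        rw [fhilb_w_pow O] at hz2
        exact fhilb_parity O z y hz hy hz2
    obtain ⟨r, hr⟩ := O.isSquare_of_close _ key
    have hr0 : r ≠ 0 := by
      rintro rfl
      rw [mul_zero] at hr
      rw [hr, zero_sub, fhilb_w_neg_one O] at key
      exact lt_irrefl _ key
    refine ⟨z / x / r, ?_⟩
    have h3 : (z / x) ^ 2 = r * r * ε := by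
      rw [← hr]
      field_simp
    field_simp
    field_simp at h3
    linear_combination -h3

theorem split_odd_iff (u β : L) (hu : u ≠ 0) (hβ : β ≠ 0)
    (h : Even (O.ord u)) (h' : Odd (O.ord β)) : Split L u β ↔ IsSquare u := by
  constructor
  · obtain ⟨ε, s, hε, hs, rfl⟩ := exists_unit_mul_sq O u hu h
    have hv : Even (O.ord (β / O.π)) := by
      have e : (β / O.π) * O.π = β := div_mul_cancel₀ β O.π_ne
      have e2 := O.ord_mul (β / O.π) O.π (div_ne_zero hβ O.π_ne) O.π_ne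
      rw [e, O.ord_π] at e2
      obtain ⟨k, hk⟩ := h'
      exact ⟨k, by omega⟩
    obtain ⟨η, s', hη, hs', hβe⟩ := exists_unit_mul_sq O (β / O.π) (div_ne_zero hβ O.π_ne) hv
    have hβ' : β = O.π * η * s' ^ 2 := by
      rw [div_eq_iff O.π_ne] at hβe
      rw [hβe]
      ring
    rw [hβ', split_mul_sq _ _ _ hs, split_comm, split_mul_sq _ _ _ hs', split_comm,
      fhilb_isSquare_mul_sq _ _ hs]
    exact fhilb_core O ε η hε hη
  · exact split_of_isSquare u β

include O in
theorem split_mul (u u' β : L) (hu : u ≠ 0) (hu' : u' ≠ 0) (hβ : β ≠ 0) :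
    Split L (u * u') β ↔ (Split L u β ↔ Split L u' β) := by
  have hvu := O.ord_mul u u' hu hu'
  have huu : u * u' ≠ 0 := mul_ne_zero hu hu'
  rcases Int.even_or_odd (O.ord β) with hb | hb
  · have hE : ∀ v : L, v ≠ 0 → Even (O.ord v) → Split L v β :=
      fun v hv h => split_even O v β hv hβ h hb
    have hO : ∀ v : L, v ≠ 0 → Odd (O.ord v) → (Split L v β ↔ IsSquare β) := fun v hv h => by
      rw [split_comm]
      exact split_odd_iff O β v hβ hv hb h
    rcases Int.even_or_odd (O.ord u) with h1 | h1 <;> rcases Int.even_or_odd (O.ord u') with h2 | h2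
    · have := hE u hu h1
      have := hE u' hu' h2
      have := hE (u * u') huu (by rw [hvu]; exact h1.add h2)
      tauto
    · have := hE u hu h1
      have := hO u' hu' h2
      have := hO (u * u') huu (by rw [hvu]; exact h1.add_odd h2)
      tauto
    · have := hO u hu h1
      have := hE u' hu' h2
      have := hO (u * u') huu (by rw [hvu]; exact h1.add_even h2)
      tauto
    · have := hO u hu h1
      have := hO u' hu' h2
      have := hE (u * u') huu (by rw [hvu]; exact h1.add_odd h2)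
      tauto
  · have hE : ∀ v : L, v ≠ 0 → Even (O.ord v) → (Split L v β ↔ IsSquare v) := fun v hv h =>
      split_odd_iff O v β hv hβ h hb
    have hV : ∀ v : L, v ≠ 0 → Odd (O.ord v) → Even (O.ord (-(v * β))) := fun v hv h => by
      rw [fhilb_ord_neg O _ (mul_ne_zero hv hβ), O.ord_mul v β hv hβ]
      exact h.add_odd hb
    have hO : ∀ v : L, v ≠ 0 → Odd (O.ord v) → (Split L v β ↔ IsSquare (-(v * β))) := fun v hv h => by
      rw [split_twist v β hβ]
      exact hE _ (neg_ne_zero.2 (mul_ne_zero hv hβ)) (hV v hv h)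
    have hN : ∀ v : L, v ≠ 0 → -(v * β) ≠ 0 := fun v hv => neg_ne_zero.2 (mul_ne_zero hv hβ)
    rcases Int.even_or_odd (O.ord u) with h1 | h1 <;> rcases Int.even_or_odd (O.ord u') with h2 | h2
    · rw [hE u hu h1, hE u' hu' h2, hE (u * u') huu (by rw [hvu]; exact h1.add h2)]
      exact isSquare_mul_iff O u u' hu hu' h1 h2
    · rw [hE u hu h1, hO u' hu' h2, hO (u * u') huu (by rw [hvu]; exact h1.add_odd h2)]
      rw [← isSquare_mul_iff O u _ hu (hN u' hu') h1 (hV u' hu' h2)]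
      have e : -(u * u' * β) = u * -(u' * β) := by ring
      rw [e]
    · rw [hO u hu h1, hE u' hu' h2, hO (u * u') huu (by rw [hvu]; exact h1.add_even h2)]
      rw [← isSquare_mul_iff O _ u' (hN u hu) hu' (hV u hu h1) h2]
      have e : -(u * u' * β) = -(u * β) * u' := by ring
      rw [e]
    · rw [hO u hu h1, hO u' hu' h2, hE (u * u') huu (by rw [hvu]; exact h1.add_odd h2)]
      rw [← isSquare_mul_iff O _ _ (hN u hu) (hN u' hu') (hV u hu h1) (hV u' hu' h2)]
      have e : -(u * β) * -(u' * β) = u * u' * β ^ 2 := by ring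
      rw [e, fhilb_isSquare_mul_sq _ _ hβ]

end FZ
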