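import Pool.Agent.Lib.MP_1ad228_nt.FF.FEngine
import Pool.Agent.Lib.MP_1ad228_nt.FF.FGlue

/-! JOB FInner.  The inner sum, for a nonempty set `I` of large classes, with the exponent `1/2`.
MODEL (over `ℕ`): `Pool/Agent/Lib/MP_1ad228_ntR/RInner.lean` (itself a variant of `Pool/Agent/Lib/MP_1ad228_nt/ZInner.lean`).

Let `r = card ι`, `m` from `ZC.lin I`, `i(U)` an element of `U` (odd sets are nonempty).
Labels: `L = {ℓ : OddSet ι × Finset (OddSet ι) // ℓ.1 ∈ I ∧ ∃ S, Even (S ∩ ℓ.1.1).card ∧ (I.filter fun U' => Odd (S ∩ U'.1).card) = ℓ.2}`, `Sys` with `idx ℓ = ℓ.1.1`, `St ℓ = ℓ.1.2`, `I = I`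
(`not_mem`: `ℓ.1 ∉ ℓ.2` because `|S ∩ ℓ.1|` is even).
`ok U P := (∀ i, ¬ P ∣ θ U i) ∧ ∀ k ∈ U, jac (a k) P = 1`.
`u ℓ P = if ok (idx ℓ) P then 2^(-(r-1)) * ∑_{S : |S ∩ U| even, St_I S = ℓ.2} (∏_{i∈S} θ U i / P) else 0`, `h U P = if (∀ k ∈ U, jac (a k) P = 1) then 2^(-m) else 0`.
* `|u ℓ P| ≤ 2^(-(r-1)) * 2^(r-1-m) = 2^(-m)` and it is `0` when `h = 0`.
* For a prime `P ∣ e U` (`e ∈ Box`, so `P ∤ e U'` for `U' ≠ U`), with `Y_S = (∏_{i∈S} θ U i · ∏_{U'∈I, |S∩U'| odd} e U' / P)` for `|S ∩ U|` even: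
  `∑_{ℓ : idx = U} u ℓ P ∏_{U'∈St ℓ} (e U'/P) = if ok U P then 2^(-(r-1)) ∑_{S, |S∩U| even} Y_S else 0`.
  When `ok U P`, all `Y_S = ±1` and `Y_S Y_{S'} = Y_{S ∆ S'}` so the sum over this group of `2^(r-1)` sets `S` is `2^(r-1)` (all `Y_S = 1`) or `0`.  So the local factor is `≥ 0`, and `= 1` if the conditions of the statement hold at `P`.
* Hence the count is at most the sum in `engine` (for `U ∉ I` the product over `P ∣ e U = 1` is empty; other vectors contribute `≥ 0`; note: for `U ∉ I` and `e U ≠ 1` the factor is `0`).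
* `∑_{U∈I} h U P ≤ W P := ∑_{U ∈ I} 2^(-m) (1 + jac (a (i U)) P)/2`, an `EB` weight with `c = 1/2` by `eb_of_chars` (`∑ 2^(-m) = 2^(-m) |I| ≤ 1`), `charB_jac` with `B = 1 + ∑ deg a_i` (`CharB` is monotone in `B`: prove a small lemma). -/

namespace FZ

open Finset Polynomial

open ZC (OddSet)

section aux

variable {ι : Type} [Fintype ι] [DecidableEq ι]

private def evS (U : OddSet ι) : Finset (Finset ι) := univ.filter fun S => Even (S ∩ U.1).card

private def stI (I : Finset (OddSet ι)) (S : Finset ι) : Finset (OddSet ι) :=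
  I.filter fun U' => Odd (S ∩ U'.1).card

private theorem mem_evS {U : OddSet ι} {S : Finset ι} : S ∈ evS U ↔ Even (S ∩ U.1).card := by
  simp [evS]

omit [Fintype ι] in
private theorem card_symm (A B : Finset ι) : (symmDiff A B).card + 2 * (A ∩ B).card = A.card + B.card := by
  have h1 : (symmDiff A B).card = (A \ B).card + (B \ A).card := by
    rw [symmDiff_def, sup_eq_union, Finset.card_union_of_disjoint]
    exact disjoint_sdiff_sdiff
  have h2 := Finset.card_sdiff_add_card_inter A B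
  have h3 := Finset.card_sdiff_add_card_inter B A
  rw [Finset.inter_comm B A] at h3
  omega

omit [Fintype ι] in
private theorem inter_symm (S T U : Finset ι) : symmDiff S T ∩ U = symmDiff (S ∩ U) (T ∩ U) := by
  ext x
  simp only [Finset.mem_inter, Finset.mem_symmDiff]
  tauto

omit [Fintype ι] in
private theorem odd_symm (S T U : Finset ι) :
    Odd (symmDiff S T ∩ U).card ↔ ¬ (Odd (S ∩ U).card ↔ Odd (T ∩ U).card) := by
  have h := card_symm (S ∩ U) (T ∩ U)
  rw [← inter_symm] at h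
  rw [Nat.odd_iff, Nat.odd_iff, Nat.odd_iff]
  omega

private theorem evS_symm {U : OddSet ι} {S T : Finset ι} (hS : S ∈ evS U) (hT : T ∈ evS U) :
    symmDiff S T ∈ evS U := by
  rw [mem_evS] at *
  rw [← Nat.not_odd_iff_even] at *
  rw [odd_symm]
  tauto

private theorem stI_symm (I : Finset (OddSet ι)) (S T : Finset ι) :
    stI I (symmDiff S T) = symmDiff (stI I S) (stI I T) := by
  ext U
  simp only [stI, Finset.mem_filter, Finset.mem_symmDiff, odd_symm]
  tauto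

private theorem card_evS (U : OddSet ι) : (evS U).card = 2 ^ (Fintype.card ι - 1) := by
  obtain ⟨x, hx⟩ : U.1.Nonempty := by
    rw [Finset.nonempty_iff_ne_empty]
    intro h
    have := U.2
    rw [h] at this
    simp at this
  have hpos : 0 < Fintype.card ι := Fintype.card_pos_iff.2 ⟨x⟩
  have hxU : (({x} : Finset ι) ∩ U.1).card = 1 := by
    rw [Finset.inter_eq_left.2 (Finset.singleton_subset_iff.2 hx), Finset.card_singleton]
  have h1 : (evS U).card = (univ.filter fun S : Finset ι => ¬ Even (S ∩ U.1).card).card := by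
    refine Finset.card_bij' (fun S _ => symmDiff S {x}) (fun S _ => symmDiff S {x}) ?_ ?_ ?_ ?_
    · intro S hS
      rw [mem_evS] at hS
      rw [Finset.mem_filter]
      refine ⟨Finset.mem_univ _, ?_⟩
      rw [Nat.not_even_iff_odd, odd_symm, hxU]
      rw [← Nat.not_odd_iff_even] at hS
      have : Odd 1 := odd_one
      tauto
    · intro S hS
      rw [Finset.mem_filter, Nat.not_even_iff_odd] at hS
      rw [mem_evS, ← Nat.not_odd_iff_even, odd_symm, hxU]
      have : Odd 1 := odd_one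
      tauto
    · intro S _
      rw [symmDiff_symmDiff_cancel_right]
    · intro S _
      rw [symmDiff_symmDiff_cancel_right]
  have h2 : (evS U).card + (univ.filter fun S : Finset ι => ¬ Even (S ∩ U.1).card).card =
      2 ^ Fintype.card ι := by
    rw [evS, Finset.card_filter_add_card_filter_not, Finset.card_univ, Fintype.card_finset]
  obtain ⟨n, hn⟩ := Nat.exists_eq_succ_of_ne_zero hpos.ne'
  rw [hn] at h2 ⊢
  rw [← h1, pow_succ] at h2
  simp only [Nat.succ_eq_add_one, Nat.add_sub_cancel]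
  omega

/-- the labels -/
abbrev FInnerLab (I : Finset (OddSet ι)) :=
  {ℓ : OddSet ι × Finset (OddSet ι) // ℓ.1 ∈ I ∧ ∃ S : Finset ι, Even (S ∩ ℓ.1.1).card ∧
    (I.filter fun U' => Odd (S ∩ U'.1).card) = ℓ.2}

/-- the label system -/
def FInner_sys (I : Finset (OddSet ι)) : Sys (OddSet ι) (FInnerLab I) where
  idx ℓ := ℓ.1.1
  St ℓ := ℓ.1.2
  I := I
  idx_mem ℓ := ℓ.2.1
  St_sub ℓ := by
    obtain ⟨S, -, hS⟩ := ℓ.2.2
    rw [← hS]
    exact Finset.filter_subset _ _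
  not_mem ℓ h := by
    obtain ⟨S, hS, hS'⟩ := ℓ.2.2
    rw [← hS'] at h
    exact (Nat.not_odd_iff_even.2 hS) (Finset.mem_filter.1 h).2
  inj _ _ h1 h2 := Subtype.ext (Prod.ext h1 h2)

private theorem label_sum (I : Finset (OddSet ι)) (U : OddSet ι) (hU : U ∈ I)
    [Fintype (FInnerLab I)] (F : Finset ι → ℝ) (W : Finset (OddSet ι) → ℝ) :
    ∑ ℓ : FInnerLab I with (FInner_sys I).idx ℓ = U,
      (∑ S ∈ evS U with stI I S = (FInner_sys I).St ℓ, F S) * W ((FInner_sys I).St ℓ) =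
    ∑ S ∈ evS U, F S * W (stI I S) := by
  rw [← Finset.sum_fiberwise_of_maps_to (s := evS U) (t := (evS U).image (stI I)) (g := stI I)
    (fun S hS => Finset.mem_image_of_mem _ hS)]
  refine Finset.sum_bij' (fun ℓ _ => ℓ.1.2)
    (fun A hA => ⟨(U, A), hU, by
      obtain ⟨S, hS, hS'⟩ := Finset.mem_image.1 hA
      exact ⟨S, mem_evS.1 hS, hS'⟩⟩) ?_ ?_ ?_ ?_ ?_
  · rintro ⟨⟨V, A⟩, h1, S, hS, hS'⟩ h
    have h' : V = U := (Finset.mem_filter.1 h).2
    subst h'
    exact Finset.mem_image.2 ⟨S, mem_evS.2 hS, hS'⟩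
  · intro A hA
    exact Finset.mem_filter.2 ⟨Finset.mem_univ _, rfl⟩
  · rintro ⟨⟨V, A⟩, h1, h2⟩ h
    have h' : V = U := (Finset.mem_filter.1 h).2
    subst h'
    rfl
  · intro A hA
    rfl
  · intro ℓ _
    rw [Finset.sum_mul]
    refine Finset.sum_congr rfl fun S hS => ?_
    rw [(Finset.mem_filter.1 hS).2]
    rfl


variable {F : Type} [Field F] [Fintype F] [DecidableEq F]

private theorem jac_ne {P : F[X]} (hm : P.Monic) (hP : Irreducible P) {n : F[X]} (h : ¬ P ∣ n) :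
    jac n P = 1 ∨ jac n P = -1 := by
  rcases jac_cases n P with h1 | h1
  · exfalso
    have h2 : IsCoprime n P := ((hP.coprime_iff_not_dvd).2 h).symm
    exact (jac_ne_zero_iff hm n).2 h2 h1
  · exact h1

private theorem prod_symm {κ : Type} [DecidableEq κ] (A B : Finset κ) (y : κ → ℤ)
    (h : ∀ x ∈ A ∩ B, y x = 1 ∨ y x = -1) :
    ∏ x ∈ symmDiff A B, y x = (∏ x ∈ A, y x) * ∏ x ∈ B, y x := by
  have h1 : ∏ x ∈ symmDiff A B, y x = (∏ x ∈ A \ B, y x) * ∏ x ∈ B \ A, y x := by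
    rw [symmDiff_def, sup_eq_union, Finset.prod_union]
    exact disjoint_sdiff_sdiff
  have h2 : ∏ x ∈ A, y x = (∏ x ∈ A \ B, y x) * ∏ x ∈ A ∩ B, y x := by
    rw [← Finset.prod_union (Finset.disjoint_sdiff_inter A B), Finset.sdiff_union_inter]
  have h3 : ∏ x ∈ B, y x = (∏ x ∈ B \ A, y x) * ∏ x ∈ A ∩ B, y x := by
    rw [Finset.inter_comm A B, ← Finset.prod_union (Finset.disjoint_sdiff_inter B A),
      Finset.sdiff_union_inter]
  have h4 : (∏ x ∈ A ∩ B, y x) * ∏ x ∈ A ∩ B, y x = 1 := by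
    rw [← Finset.prod_mul_distrib]
    refine Finset.prod_eq_one fun x hx => ?_
    rcases h x hx with h | h <;> rw [h] <;> norm_num
  rw [h1, h2, h3]
  linear_combination (-(∏ x ∈ A \ B, y x) * ∏ x ∈ B \ A, y x) * h4

/-- the local character -/
private noncomputable def YY (I : Finset (OddSet ι)) (θ : ι → F[X]) (e : OddSet ι → F[X]) (P : F[X])
    (S : Finset ι) : ℤ :=
  jac (∏ i ∈ S, θ i) P * ∏ U' ∈ stI I S, jac (e U') P

private theorem YY_pm (I : Finset (OddSet ι)) (U : OddSet ι) (θ : ι → F[X]) (e : OddSet ι → F[X])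
    {P : F[X]} (hm : P.Monic) (hP : Irreducible P) (hθ : ∀ i, ¬ P ∣ θ i)
    (he : ∀ U', U' ≠ U → ¬ P ∣ e U') {S : Finset ι}
    (hS : S ∈ evS U) : YY I θ e P S = 1 ∨ YY I θ e P S = -1 := by
  have key : ∀ {κ : Type} (A : Finset κ) (y : κ → ℤ), (∀ x ∈ A, y x = 1 ∨ y x = -1) →
      ∏ x ∈ A, y x = 1 ∨ ∏ x ∈ A, y x = -1 := by
    intro κ A y h
    classical
    induction A using Finset.induction_on with
    | empty => simp
    | insert a s ha ih =>
      rw [Finset.prod_insert ha]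
      rcases h a (Finset.mem_insert_self a s) with h1 | h1 <;>
        rcases ih (fun x hx => h x (Finset.mem_insert_of_mem hx)) with h2 | h2 <;>
        rw [h1, h2] <;> norm_num
  have h1 := key S (fun i => jac (θ i) P) fun i _ => jac_ne hm hP (hθ i)
  have h2 := key (stI I S) (fun U' => jac (e U') P) fun U' hU' => by
    refine jac_ne hm hP ?_
    refine he U' ?_
    rintro rfl
    exact (Nat.not_odd_iff_even.2 (mem_evS.1 hS)) (Finset.mem_filter.1 hU').2
  unfold YY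
  rw [jac_prod_left _ _ hm]
  rcases h1 with h1 | h1 <;> rcases h2 with h2 | h2 <;> rw [h1, h2] <;> norm_num

private theorem YY_symm (I : Finset (OddSet ι)) (U : OddSet ι) (θ : ι → F[X]) (e : OddSet ι → F[X])
    {P : F[X]} (hm : P.Monic) (hP : Irreducible P) (hθ : ∀ i, ¬ P ∣ θ i)
    (he : ∀ U', U' ≠ U → ¬ P ∣ e U') {S T : Finset ι}
    (hS : S ∈ evS U) (_hT : T ∈ evS U) :
    YY I θ e P (symmDiff S T) = YY I θ e P S * YY I θ e P T := by
  unfold YY
  rw [stI_symm, jac_prod_left _ _ hm, jac_prod_left _ _ hm, jac_prod_left _ _ hm, prod_symm,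
    prod_symm]
  · ring
  · intro U' hU'
    refine jac_ne hm hP ?_
    refine he U' ?_
    rintro rfl
    have := (Finset.mem_inter.1 hU').1
    exact (Nat.not_odd_iff_even.2 (mem_evS.1 hS)) (Finset.mem_filter.1 this).2
  · intro i _
    exact jac_ne hm hP (hθ i)

private theorem YY_sum_nonneg (I : Finset (OddSet ι)) (U : OddSet ι) (θ : ι → F[X])
    (e : OddSet ι → F[X]) {P : F[X]} (hm : P.Monic) (hP : Irreducible P) (hθ : ∀ i, ¬ P ∣ θ i)
    (he : ∀ U', U' ≠ U → ¬ P ∣ e U') :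
    0 ≤ ∑ S ∈ evS U, YY I θ e P S := by
  by_cases h : ∃ T ∈ evS U, YY I θ e P T = -1
  · obtain ⟨T, hT, hT1⟩ := h
    have h1 : ∑ S ∈ evS U, YY I θ e P S = ∑ S ∈ evS U, -YY I θ e P S := by
      refine Finset.sum_bij' (fun S _ => symmDiff S T) (fun S _ => symmDiff S T) ?_ ?_ ?_ ?_ ?_
      · intro S hS
        exact evS_symm hS hT
      · intro S hS
        exact evS_symm hS hT
      · intro S _
        rw [symmDiff_symmDiff_cancel_right]
      · intro S _
        rw [symmDiff_symmDiff_cancel_right]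
      · intro S hS
        rw [YY_symm I U θ e hm hP hθ he hS hT, hT1]
        ring
    rw [Finset.sum_neg_distrib] at h1
    omega
  · refine Finset.sum_nonneg fun S hS => ?_
    rcases YY_pm I U θ e hm hP hθ he hS with h1 | h1
    · rw [h1]; norm_num
    · exact absurd ⟨S, hS, h1⟩ h

omit [DecidableEq F] in
private theorem FInner_charB_mono {χ : F[X] → ℝ} {B B' : ℝ} (h : CharB χ B) (hB : B ≤ B') :
    CharB χ B' :=
  ⟨h.one, h.mul, h.le, h.hB.trans hB, fun x h0 h1 M => (h.bound x h0 h1 M).trans hB⟩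

omit [DecidableEq F] in
private theorem FInner_cop {n : ℕ} {e : OddSet ι → F[X]} (he : e ∈ Box F (OddSet ι) n)
    {U U' : OddSet ι} (hne : U' ≠ U) {P : F[X]} (hP : Irreducible P) (h1 : P ∣ e U) :
    ¬ P ∣ e U' := by
  intro h2
  have hsqf : Squarefree (∏ U, e U) := ((mem_Box F).1 he).2.2
  have h3 : P * P ∣ ∏ U, e U := by
    have h4 : e U * e U' ∣ ∏ U, e U := by
      rw [← Finset.mul_prod_erase univ e (Finset.mem_univ U)]
      exact mul_dvd_mul_left _ (Finset.dvd_prod_of_mem e (Finset.mem_erase.2 ⟨hne, Finset.mem_univ _⟩))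
    exact (mul_dvd_mul h1 h2).trans h4
  exact hP.not_isUnit (hsqf P h3)

end aux

open Classical in
theorem innerF (F : Type) [Field F] [Fintype F] [DecidableEq F] (h2 : ringChar F ≠ 2)
    {ι : Type} [Fintype ι] [DecidableEq ι] (I : Finset (OddSet ι)) (hI : I.Nonempty) (a : ι → F[X])
    (hsq : ∀ i, ¬ IsSquare (a i)) :
    ∃ (C : ℝ) (K : ℕ), 0 < C ∧ ∀ (θ : OddSet ι → ι → F[X]) (v t n : ℕ),
    K * v ≤ t → K * v ≤ n → 1 ≤ n →
    (((Box F (OddSet ι) n).filter fun e => (∀ U ∉ I, e U = 1) ∧ (∀ U ∈ I, t < (e U).natDegree) ∧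
        (∀ U ∈ I, ∀ P : F[X], P.Monic → Irreducible P → P ∣ e U →
          (∀ i, ¬ P ∣ θ U i) ∧ (∀ k ∈ U.1, jac (a k) P = 1) ∧
          ∀ S : Finset ι, Even (S ∩ U.1).card →
            jac ((∏ i ∈ S, θ U i) * ∏ U' ∈ I with Odd (S ∩ U'.1).card, e U') P = 1)).card : ℝ) ≤
      C * (Fintype.card F : ℝ) ^ n * (((n : ℝ) + 1) ^ K * (Fintype.card F : ℝ) ^ (-(v : ℝ) / 4) +
        (n : ℝ) ^ (-(1 / 2) : ℝ) * ((v : ℝ) + 1) ^ K) := by
  obtain ⟨m, hm1, hm2, hm3, -⟩ := ZC.lin I hI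
  have hne : ∀ U : OddSet ι, U.1.Nonempty := by
    intro U
    rw [Finset.nonempty_iff_ne_empty]
    intro h
    have := U.2
    rw [h] at this
    simp at this
  choose iU hiU using hne
  obtain ⟨B, hB⟩ : ∃ B : ℝ, B = 1 + ∑ U ∈ I, ((a (iU U)).natDegree : ℝ) := ⟨_, rfl⟩
  have hB1 : 1 ≤ B := by
    have : 0 ≤ ∑ U ∈ I, ((a (iU U)).natDegree : ℝ) :=
      Finset.sum_nonneg fun U _ => Nat.cast_nonneg _
    linarith
  have hχ : ∀ U ∈ I, CharB (fun f => (jac (a (iU U)) f : ℝ)) B := by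
    intro U hU
    refine FInner_charB_mono (charB_jac h2 (a (iU U)) (hsq _)) ?_
    have := Finset.single_le_sum (f := fun U => ((a (iU U)).natDegree : ℝ))
      (fun U _ => Nat.cast_nonneg _) hU
    rw [hB]
    linarith
  have hEB := eb_of_chars I (fun _ => ((1 : ℝ) / 2) ^ m) (fun _ _ => by positivity) (by
    rw [Finset.sum_const, nsmul_eq_mul]
    have hIc : (I.card : ℝ) ≤ 2 ^ m := by exact_mod_cast hm3
    have h2m : ((1 : ℝ) / 2) ^ m * 2 ^ m = 1 := by rw [← mul_pow]; norm_num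
    calc (I.card : ℝ) * (1 / 2) ^ m ≤ 2 ^ m * (1 / 2) ^ m := by gcongr
      _ = 1 := by rw [mul_comm, h2m]) (fun U f => (jac (a (iU U)) f : ℝ)) B hB1 hχ
  obtain ⟨C, K, hC, hE⟩ := engine (FInner_sys I) (1 / 2) (by norm_num) (by norm_num)
  refine ⟨C * B, K, by positivity, ?_⟩
  intro θ v t n hvt hvn hn
  obtain ⟨r, hr⟩ : ∃ r, r = Fintype.card ι := ⟨_, rfl⟩
  obtain ⟨c, hc⟩ : ∃ c : ℝ, c = (1 / 2) ^ (r - 1) := ⟨_, rfl⟩
  have hc0 : 0 < c := by rw [hc]; positivity
  rw [← hr] at hm1 hm2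
  -- the weights
  obtain ⟨ok, hok⟩ : ∃ ok : OddSet ι → F[X] → Prop, ok = fun U P =>
    (∀ i, ¬ P ∣ θ U i) ∧ ∀ k ∈ U.1, jac (a k) P = 1 := ⟨_, rfl⟩
  obtain ⟨u, hu⟩ : ∃ u : FInnerLab I → F[X] → ℝ, u = fun ℓ P =>
    if ok ((FInner_sys I).idx ℓ) P then
      c * ∑ S ∈ evS ((FInner_sys I).idx ℓ) with stI I S = (FInner_sys I).St ℓ,
        (jac (∏ i ∈ S, θ ((FInner_sys I).idx ℓ) i) P : ℝ) else 0 := ⟨_, rfl⟩
  obtain ⟨h, hh⟩ : ∃ h : OddSet ι → F[X] → ℝ, h = fun U P =>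
    if ∀ k ∈ U.1, jac (a k) P = 1 then (1 / 2) ^ m else 0 := ⟨_, rfl⟩
  have hh0 : ∀ U P, 0 ≤ h U P := by
    intro U P
    simp only [hh]
    split_ifs <;> positivity
  have hpow : c * 2 ^ (r - 1 - m) = (1 / 2) ^ m := by
    have e1 : r - 1 = (r - 1 - m) + m := by omega
    rw [hc]
    conv_lhs => rw [e1]
    rw [show r - 1 - m + m - m = r - 1 - m by omega, pow_add]
    have e2 : ((1 : ℝ) / 2) ^ (r - 1 - m) * 2 ^ (r - 1 - m) = 1 := by
      rw [← mul_pow]; norm_num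
    linear_combination ((1 : ℝ) / 2) ^ m * e2
  have hu_abs : ∀ ℓ P, |u ℓ P| ≤ h ((FInner_sys I).idx ℓ) P := by
    intro ℓ P
    simp only [hu]
    split_ifs with h1
    · have h2 : h ((FInner_sys I).idx ℓ) P = (1 / 2) ^ m := by
        rw [hok] at h1
        simp only [hh]
        rw [if_pos h1.2]
      rw [h2, abs_mul, abs_of_pos hc0, ← hpow]
      refine mul_le_mul_of_nonneg_left ?_ hc0.le
      refine (Finset.abs_sum_le_sum_abs _ _).trans ?_
      refine (Finset.sum_le_card_nsmul _ _ 1 fun S _ => jac_abs_le _ _).trans ?_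
      rw [nsmul_eq_mul, mul_one]
      have h3 := hm2 ((FInner_sys I).idx ℓ) ((FInner_sys I).idx_mem ℓ) ((FInner_sys I).St ℓ)
      have h4 : ((evS ((FInner_sys I).idx ℓ)).filter fun S => stI I S = (FInner_sys I).St ℓ) =
          ((univ : Finset (Finset ι)).filter fun S => Even (S ∩ ((FInner_sys I).idx ℓ).1).card ∧
          (I.filter fun U' => Odd (S ∩ U'.1).card) = (FInner_sys I).St ℓ) := by
        rw [evS, Finset.filter_filter]
        rfl
      rw [h4]
      exact_mod_cast h3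
    · rw [abs_zero]
      exact hh0 _ _
  have hh1 : ∀ U P, h U P ≤ 1 := by
    intro U P
    simp only [hh]
    split_ifs
    · exact pow_le_one₀ (by norm_num) (by norm_num)
    · norm_num
  have hsum : ∀ P : F[X], P.Monic → Irreducible P → ∑ U ∈ I, h U P ≤
      (fun P => ∑ U ∈ I, (fun _ => ((1 : ℝ) / 2) ^ m) U *
        ((1 + (fun U f => (jac (a (iU U)) f : ℝ)) U P) / 2)) P := by
    intro P _ _
    refine Finset.sum_le_sum fun U hU => ?_
    have hle := abs_le.1 ((hχ U hU).le P)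
    simp only [hh]
    split_ifs with h1
    · rw [h1 _ (hiU U)]
      norm_num
    · exact mul_nonneg (by positivity) (by linarith)
  -- the local factors
  have hval : ∀ (e : OddSet ι → F[X]) (U : OddSet ι), U ∈ I → ∀ P,
      ∑ ℓ with (FInner_sys I).idx ℓ = U,
        u ℓ P * ∏ j ∈ (FInner_sys I).St ℓ, (jac (e j) P : ℝ) =
      if ok U P then c * ((∑ S ∈ evS U, YY I (θ U) e P S : ℤ) : ℝ) else 0 := by
    intro e U hU P
    have h1 : ∑ ℓ with (FInner_sys I).idx ℓ = U,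
        u ℓ P * ∏ j ∈ (FInner_sys I).St ℓ, (jac (e j) P : ℝ) =
        (if ok U P then c else 0) * ∑ ℓ : FInnerLab I with (FInner_sys I).idx ℓ = U,
          (∑ S ∈ evS U with stI I S = (FInner_sys I).St ℓ, (jac (∏ i ∈ S, θ U i) P : ℝ)) *
            (fun A : Finset (OddSet ι) => ∏ j ∈ A, (jac (e j) P : ℝ)) ((FInner_sys I).St ℓ) := by
      rw [Finset.mul_sum]
      refine Finset.sum_congr rfl fun ℓ hℓ => ?_
      have hℓ' : (FInner_sys I).idx ℓ = U := (Finset.mem_filter.1 hℓ).2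
      simp only [hu, hℓ']
      split_ifs
      · ring
      · simp
    rw [h1, label_sum I U hU (fun S => (jac (∏ i ∈ S, θ U i) P : ℝ))
      (fun A : Finset (OddSet ι) => ∏ j ∈ A, (jac (e j) P : ℝ))]
    have h2 : ∑ S ∈ evS U, (jac (∏ i ∈ S, θ U i) P : ℝ) * ∏ j ∈ stI I S, (jac (e j) P : ℝ) =
        ((∑ S ∈ evS U, YY I (θ U) e P S : ℤ) : ℝ) := by
      push_cast [YY]
      rfl
    rw [h2]
    split_ifs <;> ring
  have hmem : ∀ e ∈ Box F (OddSet ι) n, ∀ U, ∀ P ∈ pfac (e U), P.Monic ∧ Irreducible P ∧ P ∣ e U :=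
    fun e he U P hP => (mem_pfac (((mem_Box F).1 he).1 U).ne_zero).1 hP
  have hnn : ∀ e ∈ Box F (OddSet ι) n, 0 ≤ ∏ U, ∏ P ∈ pfac (e U),
      ∑ ℓ with (FInner_sys I).idx ℓ = U,
        u ℓ P * ∏ j ∈ (FInner_sys I).St ℓ, (jac (e j) P : ℝ) := by
    intro e he
    refine Finset.prod_nonneg fun U _ => Finset.prod_nonneg fun P hP => ?_
    obtain ⟨hPm, hPi, hPd⟩ := hmem e he U P hP
    by_cases hU : U ∈ I
    · rw [hval e U hU]
      split_ifs with h1
      · refine mul_nonneg hc0.le ?_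
        rw [hok] at h1
        have := YY_sum_nonneg I U (θ U) e hPm hPi h1.1
          (fun U' hU' => FInner_cop he hU' hPi hPd)
        exact_mod_cast this
      · exact le_rfl
    · rw [Finset.filter_eq_empty_iff.2, Finset.sum_empty]
      rintro ⟨⟨V, A⟩, h1, h2⟩ _ h3
      simp only [FInner_sys] at h3
      subst h3
      exact hU h1
  have key := hE F h2 u h _ B v t n hEB
    (fun ℓ P => (hu_abs ℓ P).trans (hh1 _ _)) (fun ℓ P _ _ => hu_abs ℓ P) hh0 hsum hvt hvn hn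
  refine le_trans ?_ (key.trans ?_)
  · refine le_trans ?_ (le_abs_self _)
    rw [Finset.card_eq_sum_ones, Nat.cast_sum]
    refine le_trans ?_ (Finset.sum_le_sum_of_subset_of_nonneg (s :=
      (Box F (OddSet ι) n).filter fun e => (∀ U ∉ I, e U = 1) ∧ (∀ U ∈ I, t < (e U).natDegree) ∧
        (∀ U ∈ I, ∀ P : F[X], P.Monic → Irreducible P → P ∣ e U →
          (∀ i, ¬ P ∣ θ U i) ∧ (∀ k ∈ U.1, jac (a k) P = 1) ∧
          ∀ S : Finset ι, Even (S ∩ U.1).card →
            jac ((∏ i ∈ S, θ U i) * ∏ U' ∈ I with Odd (S ∩ U'.1).card, e U') P = 1))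
      ?_ (fun e he _ => hnn e (Finset.mem_filter.1 he).1))
    · refine Finset.sum_le_sum fun e he => ?_
      obtain ⟨heB, hoff, hlarge, hloc⟩ := Finset.mem_filter.1 he
      push_cast
      refine le_of_eq ?_
      symm
      refine Finset.prod_eq_one fun U _ => ?_
      by_cases hU : U ∈ I
      · refine Finset.prod_eq_one fun P hP => ?_
        obtain ⟨hPm, hPi, hPd⟩ := hmem e heB U P hP
        obtain ⟨hl1, hl2, hl3⟩ := hloc U hU P hPm hPi hPd
        rw [hval e U hU, if_pos]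
        · have h1 : ∀ S ∈ evS U, YY I (θ U) e P S = 1 := by
            intro S hS
            have h2 := hl3 S (mem_evS.1 hS)
            rw [jac_mul_left hPm, jac_prod_left _ _ hPm, jac_prod_left _ _ hPm] at h2
            unfold YY
            rw [jac_prod_left _ _ hPm, ← h2]
            rfl
          rw [Finset.sum_congr rfl h1, Finset.sum_const, card_evS, nsmul_eq_mul, mul_one, hc, hr]
          push_cast
          rw [← mul_pow]
          norm_num
        · rw [hok]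
          exact ⟨hl1, hl2⟩
      · rw [hoff U hU, pfac_one]
        simp
    · intro e he
      simp only [Finset.mem_filter] at he ⊢
      exact ⟨he.1, he.2.2.1⟩
  · have hq0 : (0 : ℝ) ≤ (Fintype.card F : ℝ) ^ n := by positivity
    have t1 : 0 ≤ ((n : ℝ) + 1) ^ K * (Fintype.card F : ℝ) ^ (-(v : ℝ) / 4) := by positivity
    have t2 : 0 ≤ (n : ℝ) ^ (-(1 / 2) : ℝ) * ((v : ℝ) + 1) ^ K := by positivity
    have t4 : ((1 : ℝ) / 2 - 1) = -(1 / 2) := by norm_num
    rw [t4]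
    have t3 : ((n : ℝ) + 1) ^ K * (Fintype.card F : ℝ) ^ (-(v : ℝ) / 4) +
        (n : ℝ) ^ (-(1 / 2) : ℝ) * B * ((v : ℝ) + 1) ^ K ≤
        B * (((n : ℝ) + 1) ^ K * (Fintype.card F : ℝ) ^ (-(v : ℝ) / 4) +
        (n : ℝ) ^ (-(1 / 2) : ℝ) * ((v : ℝ) + 1) ^ K) := by
      have := mul_le_mul_of_nonneg_right hB1 t1
      linarith
    calc C * (Fintype.card F : ℝ) ^ n * (((n : ℝ) + 1) ^ K * (Fintype.card F : ℝ) ^ (-(v : ℝ) / 4) +
        (n : ℝ) ^ (-(1 / 2) : ℝ) * B * ((v : ℝ) + 1) ^ K)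
        ≤ C * (Fintype.card F : ℝ) ^ n * (B * (((n : ℝ) + 1) ^ K *
          (Fintype.card F : ℝ) ^ (-(v : ℝ) / 4) +
        (n : ℝ) ^ (-(1 / 2) : ℝ) * ((v : ℝ) + 1) ^ K)) := by gcongr
      _ = _ := by ring

end FZ
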