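import Pool.Agent.Lib.MP_1ad228_nt.FF.FDefs
import Pool.Agent.Lib.MP_1ad228_nt.ZLin

/-! MP_1ad228_nt, function field case.  The abstract form of the local fields, and basic facts on points and cycles. -/

namespace FZ

open Finset Polynomial

/-- The absolute value of a finite extension `K` of the field `L` with absolute value `w`, with the properties we use. -/
structure LVal (L : Type) [Field L] (w : L → ℝ) (K : Type) [Field K] [Algebra L K] where
  v : K → ℝ
  nonneg : ∀ x, 0 ≤ v x
  zero_iff : ∀ x, v x = 0 ↔ x = 0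
  mul : ∀ x y, v (x * y) = v x * v y
  add : ∀ x y, v (x + y) ≤ max (v x) (v y)
  ext : ∀ c : L, v (algebraMap L K c) = w c
  norm : ∀ x, w (Algebra.norm L x) = v x ^ Module.finrank L K
  one_unit : ∀ x, v (x - 1) < 1 → IsSquare x
  two_classes : ∀ u c, v u = 1 → v c = 1 → ¬ IsSquare c → IsSquare u ∨ IsSquare (u * c)

/-- A complete discretely valued field `L` with finite residue field of odd order, in the form in which we use it:
`ord` is the normalised valuation (with some value at `0`), `w = 2^(-ord)` the absolute value. -/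
structure OLF (L : Type) [Field L] where
  ord : L → ℤ
  w : L → ℝ
  w_zero : w 0 = 0
  w_eq : ∀ x, x ≠ 0 → w x = (2 : ℝ) ^ (-ord x)
  π : L
  π_ne : π ≠ 0
  ord_π : ord π = 1
  two : w 2 = 1
  ext : ∀ (K : Type) [Field K] [Algebra L K] [FiniteDimensional L K], Nonempty (LVal L w K)
  sum_two : ∀ u c, w u = 1 → w c = 1 → ∃ x y, w (u * x ^ 2 + c * y ^ 2 - 1) < 1

namespace OLF

variable {L : Type} [Field L] (O : OLF L)

/-- the absolute value of `L` itself has all the properties of `LVal` -/
theorem self : ∃ V : LVal L O.w L, V.v = O.w := by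
  obtain ⟨V⟩ := O.ext L
  exact ⟨V, funext fun c => V.ext c⟩

theorem w_nonneg (x : L) : 0 ≤ O.w x := by
  obtain ⟨V, hV⟩ := O.self
  rw [← hV]; exact V.nonneg x

theorem w_eq_zero (x : L) : O.w x = 0 ↔ x = 0 := by
  obtain ⟨V, hV⟩ := O.self
  rw [← hV]; exact V.zero_iff x

theorem w_mul (x y : L) : O.w (x * y) = O.w x * O.w y := by
  obtain ⟨V, hV⟩ := O.self
  rw [← hV]; exact V.mul x y

theorem w_add (x y : L) : O.w (x + y) ≤ max (O.w x) (O.w y) := by
  obtain ⟨V, hV⟩ := O.self
  rw [← hV]; exact V.add x y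

theorem isSquare_of_close (x : L) (h : O.w (x - 1) < 1) : IsSquare x := by
  obtain ⟨V, hV⟩ := O.self
  rw [← hV] at h; exact V.one_unit x h

theorem two_classes (u c : L) (hu : O.w u = 1) (hc : O.w c = 1) (h : ¬ IsSquare c) :
    IsSquare u ∨ IsSquare (u * c) := by
  obtain ⟨V, hV⟩ := O.self
  rw [← hV] at hu hc; exact V.two_classes u c hu hc h

theorem w_eq_one_iff (x : L) (hx : x ≠ 0) : O.w x = 1 ↔ O.ord x = 0 := by
  rw [O.w_eq x hx]
  constructor
  · intro h
    have h2 : (2 : ℝ) ^ (-O.ord x) = (2 : ℝ) ^ (0 : ℤ) := by rw [h, zpow_zero]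
    have h3 := (zpow_right_injective₀ (by norm_num : (0 : ℝ) < 2) (by norm_num)) h2
    omega
  · intro h
    rw [h]; simp

theorem ord_mul (x y : L) (hx : x ≠ 0) (hy : y ≠ 0) : O.ord (x * y) = O.ord x + O.ord y := by
  have h := O.w_mul x y
  rw [O.w_eq x hx, O.w_eq y hy, O.w_eq _ (mul_ne_zero hx hy), ← zpow_add₀ (by norm_num : (2 : ℝ) ≠ 0)] at h
  have h3 := (zpow_right_injective₀ (by norm_num : (0 : ℝ) < 2) (by norm_num)) h
  have h4 : -O.ord (x * y) = -O.ord x + -O.ord y := h3
  omega

theorem ord_one : O.ord 1 = 0 := by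
  have h := O.ord_mul 1 1 one_ne_zero one_ne_zero
  rw [one_mul] at h
  omega

theorem ord_inv (x : L) (hx : x ≠ 0) : O.ord x⁻¹ = -O.ord x := by
  have h := O.ord_mul x x⁻¹ hx (inv_ne_zero hx)
  rw [mul_inv_cancel₀ hx, O.ord_one] at h
  omega

theorem ord_pow (x : L) (hx : x ≠ 0) (n : ℕ) : O.ord (x ^ n) = n * O.ord x := by
  induction n with
  | zero => simp [O.ord_one]
  | succ n ih =>
    rw [pow_succ, O.ord_mul _ _ (pow_ne_zero n hx) hx, ih]
    push_cast
    ring

theorem ord_zpow (x : L) (hx : x ≠ 0) (n : ℤ) : O.ord (x ^ n) = n * O.ord x := by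
  obtain ⟨m, rfl | rfl⟩ := n.eq_nat_or_neg
  · rw [zpow_natCast, O.ord_pow x hx]
  · rw [zpow_neg, O.ord_inv _ (zpow_ne_zero _ hx), zpow_natCast, O.ord_pow x hx]
    ring

theorem ord_prod {κ : Type} (S : Finset κ) (f : κ → L) (h : ∀ i ∈ S, f i ≠ 0) :
    O.ord (∏ i ∈ S, f i) = ∑ i ∈ S, O.ord (f i) := by
  classical
  induction S using Finset.induction_on with
  | empty => simp [O.ord_one]
  | insert x s hx ih =>
    rw [Finset.prod_insert hx, Finset.sum_insert hx, O.ord_mul _ _ (h x (Finset.mem_insert_self x s))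
      (Finset.prod_ne_zero_iff.2 fun i hi => h i (Finset.mem_insert_of_mem hi)),
      ih fun i hi => h i (Finset.mem_insert_of_mem hi)]

end OLF

/-- The constants of the local classes at the places dividing `D`. -/
def cc {R : Type} [CommRing R] {ι : Type} [Fintype ι] [DecidableEq ι] (a : ι → R) (D : R) (k i : ι) : R :=
  if i = k then D * ∏ l ∈ univ.erase k, (a k - a l) else a k - a i

theorem Pt.val_ne {L : Type} [Field L] {ι : Type} [Fintype ι] {a : ι → L}
    (ha : Function.Injective a) {D : L} (hD : D ≠ 0) (P : Pt L a D) (i : ι) : P.val i ≠ 0 := by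
  classical
  unfold Pt.val
  split_ifs with h
  · have hz : P.z ≠ 0 := by
      intro hz
      rw [hz] at h
      apply P.ne
      refine ⟨?_, hz⟩
      have : P.x ^ 2 = 0 := by simpa using h
      exact pow_eq_zero_iff (two_ne_zero) |>.1 this
    refine mul_ne_zero ?_ (Finset.prod_ne_zero_iff.2 fun j hj => ?_)
    · exact (map_ne_zero_iff _ (algebraMap L P.K).injective).2 hD
    · have hji : j ≠ i := (Finset.mem_erase.1 hj).1
      have e : P.x ^ 2 - algebraMap L P.K (a j) * P.z ^ 2 = algebraMap L P.K (a i - a j) * P.z ^ 2 := by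
        rw [map_sub]
        linear_combination h
      rw [e]
      refine mul_ne_zero ?_ (pow_ne_zero 2 hz)
      rw [map_ne_zero_iff _ (algebraMap L P.K).injective, sub_ne_zero]
      intro h0
      exact hji (ha h0).symm
  · exact h

theorem Cyc.cls_ne {L : Type} [Field L] {ι : Type} [Fintype ι] {a : ι → L}
    (ha : Function.Injective a) {D : L} (hD : D ≠ 0) (z : Cyc L a D) (i : ι) : z.cls i ≠ 0 := by
  unfold Cyc.cls
  apply List.prod_ne_zero
  intro h
  obtain ⟨q, _, hq⟩ := List.mem_map.1 h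
  have : Algebra.norm L (q.2.val i) ≠ 0 := Algebra.norm_ne_zero_iff.2 (q.2.val_ne ha hD i)
  exact zpow_ne_zero _ this hq

end FZ
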