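import Pool.Agent.Lib.MP_1ad228_nt.FF.FFam
import Pool.Agent.Lib.MP_1ad228_nt.FF.FCount
import Pool.Agent.Lib.MP_1ad228_nt.FF.FGlob

/-! JOB FMain.  The main upper bound.  MODEL (over `ℚ`): `Pool/Agent/Lib/MP_1ad228_nt/ZMain.lean` (and `Pool/Agent/Lib/MP_1ad228_ntR/RMain.lean`).

`finite_deg`: the polynomials of degree `≤ n` form a finite set (`Polynomial.degreeLT`, or the map to the coefficients; or `f = C c * g`, `g ∈ mon m`).
`mainF`, proof.  `a i ≠ 0` because `0` is a square.  `R = Rb a ≠ 0` (`Rb_ne_zero`).  By `glob` (for `D ≠ 0`) `Global` implies `Adelic`, so only `Adelic` matters.  By `family_desc` every `D` in the set is `g * ∏ e_U` with `g ∣ R`,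
`s i ∣ R`, `e U` monic, `∏ e_U` squarefree; `m = ∑ deg e_U = deg (∏ e_U) ≤ deg D ≤ n` (`g ≠ 0`), so `e ∈ Box F _ m` (`mem_Box`), `LocZ (theta a s) a e`.
So the set of `D` is contained in the union over the finitely many `(g, s)` (divisors of `R` have degree `≤ deg R`), and over `m ≤ n`, of the images of these sets under `e ↦ g * ∏ e`.  Sum the bounds of `countF` for `1 ≤ m ≤ n` (and `1` for `m = 0`:
`Box F _ 0` has at most one element): `∑_{m=1}^n q^m m^(-η) ≤ C q^n n^(-η)`: the terms `m ≤ n/2` give at most `2 q^(n/2) ≤ C' q^n n^(-1/2)`, hmm: `∑_{m ≤ n/2} q^m ≤ 2 q^(n/2)`, and `q^(n/2) n^(1/2) ≤ 2 q^n` hold since `n ≤ 2^n ≤ q^n`; the terms `m > n/2` give at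
most `(n/2)^(-η) ∑_{m≤n} q^m ≤ 2 n^(-η) * 2 q^n` (`q ≥ 2`). -/

namespace FZ

open Finset Polynomial

open ZC (OddSet)

theorem finite_deg (F : Type) [Field F] [Fintype F] (n : ℕ) : {f : F[X] | f.natDegree ≤ n}.Finite := by
  classical
  refine Set.Finite.of_finite_image (f := fun (f : F[X]) (i : Fin (n + 1)) => f.coeff i) (Set.toFinite _) ?_
  intro f hf g hg hfg
  have hf' : f.natDegree ≤ n := hf
  have hg' : g.natDegree ≤ n := hg
  ext k
  by_cases hk : k < n + 1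
  · exact congrFun hfg ⟨k, hk⟩
  · rw [coeff_eq_zero_of_natDegree_lt (by omega), coeff_eq_zero_of_natDegree_lt (by omega)]

private theorem FMain_ratio (q η : ℝ) (hq : 2 ≤ q) (hη0 : 0 ≤ η) (hη : η ≤ 1 / 2) (n : ℕ) (hn : 1 ≤ n) :
    q ^ n * (n : ℝ) ^ (-η) ≤ 3 / 4 * (q ^ (n + 1) * ((n + 1 : ℕ) : ℝ) ^ (-η)) := by
  have hn0 : (1 : ℝ) ≤ n := by exact_mod_cast hn
  have hnp : (0 : ℝ) < n := by linarith
  have hn1 : (0 : ℝ) < ((n + 1 : ℕ) : ℝ) := by positivity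
  have hqn : 0 < q ^ n := pow_pos (by linarith) n
  have h1 : ((n + 1 : ℕ) : ℝ) ^ η ≤ 3 / 2 * (n : ℝ) ^ η := by
    calc ((n + 1 : ℕ) : ℝ) ^ η ≤ (2 * (n : ℝ)) ^ η := by
          apply Real.rpow_le_rpow hn1.le _ hη0
          push_cast
          linarith
      _ = (2 : ℝ) ^ η * (n : ℝ) ^ η := Real.mul_rpow (by norm_num) hnp.le
      _ ≤ 3 / 2 * (n : ℝ) ^ η := by
          apply mul_le_mul_of_nonneg_right _ (Real.rpow_nonneg hnp.le _)
          calc (2 : ℝ) ^ η ≤ (2 : ℝ) ^ (1 / 2 : ℝ) := Real.rpow_le_rpow_of_exponent_le (by norm_num) hη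
            _ = √2 := (Real.sqrt_eq_rpow 2).symm
            _ ≤ 3 / 2 := by
                rw [Real.sqrt_le_left (by norm_num)]
                norm_num
  have h2 : (0 : ℝ) < (n : ℝ) ^ η := Real.rpow_pos_of_pos hnp _
  have h3 : (0 : ℝ) < ((n + 1 : ℕ) : ℝ) ^ η := Real.rpow_pos_of_pos hn1 _
  have h4 : ((n : ℝ) ^ η)⁻¹ ≤ 3 / 2 * (((n + 1 : ℕ) : ℝ) ^ η)⁻¹ := by
    rw [inv_le_iff_one_le_mul₀ h2]
    have : 3 / 2 * (((n + 1 : ℕ) : ℝ) ^ η)⁻¹ * (n : ℝ) ^ η = (3 / 2 * (n : ℝ) ^ η) / ((n + 1 : ℕ) : ℝ) ^ η := by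
      field_simp
    rw [this, one_le_div h3]
    exact h1
  rw [Real.rpow_neg hnp.le, Real.rpow_neg hn1.le, pow_succ]
  have h5 : 0 ≤ (((n + 1 : ℕ) : ℝ) ^ η)⁻¹ := (inv_pos.2 h3).le
  calc q ^ n * ((n : ℝ) ^ η)⁻¹ ≤ q ^ n * (3 / 2 * (((n + 1 : ℕ) : ℝ) ^ η)⁻¹) :=
        mul_le_mul_of_nonneg_left h4 hqn.le
    _ = 3 / 4 * (q ^ n * 2 * (((n + 1 : ℕ) : ℝ) ^ η)⁻¹) := by ring
    _ ≤ 3 / 4 * (q ^ n * q * (((n + 1 : ℕ) : ℝ) ^ η)⁻¹) := by
        apply mul_le_mul_of_nonneg_left _ (by norm_num)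
        apply mul_le_mul_of_nonneg_right _ h5
        exact mul_le_mul_of_nonneg_left hq hqn.le

theorem sum_geom (q η : ℝ) (hq : 2 ≤ q) (hη0 : 0 ≤ η) (hη : η ≤ 1 / 2) :
    ∃ C : ℝ, 0 < C ∧ ∀ n : ℕ, 1 ≤ n → 1 + ∑ m ∈ Icc 1 n, q ^ m * (m : ℝ) ^ (-η) ≤ C * q ^ n * (n : ℝ) ^ (-η) := by
  refine ⟨4, by norm_num, fun n hn => ?_⟩
  induction n, hn using Nat.le_induction with
  | base =>
    simp only [Icc_self, sum_singleton, pow_one, Nat.cast_one, Real.one_rpow, mul_one]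
    linarith
  | succ n hn ih =>
    rw [Finset.sum_Icc_succ_top (by omega)]
    have h1 := FMain_ratio q η hq hη0 hη n hn
    have h2 : 4 * q ^ n * (n : ℝ) ^ (-η) = 4 * (q ^ n * (n : ℝ) ^ (-η)) := by ring
    rw [h2] at ih
    have h3 : 4 * q ^ (n + 1) * ((n + 1 : ℕ) : ℝ) ^ (-η) = 4 * (q ^ (n + 1) * ((n + 1 : ℕ) : ℝ) ^ (-η)) := by ring
    rw [h3]
    linarith

/-- the data of one twist -/
private theorem FMain_data {F : Type} [Field F] [Fintype F] [DecidableEq F] (h2 : ringChar F ≠ 2)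
    {ι : Type} [Fintype ι] [DecidableEq ι] [Nonempty ι] (a : ι → F[X])
    (ha : Function.Injective a) (ha0 : ∀ i, a i ≠ 0) (n : ℕ) (D : F[X]) (hDn : D.natDegree ≤ n)
    (hD : Squarefree D) (h : Adelic a D) :
    ∃ (g : F[X]) (s : ι → F[X]) (m : ℕ) (e : OddSet ι → F[X]), g ∣ Rb a ∧ (∀ i, s i ∣ Rb a) ∧ m ≤ n ∧
      D = g * ∏ U, e U ∧ e ∈ Box F (OddSet ι) m ∧ LocZ (theta a s) a e := by
  obtain ⟨g, s, e, hg, hs, hDg, hmon, hsqf, -, hloc⟩ := family_desc h2 a ha ha0 D hD h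
  have hD0 : D ≠ 0 := hD.ne_zero
  have hg0 : g ≠ 0 := by
    rintro rfl
    rw [zero_mul] at hDg
    exact hD0 hDg
  have hdeg : (∏ U, e U).natDegree = ∑ U, (e U).natDegree :=
    natDegree_prod _ _ fun U _ => (hmon U).ne_zero
  refine ⟨g, s, ∑ U, (e U).natDegree, e, hg, hs, ?_, hDg, (mem_Box F).2 ⟨hmon, rfl, hsqf⟩, hloc⟩
  have h1 : D.natDegree = g.natDegree + (∏ U, e U).natDegree := by
    rw [hDg, natDegree_mul hg0 hsqf.ne_zero]
  omega

private theorem FMain_zero (F : Type) [Field F] [Fintype F] (L : Type) [Fintype L] [DecidableEq L] (Q : (L → F[X]) → Prop)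
    [DecidablePred Q] : ((Box F L 0).filter Q).card ≤ 1 := by
  have h : (Box F L 0).filter Q ⊆ {fun _ => 1} := by
    intro e he
    have h1 := ((mem_Box F).1 (Finset.mem_filter.1 he).1)
    rw [Finset.mem_singleton]
    funext U
    have h2 : (e U).natDegree = 0 := (Finset.sum_eq_zero_iff.1 h1.2.1) U (Finset.mem_univ U)
    exact (h1.1 U).natDegree_eq_zero.1 h2
  exact (Finset.card_le_card h).trans (by rw [Finset.card_singleton])

open Classical in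
private theorem FMain_card (F : Type) [Field F] [Fintype F] (h2 : ringChar F ≠ 2)
    {ι : Type} [Fintype ι] [Nonempty ι] (η : ℝ) (hη0 : 0 ≤ η) (hη : η < 1 / 2)
    (a : ι → F[X]) (ha : Function.Injective a) (hsq : ∀ i, ¬ IsSquare (a i)) :
    ∃ C : ℝ, 0 < C ∧ ∀ n : ℕ, 1 ≤ n →
      (((finite_deg F n).toFinset.filter fun D => Squarefree D ∧ Adelic a D).card : ℝ) ≤
        C * (Fintype.card F : ℝ) ^ n * (n : ℝ) ^ (-η) := by
  have ha0 : ∀ i, a i ≠ 0 := by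
    intro i h0
    apply hsq i
    rw [h0]
    exact IsSquare.zero
  have hR : Rb a ≠ 0 := Rb_ne_zero a ha ha0
  set R : F[X] := Rb a with hRdef
  set q : ℝ := (Fintype.card F : ℝ) with hq
  have hq2 : (2 : ℝ) ≤ q := by
    rw [hq]
    exact_mod_cast two_le_card F
  obtain ⟨C0, hC0, hC0b⟩ := sum_geom q η hq2 hη0 hη.le
  set GS : Finset F[X] := (finite_deg F R.natDegree).toFinset with hGS
  set CS : Finset (ι → F[X]) := Fintype.piFinset fun _ : ι => GS with hCS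
  choose Cc hCc hCb using fun s : ι → F[X] => countF F h2 η hη0 hη (theta a s) a hsq
  refine ⟨(GS.card : ℝ) * (∑ c ∈ CS, (1 + Cc c)) * C0 + 1, ?_, ?_⟩
  · have : 0 ≤ ∑ c ∈ CS, (1 + Cc c) := Finset.sum_nonneg fun c _ => by linarith [(hCc c).le]
    positivity
  intro n hn
  have hn1 : (1 : ℝ) ≤ n := by exact_mod_cast hn
  have hnn : 0 ≤ (n : ℝ) ^ (-η) := Real.rpow_nonneg (by linarith) _
  set T : (ι → F[X]) → ℕ → Finset (OddSet ι → F[X]) := fun s m => (Box F (OddSet ι) m).filter fun e =>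
    LocZ (theta a s) a e with hT
  set SS := (finite_deg F n).toFinset.filter fun D => Squarefree D ∧ Adelic a D with hSS
  have hle : ∀ z : F[X], z ∣ R → z ∈ GS := by
    intro z hz
    rw [hGS, Set.Finite.mem_toFinset]
    exact natDegree_le_of_dvd hz hR
  have hsub : SS ⊆ GS.biUnion fun g => CS.biUnion fun s => (range (n + 1)).biUnion fun m =>
      (T s m).image fun e => g * ∏ U, e U := by
    intro D hD
    rw [hSS, Finset.mem_filter, Set.Finite.mem_toFinset] at hD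
    obtain ⟨hD1, hsqD, hA⟩ := hD
    obtain ⟨g, s, m, e, hg, hs, hm, hDe, hbox, hloc⟩ :=
      FMain_data h2 a ha ha0 n D hD1 hsqD hA
    rw [Finset.mem_biUnion]
    refine ⟨g, hle g hg, ?_⟩
    rw [Finset.mem_biUnion]
    refine ⟨s, ?_, ?_⟩
    · rw [hCS, Fintype.mem_piFinset]
      exact fun i => hle _ (hs i)
    · rw [Finset.mem_biUnion]
      refine ⟨m, Finset.mem_range.2 (by omega), ?_⟩
      rw [Finset.mem_image]
      refine ⟨e, ?_, hDe.symm⟩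
      rw [hT]
      exact Finset.mem_filter.2 ⟨hbox, hloc⟩
  have hcard : (SS.card : ℝ) ≤ ∑ _g ∈ GS, ∑ c ∈ CS, ∑ m ∈ range (n + 1), ((T c m).card : ℝ) := by
    have h1 : SS.card ≤ ∑ _g ∈ GS, ∑ c ∈ CS, ∑ m ∈ range (n + 1), (T c m).card := by
      refine (Finset.card_le_card hsub).trans (Finset.card_biUnion_le.trans ?_)
      apply Finset.sum_le_sum
      intro g _
      refine Finset.card_biUnion_le.trans ?_
      apply Finset.sum_le_sum
      intro c _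
      refine Finset.card_biUnion_le.trans ?_
      apply Finset.sum_le_sum
      intro m _
      exact Finset.card_image_le
    exact_mod_cast h1
  refine hcard.trans ?_
  have hX : 0 ≤ q ^ n * (n : ℝ) ^ (-η) := mul_nonneg (pow_nonneg (by linarith) n) hnn
  have h3 : ∀ c ∈ CS, ∑ m ∈ range (n + 1), ((T c m).card : ℝ) ≤ (1 + Cc c) * (C0 * q ^ n * (n : ℝ) ^ (-η)) := by
    intro c _
    have e1 : ∑ m ∈ range (n + 1), ((T c m).card : ℝ) = ((T c 0).card : ℝ) + ∑ m ∈ Icc 1 n, ((T c m).card : ℝ) := by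
      rw [Finset.range_eq_Ico, Finset.sum_eq_sum_Ico_succ_bot (by omega)]
      rfl
    rw [e1]
    have e2 : ((T c 0).card : ℝ) ≤ 1 := by
      have h0 : (T c 0).card ≤ 1 := by
        rw [hT]
        exact FMain_zero F (OddSet ι) (fun e => LocZ (theta a c) a e)
      exact_mod_cast h0
    have e3 : ∑ m ∈ Icc 1 n, ((T c m).card : ℝ) ≤ Cc c * ∑ m ∈ Icc 1 n, q ^ m * (m : ℝ) ^ (-η) := by
      rw [Finset.mul_sum]
      apply Finset.sum_le_sum
      intro m hm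
      have := hCb c m (Finset.mem_Icc.1 hm).1
      rw [← mul_assoc]
      exact this
    have e4 : 0 ≤ ∑ m ∈ Icc 1 n, q ^ m * (m : ℝ) ^ (-η) := by
      apply Finset.sum_nonneg
      intro m _
      exact mul_nonneg (pow_nonneg (by linarith) m) (Real.rpow_nonneg (Nat.cast_nonneg m) _)
    have e5 := hC0b n hn
    have e6 := (hCc c).le
    calc ((T c 0).card : ℝ) + ∑ m ∈ Icc 1 n, ((T c m).card : ℝ)
        ≤ 1 + Cc c * ∑ m ∈ Icc 1 n, q ^ m * (m : ℝ) ^ (-η) := add_le_add e2 e3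
      _ ≤ (1 + Cc c) * (1 + ∑ m ∈ Icc 1 n, q ^ m * (m : ℝ) ^ (-η)) := by nlinarith
      _ ≤ (1 + Cc c) * (C0 * q ^ n * (n : ℝ) ^ (-η)) := mul_le_mul_of_nonneg_left e5 (by linarith)
  have h4 : ∑ c ∈ CS, ∑ m ∈ range (n + 1), ((T c m).card : ℝ) ≤
      (∑ c ∈ CS, (1 + Cc c)) * (C0 * q ^ n * (n : ℝ) ^ (-η)) := by
    rw [Finset.sum_mul]
    exact Finset.sum_le_sum h3
  rw [Finset.sum_const, nsmul_eq_mul]
  have h5 : (0 : ℝ) ≤ GS.card := Nat.cast_nonneg _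
  calc (GS.card : ℝ) * ∑ c ∈ CS, ∑ m ∈ range (n + 1), ((T c m).card : ℝ)
      ≤ (GS.card : ℝ) * ((∑ c ∈ CS, (1 + Cc c)) * (C0 * q ^ n * (n : ℝ) ^ (-η))) :=
        mul_le_mul_of_nonneg_left h4 h5
    _ = ((GS.card : ℝ) * (∑ c ∈ CS, (1 + Cc c)) * C0) * (q ^ n * (n : ℝ) ^ (-η)) := by ring
    _ ≤ ((GS.card : ℝ) * (∑ c ∈ CS, (1 + Cc c)) * C0 + 1) * (q ^ n * (n : ℝ) ^ (-η)) := by nlinarith
    _ = ((GS.card : ℝ) * (∑ c ∈ CS, (1 + Cc c)) * C0 + 1) * q ^ n * (n : ℝ) ^ (-η) := by ring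

theorem mainF (F : Type) [Field F] [Fintype F] (h2 : ringChar F ≠ 2)
    {ι : Type} [Fintype ι] [Nonempty ι] (η : ℝ) (hη0 : 0 ≤ η) (hη : η < 1 / 2)
    (a : ι → F[X]) (ha : Function.Injective a) (hsq : ∀ i, ¬ IsSquare (a i)) :
    ∃ C : ℝ, 0 < C ∧ ∀ n : ℕ, 1 ≤ n →
      (Nat.card {D : F[X] // Squarefree D ∧ D.natDegree ≤ n ∧ (Adelic a D ∨ Global a D)} : ℝ) ≤
        C * (Fintype.card F : ℝ) ^ n * (n : ℝ) ^ (-η) := by
  classical
  obtain ⟨C, hC, hCb⟩ := FMain_card F h2 η hη0 hη a ha hsq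
  refine ⟨C, hC, fun n hn => le_trans ?_ (hCb n hn)⟩
  have h1 : Nat.card {D : F[X] // Squarefree D ∧ D.natDegree ≤ n ∧ (Adelic a D ∨ Global a D)} ≤
      ((finite_deg F n).toFinset.filter fun D => Squarefree D ∧ Adelic a D).card := by
    have h3 : ∀ D : F[X], (Squarefree D ∧ D.natDegree ≤ n ∧ (Adelic a D ∨ Global a D)) →
        D ∈ (finite_deg F n).toFinset.filter fun D => Squarefree D ∧ Adelic a D := by
      rintro D ⟨hD, hDN, hA⟩
      rw [Finset.mem_filter, Set.Finite.mem_toFinset]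
      refine ⟨hDN, hD, ?_⟩
      rcases hA with hA | hA
      · exact hA
      · exact glob h2 ha hD.ne_zero hA
    have h4 := Nat.card_le_card_of_injective
      (fun x : {D : F[X] // Squarefree D ∧ D.natDegree ≤ n ∧ (Adelic a D ∨ Global a D)} =>
        (⟨x.1, h3 x.1 x.2⟩ : ((finite_deg F n).toFinset.filter fun D => Squarefree D ∧ Adelic a D :
          Finset F[X]))) (fun x y hxy => by
        have := congrArg Subtype.val hxy
        exact Subtype.ext this)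
    rw [Nat.card_eq_fintype_card (α := ((finite_deg F n).toFinset.filter fun D =>
      Squarefree D ∧ Adelic a D : Finset F[X])), Fintype.card_coe] at h4
    exact h4
  exact_mod_cast h1

end FZ
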