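import Pool.Agent.Lib.MP_1ad228_nt.ZLin

/-! JOB FMon.  Monic polynomials over a finite field, prime factors of squarefree polynomials.

`mem_mon`, `card_mon`: the map `c ↦ X^m + ∑ c_i X^i` is injective (coefficients) with image the monic polynomials of degree `m` (`Polynomial.as_sum_range'`, `Polynomial.Monic`...).
`pfac f` is the set of the monic irreducible divisors of `f ≠ 0` (`UniqueFactorizationMonoid.normalizedFactors`; `Polynomial.normalize` of a monic polynomial is itself:
`Polynomial.Monic.normalize_eq_self`; `UniqueFactorizationMonoid.normalizedFactors` API, e.g. `mem_normalizedFactors_iff`, `normalize_normalized_factor`, `prod_normalizedFactors`,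
`squarefree_iff_nodup_normalizedFactors`, `normalizedFactors_mul`).
`prod_pfac_sub`: for a finite set `S` of monic irreducible polynomials the product is squarefree with prime factors `S`. -/

namespace FZ

open Finset Polynomial

section

variable {F : Type} [Field F]

open Classical in
/-- the monic irreducible factors of `f ≠ 0` -/
noncomputable def pfac (f : F[X]) : Finset F[X] := (UniqueFactorizationMonoid.normalizedFactors f).toFinset

/-- `pf w f = ∏_{P ∣ f} w P` (used only for squarefree `f`) -/
noncomputable def pf (w : F[X] → ℝ) (f : F[X]) : ℝ := ∏ P ∈ pfac f, w P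

theorem mem_pfac {f P : F[X]} (hf : f ≠ 0) : P ∈ pfac f ↔ P.Monic ∧ Irreducible P ∧ P ∣ f := by
  classical
  unfold pfac
  rw [Multiset.mem_toFinset, UniqueFactorizationMonoid.mem_normalizedFactors_iff' hf]
  constructor
  · rintro ⟨h1, h2, h3⟩
    refine ⟨?_, h1, h3⟩
    rw [← h2]
    exact monic_normalize h1.ne_zero
  · rintro ⟨h1, h2, h3⟩
    exact ⟨h2, h1.normalize_eq_self, h3⟩

theorem monic_of_mem_pfac {f P : F[X]} (h : P ∈ pfac f) : P.Monic := by
  by_cases hf : f = 0
  · subst hf
    unfold pfac at h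
    simp at h
  · exact ((mem_pfac hf).1 h).1

theorem irreducible_of_mem_pfac {f P : F[X]} (h : P ∈ pfac f) : Irreducible P := by
  by_cases hf : f = 0
  · subst hf
    unfold pfac at h
    simp at h
  · exact ((mem_pfac hf).1 h).2.1

theorem dvd_of_mem_pfac {f P : F[X]} (h : P ∈ pfac f) : P ∣ f := by
  by_cases hf : f = 0
  · subst hf
    exact dvd_zero P
  · exact ((mem_pfac hf).1 h).2.2

theorem pfac_one : pfac (1 : F[X]) = ∅ := by
  unfold pfac
  simp

theorem pfac_irreducible {P : F[X]} (hm : P.Monic) (hi : Irreducible P) : pfac P = {P} := by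
  ext Q
  rw [mem_pfac hi.ne_zero, Finset.mem_singleton]
  constructor
  · rintro ⟨h1, h2, h3⟩
    exact eq_of_monic_of_associated h1 hm ((Irreducible.dvd_irreducible_iff_associated h2 hi).1 h3)
  · rintro rfl
    exact ⟨hm, hi, dvd_refl _⟩

theorem pfac_mul [DecidableEq F[X]] {f g : F[X]} (hf : f ≠ 0) (hg : g ≠ 0) : pfac (f * g) = pfac f ∪ pfac g := by
  ext Q
  rw [Finset.mem_union, mem_pfac hf, mem_pfac hg, mem_pfac (mul_ne_zero hf hg)]
  constructor
  · rintro ⟨h1, h2, h3⟩
    rcases h2.prime.dvd_or_dvd h3 with h | h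
    · exact Or.inl ⟨h1, h2, h⟩
    · exact Or.inr ⟨h1, h2, h⟩
  · rintro (⟨h1, h2, h3⟩ | ⟨h1, h2, h3⟩)
    · exact ⟨h1, h2, h3.mul_right g⟩
    · exact ⟨h1, h2, h3.mul_left f⟩

theorem pfac_disjoint {f g : F[X]} (h : IsCoprime f g) : Disjoint (pfac f) (pfac g) := by
  rw [Finset.disjoint_left]
  intro P h1 h2
  exact (irreducible_of_mem_pfac h1).not_isUnit
    (h.isUnit_of_dvd' (dvd_of_mem_pfac h1) (dvd_of_mem_pfac h2))

private theorem FMon_prod {f : F[X]} (hs : Squarefree f) :
    (∏ P ∈ pfac f, P).Monic ∧ Associated (∏ P ∈ pfac f, P) f := by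
  classical
  constructor
  · exact monic_prod_of_monic _ _ fun P hP => monic_of_mem_pfac hP
  · have h1 := (UniqueFactorizationMonoid.squarefree_iff_nodup_normalizedFactors hs.ne_zero).1 hs
    have h2 := UniqueFactorizationMonoid.prod_normalizedFactors hs.ne_zero
    have h3 : ∏ P ∈ pfac f, P = (UniqueFactorizationMonoid.normalizedFactors f).prod := by
      unfold pfac
      rw [Finset.prod_eq_multiset_prod, Multiset.toFinset_val, Multiset.map_id',
        Multiset.dedup_eq_self.2 h1]
    rw [h3]
    exact h2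

theorem prod_pfac {f : F[X]} (hf : f.Monic) (hs : Squarefree f) : ∏ P ∈ pfac f, P = f :=
  eq_of_monic_of_associated (FMon_prod hs).1 hf (FMon_prod hs).2

/-- a squarefree polynomial is its leading coefficient times the product of its prime factors -/
theorem C_mul_prod_pfac {f : F[X]} (hs : Squarefree f) : C f.leadingCoeff * ∏ P ∈ pfac f, P = f := by
  obtain ⟨hm, u, hu⟩ := FMon_prod hs
  obtain ⟨c, hc, hcu⟩ := Polynomial.isUnit_iff.1 u.isUnit
  have h1 : f.leadingCoeff = c := by
    rw [← hu, leadingCoeff_mul, hm.leadingCoeff, one_mul, ← hcu, leadingCoeff_C]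
  rw [h1, hcu, mul_comm]
  exact hu

theorem prod_set {S : Finset F[X]} (h : ∀ P ∈ S, P.Monic ∧ Irreducible P) :
    (∏ P ∈ S, P).Monic ∧ Squarefree (∏ P ∈ S, P) ∧ pfac (∏ P ∈ S, P) = S := by
  classical
  have hm : (∏ P ∈ S, P).Monic := monic_prod_of_monic _ _ fun P hP => (h P hP).1
  have h1 : UniqueFactorizationMonoid.normalizedFactors (∏ P ∈ S, P) = S.val := by
    have h2 := UniqueFactorizationMonoid.normalizedFactors_prod_eq S.val fun P hP => (h P hP).2
    have h3 : S.val.map normalize = S.val := by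
      conv_rhs => rw [← Multiset.map_id S.val]
      exact Multiset.map_congr rfl fun P hP => (h P hP).1.normalize_eq_self
    rw [h3] at h2
    rw [Finset.prod_eq_multiset_prod, Multiset.map_id']
    exact h2
  refine ⟨hm, ?_, ?_⟩
  · rw [UniqueFactorizationMonoid.squarefree_iff_nodup_normalizedFactors hm.ne_zero, h1]
    exact S.nodup
  · ext Q
    rw [mem_pfac hm.ne_zero]
    constructor
    · rintro ⟨h2, h3, h4⟩
      have h5 : Q ∈ UniqueFactorizationMonoid.normalizedFactors (∏ P ∈ S, P) :=
        (UniqueFactorizationMonoid.mem_normalizedFactors_iff' hm.ne_zero).2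
          ⟨h3, h2.normalize_eq_self, h4⟩
      rw [h1] at h5
      exact h5
    · intro hQ
      exact ⟨(h Q hQ).1, (h Q hQ).2, Finset.dvd_prod_of_mem _ hQ⟩

theorem pf_one (w : F[X] → ℝ) : pf w 1 = 1 := by
  unfold pf
  rw [pfac_one, Finset.prod_empty]

theorem pf_mul (w : F[X] → ℝ) {f g : F[X]} (hf : f ≠ 0) (hg : g ≠ 0) (h : IsCoprime f g) :
    pf w (f * g) = pf w f * pf w g := by
  classical
  unfold pf
  rw [pfac_mul hf hg, Finset.prod_union (pfac_disjoint h)]

theorem isCoprime_of_squarefree {f g : F[X]} (h : Squarefree (f * g)) : IsCoprime f g := by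
  exact (squarefree_mul_iff.1 h).1.isCoprime

theorem squarefree_mul {f g : F[X]} (hf : Squarefree f) (hg : Squarefree g) (h : IsCoprime f g) :
    Squarefree (f * g) := by
  exact squarefree_mul_iff.2 ⟨h.isRelPrime, hf, hg⟩

end

variable (F : Type) [Field F] [Fintype F]

open Classical in
/-- the monic polynomials of degree `m` -/
noncomputable def mon (m : ℕ) : Finset F[X] :=
  (univ : Finset (Fin m → F)).image fun c => X ^ m + ∑ i : Fin m, C (c i) * X ^ (i : ℕ)

theorem mem_mon {m : ℕ} {f : F[X]} : f ∈ mon F m ↔ f.Monic ∧ f.natDegree = m := by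
  classical
  unfold mon
  rw [Finset.mem_image]
  constructor
  · rintro ⟨c, _, rfl⟩
    have h := degree_sum_fin_lt c
    refine ⟨monic_X_pow_add h, ?_⟩
    rw [natDegree_add_eq_left_of_degree_lt (by rw [degree_X_pow]; exact h), natDegree_X_pow]
  · rintro ⟨h1, rfl⟩
    refine ⟨fun i => f.coeff i, Finset.mem_univ _, ?_⟩
    conv_rhs => rw [h1.as_sum]
    rw [Finset.sum_range]

theorem card_mon (m : ℕ) : (mon F m).card = Fintype.card F ^ m := by
  classical
  unfold mon
  rw [Finset.card_image_of_injective]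
  · rw [Finset.card_univ, Fintype.card_fun, Fintype.card_fin]
  · intro c d h
    have h1 := add_left_cancel h
    funext i
    have h2 := congrArg (fun P : F[X] => P.coeff i) h1
    simp only [finsetSum_coeff, coeff_C_mul, coeff_X_pow] at h2
    simpa [Fin.val_inj] using h2

theorem mon_zero : mon F 0 = {1} := by
  ext f
  rw [mem_mon, Finset.mem_singleton]
  constructor
  · rintro ⟨h1, h2⟩
    exact h1.natDegree_eq_zero.1 h2
  · rintro rfl
    exact ⟨monic_one, natDegree_one⟩

theorem two_le_card : 2 ≤ Fintype.card F := Fintype.one_lt_card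

end FZ
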