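import Pool.Agent.Lib.MP_1ad228_nt.FF.FLoc

/-! JOB FPlace.  The places of `F(t)`, `F` a finite field: the monic irreducible polynomials and infinity.

Mathlib: `Mathlib/NumberTheory/RatFunc/Ostrowski.lean` (`RatFunc.valuation_isEquiv_infty_or_adic`: a rank one discrete valuation of `F(t)`, trivial on `F`, is equivalent to the valuation at infinity or to an adic one),
`Mathlib/FieldTheory/RatFunc/Valuation.lean` (`RatFunc.inftyValuation`), `Mathlib/RingTheory/DedekindDomain/AdicValuation.lean` (`IsDedekindDomain.HeightOneSpectrum.valuation`, `valuation_surjective`, `valuation_of_algebraMap`,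
`valuation_lt_one_iff_mem`, `intValuation_...`), `Mathlib/FieldTheory/Finite/Valuation.lean` (a valuation is trivial on a finite field), `Mathlib/RingTheory/Valuation/Discrete/Basic.lean` (`IsRankOneDiscrete`).
* `pl_cases`: a surjective `v : F(t) → ℤᵐ⁰` is rank one discrete; by Ostrowski it is equivalent to `inftyValuation` or to the valuation of a height one prime, generated by a monic irreducible `P` (`F[X]` is a PID).  Two EQUIVALENT SURJECTIVE valuations with
  values in `ℤᵐ⁰` are equal: they have the same ring of integers, the uniformisers correspond (an element `x` with `v x < 1` maximal), so `v x = exp (-1) ↔ v' x = exp (-1)`, and every element is a power of such an `x` times a unit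
  (or `Valuation.IsEquiv` gives an order isomorphism of value groups `ℤᵐ⁰`, which is the identity).
* `emb_val`: `Valued.v (emb v x) = v x` (`Valued.extension_extends`/`Valued.valuedCompletion_apply`, simp).
* `ordv`: additive valuation; `ordv_mul` from `Valuation.map_mul` and `WithZero.log_mul`. -/

namespace FZ

open Finset Polynomial

variable {F : Type} [Field F]

/-- the additive valuation on the completion -/
noncomputable def ordv (v : Pl F) (x : Kv v) : ℤ := -WithZero.log (Valued.v x)

theorem emb_val (v : Pl F) (x : RatFunc F) : Valued.v (emb v x) = v.1 x := by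
  have h : emb v x = (((WithVal.equiv v.1).symm x : WithVal v.1) : v.1.Completion) := rfl
  rw [h]
  exact Valued.valuedCompletion_apply _

theorem ordv_mul (v : Pl F) (x y : Kv v) (hx : x ≠ 0) (hy : y ≠ 0) : ordv v (x * y) = ordv v x + ordv v y := by
  have hx' : (Valued.v x : WithZero (Multiplicative ℤ)) ≠ 0 := (Valuation.ne_zero_iff _).2 hx
  have hy' : (Valued.v y : WithZero (Multiplicative ℤ)) ≠ 0 := (Valuation.ne_zero_iff _).2 hy
  unfold ordv
  rw [map_mul, WithZero.log_mul hx' hy']
  ring

theorem ev_ne_zero (v : Pl F) {f : F[X]} (hf : f ≠ 0) : ev v f ≠ 0 := by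
  intro h
  have h1 : emb v (algebraMap F[X] (RatFunc F) f) = 0 := h
  have h2 := (map_eq_zero (emb v)).1 h1
  exact hf ((map_eq_zero_iff _ (IsFractionRing.injective F[X] (RatFunc F))).1 h2)

private theorem FPlace_inf_surj (F : Type) [Field F] [DecidableEq (RatFunc F)] :
    Function.Surjective (RatFunc.inftyValuation F) := by
  intro γ
  by_cases h : γ = 0
  · exact ⟨0, by rw [h, map_zero]⟩
  · exact ⟨RatFunc.X ^ (WithZero.log γ), by rw [RatFunc.inftyValuation.X_zpow, WithZero.exp_log h]⟩

open Classical in
/-- the infinite place -/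
noncomputable def plInf (F : Type) [Field F] : Pl F :=
  ⟨RatFunc.inftyValuation F, FPlace_inf_surj F⟩

/-- the height one prime generated by an irreducible polynomial -/
noncomputable def hos (P : F[X]) (hP : Irreducible P) : IsDedekindDomain.HeightOneSpectrum F[X] :=
  ⟨Ideal.span {P}, (Ideal.span_singleton_prime hP.ne_zero).2 hP.prime, by simpa using hP.ne_zero⟩

/-- the place of an irreducible polynomial -/
noncomputable def plP (P : F[X]) (hP : Irreducible P) : Pl F :=
  ⟨(hos P hP).valuation (RatFunc F), (hos P hP).valuation_surjective (RatFunc F)⟩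

private theorem FPlace_eq {K : Type} [Field K] (v₁ v₂ : Valuation K (WithZero (Multiplicative ℤ)))
    (h₁ : Function.Surjective v₁) (h₂ : Function.Surjective v₂) (h : v₁.IsEquiv v₂) : v₁ = v₂ := by
  -- an element of negative level in both valuations
  obtain ⟨x, hx⟩ := h₁ (WithZero.exp (-1))
  obtain ⟨y, hy⟩ := h₂ (WithZero.exp (-1))
  have hx0 : x ≠ 0 := by
    rintro rfl
    rw [map_zero] at hx
    exact WithZero.exp_ne_zero hx.symm
  have hy0 : y ≠ 0 := by
    rintro rfl
    rw [map_zero] at hy
    exact WithZero.exp_ne_zero hy.symm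
  have hx2 : v₂ x ≠ 0 := (Valuation.ne_zero_iff _).2 hx0
  have hy1 : v₁ y ≠ 0 := (Valuation.ne_zero_iff _).2 hy0
  -- the transfer principle
  have key : ∀ z : K, z ≠ 0 → v₂ z = v₂ x ^ (-WithZero.log (v₁ z)) := by
    intro z hz
    have hz1 : v₁ z ≠ 0 := (Valuation.ne_zero_iff _).2 hz
    have e : v₁ z = v₁ (x ^ (-WithZero.log (v₁ z))) := by
      rw [map_zpow₀, hx, ← WithZero.exp_zsmul, smul_neg, smul_eq_mul, mul_one, neg_neg,
        WithZero.exp_log hz1]
    rw [h.val_eq.1 e, map_zpow₀]
  -- `k = l = 1`
  have hk : WithZero.log (v₂ x) = -1 := by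
    have h3 := key y hy0
    rw [hy] at h3
    have h4 := congrArg WithZero.log h3
    rw [WithZero.log_exp, WithZero.log_zpow] at h4
    have h5 : WithZero.log (v₂ x) ∣ 1 := by
      refine ⟨WithZero.log (v₁ y), ?_⟩
      rw [smul_eq_mul] at h4
      linarith
    have h6 : v₂ x < 1 := by
      have h7 : v₁ x < 1 := by
        rw [hx, ← WithZero.exp_zero, WithZero.exp_lt_exp]
        norm_num
      exact h.lt_one_iff_lt_one.1 h7
    have h8 : WithZero.log (v₂ x) < 0 := by
      rw [← WithZero.log_one]
      exact (WithZero.log_lt_log hx2 one_ne_zero).2 h6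
    rcases Int.isUnit_iff.1 (isUnit_of_dvd_one h5) with h9 | h9
    · omega
    · exact h9
  ext z
  by_cases hz : z = 0
  · rw [hz, map_zero, map_zero]
  · have hz1 : v₁ z ≠ 0 := (Valuation.ne_zero_iff _).2 hz
    rw [key z hz]
    have h3 : v₂ x = WithZero.exp (-1) := by rw [← hk, WithZero.exp_log hx2]
    rw [h3, ← WithZero.exp_zsmul, smul_neg, smul_eq_mul, mul_one, neg_neg, WithZero.exp_log hz1]

private theorem FPlace_disc {K : Type} [Field K] (v : Valuation K (WithZero (Multiplicative ℤ)))
    (hv : Function.Surjective v) : v.IsRankOneDiscrete := by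
  refine ⟨⟨Units.mk0 (WithZero.exp (-1 : ℤ)) WithZero.exp_ne_zero, ?_, ?_⟩⟩
  · ext γ
    constructor
    · intro _
      exact MonoidWithZeroHom.mem_valueGroup _ (hv γ.1)
    · intro _
      rw [Subgroup.mem_zpowers_iff]
      refine ⟨-WithZero.log γ.1, ?_⟩
      apply Units.ext
      rw [Units.val_zpow_eq_zpow_val, Units.val_mk0, ← WithZero.exp_zsmul, smul_neg, smul_eq_mul, mul_one, neg_neg,
        WithZero.exp_log γ.ne_zero]
  · rw [← Units.val_lt_val, Units.val_mk0, Units.val_one, ← WithZero.exp_zero, WithZero.exp_lt_exp]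
    norm_num

theorem pl_cases [Finite F] (v : Pl F) :
    v = plInf F ∨ ∃ (P : F[X]) (hP : Irreducible P), P.Monic ∧ v = plP P hP := by
  classical
  haveI := FPlace_disc v.1 v.2
  rcases (RatFunc.valuation_isEquiv_infty_or_adic (K := F) (v := v.1)).or with h | h
  · left
    apply Subtype.ext
    have := FPlace_eq v.1 (RatFunc.inftyValuation F) v.2 (FPlace_inf_surj F) h
    rw [this]
    unfold plInf
    congr
  · right
    obtain ⟨u, hu, -⟩ := h
    have hvu := FPlace_eq v.1 (u.valuation (RatFunc F)) v.2 (u.valuation_surjective (RatFunc F)) hu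
    obtain ⟨g, hg⟩ := (inferInstance : u.asIdeal.IsPrincipal)
    have hg0 : g ≠ 0 := by
      rintro rfl
      apply u.ne_bot
      rw [hg]
      simp
    have hgi : Irreducible g := by
      have hp : Prime g := (Ideal.span_singleton_prime hg0).1 (by
        have := u.isPrime
        rw [hg] at this
        exact this)
      exact hp.irreducible
    have hn : Irreducible (normalize g) := (normalize_associated g).symm.irreducible hgi
    refine ⟨normalize g, hn, Polynomial.monic_normalize hg0, ?_⟩
    apply Subtype.ext
    rw [hvu]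
    have e : u = hos (normalize g) hn := by
      apply IsDedekindDomain.HeightOneSpectrum.ext
      rw [hg]
      exact (Ideal.span_singleton_eq_span_singleton.2 (normalize_associated g)).symm
    rw [e]
    rfl

private theorem FPlace_val (v : Pl F) (f : F[X]) : Valued.v (ev v f) = v.1 (algebraMap F[X] (RatFunc F) f) :=
  emb_val v _

theorem plP_inj {P Q : F[X]} (hP : Irreducible P) (hQ : Irreducible Q) (mP : P.Monic) (mQ : Q.Monic)
    (h : plP P hP = plP Q hQ) : P = Q := by
  have h1 : (hos P hP).valuation (RatFunc F) = (hos Q hQ).valuation (RatFunc F) := congrArg Subtype.val h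
  have h2 : hos P hP = hos Q hQ :=
    IsDedekindDomain.HeightOneSpectrum.eq_of_valuation_isEquiv_valuation (K := RatFunc F)
      (h1 ▸ Valuation.IsEquiv.refl)
  have h3 : Ideal.span {P} = Ideal.span {Q} := congrArg IsDedekindDomain.HeightOneSpectrum.asIdeal h2
  exact Polynomial.eq_of_monic_of_associated mP mQ (Ideal.span_singleton_eq_span_singleton.1 h3)

theorem plP_ne_inf {P : F[X]} (hP : Irreducible P) : plP P hP ≠ plInf F := by
  classical
  intro h
  have h1 : (hos P hP).valuation (RatFunc F) = RatFunc.inftyValuation F := by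
    have := congrArg Subtype.val h
    refine this.trans ?_
    unfold plInf
    congr
  exact RatFunc.adicValuation_ne_inftyValuation (hos P hP) h1

theorem ordv_inf {f : F[X]} (hf : f ≠ 0) : ordv (plInf F) (ev (plInf F) f) = -(f.natDegree : ℤ) := by
  classical
  unfold ordv
  rw [FPlace_val]
  have h1 : (plInf F).1 (algebraMap F[X] (RatFunc F) f) = WithZero.exp (f.natDegree : ℤ) := by
    unfold plInf
    exact @RatFunc.inftyValuation.polynomial F _ (Classical.decEq _) f hf
  rw [h1, WithZero.log_exp]

private theorem FPlace_P {P : F[X]} (hP : Irreducible P) (f : F[X]) :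
    ordv (plP P hP) (ev (plP P hP) f) = -WithZero.log ((hos P hP).intValuation f) := by
  unfold ordv
  rw [FPlace_val]
  have h1 : (plP P hP).1 (algebraMap F[X] (RatFunc F) f) = (hos P hP).intValuation f :=
    (hos P hP).valuation_of_algebraMap f
  rw [h1]

private theorem FPlace_mem {P : F[X]} (hP : Irreducible P) (f : F[X]) : f ∈ (hos P hP).asIdeal ↔ P ∣ f :=
  Ideal.mem_span_singleton

theorem ordv_self {P : F[X]} (hP : Irreducible P) : ordv (plP P hP) (ev (plP P hP) P) = 1 := by
  rw [FPlace_P, (hos P hP).intValuation_singleton hP.ne_zero rfl, WithZero.log_exp]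
  norm_num

theorem ordv_of_not_dvd {P : F[X]} (hP : Irreducible P) {f : F[X]} (hf : ¬ P ∣ f) :
    ordv (plP P hP) (ev (plP P hP) f) = 0 := by
  rw [FPlace_P, IsDedekindDomain.HeightOneSpectrum.intValuation_eq_one_iff.2 (fun h => hf ((FPlace_mem hP f).1 h)),
    WithZero.log_one, neg_zero]

theorem ordv_nonneg {P : F[X]} (hP : Irreducible P) {f : F[X]} (hf : f ≠ 0) :
    0 ≤ ordv (plP P hP) (ev (plP P hP) f) := by
  rw [FPlace_P]
  have h1 := (hos P hP).intValuation_le_one f
  have h2 := (hos P hP).intValuation_ne_zero f hf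
  have h3 : WithZero.log ((hos P hP).intValuation f) ≤ 0 := by
    rw [← WithZero.log_one]
    exact (WithZero.log_le_log h2 one_ne_zero).2 h1
  omega

theorem ordv_pos_iff {P : F[X]} (hP : Irreducible P) {f : F[X]} (hf : f ≠ 0) :
    0 < ordv (plP P hP) (ev (plP P hP) f) ↔ P ∣ f := by
  constructor
  · intro h
    by_contra hc
    rw [ordv_of_not_dvd hP hc] at h
    exact lt_irrefl _ h
  · intro h
    rw [FPlace_P]
    have h2 := (hos P hP).intValuation_ne_zero f hf
    have h1 : (hos P hP).intValuation f < 1 :=
      ((hos P hP).intValuation_lt_one_iff_mem f).2 ((FPlace_mem hP f).2 h)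
    have h3 : WithZero.log ((hos P hP).intValuation f) < 0 := by
      rw [← WithZero.log_one]
      exact (WithZero.log_lt_log h2 one_ne_zero).2 h1
    omega

end FZ
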