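import Pool.Agent.Lib.MP_1ad228_nt.FF.FVal
import Pool.Agent.Lib.MP_1ad228_nt.FF.FPlace

/-! JOB FOLF.  The completions of `F(t)`, `F` a finite field of odd order, have the structure `OLF`.

`olf_of_valued`: let `L` be a complete field with a surjective valuation `L → ℤᵐ⁰`, finite residue field (given by representatives), `v 2 = 1`.
  The valuation is rank one discrete (`Valuation.IsRankOneDiscrete`, see `Mathlib/NumberTheory/NumberField/Completion/FinitePlace.lean` for `adicCompletion`), so by `Valuation.IsRankOneDiscrete.rankOne` (`Mathlib/RingTheory/Valuation/Discrete/RankOne.lean`)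
  with `e = 2` it gets a rank one structure with `‖x‖ = toNNReal 2 (v x) = 2^(log (v x))` (`Valued.toNormedField.norm_def`, `valueGroup₀_equiv_withZeroMulInt_restrict_apply_of_surjective`; compare `NumberField.FinitePlace.norm_def` in the file
  `FinitePlace.lean`).  `letI := Valued.toNontriviallyNormedField L ℤᵐ⁰` (namespace `Valued`, `Mathlib/Topology/Algebra/Valued/NormedValued.lean`): ultrametric, complete.
  Proper: `Valued.integer.properSpace_iff_completeSpace_and_isDiscreteValuationRing_integer_and_finite_residueField` (`Mathlib/Topology/Algebra/Valued/LocallyCompact.lean`); the ring of integers is a DVR (rank one discrete: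
  `Mathlib/RingTheory/Valuation/Discrete/IsDiscreteValuationRing.lean`) and the residue field is finite because the classes of the representatives exhaust it.  (Alternative to the last step: totally bounded by hand.)
  Then `ext` from `exists_lval_normed` and `sum_two` from `sum_two_normed`; `w x = ‖x‖`, `ord x = -log (v x)`, `π` with `v π = exp (-1)`.
`res_reps`: for a place `v` of `F(t)` there are finitely many representatives of `{x : v x ≤ 1}` mod `{x : v x < 1}`.  By `pl_cases`: for `v = plInf` the constants `C c`, `c ∈ F` (if `v (f/g) = exp (deg f - deg g) ≤ 1` take the quotient of the leading coefficients or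
  `0`); for `v = plP P` the polynomials of degree `< deg P` (`v x ≤ 1`: `x = f/g` with `P ∤ g` (`exists_primeCompl_mul_eq_of_integer`), `g h ≡ 1 mod P`, `x ≡ f h mod P`).
  The completion: `x ∈ Kv v` with `v x ≤ 1` is close to some `y ∈ F(t)` (`UniformSpace.Completion.denseRange_coe`, `{z | v (x - z) < 1}` is open), `v y ≤ 1`.
`exists_olf`: `olf_of_valued` for `Kv v`; surjectivity `Valued.valuedCompletion_surjective_iff`; `v 2 = 1`: `2 ≠ 0` is a constant. -/

namespace FZ

open Polynomial

theorem FOLF_disc {L : Type} [Field L] (v : Valuation L (WithZero (Multiplicative ℤ)))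
    (hs : Function.Surjective v) : v.IsRankOneDiscrete := by
  refine ⟨⟨Units.mk0 (WithZero.exp (-1 : ℤ)) (by simp), ?_, ?_⟩⟩
  · ext n
    constructor
    · intro _
      apply MonoidWithZeroHom.mem_valueGroup
      exact hs _
    · intro _
      rw [Subgroup.mem_zpowers_iff]
      refine ⟨-WithZero.log (n : WithZero (Multiplicative ℤ)), ?_⟩
      ext
      simp
  · exact compareOfLessAndEq_eq_lt.mp rfl

theorem FOLF_norm {L : Type} [Field L] [Valued L (WithZero (Multiplicative ℤ))]
    (hs : Function.Surjective (Valued.v : L → WithZero (Multiplicative ℤ)))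
    [hd : (Valued.v : Valuation L (WithZero (Multiplicative ℤ))).IsRankOneDiscrete] (x : L) (hx : x ≠ 0) :
    letI := Valuation.IsRankOneDiscrete.rankOne (Valued.v : Valuation L (WithZero (Multiplicative ℤ)))
      (e := 2) one_lt_two
    (Valued.v : Valuation L (WithZero (Multiplicative ℤ))).norm x = (2 : ℝ) ^ (WithZero.log (Valued.v x)) := by
  let hr := Valuation.IsRankOneDiscrete.rankOne (Valued.v : Valuation L (WithZero (Multiplicative ℤ)))
    (e := 2) one_lt_two
  have hvx : Valued.v x ≠ 0 := (Valuation.ne_zero_iff _).2 hx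
  have h1 : (Valued.v : Valuation L (WithZero (Multiplicative ℤ))).norm x =
      ((WithZeroMulInt.toNNReal (ne_of_gt (lt_trans zero_lt_one (one_lt_two : (1 : NNReal) < 2))))
        ((Valuation.IsRankOneDiscrete.valueGroup₀_equiv_withZeroMulInt
          (Valued.v : Valuation L (WithZero (Multiplicative ℤ))))
          ((Valued.v : Valuation L (WithZero (Multiplicative ℤ))).restrict x)) : ℝ) := rfl
  rw [h1, Valuation.IsRankOneDiscrete.valueGroup₀_equiv_withZeroMulInt_restrict_apply_of_surjective hs,
    WithZeroMulInt.toNNReal_neg_apply _ hvx, WithZero.toAdd_unzero_eq_log hvx]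
  push_cast
  rfl

theorem FOLF_res {L : Type} [Field L] [Valued L (WithZero (Multiplicative ℤ))]
    (S : Finset L) (hS : ∀ x : L, Valued.v x ≤ 1 → ∃ s ∈ S, Valued.v (x - s) < 1) :
    Finite (Valued.ResidueField L) := by
  classical
  let f : S → Valued.ResidueField L := fun s =>
    if h : Valued.v (s : L) ≤ 1 then IsLocalRing.residue (Valued.integer L) ⟨s, h⟩
    else IsLocalRing.residue (Valued.integer L) 0
  apply Finite.of_surjective f
  intro y
  obtain ⟨x, rfl⟩ := IsLocalRing.residue_surjective (R := Valued.integer L) y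
  obtain ⟨s, hs1, hs2⟩ := hS x.1 x.2
  have hs3 : Valued.v s ≤ 1 := by
    have e : s = x.1 - (x.1 - s) := by ring
    rw [e]
    exact (Valuation.map_sub _ _ _).trans (max_le x.2 hs2.le)
  refine ⟨⟨s, hs1⟩, ?_⟩
  simp only [f]
  rw [dif_pos hs3]
  symm
  rw [← sub_eq_zero, ← map_sub, IsLocalRing.residue_eq_zero_iff, IsLocalRing.mem_maximalIdeal,
    mem_nonunits_iff]
  exact Valuation.Integer.not_isUnit_iff_valuation_lt_one.2 hs2

theorem olf_of_valued (L : Type) [Field L] [Valued L (WithZero (Multiplicative ℤ))] [CompleteSpace L]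
    (hs : Function.Surjective (Valued.v : L → WithZero (Multiplicative ℤ))) (h2 : Valued.v (2 : L) = 1)
    (hfin : ∃ S : Finset L, ∀ x : L, Valued.v x ≤ 1 → ∃ s ∈ S, Valued.v (x - s) < 1) :
    ∃ O : OLF L, ∀ x : L, O.ord x = -WithZero.log (Valued.v x) := by
  obtain ⟨S, hS⟩ := hfin
  have hF : Finite (Valued.ResidueField L) := FOLF_res S hS
  have hd : (Valued.v : Valuation L (WithZero (Multiplicative ℤ))).IsRankOneDiscrete := FOLF_disc _ hs
  let hr : (Valued.v : Valuation L (WithZero (Multiplicative ℤ))).RankOne :=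
    Valuation.IsRankOneDiscrete.rankOne Valued.v (e := 2) one_lt_two
  let hnf : NontriviallyNormedField L := Valued.toNontriviallyNormedField L (WithZero (Multiplicative ℤ))
  have hn : ∀ x : L, x ≠ 0 → ‖x‖ = (2 : ℝ) ^ WithZero.log (Valued.v x) := fun x hx => FOLF_norm hs x hx
  have hDVR : IsDiscreteValuationRing (Valued.integer L) :=
    Valuation.valuationSubring_isDiscreteValuationRing
      (Valued.v : Valuation L (WithZero (Multiplicative ℤ)))
  have hU : IsUltrametricDist L := inferInstance
  have hP : ProperSpace L :=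
    Valued.integer.properSpace_iff_completeSpace_and_isDiscreteValuationRing_integer_and_finite_residueField.2
      ⟨inferInstance, hDVR, hF⟩
  have h2' : ‖(2 : L)‖ = 1 := by
    have h0 : (2 : L) ≠ 0 := by
      intro h
      rw [h, map_zero] at h2
      exact zero_ne_one h2
    rw [hn 2 h0, h2]
    simp
  obtain ⟨π, hπ⟩ := hs (WithZero.exp (-1))
  have hπ0 : π ≠ 0 := by
    intro h
    rw [h, map_zero] at hπ
    exact WithZero.exp_ne_zero hπ.symm
  refine ⟨{ ord := fun x => -WithZero.log (Valued.v x)
            w := fun x => ‖x‖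
            w_zero := norm_zero
            w_eq := fun x hx => by rw [neg_neg]; exact hn x hx
            π := π
            π_ne := hπ0
            ord_π := by rw [hπ, WithZero.log_exp]; rfl
            two := h2'
            ext := fun K _ _ _ => exists_lval_normed L h2' K
            sum_two := fun u c hu hc => sum_two_normed L h2' u c hu hc }, fun x => rfl⟩

variable {F : Type} [Field F]

theorem FOLF_surj (v : Pl F) :
    Function.Surjective (Valued.v : Kv v → WithZero (Multiplicative ℤ)) := by
  apply Valued.valuedCompletion_surjective_iff.2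
  intro γ
  obtain ⟨x, hx⟩ := v.2 γ
  exact ⟨(WithVal.equiv v.1).symm x, by simpa using hx⟩

/-- an element of `F(t)` close to a given element of the completion -/
theorem exists_close (v : Pl F) (x : Kv v) (n : ℤ) :
    ∃ y : RatFunc F, Valued.v (x - emb v y) < WithZero.exp (-n) := by
  obtain ⟨c, hc⟩ := FOLF_surj v (WithZero.exp (-n))
  have hU : {z : Kv v | Valued.v (x - z) < WithZero.exp (-n)} ∈ nhds x := by
    rw [Valued.mem_nhds]
    refine ⟨Units.mk0 (Valued.v.restrict c) ?_, ?_⟩
    · have : Valued.v c ≠ 0 := by rw [hc]; simp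
      simpa using this
    · intro y hy
      have h : Valued.v (y - x) < Valued.v c := Valued.v.restrict_lt_iff.1 hy
      rw [Valuation.map_sub_swap, hc] at h
      exact h
  have hd : x ∈ closure (Set.range ((↑) : WithVal v.1 → Kv v)) := UniformSpace.Completion.denseRange_coe x
  obtain ⟨_, hy, y, rfl⟩ := mem_closure_iff_nhds.1 hd _ hU
  refine ⟨WithVal.equiv v.1 y, ?_⟩
  exact hy

theorem FOLF_reps (v : Pl F) (T : Set F[X]) (hT : T.Finite)
    (h : ∀ y : RatFunc F, v.1 y ≤ 1 → ∃ r ∈ T, v.1 (y - algebraMap F[X] (RatFunc F) r) < 1) :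
    ∃ S : Finset (Kv v), ∀ x : Kv v, Valued.v x ≤ 1 → ∃ s ∈ S, Valued.v (x - s) < 1 := by
  classical
  refine ⟨hT.toFinset.image (ev v), ?_⟩
  intro x hx
  obtain ⟨y, hy⟩ := exists_close v x 0
  rw [neg_zero, WithZero.exp_zero] at hy
  have hy1 : v.1 y ≤ 1 := by
    rw [← emb_val]
    have e : emb v y = x - (x - emb v y) := by ring
    rw [e]
    exact (Valuation.map_sub _ _ _).trans (max_le hx hy.le)
  obtain ⟨r, hr, hr1⟩ := h y hy1
  refine ⟨ev v r, Finset.mem_image_of_mem _ (hT.mem_toFinset.2 hr), ?_⟩
  have e : x - ev v r = (x - emb v y) + emb v (y - algebraMap F[X] (RatFunc F) r) := by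
    rw [map_sub]
    unfold ev
    simp
  rw [e]
  exact (Valuation.map_add _ _ _).trans_lt (max_lt hy (by rw [emb_val]; exact hr1))

theorem FOLF_inf [DecidableEq (RatFunc F)] (y : RatFunc F) (hy : RatFunc.inftyValuation F y ≤ 1) :
    ∃ c : F, RatFunc.inftyValuation F (y - algebraMap F[X] (RatFunc F) (C c)) < 1 := by
  have hval : ∀ p : F[X], p ≠ 0 → RatFunc.inftyValuation F (algebraMap F[X] (RatFunc F) p) =
      WithZero.exp (p.natDegree : ℤ) := fun p hp => RatFunc.inftyValuation.polynomial F hp
  have hg : y.denom ≠ 0 := RatFunc.denom_ne_zero y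
  have hg' : algebraMap F[X] (RatFunc F) y.denom ≠ 0 := RatFunc.algebraMap_ne_zero hg
  have hyd := RatFunc.num_div_denom y
  have hvg := hval _ hg
  have hdeg : y.num.natDegree ≤ y.denom.natDegree := by
    by_cases hf : y.num = 0
    · rw [hf]
      simp
    · have hvf := hval _ hf
      rw [← hyd, map_div₀, hvf, hvg, ← WithZero.exp_sub, ← WithZero.exp_zero, WithZero.exp_le_exp] at hy
      omega
  refine ⟨y.num.coeff y.denom.natDegree / y.denom.leadingCoeff, ?_⟩
  generalize hc : y.num.coeff y.denom.natDegree / y.denom.leadingCoeff = c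
  have hlc : y.denom.leadingCoeff ≠ 0 := leadingCoeff_ne_zero.2 hg
  have hf : (y.num - C c * y.denom).degree < (y.denom.natDegree : WithBot ℕ) := by
    rw [degree_lt_iff_coeff_zero]
    intro m hm
    rw [coeff_sub, coeff_C_mul]
    rcases eq_or_lt_of_le hm with h | h
    · rw [← h, ← hc]
      unfold leadingCoeff at hlc ⊢
      field_simp
      ring
    · rw [coeff_eq_zero_of_natDegree_lt (hdeg.trans_lt h), coeff_eq_zero_of_natDegree_lt h]
      ring
  have e : y - algebraMap F[X] (RatFunc F) (C c) =
      algebraMap F[X] (RatFunc F) (y.num - C c * y.denom) / algebraMap F[X] (RatFunc F) y.denom := by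
    rw [map_sub, map_mul, sub_div, mul_div_cancel_right₀ _ hg', hyd]
  rw [e]
  by_cases h0 : y.num - C c * y.denom = 0
  · rw [h0]
    simp
  · rw [map_div₀, hval _ h0, hvg, ← WithZero.exp_sub, ← WithZero.exp_zero, WithZero.exp_lt_exp]
    rw [degree_eq_natDegree h0] at hf
    have hf' : (y.num - C c * y.denom).natDegree < y.denom.natDegree := by exact_mod_cast hf
    omega

theorem FOLF_fin {P : F[X]} (hP : Irreducible P) (y : RatFunc F)
    (hy : (hos P hP).valuation (RatFunc F) y ≤ 1) :
    ∃ r : F[X], r.degree < P.degree ∧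
      (hos P hP).valuation (RatFunc F) (y - algebraMap F[X] (RatFunc F) r) < 1 := by
  have hlt : ∀ f : F[X], (hos P hP).valuation (RatFunc F) (algebraMap F[X] (RatFunc F) f) < 1 ↔ P ∣ f := by
    intro f
    rw [IsDedekindDomain.HeightOneSpectrum.valuation_lt_one_iff_mem]
    exact Ideal.mem_span_singleton
  have hle : ∀ f : F[X], (hos P hP).valuation (RatFunc F) (algebraMap F[X] (RatFunc F) f) ≤ 1 :=
    fun f => IsDedekindDomain.HeightOneSpectrum.valuation_le_one _ f
  have hg : y.denom ≠ 0 := RatFunc.denom_ne_zero y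
  have hg' : algebraMap F[X] (RatFunc F) y.denom ≠ 0 := RatFunc.algebraMap_ne_zero hg
  have hyd := RatFunc.num_div_denom y
  have hPg : ¬ P ∣ y.denom := by
    intro h
    have hf : ¬ P ∣ y.num := by
      intro h'
      exact hP.not_isUnit ((RatFunc.isCoprime_num_denom y).isUnit_of_dvd' h' h)
    have h1 := (hlt _).2 h
    have h2 : (hos P hP).valuation (RatFunc F) (algebraMap F[X] (RatFunc F) y.num) = 1 :=
      le_antisymm (hle _) (not_lt.1 fun h' => hf ((hlt _).1 h'))
    rw [← hyd, map_div₀, h2, one_div] at hy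
    have h3 : 0 < (hos P hP).valuation (RatFunc F) (algebraMap F[X] (RatFunc F) y.denom) :=
      zero_lt_iff.2 ((Valuation.ne_zero_iff _).2 hg')
    exact absurd hy (not_le.2 ((one_lt_inv₀ h3).2 h1))
  have hvg : (hos P hP).valuation (RatFunc F) (algebraMap F[X] (RatFunc F) y.denom) = 1 :=
    le_antisymm (hle _) (not_lt.1 fun h' => hPg ((hlt _).1 h'))
  obtain ⟨a, b, hab⟩ := hP.coprime_iff_not_dvd.2 hPg
  refine ⟨(y.num * b) % P, degree_mod_lt _ hP.ne_zero, ?_⟩
  have hmod := EuclideanDomain.div_add_mod (y.num * b) P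
  have e1 : y.num - (y.num * b) % P * y.denom = P * (y.num * a + (y.num * b) / P * y.denom) := by
    linear_combination y.num * hab.symm - y.denom * hmod
  have e : y - algebraMap F[X] (RatFunc F) ((y.num * b) % P) =
      algebraMap F[X] (RatFunc F) (P * (y.num * a + (y.num * b) / P * y.denom)) /
        algebraMap F[X] (RatFunc F) y.denom := by
    rw [← e1, map_sub, map_mul, sub_div, mul_div_cancel_right₀ _ hg', hyd]
  rw [e, map_div₀, hvg, div_one, hlt]
  exact Dvd.intro _ rfl

theorem FOLF_finite [Finite F] (P : F[X]) (hP : P ≠ 0) : {r : F[X] | r.degree < P.degree}.Finite := by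
  have h : Finite (degreeLT F P.natDegree) := Finite.of_equiv _ (degreeLTEquiv F P.natDegree).symm.toEquiv
  have h2 : ((degreeLT F P.natDegree : Submodule F F[X]) : Set F[X]).Finite := Set.toFinite _
  refine h2.subset ?_
  intro r hr
  rw [SetLike.mem_coe, mem_degreeLT, ← degree_eq_natDegree hP]
  exact hr

theorem res_reps [Finite F] (v : Pl F) :
    ∃ S : Finset (Kv v), ∀ x : Kv v, Valued.v x ≤ 1 → ∃ s ∈ S, Valued.v (x - s) < 1 := by
  classical
  rcases pl_cases v with h | ⟨P, hP, -, h⟩
  · subst h
    refine FOLF_reps _ (Set.range fun c : F => (C c : F[X])) (Set.finite_range _) ?_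
    intro y hy
    obtain ⟨c, hc⟩ := FOLF_inf y hy
    exact ⟨C c, ⟨c, rfl⟩, hc⟩
  · subst h
    refine FOLF_reps _ _ (FOLF_finite P hP.ne_zero) ?_
    intro y hy
    obtain ⟨r, hr, hr1⟩ := FOLF_fin hP y hy
    exact ⟨r, hr, hr1⟩

theorem exists_olf [Finite F] (h2 : ringChar F ≠ 2) (v : Pl F) : ∃ O : OLF (Kv v), ∀ x : Kv v, O.ord x = ordv v x := by
  have h : Valued.v (2 : Kv v) = 1 := by
    have e : (2 : Kv v) = emb v (algebraMap F (RatFunc F) 2) := by
      rw [map_ofNat, map_ofNat]
    rw [e, emb_val]
    exact FiniteField.valuation_algebraMap_eq_one _ _ (Ring.two_ne_zero h2)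
  exact olf_of_valued (Kv v) (FOLF_surj v) h (res_reps v)

/-- the local field structure of the completion -/
noncomputable def olf [Finite F] (h2 : ringChar F ≠ 2) (v : Pl F) : OLF (Kv v) := (exists_olf h2 v).choose

theorem olf_ord [Finite F] (h2 : ringChar F ≠ 2) (v : Pl F) (x : Kv v) : (olf h2 v).ord x = ordv v x :=
  (exists_olf h2 v).choose_spec x

end FZ
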