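import Pool.Agent.Lib.MP_1ad228_nt.FF.FP1a

/-! JOB FP1.  A point of odd degree over a local field `L` (structure `OLF`, see `FLoc.lean`), from polynomials over a ring `R` with an integral homomorphism `φ : R → L`.
MODEL (`L = ℚ_p`, `R = ℤ`, complete proof): `odd_point` in `Pool/Agent/Lib/MP_1ad228_ntR/RP1.lean` (there `P` was irreducible over `L`; here we take an irreducible factor of odd degree).

Proof of `exists_odd_factor`: a monic polynomial of odd degree over a field has a (monic) irreducible factor of odd degree: strong induction on the degree, or `Multiset.sum` of the degrees of the `normalizedFactors`.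
Proof of `odd_point_olf`.  `f = ∏ (X^2 - C (a i)) : R[X]`.
(1) Let `Q₁` be a monic irreducible factor of odd degree `n` of `Q.map φ` over `L` (`exists_odd_factor`).  `K = AdjoinRoot Q₁` is a field (`Fact (Irreducible _)`) of degree `n` over `L` (`AdjoinRoot.powerBasis`, `PowerBasis.finrank`,
`AdjoinRoot.powerBasis_dim`), finite dimensional; `θ` its root, `Q(θ) = 0`.  For `h : R[X]` write `h(θ) = h.eval₂ ((algebraMap L K).comp φ) θ`.
(2) Take `v : LVal L O.w K` (`O.ext K`).  `v (φ r) ≤ 1` (`ext`, `hφ`).  `v θ ≤ 1`: if `v θ > 1` then in `θ^N = - ∑_{i<N} c_i θ^i` (`Q` monic of degree `N`, `Polynomial.Monic.as_sum`) the right side has absolute value at most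
`v θ^(N-1) < v θ^N` (ultrametric inequality for finite sums), a contradiction.  Hence `v (h(θ)) ≤ 1` for every `h : R[X]` (`Polynomial.induction_on`).
(3) `v (φ ϖ) < 1`.  From the two identities: `D W(θ)^2 - f(θ) = ϖ B(θ)` and `V(θ) f(θ) = 1 + ϖ B'(θ)`; `v (V(θ) f(θ) - 1) < 1` so `v (V(θ) f(θ)) = 1` (if it were `< 1`, then `v 1 < 1`), and since both factors are `≤ 1`: `v (f(θ)) = 1`.
(4) `t = D W(θ)^2 / f(θ)` satisfies `v (t - 1) = v (ϖ B(θ)) / 1 < 1`, so `t = s * s` (`one_unit`), `t ≠ 0` (otherwise `v (t - 1) = v (-1) = 1`), `s ≠ 0`, and `D * (W(θ)/s)^2 = f(θ) = ∏ (θ^2 - a_i * 1^2)`.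
The point is `x = θ, z = 1, w = W(θ)/s`. -/

namespace FZ

open Finset Polynomial

theorem exists_odd_factor {L : Type} [Field L] (Q : L[X]) (hQ : Q.Monic) (ho : Odd Q.natDegree) :
    ∃ Q₁ : L[X], Q₁.Monic ∧ Irreducible Q₁ ∧ Odd Q₁.natDegree ∧ Q₁ ∣ Q := by
  obtain ⟨n, hn⟩ : ∃ n, n = Q.natDegree := ⟨_, rfl⟩
  induction n using Nat.strong_induction_on generalizing Q with
  | _ n ih =>
    have hu : ¬ IsUnit Q := by
      intro hu
      have h0 := Polynomial.natDegree_eq_zero_of_isUnit hu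
      rw [h0] at ho
      exact absurd ho (by decide)
    obtain ⟨g, hgm, hgi, hgd⟩ := Polynomial.exists_monic_irreducible_factor Q hu
    rcases Nat.even_or_odd g.natDegree with he | hodd
    · obtain ⟨h, hh⟩ := hgd
      have hhm : h.Monic := by
        rw [hh] at hQ
        exact hgm.of_mul_monic_left hQ
      have hdeg : Q.natDegree = g.natDegree + h.natDegree := by
        rw [hh]
        exact hgm.natDegree_mul hhm
      have hgpos : 0 < g.natDegree := hgi.natDegree_pos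
      have hho : Odd h.natDegree := by
        rw [hdeg] at ho
        by_contra hc
        rw [Nat.not_odd_iff_even] at hc
        exact absurd ho (Nat.not_odd_iff_even.2 (he.add hc))
      obtain ⟨Q₁, h1, h2, h3, h4⟩ := ih h.natDegree (by omega) h hhm hho rfl
      exact ⟨Q₁, h1, h2, h3, h4.trans ⟨g, by rw [hh, mul_comm]⟩⟩
    · exact ⟨g, hgm, hgi, hodd, hgd⟩

section FP1aux

variable {L : Type} [Field L] {w : L → ℝ} {K : Type} [Field K] [Algebra L K] (V : LVal L w K)

include V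

private theorem fp1_v_one : V.v 1 = 1 := by
  have h := V.mul 1 1
  rw [mul_one] at h
  have h0 : V.v 1 ≠ 0 := fun h0 => one_ne_zero ((V.zero_iff 1).1 h0)
  have h2 : V.v 1 * 1 = V.v 1 * V.v 1 := by rw [mul_one]; exact h
  exact (mul_left_cancel₀ h0 h2).symm

private theorem fp1_v_neg (x : K) : V.v (-x) = V.v x := by
  have h1 : V.v (-1) * V.v (-1) = 1 := by
    rw [← V.mul, neg_one_mul, neg_neg, fp1_v_one V]
  have h2 : V.v (-1) = 1 := by
    have h0 := V.nonneg (-1)
    nlinarith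
  rw [← neg_one_mul, V.mul, h2, one_mul]

private theorem fp1_v_pow (x : K) (k : ℕ) : V.v (x ^ k) = V.v x ^ k := by
  induction k with
  | zero => rw [pow_zero, pow_zero, fp1_v_one V]
  | succ k ih => rw [pow_succ, pow_succ, V.mul, ih]

private theorem fp1_v_sum {α : Type} (s : Finset α) (f : α → K) (M : ℝ) (hM : 0 ≤ M)
    (h : ∀ i ∈ s, V.v (f i) ≤ M) : V.v (∑ i ∈ s, f i) ≤ M := by
  classical
  induction s using Finset.induction_on with
  | empty =>
    rw [Finset.sum_empty, (V.zero_iff 0).2 rfl]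
    exact hM
  | insert b s hb ih =>
    rw [Finset.sum_insert hb]
    exact (V.add _ _).trans (max_le (h b (Finset.mem_insert_self b s))
      (ih fun i hi => h i (Finset.mem_insert_of_mem hi)))

end FP1aux

theorem odd_point_olf {R : Type} [CommRing R] {L : Type} [Field L] (O : OLF L) (φ : R →+* L)
    (hφ : ∀ r, O.w (φ r) ≤ 1) (ϖ : R) (hϖ : O.w (φ ϖ) < 1) {ι : Type} [Fintype ι] (a : ι → R) (D : R)
    (Q W V A A' B B' : R[X]) (hQ : Q.Monic) (ho : Odd Q.natDegree)
    (h1 : C D * W ^ 2 - ∏ i, (X ^ 2 - C (a i)) = Q * A + C ϖ * B)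
    (h2 : V * ∏ i, (X ^ 2 - C (a i)) = 1 + Q * A' + C ϖ * B') :
    ∃ P : Pt L (fun i => φ (a i)) (φ D), Odd (Module.finrank L P.K) := by
  have hQmap : (Q.map φ).natDegree = Q.natDegree := hQ.natDegree_map φ
  obtain ⟨g, hgm, hgi, hgo, hgd⟩ := exists_odd_factor (Q.map φ) (hQ.map φ) (by rw [hQmap]; exact ho)
  have : Fact (Irreducible g) := ⟨hgi⟩
  have hfr : Module.finrank L (AdjoinRoot g) = g.natDegree := by
    rw [(AdjoinRoot.powerBasis hgi.ne_zero).finrank, AdjoinRoot.powerBasis_dim]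
  have : FiniteDimensional L (AdjoinRoot g) := (AdjoinRoot.powerBasis hgi.ne_zero).finite
  obtain ⟨v⟩ := O.ext (AdjoinRoot g)
  obtain ⟨θ, hθ⟩ : ∃ θ, θ = AdjoinRoot.root g := ⟨_, rfl⟩
  obtain ⟨ψ, hψ⟩ : ∃ ψ : R →+* AdjoinRoot g, ψ = (algebraMap L (AdjoinRoot g)).comp φ := ⟨_, rfl⟩
  have hψa : ∀ r, algebraMap L (AdjoinRoot g) (φ r) = ψ r := fun r => by rw [hψ]; rfl
  have hvψ : ∀ r, v.v (ψ r) ≤ 1 := by
    intro r
    rw [← hψa, v.ext]
    exact hφ r
  obtain ⟨E, hE⟩ : ∃ E : R[X] →+* AdjoinRoot g, E = Polynomial.eval₂RingHom ψ θ := ⟨_, rfl⟩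
  have hEC : ∀ c : R, E (C c) = ψ c := by
    intro c
    rw [hE]
    simp
  have hEX : E X = θ := by
    rw [hE]
    simp
  have hEQ : E Q = 0 := by
    obtain ⟨h, hh⟩ := hgd
    have h3 : (Q.map φ).eval₂ (algebraMap L (AdjoinRoot g)) θ = 0 := by
      rw [hh, Polynomial.eval₂_mul, hθ]
      have h4 : Polynomial.eval₂ (algebraMap L (AdjoinRoot g)) (AdjoinRoot.root g) g = 0 :=
        AdjoinRoot.eval₂_root g
      rw [h4, zero_mul]
    rw [Polynomial.eval₂_map] at h3
    rw [hE, Polynomial.coe_eval₂RingHom, hψ]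
    exact h3
  have hn : 0 < Q.natDegree := ho.pos
  have hθ1 : v.v θ ≤ 1 := by
    by_contra hgt
    push Not at hgt
    have e : E Q = θ ^ Q.natDegree + ∑ i ∈ range Q.natDegree, ψ (Q.coeff i) * θ ^ i := by
      conv_lhs => rw [hQ.as_sum]
      rw [map_add, map_pow, hEX, map_sum]
      congr 1
      refine Finset.sum_congr rfl fun i _ => ?_
      rw [map_mul, map_pow, hEC, hEX]
    have e2 : θ ^ Q.natDegree = -∑ i ∈ range Q.natDegree, ψ (Q.coeff i) * θ ^ i := by
      rw [hEQ] at e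
      exact eq_neg_of_add_eq_zero_left e.symm
    have h3 : v.v (θ ^ Q.natDegree) ≤ v.v θ ^ (Q.natDegree - 1) := by
      rw [e2, fp1_v_neg v]
      refine fp1_v_sum v _ _ _ (pow_nonneg (v.nonneg _) _) fun i hi => ?_
      rw [v.mul, fp1_v_pow v]
      have hi' : i ≤ Q.natDegree - 1 := by
        have := Finset.mem_range.1 hi
        omega
      calc v.v (ψ (Q.coeff i)) * v.v θ ^ i ≤ 1 * v.v θ ^ i :=
            mul_le_mul_of_nonneg_right (hvψ _) (pow_nonneg (v.nonneg _) _)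
        _ = v.v θ ^ i := one_mul _
        _ ≤ v.v θ ^ (Q.natDegree - 1) := pow_le_pow_right₀ hgt.le hi'
    rw [fp1_v_pow v] at h3
    have h4 : v.v θ ^ (Q.natDegree - 1) < v.v θ ^ Q.natDegree :=
      pow_lt_pow_right₀ hgt (by omega)
    exact absurd h3 (not_le.2 h4)
  have hvE : ∀ h : R[X], v.v (E h) ≤ 1 := by
    intro h
    have e : E h = ∑ i ∈ range (h.natDegree + 1), ψ (h.coeff i) * θ ^ i := by
      conv_lhs => rw [h.as_sum_range_C_mul_X_pow]
      rw [map_sum]
      refine Finset.sum_congr rfl fun i _ => ?_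
      rw [map_mul, map_pow, hEC, hEX]
    rw [e]
    refine fp1_v_sum v _ _ _ zero_le_one fun i _ => ?_
    rw [v.mul, fp1_v_pow v]
    exact mul_le_one₀ (hvψ _) (pow_nonneg (v.nonneg _) _) (pow_le_one₀ (v.nonneg _) hθ1)
  have hvp : v.v (ψ ϖ) < 1 := by
    rw [← hψa, v.ext]
    exact hϖ
  obtain ⟨fθ, hfθ⟩ : ∃ fθ, fθ = E (∏ i, (X ^ 2 - C (a i))) := ⟨_, rfl⟩
  have hfθ' : fθ = ∏ i, (θ ^ 2 - ψ (a i)) := by
    rw [hfθ, map_prod]
    refine Finset.prod_congr rfl fun i _ => ?_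
    rw [map_sub, map_pow, hEX, hEC]
  have i1 : ψ D * E W ^ 2 - fθ = ψ ϖ * E B := by
    have h := congrArg E h1
    rw [map_sub, map_mul, map_pow, hEC, map_add, map_mul, map_mul, hEQ, zero_mul, zero_add,
      hEC, ← hfθ] at h
    exact h
  have i2 : E V * fθ = 1 + ψ ϖ * E B' := by
    have h := congrArg E h2
    rw [map_mul, ← hfθ, map_add, map_add, map_mul, map_mul, hEQ, zero_mul, add_zero, map_one,
      hEC] at h
    exact h
  have hlt : ∀ h : R[X], v.v (ψ ϖ * E h) < 1 := by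
    intro h
    rw [v.mul]
    calc v.v (ψ ϖ) * v.v (E h) ≤ v.v (ψ ϖ) * 1 :=
          mul_le_mul_of_nonneg_left (hvE h) (v.nonneg _)
      _ < 1 := by rw [mul_one]; exact hvp
  have hf1 : v.v fθ = 1 := by
    have hle : v.v fθ ≤ 1 := by
      rw [hfθ]
      exact hvE _
    have h3 : (1 : ℝ) ≤ max (v.v (E V * fθ)) (v.v (-(ψ ϖ * E B'))) := by
      have h := v.add (E V * fθ) (-(ψ ϖ * E B'))
      rw [i2, add_neg_cancel_right, fp1_v_one v, ← i2] at h
      exact h
    rw [fp1_v_neg v] at h3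
    have h4 : (1 : ℝ) ≤ v.v (E V * fθ) := by
      rcases le_max_iff.1 h3 with h | h
      · exact h
      · exact absurd h (not_le.2 (hlt B'))
    rw [v.mul] at h4
    have h5 : v.v (E V) * v.v fθ ≤ 1 * v.v fθ := mul_le_mul_of_nonneg_right (hvE V) (v.nonneg _)
    linarith
  have hf0 : fθ ≠ 0 := by
    intro h
    rw [h, (v.zero_iff 0).2 rfl] at hf1
    exact zero_ne_one hf1
  have ht1 : v.v (ψ D * E W ^ 2 / fθ - 1) < 1 := by
    have e : ψ D * E W ^ 2 / fθ - 1 = ψ ϖ * E B / fθ := by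
      rw [← i1]
      field_simp
    rw [e]
    have h3 : v.v (ψ ϖ * E B / fθ) * v.v fθ = v.v (ψ ϖ * E B) := by
      rw [← v.mul, div_mul_cancel₀ _ hf0]
    rw [hf1, mul_one] at h3
    rw [h3]
    exact hlt B
  obtain ⟨s, hs⟩ := v.one_unit _ ht1
  have ht0 : ψ D * E W ^ 2 / fθ ≠ 0 := by
    intro h
    rw [h, zero_sub, fp1_v_neg v, fp1_v_one v] at ht1
    exact lt_irrefl _ ht1
  have hs0 : s ≠ 0 := by
    rintro rfl
    apply ht0
    rw [hs, mul_zero]
  refine ⟨⟨AdjoinRoot g, θ, 1, E W / s, fun h => one_ne_zero h.2, ?_⟩, ?_⟩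
  · have e1 : (∏ i, (θ ^ 2 - algebraMap L (AdjoinRoot g) (φ (a i)) * 1 ^ 2)) = fθ := by
      rw [hfθ']
      refine Finset.prod_congr rfl fun i _ => ?_
      rw [one_pow, mul_one, hψa]
    rw [e1, hψa]
    have e2 : ψ D * E W ^ 2 = s * s * fθ := by
      rw [← hs, div_mul_cancel₀ _ hf0]
    rw [div_pow, mul_div_assoc', e2, sq, mul_comm (s * s) fθ, mul_div_assoc,
      div_self (mul_ne_zero hs0 hs0), mul_one]
  · show Odd (Module.finrank L (AdjoinRoot g))
    rw [hfr]
    exact hgo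

end FZ
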