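import Pool.Agent.Lib.MP_1ad228_nt.FF.FRel
import Pool.Agent.Lib.MP_1ad228_ntR.RF8

/-! JOB FP1a.  Lifting the polynomials of `ZR.odd_poly` from the residue field `F[t]/(P)` to `F[t]`.
MODEL (over `ℤ`, complete proof): `lift_poly` in `Pool/Agent/Lib/MP_1ad228_ntR/RP1a.lean` (without its irreducibility statement, which is not needed here).

Proof.  `κ = AdjoinRoot P` is a field (`Fact (Irreducible P)`), finite (`AdjoinRoot.powerBasis`/`Module.finite_of_finite`/`Module.Finite` over `F`; take `Fintype.ofFinite`), of characteristic different from `2`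
(`ringChar κ = ringChar F`: `Algebra.ringChar_eq F κ`), `DecidableEq κ` classical.  Let `ā i = AdjoinRoot.mk P (a i)`; `ā` is injective by `hinj` (`AdjoinRoot.mk_eq_mk`), the `ā i` and `D̄` are not squares in `κ` (`AdjoinRoot.mk_surjective`:
a root `s = mk g`, `s * s = mk (a i)` gives `P ∣ a i - g^2`).  Take `P₀` (called `Q₀` here), `W₀` over `κ` from `ZR.odd_poly`, `f₀ = ZR.ff ā = ∏ (X^2 - C (ā i))`, the reduction of `f = ∏ (X^2 - C (a i)) : F[X][X]` by
`Polynomial.map (AdjoinRoot.mk P)`.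
(1) Lift `Q₀` to a monic `Q : F[X][X]` with `Q.natDegree = Q₀.natDegree` (`Polynomial.lifts_and_natDegree_eq_and_monic`, `Polynomial.map_surjective` with `AdjoinRoot.mk_surjective`), `W₀` to `W`; from `IsCoprime Q₀ f₀`: `U₀ Q₀ + V₀ f₀ = 1`,
lift `V₀` to `V`, `-U₀` to `A'`; `C D̄ * W₀^2 - f₀ = Q₀ * A₀`, lift `A₀` to `A`.
(2) `C D * W^2 - f - Q * A` and `V * f - 1 - Q * A'` have zero reduction mod `P`, so all their coefficients are divisible by `P` (`AdjoinRoot.mk_eq_zero`, `Polynomial.coeff_map`) and they are `C P * B`, `C P * B'`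
(`Polynomial.C_dvd_iff_dvd_coeff`). -/

namespace FZ

open Finset Polynomial

private theorem fp1a_dvd {F : Type} [Field F] (P : F[X]) (Q : F[X][X]) (hQ : Q.map (AdjoinRoot.mk P) = 0) :
    ∃ B : F[X][X], Q = C P * B := by
  have h : C P ∣ Q := by
    rw [Polynomial.C_dvd_iff_dvd_coeff]
    intro n
    have h1 : (Q.map (AdjoinRoot.mk P)).coeff n = 0 := by rw [hQ, coeff_zero]
    rw [coeff_map] at h1
    exact AdjoinRoot.mk_eq_zero.1 h1
  exact h

private theorem fp1a_lift {F : Type} [Field F] (P : F[X]) (Q : (AdjoinRoot P)[X]) :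
    ∃ B : F[X][X], B.map (AdjoinRoot.mk P) = Q :=
  Polynomial.map_surjective _ AdjoinRoot.mk_surjective Q

private theorem fp1a_nsq {F : Type} [Field F] (P a : F[X]) (h : ¬ ∃ g : F[X], P ∣ a - g ^ 2) :
    ¬ IsSquare (AdjoinRoot.mk P a) := by
  rintro ⟨s, hs⟩
  obtain ⟨g, rfl⟩ := AdjoinRoot.mk_surjective s
  refine h ⟨g, ?_⟩
  rw [← map_mul, AdjoinRoot.mk_eq_mk] at hs
  rw [sq]
  exact hs

theorem lift_poly {F : Type} [Field F] [Finite F] (h2 : ringChar F ≠ 2) {ι : Type} [Fintype ι] [Nonempty ι]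
    {P : F[X]} (hP : Irreducible P) (a : ι → F[X]) (D : F[X]) (hinj : ∀ i j, i ≠ j → ¬ P ∣ a i - a j)
    (hsq : ∀ i, ¬ ∃ g : F[X], P ∣ a i - g ^ 2) (hD : ¬ ∃ g : F[X], P ∣ D - g ^ 2) :
    ∃ Q W V A A' B B' : F[X][X], Q.Monic ∧ Odd Q.natDegree ∧
    C D * W ^ 2 - ∏ i, (X ^ 2 - C (a i)) = Q * A + C P * B ∧
    V * ∏ i, (X ^ 2 - C (a i)) = 1 + Q * A' + C P * B' := by
  classical
  have : Fact (Irreducible P) := ⟨hP⟩
  have : Module.Finite F (AdjoinRoot P) := (AdjoinRoot.powerBasis hP.ne_zero).finite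
  have : Finite (AdjoinRoot P) := Module.finite_of_finite F
  haveI : Fintype (AdjoinRoot P) := Fintype.ofFinite _
  have hq : ringChar (AdjoinRoot P) ≠ 2 := by
    rw [← Algebra.ringChar_eq F (AdjoinRoot P)]
    exact h2
  obtain ⟨Q₀, W₀, hQm, hQi, hQo, ⟨A₀, hA₀⟩, ⟨U₀, V₀, hUV⟩⟩ :=
    ZR.odd_poly hq (fun i => AdjoinRoot.mk P (a i)) (by
      intro i j hij
      by_contra hne
      exact hinj i j hne (AdjoinRoot.mk_eq_mk.1 hij)) (fun i => fp1a_nsq P (a i) (hsq i))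
      (AdjoinRoot.mk P D) (fp1a_nsq P D hD)
  have hf : (∏ i, (X ^ 2 - C (a i)) : F[X][X]).map (AdjoinRoot.mk P)
      = ZR.ff (fun i => AdjoinRoot.mk P (a i)) := by
    unfold ZR.ff
    rw [Polynomial.map_prod]
    refine Finset.prod_congr rfl fun i _ => ?_
    simp
  obtain ⟨Q, hQ1, hQ2, hQ3⟩ := Polynomial.lifts_and_natDegree_eq_and_monic
    (f := AdjoinRoot.mk P) (p := Q₀) ((Polynomial.mem_lifts _).2 (fp1a_lift P Q₀)) hQm
  obtain ⟨W, hW⟩ := fp1a_lift P W₀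
  obtain ⟨V, hV⟩ := fp1a_lift P V₀
  obtain ⟨A, hA⟩ := fp1a_lift P A₀
  obtain ⟨A', hA'⟩ := fp1a_lift P (-U₀)
  obtain ⟨B, hB⟩ := fp1a_dvd P (C D * W ^ 2 - ∏ i, (X ^ 2 - C (a i)) - Q * A) (by
    rw [Polynomial.map_sub, Polynomial.map_sub, hf, Polynomial.map_mul, Polynomial.map_mul,
      Polynomial.map_pow, hW, hQ1, hA, ← hA₀, map_C]
    simp)
  obtain ⟨B', hB'⟩ := fp1a_dvd P (V * ∏ i, (X ^ 2 - C (a i)) - 1 - Q * A') (by
    rw [Polynomial.map_sub, Polynomial.map_sub, Polynomial.map_mul, Polynomial.map_mul, hf,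
      hV, hQ1, hA', Polynomial.map_one, ← hUV]
    ring)
  refine ⟨Q, W, V, A, A', B, B', hQ3, by rw [hQ2]; exact hQo, ?_, ?_⟩
  · linear_combination hB
  · linear_combination hB'

end FZ
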