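import Pool.Agent.Lib.MP_1ad228_nt.FF.FJac

/-! JOB FQDefs.  Definitions for the counting argument over `F[t]` (compare `Pool/Agent/Lib/MP_10e784_ag/QDefs.lean`), and the first counting facts.

`mem_Vec`, `mem_Box`: a monic `d ℓ` with `∑ deg ≤ n`... each degree is at most the sum.
`card_Vec_deg`: the vectors of monic polynomials with given degrees `δ ℓ` are the `piFinset` of the `mon F (δ ℓ)`: `∏ q^(δ ℓ) = q^(∑ δ)`.
`card_degs`: the degree vectors are in `piFinset (range (n+1))`. -/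

namespace FZ

open Finset Polynomial

section defs

/-- a label system: labels `ℓ` with an index `idx ℓ ∈ I` and a set `St ℓ ⊆ I` not containing it -/
structure Sys (κ L : Type) where
  idx : L → κ
  St : L → Finset κ
  I : Finset κ
  idx_mem : ∀ ℓ, idx ℓ ∈ I
  St_sub : ∀ ℓ, St ℓ ⊆ I
  not_mem : ∀ ℓ, idx ℓ ∉ St ℓ
  inj : ∀ ℓ ℓ', idx ℓ = idx ℓ' → St ℓ = St ℓ' → ℓ = ℓ'

variable {F : Type} [Field F]

/-- the product of the variables belonging to the index `i` -/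
noncomputable def eOf {κ L : Type} [Fintype L] [DecidableEq κ] (s : Sys κ L) (d : L → F[X]) (i : κ) : F[X] :=
  ∏ ℓ with s.idx ℓ = i, d ℓ

/-- the summand after expansion -/
noncomputable def FF [Fintype F] [DecidableEq F] {κ L : Type} [Fintype κ] [Fintype L] [DecidableEq κ] (s : Sys κ L)
    (u : L → F[X] → ℝ) (k : κ → F[X] → ℝ) (d : L → F[X]) : ℝ :=
  (∏ i, k i (eOf s d i)) * ∏ ℓ, (pf (u ℓ) (d ℓ) * ∏ j ∈ s.St ℓ, (jac (eOf s d j) (d ℓ) : ℝ))

/-- two labels are linked (in this order) -/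
def Linked {κ L : Type} (s : Sys κ L) (ℓ0 ℓ1 : L) : Prop :=
  s.idx ℓ0 ≠ s.idx ℓ1 ∧ s.idx ℓ0 ∈ s.St ℓ1 ∧ s.idx ℓ1 ∉ s.St ℓ0

end defs

variable (F : Type) [Field F] [Fintype F]

open Classical in
/-- vectors of monic polynomials of total degree `n` -/
noncomputable def Vec (L : Type) [Fintype L] [DecidableEq L] (n : ℕ) : Finset (L → F[X]) :=
  (Fintype.piFinset fun _ : L => (range (n + 1)).biUnion (mon F)).filter fun d => ∑ ℓ, (d ℓ).natDegree = n

open Classical in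
/-- vectors of monic polynomials of total degree `n` whose product is squarefree -/
noncomputable def Box (L : Type) [Fintype L] [DecidableEq L] (n : ℕ) : Finset (L → F[X]) :=
  (Vec F L n).filter fun d => Squarefree (∏ ℓ, d ℓ)

theorem mem_Vec {L : Type} [Fintype L] [DecidableEq L] {n : ℕ} {d : L → F[X]} :
    d ∈ Vec F L n ↔ (∀ ℓ, (d ℓ).Monic) ∧ ∑ ℓ, (d ℓ).natDegree = n := by
  classical
  simp only [Vec, mem_filter, Fintype.mem_piFinset, mem_biUnion, mem_range, mem_mon]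
  constructor
  · rintro ⟨h1, h2⟩
    refine ⟨fun ℓ => ?_, h2⟩
    obtain ⟨m, -, hm, -⟩ := h1 ℓ
    exact hm
  · rintro ⟨h1, h2⟩
    refine ⟨fun ℓ => ⟨(d ℓ).natDegree, ?_, h1 ℓ, rfl⟩, h2⟩
    have h3 : (d ℓ).natDegree ≤ ∑ ℓ, (d ℓ).natDegree :=
      Finset.single_le_sum (f := fun ℓ => (d ℓ).natDegree) (fun _ _ => Nat.zero_le _) (mem_univ ℓ)
    omega

theorem mem_Box {L : Type} [Fintype L] [DecidableEq L] {n : ℕ} {d : L → F[X]} :
    d ∈ Box F L n ↔ (∀ ℓ, (d ℓ).Monic) ∧ ∑ ℓ, (d ℓ).natDegree = n ∧ Squarefree (∏ ℓ, d ℓ) := by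
  classical
  rw [Box, mem_filter, mem_Vec, and_assoc]

/-- the degree vectors of total degree `n` -/
noncomputable def Degs (L : Type) [Fintype L] [DecidableEq L] (n : ℕ) : Finset (L → ℕ) :=
  (Fintype.piFinset fun _ : L => range (n + 1)).filter fun δ => ∑ ℓ, δ ℓ = n

theorem mem_Degs {L : Type} [Fintype L] [DecidableEq L] {n : ℕ} {δ : L → ℕ} :
    δ ∈ Degs L n ↔ ∑ ℓ, δ ℓ = n := by
  simp only [Degs, mem_filter, Fintype.mem_piFinset, mem_range]
  constructor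
  · exact fun h => h.2
  · intro h
    refine ⟨fun ℓ => ?_, h⟩
    have h3 : δ ℓ ≤ ∑ ℓ, δ ℓ :=
      Finset.single_le_sum (f := δ) (fun _ _ => Nat.zero_le _) (mem_univ ℓ)
    omega

theorem card_Degs {L : Type} [Fintype L] [DecidableEq L] (n : ℕ) :
    (Degs L n).card ≤ (n + 1) ^ Fintype.card L := by
  refine (card_filter_le _ _).trans ?_
  rw [Fintype.card_piFinset]
  simp

private theorem FQDefs_fiber {L : Type} [Fintype L] [DecidableEq L] (n : ℕ) (δ : L → ℕ)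
    (hδ : δ ∈ Degs L n) (d : L → F[X]) :
    (d ∈ Vec F L n ∧ (fun ℓ => (d ℓ).natDegree) = δ) ↔
      d ∈ Fintype.piFinset (fun ℓ => mon F (δ ℓ)) := by
  rw [mem_Vec, Fintype.mem_piFinset]
  simp only [mem_mon]
  rw [mem_Degs] at hδ
  constructor
  · rintro ⟨⟨h1, -⟩, h3⟩ ℓ
    exact ⟨h1 ℓ, congrFun h3 ℓ⟩
  · intro h
    have h3 : (fun ℓ => (d ℓ).natDegree) = δ := funext fun ℓ => (h ℓ).2
    refine ⟨⟨fun ℓ => (h ℓ).1, ?_⟩, h3⟩
    rw [← hδ]
    exact Finset.sum_congr rfl fun ℓ _ => (h ℓ).2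

open Classical in
theorem card_Vec_deg {L : Type} [Fintype L] [DecidableEq L] (n : ℕ) (δ : L → ℕ) (hδ : δ ∈ Degs L n) :
    ((Vec F L n).filter fun d => ∀ ℓ, (d ℓ).natDegree = δ ℓ).card = Fintype.card F ^ n := by
  have h1 : (Vec F L n).filter (fun d => ∀ ℓ, (d ℓ).natDegree = δ ℓ) =
      Fintype.piFinset (fun ℓ => mon F (δ ℓ)) := by
    ext d
    rw [← FQDefs_fiber F n δ hδ d, mem_filter, funext_iff]
  rw [h1, Fintype.card_piFinset]
  simp only [card_mon]
  rw [Finset.prod_pow_eq_pow_sum, mem_Degs.1 hδ]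

/-- a sum over vectors, grouped by the degrees -/
theorem sum_Vec {L : Type} [Fintype L] [DecidableEq L] (n : ℕ) (φ : (L → F[X]) → ℝ) :
    ∑ d ∈ Vec F L n, φ d = ∑ δ ∈ Degs L n, ∑ d ∈ Fintype.piFinset (fun ℓ => mon F (δ ℓ)), φ d := by
  classical
  have h0 : ∀ d ∈ Vec F L n, (fun ℓ => (d ℓ).natDegree) ∈ Degs L n := by
    intro d hd
    rw [mem_Degs]
    exact ((mem_Vec F).1 hd).2
  rw [← Finset.sum_fiberwise_of_maps_to h0]
  refine Finset.sum_congr rfl fun δ hδ => Finset.sum_congr ?_ fun _ _ => rfl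
  ext d
  rw [← FQDefs_fiber F n δ hδ d, mem_filter]

theorem card_Box {L : Type} [Fintype L] [DecidableEq L] (n : ℕ) :
    (Box F L n).card ≤ (n + 1) ^ Fintype.card L * Fintype.card F ^ n := by
  classical
  have h1 : (Box F L n).card ≤ (Vec F L n).card := card_filter_le _ _
  have h0 : ∀ d ∈ Vec F L n, (fun ℓ => (d ℓ).natDegree) ∈ Degs L n := by
    intro d hd
    rw [mem_Degs]
    exact ((mem_Vec F).1 hd).2
  have h2 : (Vec F L n).card = ∑ δ ∈ Degs L n, Fintype.card F ^ n := by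
    rw [Finset.card_eq_sum_card_fiberwise h0]
    refine Finset.sum_congr rfl fun δ hδ => ?_
    rw [← card_Vec_deg F n δ hδ]
    congr 1
    ext d
    rw [mem_filter, mem_filter, funext_iff]
  rw [h2, sum_const, smul_eq_mul] at h1
  exact h1.trans (Nat.mul_le_mul_right _ (card_Degs n))

end FZ
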