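import Pool.Agent.Lib.MP_1ad228_nt.FF.FLoc

/-! JOB FRam.  If the ramification index of `K/L` is even, norms of units are squares in `L`.  Model (the case `L = ℚ_p`): `Pool/Agent/Lib/MP_1ad228_nt/ZRam.lean`; the proof is the same, with
`p⁻¹` replaced by `1/2 = w π`, and `LVal p K` by `LVal L O.w K`.

Hypothesis: there is `x ∈ K` with `v(x)² = w π = 1/2`.  Claim: `v u = 1` implies that `N_{K/L}(u)` is a square.

Proof.  Choose an intermediate field `E` of `K/L` of maximal degree such that the values `v(y)`, `y ∈ E*`, are integral powers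
of `2`.  Norm formula: `v(N_{K/E}(y)) = v(y)^[K:E]` for `y ∈ K` (from the norm formulas over `L`, the absolute value of `E` (`O.ext E`) agrees with the one of `K`: both satisfy `w (N_{E/L} y) = v(y)^[E:L]`, `N_{K/L} y = (N_{E/L} y)^[K:E]`).
(i) If every `c ∈ E` with `v c = 1` is a square in `E`, apply this to `c = N_{K/E}(u)`.
(ii) Otherwise take `c ∈ E`, `v c = 1`, not a square in `E`.
  (a) `c` is not a square in `K`: by `two_classes` `u = s²` or `u c = s²` with `s ∈ K`; `N_{K/E}(u) = N(s)²` or `N(s)² c^(-n)`, `n = [K:E]`.  And `n` is even: `v(N_{K/E}(x))² = v(x)^(2n) = 2^(-n)` and `v(N_{K/E}(x))` is an integral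
      power of `2`.  So `N_{K/E}(u)` is a square.
  (b) `c = s²` with `s ∈ K`, `s ∉ E`: the field `E(s)` contradicts the maximality of `E`. (`v(a + b s) = max (v a) (v b)` for `a, b ∈ E`: otherwise `v(a + b s) < v a = v b`, so `v(s - a/b) < 1` hmm `v(s + a/b) < 1`, `d = -a/b ∈ E`, `v d = 1`,
      `c/d²  = (s/d)²` is close to `1`, so `c/d²` is a square in `E` by `one_unit` in `E`, and so is `c`.) -/

namespace FZ

open Polynomial

section

variable {L : Type} [Field L] {w : L → ℝ} {K : Type} [Field K] [Algebra L K]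

private lemma FRam_one (V : LVal L w K) : V.v 1 = 1 := by
  have h := V.mul 1 1
  have h0 : V.v 1 ≠ 0 := fun h0 => one_ne_zero ((V.zero_iff 1).1 h0)
  rw [mul_one] at h
  exact (mul_left_cancel₀ h0 (by rw [mul_one]; exact h)).symm

private lemma FRam_pow (V : LVal L w K) (x : K) (n : ℕ) : V.v (x ^ n) = V.v x ^ n := by
  induction n with
  | zero => rw [pow_zero, pow_zero, FRam_one V]
  | succ n ih => rw [pow_succ, pow_succ, V.mul, ih]

private lemma FRam_inv (V : LVal L w K) {x : K} (hx : x ≠ 0) : V.v x⁻¹ = (V.v x)⁻¹ := by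
  have h := V.mul x x⁻¹
  rw [mul_inv_cancel₀ hx, FRam_one V] at h
  exact eq_inv_of_mul_eq_one_right h.symm

private lemma FRam_neg (V : LVal L w K) (x : K) : V.v (-x) = V.v x := by
  have h : V.v (-x) ^ 2 = V.v x ^ 2 := by
    rw [← FRam_pow, ← FRam_pow]
    congr 1
    ring
  exact (pow_left_inj₀ (V.nonneg _) (V.nonneg _) two_ne_zero).1 h

private lemma FRam_add_eq (V : LVal L w K) {x y : K} (h : V.v x < V.v y) : V.v (x + y) = V.v y := by
  apply le_antisymm
  · exact (V.add x y).trans (max_le h.le le_rfl)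
  · have h1 := V.add (x + y) (-x)
    rw [FRam_neg, show x + y + -x = y by ring] at h1
    rcases le_max_iff.1 h1 with h2 | h2
    · exact h2
    · exact absurd h2 (not_le.2 h)

end

section

variable {L : Type} [Field L] (O : OLF L) {K : Type} [Field K] [Algebra L K] [FiniteDimensional L K]

private lemma FRam_wpow (x : L) (n : ℕ) : O.w (x ^ n) = O.w x ^ n := by
  obtain ⟨V, hV⟩ := O.self
  rw [← hV]
  exact FRam_pow V x n

include O in
/-- the absolute value of an intermediate field agrees with the one of `K` -/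
private lemma FRam_agree (V : LVal L O.w K) (E : IntermediateField L K) (VE : LVal L O.w E) (y : E) :
    VE.v y = V.v (y : K) := by
  have h1 : O.w (Algebra.norm L (y : K)) = V.v (y : K) ^ Module.finrank L K := V.norm _
  have h2 : Algebra.norm L (y : K) = (Algebra.norm L y) ^ Module.finrank E K := by
    rw [← Algebra.norm_norm (R := L) (S := E) (A := K) (a := (y : K))]
    have h3 : Algebra.norm E (y : K) = y ^ Module.finrank E K := Algebra.norm_algebraMap y
    rw [h3, map_pow]
  rw [h2, FRam_wpow, VE.norm, ← pow_mul, Module.finrank_mul_finrank] at h1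
  exact (pow_left_inj₀ (VE.nonneg _) (V.nonneg _) Module.finrank_pos.ne').1 h1

/-- the relative norm formula -/
private lemma FRam_norm (V : LVal L O.w K) (E : IntermediateField L K) (y : K) :
    V.v ((Algebra.norm E y : E) : K) = V.v y ^ Module.finrank E K := by
  obtain ⟨VE⟩ := O.ext E
  rw [← FRam_agree O V E VE]
  have h1 : O.w (Algebra.norm L (Algebra.norm E y)) =
      VE.v (Algebra.norm E y) ^ Module.finrank L E := VE.norm _
  rw [Algebra.norm_norm, V.norm, ← Module.finrank_mul_finrank L E K, mul_comm, pow_mul] at h1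
  exact ((pow_left_inj₀ (pow_nonneg (V.nonneg _) _) (VE.nonneg _) Module.finrank_pos.ne').1 h1).symm

omit [FiniteDimensional L K] in
/-- the values are integral powers of `2` -/
private def FRam_S (V : LVal L O.w K) (E : IntermediateField L K) : Prop :=
  ∀ y : K, y ∈ E → y ≠ 0 → ∃ m : ℤ, V.v y = (2 : ℝ) ^ m

omit [FiniteDimensional L K] in
private lemma FRam_bot (V : LVal L O.w K) : FRam_S O V ⊥ := by
  intro y hy hy0
  obtain ⟨c, rfl⟩ := IntermediateField.mem_bot.1 hy
  have hc : c ≠ 0 := by
    rintro rfl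
    exact hy0 (map_zero _)
  exact ⟨-O.ord c, by rw [V.ext, O.w_eq c hc]⟩

private lemma FRam_max (V : LVal L O.w K) : ∃ E : IntermediateField L K, FRam_S O V E ∧
    ∀ E' : IntermediateField L K, FRam_S O V E' → E ≤ E' → E' = E := by
  let T : Set ℕ := {n | ∃ E : IntermediateField L K, FRam_S O V E ∧ Module.finrank L E = n}
  have hne : T.Nonempty := ⟨_, ⊥, FRam_bot O V, rfl⟩
  have hbdd : BddAbove T := by
    refine ⟨Module.finrank L K, ?_⟩
    rintro n ⟨E, -, rfl⟩
    exact Submodule.finrank_le (E.toSubalgebra.toSubmodule)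
  obtain ⟨E, hE, hEn⟩ := Nat.sSup_mem hne hbdd
  refine ⟨E, hE, fun E' hE' hEE => ?_⟩
  refine (IntermediateField.eq_of_le_of_finrank_le hEE ?_).symm
  rw [hEn]
  exact le_csSup hbdd ⟨E', hE', rfl⟩

/-- elements of `E(s)`, `s² ∈ E` -/
private lemma FRam_mem_adjoin (E : IntermediateField L K) (s : K) (c : E) (hs : s * s = c)
    (y : K) (hy : y ∈ IntermediateField.adjoin E {s}) : ∃ a b : E, y = a + b * s := by
  have halg : IsAlgebraic E s := Algebra.IsAlgebraic.isAlgebraic s
  have h1 : y ∈ (IntermediateField.adjoin E {s}).toSubalgebra := hy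
  rw [IntermediateField.adjoin_simple_toSubalgebra_of_isAlgebraic halg,
    Algebra.adjoin_singleton_eq_range_aeval] at h1
  obtain ⟨P, rfl⟩ := h1
  set q : E[X] := X ^ 2 - C c with hq
  have hqm : q.Monic := monic_X_pow_sub_C c two_ne_zero
  have hq0 : aeval s q = 0 := by
    rw [hq, map_sub, map_pow, aeval_X, aeval_C, pow_two, hs]
    exact sub_self _
  have h2 : aeval s (P %ₘ q) = aeval s P := aeval_modByMonic_eq_self_of_root hq0
  have h3 : (P %ₘ q).natDegree ≤ 1 := by
    have h4 : (P %ₘ q).natDegree < q.natDegree := by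
      apply natDegree_modByMonic_lt P hqm
      intro h5
      have : q.natDegree = 2 := natDegree_X_pow_sub_C
      rw [h5, natDegree_one] at this
      omega
    have h6 : q.natDegree = 2 := natDegree_X_pow_sub_C
    omega
  obtain ⟨b, a, hab⟩ := exists_eq_X_add_C_of_natDegree_le_one h3
  refine ⟨a, b, ?_⟩
  change aeval s P = _
  rw [← h2, hab, map_add, map_mul, aeval_C, aeval_C, aeval_X, add_comm]
  rfl

/-- the quadratic unramified extension -/
private lemma FRam_quad (V : LVal L O.w K) (E : IntermediateField L K) (hE : FRam_S O V E)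
    (c : E) (hc1 : V.v (c : K) = 1) (hc : ¬ IsSquare c) (s : K) (hs : s * s = c) :
    FRam_S O V ((IntermediateField.adjoin E {s}).restrictScalars L) := by
  have hvs : V.v s = 1 := by
    have h1 : V.v s ^ 2 = 1 ^ 2 := by
      rw [← FRam_pow, pow_two s, hs, hc1, one_pow]
    exact (pow_left_inj₀ (V.nonneg _) zero_le_one two_ne_zero).1 h1
  have hs0 : s ≠ 0 := by
    intro h
    rw [h, (V.zero_iff 0).2 rfl] at hvs
    exact zero_ne_one hvs
  have hc0 : (c : K) ≠ 0 := by
    rw [← hs]
    exact mul_ne_zero hs0 hs0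
  -- the key case
  have key : ∀ t : E, ∃ m : ℤ, V.v ((t : K) + s) = (2 : ℝ) ^ m := by
    intro t
    rcases lt_trichotomy (V.v (t : K)) 1 with h | h | h
    · refine ⟨0, ?_⟩
      rw [FRam_add_eq V (by rw [hvs]; exact h), hvs, zpow_zero]
    · refine ⟨0, ?_⟩
      rw [zpow_zero]
      apply le_antisymm
      · refine (V.add _ _).trans ?_
        rw [h, hvs, max_self]
      · by_contra hlt
        push Not at hlt
        obtain ⟨VE⟩ := O.ext E
        apply hc
        have ht0 : t ≠ 0 := by
          intro h0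
          rw [h0, show ((0 : E) : K) = 0 from rfl, (V.zero_iff 0).2 rfl] at h
          exact zero_ne_one h
        have hcE : c ≠ 0 := fun h0 => hc0 (by rw [h0]; rfl)
        -- `t ^ 2 / c` is a square in `E`
        have hsq : IsSquare (t ^ 2 / c) := by
          apply VE.one_unit
          rw [FRam_agree O V E VE]
          have e1 : (((t ^ 2 / c - 1 : E)) : K) = ((t : K) + s) * ((t : K) - s) * (c : K)⁻¹ := by
            push_cast
            field_simp
            linear_combination hs
          rw [e1, V.mul, V.mul, FRam_inv V hc0, hc1, inv_one, mul_one]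
          have e2 : V.v ((t : K) - s) ≤ 1 := by
            rw [sub_eq_add_neg]
            refine (V.add _ _).trans ?_
            rw [FRam_neg, h, hvs, max_self]
          calc V.v ((t : K) + s) * V.v ((t : K) - s) ≤ V.v ((t : K) + s) * 1 :=
                mul_le_mul_of_nonneg_left e2 (V.nonneg _)
            _ < 1 := by rw [mul_one]; exact hlt
        have e3 : c = t ^ 2 / (t ^ 2 / c) := by
          field_simp
        rw [e3]
        exact (IsSquare.sq t).div hsq
    · obtain ⟨m, hm⟩ := hE (t : K) t.2 (by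
        intro h0
        rw [h0, (V.zero_iff 0).2 rfl] at h
        linarith)
      refine ⟨m, ?_⟩
      rw [add_comm, FRam_add_eq V (by rw [hvs]; exact h), hm]
  intro y hy hy0
  obtain ⟨a, b, rfl⟩ := FRam_mem_adjoin E s c hs y hy
  by_cases hb : b = 0
  · subst hb
    have e1 : ((a : K) + ((0 : E) : K) * s) = a := by
      rw [show ((0 : E) : K) = 0 from rfl, zero_mul, add_zero]
    rw [e1] at hy0 ⊢
    exact hE _ a.2 hy0
  · have hbK : (b : K) ≠ 0 := fun h0 => hb (Subtype.ext h0)
    obtain ⟨m1, hm1⟩ := hE _ b.2 hbK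
    obtain ⟨m2, hm2⟩ := key (a / b)
    refine ⟨m1 + m2, ?_⟩
    have e1 : ((a : K) + (b : K) * s) = (b : K) * (((a / b : E) : K) + s) := by
      push_cast
      field_simp
    rw [e1, V.mul, hm1, hm2, zpow_add₀ (two_ne_zero : (2 : ℝ) ≠ 0)]

end

theorem norm_isSquare_of_ram {L : Type} [Field L] (O : OLF L) (K : Type) [Field K] [Algebra L K]
    [FiniteDimensional L K] (V : LVal L O.w K) (x : K) (hx : V.v x ^ 2 = 1 / 2) (u : K) (hu : V.v u = 1) :
    IsSquare (Algebra.norm L u) := by
  obtain ⟨E, hE, hmax⟩ := FRam_max O V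
  rw [← Algebra.norm_norm (R := L) (S := E) (A := K) (a := u)]
  apply IsSquare.map
  have hN : V.v ((Algebra.norm E u : E) : K) = 1 := by rw [FRam_norm O, hu, one_pow]
  by_cases hall : ∀ c : E, V.v (c : K) = 1 → IsSquare c
  · exact hall _ hN
  push Not at hall
  obtain ⟨c, hc1, hc⟩ := hall
  have hcE : c ≠ 0 := by
    rintro rfl
    exact hc ⟨0, by simp⟩
  by_cases hcK : IsSquare (c : K)
  · exfalso
    obtain ⟨s, hs⟩ := hcK
    have hE' := hmax _ (FRam_quad O V E hE c hc1 hc s hs.symm) (by
      intro y hy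
      change y ∈ IntermediateField.adjoin E {s}
      exact (IntermediateField.adjoin E {s}).algebraMap_mem ⟨y, hy⟩)
    have hsE : s ∈ (IntermediateField.adjoin E {s}).restrictScalars L := by
      change s ∈ IntermediateField.adjoin E {s}
      exact IntermediateField.mem_adjoin_simple_self E s
    rw [hE'] at hsE
    exact hc ⟨⟨s, hsE⟩, Subtype.ext hs⟩
  · rcases V.two_classes u (c : K) hu hc1 hcK with h | h
    · exact IsSquare.map (Algebra.norm E) h
    · have h1 : IsSquare (Algebra.norm E (u * (c : K))) := IsSquare.map (Algebra.norm E) h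
      have h2 : Algebra.norm E (c : K) = c ^ Module.finrank E K := Algebra.norm_algebraMap c
      rw [map_mul, h2] at h1
      -- the degree is even
      have heven : Even (Module.finrank E K) := by
        have hx0 : x ≠ 0 := by
          intro h0
          rw [h0, (V.zero_iff 0).2 rfl] at hx
          norm_num at hx
        have hNx0 : ((Algebra.norm E x : E) : K) ≠ 0 := by
          intro h0
          exact (Algebra.norm_ne_zero_iff.2 hx0) (Subtype.ext h0)
        obtain ⟨m, hm⟩ := hE _ (Algebra.norm E x).2 hNx0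
        rw [FRam_norm O] at hm
        have h3 : (2 : ℝ) ^ (-((Module.finrank E K : ℕ) : ℤ)) = (2 : ℝ) ^ (m + m) := by
          rw [zpow_add₀ (two_ne_zero : (2 : ℝ) ≠ 0), ← hm, zpow_neg, zpow_natCast, ← inv_pow,
            show (2 : ℝ)⁻¹ = V.v x ^ 2 by rw [hx]; norm_num]
          ring
        have h4 := (zpow_right_inj₀ (by norm_num : (0 : ℝ) < 2) (by norm_num : (2 : ℝ) ≠ 1)).1 h3
        have h5 : Even ((Module.finrank E K : ℕ) : ℤ) := ⟨-m, by linarith⟩
        exact_mod_cast h5
      have h6 : IsSquare (c ^ Module.finrank E K) := heven.isSquare_pow c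
      have h7 : Algebra.norm E u = Algebra.norm E u * c ^ Module.finrank E K / c ^ Module.finrank E K := by
        rw [mul_div_cancel_right₀]
        exact pow_ne_zero _ hcE
      rw [h7]
      exact h1.div h6

end FZ
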