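import Pool.Agent.Lib.MP_1ad228_nt.FF.FGlue
import Pool.Agent.Lib.MP_1ad228_nt.FF.FSq
import Pool.Agent.Lib.MP_1ad228_nt.FF.FEuler

/-! MP_1ad228_nt, function field case, relative version.  Definitions for the local solubility and the counting parts. -/

namespace FZ

open Finset Polynomial

/-- There are zero-cycles of degree one over all the completions of `F(t)`. -/
def LocalCyc {F : Type} [Field F] {ι : Type} [Fintype ι] (a : ι → F[X]) (D : F[X]) : Prop :=
  ∀ v : Pl F, ∃ z : Cyc (Kv v) (fun i => ev v (a i)) (ev v D), z.deg = 1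

open Classical in
/-- A non-square constant `ε` and the primes dividing `Rb a`. -/
noncomputable def EE {F : Type} [Field F] {ι : Type} [Fintype ι] [DecidableEq ι] (a : ι → F[X]) (ε : F) :
    Finset F[X] :=
  insert (C ε) (pfac (Rb a))

/-- The set of twists for which we prove local solubility. -/
def InD {F : Type} [Field F] [Fintype F] [DecidableEq F] {ι : Type} [Fintype ι] [DecidableEq ι] (a : ι → F[X])
    (ε : F) (i j : ι) (D : F[X]) : Prop :=
  D.Monic ∧ Squarefree D ∧ IsCoprime D (Rb a) ∧ (∀ e ∈ EE a ε, jac e D = 1) ∧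
    ∀ P : F[X], P.Monic → Irreducible P → P ∣ D → jac (a i) P = 1 ∨ jac (a j) P = 1

/-- the number of elements of `F`, as a real number -/
noncomputable def qq (F : Type) [Field F] [Fintype F] : ℝ := (Fintype.card F : ℝ)

theorem two_le_qq (F : Type) [Field F] [Fintype F] : 2 ≤ qq F := by
  unfold qq
  exact_mod_cast two_le_card F

/-- the von Mangoldt function: `deg P` for the powers `P^k`, `k ≥ 1`, of the monic irreducible `P`, and zero otherwise -/
noncomputable def lam {F : Type} [Field F] (f : F[X]) : ℝ :=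
  if (pfac f).card = 1 then ∑ P ∈ pfac f, (P.natDegree : ℝ) else 0

open Classical in
/-- the monic divisors of a polynomial `f ≠ 0` -/
noncomputable def mdiv {F : Type} [Field F] [Fintype F] (f : F[X]) : Finset F[X] :=
  (range (f.natDegree + 1)).biUnion fun k => (mon F k).filter (fun d => d ∣ f)

theorem mem_mdiv {F : Type} [Field F] [Fintype F] {f d : F[X]} (hf : f ≠ 0) :
    d ∈ mdiv f ↔ d.Monic ∧ d ∣ f := by
  classical
  unfold mdiv
  simp only [mem_biUnion, mem_range, mem_filter, mem_mon]
  constructor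
  · rintro ⟨k, hk, ⟨h1, h2⟩, h3⟩
    exact ⟨h1, h3⟩
  · rintro ⟨h1, h3⟩
    exact ⟨d.natDegree, Nat.lt_succ_of_le (natDegree_le_of_dvd h3 hf), ⟨h1, rfl⟩, h3⟩

end FZ
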