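import Pool.Agent.Lib.MP_1ad228_nt.FF.FRel

/-! MP_1ad228_nt, function field case.  The definitions in the form in which they are used in the statement: the completions
`Comp v` of `F(t)` as types with their field structure. -/

namespace FS

open Polynomial

/-- The places of the field `F(t)`, `F` a finite field: the normalised discrete valuations `F(t) → ℤ ∪ {∞}`
(written multiplicatively). -/
def Pl (F : Type) [Field F] : Type :=
  {v : Valuation (RatFunc F) (WithZero (Multiplicative ℤ)) // Function.Surjective v}

/-- The valuation of a place. -/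
def val {F : Type} [Field F] (v : Pl F) : Valuation (RatFunc F) (WithZero (Multiplicative ℤ)) := v.1

/-- The completion of `F(t)` at a place. -/
def Comp {F : Type} [Field F] (v : Pl F) : Type := (val v).Completion

noncomputable instance fieldComp {F : Type} [Field F] (v : Pl F) : Field (Comp v) :=
  (inferInstance : Field (val v).Completion)

/-- The embedding of `F(t)` in its completion at a place. -/
noncomputable def emb {F : Type} [Field F] (v : Pl F) : RatFunc F →+* Comp v :=
  (UniformSpace.Completion.coeRingHom (α := WithVal (val v))).comp (WithVal.equiv (val v)).symm.toRingHom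

/-- The embedding of `F[t]` in `F(t)`. -/
noncomputable def inc (F : Type) [Field F] : F[X] →+* RatFunc F := algebraMap F[X] (RatFunc F)

/-- The places at which the quaternion algebra `(c_v, β)` is not split. -/
def badPlaces {F : Type} [Field F] (c : ∀ v : Pl F, Comp v) (β : RatFunc F) : Set (Pl F) :=
  {v | ¬ FZ.Split (Comp v) (c v) (emb v β)}

/-- The sum of the local invariants of `(c_v, β)` over all places is zero: only finitely many are nonzero, and the number
of the nonzero ones is even. -/
def SumZero {F : Type} [Field F] (c : ∀ v : Pl F, Comp v) (β : RatFunc F) : Prop :=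
  (badPlaces c β).Finite ∧ Even (badPlaces c β).ncard

/-- The zero-cycles on `C_D` over the completion of `F(t)` at `v`. -/
abbrev LCyc {F : Type} [Field F] {ι : Type} [Fintype ι] (a : ι → F[X]) (D : F[X]) (v : Pl F) : Type 1 :=
  FZ.Cyc (Comp v) (fun i => emb v (inc F (a i))) (emb v (inc F D))

/-- There are zero-cycles of degree one on `C_D` over all the completions of `F(t)`. -/
def LocalCyc {F : Type} [Field F] {ι : Type} [Fintype ι] (a : ι → F[X]) (D : F[X]) : Prop :=
  ∀ v : Pl F, ∃ z : LCyc a D v, z.deg = 1

/-- There is a family of zero-cycles of degree one on `C_D`, one for each place of `F(t)`, which is orthogonal to all the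
Brauer classes `(x² - a_i z², β)`, `β ∈ F(t)*`. -/
def Adelic {F : Type} [Field F] {ι : Type} [Fintype ι] (a : ι → F[X]) (D : F[X]) : Prop :=
  ∃ z : ∀ v : Pl F, LCyc a D v,
    (∀ v, (z v).deg = 1) ∧ ∀ (i : ι) (β : RatFunc F), β ≠ 0 → SumZero (fun v => (z v).cls i) β

/-- There is a zero-cycle of degree one on `C_D` over `F(t)`. -/
def Global {F : Type} [Field F] {ι : Type} [Fintype ι] (a : ι → F[X]) (D : F[X]) : Prop :=
  ∃ z : FZ.Cyc (RatFunc F) (fun i => inc F (a i)) (inc F D), z.deg = 1

theorem localCyc_iff {F : Type} [Field F] {ι : Type} [Fintype ι] (a : ι → F[X]) (D : F[X]) :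
    LocalCyc a D ↔ FZ.LocalCyc a D := Iff.rfl

theorem adelic_iff {F : Type} [Field F] {ι : Type} [Fintype ι] (a : ι → F[X]) (D : F[X]) :
    Adelic a D ↔ FZ.Adelic a D := Iff.rfl

theorem global_iff {F : Type} [Field F] {ι : Type} [Fintype ι] (a : ι → F[X]) (D : F[X]) :
    Global a D ↔ FZ.Global a D := Iff.rfl

end FS
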