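import Pool.Agent.Lib.MP_1ad228_nt.FF.FJac

/-! JOB FSum.  Complete character sums over `F[t]`.  Models over `ℤ`: `Pool/Agent/Lib/MP_10e784_ag/QPeriod.lean`, `QCharSum.lean`.

`exists_jac_neg_one`: `n` monic, not a square.  Some monic irreducible `P ∣ n` has odd multiplicity `e`, `n = P^e n'`, `P ∤ n'`; take `g` which is not a square mod `P` (the field `F[t]/P` has odd order, `FiniteField.exists_nonsquare`;
`jac_prime`), `c ≡ g mod P`, `c ≡ 1 mod n'` (Chinese remainder, `IsCoprime`); `jac c n = (jac g P)^e * jac 1 n' = -1`.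
`sum_mod`: if `φ : F[X] → ℝ` depends only on the class mod `n` (`n` monic of degree `d`) and `m ≥ d`, then `∑_{f ∈ mon m} φ f = q^(m-d) ∑_{r, deg r < d} φ r`: `f ↦ (f /ₘ n, f %ₘ n)` is a bijection of `mon m` with
`mon (m-d) × {r | degree r < d}` (`Polynomial.modByMonic_add_div`, uniqueness `Polynomial.div_modByMonic_unique`).
`sum_jac`: let `c` be from `exists_jac_neg_one`.  `r ↦ (c r) %ₘ n` is a permutation of the residues `{r | degree r < d}` (`c` is coprime to `n`), and `jac (c r) n = - jac r n`, so the sum over the residues vanishes; `sum_mod`.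
`sum_jac_two`: `jac f n1 * jac f n2 = jac f (n1 n2)` and `n1 n2` is not a square: `n1 ≠ n2` are squarefree and monic, some prime divides exactly one of them, exactly once. -/

namespace FZ

open Finset Polynomial

variable {F : Type} [Field F] [Fintype F] [DecidableEq F]

open Classical in
/-- the residues modulo a polynomial of degree `d` -/
noncomputable def res (F : Type) [Field F] [Fintype F] (d : ℕ) : Finset F[X] :=
  (univ : Finset (Fin d → F)).image fun c => ∑ i : Fin d, C (c i) * X ^ (i : ℕ)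

omit [DecidableEq F] in
theorem mem_res {d : ℕ} {f : F[X]} : f ∈ res F d ↔ f.degree < d := by
  classical
  unfold res
  rw [mem_image]
  constructor
  · rintro ⟨c, -, rfl⟩
    exact degree_sum_fin_lt c
  · intro h
    refine ⟨fun i => f.coeff i, mem_univ _, ?_⟩
    ext k
    rw [finsetSum_coeff]
    simp only [coeff_C_mul_X_pow]
    by_cases hk : k < d
    · rw [Finset.sum_eq_single (⟨k, hk⟩ : Fin d)]
      · simp
      · intro b _ hb
        rw [if_neg]
        intro h'
        apply hb
        ext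
        exact h'.symm
      · intro h'
        exact absurd (mem_univ _) h'
    · rw [Finset.sum_eq_zero]
      · rw [coeff_eq_zero_of_degree_lt]
        exact lt_of_lt_of_le h (by exact_mod_cast not_lt.1 hk)
      · intro i _
        rw [if_neg]
        intro h'
        have := i.isLt
        omega

omit [Fintype F] [DecidableEq F] in
/-- a monic polynomial which is not a square has a prime of odd multiplicity -/
private theorem FSum_odd (k : ℕ) : ∀ n : F[X], n.natDegree = k → n.Monic → ¬ IsSquare n →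
    ∃ (P n' : F[X]) (e : ℕ), P.Monic ∧ Irreducible P ∧ n'.Monic ∧ Odd e ∧ ¬ P ∣ n' ∧ n = P ^ e * n' := by
  induction k using Nat.strong_induction_on with
  | _ k ih =>
    intro n hk hn hsq
    have hn1 : n ≠ 1 := by
      rintro rfl
      exact hsq ⟨1, by simp⟩
    have hnu : ¬ IsUnit n := fun h => hn1 (hn.isUnit_iff.1 h)
    obtain ⟨P, hPm, hPi, hPn⟩ := exists_monic_irreducible_factor n hnu
    have hfin : FiniteMultiplicity P n := FiniteMultiplicity.of_prime_left hPi.prime hn.ne_zero
    obtain ⟨n', hn', hPn'⟩ := hfin.exists_eq_pow_mul_and_not_dvd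
    set e := multiplicity P n with he
    have hn'm : n'.Monic := (hPm.pow e).of_mul_monic_left (hn' ▸ hn)
    have he1 : 1 ≤ e := by
      by_contra h
      have : e = 0 := by omega
      rw [this, pow_zero, one_mul] at hn'
      rw [hn'] at hPn
      exact hPn' hPn
    have hPd : 0 < P.natDegree := hPi.natDegree_pos
    rcases Nat.even_or_odd e with hev | hodd
    · have hdeg : n'.natDegree < k := by
        rw [← hk, hn', (hPm.pow e).natDegree_mul hn'm, hPm.natDegree_pow]
        have : 0 < e * P.natDegree := by positivity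
        omega
      have hsq' : ¬ IsSquare n' := by
        intro h
        apply hsq
        rw [hn']
        exact (hev.isSquare_pow P).mul h
      obtain ⟨Q, n'', f, hQm, hQi, hn''m, hf, hQn'', hn''⟩ := ih _ hdeg n' rfl hn'm hsq'
      refine ⟨Q, P ^ e * n'', f, hQm, hQi, (hPm.pow e).mul hn''m, hf, ?_, ?_⟩
      · intro h
        rcases hQi.prime.dvd_or_dvd h with h1 | h1
        · have h2 : Q ∣ P := hQi.prime.dvd_of_dvd_pow h1
          have h3 : Associated Q P := hQi.associated_of_dvd hPi h2
          have h4 : Q = P := eq_of_monic_of_associated hQm hPm h3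
          apply hPn'
          rw [← h4, hn'']
          exact dvd_mul_of_dvd_left (dvd_pow_self Q hf.pos.ne') _
        · exact hQn'' h1
      · rw [hn', hn'']; ring
    · exact ⟨P, n', e, hPm, hPi, hn'm, hodd, hPn', hn'⟩

theorem exists_jac_neg_one (h2 : ringChar F ≠ 2) {n : F[X]} (hn : n.Monic) (hsq : ¬ IsSquare n) :
    ∃ c : F[X], jac c n = -1 := by
  obtain ⟨P, n', e, hPm, hPi, hn'm, hodd, hPn', hn'⟩ := FSum_odd _ n rfl hn hsq
  have : Fact (Irreducible P) := ⟨hPi⟩
  have hfin : FiniteDimensional F (AdjoinRoot P) := (AdjoinRoot.powerBasis hPi.ne_zero).finite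
  have : Finite (AdjoinRoot P) := Module.finite_of_finite F
  have hchar : ringChar (AdjoinRoot P) ≠ 2 := by
    have : ringChar F = ringChar (AdjoinRoot P) := Algebra.ringChar_eq F (AdjoinRoot P)
    rw [← this]; exact h2
  obtain ⟨a, ha⟩ := FiniteField.exists_nonsquare hchar
  obtain ⟨g, rfl⟩ := AdjoinRoot.mk_surjective a
  have hg0 : ¬ P ∣ g := by
    intro h
    apply ha
    rw [AdjoinRoot.mk_eq_zero.2 h]
    exact ⟨0, by simp⟩
  have hg1 : jac g P = -1 := by
    have h1 : jac g P ≠ 1 := by
      rw [Ne, jac_prime h2 hPm hPi hg0]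
      rintro ⟨h, hh⟩
      apply ha
      refine ⟨AdjoinRoot.mk P h, ?_⟩
      rw [← map_mul, ← pow_two, ← sub_eq_zero, ← map_sub, AdjoinRoot.mk_eq_zero]
      exact hh
    have h0 : jac g P ≠ 0 := by
      rw [jac_ne_zero_iff hPm]
      exact ((hPi.coprime_iff_not_dvd).2 hg0).symm
    rcases jac_cases g P with h | h | h
    · exact absurd h h0
    · exact absurd h h1
    · exact h
  have hcop : IsCoprime (P ^ e) n' := ((hPi.coprime_iff_not_dvd).2 hPn').pow_left
  obtain ⟨u, v, huv⟩ := hcop
  refine ⟨g * (v * n') + u * P ^ e, ?_⟩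
  have hc1 : jac (g * (v * n') + u * P ^ e) P = -1 := by
    rw [← hg1]
    apply jac_mod hPm
    have : g * (v * n') + u * P ^ e - g = P ^ e * (u - g * u) := by
      have : v * n' = 1 - u * P ^ e := by rw [← huv]; ring
      rw [this]; ring
    rw [this]
    exact dvd_mul_of_dvd_left (dvd_pow_self P hodd.pos.ne') _
  have hc2 : jac (g * (v * n') + u * P ^ e) n' = 1 := by
    rw [← jac_one_left hn'm]
    apply jac_mod hn'm
    have : g * (v * n') + u * P ^ e - 1 = n' * (g * v - v) := by
      have : u * P ^ e = 1 - v * n' := by rw [← huv]; ring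
      rw [this]; ring
    rw [this]
    exact dvd_mul_right _ _
  have hpow : ∀ (c : F[X]) (k : ℕ), jac c (P ^ k) = (jac c P) ^ k := by
    intro c k
    induction k with
    | zero => simp [jac_one_right]
    | succ k ih => rw [pow_succ, jac_mul_right (hPm.pow k) hPm, ih, pow_succ]
  rw [hn', jac_mul_right (hPm.pow e) hn'm, hpow, hc1, hc2, hodd.neg_one_pow, mul_one]

omit [DecidableEq F] in
theorem sum_mod {n : F[X]} (hn : n.Monic) (φ : F[X] → ℝ) (hφ : ∀ f g, n ∣ f - g → φ f = φ g) (m : ℕ)
    (hm : n.natDegree ≤ m) :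
    ∑ f ∈ mon F m, φ f = (Fintype.card F : ℝ) ^ (m - n.natDegree) * ∑ r ∈ res F n.natDegree, φ r := by
  classical
  have h1 : ∑ f ∈ mon F m, φ f = ∑ x ∈ mon F (m - n.natDegree) ×ˢ res F n.natDegree, φ x.2 := by
    refine Finset.sum_nbij' (fun f => (f /ₘ n, f %ₘ n)) (fun x => x.2 + n * x.1) ?_ ?_ ?_ ?_ ?_
    · intro f hf
      obtain ⟨hf1, hf2⟩ := (mem_mon F).1 hf
      rw [mem_product]
      constructor
      · rw [mem_mon]
        refine ⟨?_, ?_⟩
        · have := leadingCoeff_divByMonic_of_monic (p := f) hn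
            (by rw [degree_eq_natDegree hn.ne_zero, degree_eq_natDegree hf1.ne_zero, hf2]; exact_mod_cast hm)
          rw [Monic, this]; exact hf1
        · rw [natDegree_divByMonic _ hn, hf2]
      · rw [mem_res, ← degree_eq_natDegree hn.ne_zero]
        exact degree_modByMonic_lt _ hn
    · rintro ⟨g, r⟩ hx
      obtain ⟨hg, hr⟩ := mem_product.1 hx
      obtain ⟨hg1, hg2⟩ := (mem_mon F).1 hg
      rw [mem_res] at hr
      have hng : (n * g).Monic := hn.mul hg1
      have hdeg : (n * g).natDegree = m := by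
        rw [hn.natDegree_mul hg1, hg2]
        omega
      have hlt : degree r < degree (n * g) := by
        refine lt_of_lt_of_le hr ?_
        rw [degree_eq_natDegree hng.ne_zero, hdeg]
        exact_mod_cast hm
      rw [mem_mon]
      refine ⟨?_, ?_⟩
      · show (r + n * g).Monic
        exact hng.add_of_right hlt
      · show (r + n * g).natDegree = m
        rw [natDegree_eq_of_degree_eq (degree_add_eq_right_of_degree_lt hlt), hdeg]
    · intro f _
      exact modByMonic_add_div f n
    · rintro ⟨g, r⟩ hx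
      obtain ⟨hg, hr⟩ := mem_product.1 hx
      rw [mem_res, ← degree_eq_natDegree hn.ne_zero] at hr
      have := div_modByMonic_unique (f := r + n * g) g r hn ⟨rfl, hr⟩
      exact Prod.ext this.1 this.2
    · intro f _
      apply hφ
      refine ⟨f /ₘ n, ?_⟩
      show f - f %ₘ n = n * (f /ₘ n)
      rw [sub_eq_iff_eq_add, add_comm]
      exact (modByMonic_add_div f n).symm
  rw [h1, sum_product]
  simp only [sum_const, nsmul_eq_mul, card_mon, Nat.cast_pow]

/-- the sum over the residues vanishes -/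
private theorem FSum_res (h2 : ringChar F ≠ 2) {n : F[X]} (hn : n.Monic) (hsq : ¬ IsSquare n) :
    ∑ r ∈ res F n.natDegree, (jac r n : ℝ) = 0 := by
  obtain ⟨c, hc⟩ := exists_jac_neg_one h2 hn hsq
  have hcop : IsCoprime c n := (jac_ne_zero_iff hn c).1 (by rw [hc]; norm_num)
  obtain ⟨b, v, hbv⟩ := hcop
  have hmod : ∀ f : F[X], n ∣ f %ₘ n - f := by
    intro f
    refine ⟨-(f /ₘ n), ?_⟩
    have := modByMonic_add_div f n
    linear_combination this
  have hinv : ∀ x y r : F[X], n ∣ x * y - 1 → r.degree < n.degree → (x * ((y * r) %ₘ n)) %ₘ n = r := by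
    intro x y r hxy hr
    have h1 : n ∣ x * ((y * r) %ₘ n) - r := by
      have e : x * ((y * r) %ₘ n) - r = x * ((y * r) %ₘ n - y * r) + (x * y - 1) * r := by ring
      rw [e]
      exact dvd_add (dvd_mul_of_dvd_right (hmod _) _) (dvd_mul_of_dvd_left hxy _)
    obtain ⟨k, hk⟩ := h1
    have := div_modByMonic_unique (f := x * ((y * r) %ₘ n)) k r hn ⟨by rw [← hk]; ring, hr⟩
    exact this.2
  have hkey : ∑ r ∈ res F n.natDegree, (jac r n : ℝ) =
      ∑ r ∈ res F n.natDegree, (jac ((c * r) %ₘ n) n : ℝ) := by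
    symm
    refine Finset.sum_nbij' (fun r => (c * r) %ₘ n) (fun r => (b * r) %ₘ n) ?_ ?_ ?_ ?_ ?_
    · intro r _
      rw [mem_res, ← degree_eq_natDegree hn.ne_zero]
      exact degree_modByMonic_lt _ hn
    · intro r _
      rw [mem_res, ← degree_eq_natDegree hn.ne_zero]
      exact degree_modByMonic_lt _ hn
    · intro r hr
      rw [mem_res, ← degree_eq_natDegree hn.ne_zero] at hr
      apply hinv _ _ _ _ hr
      exact ⟨-v, by linear_combination hbv⟩
    · intro r hr
      rw [mem_res, ← degree_eq_natDegree hn.ne_zero] at hr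
      apply hinv _ _ _ _ hr
      exact ⟨-v, by linear_combination hbv⟩
    · intro r _; rfl
  have hneg : ∑ r ∈ res F n.natDegree, (jac ((c * r) %ₘ n) n : ℝ) =
      - ∑ r ∈ res F n.natDegree, (jac r n : ℝ) := by
    rw [← Finset.sum_neg_distrib]
    refine sum_congr rfl fun r _ => ?_
    rw [jac_mod hn (hmod (c * r)), jac_mul_left hn, hc]
    push_cast
    ring
  linarith [hkey, hneg]

theorem sum_jac (h2 : ringChar F ≠ 2) {n : F[X]} (hn : n.Monic) (hsq : ¬ IsSquare n) (m : ℕ)
    (hm : n.natDegree ≤ m) : ∑ f ∈ mon F m, (jac f n : ℝ) = 0 := by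
  rw [sum_mod hn (fun f => (jac f n : ℝ)) (fun f g h => by rw [jac_mod hn h]) m hm,
    FSum_res h2 hn hsq, mul_zero]

omit [Fintype F] [DecidableEq F] in
private theorem FSum_not_sq {n1 n2 : F[X]} (h1 : n1.Monic) (h1' : n2.Monic) (s1 : Squarefree n1)
    (s2 : Squarefree n2) (hne : n1 ≠ n2) : ¬ IsSquare (n1 * n2) := by
  rintro ⟨s, hs⟩
  have hd : n1 ∣ s := by
    rw [← s1.dvd_pow_iff_dvd (n := 2) (by norm_num), pow_two, ← hs]
    exact dvd_mul_right _ _
  obtain ⟨t, rfl⟩ := hd
  have h3 : n2 = n1 * (t * t) := by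
    apply mul_left_cancel₀ h1.ne_zero
    rw [hs]; ring
  have ht : IsUnit t := s2 t (by rw [h3]; exact dvd_mul_left _ _)
  apply hne
  apply eq_of_monic_of_associated h1 h1'
  rw [h3]
  exact (associated_mul_unit_right n1 _ (ht.mul ht))

theorem sum_jac_two (h2 : ringChar F ≠ 2) {n1 n2 : F[X]} (h1 : n1.Monic) (h1' : n2.Monic) (s1 : Squarefree n1)
    (s2 : Squarefree n2) (hne : n1 ≠ n2) (m : ℕ) (hm : n1.natDegree + n2.natDegree ≤ m) :
    ∑ f ∈ mon F m, (jac f n1 : ℝ) * (jac f n2 : ℝ) = 0 := by
  have h := sum_jac h2 (h1.mul h1') (FSum_not_sq h1 h1' s1 s2 hne) m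
    (by rw [h1.natDegree_mul h1']; exact hm)
  rw [← h]
  refine sum_congr rfl fun f _ => ?_
  rw [jac_mul_right h1 h1']
  push_cast
  ring

end FZ
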